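import Pool.Agent.Work.MP_413ea6_mp.DecA

open Filter Topology Finset

namespace Pool.Agent.Work.MP_413ea6_mp

/-! Decomposition of a height function into the outer path and the rest; second comparison. -/

theorem Dec_inv_sq {γ : ℝ} (hγ : 1 ≤ γ) : 0 ≤ γ⁻¹ ^ 2 ∧ γ⁻¹ ^ 2 ≤ 1 :=
  ⟨sq_nonneg _, pow_le_one₀ (inv_nonneg.2 (zero_le_one.trans hγ)) (inv_le_one_of_one_le₀ hγ)⟩

theorem psi_Psi {γ : ℝ} (hγ : 1 ≤ γ) (Y : ℕ → ℕ) : Psi (psi γ Y) := by
  obtain ⟨h0, h1⟩ := Dec_inv_sq hγ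
  refine ⟨fun j u => ?_, fun j u u' huu => ?_⟩
  · unfold psi
    split_ifs
    exacts [⟨zero_le_one, le_rfl⟩, ⟨h0, h1⟩, ⟨le_rfl, zero_le_one⟩, ⟨le_rfl, zero_le_one⟩]
  · unfold psi
    split_ifs <;> first | omega | exact le_rfl | exact zero_le_one

theorem psi_anti {γ : ℝ} (hγ : 1 ≤ γ) {Y Y' : ℕ → ℕ} (h : Y ≤ Y') (j u : ℕ) :
    psi γ Y' j u ≤ psi γ Y j u := by
  obtain ⟨h0, h1⟩ := Dec_inv_sq hγ
  have a1 : Y j ≤ Y' j := h j
  have a2 : Y (j + 1) ≤ Y' (j + 1) := h (j + 1)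
  unfold psi
  split_ifs <;> first | omega | exact le_rfl | exact zero_le_one

theorem Dec_compat {N : ℕ} {h : Ht} (H : Cls N 0 h) : Compat N (low h) (cnt N h) := by
  intro j h1 h2
  have hl := low_cls H
  constructor
  · rw [lt_cnt_iff H]
    rcases hc : cnt N (low h) j with _ | c
    · rw [H.left h2]; exact h1
    · have h3 : 1 ≤ h c j - 1 := (lt_cnt_iff hl c j).1 (by omega)
      have h4 := (H.1 c j).2.2.2
      omega
  · refine le_of_forall_lt fun i hi => (lt_cnt_iff H i j).2 ?_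
    have h3 : 1 ≤ h i (j + 1) - 1 := (lt_cnt_iff hl i (j + 1)).1 hi
    have h4 := (H.1 i j).2.1
    omega

theorem Dec_up_low {N : ℕ} {h : Ht} (H : Cls N 0 h) : upH (low h) (cnt N h) = h := by
  funext i j
  have h1 := lt_cnt_iff H i j
  unfold upH low
  split_ifs with h2
  · have := h1.1 h2
    omega
  · have : ¬ 1 ≤ h i j := fun h3 => h2 (h1.2 h3)
    omega

theorem Dec_key {N : ℕ} {g : Ht} {X : ℕ → ℕ} (Hg : Cls N 1 g) (HX : IsPath N X)
    (H : Compat N g X) (i j : ℕ) :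
    (1 ≤ g i j → i + 1 < X j) ∧ (1 ≤ g i (j + 1) → i < X j) := by
  rcases Nat.eq_zero_or_pos j with rfl | h1
  · have a1 := Hg.2.1 i
    have a2 := (Hg.1 i 0).1
    rw [zero_add] at a2 ⊢
    omega
  rcases le_or_gt j N with h2 | h2
  · obtain ⟨a1, a2⟩ := H j h1 h2
    refine ⟨fun h => ?_, fun h => ?_⟩
    · have := (lt_cnt_iff Hg i j).2 h
      omega
    · have := (lt_cnt_iff Hg i (j + 1)).2 h
      omega
  · have a1 := Hg.2.2 i j h2.le
    have a2 := Hg.2.2 i (j + 1) (by omega)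
    have a3 := HX.2.2 j h2.le
    omega

theorem Dec_up_cls {N : ℕ} {g : Ht} {X : ℕ → ℕ} (Hg : Cls N 1 g) (HX : IsPath N X)
    (H : Compat N g X) : Cls N 0 (upH g X) := by
  refine ⟨fun i j => ?_, fun i => ?_, fun i j hj => ?_⟩
  · have a1 := Hg.1 i j
    have a2 := Dec_key Hg HX H i j
    have a3 : X j ≤ X (j + 1) := HX.2.1 (Nat.le_succ j)
    unfold upH
    split_ifs <;> omega
  · have a1 := Hg.2.1 i
    have a2 := (Hg.1 i 0).1
    have a3 := HX.1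
    rw [zero_add] at a2
    unfold upH
    split_ifs <;> omega
  · have a1 := Hg.2.2 i j hj
    have a2 := HX.2.2 j hj
    unfold upH
    split_ifs <;> omega

theorem Dec_low_up {N : ℕ} {g : Ht} {X : ℕ → ℕ} (Hg : Cls N 1 g) (HX : IsPath N X)
    (H : Compat N g X) : low (upH g X) = g := by
  funext i j
  have a2 := Dec_key Hg HX H i j
  unfold low upH
  split_ifs <;> omega

theorem Dec_cnt_up {N : ℕ} {g : Ht} {X : ℕ → ℕ} (Hg : Cls N 1 g) (HX : IsPath N X)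
    (H : Compat N g X) : cnt N (upH g X) = X := by
  funext j
  refine eq_of_forall_lt_iff fun i => ?_
  rw [lt_cnt_iff (Dec_up_cls Hg HX H)]
  have a2 := Dec_key Hg HX H i j
  unfold upH
  split_ifs <;> omega

theorem Dec_vanish (γ : ℝ) {N : ℕ} {g : Ht} {X : ℕ → ℕ} (H : ¬ Compat N g X) :
    psiW N (psi γ (cnt N g)) X = 0 := by
  unfold Compat at H
  push Not at H
  obtain ⟨j, h1, h2, h3⟩ := H
  refine prod_eq_zero (mem_Icc.2 ⟨h1, h2⟩) ?_
  unfold psi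
  split_ifs <;> first | rfl | omega

theorem mu_dec {t γ : ℝ} (ht : 0 < t) (hγ : 0 < γ) (z : ℝ) {N : ℕ} (hN : 1 ≤ N)
    (Φ : Ht → (ℕ → ℕ) → ℝ) :
    mu N t γ z (fun h => Φ (low h) (cnt N h)) =
      ∑ g ∈ hts N 1, Wt N t γ g *
        pS N t γ z (fun X => psiW N (psi γ (cnt N g)) X * Φ g X) := by
  classical
  simp only [pS, mul_sum]
  rw [← sum_product', ← sum_filter_of_ne (p := fun p : Ht × (ℕ → ℕ) => Compat N p.1 p.2)
    (fun p _ hp => by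
      by_contra h
      exact hp (by rw [Dec_vanish γ h, zero_mul, mul_zero, mul_zero]))]
  have hm : ∀ p ∈ (hts N 1 ×ˢ paths N).filter (fun p : Ht × (ℕ → ℕ) => Compat N p.1 p.2),
      Cls N 1 p.1 ∧ IsPath N p.2 ∧ Compat N p.1 p.2 := fun p hp => by
    rw [mem_filter, mem_product, mem_hts, mem_paths] at hp
    exact ⟨hp.1.1, hp.1.2, hp.2⟩
  symm
  refine sum_nbij' (fun p => upH p.1 p.2) (fun h => (low h, cnt N h)) (fun p hp => ?_)
    (fun h hh => ?_) (fun p hp => ?_) (fun h hh => Dec_up_low (mem_hts.1 hh)) fun p hp => ?_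
  · obtain ⟨a1, a2, a3⟩ := hm p hp
    exact mem_hts.2 (Dec_up_cls a1 a2 a3)
  · have H := mem_hts.1 hh
    exact mem_filter.2 ⟨mem_product.2 ⟨mem_hts.2 (low_cls H), mem_paths.2 (cnt_isPath H)⟩,
      Dec_compat H⟩
  · obtain ⟨a1, a2, a3⟩ := hm p hp
    exact Prod.ext (Dec_low_up a1 a2 a3) (Dec_cnt_up a1 a2 a3)
  · obtain ⟨a1, a2, a3⟩ := hm p hp
    dsimp only
    rw [Dec_low_up a1 a2 a3, Dec_cnt_up a1 a2 a3, Wt_upH ht hγ z hN a1 a2 a3]
    ring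

theorem Dec_inf {N : ℕ} {g h : Ht} (Hg : Cls N 1 g) (Hh : Cls N 0 h) : Cls N 1 (g ⊓ h) := by
  refine ⟨Hg.1.inf Hh.1, fun i => ?_, fun i j hj => ?_⟩
  · change min (g i 1) (h i 1) = 0
    rw [Hg.2.1, Nat.zero_min]
  · change min (g i j) (h i j) = _
    rw [Hg.2.2 i j hj, Hh.2.2 i j hj]
    omega

theorem Dec_sup {N : ℕ} {g h : Ht} (Hg : Cls N 1 g) (Hh : Cls N 0 h) : Cls N 0 (g ⊔ h) := by
  refine ⟨Hg.1.sup Hh.1, fun i => ?_, fun i j hj => ?_⟩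
  · change max (g i 0) (h i 0) = 0
    have a1 := Hg.2.1 i
    have a2 := (Hg.1 i 0).1
    have a3 := Hh.2.1 i
    rw [zero_add] at a2
    omega
  · change max (g i j) (h i j) = _
    rw [Hg.2.2 i j hj, Hh.2.2 i j hj]
    omega

theorem fkgB {t γ z : ℝ} (ht : 0 < t) (htγ : t ≤ γ) (hγ : 1 ≤ γ) (hz : 0 < z) {N : ℕ}
    (hN : 1 ≤ N) (U : Ht → Prop) (hU : ∀ h h', h ≤ h' → U h → U h') :
    mu N t γ z (fun h => ind (U (low h))) * mu N t γ 1 (fun _ => 1) ≤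
      mu N t γ z (fun _ => 1) * mu N t γ 1 (fun h => ind (U h)) := by
  classical
  have hγ0 : 0 < γ := zero_lt_one.trans_le hγ
  obtain ⟨Z, hZ⟩ : ∃ Z : Ht → ℝ, ∀ g, Z g = pS N t γ z (psiW N (psi γ (cnt N g))) :=
    ⟨_, fun _ => rfl⟩
  have Z0 : ∀ g, 0 ≤ Z g := fun g => by
    rw [hZ]; exact pS_nonneg ht hγ0 hz (psiW_nonneg (psi_Psi hγ _) N)
  have Za : ∀ g g', g ≤ g' → Z g' ≤ Z g := fun g g' h => by
    rw [hZ, hZ]
    exact pS_mono ht hγ0 hz fun X _ _ => prod_le_prod (fun _ _ => ((psi_Psi hγ _).1 _ _).1)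
      fun j _ => psi_anti hγ (cnt_mono N h) j _
  have W0 : ∀ g, 0 ≤ Wt N t γ g := fun g => (Wt_pos ht hγ0 N g).le
  have I0 := ind_nonneg
  have e1 : mu N t γ z (fun h => ind (U (low h))) =
      ∑ g ∈ hts N 1, ind (Cls N 1 g) * (Wt N t γ g * (Z g * ind (U g))) := by
    rw [mu_dec ht hγ0 z hN fun g _ => ind (U g)]
    refine sum_congr rfl fun g hg => ?_
    rw [ind_pos (mem_hts.1 hg), one_mul, hZ, mul_comm _ (ind (U g)), ← pS_smul N t γ z (ind _)]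
    simp only [mul_comm]
  have e3 : mu N t γ z (fun _ => 1) = ∑ g ∈ hts N 1, ind (Cls N 1 g) * (Wt N t γ g * Z g) := by
    rw [mu_dec ht hγ0 z hN fun _ _ => 1]
    refine sum_congr rfl fun g hg => ?_
    rw [ind_pos (mem_hts.1 hg), one_mul, hZ]
    simp only [mul_one]
  have e2 : ∀ φ : Ht → ℝ, mu N t γ 1 φ =
      ∑ g ∈ hts N 0, ind (Cls N 0 g) * (Wt N t γ g * φ g) := fun φ =>
    sum_congr rfl fun g hg => by rw [ind_pos (mem_hts.1 hg), one_mul, one_pow, mul_one]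
  have p1 : ∀ g, 0 ≤ ind (Cls N 1 g) * (Wt N t γ g * (Z g * ind (U g))) := fun g =>
    mul_nonneg (I0 _) (mul_nonneg (W0 _) (mul_nonneg (Z0 _) (I0 _)))
  have p2 : ∀ g, 0 ≤ ind (Cls N 0 g) * (Wt N t γ g * 1) := fun g =>
    mul_nonneg (I0 _) (mul_nonneg (W0 _) zero_le_one)
  have p3 : ∀ g, 0 ≤ ind (Cls N 1 g) * (Wt N t γ g * Z g) := fun g =>
    mul_nonneg (I0 _) (mul_nonneg (W0 _) (Z0 _))
  have p4 : ∀ g, 0 ≤ ind (Cls N 0 g) * (Wt N t γ g * ind (U g)) := fun g =>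
    mul_nonneg (I0 _) (mul_nonneg (W0 _) (I0 _))
  rw [e1, e3, e2, e2]
  refine (four_functions_theorem _ _ _ _ p1 p2 p3 p4 (fun g h => ?_) _ _).trans ?_
  · by_cases Hg : Cls N 1 g
    swap
    · rw [ind_neg Hg, zero_mul, zero_mul]
      exact mul_nonneg (p3 _) (p4 _)
    by_cases Hh : Cls N 0 h
    swap
    · rw [ind_neg Hh, zero_mul, mul_zero]
      exact mul_nonneg (p3 _) (p4 _)
    rw [ind_pos Hg, ind_pos Hh, ind_pos (Dec_inf Hg Hh), ind_pos (Dec_sup Hg Hh)]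
    have a1 := mul_le_mul (Za _ _ (inf_le_left : g ⊓ h ≤ g))
      (ind_mono (hU _ _ (le_sup_left : g ≤ g ⊔ h))) (I0 _) (Z0 _)
    have a2 := mul_le_mul (Wt_super ht htγ hγ N g h) a1 (mul_nonneg (Z0 _) (I0 _))
      (mul_nonneg (W0 _) (W0 _))
    refine le_of_eq_of_le ?_ (a2.trans_eq ?_) <;> ring
  · refine mul_le_mul (sum_le_sum_of_subset_of_nonneg ?_ fun g _ _ => p3 g)
      (sum_le_sum_of_subset_of_nonneg ?_ fun g _ _ => p4 g) (sum_nonneg fun g _ => p4 g)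
      (sum_nonneg fun g _ => p3 g)
    · exact infs_subset_iff.2 fun g hg h hh => mem_hts.2 (Dec_inf (mem_hts.1 hg) (mem_hts.1 hh))
    · exact sups_subset_iff.2 fun g hg h hh => mem_hts.2 (Dec_sup (mem_hts.1 hg) (mem_hts.1 hh))

end Pool.Agent.Work.MP_413ea6_mp
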