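import Pool.Agent.Work.MP_413ea6_mp.Hts

open Filter Topology Finset

namespace Pool.Agent.Work.MP_413ea6_mp

/-! The weight of a height function, row by row, in terms of the outer path and the rest. -/

/-- Put an outer path `X` back on top of `g`. -/
def upH (g : Ht) (X : ℕ → ℕ) : Ht := fun i j => g i j + if i < X j then 1 else 0

/-- The outer path stays outside the second path. -/
def Compat (N : ℕ) (g : Ht) (X : ℕ → ℕ) : Prop :=
  ∀ j, 1 ≤ j → j ≤ N → cnt N g j < X j ∧ cnt N g (j + 1) ≤ X j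

theorem DecA_shift (t γ : ℝ) (a b c d : ℕ) :
    lv t γ (a + 1) (b + 1) (c + 1) (d + 1) = lv t γ a b c d := by
  unfold lv
  have e1 : (((c + 1 : ℕ) : ℤ) - ((b + 1 : ℕ) : ℤ) - 1) = (c : ℤ) - b - 1 := by push_cast; ring
  have e2 : (((a + 1 : ℕ) : ℤ) - ((d + 1 : ℕ) : ℤ)) = (a : ℤ) - d := by push_cast; ring
  rw [e1, e2]

theorem DecA_0000 (t : ℝ) {γ : ℝ} (hγ : 0 < γ) : lv t γ 0 0 0 0 = 1 := by
  simp [lv, hγ.ne']

theorem DecA_0010 (t γ : ℝ) : lv t γ 0 0 1 0 = γ := by
  simp [lv]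

theorem DecA_0011 (t : ℝ) {γ : ℝ} (hγ : 0 < γ) : lv t γ 0 0 1 1 = t := by
  simp only [lv]
  norm_num
  field_simp

theorem DecA_1011 (t γ : ℝ) : lv t γ 1 0 1 1 = γ := by
  simp [lv]

theorem DecA_1010 (t : ℝ) {γ : ℝ} (hγ : 0 < γ) : lv t γ 1 0 1 0 = t := by
  simp only [lv]
  norm_num
  field_simp

theorem DecA_1021 (t : ℝ) {γ : ℝ} (hγ : 0 < γ) : lv t γ 1 0 2 1 = 1 := by
  simp only [lv]
  norm_num
  field_simp

/-- Weight ratio of the vertices east of the column where the path enters the row. -/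
noncomputable def DecA_e (t γ : ℝ) (p u i : ℕ) : ℝ :=
  if p ≤ i then (if i + 1 < u then t else if i + 1 = u then γ else 1) else 1

theorem DecA_prod_aux (t γ : ℝ) {p u : ℕ} (hpu : p ≤ u) (M : ℕ) :
    ∏ i ∈ range M, DecA_e t γ p u i =
      if M < u then t ^ (M - p) else if p = u then 1 else γ * t ^ (u - p - 1) := by
  induction M with
  | zero =>
    rw [prod_range_zero]
    by_cases h : 0 < u
    · rw [if_pos h, Nat.zero_sub, pow_zero]
    · rw [if_neg h, if_pos (by omega)]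
  | succ M ih =>
    rw [prod_range_succ, ih]
    unfold DecA_e
    by_cases h1 : M + 1 < u
    · rw [if_pos h1, if_pos h1, if_pos (show M < u by omega)]
      by_cases h2 : p ≤ M
      · rw [if_pos h2, show M + 1 - p = M - p + 1 by omega, pow_succ]
      · rw [if_neg h2, show M + 1 - p = M - p by omega, mul_one]
    · rw [if_neg h1, if_neg h1]
      by_cases h3 : M + 1 = u
      · rw [if_pos h3, if_pos (show M < u by omega)]
        by_cases h2 : p ≤ M
        · rw [if_pos h2, if_neg (show ¬ p = u by omega), show u - p - 1 = M - p by omega,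
            mul_comm]
        · rw [if_neg h2, if_pos (show p = u by omega), show M - p = 0 by omega, pow_zero,
            mul_one]
      · rw [if_neg h3, if_neg (show ¬ M < u by omega), ite_self, mul_one]

theorem DecA_prod (t γ : ℝ) {p u N : ℕ} (hpu : p ≤ u) (huN : u ≤ N) :
    ∏ i ∈ range N, DecA_e t γ p u i = if p = u then 1 else γ * t ^ (u - p - 1) := by
  rw [DecA_prod_aux t γ hpu, if_neg (by omega)]

/-- East of the entry column the lower heights vanish. -/
theorem DecA_east (t : ℝ) {γ : ℝ} (hγ : 0 < γ) {g : Ht} {X : ℕ → ℕ} {i j : ℕ}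
    (hi : X j ≤ i) (h1 : g i j = 0) (h2 : g (i + 1) j = 0) (h3 : g i (j + 1) = 0)
    (h4 : g (i + 1) (j + 1) = 0) :
    lv t γ (upH g X i j) (upH g X (i + 1) j) (upH g X i (j + 1)) (upH g X (i + 1) (j + 1)) =
      lv t γ (g i j) (g (i + 1) j) (g i (j + 1)) (g (i + 1) (j + 1)) *
        DecA_e t γ (X j) (X (j + 1)) i := by
  unfold upH DecA_e
  rw [h1, h2, h3, h4, DecA_0000 t hγ, one_mul, if_neg (show ¬ i < X j by omega),
    if_neg (show ¬ i + 1 < X j by omega), if_pos hi]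
  by_cases k1 : i + 1 < X (j + 1)
  · rw [if_pos k1, if_pos k1, if_pos (show i < X (j + 1) by omega)]
    exact DecA_0011 t hγ
  · rw [if_neg k1, if_neg k1]
    by_cases k2 : i + 1 = X (j + 1)
    · rw [if_pos k2, if_pos (show i < X (j + 1) by omega)]
      exact DecA_0010 t γ
    · rw [if_neg k2, if_neg (show ¬ i < X (j + 1) by omega)]
      exact DecA_0000 t hγ

theorem DecA_zero {N : ℕ} {g : Ht} (Hg : Cls N 1 g) {i j : ℕ} (h : cnt N g j ≤ i) :
    g i j = 0 := by
  have := lt_cnt_iff Hg i j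
  omega

/-- One vertex of an inner row. -/
theorem DecA_vertex (t : ℝ) {γ : ℝ} (hγ : 0 < γ) {N : ℕ} {g : Ht} {X : ℕ → ℕ}
    (Hg : Cls N 1 g) {j : ℕ} (h1 : cnt N g j < X j) (h2 : cnt N g (j + 1) ≤ X j)
    (h3 : cnt N g (j + 1) < X (j + 1)) (h4 : X j ≤ X (j + 1)) (i : ℕ) :
    lv t γ (upH g X i j) (upH g X (i + 1) j) (upH g X i (j + 1)) (upH g X (i + 1) (j + 1)) =
      lv t γ (g i j) (g (i + 1) j) (g i (j + 1)) (g (i + 1) (j + 1)) *
        (DecA_e t γ (X j) (X (j + 1)) i *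
          if X j - 1 = i then
            (if X j = X (j + 1) then t else γ) * psi γ (cnt N g) j (X j) else 1) := by
  rcases lt_trichotomy (i + 1) (X j) with k | k | k
  · unfold upH DecA_e
    rw [if_pos (show i < X j by omega), if_pos k, if_pos (show i < X (j + 1) by omega),
      if_pos (show i + 1 < X (j + 1) by omega), if_neg (show ¬ X j ≤ i by omega),
      if_neg (show ¬ X j - 1 = i by omega), DecA_shift, mul_one, mul_one]
  · have z1 : g i j = 0 := DecA_zero Hg (by omega)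
    have z2 : g (i + 1) j = 0 := DecA_zero Hg (by omega)
    have z4 : g (i + 1) (j + 1) = 0 := DecA_zero Hg (by omega)
    unfold upH DecA_e psi
    rw [z1, z2, z4, if_pos (show i < X j by omega), if_neg (show ¬ i + 1 < X j by omega),
      if_pos (show i < X (j + 1) by omega), if_neg (show ¬ X j ≤ i by omega),
      if_pos (show X j - 1 = i by omega), if_pos h1, one_mul]
    by_cases k1 : cnt N g (j + 1) < X j
    · have z3 : g i (j + 1) = 0 := DecA_zero Hg (by omega)
      rw [z3, if_pos k1, DecA_0000 t hγ, one_mul, mul_one]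
      by_cases k2 : X j = X (j + 1)
      · rw [if_pos k2, if_neg (show ¬ i + 1 < X (j + 1) by omega)]
        exact DecA_1010 t hγ
      · rw [if_neg k2, if_pos (show i + 1 < X (j + 1) by omega)]
        exact DecA_1011 t γ
    · have z3 : g i (j + 1) = 1 := by
        have a1 := (lt_cnt_iff Hg i (j + 1)).1 (by omega)
        have a2 := (Hg.1 i j).2.1
        omega
      rw [z3, if_neg k1, if_pos (show cnt N g (j + 1) = X j by omega),
        if_neg (show ¬ X j = X (j + 1) by omega), if_pos (show i + 1 < X (j + 1) by omega),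
        DecA_0010]
      have e : γ * (γ * γ⁻¹ ^ 2) = 1 := by field_simp
      rw [e]
      exact DecA_1021 t hγ
  · rw [if_neg (show ¬ X j - 1 = i by omega), mul_one]
    exact DecA_east t hγ (by omega) (DecA_zero Hg (by omega)) (DecA_zero Hg (by omega))
      (DecA_zero Hg (by omega)) (DecA_zero Hg (by omega))

/-- The weight of row `j + 1`. -/
noncomputable def DecA_row (N : ℕ) (t γ : ℝ) (h : Ht) (j : ℕ) : ℝ :=
  ∏ i ∈ range N, lv t γ (h i j) (h (i + 1) j) (h i (j + 1)) (h (i + 1) (j + 1))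

theorem DecA_Wt {N : ℕ} (hN : 1 ≤ N) (t γ : ℝ) (h : Ht) :
    Wt N t γ h = DecA_row N t γ h 0 * ∏ j ∈ Ico 1 N, DecA_row N t γ h j := by
  unfold Wt
  rw [Finset.prod_comm]
  change ∏ j ∈ range N, DecA_row N t γ h j = _
  rw [range_eq_Ico, prod_eq_prod_Ico_succ_bot (show 0 < N by omega)]

theorem DecA_row_zero (t : ℝ) {γ : ℝ} (hγ : 0 < γ) {N : ℕ} {g : Ht} {X : ℕ → ℕ}
    (Hg : Cls N 1 g) (HX : IsPath N X) (h1 : 1 ≤ X 1) :
    DecA_row N t γ (upH g X) 0 = DecA_row N t γ g 0 * (γ * t ^ (X 1 - 1)) := by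
  have z1 : ∀ i, g i 1 = 0 := Hg.2.1
  have z0 : ∀ i, g i 0 = 0 := fun i => by
    have a1 := (Hg.1 i 0).1
    have a2 := z1 i
    rw [zero_add] at a1
    omega
  have h0 := HX.1
  unfold DecA_row
  rw [prod_congr rfl fun i _ => DecA_east t hγ (X := X) (i := i) (j := 0) (by omega) (z0 i)
    (z0 (i + 1)) (z1 i) (z1 (i + 1)), prod_mul_distrib,
    DecA_prod t γ (HX.2.1 (Nat.zero_le _)) (HX.le _), h0, zero_add,
    if_neg (show ¬ 0 = X 1 by omega), Nat.sub_zero]

theorem DecA_row_inner (t : ℝ) {γ : ℝ} (hγ : 0 < γ) {N : ℕ} {g : Ht} {X : ℕ → ℕ}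
    (Hg : Cls N 1 g) (HX : IsPath N X) (H : Compat N g X) {j : ℕ} (hj : j ∈ Ico 1 N) :
    DecA_row N t γ (upH g X) j = DecA_row N t γ g j *
      (kk t γ (X (j + 1) - X j) * psi γ (cnt N g) j (X j)) := by
  obtain ⟨hj1, hj2⟩ := mem_Ico.1 hj
  obtain ⟨h1, h2⟩ := H j hj1 hj2.le
  have h3 := (H (j + 1) (by omega) hj2).1
  have h4 : X j ≤ X (j + 1) := HX.2.1 (Nat.le_succ j)
  have h5 := HX.le j
  unfold DecA_row
  rw [prod_congr rfl fun i _ => DecA_vertex t hγ Hg h1 h2 h3 h4 i, prod_mul_distrib,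
    prod_mul_distrib, DecA_prod t γ h4 (HX.le _), prod_ite_eq,
    if_pos (mem_range.2 (show X j - 1 < N by omega))]
  unfold kk
  by_cases k : X j = X (j + 1)
  · rw [if_pos k, if_pos k, if_pos (show X (j + 1) - X j = 0 by omega), one_mul]
  · rw [if_neg k, if_neg k, if_neg (show ¬ X (j + 1) - X j = 0 by omega)]
    ring

theorem Wt_upH {t γ : ℝ} (ht : 0 < t) (hγ : 0 < γ) (z : ℝ) {N : ℕ} (hN : 1 ≤ N) {g : Ht}
    {X : ℕ → ℕ} (Hg : Cls N 1 g) (HX : IsPath N X) (H : Compat N g X) :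
    Wt N t γ (upH g X) * z ^ (X 1 - 1) =
      Wt N t γ g * (pw N t γ z X * psiW N (psi γ (cnt N g)) X) := by
  have _ := ht
  have h1 : 1 ≤ X 1 := by
    have := (H 1 le_rfl hN).1
    omega
  have h2 : psi γ (cnt N g) N (X N) = 1 := by
    unfold psi
    rw [HX.2.2 N le_rfl, cnt_top Hg le_rfl, cnt_top Hg (Nat.le_succ N),
      if_pos (show N - 1 < N by omega), if_pos (show N - 1 < N by omega)]
  have h3 : psiW N (psi γ (cnt N g)) X = ∏ j ∈ Ico 1 N, psi γ (cnt N g) j (X j) := by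
    unfold psiW
    rw [← Finset.Ico_add_one_right_eq_Icc, prod_Ico_succ_top hN, h2, mul_one]
  rw [DecA_Wt hN, DecA_Wt hN, DecA_row_zero t hγ Hg HX h1,
    prod_congr rfl fun j hj => DecA_row_inner t hγ Hg HX H hj, prod_mul_distrib,
    prod_mul_distrib, h3]
  unfold pw k0
  rw [if_neg (show ¬ X 1 = 0 by omega), mul_pow]
  ring

end Pool.Agent.Work.MP_413ea6_mp
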