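import Mathlib

/-!
Six-vertex model with domain wall boundary conditions: the definitions used in the statements.
-/

open Filter Topology

namespace Pool.Agent.Work.MP_413ea6_mp

/-- Edge markings on the `N × N` grid (`true` = thick).  `σ.1 k s` is the horizontal edge in row
`s + 1` at horizontal position `k` (west of column `k + 1`, east of column `k`); `σ.2 r k` is the
vertical edge in column `r + 1` at level `k` (south of row `k + 1`, north of row `k`).  So the
vertex `(r + 1, s + 1)` has west edge `σ.1 r.castSucc s`, east edge `σ.1 r.succ s`, south edge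
`σ.2 r s.castSucc` and north edge `σ.2 r s.succ`. -/
abbrev Cfg (N : ℕ) : Type := (Fin (N + 1) → Fin N → Bool) × (Fin N → Fin (N + 1) → Bool)

/-- The ice rule at every vertex and domain wall boundary conditions: west and north boundary
edges thick, south and east boundary edges thin. -/
def IsDW {N : ℕ} (σ : Cfg N) : Prop :=
  (∀ r s : Fin N, (σ.1 r.castSucc s).toNat + (σ.2 r s.castSucc).toNat =
    (σ.1 r.succ s).toNat + (σ.2 r s.succ).toNat) ∧
  (∀ s, σ.1 0 s = true) ∧ (∀ r, σ.2 r (Fin.last N) = true) ∧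
  (∀ r, σ.2 r 0 = false) ∧ (∀ s, σ.1 (Fin.last N) s = false)

/-- Weight of a vertex obeying the ice rule, from its west, south and east edges: `a` for
`w₁, w₂` (west = south), `b` for `w₃, w₄` (straight path), `c` for `w₅, w₆` (turning path). -/
noncomputable def vw (a b c : ℝ) (w s e : Bool) : ℝ :=
  if w = s then a else if w = e then b else c

/-- Product of the vertex weights. -/
noncomputable def weight {N : ℕ} (a b c : ℝ) (σ : Cfg N) : ℝ :=
  ∏ r : Fin N, ∏ s : Fin N, vw a b c (σ.1 r.castSucc s) (σ.2 r s.castSucc) (σ.1 r.succ s)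

open Classical in
/-- Probability of the event `A` in the `N × N` model with domain wall boundary conditions. -/
noncomputable def prob (N : ℕ) (a b c : ℝ) (A : Cfg N → Prop) : ℝ :=
  (∑ σ : Cfg N, if IsDW σ ∧ A σ then weight a b c σ else 0) /
    ∑ σ : Cfg N, if IsDW σ then weight a b c σ else 0

/-- `h_N(z) = ∑_r H_N^{(r)} z^{r-1}` (the index `r : Fin N` stands for column `r + 1`). -/
noncomputable def hgen (N : ℕ) (a b c z : ℝ) : ℝ :=
  ∑ r : Fin N, prob N a b c (fun σ => σ.2 r 1 = true) * z ^ (r : ℕ)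

/-- `r_N(z) = z h_N'(z) / (N h_N(z))`. -/
noncomputable def rN (N : ℕ) (a b c z : ℝ) : ℝ :=
  z * deriv (hgen N a b c) z / (N * hgen N a b c z)

/-- `Δ = (a² + b² - c²) / (2ab)`. -/
noncomputable def Delta (a b c : ℝ) : ℝ := (a ^ 2 + b ^ 2 - c ^ 2) / (2 * a * b)

/-- `λ(z)`, with `t = b / a`. -/
noncomputable def lam (a b c z : ℝ) : ℝ :=
  z * ((b / a) ^ 2 - 2 * Delta a b c * (b / a) + 1) /
    ((z - 1) * ((b / a) ^ 2 * z - 2 * Delta a b c * (b / a) + 1))

/-- `F(x, y; z) = x - λ(z) y - r(z)`, for a given function `r`. -/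
noncomputable def lineF (a b c : ℝ) (r : ℝ → ℝ) (x y z : ℝ) : ℝ := x - lam a b c z * y - r z

/-- All vertices whose rescaled position lies south-east of `(x, y)` are of type `w₁`. -/
def frozen {N : ℕ} (σ : Cfg N) (x y : ℝ) : Prop :=
  ∀ r s : Fin N, x ≤ ((r : ℝ) + 1) / N → ((s : ℝ) + 1) / N ≤ y →
    σ.1 r.castSucc s = false ∧ σ.2 r s.castSucc = false ∧
      σ.1 r.succ s = false ∧ σ.2 r s.succ = false

/-- Emptiness formation probability at the rescaled point `p`. -/
noncomputable def efp (a b c : ℝ) (p : ℝ × ℝ) (N : ℕ) : ℝ :=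
  prob N a b c (fun σ => frozen σ p.1 p.2)

/-- The south-east frozen region: the points whose emptiness formation probability tends to 1. -/
def frozenRegion (a b c : ℝ) : Set (ℝ × ℝ) := {p | Tendsto (efp a b c p) atTop (𝓝 1)}

/-- The curve of the problem: points solving `F = 0` and `∂_z F = 0` for some `z > 1`. -/
def curve (a b c : ℝ) (r : ℝ → ℝ) : Set (ℝ × ℝ) :=
  {p | ∃ z : ℝ, 1 < z ∧ lineF a b c r p.1 p.2 z = 0 ∧ HasDerivAt (lineF a b c r p.1 p.2) 0 z}

end Pool.Agent.Work.MP_413ea6_mp
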