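import Pool.Agent.Work.MP_413ea6_mp.FerroD

-- merged part: Pool.Agent.Work.MP_413ea6_mp.Free
section
open Filter Topology Finset

namespace Pool.Agent.Work.MP_413ea6_mp

/-! The free walk.  `kk d * (z t)⁻¹ ^ d / rho` is a probability on `ℕ` with mean `lamW`, and
`Wn n` is the `n`-fold convolution of `kk`. -/

theorem rho_pos {t γ z : ℝ} (ht : 0 < t) (hγ : 0 < γ) (hz : 1 < z) : 0 < rho t γ z := by
  have h1 : 0 < z - 1 := sub_pos.2 hz
  unfold rho
  positivity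

theorem freeWn_succ (t γ : ℝ) (n d : ℕ) :
    Wn t γ (n + 1) d = ∑ e ∈ range (d + 1), Wn t γ n e * kk t γ (d - e) := by
  rw [Wn]

theorem freeWn_zero (t γ : ℝ) (d : ℕ) : Wn t γ 0 d = if d = 0 then 1 else 0 := by
  rw [Wn]

theorem freeWn_step {t γ : ℝ} (ht : 0 < t) (hγ : 0 < γ) (n : ℕ) {d0 d : ℕ} (h : d0 ≤ d) :
    Wn t γ n d0 * kk t γ (d - d0) ≤ Wn t γ (n + 1) d := by
  rw [freeWn_succ]
  exact single_le_sum (f := fun e => Wn t γ n e * kk t γ (d - e))
    (fun e _ => mul_nonneg (Wn_nonneg ht hγ n e) (kk_pos ht hγ _).le)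
    (mem_range.2 (Nat.lt_succ_of_le h))

theorem Wn_zero_right (t γ : ℝ) (n : ℕ) : Wn t γ n 0 = t ^ n := by
  induction n with
  | zero => rw [freeWn_zero]; simp
  | succ n ih => rw [freeWn_succ]; simp [ih, kk, pow_succ]

theorem Wn_pos {t γ : ℝ} (ht : 0 < t) (hγ : 0 < γ) {n : ℕ} (hn : 1 ≤ n) (d : ℕ) :
    0 < Wn t γ n d := by
  obtain ⟨m, rfl⟩ : ∃ m, n = m + 1 := ⟨n - 1, by omega⟩
  refine lt_of_lt_of_le ?_ (freeWn_step ht hγ m (Nat.zero_le d))
  rw [Wn_zero_right]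
  exact mul_pos (pow_pos ht m) (kk_pos ht hγ _)

theorem freeKK_succ {t γ z : ℝ} (ht : 0 < t) (hz : 1 < z) (d : ℕ) :
    kk t γ (d + 1) * (z * t)⁻¹ ^ (d + 1) = γ ^ 2 * (z * t)⁻¹ * z⁻¹ ^ d := by
  have hz0 : 0 < z := by linarith
  have h1 : t * (z * t)⁻¹ = z⁻¹ := by field_simp
  have h2 : kk t γ (d + 1) = γ ^ 2 * t ^ d := by simp [kk]
  rw [h2, ← h1, mul_pow, pow_succ]
  ring

theorem freeStep {t γ z : ℝ} (ht : 0 < t) (hz : 1 < z) :
    HasSum (fun d => kk t γ d * (z * t)⁻¹ ^ d) (rho t γ z) := by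
  have hz0 : 0 < z := by linarith
  have hz1 : z - 1 ≠ 0 := (sub_pos.2 hz).ne'
  rw [← hasSum_nat_add_iff' 1]
  have h1 : HasSum (fun d : ℕ => γ ^ 2 * (z * t)⁻¹ * z⁻¹ ^ d) (γ ^ 2 * (z * t)⁻¹ * (1 - z⁻¹)⁻¹) :=
    (hasSum_geometric_of_lt_one (inv_pos.2 hz0).le (inv_lt_one_of_one_lt₀ hz)).mul_left _
  have h2 : γ ^ 2 * (z * t)⁻¹ * (1 - z⁻¹)⁻¹
      = rho t γ z - ∑ i ∈ range 1, kk t γ i * (z * t)⁻¹ ^ i := by
    have h3 : 1 - z⁻¹ = (z - 1) / z := by field_simp
    rw [h3]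
    simp only [rho, kk, sum_range_one, if_true, pow_zero, mul_one]
    field_simp
    ring
  rw [← h2]
  simp only [freeKK_succ ht hz]
  exact h1

theorem Wn_hasSum {t γ z : ℝ} (ht : 0 < t) (hγ : 0 < γ) (hz : 1 < z) (n : ℕ) :
    HasSum (fun d => Wn t γ n d * (z * t)⁻¹ ^ d) (rho t γ z ^ n) := by
  induction n with
  | zero =>
    have h := hasSum_single (f := fun d => Wn t γ 0 d * (z * t)⁻¹ ^ d) 0
      (fun d hd => by simp [freeWn_zero, hd])
    simpa [freeWn_zero] using h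
  | succ n ih =>
    have h1 := freeStep (γ := γ) ht hz
    have h2 := hasSum_sum_range_mul_of_summable_norm ih.summable.norm h1.summable.norm
    rw [ih.tsum_eq, h1.tsum_eq, ← pow_succ] at h2
    have h3 : (fun d => Wn t γ (n + 1) d * (z * t)⁻¹ ^ d) = fun d => ∑ k ∈ range (d + 1),
        Wn t γ n k * (z * t)⁻¹ ^ k * (kk t γ (d - k) * (z * t)⁻¹ ^ (d - k)) := by
      funext d
      rw [freeWn_succ, sum_mul]
      refine sum_congr rfl fun k hk => ?_
      have h4 : (z * t)⁻¹ ^ d = (z * t)⁻¹ ^ k * (z * t)⁻¹ ^ (d - k) := by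
        rw [← pow_add, Nat.add_sub_cancel' (Nat.lt_succ_iff.1 (mem_range.1 hk))]
      rw [h4]
      ring
    rw [h3]
    exact h2

theorem free_le {t γ z : ℝ} (ht : 0 < t) (hγ : 0 < γ) (hz : 1 < z) (n d : ℕ) :
    Wn t γ n d * (z * t)⁻¹ ^ d ≤ rho t γ z ^ n := by
  have hz0 : 0 < z := by linarith
  exact le_hasSum (Wn_hasSum ht hγ hz n) d
    (fun j _ => mul_nonneg (Wn_nonneg ht hγ n j) (by positivity))

theorem freeDeriv {t γ z : ℝ} (ht : 0 < t) (hγ : 0 < γ) (hz : 1 < z) :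
    HasDerivAt (fun s => rho t γ (z * Real.exp s) * Real.exp (lamW t γ z * s)) 0 0 := by
  have hz1 : 0 < z - 1 := sub_pos.2 hz
  have h1 : HasDerivAt (fun s => t * (z * Real.exp s - 1)) (t * (z * Real.exp 0)) 0 :=
    (((Real.hasDerivAt_exp 0).const_mul z).sub_const 1).const_mul t
  have h0 : t * (z * Real.exp 0 - 1) ≠ 0 := by
    rw [Real.exp_zero, mul_one]; positivity
  have h2 := ((h1.inv h0).const_mul (γ ^ 2)).const_add t
  have h3 : HasDerivAt (fun s => Real.exp (lamW t γ z * s))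
      (Real.exp (lamW t γ z * 0) * (lamW t γ z * 1)) 0 :=
    ((hasDerivAt_id (0 : ℝ)).const_mul (lamW t γ z)).exp
  have h4 := h2.mul h3
  refine (h4.congr_deriv ?_).congr_of_eventuallyEq (Eventually.of_forall fun s => ?_)
  swap
  · simp only [rho, Pi.mul_apply, Pi.inv_apply, div_eq_mul_inv]
  · have h5 : 0 < t ^ 2 * (z - 1) + γ ^ 2 := by positivity
    simp only [Pi.inv_apply, Real.exp_zero, mul_one, mul_zero, one_mul, lamW]
    field_simp
    ring

theorem freeTilt {t γ z δ : ℝ} (ht : 0 < t) (hγ : 0 < γ) (hz : 1 < z) (hδ : 0 < δ) :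
    ∃ s0 : ℝ, 0 < s0 ∧ ∀ s : ℝ, |s| = s0 → 1 < z * Real.exp s ∧
      rho t γ (z * Real.exp s) * Real.exp (lamW t γ z * s)
        ≤ rho t γ z * Real.exp (s0 * δ / 2) := by
  have hρ := rho_pos ht hγ hz
  have h1 := (freeDeriv ht hγ hz).isLittleO.bound (c := rho t γ z * δ / 2) (by positivity)
  have h2 : ∀ᶠ s in 𝓝 (0 : ℝ), 1 < z * Real.exp s := by
    have hc : ContinuousAt (fun s => z * Real.exp s) 0 := by fun_prop
    exact hc.eventually (lt_mem_nhds (by simpa using hz))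
  obtain ⟨ε, hε, h3⟩ := Metric.eventually_nhds_iff.1 (h1.and h2)
  refine ⟨ε / 2, by positivity, fun s hs => ?_⟩
  have h4 := h3 (y := s) (by rw [Real.dist_eq, sub_zero, hs]; linarith only [hε])
  refine ⟨h4.2, ?_⟩
  have h5 := h4.1
  simp only [Real.exp_zero, mul_one, mul_zero, sub_zero, smul_zero, Real.norm_eq_abs, hs] at h5
  have h6 := (abs_le.1 h5).2
  have h7 := Real.add_one_le_exp (ε / 2 * δ / 2)
  linarith only [h6, hρ, h7, mul_nonneg_of_nonpos_of_nonpos (le_of_lt (Mathlib.Tactic.Linarith.sub_neg_of_lt hρ)) (Mathlib.Tactic.Linarith.sub_nonpos_of_le h7)]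

theorem freeTail {t γ z δ : ℝ} (ht : 0 < t) (hγ : 0 < γ) (hz : 1 < z) (hδ : 0 < δ) :
    ∃ θ : ℝ, 0 < θ ∧ θ < 1 ∧ ∀ (σ : ℝ) (M n : ℕ) (S : Finset ℕ), |σ| = 1 → n ≤ M →
      (∀ d ∈ S, δ * M ≤ σ * ((d : ℝ) - lamW t γ z * n)) →
      ∑ d ∈ S, Wn t γ n d * (z * t)⁻¹ ^ d ≤ θ ^ M * rho t γ z ^ n := by
  obtain ⟨s0, hs0, h⟩ := freeTilt ht hγ hz hδ
  have hz0 : 0 < z := by linarith
  have hρ := rho_pos ht hγ hz
  refine ⟨Real.exp (-(s0 * δ / 2)), Real.exp_pos _, Real.exp_lt_one_iff.2 (by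
    have : 0 < s0 * δ / 2 := by positivity
    linarith only [this]), fun σ M n S hσ hn hS => ?_⟩
  obtain ⟨hz', h1⟩ := h (-(σ * s0)) (by rw [abs_neg, abs_mul, hσ, abs_of_pos hs0, one_mul])
  set s := -(σ * s0) with hs
  have hρ' := rho_pos ht hγ hz'
  have h2 : ∀ d ∈ S, Wn t γ n d * (z * t)⁻¹ ^ d ≤
      Wn t γ n d * (z * Real.exp s * t)⁻¹ ^ d
        * Real.exp (lamW t γ z * s * n - s0 * δ * M) := by
    intro d hd
    have h3 : (z * t)⁻¹ ^ d = (z * Real.exp s * t)⁻¹ ^ d * Real.exp (d * s) := by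
      rw [Real.exp_nat_mul, ← mul_pow]
      congr 1
      have := Real.exp_pos s
      field_simp
    rw [h3, ← mul_assoc]
    refine mul_le_mul_of_nonneg_left (Real.exp_le_exp.2 ?_)
      (mul_nonneg (Wn_nonneg ht hγ n d) (by positivity))
    have h4 := mul_le_mul_of_nonneg_left (hS d hd) hs0.le
    rw [hs]
    linarith only [h4]
  have h5 : ∑ d ∈ S, Wn t γ n d * (z * Real.exp s * t)⁻¹ ^ d ≤ rho t γ (z * Real.exp s) ^ n :=
    sum_le_hasSum S (fun j _ => mul_nonneg (Wn_nonneg ht hγ n j) (by positivity))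
      (Wn_hasSum ht hγ hz' n)
  have h6 : (rho t γ (z * Real.exp s) * Real.exp (lamW t γ z * s)) ^ n
      ≤ (rho t γ z * Real.exp (s0 * δ / 2)) ^ n :=
    pow_le_pow_left₀ (by positivity) h1 n
  have hn' : (n : ℝ) ≤ M := by exact_mod_cast hn
  calc ∑ d ∈ S, Wn t γ n d * (z * t)⁻¹ ^ d
      ≤ ∑ d ∈ S, Wn t γ n d * (z * Real.exp s * t)⁻¹ ^ d
        * Real.exp (lamW t γ z * s * n - s0 * δ * M) := sum_le_sum h2
    _ = (∑ d ∈ S, Wn t γ n d * (z * Real.exp s * t)⁻¹ ^ d)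
        * Real.exp (lamW t γ z * s * n - s0 * δ * M) := by rw [sum_mul]
    _ ≤ rho t γ (z * Real.exp s) ^ n * Real.exp (lamW t γ z * s * n - s0 * δ * M) :=
        mul_le_mul_of_nonneg_right h5 (Real.exp_pos _).le
    _ = (rho t γ (z * Real.exp s) * Real.exp (lamW t γ z * s)) ^ n * Real.exp (-(s0 * δ * M)) := by
        rw [mul_pow, ← Real.exp_nat_mul, mul_assoc (rho t γ (z * Real.exp s) ^ n), ← Real.exp_add]
        congr 2
        ring
    _ ≤ (rho t γ z * Real.exp (s0 * δ / 2)) ^ n * Real.exp (-(s0 * δ * M)) :=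
        mul_le_mul_of_nonneg_right h6 (Real.exp_pos _).le
    _ = Real.exp (n * (s0 * δ / 2) - s0 * δ * M) * rho t γ z ^ n := by
        rw [mul_pow, ← Real.exp_nat_mul, mul_assoc, ← Real.exp_add, mul_comm]
        rfl
    _ ≤ Real.exp (-(s0 * δ / 2)) ^ M * rho t γ z ^ n := by
        refine mul_le_mul_of_nonneg_right ?_ (by positivity)
        rw [← Real.exp_nat_mul]
        refine Real.exp_le_exp.2 ?_
        have h7 : 0 < s0 * δ := by positivity
        linarith only [hn', h7, mul_nonneg_of_nonpos_of_nonpos (Mathlib.Tactic.Linarith.sub_nonpos_of_le hn') (le_of_lt (Mathlib.Tactic.Linarith.sub_neg_of_lt h7))]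

theorem free_gain {t γ z δ : ℝ} (ht : 0 < t) (hγ : 0 < γ) (hz : 1 < z) (hδ : 0 < δ) :
    ∃ θ : ℝ, 0 < θ ∧ θ < 1 ∧ ∀ M n d : ℕ, n ≤ M → δ * M ≤ |(d : ℝ) - lamW t γ z * n| →
      Wn t γ n d * (z * t)⁻¹ ^ d ≤ θ ^ M * rho t γ z ^ n := by
  obtain ⟨θ, h0, h1, h⟩ := freeTail ht hγ hz hδ
  refine ⟨θ, h0, h1, fun M n d hn hd => ?_⟩
  rcases le_abs.1 hd with h2 | h2
  · simpa using h 1 M n {d} (by simp) hn (by simpa using h2)
  · simpa using h (-1) M n {d} (by simp) hn (by simpa using h2)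

theorem freeMass {t γ z η : ℝ} (ht : 0 < t) (hγ : 0 < γ) (hz : 1 < z) (hη : 0 < η) :
    ∀ᶠ M : ℕ in atTop, ∀ n : ℕ, n ≤ M → ∃ d : ℕ, |(d : ℝ) - lamW t γ z * n| < η * M ∧
      rho t γ z ^ n ≤ 2 * (lamW t γ z + η + 1) * ((M : ℝ) + 1) * (Wn t γ n d * (z * t)⁻¹ ^ d) := by
  classical
  obtain ⟨θ, h0, h1, h⟩ := freeTail ht hγ hz hη
  have hz0 : 0 < z := by linarith
  have hρ := rho_pos ht hγ hz
  have hl := lamW_pos ht hγ hz
  filter_upwards [(tendsto_pow_atTop_nhds_zero_of_lt_one h0.le h1).eventually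
    (gt_mem_nhds (by norm_num : (0 : ℝ) < 1 / 8))] with M hM n hn
  by_contra hcon
  push Not at hcon
  set L : ℝ := (lamW t γ z + η + 1) * ((M : ℝ) + 1) with hL
  have hLpos : 0 < L := by positivity
  set p : ℕ → ℝ := fun d => Wn t γ n d * (z * t)⁻¹ ^ d with hp
  have hp0 : ∀ d, 0 ≤ p d := fun d => mul_nonneg (Wn_nonneg ht hγ n d) (by positivity)
  have hρn : 0 < rho t γ z ^ n := pow_pos hρ n
  have hn' : (n : ℝ) ≤ M := by exact_mod_cast hn
  have hM0 : (0 : ℝ) ≤ M := Nat.cast_nonneg M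
  have key : rho t γ z ^ n ≤ 3 / 4 * rho t γ z ^ n := by
    refine hasSum_le_of_sum_le (Wn_hasSum ht hγ hz n) fun S => ?_
    have e1 := sum_filter_add_sum_filter_not S
      (fun d : ℕ => |(d : ℝ) - lamW t γ z * n| < η * M) p
    have e2 := sum_filter_add_sum_filter_not
      (S.filter fun d : ℕ => ¬ |(d : ℝ) - lamW t γ z * n| < η * M)
      (fun d : ℕ => η * M ≤ (d : ℝ) - lamW t γ z * n) p
    have e3 := h 1 M n ((S.filter fun d : ℕ => ¬ |(d : ℝ) - lamW t γ z * n| < η * M).filter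
      (fun d : ℕ => η * M ≤ (d : ℝ) - lamW t γ z * n)) (by simp) hn
      (fun d hd => by rw [one_mul]; exact (mem_filter.1 hd).2)
    have e4 := h (-1) M n ((S.filter fun d : ℕ => ¬ |(d : ℝ) - lamW t γ z * n| < η * M).filter
      (fun d : ℕ => ¬ η * M ≤ (d : ℝ) - lamW t γ z * n)) (by simp) hn
      (fun d hd => by
        have a1 := (mem_filter.1 hd).2
        have a2 := not_lt.1 (mem_filter.1 (mem_filter.1 hd).1).2
        rcases le_abs.1 a2 with a3 | a3
        · exact absurd a3 a1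
        · linarith only [a3])
    have e5 : ∑ d ∈ S.filter (fun d : ℕ => |(d : ℝ) - lamW t γ z * n| < η * M), p d
        ≤ (S.filter (fun d : ℕ => |(d : ℝ) - lamW t γ z * n| < η * M)).card
          • (rho t γ z ^ n / (2 * L)) := by
      refine sum_le_card_nsmul _ _ _ fun d hd => ?_
      have a1 := hcon d (mem_filter.1 hd).2
      rw [le_div_iff₀ (by positivity)]
      have a2 : 2 * (lamW t γ z + η + 1) * ((M : ℝ) + 1) = 2 * L := by rw [hL]; ring
      rw [a2] at a1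
      linarith only [a1]
    have e6 : ((S.filter (fun d : ℕ => |(d : ℝ) - lamW t γ z * n| < η * M)).card : ℝ) ≤ L := by
      have a1 : S.filter (fun d : ℕ => |(d : ℝ) - lamW t γ z * n| < η * M)
          ⊆ range ⌈(lamW t γ z + η) * M⌉₊ := by
        intro d hd
        have a2 := (abs_lt.1 (mem_filter.1 hd).2).2
        rw [mem_range, Nat.lt_ceil]
        linarith only [h0, a2, h1, hl, hn', mul_pos_of_neg_of_neg (Mathlib.Tactic.Linarith.sub_neg_of_lt h0) (Mathlib.Tactic.Linarith.sub_neg_of_lt a2), mul_pos_of_neg_of_neg (Mathlib.Tactic.Linarith.sub_neg_of_lt h1) (Mathlib.Tactic.Linarith.sub_neg_of_lt a2), mul_nonneg_of_nonpos_of_nonpos (le_of_lt (Mathlib.Tactic.Linarith.sub_neg_of_lt hl)) (Mathlib.Tactic.Linarith.sub_nonpos_of_le hn')]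
      have a3 := card_le_card a1
      rw [card_range] at a3
      have a4 : (⌈(lamW t γ z + η) * M⌉₊ : ℝ) < (lamW t γ z + η) * M + 1 :=
        Nat.ceil_lt_add_one (by positivity)
      have a5 : ((S.filter (fun d : ℕ => |(d : ℝ) - lamW t γ z * n| < η * M)).card : ℝ)
          ≤ (⌈(lamW t γ z + η) * M⌉₊ : ℝ) := by exact_mod_cast a3
      rw [hL]
      linarith only [hη, hl, a4, a5]
    rw [nsmul_eq_mul] at e5
    have e7 : ((S.filter (fun d : ℕ => |(d : ℝ) - lamW t γ z * n| < η * M)).card : ℝ)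
        * (rho t γ z ^ n / (2 * L)) ≤ L * (rho t γ z ^ n / (2 * L)) :=
      mul_le_mul_of_nonneg_right e6 (by positivity)
    have e8 : L * (rho t γ z ^ n / (2 * L)) = rho t γ z ^ n / 2 := by field_simp
    have e9 : θ ^ M * rho t γ z ^ n ≤ 1 / 8 * rho t γ z ^ n :=
      mul_le_mul_of_nonneg_right hM.le hρn.le
    change ∑ d ∈ S, p d ≤ _
    change ∑ d ∈ _, p d ≤ _ at e3 e4
    linarith only [e1, e2, e5, e7, e8, e9, e3, e4]
  linarith only [hρn, key]

theorem freeExt {t γ z : ℝ} (ht : 0 < t) (hγ : 0 < γ) (hz : 1 < z) :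
    ∃ c : ℝ, 0 < c ∧ c ≤ 1 ∧ ∀ n0 d0 k d : ℕ, 1 ≤ k → d0 ≤ d →
      Wn t γ n0 d0 * (z * t)⁻¹ ^ d0 * (c ^ (k + (d - d0)) * rho t γ z ^ k)
        ≤ Wn t γ (n0 + k) d * (z * t)⁻¹ ^ d := by
  have hz0 : 0 < z := by linarith
  have hρ := rho_pos ht hγ hz
  obtain ⟨c, hc0, hc1, hc2, hc3, hc4⟩ : ∃ c : ℝ, 0 < c ∧ c ≤ 1 ∧ c ≤ z⁻¹ ∧
      c ≤ t / rho t γ z ∧ c ≤ γ ^ 2 * (z * t)⁻¹ / rho t γ z :=
    ⟨min (min 1 z⁻¹) (min (t / rho t γ z) (γ ^ 2 * (z * t)⁻¹ / rho t γ z)), by positivity,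
      (min_le_left _ _).trans (min_le_left _ _), (min_le_left _ _).trans (min_le_right _ _),
      (min_le_right _ _).trans (min_le_left _ _), (min_le_right _ _).trans (min_le_right _ _)⟩
  rw [le_div_iff₀ hρ] at hc3 hc4
  have hk : ∀ e : ℕ, c ^ (1 + e) * rho t γ z ≤ kk t γ e * (z * t)⁻¹ ^ e := by
    intro e
    rcases e with _ | e
    · simpa [kk] using hc3
    · rw [freeKK_succ ht hz]
      have a1 : c ^ e ≤ z⁻¹ ^ e := pow_le_pow_left₀ hc0.le hc2 e
      have a2 : c ^ (1 + (e + 1)) * rho t γ z = c * (c * rho t γ z * c ^ e) := by ring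
      rw [a2]
      calc c * (c * rho t γ z * c ^ e) ≤ 1 * (c * rho t γ z * c ^ e) :=
            mul_le_mul_of_nonneg_right hc1 (by positivity)
        _ = c * rho t γ z * c ^ e := one_mul _
        _ ≤ γ ^ 2 * (z * t)⁻¹ * z⁻¹ ^ e := mul_le_mul hc4 a1 (by positivity) (by positivity)
  have hstep : ∀ n d0 d : ℕ, d0 ≤ d →
      Wn t γ n d0 * (z * t)⁻¹ ^ d0 * (c ^ (1 + (d - d0)) * rho t γ z)
        ≤ Wn t γ (n + 1) d * (z * t)⁻¹ ^ d := by
    intro n d0 d hd
    have a1 : (z * t)⁻¹ ^ d = (z * t)⁻¹ ^ d0 * (z * t)⁻¹ ^ (d - d0) := by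
      rw [← pow_add, Nat.add_sub_cancel' hd]
    calc Wn t γ n d0 * (z * t)⁻¹ ^ d0 * (c ^ (1 + (d - d0)) * rho t γ z)
        ≤ Wn t γ n d0 * (z * t)⁻¹ ^ d0 * (kk t γ (d - d0) * (z * t)⁻¹ ^ (d - d0)) :=
          mul_le_mul_of_nonneg_left (hk _) (mul_nonneg (Wn_nonneg ht hγ n d0) (by positivity))
      _ = Wn t γ n d0 * kk t γ (d - d0) * (z * t)⁻¹ ^ d := by rw [a1]; ring
      _ ≤ Wn t γ (n + 1) d * (z * t)⁻¹ ^ d :=
          mul_le_mul_of_nonneg_right (freeWn_step ht hγ n hd) (by positivity)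
  refine ⟨c, hc0, hc1, fun n0 d0 k d hk1 hd => ?_⟩
  induction k, hk1 using Nat.le_induction with
  | base => simpa using hstep n0 d0 d hd
  | succ k _ ih =>
    have a1 := hstep (n0 + k) d d le_rfl
    rw [Nat.sub_self, add_zero, pow_one] at a1
    calc Wn t γ n0 d0 * (z * t)⁻¹ ^ d0 * (c ^ (k + 1 + (d - d0)) * rho t γ z ^ (k + 1))
        = Wn t γ n0 d0 * (z * t)⁻¹ ^ d0 * (c ^ (k + (d - d0)) * rho t γ z ^ k)
          * (c * rho t γ z) := by ring
      _ ≤ Wn t γ (n0 + k) d * (z * t)⁻¹ ^ d * (c * rho t γ z) :=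
          mul_le_mul_of_nonneg_right ih (by positivity)
      _ ≤ _ := a1

theorem free_low {t γ z θ : ℝ} (ht : 0 < t) (hγ : 0 < γ) (hz : 1 < z) (h0 : 0 < θ) (h1 : θ < 1)
    (C : ℝ) : ∀ᶠ M : ℕ in atTop, ∀ n d : ℕ, 1 ≤ n → n ≤ M → |(d : ℝ) - lamW t γ z * n| ≤ C →
      θ ^ M * rho t γ z ^ n ≤ Wn t γ n d * (z * t)⁻¹ ^ d := by
  have hz0 : 0 < z := by linarith
  have hρ := rho_pos ht hγ hz
  have hl := lamW_pos ht hγ hz
  obtain ⟨c, hc0, hc1, hext⟩ := freeExt ht hγ hz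
  set lam := lamW t γ z with hlam
  obtain ⟨κ, hκ, hcκ⟩ : ∃ κ : ℝ, 0 ≤ κ ∧ c = Real.exp (-κ) :=
    ⟨-Real.log c, by have := Real.log_nonpos hc0.le hc1; linarith,
      by rw [neg_neg, Real.exp_log hc0]⟩
  obtain ⟨τ, hτ, hθτ⟩ : ∃ τ : ℝ, 0 < τ ∧ θ = Real.exp (-τ) :=
    ⟨-Real.log θ, by have := Real.log_neg h0 h1; linarith, by rw [neg_neg, Real.exp_log h0]⟩
  set A : ℝ := (1 + lam) / lam + 1 with hA
  set B : ℝ := (1 + lam) * (|C| / lam + 2) + |C| with hB
  have hA0 : 0 < A := by positivity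
  set η : ℝ := τ / (κ * A + 1) with hη
  have hη0 : 0 < η := by positivity
  have hηlt : κ * A * η < τ := by
    rw [hη, mul_div_assoc', div_lt_iff₀ (by positivity)]
    linarith only [hτ]
  have hθ' : θ < Real.exp (-(κ * A * η)) := by
    rw [hθτ]; exact Real.exp_lt_exp.2 (by linarith only [hηlt])
  filter_upwards [freeMass ht hγ hz hη0,
    poly_geom h0 hθ' (2 * (lam + η + 1) * Real.exp (κ * B)) 1] with M hmass hpoly n d hn1 hn hd
  rw [pow_one] at hpoly
  have hM0 : (0 : ℝ) ≤ M := Nat.cast_nonneg M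
  have hC : C ≤ |C| := le_abs_self C
  have hC0 : 0 ≤ |C| := abs_nonneg C
  obtain ⟨hd1, hd2⟩ := abs_le.1 hd
  set K : ℕ := ⌈(η * M + |C|) / lam⌉₊ + 1 with hK
  have hK1 : (η * M + |C|) / lam ≤ K := by
    rw [hK]; push_cast
    linarith only [h0, h1, Nat.le_ceil ((η * M + |C|) / lam)]
  have hK2 : (K : ℝ) ≤ (η * M + |C|) / lam + 2 := by
    rw [hK]; push_cast
    linarith only [hτ, hκ, hl, Nat.ceil_lt_add_one (show 0 ≤ (η * M + |C|) / lam by positivity)]
  have hL1 : 1 ≤ 2 * (lam + η + 1) * ((M : ℝ) + 1) := by linarith only [h0, h1, hl, hη0, mul_nonneg_of_nonpos_of_nonpos (Mathlib.Tactic.Linarith.sub_nonpos_of_le (Mathlib.Tactic.Linarith.natCast_nonneg ℝ M)) (le_of_lt (Mathlib.Tactic.Linarith.sub_neg_of_lt hl)), mul_nonneg_of_nonpos_of_nonpos (Mathlib.Tactic.Linarith.sub_nonpos_of_le (Mathlib.Tactic.Linarith.natCast_nonneg ℝ M)) (le_of_lt (Mathlib.Tactic.Linarith.sub_neg_of_lt hη0))]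
  obtain ⟨n0, d0, k, hk1, hnk, hdd, hkK, hgap, hm⟩ : ∃ n0 d0 k : ℕ, 1 ≤ k ∧ n = n0 + k ∧ d0 ≤ d ∧
      k ≤ K ∧ (d : ℝ) - d0 ≤ lam * k + |C| + η * M ∧
      rho t γ z ^ n0 ≤ 2 * (lam + η + 1) * ((M : ℝ) + 1) * (Wn t γ n0 d0 * (z * t)⁻¹ ^ d0) := by
    rcases le_or_gt K n with hKn | hKn
    · obtain ⟨n0, hn0⟩ : ∃ n0, n = n0 + K := ⟨n - K, by omega⟩
      obtain ⟨d0, ha, hb⟩ := hmass n0 (by omega)
      obtain ⟨ha1, ha2⟩ := abs_lt.1 ha
      have hn0' : (n : ℝ) = n0 + K := by exact_mod_cast hn0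
      rw [div_le_iff₀ hl] at hK1
      rw [hn0'] at hd1 hd2
      refine ⟨n0, d0, K, by omega, hn0, ?_, le_rfl, by linarith only [hC, hd2, ha1], hb⟩
      have : (d0 : ℝ) ≤ d := by linarith only [hC, hK1, hd1, ha2]
      exact_mod_cast this
    · refine ⟨0, 0, n, hn1, by omega, Nat.zero_le d, hKn.le, ?_, ?_⟩
      · have : 0 ≤ η * M := by positivity
        push_cast
        linarith only [hC, hd2, this]
      · simpa [freeWn_zero] using hL1
  have hE : ((k + (d - d0) : ℕ) : ℝ) ≤ A * η * M + B := by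
    have a1 : (k : ℝ) ≤ K := by exact_mod_cast hkK
    rw [Nat.cast_add, Nat.cast_sub hdd]
    have a2 : A * η * M + B = (1 + lam) * ((η * M + |C|) / lam + 2) + |C| + η * M := by
      rw [hA, hB]; field_simp; ring
    rw [a2]
    (refine le_of_not_gt fun h_nl => ?_; linarith only [h_nl, hK2, hgap, a1, h0, h1, hl, mul_pos_of_neg_of_neg (Mathlib.Tactic.Linarith.sub_neg_of_lt h0) (Mathlib.Tactic.Linarith.sub_neg_of_lt h_nl), mul_pos_of_neg_of_neg (Mathlib.Tactic.Linarith.sub_neg_of_lt h1) (Mathlib.Tactic.Linarith.sub_neg_of_lt h_nl), mul_nonneg_of_nonpos_of_nonpos (le_of_lt (Mathlib.Tactic.Linarith.sub_neg_of_lt hl)) (Mathlib.Tactic.Linarith.sub_nonpos_of_le hK2), mul_nonneg_of_nonpos_of_nonpos (le_of_lt (Mathlib.Tactic.Linarith.sub_neg_of_lt hl)) (Mathlib.Tactic.Linarith.sub_nonpos_of_le a1)])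
  have hcE : Real.exp (-(κ * A * η)) ^ M * Real.exp (-(κ * B)) ≤ c ^ (k + (d - d0)) := by
    rw [hcκ, ← Real.exp_nat_mul, ← Real.exp_nat_mul, ← Real.exp_add]
    refine Real.exp_le_exp.2 ?_
    (refine le_of_not_gt fun h_nl => ?_; linarith only [h_nl, h0, h1, hκ, hE, mul_pos_of_neg_of_neg (Mathlib.Tactic.Linarith.sub_neg_of_lt h0) (Mathlib.Tactic.Linarith.sub_neg_of_lt h_nl), mul_pos_of_neg_of_neg (Mathlib.Tactic.Linarith.sub_neg_of_lt h1) (Mathlib.Tactic.Linarith.sub_neg_of_lt h_nl), mul_nonneg_of_nonpos_of_nonpos (Mathlib.Tactic.Linarith.sub_nonpos_of_le hκ) (Mathlib.Tactic.Linarith.sub_nonpos_of_le hE)])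
  have hfin : 2 * (lam + η + 1) * ((M : ℝ) + 1) * θ ^ M ≤ c ^ (k + (d - d0)) := by
    refine le_trans ?_ hcE
    have a1 : Real.exp (κ * B) * Real.exp (-(κ * B)) = 1 := by
      rw [← Real.exp_add]; simp
    calc 2 * (lam + η + 1) * ((M : ℝ) + 1) * θ ^ M
        = 2 * (lam + η + 1) * Real.exp (κ * B) * ((M : ℝ) + 1) * θ ^ M * Real.exp (-(κ * B)) := by
          linear_combination (-(2 * (lam + η + 1) * ((M : ℝ) + 1) * θ ^ M)) * a1
      _ ≤ _ := mul_le_mul_of_nonneg_right hpoly (Real.exp_pos _).le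
  have hp0 : 0 ≤ Wn t γ n0 d0 * (z * t)⁻¹ ^ d0 :=
    mul_nonneg (Wn_nonneg ht hγ n0 d0) (by positivity)
  rw [hnk]
  refine le_trans ?_ (hext n0 d0 k d hk1 hdd)
  calc θ ^ M * rho t γ z ^ (n0 + k) = rho t γ z ^ n0 * (θ ^ M * rho t γ z ^ k) := by ring
    _ ≤ 2 * (lam + η + 1) * ((M : ℝ) + 1) * (Wn t γ n0 d0 * (z * t)⁻¹ ^ d0)
        * (θ ^ M * rho t γ z ^ k) := mul_le_mul_of_nonneg_right hm (by positivity)
    _ = Wn t γ n0 d0 * (z * t)⁻¹ ^ d0
        * (2 * (lam + η + 1) * ((M : ℝ) + 1) * θ ^ M * rho t γ z ^ k) := by ring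
    _ ≤ _ := mul_le_mul_of_nonneg_left (mul_le_mul_of_nonneg_right hfin (by positivity)) hp0

end Pool.Agent.Work.MP_413ea6_mp
end

-- merged part: Pool.Agent.Work.MP_413ea6_mp.YPhi
section
/-!
A free path to the right of a wall (`YPhi`) and a free path started far to the right (`YUps`).
-/

open Filter Topology Finset

namespace Pool.Agent.Work.MP_413ea6_mp

/-- Weight of a free path which starts right of `wl 0` with weight `y ^ x` and is right of
`wl (k + 1)` at level `k`. -/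
noncomputable def YPhi (t γ y : ℝ) (wl : ℕ → ℝ) : ℕ → ℕ → ℝ
  | 0, X => ind (wl 0 < X) * y ^ X
  | k + 1, X => ∑ x ∈ range (X + 1), ind (wl (k + 1) < x) * (kk t γ (X - x) * YPhi t γ y wl k x)

/-- Weight of a free path which starts at `x ≥ m` with weight `y ^ x`. -/
noncomputable def YUps (t γ y m : ℝ) : ℕ → ℕ → ℝ
  | 0, X => ind (m ≤ X) * y ^ X
  | k + 1, X => ∑ x ∈ range (X + 1), kk t γ (X - x) * YUps t γ y m k x

/-- The slope of the wall adapted to the pair `z < z2`. -/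
noncomputable def ysl (t γ z z2 : ℝ) : ℝ :=
  Real.log (rho t γ z / rho t γ z2) / Real.log (z2 / z)

theorem YPhi_nonneg {t γ y : ℝ} (ht : 0 < t) (hγ : 0 < γ) (hy : 0 < y) (wl : ℕ → ℝ) (k : ℕ) :
    ∀ X, 0 ≤ YPhi t γ y wl k X := by
  induction k with
  | zero => intro X; rw [YPhi]; exact mul_nonneg (ind_nonneg _) (pow_pos hy _).le
  | succ k ih =>
    intro X; rw [YPhi]
    exact sum_nonneg fun x _ => mul_nonneg (ind_nonneg _) (mul_nonneg (kk_pos ht hγ _).le (ih x))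

theorem YUps_nonneg {t γ y : ℝ} (ht : 0 < t) (hγ : 0 < γ) (hy : 0 < y) (m : ℝ) (k : ℕ) :
    ∀ X, 0 ≤ YUps t γ y m k X := by
  induction k with
  | zero => intro X; rw [YUps]; exact mul_nonneg (ind_nonneg _) (pow_pos hy _).le
  | succ k ih =>
    intro X; rw [YUps]
    exact sum_nonneg fun x _ => mul_nonneg (kk_pos ht hγ _).le (ih x)

theorem YPhi_vert {t γ y : ℝ} (ht : 0 < t) (hγ : 0 < γ) (hy : 0 < y) (wl : ℕ → ℝ) (k X : ℕ)
    (h : wl (k + 1) < X) : t * YPhi t γ y wl k X ≤ YPhi t γ y wl (k + 1) X := by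
  rw [YPhi]
  have := single_le_sum (s := range (X + 1))
    (f := fun x : ℕ => ind (wl (k + 1) < x) * (kk t γ (X - x) * YPhi t γ y wl k x))
    (fun x _ => mul_nonneg (ind_nonneg _)
      (mul_nonneg (kk_pos ht hγ _).le (YPhi_nonneg ht hγ hy wl k x))) (self_mem_range_succ X)
  simpa [ind_pos h, kk] using this

theorem rho_anti {t γ z z2 : ℝ} (ht : 0 < t) (hγ : 0 < γ) (hz : 1 < z) (h : z < z2) :
    rho t γ z2 < rho t γ z := by
  unfold rho
  have h1 : 0 < z - 1 := sub_pos.2 hz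
  have h2 : γ ^ 2 / (t * (z2 - 1)) < γ ^ 2 / (t * (z - 1)) :=
    div_lt_div_of_pos_left (by positivity) (by positivity) (by linarith only [ht, h, mul_pos_of_neg_of_neg (Mathlib.Tactic.Linarith.sub_neg_of_lt ht) (Mathlib.Tactic.Linarith.sub_neg_of_lt h)])
  linarith only [h2]

theorem ysl_pos {t γ z z2 : ℝ} (ht : 0 < t) (hγ : 0 < γ) (hz : 1 < z) (h : z < z2) :
    0 < ysl t γ z z2 :=
  div_pos (Real.log_pos ((one_lt_div (rho_pos ht hγ (hz.trans h))).2 (rho_anti ht hγ hz h)))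
    (Real.log_pos ((one_lt_div (by linarith)).2 h))

theorem ysl_exp {t γ z z2 : ℝ} (ht : 0 < t) (hγ : 0 < γ) (hz : 1 < z) (h : z < z2) :
    rho t γ z = rho t γ z2 * Real.exp (Real.log (z2 / z) * ysl t γ z z2) := by
  have h1 : 0 < Real.log (z2 / z) := Real.log_pos ((one_lt_div (by linarith)).2 h)
  have h2 := rho_pos ht hγ (hz.trans h)
  have h3 := rho_pos ht hγ hz
  unfold ysl
  rw [mul_div_cancel₀ _ h1.ne', Real.exp_log (div_pos h3 h2)]
  field_simp

theorem Y_step {t γ z : ℝ} (ht : 0 < t) (hz : 1 < z) (A : ℝ) :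
    HasSum (fun d : ℕ => kk t γ d * (A * (z * t)⁻¹ ^ d)) (A * rho t γ z) := by
  have h := (freeStep (γ := γ) ht hz).mul_left A
  simpa only [mul_left_comm A] using h

theorem Y_pow_sub {y : ℝ} (hy : 0 < y) {X d : ℕ} (h : d ≤ X) : y ^ X * y⁻¹ ^ d = y ^ (X - d) := by
  rw [inv_pow, pow_sub₀ _ hy.ne' h]

theorem Y_sub_nonpos {t γ z z2 m : ℝ} (ht : 0 < t) (hγ : 0 < γ) (hz : 1 < z) (h : z < z2)
    (k X d : ℕ) (hd : (X : ℝ) - d ≤ m + ysl t γ z z2 * (k + 1)) :
    (z2 * t) ^ X * rho t γ z2 ^ k * (z2 * t)⁻¹ ^ d ≤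
      Real.exp ((m + ysl t γ z z2) * Real.log (z2 / z)) * (z * t) ^ X * rho t γ z ^ k *
        (z * t)⁻¹ ^ d := by
  have hz0 : 0 < z := by linarith
  have hη : 0 < Real.log (z2 / z) := Real.log_pos ((one_lt_div hz0).2 h)
  have e1 : z2 * t = z * t * Real.exp (Real.log (z2 / z)) := by
    rw [Real.exp_log (div_pos (by linarith) hz0)]; field_simp
  have e2 := ysl_exp ht hγ hz h
  have h2 := rho_pos ht hγ (hz.trans h)
  generalize Real.log (z2 / z) = η at *
  generalize ysl t γ z z2 = l at *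
  rw [e1, e2, mul_pow (z * t), mul_pow (rho t γ z2), mul_inv (z * t), mul_pow (z * t)⁻¹,
    ← Real.exp_neg, ← Real.exp_nat_mul, ← Real.exp_nat_mul, ← Real.exp_nat_mul]
  have h3 : Real.exp (X * η) * Real.exp (d * -η) ≤
      Real.exp ((m + l) * η) * Real.exp (k * (η * l)) := by
    rw [← Real.exp_add, ← Real.exp_add]
    exact Real.exp_le_exp.2 (by linarith only [hη, hd, mul_nonneg_of_nonpos_of_nonpos (le_of_lt (Mathlib.Tactic.Linarith.sub_neg_of_lt hη)) (Mathlib.Tactic.Linarith.sub_nonpos_of_le hd)])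
  have h4 : 0 ≤ (z * t) ^ X * rho t γ z2 ^ k * (z * t)⁻¹ ^ d := by positivity
  linarith only [h3, h4, mul_le_mul_of_nonneg_left h3 h4]

theorem YPhi_sub {t γ z z2 m : ℝ} (ht : 0 < t) (hγ : 0 < γ) (hz : 1 < z) (h : z < z2)
    (hm : 0 ≤ m) (N k : ℕ) : ∀ X ≤ N,
    (z / z2) ^ N * ((z2 * t) ^ X * rho t γ z2 ^ k -
      Real.exp ((m + ysl t γ z z2) * Real.log (z2 / z)) * (z * t) ^ X * rho t γ z ^ k) ≤
      YPhi t γ (z * t) (fun j => m + ysl t γ z z2 * j) k X := by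
  have hz0 : 0 < z := by linarith
  have hz2 : 0 < z2 := by linarith
  have hl := ysl_pos ht hγ hz h
  have hC : 0 < (z / z2) ^ N := by positivity
  induction k with
  | zero =>
    intro X hX
    rw [YPhi]
    by_cases hc : m + ysl t γ z z2 * (0 : ℕ) < X
    · rw [ind_pos hc, one_mul, pow_zero, pow_zero, mul_one, mul_one]
      have h1 : (z / z2) ^ N ≤ (z / z2) ^ X :=
        pow_le_pow_of_le_one (by positivity) ((div_le_one hz2).2 h.le) hX
      have h2 : (z / z2) ^ X * (z2 * t) ^ X = (z * t) ^ X := by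
        rw [← mul_pow]; congr 1; field_simp
      have h3 : 0 ≤ Real.exp ((m + ysl t γ z z2) * Real.log (z2 / z)) * (z * t) ^ X := by
        positivity
      have h4 : 0 < (z2 * t) ^ X := by positivity
      linarith only [h2, h1, h4, hC, h3, mul_le_mul_of_nonneg_right h1 h4.le, mul_nonneg hC.le h3]
    · rw [ind_neg hc, zero_mul]
      have h1 := Y_sub_nonpos (m := m) ht hγ hz h 0 X 0 (by
        push_cast at hc ⊢; linarith only [hl, hc])
      simp only [pow_zero, mul_one] at h1 ⊢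
      exact mul_nonpos_of_nonneg_of_nonpos hC.le (by linarith only [h1])
  | succ k ih =>
    intro X hX
    set β := Real.exp ((m + ysl t γ z z2) * Real.log (z2 / z)) with hβ
    have h1 := ((Y_step (γ := γ) ht (hz.trans h) ((z2 * t) ^ X * rho t γ z2 ^ k)).sub
      (Y_step (γ := γ) ht hz (β * (z * t) ^ X * rho t γ z ^ k))).mul_left ((z / z2) ^ N)
    have h2 : HasSum (fun d : ℕ => if d ∈ range (X + 1) then
        ind (m + ysl t γ z z2 * ((k + 1 : ℕ) : ℝ) < ((X - d : ℕ) : ℝ)) * (kk t γ (X - (X - d)) *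
          YPhi t γ (z * t) (fun j => m + ysl t γ z z2 * j) k (X - d)) else 0)
        (YPhi t γ (z * t) (fun j => m + ysl t γ z z2 * j) (k + 1) X) := by
      rw [YPhi, ← sum_flip]
      have := hasSum_sum_of_ne_finset_zero (L := SummationFilter.unconditional ℕ) (s := range (X + 1))
        (f := fun d : ℕ => if d ∈ range (X + 1) then
        ind (m + ysl t γ z z2 * ((k + 1 : ℕ) : ℝ) < ((X - d : ℕ) : ℝ)) * (kk t γ (X - (X - d)) *
          YPhi t γ (z * t) (fun j => m + ysl t γ z z2 * j) k (X - d)) else 0)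
        (fun d hd => if_neg hd)
      rwa [sum_congr rfl fun d hd => if_pos hd] at this
    refine le_trans (le_of_eq ?_) (hasSum_le (fun d => ?_) h1 h2)
    · ring
    have hk := kk_pos ht hγ d
    by_cases hc : d ∈ range (X + 1) ∧ m + ysl t γ z z2 * ((k + 1 : ℕ) : ℝ) < ((X - d : ℕ) : ℝ)
    · have hd : d ≤ X := Nat.lt_succ_iff.1 (mem_range.1 hc.1)
      rw [if_pos hc.1, ind_pos hc.2, one_mul, Nat.sub_sub_self hd]
      have h3 := ih (X - d) (by omega)
      rw [← Y_pow_sub (by positivity) hd, ← Y_pow_sub (by positivity) hd] at h3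
      linarith only [h3, hk, mul_le_mul_of_nonneg_left h3 hk.le]
    · have h3 : (X : ℝ) - d ≤ m + ysl t γ z z2 * (k + 1) := by
        by_cases hd : d ≤ X
        · have h4 := not_lt.1 fun h5 => hc ⟨mem_range.2 (Nat.lt_succ_of_le hd), h5⟩
          rw [Nat.cast_sub hd] at h4
          push_cast at h4
          exact h4
        · have h4 : (X : ℝ) < d := by exact_mod_cast not_le.1 hd
          have h5 : 0 ≤ ysl t γ z z2 * (k + 1) := by positivity
          linarith only [hm, h4, h5]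
      have h4 := Y_sub_nonpos ht hγ hz h k X d h3
      have h5 : (z / z2) ^ N * (kk t γ d * ((z2 * t) ^ X * rho t γ z2 ^ k * (z2 * t)⁻¹ ^ d) -
          kk t γ d * (β * (z * t) ^ X * rho t γ z ^ k * (z * t)⁻¹ ^ d)) ≤ 0 :=
        mul_nonpos_of_nonneg_of_nonpos hC.le (by linarith only [h4, hk, mul_le_mul_of_nonneg_left h4 hk.le])
      refine h5.trans ?_
      split_ifs
      · exact mul_nonneg (ind_nonneg _) (mul_nonneg (kk_pos ht hγ _).le
          (YPhi_nonneg ht hγ (by positivity) _ _ _))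
      · exact le_rfl

/-- Lower bound for the free path right of the wall. -/
theorem YPhi_lower {t γ z z2 : ℝ} (ht : 0 < t) (hγ : 0 < γ) (hz : 1 < z) (h : z < z2) :
    ∃ L : ℝ, 0 < L ∧ ∀ (m : ℝ) (N k X : ℕ), 0 ≤ m → k ≤ N → X ≤ N →
      m + ysl t γ z z2 * k < X →
      L * Real.exp (-((1 + ysl t γ z z2) * Real.log (z2 / z) * N)) *
          ((z * t) ^ X * rho t γ z ^ k) ≤
        YPhi t γ (z * t) (fun j => m + ysl t γ z z2 * j) k X := by
  have hz0 : 0 < z := by linarith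
  have hz2 : 0 < z2 := by linarith
  have hl := ysl_pos ht hγ hz h
  have hη : 0 < Real.log (z2 / z) := Real.log_pos ((one_lt_div hz0).2 h)
  have hW := rho_pos ht hγ hz
  have hW2 := rho_pos ht hγ (hz.trans h)
  have hy : 0 < z * t := by positivity
  have hq : Real.exp (-(ysl t γ z z2 * Real.log (z2 / z))) < 1 :=
    Real.exp_lt_one_iff.2 (by linarith only [hl, hη, mul_pos_of_neg_of_neg (Mathlib.Tactic.Linarith.sub_neg_of_lt hl) (Mathlib.Tactic.Linarith.sub_neg_of_lt hη)])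
  refine ⟨min (min 1 (t / rho t γ z)) ((t / rho t γ z) ^ 2 *
    (1 - Real.exp (-(ysl t γ z z2 * Real.log (z2 / z))))), ?_, fun m N k X hm hk hX hw => ?_⟩
  · have : 0 < 1 - Real.exp (-(ysl t γ z z2 * Real.log (z2 / z))) := by linarith
    positivity
  have hE : Real.exp (-((1 + ysl t γ z z2) * Real.log (z2 / z) * N)) ≤ 1 :=
    Real.exp_le_one_iff.2 (by
      have : 0 ≤ (1 + ysl t γ z z2) * Real.log (z2 / z) * N := by positivity
      linarith only [this])
  have hE0 := Real.exp_pos (-((1 + ysl t γ z z2) * Real.log (z2 / z) * N))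
  have hP : 0 < (z * t) ^ X * rho t γ z ^ k := by positivity
  have h0 : YPhi t γ (z * t) (fun j => m + ysl t γ z z2 * j) 0 X = (z * t) ^ X := by
    have h1 : 0 ≤ ysl t γ z z2 * k := by positivity
    rw [YPhi, ind_pos (by push_cast; linarith only [hw, h1]), one_mul]
  match k, hk, hw, hP with
  | 0, _, _, hP =>
    rw [h0]
    refine le_trans (mul_le_mul_of_nonneg_right (mul_le_mul ((min_le_left _ _).trans
      (min_le_left _ _)) hE hE0.le zero_le_one) hP.le) (le_of_eq (by simp))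
  | 1, _, hw, hP =>
    refine le_trans ?_ (YPhi_vert ht hγ hy _ 0 X hw)
    rw [h0]
    refine le_trans (mul_le_mul_of_nonneg_right (mul_le_mul ((min_le_left _ _).trans
      (min_le_right _ _)) hE hE0.le (by positivity)) hP.le) (le_of_eq (by field_simp))
  | k + 2, hk, hw, hP =>
    have h1 := YPhi_vert ht hγ hy (fun j => m + ysl t γ z z2 * j) (k + 1) X hw
    have h2 := YPhi_vert ht hγ hy (fun j => m + ysl t γ z z2 * j) k X (by
      push_cast at hw ⊢; linarith only [hl, hw])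
    have h3 := YPhi_sub ht hγ hz h hm N k X hX
    have e1 : z2 * t = z * t * Real.exp (Real.log (z2 / z)) := by
      rw [Real.exp_log (div_pos (by linarith only [hz, h]) hz0)]; field_simp
    have e3 : z / z2 = Real.exp (-Real.log (z2 / z)) := by
      rw [Real.exp_neg, Real.exp_log (div_pos (by linarith only [hz, h]) hz0)]; field_simp
    have e2 : rho t γ z2 = rho t γ z * Real.exp (-(Real.log (z2 / z) * ysl t γ z z2)) := by
      rw [ysl_exp ht hγ hz h, mul_assoc, ← Real.exp_add]; simp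
    rw [e1, e2, e3] at h3
    generalize Real.log (z2 / z) = η at *
    generalize ysl t γ z z2 = l at *
    rw [mul_pow (z * t), mul_pow (rho t γ z), ← Real.exp_nat_mul, ← Real.exp_nat_mul,
      ← Real.exp_nat_mul] at h3
    have hkN : (k : ℝ) ≤ N := by exact_mod_cast (by omega : k ≤ N)
    have hX0 : (0 : ℝ) ≤ X := Nat.cast_nonneg X
    have h4 : Real.exp (-((1 + l) * η * N)) ≤
        Real.exp (N * -η) * (Real.exp (X * η) * Real.exp (k * -(η * l))) := by
      rw [← Real.exp_add, ← Real.exp_add]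
      refine Real.exp_le_exp.2 ?_
      linarith only [hkN, hη, hl, hX0, mul_le_mul_of_nonneg_left hkN (mul_pos hη hl).le, mul_nonneg hX0 hη.le]
    have h5 : Real.exp ((m + l) * η) ≤
        Real.exp (-(l * η)) * (Real.exp (X * η) * Real.exp (k * -(η * l))) := by
      rw [← Real.exp_add, ← Real.exp_add]
      refine Real.exp_le_exp.2 ?_
      push_cast at hw
      linarith only [hw, hη, mul_le_mul_of_nonneg_right hw.le hη.le]
    have hA : 0 < (z * t) ^ X * rho t γ z ^ k := by positivity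
    have h6 : (1 - Real.exp (-(l * η))) * Real.exp (-((1 + l) * η * N)) *
        ((z * t) ^ X * rho t γ z ^ k) ≤ YPhi t γ (z * t) (fun j => m + l * j) k X := by
      refine le_trans ?_ h3
      have h7 : (1 - Real.exp (-(l * η))) * Real.exp (-((1 + l) * η * N)) ≤
          Real.exp (N * -η) * (Real.exp (X * η) * Real.exp (k * -(η * l)) -
            Real.exp ((m + l) * η)) := by
        have h8 := Real.exp_pos (N * -η)
        linarith only [h4, hq, h5, h8, mul_le_mul_of_nonneg_left h4 (sub_pos.2 hq).le,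
          mul_le_mul_of_nonneg_left h5 h8.le]
      linarith only [h7, hA, mul_le_mul_of_nonneg_right h7 hA.le]
    calc _ ≤ (t / rho t γ z) ^ 2 * (1 - Real.exp (-(l * η))) * Real.exp (-((1 + l) * η * N)) *
          ((z * t) ^ X * rho t γ z ^ (k + 2)) :=
          mul_le_mul_of_nonneg_right (mul_le_mul_of_nonneg_right (min_le_right _ _) hE0.le) hP.le
      _ = t * (t * ((1 - Real.exp (-(l * η))) * Real.exp (-((1 + l) * η * N)) *
          ((z * t) ^ X * rho t γ z ^ k))) := by field_simp; ring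
      _ ≤ _ := le_trans (mul_le_mul_of_nonneg_left
          ((mul_le_mul_of_nonneg_left h6 ht.le).trans h2) ht.le) h1

/-- Upper bound for the free path started far to the right. -/
theorem YUps_upper {t γ z z2 : ℝ} (ht : 0 < t) (hγ : 0 < γ) (hz : 1 < z) (h : z < z2) (m : ℝ)
    (k : ℕ) : ∀ X, YUps t γ (z * t) m k X ≤
      Real.exp (Real.log (z2 / z) * (X - m - ysl t γ z z2 * k)) *
        ((z * t) ^ X * rho t γ z ^ k) := by
  have hz0 : 0 < z := by linarith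
  have hz2 : 0 < z2 := by linarith
  have hη : 0 < Real.log (z2 / z) := Real.log_pos ((one_lt_div hz0).2 h)
  have hW2 := rho_pos ht hγ (hz.trans h)
  have e1 : z2 * t = z * t * Real.exp (Real.log (z2 / z)) := by
    rw [Real.exp_log (div_pos (by linarith) hz0)]; field_simp
  have key : ∀ k X, YUps t γ (z * t) m k X ≤
      Real.exp (-(Real.log (z2 / z) * m)) * ((z2 * t) ^ X * rho t γ z2 ^ k) := by
    intro k
    induction k with
    | zero =>
      intro X
      rw [YUps]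
      by_cases hc : m ≤ X
      · rw [ind_pos hc, e1, mul_pow (z * t), ← Real.exp_nat_mul]
        have h1 : 1 ≤ Real.exp (-(Real.log (z2 / z) * m)) * Real.exp (X * Real.log (z2 / z)) := by
          rw [← Real.exp_add]; exact Real.one_le_exp (by linarith only [hη, hc, mul_nonneg_of_nonpos_of_nonpos (le_of_lt (Mathlib.Tactic.Linarith.sub_neg_of_lt hη)) (Mathlib.Tactic.Linarith.sub_nonpos_of_le hc)])
        have h2 : 0 < (z * t) ^ X := by positivity
        linarith only [h1, h2, mul_le_mul_of_nonneg_right h1 h2.le]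
      · rw [ind_neg hc, zero_mul]; positivity
    | succ k ih =>
      intro X
      rw [YUps, ← sum_flip]
      have h1 := Y_step (γ := γ) ht (hz.trans h)
        (Real.exp (-(Real.log (z2 / z) * m)) * ((z2 * t) ^ X * rho t γ z2 ^ k))
      refine le_trans (sum_le_sum fun d hd => ?_) ((sum_le_hasSum (range (X + 1))
        (fun d _ => mul_nonneg (kk_pos ht hγ d).le (by positivity)) h1).trans (le_of_eq (by ring)))
      have hd' : d ≤ X := Nat.lt_succ_iff.1 (mem_range.1 hd)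
      rw [Nat.sub_sub_self hd']
      refine mul_le_mul_of_nonneg_left ((ih _).trans (le_of_eq ?_)) (kk_pos ht hγ d).le
      rw [← Y_pow_sub (by positivity) hd']; ring
  intro X
  refine (key k X).trans (le_of_eq ?_)
  rw [e1, ysl_exp ht hγ hz h]
  generalize Real.log (z2 / z) = η
  generalize ysl t γ z z2 = l
  rw [mul_pow (z * t), mul_pow (rho t γ z2), ← Real.exp_nat_mul, ← Real.exp_nat_mul]
  have h1 : Real.exp (-(η * m)) * Real.exp (X * η) =
      Real.exp (η * (X - m - l * k)) * Real.exp (k * (η * l)) := by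
    rw [← Real.exp_add, ← Real.exp_add]; congr 1; ring
  linear_combination ((z * t) ^ X * rho t γ z2 ^ k) * h1

/-- The slope tends to `λ(z)`. -/
theorem ysl_tendsto {t γ z : ℝ} (ht : 0 < t) (hγ : 0 < γ) (hz : 1 < z) :
    Tendsto (ysl t γ z) (𝓝[>] z) (𝓝 (lamW t γ z)) := by
  have hz0 : 0 < z := by linarith
  have hW := rho_pos ht hγ hz
  have h0 : rho t γ (z * Real.exp 0) * Real.exp (lamW t γ z * 0) ≠ 0 := by
    simp [hW.ne']
  have h1 := (freeDeriv ht hγ hz).log h0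
  rw [zero_div] at h1
  have h2 := h1.tendsto_slope_zero_right
  have h3 : Tendsto (fun w => Real.log (w / z)) (𝓝[>] z) (𝓝[>] 0) := by
    refine tendsto_nhdsWithin_iff.2 ⟨?_, ?_⟩
    · have h4 : ContinuousAt (fun w => Real.log (w / z)) z :=
        (continuousAt_id.div_const z).log (by simp [hz0.ne'])
      have h5 := h4.tendsto
      rw [div_self hz0.ne', Real.log_one] at h5
      exact h5.mono_left nhdsWithin_le_nhds
    · filter_upwards [self_mem_nhdsWithin] with w hw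
      exact Real.log_pos ((one_lt_div hz0).2 hw)
  have h4 := (h2.comp h3).const_sub (lamW t γ z)
  rw [sub_zero] at h4
  refine h4.congr' ?_
  filter_upwards [self_mem_nhdsWithin] with w hw
  have hw' : z < w := hw
  have hη : 0 < Real.log (w / z) := Real.log_pos ((one_lt_div hz0).2 hw')
  have hW2 := rho_pos ht hγ (hz.trans hw')
  have e1 : z * Real.exp (Real.log (w / z)) = w := by
    rw [Real.exp_log (div_pos (by linarith only [hz, hw']) hz0)]; field_simp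
  simp only [Function.comp, zero_add, smul_eq_mul, e1, Real.exp_zero, mul_one, mul_zero, ysl]
  rw [Real.log_mul hW2.ne' (Real.exp_pos _).ne', Real.log_exp, Real.log_div hW.ne' hW2.ne']
  field_simp
  ring

end Pool.Agent.Work.MP_413ea6_mp
end

-- merged part: Pool.Agent.Work.MP_413ea6_mp.OpA
section
open Filter Topology Finset Matrix

namespace Pool.Agent.Work.MP_413ea6_mp

/-! Entries of the row operators. -/

theorem le_mx {n : ℕ} {α : St n} {r : Fin n} (h : α r = true) : (r : ℕ) + 1 ≤ mx α := by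
  have h1 := Finset.le_sup (f := fun r : Fin n => if α r = true then (r : ℕ) + 1 else 0)
    (mem_univ r)
  rwa [if_pos h] at h1

theorem mx_le_iff {n : ℕ} {α : St n} {m : ℕ} : mx α ≤ m ↔ ∀ r, α r = true → (r : ℕ) < m := by
  refine ⟨fun h r hr => (le_mx hr).trans h, fun h => Finset.sup_le fun r _ => ?_⟩
  split_ifs with hr
  · exact h r hr
  · exact Nat.zero_le _

theorem mx_le {n : ℕ} (α : St n) : mx α ≤ n := mx_le_iff.2 fun r _ => r.2

theorem mx_update {n : ℕ} {α : St n} {p : Fin n} (h : mx α ≤ p) :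
    mx (Function.update α p true) = p + 1 := by
  refine le_antisymm (mx_le_iff.2 fun r hr => ?_) (le_mx (Function.update_self _ _ _))
  by_cases h1 : r = p
  · rw [h1]
    exact Nat.lt_succ_self _
  · rw [Function.update_of_ne h1] at hr
    exact (mx_le_iff.1 h r hr).trans (Nat.lt_succ_self _)

theorem OpA_ne {n : ℕ} {α : St n} (h : α ≠ fun _ => false) : ∃ r, α r = true := by
  by_contra hc
  exact h (funext fun r => Bool.eq_false_iff.2 fun hr => hc ⟨r, hr⟩)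

theorem exists_update {n : ℕ} {α : St n} (h : α ≠ fun _ => false) :
    ∃ (p : Fin n) (α' : St n), mx α' ≤ p ∧ α = Function.update α' p true := by
  obtain ⟨r, hr⟩ := OpA_ne h
  obtain ⟨p, hp, hm⟩ := exists_max_image (univ.filter fun r => α r = true) id
    ⟨r, mem_filter.2 ⟨mem_univ _, hr⟩⟩
  refine ⟨p, Function.update α p false, mx_le_iff.2 fun q hq => ?_, ?_⟩
  · have h1 : q ≠ p := by
      rintro rfl
      simp at hq
    rw [Function.update_of_ne h1] at hq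
    exact lt_of_le_of_ne (hm q (mem_filter.2 ⟨mem_univ _, hq⟩)) fun h2 => h1 (Fin.ext h2)
  · rw [Function.update_idem, ← (mem_filter.1 hp).2, Function.update_eq_self]

theorem update_inj {n : ℕ} {α β : St n} {p q : Fin n} (hp : mx α ≤ p) (hq : mx β ≤ q)
    (h : Function.update α p true = Function.update β q true) : p = q ∧ α = β := by
  have h1 := mx_update hp
  rw [h, mx_update hq] at h1
  obtain rfl : p = q := Fin.ext (by omega)
  refine ⟨rfl, funext fun r => ?_⟩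
  by_cases h2 : r = p
  · rw [h2, Bool.eq_false_iff.2 fun h3 => lt_irrefl _ (mx_le_iff.1 hp p h3),
      Bool.eq_false_iff.2 fun h3 => lt_irrefl _ (mx_le_iff.1 hq p h3)]
  · have h3 := congrFun h r
    rwa [Function.update_of_ne h2, Function.update_of_ne h2] at h3

theorem mx_cons_false {n : ℕ} {α : St n} (h : α ≠ fun _ => false) :
    mx (Fin.cons false α : St (n + 1)) = mx α + 1 := by
  refine le_antisymm (mx_le_iff.2 fun r => ?_) ?_
  · refine Fin.cases (fun hr => Nat.succ_pos _) (fun r hr => ?_) r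
    exact Nat.succ_lt_succ (le_mx (α := α) (r := r) hr)
  · obtain ⟨p, α', h1, h2⟩ := exists_update h
    have h3 : (Fin.cons false α : St (n + 1)) p.succ = true := by
      rw [Fin.cons_succ, h2, Function.update_self]
    have h4 := le_mx h3
    rw [Fin.val_succ] at h4
    rw [show mx α = p + 1 by rw [h2, mx_update h1]]
    exact h4

theorem OpA_ex {n : ℕ} {A B : Fin (n + 1) → ℝ} {c : ℝ} {ν μ : St (n + 1)} {w e : Bool}
    (h : Tr A B c ν μ w e ≠ 0) :
    ∃ m, Tr (Fin.init A) (Fin.init B) c (Fin.init ν) (Fin.init μ) w m ≠ 0 ∧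
      Lw (A (Fin.last n)) (B (Fin.last n)) c m (ν (Fin.last n)) e (μ (Fin.last n)) ≠ 0 := by
  rw [Tr_succ', Matrix.mul_apply] at h
  obtain ⟨m, -, hm⟩ := exists_ne_zero_of_sum_ne_zero h
  exact ⟨m, left_ne_zero_of_mul hm, right_ne_zero_of_mul hm⟩

theorem OpA_thick {n : ℕ} {A B : Fin n → ℝ} {c : ℝ} {ν μ : St n} {w : Bool}
    (h : Tr A B c ν μ w true ≠ 0) (r : Fin n) (hr : μ r = true) : ∃ q, r ≤ q ∧ ν q = true := by
  induction n with
  | zero => exact r.elim0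
  | succ n ih =>
    by_cases h1 : ν (Fin.last n) = true
    · exact ⟨_, Fin.le_last r, h1⟩
    obtain ⟨m, h2, h3⟩ := OpA_ex h
    rw [Bool.eq_false_iff.2 h1] at h3
    have h4 : m = true ∧ μ (Fin.last n) = false := by
      revert h3
      cases m <;> cases μ (Fin.last n) <;> simp [Lw]
    obtain ⟨rfl, h5⟩ := h4
    induction r using Fin.lastCases with
    | last => rw [h5] at hr; exact absurd hr Bool.false_ne_true
    | cast r =>
      obtain ⟨q, h6, h7⟩ := ih h2 r hr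
      exact ⟨q.castSucc, Fin.castSucc_le_castSucc_iff.2 h6, h7⟩

theorem OpA_thin {n : ℕ} {A B : Fin n → ℝ} {c : ℝ} {ν μ : St n} {w : Bool}
    (h : Tr A B c ν μ w false ≠ 0) (r : Fin n) (hr : ν r = true) : ∃ q, r ≤ q ∧ μ q = true := by
  induction n with
  | zero => exact r.elim0
  | succ n ih =>
    by_cases h1 : μ (Fin.last n) = true
    · exact ⟨_, Fin.le_last r, h1⟩
    obtain ⟨m, h2, h3⟩ := OpA_ex h
    rw [Bool.eq_false_iff.2 h1] at h3
    have h4 : m = false ∧ ν (Fin.last n) = false := by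
      revert h3
      cases m <;> cases ν (Fin.last n) <;> simp [Lw]
    obtain ⟨rfl, h5⟩ := h4
    induction r using Fin.lastCases with
    | last => rw [h5] at hr; exact absurd hr Bool.false_ne_true
    | cast r =>
      obtain ⟨q, h6, h7⟩ := ih h2 r hr
      exact ⟨q.castSucc, Fin.castSucc_le_castSucc_iff.2 h6, h7⟩

theorem OpA_second {n : ℕ} {A B : Fin n → ℝ} {c : ℝ} {ν μ : St n} {w : Bool}
    (h : Tr A B c ν μ w false ≠ 0) (r p : Fin n) (hr : μ r = true) (hp : μ p = true)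
    (hrp : r < p) : ∃ q, r ≤ q ∧ ν q = true := by
  induction n with
  | zero => exact r.elim0
  | succ n ih =>
    by_cases h1 : ν (Fin.last n) = true
    · exact ⟨_, Fin.le_last r, h1⟩
    obtain ⟨m, h2, h3⟩ := OpA_ex h
    rw [Bool.eq_false_iff.2 h1] at h3
    have h4 : m = μ (Fin.last n) := by
      revert h3
      cases m <;> cases μ (Fin.last n) <;> simp [Lw]
    induction r using Fin.lastCases with
    | last => exact absurd (Fin.le_last p) (not_le.2 hrp)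
    | cast r =>
      cases m with
      | true =>
        obtain ⟨q, h6, h7⟩ := OpA_thick h2 r hr
        exact ⟨q.castSucc, Fin.castSucc_le_castSucc_iff.2 h6, h7⟩
      | false =>
        induction p using Fin.lastCases with
        | last => rw [hp] at h4; exact absurd h4 Bool.false_ne_true
        | cast p =>
          obtain ⟨q, h6, h7⟩ := ih h2 r p hr hp (Fin.castSucc_lt_castSucc_iff.1 hrp)
          exact ⟨q.castSucc, Fin.castSucc_le_castSucc_iff.2 h6, h7⟩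

theorem OpA_succ {n : ℕ} (A B : Fin (n + 1) → ℝ) (c : ℝ) (α β : St (n + 1)) (w e : Bool) :
    Tr A B c α β w e =
      Lw (A 0) (B 0) c w (α 0) true (β 0) *
          Tr (Fin.tail A) (Fin.tail B) c (Fin.tail α) (Fin.tail β) true e +
        Lw (A 0) (B 0) c w (α 0) false (β 0) *
          Tr (Fin.tail A) (Fin.tail B) c (Fin.tail α) (Fin.tail β) false e := by
  rw [Tr_succ, Matrix.mul_apply, Fintype.sum_bool]
  rfl

theorem OpA_to_empty {n : ℕ} (A B : Fin n → ℝ) (c : ℝ) (ν : St n) :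
    Tr A B c ν (fun _ => false) true false = 0 := by
  induction n with
  | zero => simp [Tr_zero]
  | succ n ih =>
    rw [OpA_succ, show Fin.tail (fun _ : Fin (n + 1) => false) = fun _ => false from rfl, ih]
    cases ν 0 <;> simp [Lw]

theorem Bop_interlace {n : ℕ} {A B : Fin n → ℝ} {c : ℝ} {ν μ : St n} (h : Bop A B c ν μ ≠ 0) :
    ∃ (p : Fin n) (μ' : St n), mx μ' ≤ p ∧ μ = Function.update μ' p true ∧ mx μ' ≤ mx ν ∧
      mx ν ≤ p + 1 := by
  have h' : Tr A B c ν μ true false ≠ 0 := h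
  obtain ⟨p, μ', h1, h2⟩ := exists_update (α := μ) fun h0 => h' (h0 ▸ OpA_to_empty A B c ν)
  refine ⟨p, μ', h1, h2, mx_le_iff.2 fun r hr => ?_, mx_le_iff.2 fun r hr => ?_⟩
  · have h3 : r < p := mx_le_iff.1 h1 r hr
    obtain ⟨q, h4, h5⟩ := OpA_second h' r p (by rw [h2, Function.update_of_ne h3.ne, hr])
      (by rw [h2, Function.update_self]) h3
    exact lt_of_le_of_lt h4 (le_mx h5)
  · obtain ⟨q, h4, h5⟩ := OpA_thin h' r hr
    have h6 := le_mx h5
    rw [h2, mx_update h1] at h6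
    exact lt_of_le_of_lt h4 h6

theorem Dop_mx {n : ℕ} {A B : Fin n → ℝ} {c : ℝ} {ν μ : St n} (h : Dop A B c ν μ ≠ 0) :
    mx μ ≤ mx ν := by
  refine mx_le_iff.2 fun r hr => ?_
  obtain ⟨q, h1, h2⟩ := OpA_thick (w := true) h r hr
  exact lt_of_le_of_lt h1 (le_mx h2)

theorem OpA_eq_iff {n : ℕ} (α β : St (n + 1)) :
    α = β ↔ α 0 = β 0 ∧ Fin.tail α = Fin.tail β := by
  refine ⟨fun h => h ▸ ⟨rfl, rfl⟩, fun h => ?_⟩
  rw [← Fin.cons_self_tail α, ← Fin.cons_self_tail β, h.1, h.2]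

theorem OpA_const {n : ℕ} (b : Bool) : Fin.tail (fun _ : Fin (n + 1) => b) = fun _ => b := rfl

theorem OpA_FT {n : ℕ} (A B : Fin n → ℝ) (c : ℝ) (β : St n) :
    Tr A B c (fun _ => false) β false true = 0 := by
  induction n with
  | zero => simp [Tr_zero]
  | succ n ih =>
    rw [OpA_succ, OpA_const, ih]
    cases β 0 <;> simp [Lw]

theorem OpA_FF {n : ℕ} (A B : Fin n → ℝ) (c : ℝ) (β : St n) :
    Tr A B c (fun _ => false) β false false = if β = fun _ => false then ∏ r, A r else 0 := by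
  induction n with
  | zero => simp [Tr_zero, Subsingleton.elim β fun _ => false]
  | succ n ih =>
    rw [OpA_succ, OpA_const, ih, Fin.prod_univ_succ, if_congr (OpA_eq_iff β _) rfl rfl, OpA_const]
    cases β 0 <;> simp [Lw, Fin.tail]

theorem Dop_empty {n : ℕ} (A B : Fin n → ℝ) (c : ℝ) (β : St n) :
    Dop A B c (fun _ => false) β = if β = fun _ => false then ∏ r, B r else 0 := by
  change Tr A B c (fun _ => false) β true true = _
  induction n with
  | zero => simp [Tr_zero, Subsingleton.elim β fun _ => false]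
  | succ n ih =>
    rw [OpA_succ, OpA_const, ih, OpA_FT, Fin.prod_univ_succ, if_congr (OpA_eq_iff β _) rfl rfl,
      OpA_const]
    cases β 0 <;> simp [Lw, Fin.tail]

theorem OpA_Iio {n : ℕ} (f : Fin (n + 1) → ℝ) (q : Fin n) :
    ∏ r ∈ Iio q.succ, f r = f 0 * ∏ r ∈ Iio q, f r.succ := by
  have h1 : Iio q.succ = insert 0 ((Iio q).map (Fin.succEmb n)) := by
    rw [Fin.map_succEmb_Iio]
    ext r
    simp only [mem_Iio, mem_insert, mem_Ioo]
    rcases (Fin.zero_le r).eq_or_lt with h | h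
    · simp [← h]
    · simp [h, h.ne']
  rw [h1, prod_insert (by simp), prod_map]
  rfl

theorem Bop_empty {n : ℕ} (A B : Fin n → ℝ) (c : ℝ) (β : St n) :
    Bop A B c (fun _ => false) β = ∑ p : Fin n, if β = Pi.single p true then
      (∏ r ∈ Iio p, B r) * c * ∏ r ∈ Ioi p, A r else 0 := by
  change Tr A B c (fun _ => false) β true false = _
  induction n with
  | zero => simp [Tr_zero]
  | succ n ih =>
    have h1 : Fin.tail (Pi.single 0 true : St (n + 1)) = fun _ => false :=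
      funext fun r => Pi.single_eq_of_ne (Fin.succ_ne_zero r) _
    have h0 : Iio (0 : Fin (n + 1)) = ∅ := Iio_bot
    have h2 : ∀ q : Fin n, Fin.tail (Pi.single q.succ true : St (n + 1)) = Pi.single q true := by
      intro q
      funext r
      simp [Fin.tail, Pi.single_apply]
    have h3 : ∀ q : Fin n, (Pi.single q.succ true : St (n + 1)) 0 = false := fun q =>
      Pi.single_eq_of_ne (Fin.succ_ne_zero q).symm _
    rw [OpA_succ, OpA_const, ih, OpA_FF, Fin.sum_univ_succ, add_comm]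
    simp only [OpA_eq_iff β, h0, h1, h2, h3, Pi.single_eq_same, OpA_Iio, Fin.prod_Ioi_succ,
      Fin.prod_Ioi_zero, mul_sum]
    cases β 0 <;> simp [Lw, Fin.tail, mul_assoc]

theorem Bop_cons_false {n : ℕ} (A B : Fin (n + 1) → ℝ) (c : ℝ) (α : St (n + 1)) (β : St n) :
    Bop A B c α (Fin.cons false β) =
      if α 0 = false then B 0 * Bop (Fin.tail A) (Fin.tail B) c (Fin.tail α) β else 0 := by
  change Tr A B c α (Fin.cons false β) true false =
    if α 0 = false then B 0 * Tr (Fin.tail A) (Fin.tail B) c (Fin.tail α) β true false else 0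
  rw [OpA_succ, Fin.tail_cons, Fin.cons_zero]
  cases α 0 <;> simp [Lw]

theorem OpA_full {n : ℕ} (A B : Fin n → ℝ) (c : ℝ) (α : St n) :
    Tr A B c α (fun _ => true) false false = if α = fun _ => true then ∏ r, B r else 0 := by
  induction n with
  | zero => simp [Tr_zero, Subsingleton.elim α fun _ => true]
  | succ n ih =>
    rw [OpA_succ, OpA_const, ih, Fin.prod_univ_succ, if_congr (OpA_eq_iff α _) rfl rfl, OpA_const]
    cases α 0 <;> simp [Lw, Fin.tail]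

theorem Bop_top {n : ℕ} (A B : Fin (n + 1) → ℝ) (c : ℝ) (hA : A 0 = 0) (α : St (n + 1)) :
    Bop A B c α (fun _ => true) =
      if α = Fin.cons false (fun _ => true) then c * ∏ r : Fin n, B r.succ else 0 := by
  change Tr A B c α (fun _ => true) true false = _
  rw [OpA_succ, OpA_const, OpA_full, if_congr (OpA_eq_iff α _) rfl rfl, Fin.tail_cons,
    Fin.cons_zero, hA]
  cases α 0 <;> simp [Lw, Fin.tail]

end Pool.Agent.Work.MP_413ea6_mp
end

-- merged part: Pool.Agent.Work.MP_413ea6_mp.YGoal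
section
/-!
The two comparison inequalities for the outer path, for an abstract family of row operators.
`Bs` is the standard row (thick in, thin out), `Bx` and `Dx` are the special rows (thin out,
thick out), normalised.  Column `0` is the special column.
-/

open Filter Topology Finset Matrix Function

namespace Pool.Agent.Work.MP_413ea6_mp

/-- The empty state. -/
def yE (n : ℕ) : St n := fun _ => false

structure YLay (N : ℕ) (t γ y W K : ℝ) where
  Bs : Matrix (St (N + 1)) (St (N + 1)) ℝ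
  Bx : Matrix (St (N + 1)) (St (N + 1)) ℝ
  Dx : Matrix (St (N + 1)) (St (N + 1)) ℝ
  Bs_nn : ∀ κ μ, 0 ≤ Bs κ μ
  Bx_nn : ∀ κ μ, 0 ≤ Bx κ μ
  Dx_nn : ∀ κ μ, 0 ≤ Dx κ μ
  BB : Bx * Bs = Bs * Bx
  DB : ∀ κ μ, (Bs * Dx) κ μ ≤ W * (Dx * Bs) κ μ
  Bs_le : ∀ κ μ, Bs κ μ ≠ 0 → mx κ ≤ mx μ
  Bx_le : ∀ κ μ, Bx κ μ ≠ 0 → mx κ ≤ mx μ
  Bx_ne : ∀ κ, Bx κ (yE _) = 0
  Bx_two : ∀ κ μ (X : Fin (N + 1)), mx μ ≤ X → Bx κ (update μ X true) ≠ 0 → mx μ ≤ mx κ
  Dx_le : ∀ κ μ, Dx κ μ ≠ 0 → mx μ ≤ mx κ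
  fact : ∀ (κ μ : St (N + 1)) (x X : Fin (N + 1)), 0 < (x : ℕ) → x ≤ X → mx κ ≤ x → mx μ ≤ x →
    Bs (update κ x true) (update μ X true) = kk t γ (X - x) * Bs κ μ
  BD : ∀ (ν μ : St (N + 1)) (X : Fin (N + 1)), 0 < (X : ℕ) → mx μ ≤ X →
    Bx ν (update μ X true) ≤ K * y ^ (X : ℕ) * Dx ν μ
  D0 : Dx (yE _) (yE _) ≤ 1
  B0 : ∀ X : Fin (N + 1), 0 < (X : ℕ) → Bx (yE _) (update (yE _) X true) = y ^ (X : ℕ)

/-- All paths are left of the wall at level `k`. -/
def YWall {n : ℕ} (wl : ℕ → ℝ) (k : ℕ) (μ : St n) : Prop := (mx μ : ℝ) ≤ wl k + 1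

/-- Level vectors of the rows `B` restricted to the wall. -/
noncomputable def YRV {n : ℕ} (B : Matrix (St n) (St n) ℝ) (wl : ℕ → ℝ) : ℕ → St n → ℝ
  | 0 => fun μ => ind (μ = yE n)
  | k + 1 => fun μ => ind (YWall wl (k + 1) μ) * (YRV B wl k ᵥ* B) μ

theorem YRV_zero {n : ℕ} (B : Matrix (St n) (St n) ℝ) (wl : ℕ → ℝ) (μ : St n) :
    YRV B wl 0 μ = ind (μ = yE n) := rfl

theorem YRV_succ {n : ℕ} (B : Matrix (St n) (St n) ℝ) (wl : ℕ → ℝ) (k : ℕ) (μ : St n) :
    YRV B wl (k + 1) μ = ind (YWall wl (k + 1) μ) * (YRV B wl k ᵥ* B) μ := rfl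

theorem mx_yE (n : ℕ) : mx (yE n) = 0 :=
  Nat.le_zero.1 (mx_le_iff.2 fun _ h => absurd h Bool.false_ne_true)

theorem eq_yE {n : ℕ} {μ : St n} (h : mx μ ≤ 0) : μ = yE n := by
  funext r
  by_contra hc
  have := le_mx (α := μ) (r := r) (by simpa [yE] using hc)
  omega

theorem Y_cases {n : ℕ} {p : St n → Prop} (h0 : p (yE n))
    (h1 : ∀ (μ : St n) (X : Fin n), mx μ ≤ X → p (update μ X true)) (μ : St n) : p μ := by
  by_cases h : μ = yE n
  · exact h ▸ h0
  · obtain ⟨X, ν, h2, rfl⟩ := exists_update h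
    exact h1 ν X h2

theorem Y_sum_max {n : ℕ} (F : St n → ℝ) :
    ∑ κ, F κ = F (yE n) + ∑ x : Fin n, ∑ κ : St n, ind (mx κ ≤ x) * F (update κ x true) := by
  classical
  rw [← add_sum_erase _ _ (mem_univ (yE n)), ← sum_product', ← sum_filter_add_sum_filter_not
    (univ ×ˢ univ) (fun p : Fin n × St n => mx p.2 ≤ p.1)]
  rw [sum_eq_zero (s := filter (fun p : Fin n × St n => ¬ mx p.2 ≤ p.1) _)
    fun p hp => by rw [ind_neg (mem_filter.1 hp).2, zero_mul], add_zero]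
  congr 1
  symm
  refine sum_bij (fun p _ => update p.2 p.1 true) (fun p hp => ?_) (fun p hp q hq e => ?_)
    (fun μ hμ => ?_) (fun p hp => ?_)
  · refine mem_erase.2 ⟨fun e => ?_, mem_univ _⟩
    have := congrFun e p.1
    simp [yE] at this
  · have := update_inj (mem_filter.1 hp).2 (mem_filter.1 hq).2 e
    exact Prod.ext this.1 this.2
  · obtain ⟨X, ν, h2, rfl⟩ := exists_update (mem_erase.1 hμ).1
    exact ⟨(X, ν), mem_filter.2 ⟨by simp, h2⟩, rfl⟩
  · rw [ind_pos (mem_filter.1 hp).2, one_mul]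

theorem Y_sum_fin {n : ℕ} (X : Fin n) (f : ℕ → ℝ) :
    ∑ x ∈ range (X + 1), f x = ∑ x : Fin n, ind (x ≤ X) * f x := by
  have h1 : ∀ x : Fin n, ind (x ≤ X) * f x = (fun j : ℕ => ind (j ≤ X) * f j) x :=
    fun x => rfl
  rw [sum_congr rfl fun x _ => h1 x, Fin.sum_univ_eq_sum_range (fun j : ℕ => ind (j ≤ X) * f j)]
  rw [← sum_subset (s₁ := range (X + 1)) (range_subset_range.2 X.2) fun j _ hj => by
    rw [ind_neg fun h => hj (mem_range.2 (Nat.lt_succ_of_le h)), zero_mul]]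
  exact sum_congr rfl fun j hj => by
    rw [ind_pos (Nat.lt_succ_iff.1 (mem_range.1 hj)), one_mul]

theorem Y_vm {n : ℕ} (f : St n → ℝ) (B : Matrix (St n) (St n) ℝ) (μ : St n) :
    (f ᵥ* B) μ = ∑ κ, f κ * B κ μ := rfl

theorem Y_vm_mono {n : ℕ} {f g : St n → ℝ} {B : Matrix (St n) (St n) ℝ}
    (hB : ∀ κ μ, 0 ≤ B κ μ) (h : ∀ κ, f κ ≤ g κ) (μ : St n) : (f ᵥ* B) μ ≤ (g ᵥ* B) μ := by
  rw [Y_vm, Y_vm]
  exact sum_le_sum fun κ _ => mul_le_mul_of_nonneg_right (h κ) (hB κ μ)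

theorem Y_vm_nn {n : ℕ} {f : St n → ℝ} {B : Matrix (St n) (St n) ℝ}
    (hB : ∀ κ μ, 0 ≤ B κ μ) (h : ∀ κ, 0 ≤ f κ) (μ : St n) : 0 ≤ (f ᵥ* B) μ := by
  rw [Y_vm]
  exact sum_nonneg fun κ _ => mul_nonneg (h κ) (hB κ μ)

theorem Y_vm_zero {n : ℕ} {f : St n → ℝ} {B : Matrix (St n) (St n) ℝ} {μ : St n}
    (h : ∀ κ, B κ μ ≠ 0 → f κ = 0) : (f ᵥ* B) μ = 0 := by
  rw [Y_vm]
  refine sum_eq_zero fun κ _ => ?_
  by_cases h1 : B κ μ = 0
  · rw [h1, mul_zero]
  · rw [h κ h1, zero_mul]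

theorem Y_vm_smul {n : ℕ} (c : ℝ) (f : St n → ℝ) (B : Matrix (St n) (St n) ℝ) (μ : St n) :
    ((fun κ => c * f κ) ᵥ* B) μ = c * (f ᵥ* B) μ := by
  simp only [Y_vm, mul_sum, mul_assoc]

theorem Y_vm_add {n : ℕ} (f g : St n → ℝ) (B : Matrix (St n) (St n) ℝ) (μ : St n) :
    ((fun κ => f κ + g κ) ᵥ* B) μ = (f ᵥ* B) μ + (g ᵥ* B) μ := by
  simp only [Y_vm, add_mul, sum_add_distrib]

theorem Y_pow_nn {n : ℕ} {B : Matrix (St n) (St n) ℝ} (hB : ∀ κ μ, 0 ≤ B κ μ) (k : ℕ) :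
    ∀ κ μ, 0 ≤ (B ^ k) κ μ := by
  induction k with
  | zero =>
    intro κ μ
    rw [pow_zero, one_apply]
    split_ifs <;> norm_num
  | succ k ih =>
    intro κ μ
    rw [pow_succ, mul_apply]
    exact sum_nonneg fun ν _ => mul_nonneg (ih _ _) (hB _ _)

theorem Y_pow_succ {n : ℕ} (f : St n → ℝ) (B : Matrix (St n) (St n) ℝ) (k : ℕ) :
    f ᵥ* B ^ (k + 1) = (f ᵥ* B ^ k) ᵥ* B := by
  rw [pow_succ, vecMul_vecMul]

theorem Y_delta {n : ℕ} (B B' : Matrix (St n) (St n) ℝ) (wl : ℕ → ℝ) (μ : St n) :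
    (YRV B' wl 0 ᵥ* B) μ = B (yE n) μ := by
  rw [Y_vm, sum_eq_single (yE n) (fun κ _ h => by rw [YRV_zero, ind_neg h, zero_mul]) (by simp),
    YRV_zero, ind_pos rfl, one_mul]

theorem YRV_nn {n : ℕ} {B : Matrix (St n) (St n) ℝ} (hB : ∀ κ μ, 0 ≤ B κ μ) (wl : ℕ → ℝ)
    (k : ℕ) : ∀ μ, 0 ≤ YRV B wl k μ := by
  induction k with
  | zero => exact fun μ => ind_nonneg _
  | succ k ih => exact fun μ => mul_nonneg (ind_nonneg _) (Y_vm_nn hB ih μ)

theorem YWall_yE {n : ℕ} {wl : ℕ → ℝ} (hw : Monotone wl) (h0 : 0 ≤ wl 0) (k : ℕ) :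
    YWall wl k (yE n) := by
  have := hw (Nat.zero_le k)
  rw [YWall, mx_yE]
  push_cast
  linarith

theorem YWall.mono {n : ℕ} {wl : ℕ → ℝ} {k : ℕ} {κ μ : St n} (h : YWall wl k κ)
    (hle : mx μ ≤ mx κ) : YWall wl k μ :=
  le_trans (by exact_mod_cast hle) h

theorem YWall.le {n : ℕ} {wl : ℕ → ℝ} {k : ℕ} {κ : St n} (h : YWall wl k κ) {x : ℕ}
    (hx : wl k < x) : mx κ ≤ x := by
  have h1 : (mx κ : ℝ) < x + 1 := lt_of_le_of_lt h (by linarith)
  exact Nat.lt_succ_iff.1 (by exact_mod_cast h1)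

theorem YWall_update {n : ℕ} {wl : ℕ → ℝ} {k : ℕ} {μ : St n} {X : Fin n} (h : mx μ ≤ X) :
    YWall wl k (update μ X true) ↔ ((X : ℕ) : ℝ) ≤ wl k := by
  rw [YWall, mx_update h]
  push_cast
  exact add_le_add_iff_right 1

theorem YRV_wall {n : ℕ} {B : Matrix (St n) (St n) ℝ} {wl : ℕ → ℝ} (h0 : 0 ≤ wl 0) {k : ℕ}
    {μ : St n} (h : YRV B wl k μ ≠ 0) : YWall wl k μ := by
  by_contra hc
  cases k with
  | zero =>
    refine h (ind_neg fun h1 => hc ?_)
    rw [h1, YWall, mx_yE]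
    push_cast
    linarith
  | succ k => exact h (by rw [YRV_succ, ind_neg hc, zero_mul])

theorem YRV_le {n : ℕ} {B : Matrix (St n) (St n) ℝ} (hB : ∀ κ μ, 0 ≤ B κ μ) (wl : ℕ → ℝ)
    (k : ℕ) (μ : St n) : YRV B wl (k + 1) μ ≤ (YRV B wl k ᵥ* B) μ :=
  mul_le_of_le_one_left (Y_vm_nn hB (YRV_nn hB wl k) μ) (ind_le_one _)

namespace YLay

variable {N : ℕ} {t γ y W K : ℝ} (S : YLay N t γ y W K)

theorem D_step (hW : 0 ≤ W) {f : St (N + 1) → ℝ} (hf : ∀ κ, 0 ≤ f κ) {c : ℝ}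
    (h : ∀ κ, (f ᵥ* S.Dx) κ ≤ c * f κ) (μ : St (N + 1)) :
    ((f ᵥ* S.Bs) ᵥ* S.Dx) μ ≤ c * W * (f ᵥ* S.Bs) μ := by
  calc ((f ᵥ* S.Bs) ᵥ* S.Dx) μ = ∑ κ, f κ * (S.Bs * S.Dx) κ μ := by rw [vecMul_vecMul]; rfl
    _ ≤ ∑ κ, f κ * (W * (S.Dx * S.Bs) κ μ) :=
        sum_le_sum fun κ _ => mul_le_mul_of_nonneg_left (S.DB κ μ) (hf κ)
    _ = W * ((f ᵥ* S.Dx) ᵥ* S.Bs) μ := by
        rw [vecMul_vecMul, Y_vm, mul_sum]; exact sum_congr rfl fun κ _ => by ring
    _ ≤ W * ((fun κ => c * f κ) ᵥ* S.Bs) μ :=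
        mul_le_mul_of_nonneg_left (Y_vm_mono S.Bs_nn h μ) hW
    _ = _ := by rw [Y_vm_smul]; ring

theorem D_RV (hW : 0 ≤ W) {wl : ℕ → ℝ} (h0 : 0 ≤ wl 0) (k : ℕ) :
    ∀ μ, (YRV S.Bs wl k ᵥ* S.Dx) μ ≤ W ^ k * YRV S.Bs wl k μ := by
  induction k with
  | zero =>
    intro μ
    rw [Y_delta, pow_zero, one_mul, YRV_zero]
    by_cases h : μ = yE _
    · rw [ind_pos h, h]; exact S.D0
    · rw [ind_neg h]
      by_contra hc
      exact h (eq_yE ((S.Dx_le _ μ fun h => hc h.le).trans (mx_yE _).le))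
  | succ k ih =>
    intro μ
    by_cases h : YWall wl (k + 1) μ
    · refine (Y_vm_mono S.Dx_nn (YRV_le S.Bs_nn wl k) μ).trans
        ((S.D_step hW (YRV_nn S.Bs_nn wl k) ih μ).trans (le_of_eq ?_))
      rw [YRV_succ, ind_pos h, one_mul, pow_succ]
    · rw [Y_vm_zero fun κ h2 => by_contra fun h1 => h ((YRV_wall h0 h1).mono (S.Dx_le κ μ h2))]
      exact mul_nonneg (pow_nonneg hW _) (YRV_nn S.Bs_nn wl _ μ)

/-- The special row at the bottom, turning right of `m`, followed by `k` standard rows. -/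
noncomputable def Yv (m : ℝ) (k : ℕ) : St (N + 1) → ℝ :=
  (fun μ => ind (m + 1 < mx μ) * S.Bx (yE _) μ) ᵥ* S.Bs ^ k

theorem Yv_nn (m : ℝ) (k : ℕ) (μ : St (N + 1)) : 0 ≤ S.Yv m k μ :=
  Y_vm_nn (Y_pow_nn S.Bs_nn k) (fun _ => mul_nonneg (ind_nonneg _) (S.Bx_nn _ _)) μ

theorem Yv_succ (m : ℝ) (k : ℕ) : S.Yv m (k + 1) = S.Yv m k ᵥ* S.Bs := Y_pow_succ _ _ _

theorem Phi_le (ht : 0 < t) (hγ : 0 < γ) {wl : ℕ → ℝ} (hw : Monotone wl) (h0 : 0 ≤ wl 0)
    (k : ℕ) : ∀ (μ : St (N + 1)) (X : Fin (N + 1)),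
      YPhi t γ y wl k X * YRV S.Bs wl k μ ≤ S.Yv (wl 0) k (update μ X true) := by
  induction k with
  | zero =>
    intro μ X
    rw [YPhi, YRV_zero, Yv, pow_zero, vecMul_one]
    by_cases h : μ = yE _
    · subst h
      by_cases h1 : wl 0 < (X : ℕ)
      · have h2 : 0 < (X : ℕ) := by exact_mod_cast h0.trans_lt h1
        have h3 : wl 0 + 1 < mx (update (yE (N + 1)) X true) := by
          rw [mx_update ((mx_yE _).le.trans (Nat.zero_le _))]; push_cast; linarith only [h1]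
        rw [ind_pos h1, ind_pos rfl, ind_pos h3, S.B0 X h2, mul_one]
      · rw [ind_neg h1, zero_mul, zero_mul]
        exact mul_nonneg (ind_nonneg _) (S.Bx_nn _ _)
    · rw [ind_neg h, mul_zero]
      exact mul_nonneg (ind_nonneg _) (S.Bx_nn _ _)
  | succ k ih =>
    intro μ X
    by_cases h : YWall wl (k + 1) μ
    swap
    · rw [YRV_succ, ind_neg h, zero_mul, mul_zero]; exact S.Yv_nn _ _ _
    rw [YRV_succ, ind_pos h, one_mul, YPhi, Y_sum_fin, Yv_succ, Y_vm, Y_vm, Y_sum_max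
      (fun κ => S.Yv (wl 0) k κ * S.Bs κ (update μ X true)), sum_mul_sum]
    refine le_add_of_nonneg_of_le (mul_nonneg (S.Yv_nn _ _ _) (S.Bs_nn _ _))
      (sum_le_sum fun x _ => sum_le_sum fun κ _ => ?_)
    have hr : 0 ≤ ind (mx κ ≤ x) *
        (S.Yv (wl 0) k (update κ x true) * S.Bs (update κ x true) (update μ X true)) :=
      mul_nonneg (ind_nonneg _) (mul_nonneg (S.Yv_nn _ _ _) (S.Bs_nn _ _))
    by_cases h1 : x ≤ X
    swap
    · rwa [ind_neg h1, zero_mul, zero_mul]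
    by_cases h2 : wl (k + 1) < (x : ℕ)
    swap
    · rwa [ind_neg h2, zero_mul, mul_zero, zero_mul]
    by_cases h3 : YRV S.Bs wl k κ = 0
    · rwa [h3, zero_mul, mul_zero]
    have h4 : mx κ ≤ x := (YRV_wall h0 h3).le ((hw k.le_succ).trans_lt h2)
    have h6 : 0 < (x : ℕ) := by exact_mod_cast (h0.trans (hw (Nat.zero_le _))).trans_lt h2
    rw [ind_pos h1, ind_pos h2, ind_pos h4, S.fact κ μ x X h6 h1 h4 (h.le h2)]
    have h7 := mul_le_mul_of_nonneg_right (ih κ x)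
      (mul_nonneg (S.Bs_nn κ μ) (kk_pos ht hγ (X - x)).le)
    linarith only [h7]

theorem Phi_vert (ht : 0 < t) (hγ : 0 < γ) {wl : ℕ → ℝ} (hw : Monotone wl) (h0 : 0 ≤ wl 0)
    (k : ℕ) (μ : St (N + 1)) (X : Fin (N + 1)) (hX : 0 < (X : ℕ)) (hμ : mx μ ≤ X) :
    t * YPhi t γ y wl k X * (YRV S.Bs wl k ᵥ* S.Bs) μ ≤
      S.Yv (wl 0) (k + 1) (update μ X true) := by
  have hr : ∀ (x : Fin (N + 1)) (κ : St (N + 1)), 0 ≤ ind (mx κ ≤ x) *
      (S.Yv (wl 0) k (update κ x true) * S.Bs (update κ x true) (update μ X true)) := fun x κ =>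
    mul_nonneg (ind_nonneg _) (mul_nonneg (S.Yv_nn _ _ _) (S.Bs_nn _ _))
  rw [Yv_succ, Y_vm, Y_vm, Y_sum_max (fun κ => S.Yv (wl 0) k κ * S.Bs κ (update μ X true)),
    mul_sum]
  refine le_add_of_nonneg_of_le (mul_nonneg (S.Yv_nn _ _ _) (S.Bs_nn _ _))
    (le_trans (sum_le_sum fun κ _ => ?_) (single_le_sum (f := fun x : Fin (N + 1) =>
      ∑ κ : St (N + 1), ind (mx κ ≤ x) * (S.Yv (wl 0) k (update κ x true) *
        S.Bs (update κ x true) (update μ X true)))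
      (fun x _ => sum_nonneg fun κ _ => hr x κ) (mem_univ X)))
  by_cases h3 : S.Bs κ μ = 0
  · rw [h3, mul_zero, mul_zero]; exact hr X κ
  have h4 : mx κ ≤ X := (S.Bs_le κ μ h3).trans hμ
  rw [ind_pos h4, S.fact κ μ X X hX le_rfl h4 hμ, Nat.sub_self]
  have h7 := mul_le_mul_of_nonneg_right (S.Phi_le ht hγ hw h0 k κ X)
    (mul_nonneg (S.Bs_nn κ μ) ht.le)
  have h8 : kk t γ 0 = t := by simp [kk]
  rw [h8]
  linarith only [h7]

theorem V_le (ht : 0 < t) (hγ : 0 < γ) (hy : 0 < y) (hW : 0 ≤ W) (hK : 0 ≤ K) {wl : ℕ → ℝ}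
    (hw : Monotone wl) (h0 : 0 ≤ wl 0) {L : ℝ} (hL : 0 < L) (k : ℕ)
    (hΦ : ∀ X ≤ N, wl k < X → L * (y ^ X * W ^ k) ≤ YPhi t γ y wl k X) (μ : St (N + 1)) :
    ((fun ν => ind (¬ YWall wl (k + 1) ν) * (YRV S.Bs wl k ᵥ* S.Bs) ν) ᵥ* S.Bx) μ ≤
      K * W / (t * L) * S.Yv (wl 0) (k + 1) μ := by
  have hc : 0 ≤ K * W / (t * L) := by positivity
  have hR := Y_vm_nn S.Bs_nn (YRV_nn S.Bs_nn wl k)
  refine Y_cases (p := fun μ => ((fun ν => ind (¬ YWall wl (k + 1) ν) *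
    (YRV S.Bs wl k ᵥ* S.Bs) ν) ᵥ* S.Bx) μ ≤ K * W / (t * L) * S.Yv (wl 0) (k + 1) μ) ?_
    (fun μ X hμ => ?_) μ
  · rw [Y_vm_zero fun κ h => absurd (S.Bx_ne κ) h]
    exact mul_nonneg hc (S.Yv_nn _ _ _)
  by_cases h1 : wl (k + 1) < (X : ℕ)
  swap
  · rw [Y_vm_zero fun κ h2 => mul_eq_zero_of_left (ind_neg (not_not.2
      (((YWall_update hμ).2 (not_lt.1 h1)).mono (S.Bx_le _ _ h2)))) _]
    exact mul_nonneg hc (S.Yv_nn _ _ _)
  have hX : 0 < (X : ℕ) := by exact_mod_cast (h0.trans (hw (Nat.zero_le _))).trans_lt h1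
  have h2 := hΦ X (Nat.lt_succ_iff.1 X.2) ((hw k.le_succ).trans_lt h1)
  have h3 := S.Phi_vert ht hγ hw h0 k μ X hX hμ
  have h4 := S.D_step hW (YRV_nn S.Bs_nn wl k) (S.D_RV hW h0 k) μ
  have h5 : 0 ≤ K * y ^ (X : ℕ) := by positivity
  rw [Y_vm]
  calc _ ≤ ∑ ν, (YRV S.Bs wl k ᵥ* S.Bs) ν * (K * y ^ (X : ℕ) * S.Dx ν μ) :=
        sum_le_sum fun ν _ => mul_le_mul (mul_le_of_le_one_left (hR ν) (ind_le_one _))
          (S.BD ν μ X hX hμ) (S.Bx_nn _ _) (hR ν)
    _ = K * y ^ (X : ℕ) * ((YRV S.Bs wl k ᵥ* S.Bs) ᵥ* S.Dx) μ := by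
        rw [Y_vm _ S.Dx, mul_sum]; exact sum_congr rfl fun ν _ => by ring
    _ ≤ K * y ^ (X : ℕ) * (W ^ k * W * (YRV S.Bs wl k ᵥ* S.Bs) μ) :=
        mul_le_mul_of_nonneg_left h4 h5
    _ = K * W / (t * L) * (t * (L * (y ^ (X : ℕ) * W ^ k)) * (YRV S.Bs wl k ᵥ* S.Bs) μ) := by
        field_simp
    _ ≤ _ := mul_le_mul_of_nonneg_left (le_trans (mul_le_mul_of_nonneg_right
        (mul_le_mul_of_nonneg_left h2 ht.le) (hR μ)) h3) hc

/-- The wall is rarely crossed if the special path rarely starts right of it. -/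
theorem goal_one (ht : 0 < t) (hγ : 0 < γ) (hy : 0 < y) (hW : 0 ≤ W) (hK : 0 ≤ K) {wl : ℕ → ℝ}
    (hw : Monotone wl) (h0 : 0 ≤ wl 0) {L : ℝ} (hL : 0 < L) (k : ℕ)
    (hΦ : ∀ j ≤ k, ∀ X ≤ N, wl j < X → L * (y ^ X * W ^ j) ≤ YPhi t γ y wl j X) :
    ∀ μ, (S.Bx (yE _) ᵥ* S.Bs ^ k) μ ≤
      (YRV S.Bs wl k ᵥ* S.Bx) μ + k * (K * W / (t * L)) * S.Yv (wl 0) k μ := by
  induction k with
  | zero => intro μ; rw [Y_delta, pow_zero, vecMul_one]; simp
  | succ k ih =>
    intro μ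
    have h1 := Y_vm_mono S.Bs_nn (ih fun j hj => hΦ j (hj.trans k.le_succ)) μ
    have h2 := S.V_le ht hγ hy hW hK hw h0 hL k (hΦ k k.le_succ) μ
    rw [Y_vm_add, Y_vm_smul, ← Yv_succ, ← Y_pow_succ, vecMul_vecMul, S.BB, ← vecMul_vecMul] at h1
    have h3 : YRV S.Bs wl k ᵥ* S.Bs = fun ν => YRV S.Bs wl (k + 1) ν +
        ind (¬ YWall wl (k + 1) ν) * (YRV S.Bs wl k ᵥ* S.Bs) ν := by
      funext ν; rw [YRV_succ, ind_not]; ring
    rw [h3, Y_vm_add] at h1
    push_cast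
    linarith only [h1, h2]

/-- All paths but the outer one are left of the wall. -/
def YQ (wl : ℕ → ℝ) (k : ℕ) (μ : St (N + 1)) : Prop :=
  ∀ (ν : St (N + 1)) (X : Fin (N + 1)), mx ν ≤ X → μ = update ν X true → YWall wl k ν

/-- Special path started at `≥ m`, always right of the next wall, the others left of the wall. -/
noncomputable def Uv (wl : ℕ → ℝ) (m : ℝ) : ℕ → St (N + 1) → ℝ
  | 0 => fun μ => ind (m + 1 ≤ mx μ) * S.Bx (yE _) μ
  | k + 1 => fun μ => ind (YQ wl (k + 1) μ) *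
      ((fun κ => ind (¬ YWall wl (k + 1) κ) * Uv wl m k κ) ᵥ* S.Bs) μ

theorem Uv_zero (wl : ℕ → ℝ) (m : ℝ) (μ : St (N + 1)) :
    S.Uv wl m 0 μ = ind (m + 1 ≤ mx μ) * S.Bx (yE _) μ := rfl

theorem Uv_succ (wl : ℕ → ℝ) (m : ℝ) (k : ℕ) (μ : St (N + 1)) :
    S.Uv wl m (k + 1) μ = ind (YQ wl (k + 1) μ) *
      ((fun κ => ind (¬ YWall wl (k + 1) κ) * S.Uv wl m k κ) ᵥ* S.Bs) μ := rfl

theorem Uv_nn (wl : ℕ → ℝ) (m : ℝ) (k : ℕ) : ∀ μ, 0 ≤ S.Uv wl m k μ := by
  induction k with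
  | zero => exact fun μ => mul_nonneg (ind_nonneg _) (S.Bx_nn _ _)
  | succ k ih =>
    exact fun μ => mul_nonneg (ind_nonneg _)
      (Y_vm_nn S.Bs_nn (fun κ => mul_nonneg (ind_nonneg _) (ih κ)) μ)

theorem Uv_wall {wl : ℕ → ℝ} {m : ℝ} (hm : wl 0 < m) (k : ℕ) (μ : St (N + 1))
    (h : YWall wl k μ) : S.Uv wl m k μ = 0 := by
  cases k with
  | zero =>
    rw [Uv_zero, ind_neg fun h1 => absurd (h1.trans h) (by linarith), zero_mul]
  | succ k =>
    rw [Uv_succ, Y_vm_zero fun κ h2 => mul_eq_zero_of_left (ind_neg (not_not.2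
      (h.mono (S.Bs_le _ _ h2)))) _, mul_zero]

theorem Uv_le (ht : 0 < t) (hγ : 0 < γ) (hy : 0 < y) {wl : ℕ → ℝ} (hw : Monotone wl)
    (h0 : 0 ≤ wl 0) {m : ℝ} (hm : wl 0 < m) (k : ℕ) :
    ∀ (μ : St (N + 1)) (X : Fin (N + 1)), mx μ ≤ X →
      S.Uv wl m k (update μ X true) ≤ YUps t γ y m k X * YRV S.Bs wl k μ := by
  induction k with
  | zero =>
    intro μ X hμ
    rw [Uv_zero, YUps, YRV_zero, mx_update hμ]
    by_cases h : μ = yE _
    · subst h
      rw [ind_pos rfl, mul_one]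
      by_cases h1 : m ≤ (X : ℕ)
      · have h2 : 0 < (X : ℕ) := by exact_mod_cast (h0.trans_lt hm).trans_le h1
        rw [ind_pos h1, ind_pos (by push_cast; linarith only [h1]), S.B0 X h2]
      · rw [ind_neg h1, ind_neg fun h2 => h1 (by push_cast at h2; linarith), zero_mul, zero_mul]
    · rw [ind_neg h, mul_zero]
      refine le_of_eq (mul_eq_zero_of_right _ ?_)
      by_contra hc
      exact h (eq_yE ((S.Bx_two _ μ X hμ hc).trans (mx_yE _).le))
  | succ k ih =>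
    intro μ X hμ
    have hU := YUps_nonneg ht hγ hy m
    have hR := YRV_nn S.Bs_nn wl
    rw [Uv_succ]
    by_cases h : YQ wl (k + 1) (update μ X true)
    swap
    · rw [ind_neg h, zero_mul]; exact mul_nonneg (hU _ _) (hR _ _)
    have h' : YWall wl (k + 1) μ := h μ X hμ rfl
    rw [YRV_succ, ind_pos h, ind_pos h', one_mul, one_mul, YUps, Y_sum_fin, Y_vm, Y_vm, Y_sum_max
      (fun κ => ind (¬ YWall wl (k + 1) κ) * S.Uv wl m k κ * S.Bs κ (update μ X true)),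
      sum_mul_sum, ind_neg (not_not.2 (YWall_yE hw h0 (k + 1))), zero_mul, zero_mul, zero_add]
    refine sum_le_sum fun x _ => sum_le_sum fun κ _ => ?_
    have hr : 0 ≤ ind (x ≤ X) * (kk t γ (X - x) * YUps t γ y m k x) *
        (YRV S.Bs wl k κ * S.Bs κ μ) :=
      mul_nonneg (mul_nonneg (ind_nonneg _) (mul_nonneg (kk_pos ht hγ _).le (hU _ _)))
        (mul_nonneg (hR _ _) (S.Bs_nn _ _))
    by_cases h1 : mx κ ≤ x
    swap
    · rwa [ind_neg h1, zero_mul]
    by_cases h2 : YWall wl (k + 1) (update κ x true)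
    · rwa [ind_neg (not_not.2 h2), zero_mul, zero_mul, mul_zero]
    by_cases h3 : S.Bs (update κ x true) (update μ X true) = 0
    · rwa [h3, mul_zero, mul_zero]
    have h4 : wl (k + 1) < (x : ℕ) := not_le.1 fun hc => h2 ((YWall_update h1).2 hc)
    have h5 : x ≤ X := by
      have := S.Bs_le _ _ h3
      rw [mx_update h1, mx_update hμ] at this
      exact Fin.le_def.2 (by omega)
    have h7 : 0 < (x : ℕ) := by exact_mod_cast (h0.trans (hw (Nat.zero_le _))).trans_lt h4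
    rw [ind_pos h1, ind_pos h2, ind_pos h5, S.fact κ μ x X h7 h5 h1 (h'.le h4)]
    have h8 := mul_le_mul_of_nonneg_right (ih κ x h1)
      (mul_nonneg (S.Bs_nn κ μ) (kk_pos ht hγ (X - x)).le)
    linarith only [h8]

theorem Yv_le (m : ℝ) (k : ℕ) (μ : St (N + 1)) : S.Yv m k μ ≤ (S.Bx (yE _) ᵥ* S.Bs ^ k) μ :=
  Y_vm_mono (Y_pow_nn S.Bs_nn k)
    (fun _ => mul_le_of_le_one_left (S.Bx_nn _ _) (ind_le_one _)) μ

theorem Uv_small (ht : 0 < t) (hγ : 0 < γ) (hy : 0 < y) {wl : ℕ → ℝ} (hw : Monotone wl)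
    (h0 : 0 ≤ wl 0) {m L U : ℝ} (hm : wl 0 < m) (hL : 0 < L) (hU : 0 ≤ U) (k : ℕ)
    (μ : St (N + 1)) (X : Fin (N + 1)) (hμ : mx μ ≤ X)
    (hΦ : wl k < (X : ℕ) → L * (y ^ (X : ℕ) * W ^ k) ≤ YPhi t γ y wl k X)
    (hΥ : YRV S.Bs wl k μ ≠ 0 → YUps t γ y m k X ≤ U * (y ^ (X : ℕ) * W ^ k)) :
    S.Uv wl m k (update μ X true) ≤ U / L * (S.Bx (yE _) ᵥ* S.Bs ^ k) (update μ X true) := by
  have hZ := Y_vm_nn (Y_pow_nn S.Bs_nn k) (S.Bx_nn (yE _)) (update μ X true)
  have hc : 0 ≤ U / L := div_nonneg hU hL.le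
  by_cases h1 : wl k < (X : ℕ)
  swap
  · rw [S.Uv_wall hm k _ ((YWall_update hμ).2 (not_lt.1 h1))]
    exact mul_nonneg hc hZ
  refine (S.Uv_le ht hγ hy hw h0 hm k μ X hμ).trans ?_
  by_cases h2 : YRV S.Bs wl k μ = 0
  · rw [h2, mul_zero]; exact mul_nonneg hc hZ
  have hR := YRV_nn S.Bs_nn wl k μ
  calc _ ≤ U * (y ^ (X : ℕ) * W ^ k) * YRV S.Bs wl k μ := mul_le_mul_of_nonneg_right (hΥ h2) hR
    _ = U / L * (L * (y ^ (X : ℕ) * W ^ k) * YRV S.Bs wl k μ) := by field_simp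
    _ ≤ _ := mul_le_mul_of_nonneg_left ((mul_le_mul_of_nonneg_right (hΦ h1) hR).trans
        ((S.Phi_le ht hγ hw h0 k μ X).trans (S.Yv_le _ _ _))) hc

/-- The special row at the bottom, turning left of `m`, followed by `k` standard rows. -/
noncomputable def Lo (m : ℝ) (k : ℕ) : St (N + 1) → ℝ :=
  (fun μ => ind ((mx μ : ℝ) < m + 1) * S.Bx (yE _) μ) ᵥ* S.Bs ^ k

theorem Lo_nn (m : ℝ) (k : ℕ) (μ : St (N + 1)) : 0 ≤ S.Lo m k μ :=
  Y_vm_nn (Y_pow_nn S.Bs_nn k) (fun _ => mul_nonneg (ind_nonneg _) (S.Bx_nn _ _)) μ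

theorem Lo_succ (m : ℝ) (k : ℕ) : S.Lo m (k + 1) = S.Lo m k ᵥ* S.Bs := Y_pow_succ _ _ _

theorem goal_two_aux (ht : 0 < t) (hγ : 0 < γ) (hy : 0 < y) {wl : ℕ → ℝ} (hw : Monotone wl)
    (h0 : 0 ≤ wl 0) {m L U : ℝ} (hm : wl 0 < m) (hL : 0 < L) (hU : 0 ≤ U) (k : ℕ)
    (hΦ : ∀ j ≤ k, ∀ X ≤ N, wl j < X → L * (y ^ X * W ^ j) ≤ YPhi t γ y wl j X)
    (hΥ : ∀ j ≤ k, ∀ X : ℕ, X ≤ wl (j + 1) + 1 → YUps t γ y m j X ≤ U * (y ^ X * W ^ j)) :
    ∀ μ, (YRV S.Bs wl k ᵥ* S.Bx) μ ≤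
      S.Lo m k μ + k * (U / L) * (S.Bx (yE _) ᵥ* S.Bs ^ k) μ + S.Uv wl m k μ := by
  induction k with
  | zero =>
    intro μ
    rw [Y_delta, Lo, pow_zero, vecMul_one, Uv_zero]
    by_cases h : (mx μ : ℝ) < m + 1
    · rw [ind_pos h, ind_neg (not_le.2 h)]; simp
    · rw [ind_neg h, ind_pos (not_lt.1 h)]; simp
  | succ k ih =>
    intro μ
    have hc : 0 ≤ U / L := div_nonneg hU hL.le
    have hZ := Y_vm_nn (Y_pow_nn S.Bs_nn (k + 1)) (S.Bx_nn (yE _)) μ
    by_cases h : YQ wl (k + 1) μ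
    swap
    · rw [Y_vm_zero fun κ h2 => by_contra fun h1 => h fun ν X hν e =>
        (YRV_wall h0 h1).mono (S.Bx_two κ ν X hν (e ▸ h2))]
      exact add_nonneg (add_nonneg (S.Lo_nn _ _ _) (by positivity)) (S.Uv_nn _ _ _ _)
    have h1 := Y_vm_mono S.Bs_nn (ih (fun j hj => hΦ j (hj.trans k.le_succ))
      fun j hj => hΥ j (hj.trans k.le_succ)) μ
    have h2 := Y_vm_mono S.Bx_nn (YRV_le S.Bs_nn wl k) μ
    rw [vecMul_vecMul, ← S.BB, ← vecMul_vecMul] at h2
    rw [Y_vm_add, Y_vm_add, Y_vm_smul, ← Y_pow_succ, ← Lo_succ] at h1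
    have h3 : ∀ κ, S.Uv wl m k κ ≤ ind (¬ YWall wl (k + 1) κ) * S.Uv wl m k κ +
        U / L * (S.Bx (yE _) ᵥ* S.Bs ^ k) κ := by
      intro κ
      have hZ' := Y_vm_nn (Y_pow_nn S.Bs_nn k) (S.Bx_nn (yE _))
      by_cases h4 : YWall wl (k + 1) κ
      swap
      · rw [ind_pos h4, one_mul]; exact le_add_of_nonneg_right (mul_nonneg hc (hZ' κ))
      rw [ind_neg (not_not.2 h4), zero_mul, zero_add]
      revert h4
      refine Y_cases (p := fun κ => YWall wl (k + 1) κ →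
        S.Uv wl m k κ ≤ U / L * (S.Bx (yE _) ᵥ* S.Bs ^ k) κ) (fun _ => ?_)
        (fun ν X hν h4 => ?_) κ
      · rw [S.Uv_wall hm k _ (YWall_yE hw h0 k)]
        exact mul_nonneg hc (hZ' _)
      · exact S.Uv_small ht hγ hy hw h0 hm hL hU k ν X hν
          (hΦ k k.le_succ X (Nat.lt_succ_iff.1 X.2)) fun _ => hΥ k k.le_succ X
            (((YWall_update hν).1 h4).trans (by linarith only []))
    have h4 := Y_vm_mono S.Bs_nn h3 μ
    rw [Y_vm_add, Y_vm_smul, ← Y_pow_succ] at h4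
    rw [Uv_succ, ind_pos h, one_mul]
    push_cast
    linarith only [h1, h2, h4]

/-- The wall is reached unless the special path starts left of `m`. -/
theorem goal_two (ht : 0 < t) (hγ : 0 < γ) (hy : 0 < y) {wl : ℕ → ℝ} (hw : Monotone wl)
    (h0 : 0 ≤ wl 0) {m L U : ℝ} (hm : wl 0 < m) (hL : 0 < L) (hU : 0 ≤ U)
    (hΦ : ∀ j ≤ N, ∀ X ≤ N, wl j < X → L * (y ^ X * W ^ j) ≤ YPhi t γ y wl j X)
    (hΥ : ∀ j ≤ N, ∀ X : ℕ, X ≤ wl (j + 1) + 1 → YUps t γ y m j X ≤ U * (y ^ X * W ^ j)) :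
    (YRV S.Bs wl N ᵥ* S.Bx) (fun _ => true) ≤ S.Lo m N (fun _ => true) +
        (N + 1) * (U / L) * (S.Bx (yE _) ᵥ* S.Bs ^ N) (fun _ => true) := by
  have h1 := S.goal_two_aux ht hγ hy hw h0 hm hL hU N hΦ hΥ fun _ => true
  have hμ : mx (fun r : Fin (N + 1) => decide (r ≠ Fin.last N)) ≤ (Fin.last N : ℕ) :=
    mx_le_iff.2 fun r hr => Fin.lt_last_iff_ne_last.2 (of_decide_eq_true hr)
  have e : update (fun r : Fin (N + 1) => decide (r ≠ Fin.last N)) (Fin.last N) true =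
      fun _ => true := by
    funext r
    by_cases h : r = Fin.last N
    · rw [h, update_self]
    · rw [update_of_ne h]; exact decide_eq_true h
  have h2 := S.Uv_small ht hγ hy hw h0 hm hL hU N _ (Fin.last N) hμ
    (hΦ N le_rfl _ (Nat.lt_succ_iff.1 (Fin.last N).2)) fun h => hΥ N le_rfl _ ?_
  · rw [e] at h2
    linarith only [h1, h2]
  have h3 := hw N.le_succ
  have h5 : N ≤ mx (fun r : Fin (N + 1) => decide (r ≠ Fin.last N)) := by
    rcases Nat.eq_zero_or_pos N with h4 | h4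
    · omega
    · have := le_mx (α := fun r : Fin (N + 1) => decide (r ≠ Fin.last N)) (r := ⟨N - 1, by omega⟩)
        (decide_eq_true fun e => by
          have := congrArg Fin.val e
          simp only [Fin.val_last] at this
          omega)
      dsimp only at this
      omega
  have h6 : (N : ℝ) ≤ wl N + 1 := le_trans (by exact_mod_cast h5) (YRV_wall h0 h)
  simp only [Fin.val_last]
  linarith only [h3, h6]

end YLay

end Pool.Agent.Work.MP_413ea6_mp
end

-- merged part: Pool.Agent.Work.MP_413ea6_mp.OpB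
section
open Filter Topology Finset Matrix

namespace Pool.Agent.Work.MP_413ea6_mp

/-! Removing the outer path from one row. -/

theorem OpB_step {n : ℕ} (A B : Fin (n + 1) → ℝ) (c : ℝ) (α β : St (n + 1)) (w e : Bool) :
    Tr A B c α β w e = Tr (Fin.init A) (Fin.init B) c (Fin.init α) (Fin.init β) w true *
      Lw (A (Fin.last n)) (B (Fin.last n)) c true (α (Fin.last n)) e (β (Fin.last n)) +
      Tr (Fin.init A) (Fin.init B) c (Fin.init α) (Fin.init β) w false *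
      Lw (A (Fin.last n)) (B (Fin.last n)) c false (α (Fin.last n)) e (β (Fin.last n)) := by
  rw [Tr_succ', Matrix.mul_apply, Fintype.sum_bool]
  rfl

theorem OpB_init {n : ℕ} {X : Type} {f : Fin (n + 1) → X} {x : X} {p : Fin n}
    (h : ∀ r, p.castSucc ≤ r → f r = x) (r : Fin n) (hr : p ≤ r) : Fin.init f r = x :=
  h r.castSucc (Fin.castSucc_le_castSucc_iff.2 hr)

theorem OpB_mx {n : ℕ} {α : St n} {p : Fin n} (h : mx α ≤ p) (r : Fin n) (hr : p ≤ r) :
    α r = false := by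
  by_contra e
  exact absurd (mx_le_iff.1 h r (by simpa using e)) (not_lt.2 hr)

theorem OpB_le {a b c K : ℝ} (ha : 0 < a) (hb : 0 < b) (hc : 0 < c) (h1 : c ≤ K * b)
    (h2 : b ≤ K * c) {n : ℕ} {A B : Fin n → ℝ} (hA0 : ∀ r, 0 ≤ A r) (hB0 : ∀ r, 0 ≤ B r)
    {p : Fin n} (hA : ∀ r, p ≤ r → A r = a) (hB : ∀ r, p ≤ r → B r = b) (ν μ' : St n)
    (hμ : ∀ r, p ≤ r → μ' r = false) (w : Bool) :
    Tr A B c ν (Function.update μ' p true) w false ≤
      K * (a / b) ^ (n - 1 - p) * Tr A B c ν μ' w true := by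
  have hK : 0 < K := (mul_pos_iff_of_pos_right hb).1 (hc.trans_le h1)
  induction n with
  | zero => exact p.elim0
  | succ n ih =>
    have n1 := Tr_nonneg (A := Fin.init A) (B := Fin.init B) (fun r => hA0 _) (fun r => hB0 _)
      hc.le (Fin.init ν) (Fin.init μ') w
    rw [OpB_step, OpB_step, hA _ (Fin.le_last p), hB _ (Fin.le_last p), hμ _ (Fin.le_last p)]
    induction p using Fin.lastCases with
    | last =>
      rw [Fin.init_update_last, Function.update_self, Fin.val_last, Nat.add_sub_cancel,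
        Nat.sub_self, pow_zero, mul_one]
      cases ν (Fin.last n) <;> simp only [Lw, mul_zero, add_zero, zero_add]
      · linarith only [h1, n1, mul_le_mul_of_nonneg_left h1 (n1 true)]
      · linarith only [h2, n1, mul_le_mul_of_nonneg_left h2 (n1 false)]
    | cast p =>
      have k := ih (A := Fin.init A) (B := Fin.init B) (fun r => hA0 _) (fun r => hB0 _)
        (OpB_init hA) (OpB_init hB) (Fin.init ν) _ (OpB_init hμ)
      rw [Fin.init_update_castSucc, Function.update_of_ne (Fin.castSucc_lt_last p).ne',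
        hμ _ (Fin.le_last _), Fin.val_castSucc,
        show n + 1 - 1 - (p : ℕ) = n - 1 - p + 1 by have := p.2; omega, pow_succ]
      cases ν (Fin.last n) <;> simp only [Lw, mul_zero, add_zero, zero_add]
      · refine (mul_le_mul_of_nonneg_right k ha.le).trans (le_of_eq ?_)
        field_simp
      · have := n1 false
        positivity

theorem OpB_aux {a b c : ℝ} {n : ℕ} {A B : Fin n → ℝ} {q : Fin n} (hA : ∀ r, q ≤ r → A r = a)
    (hB : ∀ r, q ≤ r → B r = b) (ν' μ' : St n) (hν : ∀ r, q ≤ r → ν' r = false)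
    (hμ : ∀ r, q ≤ r → μ' r = false) (w : Bool) :
    Tr A B c (Function.update ν' q true) μ' w true * a ^ (n - 1 - q + 1) =
      c * b ^ (n - 1 - q) * Tr A B c ν' μ' w false := by
  induction n with
  | zero => exact q.elim0
  | succ n ih =>
    rw [OpB_step, OpB_step, hA _ (Fin.le_last q), hB _ (Fin.le_last q), hμ _ (Fin.le_last q),
      hν _ (Fin.le_last q)]
    induction q using Fin.lastCases with
    | last =>
      rw [Fin.init_update_last, Function.update_self, Fin.val_last, Nat.add_sub_cancel,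
        Nat.sub_self]
      simp only [Lw]
      ring
    | cast q =>
      have k := ih (OpB_init hA) (OpB_init hB) _ _ (OpB_init hν) (OpB_init hμ)
      rw [Fin.init_update_castSucc, Function.update_of_ne (Fin.castSucc_lt_last q).ne',
        hν _ (Fin.le_last _), Fin.val_castSucc,
        show n + 1 - 1 - (q : ℕ) = n - 1 - q + 1 by have := q.2; omega]
      simp only [Lw]
      linear_combination a * b * k

theorem OpB_free {a b c : ℝ} (ha : 0 < a) {n : ℕ} {A B : Fin n → ℝ} {p q : Fin n} (hqp : q ≤ p)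
    (hA : ∀ r, q ≤ r → A r = a) (hB : ∀ r, q ≤ r → B r = b) (ν' μ' : St n)
    (hν : ∀ r, q ≤ r → ν' r = false) (hμ : ∀ r, q ≤ r → μ' r = false) (w : Bool) :
    Tr A B c (Function.update ν' q true) (Function.update μ' p true) w false =
      kk (b / a) (c / a) (p - q) * Tr A B c ν' μ' w false := by
  induction n with
  | zero => exact q.elim0
  | succ n ih =>
    rw [OpB_step, OpB_step, hA _ (Fin.le_last q), hB _ (Fin.le_last q), hμ _ (Fin.le_last q),
      hν _ (Fin.le_last q)]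
    induction q using Fin.lastCases with
    | last =>
      obtain rfl : p = Fin.last n := le_antisymm (Fin.le_last p) hqp
      rw [Fin.init_update_last, Fin.init_update_last, Function.update_self, Function.update_self,
        Nat.sub_self]
      simp only [Lw, kk, if_true]
      field_simp
      ring
    | cast q =>
      rw [Fin.init_update_castSucc, Function.update_of_ne (Fin.castSucc_lt_last q).ne',
        hν _ (Fin.le_last _), Fin.val_castSucc]
      induction p using Fin.lastCases with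
      | last =>
        have k := OpB_aux (c := c) (OpB_init hA) (OpB_init hB) _ _ (OpB_init hν) (OpB_init hμ) w
        rw [Fin.init_update_last, Function.update_self, Fin.val_last, kk,
          if_neg (by have := q.2; omega), show n - (q : ℕ) - 1 = n - 1 - q by omega,
          eq_div_of_mul_eq (by positivity) k]
        simp only [Lw, div_pow]
        field_simp
        ring
      | cast p =>
        have k := ih (Fin.castSucc_le_castSucc_iff.1 hqp) (OpB_init hA) (OpB_init hB) _ _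
          (OpB_init hν) (OpB_init hμ)
        rw [Fin.init_update_castSucc, Function.update_of_ne (Fin.castSucc_lt_last p).ne',
          hμ _ (Fin.le_last _), Fin.val_castSucc, k]
        simp only [Lw]
        ring

theorem Bop_le_Dop {n : ℕ} {A B : Fin n → ℝ} {a b c : ℝ} (ha : 0 < a) (hb : 0 < b) (hc : 0 < c)
    (hA0 : ∀ r, 0 ≤ A r) (hB0 : ∀ r, 0 ≤ B r) {p : Fin n} (hA : ∀ r, p ≤ r → A r = a)
    (hB : ∀ r, p ≤ r → B r = b) (ν μ' : St n) (hμ : mx μ' ≤ p) :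
    Bop A B c ν (Function.update μ' p true) ≤
      max (c / b) (b / c) * (a / b) ^ (n - 1 - p) * Dop A B c ν μ' := by
  exact OpB_le ha hb hc ((div_le_iff₀ hb).1 (le_max_left _ _))
    ((div_le_iff₀ hc).1 (le_max_right _ _)) hA0 hB0 hA hB ν μ' (OpB_mx hμ) true

theorem Bop_free {n : ℕ} {A B : Fin n → ℝ} {a b c : ℝ} (ha : 0 < a) {p q : Fin n} (hqp : q ≤ p)
    (hA : ∀ r, q ≤ r → A r = a) (hB : ∀ r, q ≤ r → B r = b) (ν' μ' : St n) (hν : mx ν' ≤ q)
    (hμ : mx μ' ≤ q) :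
    Bop A B c (Function.update ν' q true) (Function.update μ' p true) =
      kk (b / a) (c / a) (p - q) * Bop A B c ν' μ' := by
  exact OpB_free ha hqp hA hB ν' μ' (OpB_mx hν) (OpB_mx hμ) true

end Pool.Agent.Work.MP_413ea6_mp
end
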