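import Pool.Agent.Work.MP_413ea6_mp.FerroD
import Pool.Agent.Work.MP_413ea6_mp.OpB

-- merged part: Pool.Agent.Work.MP_413ea6_mp.MVT
section
open Filter Topology Finset MeasureTheory

namespace Pool.Agent.Work.MP_413ea6_mp

/-! Generalised Vandermonde determinants and Andreief's identity. -/

theorem binr_pos (n : ℕ) {s : ℝ} (hs : 0 ≤ s) : 0 < binr n s := by
  unfold binr
  refine div_pos (prod_pos fun m _ => by positivity) ?_
  exact_mod_cast n.factorial_pos

theorem MVT_prod_fact (n : ℕ) : ∏ m ∈ range n, ((m : ℝ) + 1) = n.factorial := by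
  induction n with
  | zero => simp
  | succ n ih => rw [prod_range_succ, ih, Nat.factorial_succ]; push_cast; ring

theorem MVT_binr_zero (n : ℕ) : binr n 0 = 1 := by
  unfold binr
  have h : (n.factorial : ℝ) ≠ 0 := by exact_mod_cast n.factorial_ne_zero
  simp only [zero_add]
  rw [MVT_prod_fact, div_self h]

theorem MVT_nd_succ (n : ℕ) (e ξ : ℝ) (i : Fin (n + 1)) :
    nd (n + 1) e ξ i.succ = nd n e 0 i := by
  unfold nd
  simp [Fin.succ_ne_zero]

theorem MVT_vnd_succ (n : ℕ) (e ξ : ℝ) :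
    vnd (n + 1) e ξ = (∏ m ∈ range (n + 1), (((m : ℝ) + 1) * e + ξ)) * vnd n e 0 := by
  unfold vnd
  rw [Fin.prod_univ_succ, Fin.prod_Ioi_zero, ← Fin.prod_univ_eq_prod_range
    (fun m => (((m : ℝ) + 1) * e + ξ))]
  congr 1
  · refine prod_congr rfl fun j _ => ?_
    rw [MVT_nd_succ]
    unfold nd
    simp
    ring
  · refine prod_congr rfl fun i _ => ?_
    rw [Fin.prod_Ioi_succ]
    simp only [MVT_nd_succ]

theorem vnd_eq (n : ℕ) {e : ℝ} (he : 0 < e) (ξ : ℝ) :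
    vnd n e ξ = e ^ (∑ k ∈ range (n + 1), k) * (∏ k ∈ range (n + 1), (k.factorial : ℝ)) *
      binr n (ξ / e) := by
  induction n generalizing ξ with
  | zero => simp [vnd, binr]
  | succ n ih =>
    rw [MVT_vnd_succ, ih 0, zero_div, MVT_binr_zero, sum_range_succ _ (n + 1),
      prod_range_succ (fun k => (k.factorial : ℝ)) (n + 1), pow_add]
    have h : ((n + 1).factorial : ℝ) ≠ 0 := by exact_mod_cast (n + 1).factorial_ne_zero
    have h2 : ∏ m ∈ range (n + 1), (((m : ℝ) + 1) * e + ξ) =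
        e ^ (n + 1) * ∏ m ∈ range (n + 1), (ξ / e + m + 1) := by
      have : e ^ (n + 1) = ∏ _m ∈ range (n + 1), e := by simp
      rw [this, ← prod_mul_distrib]
      refine prod_congr rfl fun m _ => ?_
      field_simp
      ring
    rw [h2]
    unfold binr
    field_simp

/-- Iterated Rolle theorem with a nonvanishing multiplier. -/
theorem MVT_rolle (w : ℝ → ℝ) (hw : ∀ x, w x ≠ 0) (m : ℕ) : ∀ (F : ℕ → ℝ → ℝ),
    (∀ k x, HasDerivAt (F k) (w x * F (k + 1) x) x) → ∀ z : Fin (m + 1) → ℝ, StrictMono z →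
      (∀ i, F 0 (z i) = 0) → ∃ η, z 0 ≤ η ∧ η ≤ z (Fin.last m) ∧ F m η = 0 := by
  induction m with
  | zero =>
    intro F _ z _ h0
    exact ⟨z 0, le_rfl, le_rfl, h0 0⟩
  | succ m ih =>
    intro F hF z hz h0
    have key : ∀ i : Fin (m + 1), ∃ c, z i.castSucc < c ∧ c < z i.succ ∧ F 1 c = 0 := by
      intro i
      obtain ⟨c, hc, hc0⟩ := exists_hasDerivAt_eq_zero (f := F 0)
        (f' := fun x => w x * F 1 x) (hz (Fin.castSucc_lt_succ (i := i)))
        (fun x _ => (hF 0 x).continuousAt.continuousWithinAt) (by rw [h0, h0])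
        (fun x _ => hF 0 x)
      exact ⟨c, hc.1, hc.2, (mul_eq_zero.1 hc0).resolve_left (hw c)⟩
    choose c hc1 hc2 hc3 using key
    have hcm : StrictMono c := by
      rw [Fin.strictMono_iff_lt_succ]
      intro i
      calc c i.castSucc < z i.castSucc.succ := hc2 _
        _ = z i.succ.castSucc := by rw [Fin.succ_castSucc]
        _ < c i.succ := hc1 _
    obtain ⟨η, h1, h2, h3⟩ := ih (fun k => F (k + 1)) (fun k x => hF (k + 1) x) c hcm hc3
    refine ⟨η, ?_, ?_, h3⟩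
    · exact le_trans (by simpa using (hc1 0).le) h1
    · exact le_trans h2 (by simpa using (hc2 (Fin.last m)).le)

/-- Falling factorial. -/
noncomputable def MVTff (a : ℝ) (m : ℕ) : ℝ := ∏ j ∈ range m, (a - j)

theorem MVT_deriv (a e : ℝ) (m : ℕ) (x : ℝ) :
    HasDerivAt (fun x => MVTff a m * Real.exp ((a - m) * e * x))
      (e * Real.exp (e * x) * (MVTff a (m + 1) * Real.exp ((a - (m + 1 : ℕ)) * e * x))) x := by
  have h := (((hasDerivAt_id' x).const_mul ((a - m) * e)).exp).const_mul (MVTff a m)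
  refine h.congr_deriv ?_
  have : Real.exp ((a - m) * e * x) =
      Real.exp (e * x) * Real.exp ((a - (m + 1 : ℕ)) * e * x) := by
    rw [← Real.exp_add]; congr 1; push_cast; ring
  have h2 : MVTff a (m + 1) = MVTff a m * (a - m) := prod_range_succ _ _
  rw [this, h2]
  ring

theorem MVTff_add (n : ℕ) (s : ℝ) : MVTff (n + s) n = n.factorial * binr n s := by
  have h : (n.factorial : ℝ) ≠ 0 := by exact_mod_cast n.factorial_ne_zero
  unfold binr MVTff
  rw [mul_div_cancel₀ _ h, ← prod_range_reflect]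
  refine prod_congr rfl fun j hj => ?_
  have hj' : j < n := mem_range.1 hj
  rw [Nat.sub_sub, Nat.cast_sub (by omega)]
  push_cast
  ring

theorem MVTff_zero (n : ℕ) (i : Fin (n + 1)) (hi : i ≠ 0) : MVTff ((n : ℝ) - i) n = 0 := by
  unfold MVTff
  have h1 : 0 < (i : ℕ) := Nat.pos_of_ne_zero fun h => hi (Fin.ext h)
  have h2 : (i : ℕ) ≤ n := Nat.lt_succ_iff.1 i.2
  refine prod_eq_zero (i := n - i) (mem_range.2 (by omega)) ?_
  rw [Nat.cast_sub h2, sub_self]

theorem MVT_detV (n : ℕ) (e : ℝ) (x : Fin (n + 1) → ℝ) :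
    (Matrix.of fun (i k : Fin (n + 1)) => Real.exp (((n : ℝ) - i) * e * x k)).det =
      ((Equiv.Perm.sign (Fin.revPerm : Equiv.Perm (Fin (n + 1))) : ℤ) : ℝ) *
        ∏ i, ∏ j ∈ Ioi i, (Real.exp (e * x j) - Real.exp (e * x i)) := by
  have h : (Matrix.of fun (i k : Fin (n + 1)) => Real.exp (((n : ℝ) - i) * e * x k)) =
      (Matrix.vandermonde fun k => Real.exp (e * x k)).transpose.submatrix Fin.revPerm id := by
    ext i k
    have h2 : (i : ℕ) ≤ n := Nat.lt_succ_iff.1 i.2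
    simp only [Matrix.of_apply, Matrix.submatrix_apply, Matrix.transpose_apply, id,
      Matrix.vandermonde_apply, Fin.revPerm_apply, Fin.val_rev]
    rw [← Real.exp_nat_mul, Nat.add_sub_add_right, Nat.cast_sub h2, mul_assoc]
  rw [h, Matrix.det_permute, Matrix.det_transpose, Matrix.det_vandermonde]

theorem det_exp_mvt (n : ℕ) : ∃ s : ℝ, s * s = 1 ∧ ∀ (e ξ : ℝ) (x : Fin (n + 1) → ℝ), 0 < e →
    0 ≤ ξ → ∃ η : ℝ, (∃ i, x i ≤ η) ∧ (∃ j, η ≤ x j) ∧
      (Matrix.of fun i k => Real.exp (nd n e ξ i * x k)).det =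
        s * (∏ i, ∏ j ∈ Ioi i, (Real.exp (e * x j) - Real.exp (e * x i))) * binr n (ξ / e) *
          Real.exp (ξ * η) := by
  have hs : ((Equiv.Perm.sign (Fin.revPerm : Equiv.Perm (Fin (n + 1))) : ℤ) : ℝ) *
      ((Equiv.Perm.sign (Fin.revPerm : Equiv.Perm (Fin (n + 1))) : ℤ) : ℝ) = 1 := by
    rw [← Int.cast_mul, ← Units.val_mul, Int.units_mul_self]; simp
  refine ⟨_, hs, fun e ξ x he _ => ?_⟩
  rw [← MVT_detV]
  set V : Matrix (Fin (n + 1)) (Fin (n + 1)) ℝ :=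
    Matrix.of fun (i k : Fin (n + 1)) => Real.exp (((n : ℝ) - i) * e * x k) with hV
  by_cases hx : Function.Injective x
  swap
  · obtain ⟨a, b, hab, hne⟩ := Function.not_injective_iff.1 hx
    refine ⟨x 0, ⟨0, le_rfl⟩, ⟨0, le_rfl⟩, ?_⟩
    rw [Matrix.det_zero_of_column_eq hne (fun k => by simp [hab]),
      Matrix.det_zero_of_column_eq (M := V) hne (fun k => by simp [hV, hab])]
    simp
  have hdet : V.det ≠ 0 := by
    rw [hV, MVT_detV]
    refine mul_ne_zero (left_ne_zero_of_mul_eq_one hs) ?_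
    refine prod_ne_zero_iff.2 fun i _ => prod_ne_zero_iff.2 fun j hj => ?_
    rw [sub_ne_zero]
    intro h
    have h1 := mul_left_cancel₀ he.ne' (Real.exp_injective h)
    exact (mem_Ioi.1 hj).ne' (hx h1)
  have hU : IsUnit V := (Matrix.isUnit_iff_isUnit_det V).2 (Ne.isUnit hdet)
  obtain ⟨c, hc⟩ := Matrix.vecMul_surjective_iff_isUnit.2 hU
    (fun k => Real.exp (((n : ℝ) * e + ξ) * x k))
  have hc' : ∀ k, ∑ i, c i * V i k = Real.exp (((n : ℝ) * e + ξ) * x k) := fun k => by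
    have := congrFun hc k
    simpa [Matrix.vecMul, dotProduct] using this
  have hM : (Matrix.of fun i k => Real.exp (nd n e ξ i * x k)) =
      V.updateRow 0 (∑ i, c i • V i) := by
    ext i k
    by_cases hi : i = 0
    · subst hi
      rw [Matrix.updateRow_self, Finset.sum_apply]
      simp only [Pi.smul_apply, smul_eq_mul, hc']
      simp [nd]
    · rw [Matrix.updateRow_ne hi]
      simp [nd, hi, hV]
  rw [hM, Matrix.det_updateRow_sum, smul_eq_mul]
  let F : ℕ → ℝ → ℝ := fun m t =>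
    MVTff (n + ξ / e) m * Real.exp ((n + ξ / e - m) * e * t) -
      ∑ i : Fin (n + 1), c i * (MVTff ((n : ℝ) - i) m * Real.exp (((n : ℝ) - i - m) * e * t))
  have hF : ∀ k t, HasDerivAt (F k) (e * Real.exp (e * t) * F (k + 1) t) t := by
    intro k t
    have h := (MVT_deriv (n + ξ / e) e k t).fun_sub (HasDerivAt.fun_sum (u := univ)
      fun (i : Fin (n + 1)) _ => (MVT_deriv ((n : ℝ) - i) e k t).const_mul (c i))
    refine h.congr_deriv ?_
    simp only [F]
    rw [mul_sub, mul_sum]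
    congr 1
    refine sum_congr rfl fun i _ => ?_
    ring
  have hz : StrictMono (x ∘ Tuple.sort x) :=
    (Tuple.monotone_sort x).strictMono_of_injective (hx.comp (Tuple.sort x).injective)
  have h0 : ∀ k, F 0 (x k) = 0 := by
    intro k
    have h1 : ((n : ℝ) + ξ / e) * e = n * e + ξ := by field_simp
    have h2 := hc' k
    simp only [hV, Matrix.of_apply] at h2
    simp only [F, MVTff, range_zero, prod_empty, one_mul, Nat.cast_zero, sub_zero, h1, h2,
      sub_self]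
  obtain ⟨η, h1, h2, h3⟩ := MVT_rolle (fun t => e * Real.exp (e * t))
    (fun t => by positivity) n F hF _ hz (fun i => h0 _)
  refine ⟨η, ⟨_, h1⟩, ⟨_, h2⟩, ?_⟩
  have h4 : ∑ i : Fin (n + 1), c i * (MVTff ((n : ℝ) - i) n *
      Real.exp (((n : ℝ) - i - n) * e * η)) = c 0 * n.factorial := by
    rw [sum_eq_single 0]
    · have := MVTff_add n 0
      rw [MVT_binr_zero, add_zero, mul_one] at this
      simp [this]
    · intro i _ hi
      rw [MVTff_zero n i hi]; simp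
    · simp
  have h5 : ((n : ℝ) + ξ / e - n) * e * η = ξ * η := by field_simp; ring
  simp only [F] at h3
  rw [h4, h5, MVTff_add] at h3
  have h6 : (n.factorial : ℝ) ≠ 0 := by exact_mod_cast n.factorial_ne_zero
  have h7 : c 0 = binr n (ξ / e) * Real.exp (ξ * η) := by
    apply mul_left_cancel₀ h6
    linarith only [h3]
  rw [h7]
  ring

theorem MVT_expand {n : ℕ} (f g : Fin n → ℝ → ℝ) (x : Fin n → ℝ) :
    (Matrix.of fun i k => f i (x k)).det * (Matrix.of fun j k => g j (x k)).det =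
      ∑ p : Equiv.Perm (Fin n), ∑ q : Equiv.Perm (Fin n),
        ((Equiv.Perm.sign p : ℤ) : ℝ) * ((Equiv.Perm.sign q : ℤ) : ℝ) *
          ∏ k, (f (p k) (x k) * g (q k) (x k)) := by
  rw [Matrix.det_apply', Matrix.det_apply', sum_mul_sum]
  refine sum_congr rfl fun p _ => sum_congr rfl fun q _ => ?_
  simp only [Matrix.of_apply]
  rw [prod_mul_distrib]
  ring

theorem MVT_int (μ : Measure ℝ) [SigmaFinite μ] {n : ℕ} (f g : Fin n → ℝ → ℝ)
    (h : ∀ i j, Integrable (fun x => f i x * g j x) μ) (p q : Equiv.Perm (Fin n)) (a : ℝ) :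
    Integrable (fun x : Fin n → ℝ => a * ∏ k, (f (p k) (x k) * g (q k) (x k)))
      (Measure.pi fun _ => μ) :=
  (Integrable.fintype_prod (f := fun k t => f (p k) t * g (q k) t) (μ := fun _ => μ)
    (fun k => h (p k) (q k))).const_mul a

theorem andreief_int (μ : Measure ℝ) [SigmaFinite μ] {n : ℕ} (f g : Fin n → ℝ → ℝ)
    (h : ∀ i j, Integrable (fun x => f i x * g j x) μ) :
    Integrable (fun x : Fin n → ℝ => (Matrix.of fun i k => f i (x k)).det *
      (Matrix.of fun j k => g j (x k)).det) (Measure.pi fun _ => μ) := by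
  simp only [MVT_expand]
  exact integrable_finsetSum _ fun p _ => integrable_finsetSum _ fun q _ => MVT_int μ f g h p q _

theorem andreief (μ : Measure ℝ) [SigmaFinite μ] {n : ℕ} (f g : Fin n → ℝ → ℝ)
    (h : ∀ i j, Integrable (fun x => f i x * g j x) μ) :
    (n.factorial : ℝ) * (Matrix.of fun i j => ∫ x, f i x * g j x ∂μ).det =
      ∫ x : Fin n → ℝ, (Matrix.of fun i k => f i (x k)).det *
        (Matrix.of fun j k => g j (x k)).det ∂(Measure.pi fun _ => μ) := by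
  simp only [MVT_expand]
  rw [integral_finsetSum _ fun p _ => integrable_finsetSum _ fun q _ => MVT_int μ f g h p q _]
  set A : Matrix (Fin n) (Fin n) ℝ := Matrix.of fun i j => ∫ x, f i x * g j x ∂μ with hA
  have h1 : ∀ p : Equiv.Perm (Fin n), ∫ x : Fin n → ℝ, ∑ q : Equiv.Perm (Fin n),
      ((Equiv.Perm.sign p : ℤ) : ℝ) * ((Equiv.Perm.sign q : ℤ) : ℝ) *
        ∏ k, (f (p k) (x k) * g (q k) (x k)) ∂(Measure.pi fun _ => μ) = A.det := by
    intro p
    rw [integral_finsetSum _ fun q _ => MVT_int μ f g h p q _]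
    have h2 : ∀ q : Equiv.Perm (Fin n), ∫ x : Fin n → ℝ,
        ((Equiv.Perm.sign p : ℤ) : ℝ) * ((Equiv.Perm.sign q : ℤ) : ℝ) *
          ∏ k, (f (p k) (x k) * g (q k) (x k)) ∂(Measure.pi fun _ => μ) =
        ((Equiv.Perm.sign p : ℤ) : ℝ) * (((Equiv.Perm.sign q : ℤ) : ℝ) *
          ∏ k, (A.submatrix p id).transpose (q k) k) := by
      intro q
      rw [integral_const_mul, integral_fintype_prod_eq_prod
        (f := fun k t => f (p k) t * g (q k) t) (μ := fun _ => μ), mul_assoc]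
      simp [hA]
    simp only [h2]
    rw [← mul_sum, ← Matrix.det_apply', Matrix.det_transpose, Matrix.det_permute, ← mul_assoc,
      ← Int.cast_mul, ← Units.val_mul, Int.units_mul_self]
    simp
  simp only [h1]
  simp [Fintype.card_perm]

end Pool.Agent.Work.MP_413ea6_mp
end

-- merged part: Pool.Agent.Work.MP_413ea6_mp.CmpA
section
open Filter Topology Finset MeasureTheory

namespace Pool.Agent.Work.MP_413ea6_mp

/-! Configurations with many points in a bounded window are negligible. -/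

theorem CmpA_exp_le (a b : ℝ) : Real.exp b - Real.exp a ≤ (b - a) * Real.exp b := by
  have h1 := Real.add_one_le_exp (a - b)
  have h2 : Real.exp a = Real.exp (a - b) * Real.exp b := by rw [← Real.exp_add, sub_add_cancel]
  rw [h2]
  linarith only [h1, Real.exp_pos b, mul_nonneg_of_nonpos_of_nonpos (Mathlib.Tactic.Linarith.sub_nonpos_of_le h1) (le_of_lt (Mathlib.Tactic.Linarith.sub_neg_of_lt (Real.exp_pos b)))]

theorem CmpA_exp {e : ℝ} (he : 0 < e) (a b : ℝ) : |Real.exp (e * b) - Real.exp (e * a)| ≤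
    e * |b - a| * (Real.exp (e * max a 0) * Real.exp (e * max b 0)) := by
  wlog h : a ≤ b generalizing a b
  · rw [abs_sub_comm, abs_sub_comm b, mul_comm (Real.exp (e * max a 0))]
    exact this b a (le_of_not_ge h)
  have h1 : e * a ≤ e * b := mul_le_mul_of_nonneg_left h he.le
  rw [abs_of_nonneg (sub_nonneg.2 (Real.exp_le_exp.2 h1)), abs_of_nonneg (sub_nonneg.2 h)]
  refine (CmpA_exp_le _ _).trans ?_
  rw [← mul_sub, ← Real.exp_add]
  refine mul_le_mul_of_nonneg_left (Real.exp_le_exp.2 ?_) (mul_nonneg he.le (sub_nonneg.2 h))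
  linarith only [he, le_max_right a 0, le_max_left b 0, mul_nonneg_of_nonpos_of_nonpos (le_of_lt (Mathlib.Tactic.Linarith.sub_neg_of_lt he)) (Mathlib.Tactic.Linarith.sub_nonpos_of_le (le_max_right a (0 : ℝ))), mul_nonneg_of_nonpos_of_nonpos (le_of_lt (Mathlib.Tactic.Linarith.sub_neg_of_lt he)) (Mathlib.Tactic.Linarith.sub_nonpos_of_le (le_max_left b (0 : ℝ)))]

theorem CmpA_dist {n K w a b : ℝ} (hn : 0 < n)
    (hw : w = 1 ∨ (w = 2 * K / n ∧ |a| < K ∧ |b| < K)) :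
    |b - a| ≤ w * ((n + |a|) * (n + |b|)) / n := by
  have h1 : |b - a| ≤ |b| + |a| := abs_sub b a
  have h2 := abs_nonneg a
  have h3 := abs_nonneg b
  rw [le_div_iff₀ hn]
  rcases hw with rfl | ⟨rfl, ha, hb⟩
  · linarith only [h2, h3, hn, h1, mul_nonneg h2 h3, mul_pos hn hn, mul_nonneg_of_nonpos_of_nonpos (le_of_lt (Mathlib.Tactic.Linarith.sub_neg_of_lt hn)) (Mathlib.Tactic.Linarith.sub_nonpos_of_le h1)]
  · have hK : 0 < K := h2.trans_lt ha
    have h4 : n * n ≤ (n + |a|) * (n + |b|) := by linarith only [h2, h3, hn, mul_nonneg h2 h3, mul_nonneg_of_nonpos_of_nonpos (le_of_lt (Mathlib.Tactic.Linarith.sub_neg_of_lt hn)) (Mathlib.Tactic.Linarith.sub_nonpos_of_le h2), mul_nonneg_of_nonpos_of_nonpos (le_of_lt (Mathlib.Tactic.Linarith.sub_neg_of_lt hn)) (Mathlib.Tactic.Linarith.sub_nonpos_of_le h3)]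
    calc |b - a| * n ≤ 2 * K * n := by linarith only [hn, h1, ha, hb, mul_nonneg_of_nonpos_of_nonpos (le_of_lt (Mathlib.Tactic.Linarith.sub_neg_of_lt hn)) (Mathlib.Tactic.Linarith.sub_nonpos_of_le h1), mul_pos_of_neg_of_neg (Mathlib.Tactic.Linarith.sub_neg_of_lt hn) (Mathlib.Tactic.Linarith.sub_neg_of_lt ha), mul_pos_of_neg_of_neg (Mathlib.Tactic.Linarith.sub_neg_of_lt hn) (Mathlib.Tactic.Linarith.sub_neg_of_lt hb)]
      _ = 2 * K / n * (n * n) := by field_simp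
      _ ≤ _ := mul_le_mul_of_nonneg_left h4 (by positivity)

theorem CmpA_count {ι : Type} [Fintype ι] [DecidableEq ι] (S : Finset ι) (q : ℝ) :
    ∏ i, ∏ j ∈ ({i}ᶜ : Finset ι), (if i ∈ S ∧ j ∈ S then q else 1) =
      q ^ (S.card * (S.card - 1)) := by
  have h1 : ∀ i, ∏ j ∈ ({i}ᶜ : Finset ι), (if i ∈ S ∧ j ∈ S then q else 1) =
      if i ∈ S then q ^ (S.card - 1) else 1 := by
    intro i
    by_cases hi : i ∈ S
    · simp only [hi, true_and, if_true]
      rw [prod_ite_mem, prod_const, ← card_erase_of_mem hi]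
      congr 2
      ext j
      simp
    · simp [hi]
  simp only [h1]
  rw [prod_ite_mem, univ_inter, prod_const, ← pow_mul, mul_comm]

theorem vand_window {n k : ℕ} (hn : 1 ≤ n) {K e : ℝ} (hK : 0 < K) (hKn : 2 * K ≤ n) (he : 0 < e)
    (x : Fin (n + 1) → ℝ) (hk : k ≤ (univ.filter fun i => |x i| < K).card) :
    (∏ i, ∏ j ∈ Ioi i, (Real.exp (e * x j) - Real.exp (e * x i))) ^ 2 ≤
      (e / n) ^ (n * (n + 1)) * (2 * K / n) ^ (k * (k - 1)) *
        ∏ i, (((n : ℝ) + |x i|) ^ (2 * n) * Real.exp (2 * n * e * max (x i) 0)) := by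
  have hn' : (0 : ℝ) < n := by exact_mod_cast hn
  set S := univ.filter fun i => |x i| < K with hS
  let w : Fin (n + 1) → Fin (n + 1) → ℝ := fun i j => if i ∈ S ∧ j ∈ S then 2 * K / n else 1
  let h : Fin (n + 1) → ℝ := fun i => ((n : ℝ) + |x i|) * Real.exp (e * max (x i) 0)
  have hw : ∀ i j, w j i = w i j := fun i j => by simp only [w, and_comm]
  have key : ∀ i j, (Real.exp (e * x j) - Real.exp (e * x i)) ^ 2 ≤
      (e / n * w i j * h i ^ 2) * (e / n * w j i * h j ^ 2) := by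
    intro i j
    have h1 := CmpA_dist (K := K) (w := w i j) (a := x i) (b := x j) hn' (by
      by_cases hij : i ∈ S ∧ j ∈ S
      · exact Or.inr ⟨if_pos hij, (mem_filter.1 hij.1).2, (mem_filter.1 hij.2).2⟩
      · exact Or.inl (if_neg hij))
    have h2 : |Real.exp (e * x j) - Real.exp (e * x i)| ≤ e / n * w i j * (h i * h j) := by
      refine (CmpA_exp he _ _).trans ((mul_le_mul_of_nonneg_right
        (mul_le_mul_of_nonneg_left h1 he.le) (by positivity)).trans_eq ?_)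
      simp only [h]
      ring
    rw [← sq_abs, hw i j]
    refine (pow_le_pow_left₀ (abs_nonneg _) h2 2).trans_eq ?_
    ring
  calc (∏ i, ∏ j ∈ Ioi i, (Real.exp (e * x j) - Real.exp (e * x i))) ^ 2
      = ∏ i, ∏ j ∈ Ioi i, (Real.exp (e * x j) - Real.exp (e * x i)) ^ 2 := by
        simp only [prod_pow]
    _ ≤ ∏ i, ∏ j ∈ Ioi i, (e / n * w i j * h i ^ 2) * (e / n * w j i * h j ^ 2) :=
        prod_le_prod (fun i _ => prod_nonneg fun j _ => sq_nonneg _) fun i _ =>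
          prod_le_prod (fun j _ => sq_nonneg _) fun j _ => key i j
    _ = ∏ i, ∏ j ∈ ({i}ᶜ : Finset (Fin (n + 1))), e / n * w i j * h i ^ 2 :=
        prod_prod_Ioi_mul_eq_prod_prod_off_diag fun j i => e / n * w i j * h i ^ 2
    _ = (e / n) ^ (n * (n + 1)) * (2 * K / n) ^ (S.card * (S.card - 1)) *
        ∏ i, (((n : ℝ) + |x i|) ^ (2 * n) * Real.exp (2 * n * e * max (x i) 0)) := by
        rw [← CmpA_count]
        simp only [prod_mul_distrib, prod_const, card_compl, card_singleton, Fintype.card_fin,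
          card_univ, Nat.add_sub_cancel, ← pow_mul, w]
        rw [← prod_mul_distrib]
        congr 1
        refine prod_congr rfl fun i _ => ?_
        simp only [h]
        rw [mul_pow, ← Real.exp_nat_mul]
        congr 2
        push_cast
        ring
    _ ≤ _ := by
        refine mul_le_mul_of_nonneg_right (mul_le_mul_of_nonneg_left ?_ (by positivity))
          (prod_nonneg fun i _ => by positivity)
        exact pow_le_pow_of_le_one (by positivity) ((div_le_one hn').2 hKn)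
          (Nat.mul_le_mul hk (Nat.sub_le_sub_right hk 1))

theorem CmpA_pow {η y : ℝ} (hη : 0 < η) (hy : 0 ≤ y) (m : ℕ) :
    y ^ m ≤ (m / η) ^ m * Real.exp (η * y) := by
  have h1 := Real.pow_div_factorial_le_exp (η * y) (mul_nonneg hη.le hy) m
  have h2 : (m.factorial : ℝ) ≤ (m : ℝ) ^ m := by exact_mod_cast Nat.factorial_le_pow m
  rw [div_le_iff₀ (by positivity), mul_pow] at h1
  rw [div_pow, div_mul_eq_mul_div, le_div_iff₀ (by positivity)]
  linarith only [h1, h2, Real.exp_pos (η * y), mul_nonneg_of_nonpos_of_nonpos (Mathlib.Tactic.Linarith.sub_nonpos_of_le h2) (le_of_lt (Mathlib.Tactic.Linarith.sub_neg_of_lt (Real.exp_pos (η * y))))]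

theorem moment_bound (μ : Measure ℝ) {g u β : ℝ} (hu : 0 < u) (hβ : 0 ≤ β) (hg : u + β < g)
    (hint : ∀ w, 0 < w → w < g → Integrable (fun x => Real.exp (w * x)) μ) :
    ∃ C : ℝ, 0 < C ∧ ∀ n : ℕ, 1 ≤ n →
      Integrable (fun x => ((n : ℝ) + |x|) ^ (2 * n) * Real.exp (u * x + β * max x 0)) μ ∧
      ∫ x, ((n : ℝ) + |x|) ^ (2 * n) * Real.exp (u * x + β * max x 0) ∂μ ≤
        (C * n) ^ (2 * n) := by
  obtain ⟨η, hη, h1, h2⟩ : ∃ η : ℝ, 0 < η ∧ η < u ∧ u + β + η < g := by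
    have h0 : 0 < min u (g - u - β) := lt_min hu (by linarith)
    exact ⟨min u (g - u - β) / 2, by linarith only [h0], by linarith [min_le_left u (g - u - β)],
      by linarith [min_le_right u (g - u - β)]⟩
  have hF : Integrable (fun x => Real.exp ((u - η) * x) + Real.exp ((u + β + η) * x)) μ :=
    (hint _ (by linarith) (by linarith)).add (hint _ (by linarith) h2)
  set I := ∫ x, Real.exp ((u - η) * x) + Real.exp ((u + β + η) * x) ∂μ with hI
  have hM : 1 ≤ max 1 I := le_max_left _ _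
  refine ⟨2 / η * Real.exp (η / 2) * max 1 I, by positivity, fun n hn => ?_⟩
  have hb : ∀ x : ℝ, ((n : ℝ) + |x|) ^ (2 * n) * Real.exp (u * x + β * max x 0) ≤
      (2 * n / η) ^ (2 * n) * Real.exp (η * n) *
        (Real.exp ((u - η) * x) + Real.exp ((u + β + η) * x)) := by
    intro x
    have h3 := CmpA_pow (y := n + |x|) hη (by positivity) (2 * n)
    have h4 : Real.exp (η * |x|) * Real.exp (u * x + β * max x 0) ≤
        Real.exp ((u - η) * x) + Real.exp ((u + β + η) * x) := by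
      rw [← Real.exp_add]
      rcases le_total 0 x with hx | hx
      · rw [abs_of_nonneg hx, max_eq_left hx, show η * x + (u * x + β * x) = (u + β + η) * x by ring]
        exact le_add_of_nonneg_left (Real.exp_pos _).le
      · rw [abs_of_nonpos hx, max_eq_right hx, show η * -x + (u * x + β * 0) = (u - η) * x by ring]
        exact le_add_of_nonneg_right (Real.exp_pos _).le
    push_cast at h3
    rw [mul_add η, Real.exp_add] at h3
    refine (mul_le_mul_of_nonneg_right h3 (Real.exp_pos _).le).trans ?_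
    rw [← mul_assoc, mul_assoc _ (Real.exp (η * |x|))]
    exact mul_le_mul_of_nonneg_left h4 (by positivity)
  have hi : Integrable
      (fun x => ((n : ℝ) + |x|) ^ (2 * n) * Real.exp (u * x + β * max x 0)) μ := by
    exact (hF.const_mul _).mono' (Continuous.aestronglyMeasurable (by fun_prop))
      (ae_of_all _ fun x => (Real.norm_of_nonneg (by positivity)).trans_le (hb x))
  refine ⟨hi, (integral_mono hi (hF.const_mul _) hb).trans ?_⟩
  rw [integral_const_mul, ← hI]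
  have h5 : I ≤ max 1 I ^ (2 * n) := (le_max_right _ _).trans (le_self_pow₀ hM (by omega))
  refine (mul_le_mul_of_nonneg_left h5 (by positivity)).trans_eq ?_
  have h6 : Real.exp (η * n) = Real.exp (η / 2) ^ (2 * n) := by
    rw [← Real.exp_nat_mul]
    congr 1
    push_cast
    ring
  rw [h6, ← mul_pow, ← mul_pow]
  congr 1
  ring

theorem fact_prod_lower (n : ℕ) :
    (n : ℝ) ^ (n * (n + 1)) * Real.exp (-(2 * n * (n + 1))) ≤
      (∏ k ∈ range (n + 1), (k.factorial : ℝ)) ^ 2 := by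
  have h1 : ∀ k : ℕ, (n : ℝ) ^ k * Real.exp (-n) ≤ k.factorial := fun k => by
    have := Real.pow_div_factorial_le_exp (n : ℝ) (Nat.cast_nonneg n) k
    rw [div_le_iff₀ (by positivity)] at this
    rw [Real.exp_neg, ← div_eq_mul_inv, div_le_iff₀ (Real.exp_pos _), mul_comm]
    exact this
  have h2 : ∏ k ∈ range (n + 1), ((n : ℝ) ^ k * Real.exp (-n)) ≤
      ∏ k ∈ range (n + 1), (k.factorial : ℝ) :=
    prod_le_prod (fun k _ => by positivity) fun k _ => h1 k
  refine le_trans (le_of_eq ?_) (pow_le_pow_left₀ (prod_nonneg fun k _ => by positivity) h2 2)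
  rw [prod_mul_distrib, prod_pow_eq_pow_sum, prod_const, card_range, mul_pow, ← pow_mul, ← pow_mul,
    sum_range_id_mul_two, Nat.add_sub_cancel, mul_comm (n + 1) n, ← Real.exp_nat_mul]
  congr 2
  push_cast
  ring

end Pool.Agent.Work.MP_413ea6_mp
end

-- merged part: Pool.Agent.Work.MP_413ea6_mp.Cmp
section
open Filter Topology Finset MeasureTheory

namespace Pool.Agent.Work.MP_413ea6_mp

/-! Comparison of two determinants of Laplace transforms. -/

theorem Cmp_prod_le {ι : Type*} [Fintype ι] (p : ι → Prop) [DecidablePred p] (a : ι → ℝ)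
    {E R : ℝ} {k : ℕ} (h0 : ∀ i, 0 ≤ a i) (hE : 1 ≤ E) (hR : 1 ≤ R) (h1 : ∀ i, a i ≤ R)
    (h2 : ∀ i, ¬p i → a i ≤ E) (hk : (univ.filter p).card ≤ k) :
    ∏ i, a i ≤ E ^ Fintype.card ι * R ^ k := by
  calc ∏ i, a i ≤ ∏ i, (E * if p i then R else 1) := by
        refine Finset.prod_le_prod (fun i _ => h0 i) fun i _ => ?_
        by_cases hp : p i
        · rw [if_pos hp]
          linarith only [hE, h1, hR, h1 i, mul_nonneg_of_nonpos_of_nonpos (Mathlib.Tactic.Linarith.sub_nonpos_of_le hE) (Mathlib.Tactic.Linarith.sub_nonpos_of_le hR)]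
        · rw [if_neg hp, mul_one]
          exact h2 i hp
    _ = E ^ Fintype.card ι * R ^ (univ.filter p).card := by
        rw [Finset.prod_mul_distrib, Finset.prod_const, Finset.card_univ, Finset.prod_ite,
          Finset.prod_const, Finset.prod_const_one, mul_one]
    _ ≤ E ^ Fintype.card ι * R ^ k := by
        gcongr

/-- The integrand of Andreief's identity. -/
noncomputable def CmpG (n : ℕ) (e u0 ξ ν : ℝ) (x : Fin (n + 1) → ℝ) : ℝ :=
  (Matrix.of fun i k => Real.exp (nd n e ξ i * x k)).det *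
    (Matrix.of fun j k => Real.exp (nd n e ν j * x k)).det * ∏ k, Real.exp (u0 * x k)

theorem Cmp_exp_le {n : ℕ} {ξ η : ℝ} (hξ : 0 ≤ ξ) (x : Fin (n + 1) → ℝ) (h : ∃ j, η ≤ x j) :
    Real.exp (ξ * η) ≤ ∏ i, Real.exp (ξ * max (x i) 0) := by
  obtain ⟨j, hj⟩ := h
  rw [← Real.exp_sum, ← Finset.mul_sum]
  refine Real.exp_le_exp.2 (mul_le_mul_of_nonneg_left ?_ hξ)
  calc η ≤ max (x j) 0 := hj.trans (le_max_left _ _)
    _ ≤ ∑ i, max (x i) 0 :=
      Finset.single_le_sum (f := fun i => max (x i) 0) (fun i _ => le_max_right _ _)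
        (Finset.mem_univ j)

theorem Cmp_G_bounds {n k : ℕ} (hn : 1 ≤ n) {K e u0 ξ ν β : ℝ} (hK : 0 < K) (hKn : 2 * K ≤ n)
    (he : 0 < e) (hξ : 0 ≤ ξ) (hν : 0 ≤ ν) (hβ : ξ + ν + 2 * n * e ≤ β)
    (x : Fin (n + 1) → ℝ) :
    0 ≤ CmpG n e u0 ξ ν x ∧ (k ≤ (univ.filter fun i => |x i| < K).card →
      CmpG n e u0 ξ ν x ≤ binr n (ξ / e) * binr n (ν / e) * (e / n) ^ (n * (n + 1)) *
        (2 * K / n) ^ (k * (k - 1)) *
        ∏ i, (((n : ℝ) + |x i|) ^ (2 * n) * Real.exp (u0 * x i + β * max (x i) 0))) := by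
  obtain ⟨s, hs, H⟩ := det_exp_mvt n
  obtain ⟨η, -, hη, h1⟩ := H e ξ x he hξ
  obtain ⟨η', -, hη', h2⟩ := H e ν x he hν
  have b1 := binr_pos n (div_nonneg hξ he.le)
  have b2 := binr_pos n (div_nonneg hν he.le)
  set V := ∏ i, ∏ j ∈ Ioi i, (Real.exp (e * x j) - Real.exp (e * x i)) with hV
  have hG : CmpG n e u0 ξ ν x = binr n (ξ / e) * binr n (ν / e) * (V ^ 2 *
      (Real.exp (ξ * η) * Real.exp (ν * η') * ∏ k, Real.exp (u0 * x k))) := by
    unfold CmpG
    rw [h1, h2]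
    linear_combination (binr n (ξ / e) * binr n (ν / e) * (V ^ 2 *
      (Real.exp (ξ * η) * Real.exp (ν * η') * ∏ k, Real.exp (u0 * x k)))) * hs
  have hP : 0 ≤ ∏ k, Real.exp (u0 * x k) := Finset.prod_nonneg fun _ _ => (Real.exp_pos _).le
  refine ⟨by rw [hG]; positivity, fun hk => ?_⟩
  have hw := vand_window hn hK hKn he x hk
  have e1 := Cmp_exp_le hξ x hη
  have e2 := Cmp_exp_le hν x hη'
  have hn0 : (0 : ℝ) < n := by exact_mod_cast hn
  have key : (∏ i, (((n : ℝ) + |x i|) ^ (2 * n) * Real.exp (2 * n * e * max (x i) 0))) *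
      ((∏ i, Real.exp (ξ * max (x i) 0)) * (∏ i, Real.exp (ν * max (x i) 0)) *
        ∏ k, Real.exp (u0 * x k)) ≤
      ∏ i, (((n : ℝ) + |x i|) ^ (2 * n) * Real.exp (u0 * x i + β * max (x i) 0)) := by
    rw [← Finset.prod_mul_distrib, ← Finset.prod_mul_distrib, ← Finset.prod_mul_distrib]
    refine Finset.prod_le_prod (fun i _ => by positivity) fun i _ => ?_
    rw [mul_assoc, ← Real.exp_add, ← Real.exp_add, ← Real.exp_add]
    refine mul_le_mul_of_nonneg_left (Real.exp_le_exp.2 ?_) (by positivity)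
    have := mul_le_mul_of_nonneg_right hβ (le_max_right (x i) 0)
    linarith only [this]
  rw [hG]
  calc binr n (ξ / e) * binr n (ν / e) * (V ^ 2 *
        (Real.exp (ξ * η) * Real.exp (ν * η') * ∏ k, Real.exp (u0 * x k)))
      ≤ binr n (ξ / e) * binr n (ν / e) * (((e / n) ^ (n * (n + 1)) *
        (2 * K / n) ^ (k * (k - 1)) *
        ∏ i, (((n : ℝ) + |x i|) ^ (2 * n) * Real.exp (2 * n * e * max (x i) 0))) *
        ((∏ i, Real.exp (ξ * max (x i) 0)) * (∏ i, Real.exp (ν * max (x i) 0)) *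
          ∏ k, Real.exp (u0 * x k))) := by
        have hq : 0 ≤ ∏ i, (((n : ℝ) + |x i|) ^ (2 * n) * Real.exp (2 * n * e * max (x i) 0)) :=
          Finset.prod_nonneg fun _ _ => by positivity
        have hq1 : 0 ≤ ∏ i, Real.exp (ξ * max (x i) 0) :=
          Finset.prod_nonneg fun _ _ => by positivity
        gcongr
    _ = binr n (ξ / e) * binr n (ν / e) * (e / n) ^ (n * (n + 1)) *
        (2 * K / n) ^ (k * (k - 1)) *
        ((∏ i, (((n : ℝ) + |x i|) ^ (2 * n) * Real.exp (2 * n * e * max (x i) 0))) *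
        ((∏ i, Real.exp (ξ * max (x i) 0)) * (∏ i, Real.exp (ν * max (x i) 0)) *
          ∏ k, Real.exp (u0 * x k))) := by ring
    _ ≤ _ := by gcongr

theorem Cmp_nd_bd (n : ℕ) {e ξ : ℝ} (he : 0 < e) (hξ : 0 ≤ ξ) (i : Fin (n + 1)) :
    0 ≤ nd n e ξ i ∧ nd n e ξ i ≤ n * e + ξ := by
  have h1 : ((i : ℕ) : ℝ) ≤ n := by exact_mod_cast Nat.lt_succ_iff.1 i.2
  have h2 : (0 : ℝ) ≤ (i : ℕ) := Nat.cast_nonneg _
  have h3 : 0 ≤ ((n : ℝ) - i) * e := mul_nonneg (by linarith) he.le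
  have h4 : ((n : ℝ) - i) * e ≤ n * e := mul_le_mul_of_nonneg_right (by linarith) he.le
  unfold nd
  split_ifs <;> constructor <;> linarith only [hξ, h3, h4]

theorem Cmp_andreief (μ : Measure ℝ) [SigmaFinite μ] (w : ℝ → ℝ) {n : ℕ} {g e u0 ξ ν R : ℝ}
    (hu : 0 < u0) (he : 0 < e) (hξ : 0 ≤ ξ) (hν : 0 ≤ ν) (hg : u0 + ξ + ν + 2 * n * e < g)
    (hint : ∀ w, 0 < w → w < g → Integrable (fun x => Real.exp (w * x)) μ)
    (hm : Measurable w) (hw : ∀ x, |w x| ≤ R) :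
    Integrable (fun x : Fin (n + 1) → ℝ => CmpG n e u0 ξ ν x * ∏ k, w (x k))
      (Measure.pi fun _ => μ) ∧
    ((n + 1).factorial : ℝ) * (Matrix.of fun i j =>
        ∫ x, Real.exp ((u0 + nd n e ξ i + nd n e ν j) * x) * w x ∂μ).det =
      ∫ x : Fin (n + 1) → ℝ, CmpG n e u0 ξ ν x * ∏ k, w (x k) ∂(Measure.pi fun _ => μ) := by
  set f : Fin (n + 1) → ℝ → ℝ := fun i x => Real.exp (nd n e ξ i * x) with hf
  set q : Fin (n + 1) → ℝ → ℝ :=
    fun j x => (Real.exp (u0 * x) * w x) * Real.exp (nd n e ν j * x) with hq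
  have hfq : ∀ i j x, f i x * q j x = Real.exp ((u0 + nd n e ξ i + nd n e ν j) * x) * w x := by
    intro i j x
    simp only [hf, hq, add_mul, Real.exp_add]
    ring
  have hI : ∀ i j, Integrable (fun x => f i x * q j x) μ := by
    intro i j
    simp only [hfq]
    have a1 := Cmp_nd_bd n he hξ i
    have a2 := Cmp_nd_bd n he hν j
    exact (hint _ (by linarith) (by linarith)).mul_bdd hm.aestronglyMeasurable
      (Eventually.of_forall hw)
  have hpt : ∀ x : Fin (n + 1) → ℝ, (Matrix.of fun i k => f i (x k)).det *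
      (Matrix.of fun j k => q j (x k)).det = CmpG n e u0 ξ ν x * ∏ k, w (x k) := by
    intro x
    have := Matrix.det_mul_row (fun k => Real.exp (u0 * x k) * w (x k))
      (Matrix.of fun j k => Real.exp (nd n e ν j * x k))
    simp only [Matrix.of_apply] at this
    simp only [hf, hq]
    rw [this, Finset.prod_mul_distrib]
    unfold CmpG
    ring
  have A1 := andreief_int μ f q hI
  have A2 := andreief μ f q hI
  simp only [hpt] at A1 A2
  simp only [hfq] at A2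
  exact ⟨A1, A2⟩

theorem Cmp_num {n k m : ℕ} {K C c R : ℝ} (hK : 0 < K) (hC : 0 < C) (hc : 0 < c) (hR : 1 ≤ R)
    (hk : 3 ≤ k) (hm : n + 1 ≤ m * (k + 1)) (hn : 1 ≤ n)
    (hL : 2 * K * (max 1 ((C ^ 2 * Real.exp 2 + 1) * (2 * R) / c)) ^ (4 * m ^ 2) ≤ n) :
    2 * R ^ (n + 1) * ((2 * K / n) ^ (k * (k - 1)) * (C ^ 2 * Real.exp 2) ^ (n * (n + 1))) ≤
      c ^ ((n + 1) ^ 2) := by
  set L := max 1 ((C ^ 2 * Real.exp 2 + 1) * (2 * R) / c) with hLdef
  have hL1 : 1 ≤ L := le_max_left _ _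
  have hn0 : (0 : ℝ) < n := by exact_mod_cast hn
  have hD : 0 < C ^ 2 * Real.exp 2 := by positivity
  have hexp : (n + 1) ^ 2 ≤ 4 * m ^ 2 * (k * (k - 1)) := by
    obtain ⟨j, rfl⟩ : ∃ j, k = j + 3 := ⟨k - 3, by omega⟩
    have e1 : j + 3 - 1 = j + 2 := by omega
    rw [e1]
    calc (n + 1) ^ 2 ≤ (m * (j + 3 + 1)) ^ 2 := Nat.pow_le_pow_left hm 2
      _ = m ^ 2 * (j + 4) ^ 2 := by ring
      _ ≤ m ^ 2 * (4 * ((j + 3) * (j + 2))) := Nat.mul_le_mul_left _ (by linarith only [mul_nonneg_of_nonpos_of_nonpos (Mathlib.Tactic.Linarith.sub_nonpos_of_le (Mathlib.Tactic.Linarith.natCast_nonneg ℤ j)) (Mathlib.Tactic.Linarith.sub_nonpos_of_le (Mathlib.Tactic.Linarith.natCast_nonneg ℤ j))])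
      _ = _ := by ring
  have h1 : (2 * K / n) ^ (k * (k - 1)) * L ^ ((n + 1) ^ 2) ≤ 1 := by
    calc (2 * K / n) ^ (k * (k - 1)) * L ^ ((n + 1) ^ 2)
        ≤ (2 * K / n) ^ (k * (k - 1)) * L ^ (4 * m ^ 2 * (k * (k - 1))) := by gcongr
      _ = (2 * K * L ^ (4 * m ^ 2) / n) ^ (k * (k - 1)) := by
          rw [pow_mul L, ← mul_pow]
          congr 1
          ring
      _ ≤ 1 := pow_le_one₀ (by positivity) ((div_le_one hn0).2 hL)
  have h2 : 2 * R ^ (n + 1) * (C ^ 2 * Real.exp 2) ^ (n * (n + 1)) ≤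
      c ^ ((n + 1) ^ 2) * L ^ ((n + 1) ^ 2) := by
    have a1 : (C ^ 2 * Real.exp 2) ^ (n * (n + 1)) ≤ (C ^ 2 * Real.exp 2 + 1) ^ ((n + 1) ^ 2) := by
      calc (C ^ 2 * Real.exp 2) ^ (n * (n + 1)) ≤ (C ^ 2 * Real.exp 2 + 1) ^ (n * (n + 1)) := by
            gcongr
            linarith only []
        _ ≤ _ := pow_le_pow_right₀ (by linarith only [hD]) (by linarith only [hn])
    have a2 : 2 * R ^ (n + 1) ≤ (2 * R) ^ ((n + 1) ^ 2) := by
      calc 2 * R ^ (n + 1) ≤ 2 ^ (n + 1) * R ^ (n + 1) := by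
            gcongr
            exact le_self_pow₀ (by norm_num) (by omega)
        _ = (2 * R) ^ (n + 1) := (mul_pow _ _ _).symm
        _ ≤ _ := pow_le_pow_right₀ (by linarith only [hR]) (by linarith only [hn, mul_nonneg_of_nonpos_of_nonpos (Mathlib.Tactic.Linarith.sub_nonpos_of_le (Mathlib.Tactic.Linarith.natCast_nonneg ℤ n)) (Mathlib.Tactic.Linarith.sub_nonpos_of_le (Mathlib.Tactic.Linarith.natCast_nonneg ℤ n))])
    have a3 : (C ^ 2 * Real.exp 2 + 1) * (2 * R) ≤ c * L := by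
      have : (C ^ 2 * Real.exp 2 + 1) * (2 * R) / c ≤ L := le_max_right _ _
      rw [div_le_iff₀ hc] at this
      linarith only [this]
    calc 2 * R ^ (n + 1) * (C ^ 2 * Real.exp 2) ^ (n * (n + 1))
        ≤ (2 * R) ^ ((n + 1) ^ 2) * (C ^ 2 * Real.exp 2 + 1) ^ ((n + 1) ^ 2) := by gcongr
      _ = ((C ^ 2 * Real.exp 2 + 1) * (2 * R)) ^ ((n + 1) ^ 2) := by rw [← mul_pow, mul_comm]
      _ ≤ (c * L) ^ ((n + 1) ^ 2) := by gcongr
      _ = _ := mul_pow _ _ _
  calc 2 * R ^ (n + 1) * ((2 * K / n) ^ (k * (k - 1)) * (C ^ 2 * Real.exp 2) ^ (n * (n + 1)))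
      = (2 * K / n) ^ (k * (k - 1)) * (2 * R ^ (n + 1) * (C ^ 2 * Real.exp 2) ^ (n * (n + 1))) := by
        ring
    _ ≤ (2 * K / n) ^ (k * (k - 1)) * (c ^ ((n + 1) ^ 2) * L ^ ((n + 1) ^ 2)) := by gcongr
    _ = c ^ ((n + 1) ^ 2) * ((2 * K / n) ^ (k * (k - 1)) * L ^ ((n + 1) ^ 2)) := by ring
    _ ≤ c ^ ((n + 1) ^ 2) * 1 := by gcongr
    _ = _ := mul_one _

theorem Cmp_low {n : ℕ} {e ξ ν : ℝ} (he : 0 < e) (hξ : 0 ≤ ξ) (hν : 0 ≤ ν) :
    binr n (ξ / e) * binr n (ν / e) * e ^ (n * (n + 1)) *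
      ((n : ℝ) ^ (n * (n + 1)) * Real.exp (-(2 * n * (n + 1)))) ≤ vnd n e ξ * vnd n e ν := by
  have b1 := binr_pos n (div_nonneg hξ he.le)
  have b2 := binr_pos n (div_nonneg hν he.le)
  have hs : n * (n + 1) = (∑ k ∈ range (n + 1), k) * 2 := by
    rw [Finset.sum_range_id_mul_two, Nat.add_sub_cancel, mul_comm]
  rw [vnd_eq n he, vnd_eq n he]
  calc binr n (ξ / e) * binr n (ν / e) * e ^ (n * (n + 1)) *
        ((n : ℝ) ^ (n * (n + 1)) * Real.exp (-(2 * n * (n + 1))))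
      ≤ binr n (ξ / e) * binr n (ν / e) * e ^ (n * (n + 1)) *
        (∏ k ∈ range (n + 1), (k.factorial : ℝ)) ^ 2 := by
        gcongr
        exact fact_prod_lower n
    _ = _ := by
        rw [hs, pow_mul]
        ring

/-- The integrated form of the two pointwise inequalities. -/
theorem Cmp_core {X : Type*} [MeasurableSpace X] (P : Measure X) (G H W : X → ℝ) (bad : X → Prop)
    {A B : ℝ} (hA : 1 ≤ A) (hB : 1 ≤ B) (hG : Integrable G P) (hH : Integrable H P)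
    (hW : Integrable (fun x => G x * W x) P) (hG0 : ∀ x, 0 ≤ G x) (hH0 : ∀ x, 0 ≤ H x)
    (hW0 : ∀ x, 0 < W x) (hWB : ∀ x, W x ≤ B) (hbad : ∀ x, bad x → G x ≤ H x)
    (hgood : ∀ x, ¬bad x → W x ≤ A ∧ (W x)⁻¹ ≤ A)
    (hsmall : 2 * B * ∫ x, H x ∂P ≤ ∫ x, G x ∂P) :
    (2 * A)⁻¹ * ∫ x, G x ∂P ≤ ∫ x, G x * W x ∂P ∧
      ∫ x, G x * W x ∂P ≤ 2 * A * ∫ x, G x ∂P := by
  have iG : 0 ≤ ∫ x, G x ∂P := integral_nonneg hG0
  have iH : 0 ≤ ∫ x, H x ∂P := integral_nonneg hH0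
  have hA0 : 0 < A := by linarith
  constructor
  · have h1 : ∫ x, A⁻¹ * (G x - H x) ∂P ≤ ∫ x, G x * W x ∂P := by
      refine integral_mono ((hG.sub hH).const_mul _) hW fun x => ?_
      by_cases hb : bad x
      · have := hbad x hb
        have h2 : 0 ≤ G x * W x := mul_nonneg (hG0 x) (hW0 x).le
        have h3 : A⁻¹ * (G x - H x) ≤ 0 :=
          mul_nonpos_of_nonneg_of_nonpos (by positivity) (by linarith)
        exact h3.trans h2
      · have h2 : A⁻¹ ≤ W x := inv_le_of_inv_le₀ (hW0 x) (hgood x hb).2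
        have h3 := hG0 x
        have h4 := hH0 x
        have h5 : 0 ≤ A⁻¹ := by positivity
        show A⁻¹ * (G x - H x) ≤ G x * W x
        linarith only [h2, h3, h5, h4, mul_le_mul_of_nonneg_left h2 h3, mul_nonneg h5 h4]
    rw [integral_const_mul, integral_sub hG hH] at h1
    refine le_trans ?_ h1
    rw [mul_inv, mul_comm (2 : ℝ)⁻¹, mul_assoc]
    refine mul_le_mul_of_nonneg_left ?_ (by positivity)
    linarith only [hsmall, hB, iH, mul_le_mul_of_nonneg_right hB iH]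
  · have h1 : ∫ x, G x * W x ∂P ≤ ∫ x, (A * G x + B * H x) ∂P := by
      refine integral_mono hW ((hG.const_mul _).add (hH.const_mul _)) fun x => ?_
      have h3 := hG0 x
      have h4 := hH0 x
      show G x * W x ≤ A * G x + B * H x
      by_cases hb : bad x
      · have h5 := hbad x hb
        have h6 : G x * W x ≤ H x * B := mul_le_mul h5 (hWB x) (hW0 x).le h4
        linarith only [h6, hA0, h3, mul_nonneg hA0.le h3]
      · have h6 := mul_le_mul_of_nonneg_left (hgood x hb).1 h3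
        linarith only [h6, hB, h4, mul_nonneg (by linarith : (0 : ℝ) ≤ B) h4]
    rw [integral_add (hG.const_mul _) (hH.const_mul _), integral_const_mul,
      integral_const_mul] at h1
    have h7 : 0 ≤ B * ∫ x, H x ∂P := mul_nonneg (by linarith) iH
    linarith only [hsmall, iG, h1, hA, mul_le_mul_of_nonneg_right hA iG]

theorem det_compare (μ : Measure ℝ) [SigmaFinite μ] (ρ : ℝ → ℝ) {g u0 ξ ν ε : ℝ}
    (hu : 0 < u0) (hξ : 0 ≤ ξ) (hν : 0 ≤ ν) (hg : u0 + ξ + ν < g) (hε : 0 < ε)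
    (hint : ∀ w, 0 < w → w < g → Integrable (fun x => Real.exp (w * x)) μ)
    (hm : Measurable ρ) (hbd : ∃ c1 c2 : ℝ, 0 < c1 ∧ ∀ x, c1 ≤ ρ x ∧ ρ x ≤ c2)
    (hlim : ∀ ε : ℝ, 0 < ε → ∃ K : ℝ, ∀ x, K ≤ |x| → Real.exp (-ε) ≤ ρ x ∧ ρ x ≤ Real.exp ε)
    (hlow : ∃ c : ℝ, 0 < c ∧ ∀ n : ℕ, ∀ᶠ e in 𝓝[>] (0 : ℝ),
      c ^ ((n + 1) ^ 2) * (vnd n e ξ * vnd n e ν) ≤ (Matrix.of fun i j =>
        ∫ x, Real.exp ((u0 + nd n e ξ i + nd n e ν j) * x) ∂μ).det) :
    ∀ᶠ n : ℕ in atTop, ∀ᶠ e in 𝓝[>] (0 : ℝ),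
      Real.exp (-(ε * n)) * (Matrix.of fun i j =>
          ∫ x, Real.exp ((u0 + nd n e ξ i + nd n e ν j) * x) ∂μ).det ≤
        (Matrix.of fun i j =>
          ∫ x, Real.exp ((u0 + nd n e ξ i + nd n e ν j) * x) * ρ x ∂μ).det ∧
      (Matrix.of fun i j =>
          ∫ x, Real.exp ((u0 + nd n e ξ i + nd n e ν j) * x) * ρ x ∂μ).det ≤
        Real.exp (ε * n) * (Matrix.of fun i j =>
          ∫ x, Real.exp ((u0 + nd n e ξ i + nd n e ν j) * x) ∂μ).det := by
  obtain ⟨c1, c2, hc1, hρ⟩ := hbd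
  obtain ⟨K0, hK0⟩ := hlim (ε / 4) (by positivity)
  obtain ⟨c, hc, hlow⟩ := hlow
  set K := max K0 1 with hKdef
  have hK : 0 < K := lt_of_lt_of_le one_pos (le_max_right _ _)
  set R := max 1 (max c2 c1⁻¹) with hRdef
  have hR : 1 ≤ R := le_max_left _ _
  have hρ0 : ∀ x, 0 < ρ x := fun x => hc1.trans_le (hρ x).1
  have hρR : ∀ x, ρ x ≤ R := fun x => (hρ x).2.trans ((le_max_left _ _).trans (le_max_right _ _))
  have hρR' : ∀ x, (ρ x)⁻¹ ≤ R := fun x =>
    (inv_anti₀ hc1 (hρ x).1).trans ((le_max_right _ _).trans (le_max_right _ _))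
  set d := (g - u0 - ξ - ν) / 2 with hd
  have hd0 : 0 < d := by rw [hd]; linarith only [hg]
  obtain ⟨C, hC, hmom⟩ := moment_bound μ (β := ξ + ν + d) hu (by positivity)
    (by rw [hd]; linarith only [hg]) hint
  obtain ⟨m, hm1, hmR⟩ : ∃ m : ℕ, 1 ≤ m ∧ R ≤ Real.exp (ε / 4 * m) := by
    obtain ⟨m, hm⟩ := exists_nat_ge (R / (ε / 4))
    rw [div_le_iff₀ (by positivity)] at hm
    refine ⟨m + 1, by omega, ?_⟩
    have := Real.add_one_le_exp (ε / 4 * ((m + 1 : ℕ) : ℝ))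
    push_cast at this ⊢
    linarith only [hε, hm, this]
  have ev1 : ∀ᶠ n : ℕ in atTop, 2 * K ≤ (n : ℝ) :=
    tendsto_natCast_atTop_atTop.eventually_ge_atTop _
  have ev2 : ∀ᶠ n : ℕ in atTop,
      2 * K * (max 1 ((C ^ 2 * Real.exp 2 + 1) * (2 * R) / c)) ^ (4 * m ^ 2) ≤ (n : ℝ) :=
    tendsto_natCast_atTop_atTop.eventually_ge_atTop _
  have ev3 : ∀ᶠ n : ℕ in atTop, (1 + ε / 4) / (ε / 2) ≤ (n : ℝ) :=
    tendsto_natCast_atTop_atTop.eventually_ge_atTop _
  filter_upwards [ev1, ev2, ev3, eventually_ge_atTop (3 * m)] with n h1 h2 h3 h4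
  have hn : 1 ≤ n := by omega
  have hn0 : (0 : ℝ) < n := by exact_mod_cast hn
  set k := n / m with hk
  have hk3 : 3 ≤ k := (Nat.le_div_iff_mul_le (by omega)).2 h4
  have hkm : n + 1 ≤ m * (k + 1) := Nat.lt_mul_div_succ n (by omega)
  have hkn : m * k ≤ n := Nat.mul_div_le n m
  have eve : ∀ᶠ e in 𝓝[>] (0 : ℝ), e < d / (2 * n) :=
    mem_nhdsWithin_of_mem_nhds (Iio_mem_nhds (by positivity))
  filter_upwards [hlow n, eve, self_mem_nhdsWithin] with e hl he1 he
  have he : 0 < e := he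
  rw [lt_div_iff₀ (by positivity)] at he1
  have hge : u0 + ξ + ν + 2 * n * e < g := by rw [hd] at he1; linarith only [hg, he1]
  obtain ⟨I0, E0⟩ := Cmp_andreief μ (fun _ => 1) (n := n) (R := 1) hu he hξ hν hge hint
    measurable_const (fun _ => by simp)
  obtain ⟨I1, E1⟩ := Cmp_andreief μ ρ (n := n) (R := R) hu he hξ hν hge hint hm
    (fun x => by rw [abs_of_pos (hρ0 x)]; exact hρR x)
  simp only [Finset.prod_const_one, mul_one] at I0 E0
  obtain ⟨Ih, Bh⟩ := hmom n hn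
  have b1 := binr_pos n (div_nonneg hξ he.le)
  have b2 := binr_pos n (div_nonneg hν he.le)
  set h : ℝ → ℝ := fun x => ((n : ℝ) + |x|) ^ (2 * n) *
    Real.exp (u0 * x + (ξ + ν + d) * max x 0) with hh
  set Q := binr n (ξ / e) * binr n (ν / e) * (e / n) ^ (n * (n + 1)) *
    (2 * K / n) ^ (k * (k - 1)) with hQ
  have hQ0 : 0 ≤ Q := by positivity
  have hh0 : ∀ x, 0 ≤ h x := fun x => by simp only [hh]; positivity
  have hE : 1 ≤ Real.exp (ε / 4) := Real.one_le_exp (by positivity)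
  have hGb := fun x => Cmp_G_bounds (k := k) (u0 := u0) (β := ξ + ν + d) hn hK h1 he hξ hν
    (by linarith only [he1]) x
  set D0 := (Matrix.of fun i j =>
    ∫ x, Real.exp ((u0 + nd n e ξ i + nd n e ν j) * x) ∂μ).det with hD0
  set D1 := (Matrix.of fun i j =>
    ∫ x, Real.exp ((u0 + nd n e ξ i + nd n e ν j) * x) * ρ x ∂μ).det with hD1
  have hF : (1 : ℝ) ≤ ((n + 1).factorial : ℝ) := by exact_mod_cast Nat.factorial_pos _
  have hlowv := Cmp_low (n := n) he hξ hν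
  have hX : 0 < binr n (ξ / e) * binr n (ν / e) * e ^ (n * (n + 1)) *
      ((n : ℝ) ^ (n * (n + 1)) * Real.exp (-(2 * n * (n + 1)))) := by positivity
  have hl2 := (mul_le_mul_of_nonneg_left hlowv (pow_pos hc ((n + 1) ^ 2)).le).trans hl
  have hD0pos : 0 ≤ D0 := le_trans (by positivity) hl2
  have hsmall : 2 * R ^ (n + 1) * ∫ x : Fin (n + 1) → ℝ, Q * ∏ i, h (x i)
      ∂(Measure.pi fun _ => μ) ≤ ∫ x, CmpG n e u0 ξ ν x ∂(Measure.pi fun _ => μ) := by
    rw [← E0, integral_const_mul, integral_fintype_prod_eq_pow, Fintype.card_fin]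
    have i0 : 0 ≤ ∫ x, h x ∂μ := integral_nonneg hh0
    have num := Cmp_num hK hC hc hR hk3 hkm hn h2
    have ee : Real.exp (-(2 * n * (n + 1))) * Real.exp 2 ^ (n * (n + 1)) = 1 := by
      rw [← Real.exp_nat_mul, ← Real.exp_add]
      push_cast
      ring_nf
      exact Real.exp_zero
    calc 2 * R ^ (n + 1) * (Q * (∫ x, h x ∂μ) ^ (n + 1))
        ≤ 2 * R ^ (n + 1) * (Q * ((C * n) ^ (2 * n)) ^ (n + 1)) := by gcongr
      _ = 2 * R ^ (n + 1) * ((2 * K / n) ^ (k * (k - 1)) *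
            (C ^ 2 * Real.exp 2) ^ (n * (n + 1))) *
          (binr n (ξ / e) * binr n (ν / e) * e ^ (n * (n + 1)) *
            ((n : ℝ) ^ (n * (n + 1)) * Real.exp (-(2 * n * (n + 1))))) := by
          have e1 : ((C * n) ^ (2 * n)) ^ (n + 1) =
              (C ^ 2) ^ (n * (n + 1)) * ((n : ℝ) ^ (n * (n + 1))) ^ 2 := by
            rw [← pow_mul, ← pow_mul, ← pow_mul, mul_pow]
            congr 2 <;> ring
          have e2 : (e / n) ^ (n * (n + 1)) = e ^ (n * (n + 1)) / (n : ℝ) ^ (n * (n + 1)) :=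
            div_pow _ _ _
          have e3 : (0 : ℝ) < (n : ℝ) ^ (n * (n + 1)) := by positivity
          rw [e1, hQ, e2, mul_pow (C ^ 2)]
          generalize (n : ℝ) ^ (n * (n + 1)) = N at e3 ⊢
          generalize Real.exp (-(2 * n * (n + 1))) = a at ee ⊢
          generalize Real.exp 2 ^ (n * (n + 1)) = b at ee ⊢
          have e4 : a = b⁻¹ := eq_inv_of_mul_eq_one_left ee
          have e5 : b ≠ 0 := right_ne_zero_of_mul_eq_one ee
          rw [e4]
          field_simp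
      _ ≤ c ^ ((n + 1) ^ 2) * (binr n (ξ / e) * binr n (ν / e) * e ^ (n * (n + 1)) *
            ((n : ℝ) ^ (n * (n + 1)) * Real.exp (-(2 * n * (n + 1))))) := by gcongr
      _ ≤ D0 := hl2
      _ ≤ _ := le_mul_of_one_le_left hD0pos hF
  have hA : 1 ≤ Real.exp (ε / 4) ^ (n + 1) * R ^ k :=
    one_le_mul_of_one_le_of_one_le (one_le_pow₀ hE) (one_le_pow₀ hR)
  obtain ⟨L, U⟩ := Cmp_core (Measure.pi fun _ : Fin (n + 1) => μ) (CmpG n e u0 ξ ν)
    (fun x => Q * ∏ i, h (x i)) (fun x => ∏ i, ρ (x i))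
    (fun x => k ≤ (univ.filter fun i => |x i| < K).card) hA (one_le_pow₀ hR (n := n + 1)) I0
    ((Integrable.fintype_prod (f := fun _ => h) fun _ => Ih).const_mul Q) I1
    (fun x => (hGb x).1) (fun x => mul_nonneg hQ0 (Finset.prod_nonneg fun i _ => hh0 _))
    (fun x => Finset.prod_pos fun i _ => hρ0 _)
    (fun x => by
      calc ∏ i, ρ (x i) ≤ ∏ _i : Fin (n + 1), R :=
            Finset.prod_le_prod (fun i _ => (hρ0 _).le) fun i _ => hρR _
        _ = R ^ (n + 1) := by simp)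
    (fun x hx => (hGb x).2 hx)
    (fun x hx => by
      have hx' : (univ.filter fun i => |x i| < K).card ≤ k := (not_le.1 hx).le
      have hout : ∀ i, ¬|x i| < K → K0 ≤ |x i| := fun i hi =>
        (le_max_left _ _).trans (not_lt.1 hi)
      have p1 := Cmp_prod_le (fun i => |x i| < K) (fun i => ρ (x i)) (fun i => (hρ0 _).le) hE hR
        (fun i => hρR _) (fun i hi => (hK0 _ (hout i hi)).2) hx'
      have p2 := Cmp_prod_le (fun i => |x i| < K) (fun i => (ρ (x i))⁻¹)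
        (fun i => (inv_pos.2 (hρ0 _)).le) hE hR (fun i => hρR' _)
        (fun i hi => by
          have := (hK0 _ (hout i hi)).1
          rw [Real.exp_neg] at this
          exact inv_le_of_inv_le₀ (Real.exp_pos _) this) hx'
      rw [Fintype.card_fin] at p1 p2
      rw [Finset.prod_inv_distrib] at p2
      exact ⟨p1, p2⟩)
    hsmall
  rw [← E0, ← E1] at L U
  have hAε : 2 * (Real.exp (ε / 4) ^ (n + 1) * R ^ k) ≤ Real.exp (ε * n) := by
    have a1 : R ^ k ≤ Real.exp (ε / 4 * n) := by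
      calc R ^ k ≤ Real.exp (ε / 4 * m) ^ k := by gcongr
        _ = Real.exp (ε / 4 * ((m * k : ℕ) : ℝ)) := by
            rw [← Real.exp_nat_mul]
            push_cast
            ring_nf
        _ ≤ _ := by
            have : ((m * k : ℕ) : ℝ) ≤ n := by exact_mod_cast hkn
            gcongr
    have a2 : (2 : ℝ) ≤ Real.exp 1 := by
      have := Real.add_one_le_exp 1
      linarith only [this]
    rw [div_le_iff₀ (by positivity)] at h3
    calc 2 * (Real.exp (ε / 4) ^ (n + 1) * R ^ k)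
        ≤ Real.exp 1 * (Real.exp (ε / 4) ^ (n + 1) * Real.exp (ε / 4 * n)) := by gcongr
      _ = Real.exp (1 + ((n + 1 : ℕ) * (ε / 4) + ε / 4 * n)) := by
          rw [← Real.exp_nat_mul, ← Real.exp_add, ← Real.exp_add]
      _ ≤ _ := by
          refine Real.exp_le_exp.2 ?_
          push_cast
          linarith only [h3]
  have hF0 : (0 : ℝ) < ((n + 1).factorial : ℝ) := by linarith only [hF]
  constructor
  · refine le_of_mul_le_mul_left ?_ hF0
    refine le_trans ?_ L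
    rw [mul_left_comm, Real.exp_neg]
    exact mul_le_mul_of_nonneg_right (inv_anti₀ (by linarith only [hA]) hAε) (by positivity)
  · refine le_of_mul_le_mul_left ?_ hF0
    refine U.trans ?_
    rw [mul_left_comm _ (Real.exp (ε * n))]
    exact mul_le_mul_of_nonneg_right hAε (by positivity)

end Pool.Agent.Work.MP_413ea6_mp
end

-- merged part: Pool.Agent.Work.MP_413ea6_mp.AT
section
open Filter Topology Finset Matrix

namespace Pool.Agent.Work.MP_413ea6_mp

/-! Asymptotics of the partition functions. -/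

/-- Growth rate attached to a special row or column with shift `ξ ≥ 0`. -/
noncomputable def KData.Λ {T : Trig} {g : ℝ} (K : KData T g) (u0 ξ : ℝ) : ℝ :=
  Real.log (T.S (g - (u0 + ξ)) * T.S (u0 + ξ) / K.σ (u0 + ξ) *
    if ξ = 0 then 1 else K.σ ξ / T.S ξ)

theorem AT_det0 {T : Trig} {g : ℝ} (K : KData T g) {N : ℕ} (u v : Fin N → ℝ)
    (h : ∀ i j, 0 < u i + v j ∧ u i + v j < g) :
    (Matrix.of fun i j => ∫ x, Real.exp ((u i + v j) * x) ∂K.μ).det =
      K.τ (∑ i, u i + ∑ j, v j) / K.τ 0 *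
        (∏ i, ∏ j ∈ Ioi i, (K.σ (u i - u j) * K.σ (v i - v j))) / ∏ i, ∏ j, K.σ (u i + v j) := by
  obtain ⟨m, M, hm, hτ⟩ := K.τ_bd
  have h0 : ∀ x, K.τ x ≠ 0 := fun x => (hm.trans_le (hτ x).1).ne'
  have hσ : ∀ i j, 0 < K.σ (u i + v j) := fun i j => K.σ_pos _ (h i j).1 (h i j).2
  have F := frobenius K.fay h0 0 u v fun i j => (hσ i j).ne'
  have e : (Matrix.of fun i j => ∫ x, Real.exp ((u i + v j) * x) ∂K.μ) =
      (K.τ 0)⁻¹ • Matrix.of fun i j => K.τ (0 + u i + v j) / K.σ (u i + v j) := by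
    ext i j
    rw [Matrix.smul_apply, Matrix.of_apply, Matrix.of_apply, K.lap0 _ (h i j).1 (h i j).2,
      zero_add, smul_eq_mul]
    have := h0 0
    have := (hσ i j).ne'
    field_simp
  have e2 : ∏ i, ∏ j ∈ Ioi i, (K.σ (u j - u i) * K.σ (v j - v i)) =
      ∏ i, ∏ j ∈ Ioi i, (K.σ (u i - u j) * K.σ (v i - v j)) :=
    prod_congr rfl fun i _ => prod_congr rfl fun j _ => by
      rw [← neg_sub (u i), ← neg_sub (v i), K.σ_neg, K.σ_neg, neg_mul_neg]
  have hP : 0 < ∏ i, ∏ j, K.σ (u i + v j) := prod_pos fun i _ => prod_pos fun j _ => hσ i j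
  rw [e2, zero_add] at F
  rw [e, Matrix.det_smul, Fintype.card_fin, eq_div_iff hP.ne', inv_pow]
  have := h0 0
  field_simp
  linarith only [F]

theorem AT_nd {n : ℕ} {e ξ : ℝ} (he : 0 < e) (hξ : 0 ≤ ξ) (i : Fin (n + 1)) :
    0 ≤ nd n e ξ i ∧ nd n e ξ i ≤ n * e + ξ := by
  have h1 : ((i : ℕ) : ℝ) ≤ n := by exact_mod_cast Nat.lt_succ_iff.1 i.2
  have h2 : (0 : ℝ) ≤ (i : ℕ) := Nat.cast_nonneg _
  unfold nd
  split_ifs <;> constructor <;> linarith only [hξ, he, h1, mul_nonneg_of_nonpos_of_nonpos (le_of_lt (Mathlib.Tactic.Linarith.sub_neg_of_lt he)) (Mathlib.Tactic.Linarith.sub_nonpos_of_le h1), mul_nonneg_of_nonpos_of_nonpos (Mathlib.Tactic.Linarith.sub_nonpos_of_le (Mathlib.Tactic.Linarith.natCast_nonneg ℝ ↑i)) (le_of_lt (Mathlib.Tactic.Linarith.sub_neg_of_lt he))]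

theorem AT_nd_lt {n : ℕ} {e ξ : ℝ} (he : 0 < e) (hξ : 0 ≤ ξ) {i j : Fin (n + 1)} (hij : i < j) :
    nd n e ξ j < nd n e ξ i := by
  have h1 : ((i : ℕ) : ℝ) < (j : ℕ) := by exact_mod_cast hij
  have hj : j ≠ 0 := (lt_of_le_of_lt (Fin.zero_le i) hij).ne'
  unfold nd
  rw [if_neg hj]
  split_ifs <;> linarith only [hξ, he, h1, mul_pos_of_neg_of_neg (Mathlib.Tactic.Linarith.sub_neg_of_lt he) (Mathlib.Tactic.Linarith.sub_neg_of_lt h1)]

theorem AT_small (n : ℕ) {d : ℝ} (hd : 0 < d) : ∀ᶠ e in 𝓝[>] (0 : ℝ), 0 < e ∧ 2 * (n * e) < d := by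
  have h : Tendsto (fun e : ℝ => 2 * (n * e)) (𝓝[>] 0) (𝓝 (2 * (n * 0))) :=
    (Continuous.tendsto (by fun_prop) 0).mono_left nhdsWithin_le_nhds
  rw [mul_zero, mul_zero] at h
  exact Filter.Eventually.and self_mem_nhdsWithin (h.eventually (gt_mem_nhds hd))

theorem AT_ds {f : ℝ → ℝ} (hc : Continuous f) (hd : HasDerivAt f 1 0) (h0 : f 0 = 0) :
    Continuous (dslope f 0) ∧ dslope f 0 0 = 1 ∧ ∀ x, x ≠ 0 → dslope f 0 x = f x / x := by
  refine ⟨continuousOn_univ.1 ((continuousOn_dslope univ_mem).2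
    ⟨hc.continuousOn, hd.differentiableAt⟩), by rw [dslope_same, hd.deriv], fun x hx => ?_⟩
  rw [dslope_of_ne _ hx, slope_def_field, h0, sub_zero, sub_zero]

theorem AT_σ0 {T : Trig} {g : ℝ} (K : KData T g) : K.σ 0 = 0 := by
  have := K.σ_neg 0
  rw [neg_zero] at this
  linarith only [this]

theorem AT_σ_low {T : Trig} {g : ℝ} (K : KData T g) {G : ℝ} (h0 : 0 ≤ G) (hG : G < g) :
    ∃ c : ℝ, 0 < c ∧ c ≤ 1 ∧ ∀ x, 0 < x → x ≤ G → c * x ≤ K.σ x := by
  obtain ⟨h1, h2, h3⟩ := AT_ds K.σ_smooth.continuous K.σ_deriv (AT_σ0 K)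
  obtain ⟨y, hy, hmin⟩ := isCompact_Icc.exists_isMinOn (Set.nonempty_Icc.2 h0) h1.continuousOn
  refine ⟨dslope K.σ 0 y, ?_, h2 ▸ hmin (Set.left_mem_Icc.2 h0), fun x hx hx' => ?_⟩
  · rcases hy.1.eq_or_lt with rfl | hy0
    · rw [h2]; exact one_pos
    · rw [h3 y hy0.ne']
      exact div_pos (K.σ_pos y hy0 (hy.2.trans_lt hG)) hy0
  · have : dslope K.σ 0 y ≤ dslope K.σ 0 x := hmin ⟨hx.le, hx'⟩
    rwa [h3 x hx.ne', le_div_iff₀ hx] at this

/-- The ratio `σ / S`, extended by `1` at `0`. -/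
noncomputable def ATq {T : Trig} {g : ℝ} (K : KData T g) (x : ℝ) : ℝ :=
  if x = 0 then 1 else K.σ x / T.S x

noncomputable def ATk {T : Trig} {g : ℝ} (K : KData T g) (w : ℝ) : ℝ :=
  T.S (g - w) * T.S w / K.σ w

theorem ATq_pos {T : Trig} {g : ℝ} (K : KData T g) {x : ℝ} (h0 : 0 ≤ x) (h : x < g) :
    0 < ATq K x := by
  unfold ATq
  split_ifs with hx
  · exact one_pos
  · have := h0.lt_of_ne' hx
    exact div_pos (K.σ_pos x this h) (K.S_pos x this h.le)

theorem ATk_pos {T : Trig} {g : ℝ} (K : KData T g) {x : ℝ} (h0 : 0 < x) (h : x < g) :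
    0 < ATk K x :=
  div_pos (mul_pos (K.S_pos _ (by linarith) (by linarith)) (K.S_pos x h0 h.le)) (K.σ_pos x h0 h)

theorem ATq_cont {T : Trig} {g : ℝ} (K : KData T g) {x : ℝ} (h0 : 0 ≤ x) (h : x < g) :
    ContinuousAt (ATq K) x := by
  obtain ⟨h1, h2, h3⟩ := AT_ds K.σ_smooth.continuous K.σ_deriv (AT_σ0 K)
  obtain ⟨k1, k2, k3⟩ := AT_ds T.contS (T.C_zero ▸ T.dS 0) T.S_zero
  have e : ATq K = fun x => dslope K.σ 0 x / dslope T.S 0 x := funext fun y => by
    unfold ATq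
    split_ifs with hy
    · rw [hy, h2, k2, div_one]
    · rw [h3 y hy, k3 y hy, div_div_div_cancel_right₀ hy]
  rw [e]
  refine h1.continuousAt.div k1.continuousAt ?_
  rcases h0.eq_or_lt with rfl | hx
  · rw [k2]; exact one_ne_zero
  · rw [k3 x hx.ne']
    exact (div_pos (K.S_pos x hx h.le) hx).ne'

theorem ATk_cont {T : Trig} {g : ℝ} (K : KData T g) {x : ℝ} (h0 : 0 < x) (h : x < g) :
    ContinuousAt (ATk K) x :=
  ((T.contS.comp (by fun_prop)).mul T.contS).continuousAt.div K.σ_smooth.continuous.continuousAt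
    (K.σ_pos x h0 h).ne'

/-- The explicit product. -/
noncomputable def ATQ {T : Trig} {g : ℝ} (K : KData T g) {N : ℕ} (u v : Fin N → ℝ) : ℝ :=
  (∏ i, ∏ j, ATk K (u i + v j)) * ∏ i, ∏ j ∈ Ioi i, (ATq K (u i - u j) * ATq K (v i - v j))

theorem AT_Zt {T : Trig} {g : ℝ} (K : KData T g) {N : ℕ} (u v : Fin N → ℝ)
    (h : ∀ i j, 0 < u i + v j ∧ u i + v j < g)
    (hu : ∀ i j, i < j → 0 < u i - u j ∧ u i - u j < g)
    (hv : ∀ i j, i < j → 0 < v i - v j ∧ v i - v j < g) :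
    ∃ W : ℝ, 0 < W ∧
      Zt T g u v = W * (Matrix.of fun i j => ∫ x, Real.exp ((u i + v j) * x) * K.ρ x ∂K.μ).det ∧
      W * (Matrix.of fun i j => ∫ x, Real.exp ((u i + v j) * x) ∂K.μ).det =
        K.τ (∑ i, u i + ∑ j, v j) / K.τ 0 * ATQ K u v := by
  have hne : ∀ w : Fin N → ℝ, (∀ i j, i < j → 0 < w i - w j ∧ w i - w j < g) →
      ∀ i j, i ≠ j → T.S (w i - w j) ≠ 0 := by
    intro w hw i j hij
    rcases hij.lt_or_gt with l | l
    · exact (K.S_pos _ (hw i j l).1 (hw i j l).2.le).ne'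
    · rw [← neg_sub, T.S_neg]
      exact neg_ne_zero.2 (K.S_pos _ (hw j i l).1 (hw j i l).2.le).ne'
  have hb : ∀ i j, 0 < T.S (u i + v j) := fun i j => K.S_pos _ (h i j).1 (h i j).2.le
  have ha : ∀ i j, 0 < T.S (g - (u i + v j)) := fun i j =>
    K.S_pos _ (by linarith [(h i j).2]) (by linarith [(h i j).1])
  have I := ik_det T g u v (hne u hu) (hne v hv) (fun i j => (hb i j).ne') fun i j => (ha i j).ne'
  have e2 : ∏ i, ∏ j ∈ Ioi i, (T.S (u j - u i) * T.S (v j - v i)) =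
      ∏ i, ∏ j ∈ Ioi i, (T.S (u i - u j) * T.S (v i - v j)) :=
    prod_congr rfl fun i _ => prod_congr rfl fun j _ => by
      rw [← neg_sub (u i), ← neg_sub (v i), T.S_neg, T.S_neg, neg_mul_neg]
  have hP : 0 < ∏ i, ∏ j ∈ Ioi i, (T.S (u i - u j) * T.S (v i - v j)) :=
    prod_pos fun i _ => prod_pos fun j hj =>
      mul_pos (K.S_pos _ (hu i j (mem_Ioi.1 hj)).1 (hu i j (mem_Ioi.1 hj)).2.le)
        (K.S_pos _ (hv i j (mem_Ioi.1 hj)).1 (hv i j (mem_Ioi.1 hj)).2.le)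
  have hA : 0 < ∏ i, ∏ j, (T.S (g - (u i + v j)) * T.S (u i + v j)) :=
    prod_pos fun i _ => prod_pos fun j _ => mul_pos (ha i j) (hb i j)
  refine ⟨(∏ i, ∏ j, (T.S (g - (u i + v j)) * T.S (u i + v j))) /
    ∏ i, ∏ j ∈ Ioi i, (T.S (u i - u j) * T.S (v i - v j)), div_pos hA hP, ?_, ?_⟩
  · rw [div_mul_eq_mul_div, eq_div_iff hP.ne', ← e2, I]
    congr 2
    ext i j
    rw [Matrix.of_apply, Matrix.of_apply, K.lap _ (h i j).1 (h i j).2]
  · have e3 : ∏ i, ∏ j ∈ Ioi i, (ATq K (u i - u j) * ATq K (v i - v j)) =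
        (∏ i, ∏ j ∈ Ioi i, (K.σ (u i - u j) * K.σ (v i - v j))) /
          ∏ i, ∏ j ∈ Ioi i, (T.S (u i - u j) * T.S (v i - v j)) := by
      rw [← prod_div_distrib]
      refine prod_congr rfl fun i _ => ?_
      rw [← prod_div_distrib]
      refine prod_congr rfl fun j hj => ?_
      rw [ATq, ATq, if_neg (hu i j (mem_Ioi.1 hj)).1.ne', if_neg (hv i j (mem_Ioi.1 hj)).1.ne',
        mul_div_mul_comm]
    have e4 : ∏ i, ∏ j, ATk K (u i + v j) =
        (∏ i, ∏ j, (T.S (g - (u i + v j)) * T.S (u i + v j))) / ∏ i, ∏ j, K.σ (u i + v j) := by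
      simp only [ATk, prod_div_distrib]
    rw [AT_det0 K u v h, ATQ, e3, e4]
    ring

theorem AT_good {g u0 ξ ν e : ℝ} {n : ℕ} (hu : 0 < u0) (hξ : 0 ≤ ξ) (hν : 0 ≤ ν) (he : 0 < e)
    (hg : u0 + ξ + ν + 2 * (n * e) < g) :
    (∀ i j, 0 < u0 + nd n e ξ i + nd n e ν j ∧ u0 + nd n e ξ i + nd n e ν j < g) ∧
    (∀ i j, i < j → 0 < nd n e ξ i - nd n e ξ j ∧ nd n e ξ i - nd n e ξ j < g) ∧
    (∀ i j, i < j → 0 < nd n e ν i - nd n e ν j ∧ nd n e ν i - nd n e ν j < g) := by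
  have hn : (0 : ℝ) ≤ n * e := by positivity
  refine ⟨fun i j => ?_, fun i j l => ?_, fun i j l => ?_⟩
  · have a := AT_nd he hξ i
    have b := AT_nd he hν j
    constructor <;> linarith only [hu, a, b, hg, a.1, a.2, b.1, b.2]
  · have a := AT_nd he hξ i
    have b := AT_nd he hξ j
    exact ⟨sub_pos.2 (AT_nd_lt he hξ l), by linarith only [hu, hν, hg, hn, a, b, a.1, a.2, b.1, b.2]⟩
  · have a := AT_nd he hν i
    have b := AT_nd he hν j
    exact ⟨sub_pos.2 (AT_nd_lt he hν l), by linarith [a.1, a.2, b.1, b.2]⟩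

theorem AT_nd_lim (n : ℕ) (ξ : ℝ) (i : Fin (n + 1)) :
    Tendsto (fun e => nd n e ξ i) (𝓝[>] 0) (𝓝 (sp n ξ i)) := by
  have h : Continuous fun e => nd n e ξ i := by unfold nd; fun_prop
  have e : nd n 0 ξ i = sp n ξ i := by
    refine Fin.cases ?_ (fun k => ?_) i <;> simp [nd, sp]
  exact e ▸ (h.tendsto 0).mono_left nhdsWithin_le_nhds

theorem AT_sp {n : ℕ} {ξ : ℝ} (hξ : 0 ≤ ξ) (i : Fin (n + 1)) : 0 ≤ sp n ξ i ∧ sp n ξ i ≤ ξ := by
  refine Fin.cases ?_ (fun k => ?_) i <;> simp [sp, hξ]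

theorem AT_sp_le {n : ℕ} {ξ : ℝ} (hξ : 0 ≤ ξ) {i j : Fin (n + 1)} (l : i < j) :
    0 ≤ sp n ξ i - sp n ξ j ∧ sp n ξ i - sp n ξ j ≤ ξ := by
  obtain ⟨k, rfl⟩ := Fin.exists_succ_eq.2 (lt_of_le_of_lt (Fin.zero_le i) l).ne'
  simpa [sp] using AT_sp hξ i

theorem ATQ_lim {T : Trig} {g : ℝ} (K : KData T g) {u0 ξ ν : ℝ} (hu : 0 < u0) (hξ : 0 ≤ ξ)
    (hν : 0 ≤ ν) (hg : u0 + ξ + ν < g) (n : ℕ) :
    Tendsto (fun e => ATQ K (fun i => u0 + nd n e ξ i) (nd n e ν)) (𝓝[>] 0)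
      (𝓝 (ATQ K (fun i => u0 + sp n ξ i) (sp n ν))) := by
  refine Tendsto.mul (tendsto_finsetProd _ fun i _ => tendsto_finsetProd _ fun j _ => ?_)
    (tendsto_finsetProd _ fun i _ => tendsto_finsetProd _ fun j hj => Tendsto.mul ?_ ?_)
  · have a := AT_sp hξ i
    have b := AT_sp hν j
    exact (ATk_cont K (by linarith only [hu, a, b, a.1, b.1]) (by linarith [a.2, b.2])).tendsto.comp
      (((AT_nd_lim n ξ i).const_add u0).add (AT_nd_lim n ν j))
  · have a := AT_sp_le hξ (mem_Ioi.1 hj)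
    exact (ATq_cont K (by linarith [a.1]) (by linarith only [hu, hν, hg, a, a.2])).tendsto.comp
      (((AT_nd_lim n ξ i).const_add u0).sub ((AT_nd_lim n ξ j).const_add u0))
  · have a := AT_sp_le hν (mem_Ioi.1 hj)
    exact (ATq_cont K a.1 (by linarith [a.2])).tendsto.comp
      ((AT_nd_lim n ν i).sub (AT_nd_lim n ν j))

theorem ATQ_val {T : Trig} {g : ℝ} (K : KData T g) {u0 ξ ν : ℝ} (hu : 0 < u0) (hξ : 0 ≤ ξ)
    (hν : 0 ≤ ν) (hg : u0 + ξ + ν < g) (n : ℕ) :
    ATQ K (fun i => u0 + sp n ξ i) (sp n ν) = ATk K (u0 + ξ + ν) *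
      Real.exp (n * (K.Λ u0 ξ + K.Λ u0 ν) + (n : ℝ) ^ 2 * K.Λ u0 0) := by
  have q0 : ATq K 0 = 1 := if_pos rfl
  have hΛ : ∀ x, 0 ≤ x → u0 + x < g → Real.exp (K.Λ u0 x) = ATk K (u0 + x) * ATq K x :=
    fun x h h' => Real.exp_log (mul_pos (ATk_pos K (by linarith) h') (ATq_pos K h (by linarith)))
  rw [Real.exp_add, sq, mul_assoc (n : ℝ), Real.exp_nat_mul, Real.exp_nat_mul, Real.exp_nat_mul,
    Real.exp_add, hΛ ξ hξ (by linarith), hΛ ν hν (by linarith), hΛ 0 le_rfl (by linarith), ATQ]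
  simp only [Fin.prod_univ_succ, Fin.prod_Ioi_zero, Fin.prod_Ioi_succ, sp, Fin.cons_zero,
    Fin.cons_succ, add_zero, sub_zero, sub_self, add_sub_cancel_left, q0, mul_one, prod_const,
    card_univ, Fintype.card_fin, one_pow, mul_pow]
  ring

theorem AT_Z_lim (T : Trig) (g u0 : ℝ) (n : ℕ) (ξ ν : ℝ) :
    Tendsto (fun e => Zt T g (fun i => u0 + nd n e ξ i) (nd n e ν)) (𝓝[>] 0)
      (𝓝 (Zs T g u0 n ξ ν)) := by
  have h1 : Tendsto (fun e => ((fun i => u0 + nd n e ξ i, nd n e ν) :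
      (Fin (n + 1) → ℝ) × (Fin (n + 1) → ℝ))) (𝓝[>] 0) (𝓝 (fun i => u0 + sp n ξ i, sp n ν)) :=
    (tendsto_pi_nhds.2 fun i => (AT_nd_lim n ξ i).const_add u0).prodMk_nhds
      (tendsto_pi_nhds.2 (AT_nd_lim n ν))
  have h2 := ((Zt_cont T g).tendsto (fun i => u0 + sp n ξ i, sp n ν)).comp h1
  simpa only [Function.comp_def, Zs] using h2

theorem AT_Zs_pos {T : Trig} {g : ℝ} (K : KData T g) {u0 ξ ν : ℝ} (hu : 0 < u0) (hξ : 0 ≤ ξ)
    (hν : 0 ≤ ν) (hg : u0 + ξ + ν < g) (n : ℕ) : 0 < Zs T g u0 n ξ ν := by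
  refine Zt_pos T g _ _ (K.S_pos g K.g_pos le_rfl) (fun i j => ?_) fun i j => ?_ <;>
  · have a := AT_sp hξ i
    have b := AT_sp hν j
    exact K.S_pos _ (by linarith only [hg, a, b, hu, a.1, a.2, b.1, b.2]) (by linarith only [hu, a, b, hg, a.1, a.2, b.1, b.2])

theorem at_low {T : Trig} {g : ℝ} (K : KData T g) {u0 ξ ν : ℝ} (hu : 0 < u0) (hξ : 0 ≤ ξ)
    (hν : 0 ≤ ν) (hg : u0 + ξ + ν < g) :
    ∃ c : ℝ, 0 < c ∧ ∀ n : ℕ, ∀ᶠ e in 𝓝[>] (0 : ℝ),
      c ^ ((n + 1) ^ 2) * (vnd n e ξ * vnd n e ν) ≤ (Matrix.of fun i j =>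
        ∫ x, Real.exp ((u0 + nd n e ξ i + nd n e ν j) * x) ∂K.μ).det := by
  obtain ⟨m, Mτ, hm, hτ⟩ := K.τ_bd
  set G := (u0 + ξ + ν + g) / 2 with hG
  obtain ⟨c, hc, hc1, hlow⟩ := AT_σ_low K (G := G) (by linarith only [hu, hξ, hν, hg, hG]) (by linarith only [hg, hG])
  obtain ⟨M0, hM0⟩ := (isCompact_Icc (a := (0 : ℝ)) (b := G)).bddAbove_image
    K.σ_smooth.continuous.continuousOn
  have hMτ : 0 < Mτ := hm.trans_le ((hτ 0).1.trans (hτ 0).2)
  have hM : 0 < max M0 1 := lt_max_of_lt_right one_pos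
  refine ⟨m / Mτ * (c * c) / max M0 1, by positivity, fun n => ?_⟩
  filter_upwards [AT_small n (d := G - (u0 + ξ + ν)) (by linarith only [hg, hG])] with e he
  obtain ⟨g1, g2, g3⟩ := AT_good (g := G) (n := n) hu hξ hν he.1 (by linarith only [he, he.2])
  have hσ : ∀ i j, 0 < K.σ (u0 + nd n e ξ i + nd n e ν j) := fun i j =>
    K.σ_pos _ (g1 i j).1 (by linarith only [hg, hG, g1, (g1 i j).2])
  rw [AT_det0 K (fun i => u0 + nd n e ξ i) (nd n e ν) fun i j =>
    ⟨(g1 i j).1, by linarith only [hg, hG, g1, (g1 i j).2]⟩, div_pow, mul_pow, div_mul_eq_mul_div, mul_assoc]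
  have hv : 0 ≤ vnd n e ξ * vnd n e ν :=
    mul_nonneg (prod_nonneg fun i _ => prod_nonneg fun j hj => (g2 i j (mem_Ioi.1 hj)).1.le)
      (prod_nonneg fun i _ => prod_nonneg fun j hj => (g3 i j (mem_Ioi.1 hj)).1.le)
  have a1 : (m / Mτ) ^ ((n + 1) ^ 2) ≤
      K.τ (∑ i, (u0 + nd n e ξ i) + ∑ j, nd n e ν j) / K.τ 0 :=
    (pow_le_of_le_one (by positivity) ((div_le_one hMτ).2 ((hτ 0).1.trans (hτ 0).2))
      (by positivity)).trans (div_le_div₀ (hm.le.trans (hτ _).1) (hτ _).1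
        (hm.trans_le (hτ 0).1) (hτ 0).2)
  have a2 : (c * c) ^ ((n + 1) ^ 2) * (vnd n e ξ * vnd n e ν) ≤ ∏ i, ∏ j ∈ Ioi i,
      (K.σ (u0 + nd n e ξ i - (u0 + nd n e ξ j)) * K.σ (nd n e ν i - nd n e ν j)) := by
    have b1 : (c * c) ^ ((n + 1) ^ 2) ≤ ∏ i : Fin (n + 1), ∏ _j ∈ Ioi i, (c * c) := by
      calc (c * c) ^ ((n + 1) ^ 2) = ∏ _i : Fin (n + 1), (c * c) ^ (n + 1) := by
            rw [prod_const, card_univ, Fintype.card_fin, ← pow_mul, sq]
        _ ≤ _ := prod_le_prod (fun i _ => by positivity) fun i _ => by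
            rw [prod_const]
            exact pow_le_pow_of_le_one (by positivity) (by linarith only [hc1, hc, mul_nonneg_of_nonpos_of_nonpos (le_of_lt (Mathlib.Tactic.Linarith.sub_neg_of_lt hc)) (Mathlib.Tactic.Linarith.sub_nonpos_of_le hc1)])
              ((card_le_univ _).trans_eq (Fintype.card_fin _))
    refine (mul_le_mul_of_nonneg_right b1 hv).trans ?_
    rw [vnd, vnd, ← prod_mul_distrib, ← prod_mul_distrib]
    simp only [← prod_mul_distrib]
    refine prod_le_prod (fun i _ => prod_nonneg fun j hj => ?_) fun i _ =>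
      prod_le_prod (fun j hj => ?_) fun j hj => ?_
    iterate 2
      exact mul_nonneg (by positivity)
        (mul_pos (g2 i j (mem_Ioi.1 hj)).1 (g3 i j (mem_Ioi.1 hj)).1).le
    have p := g2 i j (mem_Ioi.1 hj)
    have q := g3 i j (mem_Ioi.1 hj)
    rw [add_sub_add_left_eq_sub, mul_mul_mul_comm]
    exact mul_le_mul (hlow _ p.1 p.2.le) (hlow _ q.1 q.2.le) (mul_pos hc q.1).le
      (K.σ_pos _ p.1 (by linarith only [hg, hG, p, p.2])).le
  have a3 : ∏ i, ∏ j, K.σ (u0 + nd n e ξ i + nd n e ν j) ≤ max M0 1 ^ ((n + 1) ^ 2) := by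
    calc _ ≤ ∏ _i : Fin (n + 1), ∏ _j : Fin (n + 1), max M0 1 :=
          prod_le_prod (fun i _ => prod_nonneg fun j _ => (hσ i j).le) fun i _ =>
            prod_le_prod (fun j _ => (hσ i j).le) fun j _ =>
              (hM0 ⟨_, ⟨(g1 i j).1.le, (g1 i j).2.le⟩, rfl⟩).trans (le_max_left _ _)
      _ = _ := by simp only [prod_const, card_univ, Fintype.card_fin, ← pow_mul, sq]
  have hl : 0 ≤ (c * c) ^ ((n + 1) ^ 2) * (vnd n e ξ * vnd n e ν) := mul_nonneg (by positivity) hv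
  have hr : 0 ≤ (m / Mτ) ^ ((n + 1) ^ 2) := by positivity
  exact div_le_div₀ (mul_nonneg (hr.trans a1) (hl.trans a2)) (mul_le_mul a1 a2 hl (hr.trans a1))
    (prod_pos fun i _ => prod_pos fun j _ => hσ i j) a3

theorem at_log {T : Trig} {g : ℝ} (K : KData T g) {u0 ξ ν : ℝ} (hu : 0 < u0) (hξ : 0 ≤ ξ)
    (hν : 0 ≤ ν) (hg : u0 + ξ + ν < g) :
    Tendsto (fun n : ℕ => (Real.log (Zs T g u0 n ξ ν) - (n : ℝ) ^ 2 * K.Λ u0 0) / n) atTop
      (𝓝 (K.Λ u0 ξ + K.Λ u0 ν)) := by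
  obtain ⟨m, M, hm, hτ⟩ := K.τ_bd
  have hM : 0 < M := hm.trans_le ((hτ 0).1.trans (hτ 0).2)
  have hk := ATk_pos K (x := u0 + ξ + ν) (by linarith) hg
  have := K.sf
  rw [Metric.tendsto_nhds]
  intro δ hδ
  have hC : ∀ C : ℝ, ∀ᶠ n : ℕ in atTop, C / n < δ / 2 := fun C =>
    (tendsto_const_div_atTop_nhds_zero_nat C).eventually (gt_mem_nhds (half_pos hδ))
  filter_upwards [det_compare K.μ K.ρ hu hξ hν hg (half_pos hδ) K.int K.ρ_meas K.ρ_bd K.ρ_lim
    (at_low K hu hξ hν hg), hC (Real.log (M / m * ATk K (u0 + ξ + ν))),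
    hC (-Real.log (m / M * ATk K (u0 + ξ + ν))), eventually_gt_atTop 0] with n hn c1 c2 n0
  have hZ := AT_Z_lim T g u0 n ξ ν
  have hQ := ATQ_lim K hu hξ hν hg n
  have hQ0 : 0 < ATQ K (fun i => u0 + sp n ξ i) (sp n ν) := by
    rw [ATQ_val K hu hξ hν hg]
    positivity
  have key : ∀ᶠ e in 𝓝[>] (0 : ℝ),
      Real.exp (-(δ / 2 * n)) * (m / M * ATQ K (fun i => u0 + nd n e ξ i) (nd n e ν)) ≤
        Zt T g (fun i => u0 + nd n e ξ i) (nd n e ν) ∧
      Zt T g (fun i => u0 + nd n e ξ i) (nd n e ν) ≤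
        Real.exp (δ / 2 * n) * (M / m * ATQ K (fun i => u0 + nd n e ξ i) (nd n e ν)) := by
    filter_upwards [hn, AT_small n (d := g - (u0 + ξ + ν)) (by linarith only [hg]),
      hQ.eventually (lt_mem_nhds hQ0)] with e h he hq
    obtain ⟨g1, g2, g3⟩ := AT_good (g := g) (n := n) hu hξ hν he.1 (by linarith only [he, he.2])
    obtain ⟨W, hW, e1, e2⟩ := AT_Zt K (fun i => u0 + nd n e ξ i) (nd n e ν) g1
      (fun i j l => by simpa only [add_sub_add_left_eq_sub] using g2 i j l) g3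
    have r1 : m / M ≤ K.τ (∑ i, (u0 + nd n e ξ i) + ∑ j, nd n e ν j) / K.τ 0 :=
      div_le_div₀ (hm.le.trans (hτ _).1) (hτ _).1 (hm.trans_le (hτ 0).1) (hτ 0).2
    have r2 : K.τ (∑ i, (u0 + nd n e ξ i) + ∑ j, nd n e ν j) / K.τ 0 ≤ M / m :=
      div_le_div₀ hM.le (hτ _).2 hm (hτ 0).1
    rw [e1]
    constructor
    · refine (mul_le_mul_of_nonneg_left (mul_le_mul_of_nonneg_right r1 hq.le)
        (Real.exp_pos _).le).trans ?_
      rw [← e2, mul_left_comm]
      exact mul_le_mul_of_nonneg_left h.1 hW.le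
    · refine le_trans ?_ (mul_le_mul_of_nonneg_left (mul_le_mul_of_nonneg_right r2 hq.le)
        (Real.exp_pos _).le)
      rw [← e2, mul_left_comm]
      exact mul_le_mul_of_nonneg_left h.2 hW.le
  have l1 := le_of_tendsto_of_tendsto ((hQ.const_mul _).const_mul _) hZ (key.mono fun _ h => h.1)
  have l2 := le_of_tendsto_of_tendsto hZ ((hQ.const_mul _).const_mul _) (key.mono fun _ h => h.2)
  rw [ATQ_val K hu hξ hν hg, ← mul_assoc _ (ATk K _)] at l1 l2
  have l3 := Real.log_le_log (by positivity) l1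
  have l4 := Real.log_le_log (AT_Zs_pos K hu hξ hν hg n) l2
  rw [Real.log_mul (by positivity) (by positivity), Real.log_mul (by positivity) (by positivity),
    Real.log_exp, Real.log_exp] at l3 l4
  have n1 : (0 : ℝ) < n := by exact_mod_cast n0
  rw [div_lt_iff₀ n1] at c1 c2
  rw [Real.dist_eq, abs_sub_lt_iff]
  constructor
  · rw [sub_lt_iff_lt_add, div_lt_iff₀ n1]
    linarith only [c1, l4]
  · rw [sub_lt_comm, lt_div_iff₀ n1]
    linarith only [c2, l3]

theorem at_ratio {T : Trig} {g : ℝ} (K : KData T g) {u0 ξ ν : ℝ} (hu : 0 < u0) (hξ : 0 ≤ ξ)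
    (hν : 0 ≤ ν) (hg : u0 + ξ + ν < g) :
    Tendsto (fun n : ℕ => Real.log (Zs T g u0 n ξ ν / Zh T g u0 n) / n) atTop
      (𝓝 (K.Λ u0 ξ + K.Λ u0 ν)) := by
  have h1 := at_log K hu hξ hν hg
  have hg0 : u0 + 0 + 0 < g := by linarith
  have h2 := at_log K hu le_rfl le_rfl hg0
  have hZ : ∀ n, Zh T g u0 (n + 1) = Zs T g u0 n 0 0 := fun n => by
    have : sp n 0 = fun _ => 0 := funext fun i => by
      refine Fin.cases ?_ (fun k => ?_) i <;> simp [sp]
    simp [Zh, Zs, this]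
  have t1 : Tendsto (fun n : ℕ => 1 / ((n : ℝ) + 1)) atTop (𝓝 0) :=
    tendsto_one_div_add_atTop_nhds_zero_nat
  have h3 : Tendsto (fun n : ℕ => (Real.log (Zh T g u0 n) - (n : ℝ) ^ 2 * K.Λ u0 0) / n) atTop
      (𝓝 0) := by
    rw [← tendsto_add_atTop_iff_nat 1]
    have h4 := (h2.mul (t1.const_sub 1)).sub ((t1.const_sub 2).mul_const (K.Λ u0 0))
    rw [show (K.Λ u0 0 + K.Λ u0 0) * (1 - 0) - (2 - 0) * K.Λ u0 0 = 0 by ring] at h4
    refine h4.congr' ?_
    filter_upwards [eventually_gt_atTop 0] with n n0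
    have n1 : (0 : ℝ) < n := by exact_mod_cast n0
    rw [hZ]
    push_cast
    field_simp
    ring
  have h5 := h1.sub h3
  rw [sub_zero] at h5
  refine h5.congr' ?_
  filter_upwards [eventually_gt_atTop 0] with n n0
  obtain ⟨k, rfl⟩ := Nat.exists_eq_succ_of_ne_zero n0.ne'
  rw [Real.log_div (AT_Zs_pos K hu hξ hν hg _).ne'
    (by rw [Nat.succ_eq_add_one, hZ]; exact (AT_Zs_pos K hu le_rfl le_rfl hg0 _).ne')]
  ring

end Pool.Agent.Work.MP_413ea6_mp
end

-- merged part: Pool.Agent.Work.MP_413ea6_mp.RDef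
section
open Filter Topology Finset Matrix

namespace Pool.Agent.Work.MP_413ea6_mp

/-! The parameter `z`, the limit `r` as a function of the shift `ξ`, and elementary calculus. -/

/-- `t = b / a`. -/
noncomputable def tOf (T : Trig) (g u0 : ℝ) : ℝ := T.S u0 / T.S (g - u0)

/-- `γ = c / a`. -/
noncomputable def γOf (T : Trig) (g u0 : ℝ) : ℝ := T.S g / T.S (g - u0)

noncomputable def zOf (T : Trig) (g u0 ξ : ℝ) : ℝ := tOf T g (u0 + ξ) / tOf T g u0

noncomputable def KData.L {T : Trig} {g : ℝ} (K : KData T g) (u0 ξ : ℝ) : ℝ :=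
  K.Λ u0 ξ - Real.log (T.S (g - (u0 + ξ)))

/-- The limit `r (z (ξ))`. -/
noncomputable def KData.rr {T : Trig} {g : ℝ} (K : KData T g) (u0 ξ : ℝ) : ℝ :=
  deriv (K.L u0) ξ / deriv (fun x => Real.log (zOf T g u0 x)) ξ

theorem RDef_key (T : Trig) (x y e : ℝ) :
    T.S (x + e) * T.S (y + e) - T.S x * T.S y = T.S (x + y + e) * T.S e := by
  rw [T.S_add (x + y), T.S_add x y, T.C_add x y, T.S_add x e, T.S_add y e]
  linear_combination (T.S x * T.S y) * T.pyth e

theorem RDef_smooth (T : Trig) : ContDiff ℝ 2 T.S := by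
  have hS : deriv T.S = T.C := funext fun u => (T.dS u).deriv
  have hC : deriv T.C = fun u => T.κ * T.S u := funext fun u => (T.dC u).deriv
  rw [show (2 : WithTop ℕ∞) = 1 + 1 from rfl, contDiff_succ_iff_deriv, hS, contDiff_one_iff_deriv,
    hC]
  exact ⟨fun u => (T.dS u).differentiableAt, by simp, fun u => (T.dC u).differentiableAt,
    continuous_const.mul T.contS⟩

theorem RDef_sub_one {T : Trig} {g u0 ξ : ℝ} (hS : ∀ u, 0 < u → u ≤ g → 0 < T.S u) (hu : 0 < u0)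
    (hξ : 0 < ξ) (hg : u0 + ξ < g) :
    zOf T g u0 ξ - 1 = T.S g * T.S ξ / (T.S u0 * T.S (g - (u0 + ξ))) := by
  have h1 := hS u0 hu (by linarith)
  have h2 := hS (g - u0) (by linarith) (by linarith)
  have h3 := hS (g - (u0 + ξ)) (by linarith) (by linarith)
  have k := RDef_key T u0 (g - (u0 + ξ)) ξ
  rw [show g - (u0 + ξ) + ξ = g - u0 by ring, show u0 + (g - (u0 + ξ)) + ξ = g by ring] at k
  unfold zOf tOf
  field_simp
  linarith only [k]

theorem RDef_fin {T : Trig} {a b c k A B : ℝ} (ha : 0 < a) (hk : 0 < k) (hA : T.S A = k * a)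
    (hB : T.S B = k * b) (hC : T.S (A + B) = k * c) :
    b / a = tOf T (A + B) B ∧ c / a = γOf T (A + B) B := by
  unfold tOf γOf
  rw [add_sub_cancel_right, hA, hB, hC]
  constructor <;> field_simp

theorem RDef_ang {a b c H : ℝ} (ha : 0 < a) (hb : 0 < b) (hc : 0 < c) (hH : 0 < H)
    (e : H = 4 * b ^ 2 * c ^ 2 - (b ^ 2 + c ^ 2 - a ^ 2) ^ 2) :
    ∃ A : ℝ, 0 < A ∧ A < Real.pi ∧ Real.sin A = √H / (2 * a * b * c) * a ∧
      Real.cos A = (b ^ 2 + c ^ 2 - a ^ 2) / (2 * b * c) := by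
  set D := (b ^ 2 + c ^ 2 - a ^ 2) / (2 * b * c) with hD
  have h1 : 1 - D ^ 2 = H / (2 * b * c) ^ 2 := by
    rw [hD, e]
    field_simp
    ring
  have h2 : D ^ 2 < 1 := by
    have : 0 < H / (2 * b * c) ^ 2 := by positivity
    linarith only [h1, this]
  have h3 := abs_lt.1 ((sq_lt_one_iff_abs_lt_one D).1 h2)
  refine ⟨Real.arccos D, Real.arccos_pos.2 h3.2, Real.arccos_lt_pi.2 h3.1, ?_,
    Real.cos_arccos h3.1.le h3.2.le⟩
  rw [Real.sin_arccos, h1, Real.sqrt_div' _ (by positivity), Real.sqrt_sq (by positivity)]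
  field_simp

theorem RDef_hyp {a b c H : ℝ} (ha : 0 < a) (hb : 0 < b) (hc : 0 < c) (hH : 0 < H)
    (e : H = (b ^ 2 + c ^ 2 - a ^ 2) ^ 2 - 4 * b ^ 2 * c ^ 2) (hac : a < c) :
    ∃ A : ℝ, 0 < A ∧ Real.sinh A = √H / (2 * a * b * c) * a ∧
      Real.cosh A = (b ^ 2 + c ^ 2 - a ^ 2) / (2 * b * c) := by
  have hs := Real.sqrt_pos.2 hH
  refine ⟨Real.arsinh (√H / (2 * a * b * c) * a), Real.arsinh_pos_iff.2 (by positivity),
    Real.sinh_arsinh _, ?_⟩
  have hp : 0 < b ^ 2 + c ^ 2 - a ^ 2 := by linarith only [ha, hac, hb, hc, mul_pos_of_neg_of_neg (Mathlib.Tactic.Linarith.sub_neg_of_lt ha) (Mathlib.Tactic.Linarith.sub_neg_of_lt hac), mul_pos_of_neg_of_neg (Mathlib.Tactic.Linarith.sub_neg_of_lt hb) (Mathlib.Tactic.Linarith.sub_neg_of_lt hb), mul_pos_of_neg_of_neg (Mathlib.Tactic.Linarith.sub_neg_of_lt hc) (Mathlib.Tactic.Linarith.sub_neg_of_lt hac)]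
  rw [Real.cosh_arsinh, Real.sqrt_eq_iff_mul_self_eq (by positivity) (by positivity)]
  have h2 : √H ^ 2 = H := Real.sq_sqrt hH.le
  field_simp
  rw [h2, e]
  ring

theorem exists_param {a b c : ℝ} (ha : 0 < a) (hb : 0 < b) (hc : 0 < c) (h1 : a < b + c)
    (h2 : b < a + c) : ∃ (T : Trig) (g u0 : ℝ), 0 < u0 ∧ u0 < g ∧
      ((T = trigSin ∧ g < Real.pi) ∨ T = trigId ∨ T = trigSinh) ∧
      b / a = tOf T g u0 ∧ c / a = γOf T g u0 := by
  rcases lt_trichotomy c (a + b) with h | h | h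
  · have hH : 0 < (a + b + c) * ((b + c - a) * ((a + c - b) * (a + b - c))) :=
      mul_pos (by linarith) (mul_pos (by linarith) (mul_pos (by linarith) (by linarith)))
    obtain ⟨A, A0, A1, sA, cA⟩ := RDef_ang ha hb hc hH (by ring)
    obtain ⟨B, B0, B1, sB, cB⟩ := RDef_ang hb ha hc hH (by ring)
    generalize (a + b + c) * ((b + c - a) * ((a + c - b) * (a + b - c))) = H at hH sA sB
    have hs := Real.sqrt_pos.2 hH
    have hk : 0 < √H / (2 * a * b * c) := by positivity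
    rw [show 2 * b * a * c = 2 * a * b * c by ring] at sB
    have sC : Real.sin (A + B) = √H / (2 * a * b * c) * c := by
      rw [Real.sin_add, sA, sB, cA, cB]
      field_simp
      ring
    have hlt : A + B < Real.pi := by
      by_contra hn
      have := Real.sin_nonneg_of_nonneg_of_le_pi (x := A + B - Real.pi) (by linarith only [hn]) (by linarith only [A1, B1])
      rw [Real.sin_sub_pi, sC] at this
      have : 0 < √H / (2 * a * b * c) * c := by positivity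
      linarith
    exact ⟨trigSin, A + B, B, B0, by linarith only [A0], Or.inl ⟨rfl, hlt⟩,
      RDef_fin (T := trigSin) ha hk sA sB sC⟩
  · refine ⟨trigId, a + b, b, hb, by linarith, Or.inr (Or.inl rfl), ?_⟩
    exact RDef_fin (T := trigId) (k := 1) ha one_pos (by simp [trigId]) (by simp [trigId])
      (by simp [trigId, h])
  · have hH : 0 < (a + b + c) * ((b + c - a) * ((a + c - b) * (c - a - b))) :=
      mul_pos (by linarith) (mul_pos (by linarith) (mul_pos (by linarith) (by linarith)))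
    obtain ⟨A, A0, sA, cA⟩ := RDef_hyp ha hb hc hH (by ring) (by linarith)
    obtain ⟨B, B0, sB, cB⟩ := RDef_hyp hb ha hc hH (by ring) (by linarith only [ha, h])
    generalize (a + b + c) * ((b + c - a) * ((a + c - b) * (c - a - b))) = H at hH sA sB
    have hs := Real.sqrt_pos.2 hH
    have hk : 0 < √H / (2 * a * b * c) := by positivity
    rw [show 2 * b * a * c = 2 * a * b * c by ring] at sB
    have sC : Real.sinh (A + B) = √H / (2 * a * b * c) * c := by
      rw [Real.sinh_add, sA, sB, cA, cB]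
      field_simp
      ring
    exact ⟨trigSinh, A + B, B, B0, by linarith only [A0], Or.inr (Or.inr rfl),
      RDef_fin (T := trigSinh) ha hk sA sB sC⟩

theorem zOf_gt {T : Trig} {g u0 ξ : ℝ} (hS : ∀ u, 0 < u → u ≤ g → 0 < T.S u) (hu : 0 < u0)
    (hξ : 0 < ξ) (hg : u0 + ξ < g) : 1 < zOf T g u0 ξ := by
  have h1 := hS u0 hu (by linarith)
  have h2 := hS g (by linarith) le_rfl
  have h3 := hS (g - (u0 + ξ)) (by linarith) (by linarith)
  have h4 := hS ξ hξ (by linarith)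
  rw [← sub_pos, RDef_sub_one hS hu hξ hg]
  positivity

theorem zOf_surj {T : Trig} {g u0 z : ℝ} (hS : ∀ u, 0 < u → u ≤ g → 0 < T.S u) (hu : 0 < u0)
    (hug : u0 < g) (hz : 1 < z) : ∃ ξ, 0 < ξ ∧ u0 + ξ < g ∧ zOf T g u0 ξ = z := by
  have h1 := hS u0 hu hug.le
  have h2 := hS g (by linarith) le_rfl
  have h3 := hS (g - u0) (by linarith) (by linarith)
  have hc : Continuous fun x => T.S (g - u0) * T.S (u0 + x) - z * T.S u0 * T.S (g - (u0 + x)) :=
    (continuous_const.mul (T.contS.comp (by fun_prop))).sub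
      (continuous_const.mul (T.contS.comp (by fun_prop)))
  obtain ⟨x, hx, e⟩ := intermediate_value_Ioo (a := 0) (b := g - u0) (by linarith) hc.continuousOn
    (show (0 : ℝ) ∈ _ from ⟨by
      simp only [add_zero]
      linarith only [h1, h3, hz, mul_pos (mul_pos h1 h3) (sub_pos.2 hz)], by
      simp only [add_sub_cancel, sub_self, T.S_zero, mul_zero, sub_zero]
      positivity⟩)
  have h4 := hS (g - (u0 + x)) (by linarith [hx.2]) (by linarith [hx.1])
  refine ⟨x, hx.1, by linarith [hx.2], ?_⟩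
  unfold zOf tOf
  simp only at e
  field_simp
  linarith only [e]

theorem logz_deriv {T : Trig} {g u0 ξ : ℝ} (hS : ∀ u, 0 < u → u ≤ g → 0 < T.S u) (hu : 0 < u0)
    (hug : u0 < g) (hξ : 0 < u0 + ξ) (hg : u0 + ξ < g) :
    HasDerivAt (fun x => Real.log (zOf T g u0 x))
      (T.S g / (T.S (g - (u0 + ξ)) * T.S (u0 + ξ))) ξ := by
  have h1 := hS u0 hu hug.le
  have h3 := hS (g - u0) (by linarith) (by linarith)
  have h4 := hS (g - (u0 + ξ)) (by linarith) (by linarith)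
  have h5 := hS (u0 + ξ) hξ hg.le
  have d1 : HasDerivAt (fun x => T.S (u0 + x)) (T.C (u0 + ξ) * 1) ξ :=
    (T.dS _).comp ξ ((hasDerivAt_id' ξ).const_add u0)
  have d2 : HasDerivAt (fun x => T.S (g - (u0 + x))) (T.C (g - (u0 + ξ)) * -1) ξ :=
    (T.dS _).comp ξ (((hasDerivAt_id' ξ).const_add u0).const_sub g)
  have d3 := ((d1.fun_div d2 h4.ne').div_const (T.S u0 / T.S (g - u0))).log (by positivity)
  have k := T.S_add (g - (u0 + ξ)) (u0 + ξ)
  rw [sub_add_cancel] at k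
  refine d3.congr_deriv ?_
  rw [k]
  field_simp
  ring

theorem rho_zOf {T : Trig} {g u0 ξ : ℝ} (hS : ∀ u, 0 < u → u ≤ g → 0 < T.S u) (hu : 0 < u0)
    (hξ : 0 < ξ) (hg : u0 + ξ < g) :
    rho (tOf T g u0) (γOf T g u0) (zOf T g u0 ξ) = T.S (g - ξ) / T.S ξ := by
  have h1 := hS u0 hu (by linarith)
  have h2 := hS g (by linarith) le_rfl
  have h3 := hS (g - (u0 + ξ)) (by linarith) (by linarith)
  have h4 := hS ξ hξ (by linarith)
  have h5 := hS (g - u0) (by linarith) (by linarith)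
  have k := RDef_key T u0 ξ (g - (u0 + ξ))
  rw [show u0 + (g - (u0 + ξ)) = g - ξ by ring, show ξ + (g - (u0 + ξ)) = g - u0 by ring,
    add_sub_cancel] at k
  rw [rho, RDef_sub_one hS hu hξ hg]
  unfold tOf γOf
  field_simp
  linarith only [k]

theorem L_diff {T : Trig} {g : ℝ} (K : KData T g) {u0 ξ : ℝ} (hu : 0 < u0) (hξ : 0 < ξ)
    (hg : u0 + ξ < g) :
    DifferentiableAt ℝ (K.L u0) ξ ∧ DifferentiableAt ℝ (K.rr u0) ξ := by
  have hS := K.S_pos
  have h3 := hS (g - (u0 + ξ)) (by linarith) (by linarith)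
  have h4 := hS ξ hξ (by linarith)
  have h5 := hS (u0 + ξ) (by linarith) hg.le
  have s1 := K.σ_pos ξ hξ (by linarith)
  have s2 := K.σ_pos (u0 + ξ) (by linarith) hg
  have c1 : ContDiffAt ℝ 2 (fun x => T.S (g - (u0 + x))) ξ :=
    ((RDef_smooth T).comp (by fun_prop)).contDiffAt
  have c2 : ContDiffAt ℝ 2 (fun x => T.S (u0 + x)) ξ :=
    ((RDef_smooth T).comp (by fun_prop)).contDiffAt
  have c3 : ContDiffAt ℝ 2 (fun x => K.σ (u0 + x)) ξ :=
    (K.σ_smooth.comp (by fun_prop)).contDiffAt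
  have c4 : ContDiffAt ℝ 2 (K.L u0) ξ := by
    refine (((((c1.mul c2).div c3 s2.ne').mul (K.σ_smooth.contDiffAt.div
      (RDef_smooth T).contDiffAt h4.ne')).log
      (mul_pos (div_pos (mul_pos h3 h5) s2) (div_pos s1 h4)).ne').sub
      (c1.log h3.ne')).congr_of_eventuallyEq ?_
    filter_upwards [lt_mem_nhds hξ] with x hx
    simp only [KData.L, KData.Λ, if_neg hx.ne', Pi.div_apply]
  refine ⟨c4.differentiableAt (by simp), ?_⟩
  have c5 : DifferentiableAt ℝ (deriv (K.L u0)) ξ :=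
    (c4.derivWithin (m := 1) (by norm_num)).differentiableAt (by simp)
  have h2 := hS g (by linarith) le_rfl
  have c6 : DifferentiableAt ℝ (fun x => deriv (K.L u0) x /
      (T.S g / (T.S (g - (u0 + x)) * T.S (u0 + x)))) ξ :=
    c5.fun_div ((differentiableAt_const _).fun_div ((c1.mul c2).differentiableAt (by simp))
      (by positivity)) (by positivity)
  refine c6.congr_of_eventuallyEq ?_
  filter_upwards [lt_mem_nhds hξ, gt_mem_nhds (show ξ < g - u0 by linarith)] with x hx hx'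
  rw [KData.rr, (logz_deriv hS hu (by linarith) (by linarith) (by linarith)).deriv]

theorem Λ_symm {T : Trig} {g : ℝ} (K : KData T g) {u0 ξ : ℝ} (hu : 0 < u0) (hξ : 0 < ξ)
    (hg : u0 + ξ < g) : K.Λ u0 ξ + K.Λ u0 (g - u0 - ξ) =
      Real.log (T.S (u0 + ξ)) + Real.log (T.S (g - ξ)) := by
  have hS := K.S_pos
  have h3 := hS (g - (u0 + ξ)) (by linarith) (by linarith)
  have h4 := hS ξ hξ (by linarith)
  have h5 := hS (u0 + ξ) (by linarith) hg.le
  have h6 := hS (g - ξ) (by linarith) (by linarith)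
  have s1 := K.σ_pos ξ hξ (by linarith)
  have s2 := K.σ_pos (u0 + ξ) (by linarith) hg
  have e1 : g - u0 - ξ = g - (u0 + ξ) := by ring
  have e2 : u0 + (g - (u0 + ξ)) = g - ξ := by ring
  rw [KData.Λ, KData.Λ, if_neg hξ.ne', e1, if_neg (by linarith), e2, K.σ_symm, K.σ_symm,
    sub_sub_cancel, ← Real.log_mul (by positivity) (by positivity),
    ← Real.log_mul h5.ne' h6.ne']
  congr 1
  field_simp

theorem exists_r {T : Trig} {g : ℝ} (K : KData T g) {u0 : ℝ} (hu : 0 < u0) (hug : u0 < g) :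
    ∃ r : ℝ → ℝ, (∀ ξ, 0 < ξ → u0 + ξ < g → r (zOf T g u0 ξ) = K.rr u0 ξ) ∧
      ∀ z, 1 < z → DifferentiableAt ℝ r z := by
  have hS := K.S_pos
  have hpos : ∀ w, 0 < w → w < g → 0 < tOf T g w := fun w h h' =>
    div_pos (hS w h h'.le) (hS _ (by linarith) (by linarith))
  have hlt : ∀ x y, 0 < x → x < y → u0 + y < g → zOf T g u0 x < zOf T g u0 y := by
    intro x y hx hxy hy
    have h := zOf_gt (u0 := u0 + x) (ξ := y - x) hS (by linarith) (by linarith) (by linarith)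
    rw [zOf, show u0 + x + (y - x) = u0 + y by ring,
      one_lt_div (hpos _ (by linarith) (by linarith))] at h
    exact div_lt_div_of_pos_right h (hpos _ hu hug)
  have hex : ∀ z : ℝ, ∃ ξ, 1 < z → 0 < ξ ∧ u0 + ξ < g ∧ zOf T g u0 ξ = z := fun z => by
    by_cases hz : 1 < z
    · obtain ⟨ξ, h⟩ := zOf_surj hS hu hug hz
      exact ⟨ξ, fun _ => h⟩
    · exact ⟨0, fun h => absurd h hz⟩
  choose X hX using hex
  have hinv : ∀ ξ, 0 < ξ → u0 + ξ < g → X (zOf T g u0 ξ) = ξ := by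
    intro ξ h h'
    obtain ⟨a, b, c⟩ := hX _ (zOf_gt hS hu h h')
    rcases lt_trichotomy (X (zOf T g u0 ξ)) ξ with l | l | l
    · exact absurd c (hlt _ _ a l h').ne
    · exact l
    · exact absurd c (hlt _ _ h l b).ne'
  refine ⟨fun z => K.rr u0 (X z), fun ξ h h' => by simp only [hinv ξ h h'], fun z hz => ?_⟩
  obtain ⟨a, b, c⟩ := hX z hz
  refine (L_diff K hu a b).2.comp z ?_
  have h3 := hS (g - (u0 + X z)) (by linarith) (by linarith)
  have h5 := hS (u0 + X z) (by linarith) b.le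
  have h2 := hS g (by linarith) le_rfl
  have c1 : ContDiffAt ℝ 2 (zOf T g u0) (X z) :=
    ((((RDef_smooth T).comp (f := fun x => u0 + x) (by fun_prop)).contDiffAt).div
      (((RDef_smooth T).comp (f := fun x => g - (u0 + x)) (by fun_prop)).contDiffAt)
      h3.ne').div_const _
  have c2 := c1.hasStrictDerivAt (by simp)
  have c3 : deriv (zOf T g u0) (X z) ≠ 0 := by
    intro h0
    have := (c2.hasDerivAt.log (by rw [c]; linarith)).unique
      (logz_deriv hS hu hug (by linarith) b)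
    rw [h0, zero_div] at this
    exact absurd this (by positivity : (0 : ℝ) < _).ne
  have c4 := c2.to_local_left_inverse c3 (g := X) (by
    filter_upwards [lt_mem_nhds a, gt_mem_nhds (show X z < g - u0 by linarith)] with x hx hx'
    exact hinv x hx (by linarith))
  rw [c] at c4
  exact c4.hasDerivAt.differentiableAt

end Pool.Agent.Work.MP_413ea6_mp
end

-- merged part: Pool.Agent.Work.MP_413ea6_mp.TailA
section
open Filter Topology Finset Matrix

namespace Pool.Agent.Work.MP_413ea6_mp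

/-! Growth of the partition function with a special row and the conjugate special column. -/

theorem TailA_sign {f : ℝ → ℝ} {f' ξ : ℝ} (h : HasDerivAt f f' ξ) (h0 : 0 < f') :
    (∀ᶠ x in 𝓝[<] ξ, f x < f ξ) ∧ ∀ᶠ x in 𝓝[>] ξ, f ξ < f x := by
  obtain ⟨h1, h2⟩ := hasDerivAt_iff_tendsto_slope_left_right.1 h
  constructor
  · filter_upwards [h1.eventually (lt_mem_nhds h0), self_mem_nhdsWithin] with x hx hlt
    rw [slope_def_field] at hx
    have hneg : x - ξ < 0 := sub_neg.2 hlt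
    have := (div_pos_iff.1 hx).resolve_left fun h => absurd h.2 hneg.not_gt
    linarith only [this, this.1]
  · filter_upwards [h2.eventually (lt_mem_nhds h0), self_mem_nhdsWithin] with x hx hlt
    rw [slope_def_field] at hx
    have hpos : 0 < x - ξ := sub_pos.2 hlt
    have := (div_pos_iff.1 hx).resolve_right fun h => absurd h.2 hpos.not_gt
    linarith [this.1]

theorem TailA_le {a : ℕ → ℝ} {c c' : ℝ}
    (h : Tendsto (fun n : ℕ => Real.log (a n) / n) atTop (𝓝 c)) (hc : c < c') :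
    ∀ᶠ n : ℕ in atTop, a n ≤ Real.exp (n * c') := by
  filter_upwards [h.eventually (gt_mem_nhds hc), eventually_gt_atTop 0] with n hn h0
  have h0' : (0 : ℝ) < n := Nat.cast_pos.2 h0
  rw [div_lt_iff₀ h0'] at hn
  exact (Real.le_exp_log _).trans (Real.exp_le_exp.2 (by linarith only [hn]))

theorem TailA_grow {A B : ℕ → ℝ} {G q q' : ℝ} (hG : 0 < G) (hq : G ≤ q) (hq' : q < q')
    (h : ∀ n, A (n + 1) = G * A n + B n) (hB : ∀ᶠ n in atTop, B n ≤ q ^ n) :
    ∀ᶠ n in atTop, A n ≤ q' ^ n := by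
  obtain ⟨N, hN⟩ := eventually_atTop.1 hB
  have hq0 : 0 < q := hG.trans_le hq
  set C := max (A N / q ^ N) q⁻¹ with hC
  have hC1 : q⁻¹ ≤ C := le_max_right _ _
  have hC0 : 0 < C := (inv_pos.2 hq0).trans_le hC1
  have key : ∀ n, N ≤ n → A n ≤ C * ((n : ℝ) + 1) ^ 1 * q ^ n := by
    intro n hn
    induction n, hn using Nat.le_induction with
    | base =>
      have h1 : A N / q ^ N ≤ C := le_max_left _ _
      rw [div_le_iff₀ (pow_pos hq0 N)] at h1
      refine h1.trans (mul_le_mul_of_nonneg_right ?_ (pow_pos hq0 N).le)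
      have : (0 : ℝ) ≤ N := Nat.cast_nonneg N
      linarith only [hC0, mul_nonneg_of_nonpos_of_nonpos (Mathlib.Tactic.Linarith.sub_nonpos_of_le (Mathlib.Tactic.Linarith.natCast_nonneg ℝ N)) (le_of_lt (Mathlib.Tactic.Linarith.sub_neg_of_lt hC0))]
    | succ n hn ih =>
      have h1 := hN n hn
      have hp := pow_pos hq0 n
      have h2 : 1 ≤ C * q := by
        have := mul_le_mul_of_nonneg_right hC1 hq0.le
        rwa [inv_mul_cancel₀ hq0.ne'] at this
      have h3 : 0 ≤ C * ((n : ℝ) + 1) ^ 1 * q ^ n := by positivity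
      have h4 : G * A n ≤ q * (C * ((n : ℝ) + 1) ^ 1 * q ^ n) :=
        (mul_le_mul_of_nonneg_left ih hG.le).trans (mul_le_mul_of_nonneg_right hq h3)
      have h5 : q ^ n ≤ C * q * q ^ n := le_mul_of_one_le_left hp.le h2
      rw [h]
      push_cast
      calc G * A n + B n ≤ q * (C * ((n : ℝ) + 1) ^ 1 * q ^ n) + C * q * q ^ n := by linarith only [h1, h4, h5]
        _ = C * ((n : ℝ) + 1 + 1) ^ 1 * q ^ (n + 1) := by ring
  filter_upwards [poly_geom hq0 hq' C 1, eventually_ge_atTop N] with n h1 h2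
  exact (key n h2).trans h1

theorem TailA_fin {Z Y s w R : ℝ} (n : ℕ) (hY : 0 < Y) (hs : 0 < s) (hw : 0 < w)
    (h : Z / Y ≤ Real.exp (n * (Real.log s + (R + Real.log w)))) :
    Z / s ^ n ≤ Real.exp (n * R) * (w ^ n * Y) := by
  rw [mul_add, mul_add, Real.exp_add, Real.exp_add, Real.exp_nat_mul, Real.exp_log hs,
    Real.exp_nat_mul (Real.log w), Real.exp_log hw, div_le_iff₀ hY] at h
  rw [div_le_iff₀ (pow_pos hs n)]
  linarith

theorem TailA_Zh {T : Trig} {g u0 : ℝ} (K : KData T g) (hu : 0 < u0) (hg : u0 < g) (n : ℕ) :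
    0 < Zh T g u0 n :=
  Zt_pos T g _ _ (K.S_pos g K.g_pos le_rfl) (fun _ _ => K.S_pos _ (by linarith) (by linarith))
    fun _ _ => K.S_pos _ (by linarith) (by linarith)

theorem TailA_sp (n : ℕ) {x : ℝ} (hx : 0 ≤ x) (s : Fin (n + 1)) : 0 ≤ sp n x s ∧ sp n x s ≤ x := by
  refine Fin.cases ?_ (fun i => ?_) s
  · simp [sp, hx]
  · simp [sp, hx]

theorem TailA_Zs {T : Trig} {g u0 x ν : ℝ} (K : KData T g) (hu : 0 < u0) (hx : 0 ≤ x) (hν : 0 ≤ ν)
    (hg : u0 + x + ν < g) (n : ℕ) : 0 < Zs T g u0 n x ν := by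
  refine Zt_pos T g _ _ (K.S_pos g K.g_pos le_rfl) (fun s r => ?_) fun s r => ?_
  · obtain ⟨h1, h2⟩ := TailA_sp n hx s
    obtain ⟨h3, h4⟩ := TailA_sp n hν r
    exact K.S_pos _ (by linarith) (by linarith)
  · obtain ⟨h1, h2⟩ := TailA_sp n hx s
    obtain ⟨h3, h4⟩ := TailA_sp n hν r
    exact K.S_pos _ (by linarith) (by linarith)

/-- The factor in the recursion. -/
noncomputable def TailA_G (T : Trig) (g u0 x ν : ℝ) : ℝ :=
  T.S (g - (u0 + x)) * T.S (u0 + x) * (T.S (g - (u0 + ν)) * T.S (u0 + ν)) / (T.S x * T.S ν)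

/-- The constant in the inhomogeneous term. -/
noncomputable def TailA_k (T : Trig) (g u0 x ν : ℝ) : ℝ :=
  T.S (g - u0) * T.S u0 * (-T.S (g - (u0 + x + ν)) * T.S (u0 + x + ν)) / (T.S x * T.S ν)

theorem TailA_G_pos {T : Trig} {g u0 x ν : ℝ} (K : KData T g) (hu : 0 < u0) (hx : 0 < x)
    (hν : 0 < ν) (hx' : u0 + x < g) (hν' : u0 + ν < g) : 0 < TailA_G T g u0 x ν := by
  have h1 := K.S_pos (g - (u0 + x)) (by linarith only [hx']) (by linarith)
  have h2 := K.S_pos (u0 + x) (by linarith) (by linarith)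
  have h3 := K.S_pos (g - (u0 + ν)) (by linarith) (by linarith)
  have h4 := K.S_pos (u0 + ν) (by linarith) (by linarith)
  have h5 := K.S_pos x hx (by linarith)
  have h6 := K.S_pos ν hν (by linarith)
  unfold TailA_G
  positivity

theorem TailA_rec {T : Trig} {g u0 x ν : ℝ} (K : KData T g) (hu : 0 < u0) (hx : 0 < x)
    (hν : 0 < ν) (hx' : u0 + x < g) (hν' : u0 + ν < g) (ha : T.S (g - (u0 + x + ν)) ≠ 0)
    (hb : T.S (u0 + x + ν) ≠ 0) (n : ℕ) :
    Zs T g u0 (n + 1) x ν / Zh T g u0 (n + 1) =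
      TailA_G T g u0 x ν * (Zs T g u0 n x ν / Zh T g u0 n) +
        TailA_k T g u0 x ν * (Zs T g u0 n x 0 / Zh T g u0 n) * (Zs T g u0 n 0 ν / Zh T g u0 n) /
          (Zs T g u0 n 0 0 / Zh T g u0 n) := by
  have h := dj T K.S_pos hu hx hν hx' hν' ha hb n
  have h1 := (TailA_Zh K hu (by linarith only [hx, hx']) n).ne'
  have h2 := (TailA_Zh K hu (by linarith) (n + 1)).ne'
  have h5 := (K.S_pos x hx (by linarith)).ne'
  have h6 := (K.S_pos ν hν (by linarith)).ne'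
  rw [Zs_zero]
  unfold TailA_G TailA_k
  field_simp
  linear_combination h

theorem TailA_low {T : Trig} {g u0 x ν : ℝ} (K : KData T g) (hu : 0 < u0) (hx : 0 < x)
    (hν : 0 < ν) (hg : u0 + x + ν < g) :
    K.Λ u0 x + K.Λ u0 ν ≤ Real.log (TailA_G T g u0 x ν) := by
  have hG := TailA_G_pos K hu hx hν (by linarith) (by linarith)
  have ha := K.S_pos (g - (u0 + x + ν)) (by linarith) (by linarith)
  have hb := K.S_pos (u0 + x + ν) (by linarith) (by linarith)
  have hY := TailA_Zh K hu (by linarith)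
  have hk : TailA_k T g u0 x ν ≤ 0 := by
    have h1 := K.S_pos (g - u0) (by linarith) (by linarith)
    have h2 := K.S_pos u0 hu (by linarith)
    have h5 := K.S_pos x hx (by linarith)
    have h6 := K.S_pos ν hν (by linarith)
    unfold TailA_k
    refine div_nonpos_of_nonpos_of_nonneg ?_ (by positivity)
    have : 0 < T.S (g - u0) * T.S u0 * (T.S (g - (u0 + x + ν)) * T.S (u0 + x + ν)) := by positivity
    linarith
  set A : ℕ → ℝ := fun n => Zs T g u0 n x ν / Zh T g u0 n with hA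
  have hA0 : ∀ n, 0 < A n := fun n => div_pos (TailA_Zs K hu hx.le hν.le hg n) (hY n)
  have key : ∀ n, A n ≤ TailA_G T g u0 x ν ^ n * A 0 := by
    intro n
    induction n with
    | zero => simp
    | succ n ih =>
      have h1 := TailA_rec K hu hx hν (by linarith) (by linarith) ha.ne' hb.ne' n
      have p1 := div_pos (TailA_Zs K hu hx.le le_rfl (by linarith only [hν, hg]) n) (hY n)
      have p2 := div_pos (TailA_Zs K hu le_rfl hν.le (by linarith only [hx, hg]) n) (hY n)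
      have p3 := div_pos (TailA_Zs K hu le_rfl le_rfl (by linarith only [hx, hν, hg]) n) (hY n)
      have h2 : TailA_k T g u0 x ν * (Zs T g u0 n x 0 / Zh T g u0 n) *
          (Zs T g u0 n 0 ν / Zh T g u0 n) / (Zs T g u0 n 0 0 / Zh T g u0 n) ≤ 0 :=
        div_nonpos_of_nonpos_of_nonneg
          (mul_nonpos_of_nonpos_of_nonneg (mul_nonpos_of_nonpos_of_nonneg hk p1.le) p2.le) p3.le
      have h3 := mul_le_mul_of_nonneg_left ih hG.le
      calc A (n + 1) ≤ TailA_G T g u0 x ν * A n := by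
            simp only [hA]
            linarith only [h1, h2]
        _ ≤ _ := h3.trans_eq (by ring)
  have h1 := at_ratio K hu hx.le hν.le hg
  have h2 : Tendsto (fun n : ℕ => Real.log (TailA_G T g u0 x ν) + Real.log (A 0) / n) atTop
      (𝓝 (Real.log (TailA_G T g u0 x ν) + 0)) :=
    tendsto_const_nhds.add (tendsto_const_div_atTop_nhds_zero_nat _)
  rw [add_zero] at h2
  refine le_of_tendsto_of_tendsto h1 h2 ?_
  filter_upwards [eventually_gt_atTop 0] with n hn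
  have hn' : (0 : ℝ) < n := Nat.cast_pos.2 hn
  have h3 := Real.log_le_log (hA0 n) (key n)
  rw [Real.log_mul (pow_pos hG n).ne' (hA0 0).ne', Real.log_pow] at h3
  show Real.log (A n) / n ≤ _
  rw [div_le_iff₀ hn', add_mul, div_mul_cancel₀ _ hn'.ne']
  linarith only [h3]

theorem TailA_high {T : Trig} {g u0 x ν c : ℝ} (K : KData T g) (hu : 0 < u0) (hx : 0 < x)
    (hν : 0 < ν) (hx' : u0 + x < g) (hν' : u0 + ν < g) (ha : T.S (g - (u0 + x + ν)) < 0)
    (hb : 0 < T.S (u0 + x + ν)) (h1 : Real.log (TailA_G T g u0 x ν) < c)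
    (h2 : K.Λ u0 x + K.Λ u0 ν < c) :
    ∀ᶠ n : ℕ in atTop, Zs T g u0 n x ν / Zh T g u0 n ≤ Real.exp (n * c) := by
  have hG := TailA_G_pos K hu hx hν hx' hν'
  have hY := TailA_Zh K hu (by linarith)
  have hk : 0 < TailA_k T g u0 x ν := by
    have h1 := K.S_pos (g - u0) (by linarith) (by linarith)
    have h2 := K.S_pos u0 hu (by linarith)
    have h5 := K.S_pos x hx (by linarith)
    have h6 := K.S_pos ν hν (by linarith)
    have h7 := neg_pos.2 ha
    unfold TailA_k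
    positivity
  obtain ⟨c', hc1, hc2⟩ := exists_between (max_lt h1 h2)
  have t1 := at_ratio K hu hx.le le_rfl (by linarith)
  have t2 := at_ratio K hu le_rfl hν.le (by linarith)
  have t3 := at_ratio K hu le_rfl le_rfl (by linarith)
  have t4 := (((tendsto_const_div_atTop_nhds_zero_nat
    (Real.log (TailA_k T g u0 x ν))).add t1).add t2).sub t3
  have t5 : Tendsto (fun n : ℕ => Real.log (TailA_k T g u0 x ν * (Zs T g u0 n x 0 / Zh T g u0 n) *
      (Zs T g u0 n 0 ν / Zh T g u0 n) / (Zs T g u0 n 0 0 / Zh T g u0 n)) / n) atTop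
      (𝓝 (K.Λ u0 x + K.Λ u0 ν)) := by
    convert t4 using 2
    · rename_i n
      have p1 := div_pos (TailA_Zs K hu hx.le le_rfl (by linarith) n) (hY n)
      have p2 := div_pos (TailA_Zs K hu le_rfl hν.le (by linarith) n) (hY n)
      have p3 := div_pos (TailA_Zs K hu le_rfl le_rfl (by linarith) n) (hY n)
      rw [Real.log_div (by positivity) p3.ne', Real.log_mul (by positivity) p2.ne',
        Real.log_mul hk.ne' p1.ne']
      ring
    · ring
  have h3 := TailA_le t5 ((le_max_right _ _).trans_lt hc1)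
  have h4 := TailA_grow (A := fun n => Zs T g u0 n x ν / Zh T g u0 n) (q := Real.exp c')
    (q' := Real.exp c) hG
    ((Real.le_exp_log _).trans (Real.exp_le_exp.2 ((le_max_left _ _).trans hc1.le)))
    (Real.exp_lt_exp.2 hc2) (TailA_rec K hu hx hν hx' hν' ha.ne hb.ne')
    (h3.mono fun n hn => by rwa [Real.exp_nat_mul] at hn)
  exact h4.mono fun n hn => by rwa [Real.exp_nat_mul]

theorem TailA_w {T : Trig} {g : ℝ} (K : KData T g) {u0 ξ : ℝ} (hu : 0 < u0) (hξ : 0 < ξ)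
    (hg : u0 + ξ < g) : 0 < T.S (u0 + ξ) * T.S (g - ξ) / T.S (g - (u0 + ξ)) ∧
      Real.log (T.S (u0 + ξ) * T.S (g - ξ) / T.S (g - (u0 + ξ))) =
        K.L u0 ξ + K.Λ u0 (g - u0 - ξ) := by
  have h1 := K.S_pos (u0 + ξ) (by linarith) (by linarith)
  have h2 := K.S_pos (g - ξ) (by linarith) (by linarith)
  have h3 := K.S_pos (g - (u0 + ξ)) (by linarith) (by linarith)
  refine ⟨by positivity, ?_⟩
  rw [Real.log_div (by positivity) h3.ne', Real.log_mul h1.ne' h2.ne', ← Λ_symm K hu hξ hg, KData.L]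
  ring

theorem TailA_der {T : Trig} {g : ℝ} (K : KData T g) {u0 ξ : ℝ} (hu : 0 < u0) (hξ : 0 < ξ)
    (hg : u0 + ξ < g) : ∃ l' : ℝ, 0 < l' ∧ HasDerivAt (fun x => Real.log (zOf T g u0 x)) l' ξ ∧
      HasDerivAt (K.L u0) (K.rr u0 ξ * l') ξ := by
  have h1 := K.S_pos (u0 + ξ) (by linarith) (by linarith)
  have h2 := K.S_pos g K.g_pos le_rfl
  have h3 := K.S_pos (g - (u0 + ξ)) (by linarith) (by linarith)
  have h4 := logz_deriv K.S_pos hu (by linarith) (by linarith) hg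
  have h5 : 0 < T.S g / (T.S (g - (u0 + ξ)) * T.S (u0 + ξ)) := by positivity
  refine ⟨_, h5, h4, ?_⟩
  rw [KData.rr, h4.deriv, div_mul_cancel₀ _ h5.ne']
  exact (L_diff K hu hξ hg).1.hasDerivAt

theorem Zs_upper_lt {T : Trig} {g : ℝ} (K : KData T g) {u0 ξ η : ℝ} (hu : 0 < u0) (hξ : 0 < ξ)
    (hg : u0 + ξ < g) (hη : 0 < η) : ∀ᶠ x in 𝓝[<] ξ, ∀ᶠ n : ℕ in atTop,
      Zs T g u0 n x (g - u0 - ξ) / T.S (g - (u0 + x)) ^ n ≤
        Real.exp (n * ((K.rr u0 ξ - η) *
          (Real.log (zOf T g u0 x) - Real.log (zOf T g u0 ξ)))) *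
        ((T.S (u0 + ξ) * T.S (g - ξ) / T.S (g - (u0 + ξ))) ^ n * Zh T g u0 n) := by
  obtain ⟨l', hl, d1, d2⟩ := TailA_der K hu hξ hg
  obtain ⟨hw, ew⟩ := TailA_w K hu hξ hg
  have d3 := d2.fun_sub (d1.const_mul (K.rr u0 ξ - η))
  have h1 := (TailA_sign d3 (by linarith only [hη, hl, mul_pos hη hl])).1
  filter_upwards [h1, Ioo_mem_nhdsLT hξ] with x hx hx'
  obtain ⟨hx0, hx1⟩ := hx'
  have t := at_ratio K hu hx0.le (ν := g - u0 - ξ) (by linarith) (by linarith)
  have hs := K.S_pos (g - (u0 + x)) (by linarith) (by linarith)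
  refine (TailA_le t ?_).mono fun n hn => TailA_fin n (TailA_Zh K hu (by linarith only [hg, hx0, hx1]) n) hs hw hn
  rw [ew]
  have e : K.Λ u0 x = K.L u0 x + Real.log (T.S (g - (u0 + x))) := by
    rw [KData.L]
    ring
  rw [e]
  linarith only [hx]

/-- The second candidate for the growth rate. -/
noncomputable def TailA_H (T : Trig) (g u0 ξ x : ℝ) : ℝ :=
  Real.log (T.S (u0 + x)) - Real.log (T.S x) +
    Real.log (T.S ξ * T.S (g - ξ) / T.S (g - (u0 + ξ)))

theorem TailA_logG {T : Trig} {g : ℝ} (K : KData T g) {u0 ξ x : ℝ} (hu : 0 < u0) (hξ : 0 < ξ)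
    (hg : u0 + ξ < g) (hx : 0 < x) (hx' : u0 + x < g) :
    Real.log (TailA_G T g u0 x (g - u0 - ξ)) =
      Real.log (T.S (g - (u0 + x))) + TailA_H T g u0 ξ x := by
  have h1 := K.S_pos (g - (u0 + x)) (by linarith) (by linarith)
  have h2 := K.S_pos (u0 + x) (by linarith) (by linarith)
  have h3 := K.S_pos ξ hξ (by linarith)
  have h4 := K.S_pos (g - ξ) (by linarith only [hu, hg]) (by linarith)
  have h5 := K.S_pos x hx (by linarith)
  have h6 := K.S_pos (g - (u0 + ξ)) (by linarith) (by linarith)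
  have e1 : g - (u0 + (g - u0 - ξ)) = ξ := by ring
  have e2 : u0 + (g - u0 - ξ) = g - ξ := by ring
  have e3 : g - u0 - ξ = g - (u0 + ξ) := by ring
  unfold TailA_G TailA_H
  rw [e1, e2, e3, Real.log_div (by positivity) (by positivity),
    Real.log_div (by positivity) h6.ne', Real.log_mul (by positivity) (by positivity),
    Real.log_mul h1.ne' h2.ne', Real.log_mul h5.ne' h6.ne']
  ring

theorem TailA_H_self {T : Trig} {g : ℝ} (K : KData T g) {u0 ξ : ℝ} (hu : 0 < u0) (hξ : 0 < ξ)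
    (hg : u0 + ξ < g) : TailA_H T g u0 ξ ξ = K.L u0 ξ + K.Λ u0 (g - u0 - ξ) := by
  have h2 := K.S_pos (u0 + ξ) (by linarith) (by linarith)
  have h3 := K.S_pos ξ hξ (by linarith)
  have h4 := K.S_pos (g - ξ) (by linarith) (by linarith)
  have h6 := K.S_pos (g - (u0 + ξ)) (by linarith) (by linarith)
  rw [← (TailA_w K hu hξ hg).2, TailA_H, Real.log_div (by positivity) h6.ne',
    Real.log_div (by positivity) h6.ne', Real.log_mul h3.ne' h4.ne', Real.log_mul h2.ne' h4.ne']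
  ring

theorem TailA_H_der {T : Trig} {g : ℝ} (K : KData T g) {u0 ξ L' : ℝ} (hu : 0 < u0) (hξ : 0 < ξ)
    (hg : u0 + ξ < g) (hL : HasDerivAt (K.L u0) L' ξ) :
    ∃ h' : ℝ, h' ≤ L' ∧ HasDerivAt (TailA_H T g u0 ξ) h' ξ := by
  have h2 := K.S_pos (u0 + ξ) (by linarith) (by linarith)
  have h3 := K.S_pos ξ hξ (by linarith)
  have d1 : HasDerivAt (fun x => T.S (u0 + x)) (T.C (u0 + ξ)) ξ := (T.dS (u0 + ξ)).comp_const_add u0 ξ
  have d2 := ((d1.log h2.ne').fun_sub ((T.dS ξ).log h3.ne')).add_const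
    (Real.log (T.S ξ * T.S (g - ξ) / T.S (g - (u0 + ξ))))
  refine ⟨_, ?_, d2⟩
  by_contra hlt
  have h4 := (TailA_sign (d2.fun_sub hL) (sub_pos.2 (not_le.1 hlt))).1
  obtain ⟨x, hx, hx0, hx1⟩ := (h4.and (Ioo_mem_nhdsLT hξ)).exists
  have h5 := TailA_low K hu hx0 (ν := g - u0 - ξ) (by linarith only [hg]) (by linarith only [hx1])
  rw [TailA_logG K hu hξ hg hx0 (by linarith only [hg, hx1])] at h5
  have h6 := TailA_H_self K hu hξ hg
  have e : K.Λ u0 x = K.L u0 x + Real.log (T.S (g - (u0 + x))) := by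
    rw [KData.L]
    ring
  unfold TailA_H at h5 h6
  linarith only [hx, h5, h6, e]

theorem Zs_upper_gt {T : Trig} {g : ℝ} (K : KData T g) {u0 ξ η : ℝ} (hu : 0 < u0) (hξ : 0 < ξ)
    (hg : u0 + ξ < g) (hη : 0 < η) : ∀ᶠ x in 𝓝[>] ξ, ∀ᶠ n : ℕ in atTop,
      Zs T g u0 n x (g - u0 - ξ) / T.S (g - (u0 + x)) ^ n ≤
        Real.exp (n * ((K.rr u0 ξ + η) *
          (Real.log (zOf T g u0 x) - Real.log (zOf T g u0 ξ)))) *
        ((T.S (u0 + ξ) * T.S (g - ξ) / T.S (g - (u0 + ξ))) ^ n * Zh T g u0 n) := by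
  obtain ⟨l', hl, d1, d2⟩ := TailA_der K hu hξ hg
  obtain ⟨hw, ew⟩ := TailA_w K hu hξ hg
  obtain ⟨h', hh, d4⟩ := TailA_H_der K hu hξ hg d2
  have h1 := (TailA_sign ((d1.const_mul (K.rr u0 ξ + η)).fun_sub d2)
    (by linarith only [hη, hl, mul_pos hη hl])).2
  have h2 := (TailA_sign ((d1.const_mul (K.rr u0 ξ + η)).fun_sub d4)
    (by linarith only [hh, hη, hl, mul_pos hη hl])).2
  have h3 : ∀ᶠ x in 𝓝[>] ξ, 0 < T.S (u0 + x + (g - u0 - ξ)) := by
    have c1 : Continuous fun x => T.S (u0 + x + (g - u0 - ξ)) := T.contS.comp (by fun_prop)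
    refine nhdsWithin_le_nhds (c1.continuousAt.eventually (lt_mem_nhds ?_))
    exact K.S_pos _ (by linarith only [hu, hξ, hg, K.g_pos]) (by linarith)
  have h4 : Set.Ioo ξ (g - u0) ∈ 𝓝[>] ξ := Ioo_mem_nhdsGT (by linarith)
  filter_upwards [h1, h2, h3, h4] with x hx1 hx2 hb hx'
  obtain ⟨hx0, hx3⟩ := hx'
  have hs := K.S_pos (g - (u0 + x)) (by linarith) (by linarith only [hu, hξ, hx0])
  have ha : T.S (g - (u0 + x + (g - u0 - ξ))) < 0 := by
    have e : g - (u0 + x + (g - u0 - ξ)) = -(x - ξ) := by ring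
    rw [e, T.S_neg, neg_lt_zero]
    exact K.S_pos _ (by linarith only [hx0]) (by linarith only [hu, hξ, hx3])
  refine (TailA_high K hu (by linarith only [hξ, hx0]) (by linarith) (by linarith only [hx3]) (by linarith only [hξ]) ha hb ?_ ?_).mono
    fun n hn => TailA_fin n (TailA_Zh K hu (by linarith only [hξ, hx0, hx3]) n) hs hw hn
  · rw [ew, TailA_logG K hu hξ hg (by linarith only [hξ, hx0]) (by linarith only [hx3]), ← TailA_H_self K hu hξ hg]
    linarith only [hx2]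
  · rw [ew]
    have e : K.Λ u0 x = K.L u0 x + Real.log (T.S (g - (u0 + x))) := by
      rw [KData.L]
      ring
    rw [e]
    linarith only [hx1]

end Pool.Agent.Work.MP_413ea6_mp
end

-- merged part: Pool.Agent.Work.MP_413ea6_mp.Tail
section
open Filter Topology Finset Matrix

namespace Pool.Agent.Work.MP_413ea6_mp

/-! Tails of the turning point of the special row at the bottom. -/

theorem Zs_eq_vec (T : Trig) (g u0 : ℝ) (n : ℕ) (ξ ν : ℝ) :
    Zs T g u0 n ξ ν = (Bt T g (u0 + ξ) (sp n ν) (fun _ => false) ᵥ* Bt T g u0 (sp n ν) ^ n)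
      fun _ => true := by
  rw [Zs, Zt_eq_prod, List.ofFn_succ, List.prod_cons]
  simp only [sp, Fin.cons_zero, Fin.cons_succ, add_zero, List.ofFn_const, List.prod_replicate]
  rfl

theorem tail_pow_cons (T : Trig) (g u0 : ℝ) (n : ℕ) (ν : ℝ) (k : ℕ) (β : St n) :
    (Bt T g u0 (sp n ν) ^ k) (fun _ => false) (Fin.cons false β) =
      T.S (u0 + ν) ^ k * (Bt T g u0 (fun _ : Fin n => 0) ^ k) (fun _ => false) β := by
  induction k generalizing β with
  | zero =>
    have h : ((fun _ => false : St (n + 1)) = Fin.cons false β) ↔ (fun _ => false) = β := by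
      constructor
      · intro h
        funext r
        simpa using congrFun h r.succ
      · rintro rfl
        funext r
        refine Fin.cases rfl (fun _ => rfl) r
    simp only [pow_zero, Matrix.one_apply, one_mul, h]
  | succ k ih =>
    rw [pow_succ, pow_succ, pow_succ, Matrix.mul_apply, Matrix.mul_apply,
      ← (Fin.consEquiv fun _ : Fin (n + 1) => Bool).sum_comp, Fintype.sum_prod_type,
      Fintype.sum_bool, mul_sum]
    have h1 : ∀ (b : Bool) (α : St n), Bt T g u0 (sp n ν) (Fin.cons b α) (Fin.cons false β) =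
        if b = false then T.S (u0 + ν) * Bt T g u0 (fun _ : Fin n => 0) α β else 0 := by
      intro b α
      rw [Bt, Bop_cons_false]
      rfl
    have h2 : ∀ (b : Bool) (α : St n),
        (Fin.consEquiv fun _ : Fin (n + 1) => Bool) (b, α) = Fin.cons b α := fun _ _ => rfl
    simp only [h2, h1, ih]
    simp only [Bool.true_eq_false, if_false, mul_zero, sum_const_zero, zero_add, if_true]
    exact sum_congr rfl fun α _ => by ring

theorem Zs_frozen (T : Trig) (g u0 : ℝ) (n : ℕ) (ξ : ℝ) :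
    Zs T g u0 n ξ (g - u0 - ξ) = T.S g * ((T.S (u0 + ξ) * T.S (g - ξ)) ^ n * Zh T g u0 n) := by
  have hc : Commute (Bt T g (u0 + ξ) (sp n (g - u0 - ξ))) (Bt T g u0 (sp n (g - u0 - ξ)) ^ n) :=
    Commute.pow_right (Bt_comm T g _ _ _) n
  have hZ : Zh T g u0 n = (Bt T g u0 (fun _ : Fin n => 0) ^ n) (fun _ => false) fun _ => true := by
    rw [Zh, Zt_eq_prod, List.ofFn_const, List.prod_replicate]
  have hA : T.S (g - (u0 + ξ + sp n (g - u0 - ξ) 0)) = 0 := by
    rw [sp, Fin.cons_zero, show g - (u0 + ξ + (g - u0 - ξ)) = 0 by ring, T.S_zero]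
  have ht : ∀ α, Bt T g (u0 + ξ) (sp n (g - u0 - ξ)) α (fun _ => true) =
      if α = Fin.cons false (fun _ => true) then T.S g * T.S (u0 + ξ) ^ n else 0 := by
    intro α
    rw [Bt, Bop_top _ _ _ hA]
    simp [sp]
  rw [Zs_eq_vec, ← Matrix.mul_apply_eq_vecMul, hc.eq, Matrix.mul_apply]
  simp only [ht, mul_ite, mul_zero, sum_ite_eq', mem_univ, if_true]
  rw [tail_pow_cons, ← hZ, show u0 + (g - u0 - ξ) = g - ξ by ring, mul_pow]
  ring

theorem tail_mx_single {n : ℕ} (p : Fin n) : mx (Pi.single p true : St n) = p + 1 := by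
  refine le_antisymm (mx_le_iff.2 fun r hr => ?_) (le_mx (by simp))
  by_cases h : r = p
  · rw [h]; exact Nat.lt_succ_self _
  · rw [Pi.single_eq_of_ne h] at hr
    exact absurd hr (by decide)

/-- The weight of the bottom row turning at the column `p`. -/
noncomputable def tailW (T : Trig) (g u : ℝ) (n : ℕ) (ν : ℝ) (p : Fin (n + 1)) : ℝ :=
  (∏ r ∈ Iio p, T.S (u + sp n ν r)) * T.S g * ∏ r ∈ Ioi p, T.S (g - (u + sp n ν r))

theorem tail_sum (T : Trig) (g u : ℝ) (n : ℕ) (ν : ℝ) (φ : St (n + 1) → ℝ)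
    (M : Matrix (St (n + 1)) (St (n + 1)) ℝ) (β : St (n + 1)) :
    ((fun α => φ α * Bt T g u (sp n ν) (fun _ => false) α) ᵥ* M) β =
      ∑ p : Fin (n + 1), φ (Pi.single p true) * tailW T g u n ν p * M (Pi.single p true) β := by
  simp only [Matrix.vecMul, dotProduct, Bt, Bop_empty, mul_sum, sum_mul]
  rw [sum_comm]
  refine sum_congr rfl fun p _ => ?_
  simp only [mul_ite, mul_zero, ite_mul, zero_mul, sum_ite_eq', mem_univ, if_true, tailW]

theorem tailW_eq (T : Trig) (g u : ℝ) (n : ℕ) (ν : ℝ) (ha : T.S (g - u) ≠ 0) (hb : T.S u ≠ 0)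
    (p : Fin (n + 1)) : tailW T g u n ν p = T.S (g - u) ^ n * T.S g * tOf T g u ^ (p : ℕ) *
      if p = 0 then 1 else T.S (u + ν) / T.S u := by
  have h2 : ∏ r ∈ Ioi p, T.S (g - (u + sp n ν r)) = T.S (g - u) ^ (n - p) := by
    rw [prod_congr rfl (g := fun _ => T.S (g - u)), prod_const, Fin.card_Ioi]
    · rfl
    · intro r hr
      obtain ⟨r, rfl⟩ := Fin.exists_succ_eq.2 (ne_of_gt ((Fin.zero_le p).trans_lt (mem_Ioi.1 hr)))
      simp [sp]
  rw [tailW, h2]
  refine Fin.cases ?_ (fun q => ?_) p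
  · rw [show Iio (0 : Fin (n + 1)) = ∅ from Iio_bot]
    simp [mul_comm]
  · have h1 : ∏ r ∈ Iio q.succ, T.S (u + sp n ν r) = T.S (u + ν) * T.S u ^ (q : ℕ) := by
      have h0 : (0 : Fin (n + 1)) ∈ Iio q.succ := mem_Iio.2 (Fin.succ_pos q)
      rw [← mul_prod_erase _ _ h0, prod_congr rfl (g := fun _ => T.S u), prod_const,
        card_erase_of_mem h0, Fin.card_Iio]
      · simp [sp]
      · intro r hr
        obtain ⟨r, rfl⟩ := Fin.exists_succ_eq.2 (ne_of_mem_erase hr)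
        simp [sp]
    have h3 : T.S (g - u) ^ n = T.S (g - u) ^ (n - (q + 1)) * T.S (g - u) ^ ((q : ℕ) + 1) := by
      rw [← pow_add, Nat.sub_add_cancel q.2]
    rw [h1, if_neg (Fin.succ_ne_zero q), h3, Fin.val_succ, tOf, div_pow]
    field_simp
    ring

theorem tail_pow_nonneg {m : Type} [Fintype m] [DecidableEq m] {M : Matrix m m ℝ}
    (h : ∀ i j, 0 ≤ M i j) (k : ℕ) (i j : m) : 0 ≤ (M ^ k) i j := by
  induction k generalizing j with
  | zero => rw [pow_zero, Matrix.one_apply]; split_ifs <;> norm_num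
  | succ k ih =>
    rw [pow_succ, Matrix.mul_apply]
    exact sum_nonneg fun l _ => mul_nonneg (ih l) (h l j)

theorem tail_core {T : Trig} {g : ℝ} (K : KData T g) {u0 ξ x : ℝ} (hu : 0 < u0) (hξ : 0 < ξ)
    (hg : u0 + ξ < g) (hx0 : 0 < u0 + x) (hxg : u0 + x < g)
    (hxs : 0 < T.S (u0 + x + (g - u0 - ξ))) :
    ∃ C : ℝ, ∀ (n : ℕ) (φ : St (n + 1) → ℝ) (E F : ℝ), 0 ≤ E →
      (∀ p : Fin (n + 1), φ (Pi.single p true) * Real.exp (((p : ℕ) : ℝ) *
        -(Real.log (zOf T g u0 x) - Real.log (zOf T g u0 ξ))) ≤ E) →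
      Zs T g u0 n x (g - u0 - ξ) / T.S (g - (u0 + x)) ^ n ≤
        F * ((T.S (u0 + ξ) * T.S (g - ξ) / T.S (g - (u0 + ξ))) ^ n * Zh T g u0 n) →
      ((fun β => φ β * Bt T g (u0 + ξ) (sp n (g - u0 - ξ)) (fun _ => false) β) ᵥ*
        Bt T g u0 (sp n (g - u0 - ξ)) ^ n) (fun _ => true) ≤
      C * (E * F) * Zs T g u0 n ξ (g - u0 - ξ) := by
  have hc : 0 < T.S g := K.S_pos g K.g_pos le_rfl
  have ha0 : 0 < T.S (g - u0) := K.S_pos _ (by linarith) (by linarith)
  have hb0 : 0 < T.S u0 := K.S_pos _ hu (by linarith)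
  have haξ : 0 < T.S (g - (u0 + ξ)) := K.S_pos _ (by linarith) (by linarith)
  have hbξ : 0 < T.S (u0 + ξ) := K.S_pos _ (by linarith) (by linarith)
  have hax : 0 < T.S (g - (u0 + x)) := K.S_pos _ (by linarith) (by linarith)
  have hbx : 0 < T.S (u0 + x) := K.S_pos _ (by linarith) (by linarith)
  have ht0 : 0 < tOf T g u0 := div_pos hb0 ha0
  have htξ : 0 < tOf T g (u0 + ξ) := div_pos hbξ haξ
  have htx : 0 < tOf T g (u0 + x) := div_pos hbx hax
  set δ := Real.log (zOf T g u0 x) - Real.log (zOf T g u0 ξ) with hδ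
  have hexp : tOf T g (u0 + ξ) = Real.exp (-δ) * tOf T g (u0 + x) := by
    rw [hδ, neg_sub, Real.exp_sub, zOf, zOf, Real.exp_log (div_pos htξ ht0),
      Real.exp_log (div_pos htx ht0)]
    field_simp
  set kξ := T.S (u0 + ξ + (g - u0 - ξ)) / T.S (u0 + ξ) with hkξ
  set kx := T.S (u0 + x + (g - u0 - ξ)) / T.S (u0 + x) with hkx
  have hkξ0 : 0 < kξ := div_pos (by rw [show u0 + ξ + (g - u0 - ξ) = g by ring]; exact hc) hbξ
  have hkx0 : 0 < kx := div_pos hxs hbx
  set C := max 1 (kξ / kx) with hC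
  have hC0 : 0 ≤ C := le_max_of_le_left zero_le_one
  refine ⟨C / T.S g, fun n φ E F hE hφ hZ => ?_⟩
  have hM : ∀ α β, 0 ≤ (Bt T g u0 (sp n (g - u0 - ξ)) ^ n) α β := by
    refine tail_pow_nonneg (fun α β => Tr_nonneg (fun r => ?_) (fun r => ?_) hc.le _ _ _ _) n
    · refine Fin.cases ?_ (fun r => ?_) r
      · exact (K.S_pos _ (by simp only [sp, Fin.cons_zero]; linarith only [hξ])
          (by simp only [sp, Fin.cons_zero]; linarith only [hu, hg])).le
      · simpa [sp] using ha0.le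
    · refine Fin.cases ?_ (fun r => ?_) r
      · exact (K.S_pos _ (by simp only [sp, Fin.cons_zero]; linarith only [hu, hg])
          (by simp only [sp, Fin.cons_zero]; linarith only [hξ])).le
      · simpa [sp] using hb0.le
  have hZx : Zs T g u0 n x (g - u0 - ξ) = ∑ p : Fin (n + 1), tailW T g (u0 + x) n (g - u0 - ξ) p *
      (Bt T g u0 (sp n (g - u0 - ξ)) ^ n) (Pi.single p true) fun _ => true := by
    have := tail_sum T g (u0 + x) n (g - u0 - ξ) (fun _ => 1) (Bt T g u0 (sp n (g - u0 - ξ)) ^ n)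
      fun _ => true
    simp only [one_mul] at this
    rw [Zs_eq_vec, ← this]
  have hw : ∀ p : Fin (n + 1), φ (Pi.single p true) * tailW T g (u0 + ξ) n (g - u0 - ξ) p ≤
      C * E * (T.S (g - (u0 + ξ)) ^ n / T.S (g - (u0 + x)) ^ n) *
        tailW T g (u0 + x) n (g - u0 - ξ) p := by
    intro p
    rw [tailW_eq T g _ n _ haξ.ne' hbξ.ne', tailW_eq T g _ n _ hax.ne' hbx.ne', ← hkξ, ← hkx, hexp,
      mul_pow, ← Real.exp_nat_mul]
    have hk : (if p = 0 then 1 else kξ) ≤ C * if p = 0 then 1 else kx := by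
      split_ifs
      · rw [mul_one]; exact le_max_left _ _
      · exact (div_le_iff₀ hkx0).1 (le_max_right _ _)
    have hk0 : 0 ≤ (if p = 0 then 1 else kξ) := by
      split_ifs
      · exact zero_le_one
      · exact hkξ0.le
    have hP : 0 ≤ T.S (g - (u0 + ξ)) ^ n * T.S g * tOf T g (u0 + x) ^ (p : ℕ) := by positivity
    calc _ = T.S (g - (u0 + ξ)) ^ n * T.S g * tOf T g (u0 + x) ^ (p : ℕ) *
          (φ (Pi.single p true) * Real.exp (((p : ℕ) : ℝ) * -δ) * if p = 0 then 1 else kξ) := by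
          ring
      _ ≤ T.S (g - (u0 + ξ)) ^ n * T.S g * tOf T g (u0 + x) ^ (p : ℕ) *
          (E * (C * if p = 0 then 1 else kx)) :=
          mul_le_mul_of_nonneg_left (mul_le_mul (hφ p) hk hk0 hE) hP
      _ = _ := by field_simp
  rw [tail_sum]
  calc _ ≤ ∑ p : Fin (n + 1), C * E * (T.S (g - (u0 + ξ)) ^ n / T.S (g - (u0 + x)) ^ n) *
          tailW T g (u0 + x) n (g - u0 - ξ) p *
          (Bt T g u0 (sp n (g - u0 - ξ)) ^ n) (Pi.single p true) fun _ => true :=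
        sum_le_sum fun p _ => mul_le_mul_of_nonneg_right (hw p) (hM _ _)
    _ = C * E * T.S (g - (u0 + ξ)) ^ n *
          (Zs T g u0 n x (g - u0 - ξ) / T.S (g - (u0 + x)) ^ n) := by
        rw [hZx, sum_div, mul_sum]
        exact sum_congr rfl fun p _ => by ring
    _ ≤ C * E * T.S (g - (u0 + ξ)) ^ n *
          (F * ((T.S (u0 + ξ) * T.S (g - ξ) / T.S (g - (u0 + ξ))) ^ n * Zh T g u0 n)) :=
        mul_le_mul_of_nonneg_left hZ (by positivity)
    _ = _ := by
        rw [Zs_frozen, div_pow]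
        field_simp

theorem tail_near {T : Trig} {g : ℝ} (K : KData T g) {u0 ξ : ℝ} (hξ : 0 < ξ)
    (hg : u0 + ξ < g) :
    ∀ᶠ x in 𝓝 ξ, 0 < x ∧ u0 + x < g ∧ 0 < T.S (u0 + x + (g - u0 - ξ)) := by
  have h1 : Continuous fun x => T.S (u0 + x + (g - u0 - ξ)) := T.contS.comp (by fun_prop)
  have h2 : Continuous fun x : ℝ => u0 + x := by fun_prop
  refine (lt_mem_nhds hξ).and ((h2.continuousAt.eventually_lt continuousAt_const hg).and
    (continuousAt_const.eventually_lt h1.continuousAt ?_))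
  rw [show u0 + ξ + (g - u0 - ξ) = g by ring]
  exact K.S_pos g K.g_pos le_rfl

theorem tail_log_lt {T : Trig} {g : ℝ} (K : KData T g) {u0 x y : ℝ} (hu : 0 < u0) (hx : 0 < x)
    (hxy : x < y) (hg : u0 + y < g) : Real.log (zOf T g u0 x) < Real.log (zOf T g u0 y) := by
  have ht : ∀ u, 0 < u → u < g → 0 < tOf T g u := fun u h1 h2 =>
    div_pos (K.S_pos _ h1 h2.le) (K.S_pos _ (by linarith) (by linarith))
  have h := zOf_gt (u0 := u0 + x) (ξ := y - x) K.S_pos (by linarith) (by linarith) (by linarith)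
  rw [zOf, show u0 + x + (y - x) = u0 + y by ring,
    one_lt_div (ht _ (by linarith) (by linarith))] at h
  have h0 := ht u0 hu (by linarith)
  exact Real.log_lt_log (div_pos (ht _ (by linarith) (by linarith)) h0)
    (div_lt_div_of_pos_right h h0)

theorem tail_Zs_nonneg {T : Trig} {g : ℝ} (K : KData T g) {u0 ξ : ℝ} (hu : 0 < u0) (hξ : 0 < ξ)
    (hg : u0 + ξ < g) (n : ℕ) : 0 ≤ Zs T g u0 n ξ (g - u0 - ξ) := by
  have hc : 0 < T.S g := K.S_pos g K.g_pos le_rfl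
  have h1 : 0 < T.S (u0 + ξ) := K.S_pos _ (by linarith) (by linarith)
  have h2 : 0 < T.S (g - ξ) := K.S_pos _ (by linarith) (by linarith)
  have h3 : 0 < Zh T g u0 n := Zt_pos T g _ _ hc
    (fun _ _ => K.S_pos _ (by linarith) (by linarith))
    fun _ _ => K.S_pos _ (by linarith) (by linarith)
  rw [Zs_frozen]
  positivity

theorem tail_up {T : Trig} {g : ℝ} (K : KData T g) {u0 ξ ε : ℝ} (hu : 0 < u0) (hξ : 0 < ξ)
    (hg : u0 + ξ < g) (hε : 0 < ε) : ∃ θ : ℝ, 0 < θ ∧ θ < 1 ∧ ∀ᶠ n : ℕ in atTop,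
      ((fun β => ind ((K.rr u0 ξ + ε) * n < mx β) *
          Bt T g (u0 + ξ) (sp n (g - u0 - ξ)) (fun _ => false) β) ᵥ*
        Bt T g u0 (sp n (g - u0 - ξ)) ^ n) (fun _ => true) ≤
      θ ^ n * Zs T g u0 n ξ (g - u0 - ξ) := by
  obtain ⟨x, hZ, ⟨hx0, hxg, hxs⟩, hx⟩ := ((Zs_upper_gt K hu hξ hg (half_pos hε)).and
    (((tail_near K hξ hg).filter_mono nhdsWithin_le_nhds).and self_mem_nhdsWithin)).exists
  obtain ⟨C, hC⟩ := tail_core K hu hξ hg (by linarith) hxg hxs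
  have hδ := sub_pos.2 (tail_log_lt K hu hξ hx hxg)
  set δ := Real.log (zOf T g u0 x) - Real.log (zOf T g u0 ξ)
  have hθ : Real.exp (-(ε / 2 * δ)) < 1 := Real.exp_lt_one_iff.2 (neg_lt_zero.2 (by positivity))
  have hθ0 := Real.exp_pos (-(ε / 2 * δ))
  refine ⟨(1 + Real.exp (-(ε / 2 * δ))) / 2, by positivity, by linarith only [hθ], ?_⟩
  filter_upwards [hZ, poly_geom hθ0 (show _ < (1 + Real.exp (-(ε / 2 * δ))) / 2 by linarith only [hθ])
    (C * Real.exp δ) 0] with n hn hp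
  refine (hC n _ (Real.exp (δ - (K.rr u0 ξ + ε) * n * δ)) _ (Real.exp_pos _).le (fun p => ?_)
    hn).trans (mul_le_mul_of_nonneg_right (le_of_eq_of_le ?_ hp) (tail_Zs_nonneg K hu hξ hg n))
  · by_cases h : (K.rr u0 ξ + ε) * n < mx (Pi.single p true : St (n + 1))
    · rw [ind_pos h, one_mul]
      rw [tail_mx_single] at h
      push_cast at h
      exact Real.exp_le_exp.2 (by linarith only [hδ, h, mul_pos_of_neg_of_neg (Mathlib.Tactic.Linarith.sub_neg_of_lt hδ) (Mathlib.Tactic.Linarith.sub_neg_of_lt h)])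
    · rw [ind, if_neg h, zero_mul]
      exact (Real.exp_pos _).le
  · rw [pow_zero, mul_one, ← Real.exp_nat_mul, mul_assoc C, ← Real.exp_add, ← Real.exp_add]
    congr 2
    ring

theorem tail_down {T : Trig} {g : ℝ} (K : KData T g) {u0 ξ ε : ℝ} (hu : 0 < u0) (hξ : 0 < ξ)
    (hg : u0 + ξ < g) (hε : 0 < ε) : ∃ θ : ℝ, 0 < θ ∧ θ < 1 ∧ ∀ᶠ n : ℕ in atTop,
      ((fun β => ind ((mx β : ℝ) ≤ (K.rr u0 ξ - ε) * n) *
          Bt T g (u0 + ξ) (sp n (g - u0 - ξ)) (fun _ => false) β) ᵥ*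
        Bt T g u0 (sp n (g - u0 - ξ)) ^ n) (fun _ => true) ≤
      θ ^ n * Zs T g u0 n ξ (g - u0 - ξ) := by
  obtain ⟨x, hZ, ⟨hx0, hxg, hxs⟩, hx⟩ := ((Zs_upper_lt K hu hξ hg (half_pos hε)).and
    (((tail_near K hξ hg).filter_mono nhdsWithin_le_nhds).and self_mem_nhdsWithin)).exists
  obtain ⟨C, hC⟩ := tail_core K hu hξ hg (by linarith) hxg hxs
  have hδ := sub_neg.2 (tail_log_lt K hu hx0 hx hg)
  set δ := Real.log (zOf T g u0 x) - Real.log (zOf T g u0 ξ)
  have hθ : Real.exp (ε / 2 * δ) < 1 := Real.exp_lt_one_iff.2 (mul_neg_of_pos_of_neg (half_pos hε) hδ)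
  have hθ0 := Real.exp_pos (ε / 2 * δ)
  refine ⟨(1 + Real.exp (ε / 2 * δ)) / 2, by positivity, by linarith only [hθ], ?_⟩
  filter_upwards [hZ, poly_geom hθ0 (show _ < (1 + Real.exp (ε / 2 * δ)) / 2 by linarith only [hθ])
    C 0] with n hn hp
  refine (hC n _ (Real.exp (-((K.rr u0 ξ - ε) * n * δ))) _ (Real.exp_pos _).le (fun p => ?_)
    hn).trans (mul_le_mul_of_nonneg_right (le_of_eq_of_le ?_ hp) (tail_Zs_nonneg K hu hξ hg n))
  · by_cases h : ((mx (Pi.single p true : St (n + 1)) : ℕ) : ℝ) ≤ (K.rr u0 ξ - ε) * n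
    · rw [ind_pos h, one_mul]
      rw [tail_mx_single] at h
      push_cast at h
      exact Real.exp_le_exp.2 (by linarith only [hδ, hθ, hθ0, h, mul_pos_of_neg_of_neg (Mathlib.Tactic.Linarith.sub_neg_of_lt hδ) (Mathlib.Tactic.Linarith.sub_neg_of_lt hθ), mul_pos_of_neg_of_neg (Mathlib.Tactic.Linarith.sub_neg_of_lt hδ) (Mathlib.Tactic.Linarith.sub_neg_of_lt hθ0), mul_nonneg_of_nonpos_of_nonpos (le_of_lt (Mathlib.Tactic.Linarith.sub_neg_of_lt hδ)) (Mathlib.Tactic.Linarith.sub_nonpos_of_le h)])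
    · rw [ind, if_neg h, zero_mul]
      exact (Real.exp_pos _).le
  · rw [pow_zero, mul_one, ← Real.exp_nat_mul, ← Real.exp_add]
    congr 2
    ring

end Pool.Agent.Work.MP_413ea6_mp
end

-- merged part: Pool.Agent.Work.MP_413ea6_mp.Chern
section
open Filter Topology Finset

namespace Pool.Agent.Work.MP_413ea6_mp

/-! Chernoff bounds for the first step of the outer path under the tilted measure. -/

theorem Chern_tilt {t γ w z : ℝ} (hw : 0 < w) (hz : 0 < z) (N : ℕ) (φ : Ht → ℝ) :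
    mu N t γ w φ = mu N t γ z
      (fun h => Real.exp (((cnt N h 1 - 1 : ℕ) : ℝ) * Real.log (w / z)) * φ h) := by
  refine sum_congr rfl fun h _ => ?_
  dsimp only
  rw [Real.exp_nat_mul, Real.exp_log (div_pos hw hz), div_pow]
  field_simp

theorem Chern_mean {t γ z : ℝ} (ht : 0 < t) (hγ : 0 < γ) (hz : 0 < z) (N : ℕ) :
    mu N t γ z (fun h => ((cnt N h 1 - 1 : ℕ) : ℝ)) =
      N * rM N t γ z * mu N t γ z (fun _ => 1) := by
  rcases Nat.eq_zero_or_pos N with rfl | hN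
  · simp [mu, cnt]
  · have h1 := (mu_pos ht hγ hz N).ne'
    have h2 : (N : ℝ) ≠ 0 := by exact_mod_cast hN.ne'
    rw [rM]
    field_simp

theorem Chern_jensen {t γ w z : ℝ} (ht : 0 < t) (hγ : 0 < γ) (hw : 0 < w) (hz : 0 < z) (N : ℕ) :
    Real.exp (N * rM N t γ z * Real.log (w / z)) * mu N t γ z (fun _ => 1) ≤
      mu N t γ w (fun _ => 1) := by
  rw [Chern_tilt hw hz N]
  have hm := Chern_mean ht hγ hz N
  generalize N * rM N t γ z = M at hm ⊢
  generalize Real.log (w / z) = L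
  have h1 : mu N t γ z (fun h => Real.exp (M * L) * (1 - M * L) * 1 +
      Real.exp (M * L) * L * ((cnt N h 1 - 1 : ℕ) : ℝ)) =
      Real.exp (M * L) * mu N t γ z (fun _ => 1) := by
    rw [mu_add, mu_smul, mu_smul, hm]
    ring
  rw [← h1]
  refine mu_mono ht hγ hz fun h _ => ?_
  generalize ((cnt N h 1 - 1 : ℕ) : ℝ) = K
  have h2 := Real.add_one_le_exp (K * L - M * L)
  have h3 : Real.exp (K * L) = Real.exp (M * L) * Real.exp (K * L - M * L) := by
    rw [← Real.exp_add]; congr 1; ring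
  have h4 := mul_le_mul_of_nonneg_left h2 (Real.exp_pos (M * L)).le
  rw [h3]
  linarith

theorem Chern_gen {t γ w z s : ℝ} (ht : 0 < t) (hγ : 0 < γ) (hw : 0 < w) (hz : 0 < z) (N : ℕ)
    (E : Ht → Prop) (hE : ∀ h, E h → ((cnt N h 1 - 1 : ℕ) : ℝ) * Real.log (w / z) ≤
      N * s + N * rM N t γ z * Real.log (w / z)) :
    mu N t γ w (fun h => ind (E h)) ≤ Real.exp s ^ N * mu N t γ w (fun _ => 1) := by
  refine le_trans ?_ (mul_le_mul_of_nonneg_left (Chern_jensen ht hγ hw hz N)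
    (pow_pos (Real.exp_pos s) N).le)
  rw [Chern_tilt hw hz N, ← mul_assoc, ← mu_smul, ← Real.exp_nat_mul, ← Real.exp_add]
  refine mu_mono ht hγ hz fun h _ => ?_
  by_cases he : E h
  · rw [ind_pos he]
    exact mul_le_mul_of_nonneg_right (Real.exp_le_exp.2 (hE h he)) zero_le_one
  · rw [ind_neg he, mul_zero, mul_one]
    exact (Real.exp_pos _).le

theorem rM_nonneg {t γ z : ℝ} (ht : 0 < t) (hγ : 0 < γ) (hz : 0 < z) (N : ℕ) :
    0 ≤ rM N t γ z := by
  unfold rM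
  exact div_nonneg (mu_nonneg ht hγ hz fun _ => Nat.cast_nonneg _)
    (mul_nonneg (Nat.cast_nonneg _) (mu_pos ht hγ hz N).le)

theorem chern_up {t γ w z δ : ℝ} (ht : 0 < t) (hγ : 0 < γ) (hw : 0 < w) (hwz : w < z)
    (hδ : 0 < δ) : ∃ θ : ℝ, 0 < θ ∧ θ < 1 ∧ ∀ N : ℕ,
      mu N t γ w (fun h => ind (N * rM N t γ z + δ * N ≤ (cnt N h 1 : ℝ) - 1)) ≤
        θ ^ N * mu N t γ w (fun _ => 1) := by
  have hz := hw.trans hwz
  have hL : Real.log (w / z) < 0 := Real.log_neg (div_pos hw hz) ((div_lt_one hz).2 hwz)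
  refine ⟨Real.exp (δ * Real.log (w / z)), Real.exp_pos _,
    Real.exp_lt_one_iff.2 (mul_neg_of_pos_of_neg hδ hL), fun N => Chern_gen ht hγ hw hz N _ fun h he => ?_⟩
  have h1 : (cnt N h 1 : ℝ) - 1 ≤ ((cnt N h 1 - 1 : ℕ) : ℝ) := by
    have : cnt N h 1 ≤ (cnt N h 1 - 1) + 1 := by omega
    have h2 : (cnt N h 1 : ℝ) ≤ ((cnt N h 1 - 1 : ℕ) : ℝ) + 1 := by exact_mod_cast this
    linarith only [h2]
  have h2 := mul_le_mul_of_nonpos_right (he.trans h1) hL.le
  linarith only [h2]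

theorem chern_down {t γ w z δ : ℝ} (ht : 0 < t) (hγ : 0 < γ) (hz : 0 < z) (hzw : z < w)
    (hδ : 0 < δ) : ∃ θ : ℝ, 0 < θ ∧ θ < 1 ∧ ∀ N : ℕ,
      mu N t γ w (fun h => ind ((cnt N h 1 : ℝ) + δ * N ≤ N * rM N t γ z)) ≤
        θ ^ N * mu N t γ w (fun _ => 1) := by
  have hw := hz.trans hzw
  have hL : 0 < Real.log (w / z) := Real.log_pos ((one_lt_div hz).2 hzw)
  refine ⟨Real.exp (-(δ * Real.log (w / z))), Real.exp_pos _,
    Real.exp_lt_one_iff.2 (neg_neg_of_pos (mul_pos hδ hL)),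
    fun N => Chern_gen ht hγ hw hz N _ fun h he => ?_⟩
  have h1 : ((cnt N h 1 - 1 : ℕ) : ℝ) ≤ (cnt N h 1 : ℝ) := by exact_mod_cast Nat.sub_le _ _
  have h2 := mul_le_mul_of_nonneg_right ((add_le_add_left h1 (δ * N)).trans he) hL.le
  linarith only [h2]

end Pool.Agent.Work.MP_413ea6_mp
end

-- merged part: Pool.Agent.Work.MP_413ea6_mp.RLim
section
open Filter Topology Finset Matrix

namespace Pool.Agent.Work.MP_413ea6_mp

/-! The limit `r(z)` exists. -/

theorem RLim_prod (α β : ℝ) (k N : ℕ) (h : k + 1 ≤ N) :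
    ∏ r ∈ range N, (if r + 1 < k + 1 then β else if r < k + 1 then 1 else α) =
      β ^ k * α ^ (N - (k + 1)) := by
  induction N, h using Nat.le_induction with
  | base =>
    rw [prod_range_succ, if_neg (lt_irrefl _), if_pos (Nat.lt_succ_self k), Nat.sub_self, pow_zero,
      prod_congr rfl (g := fun _ => β) fun r hr => if_pos (Nat.succ_lt_succ (mem_range.1 hr)),
      prod_const, card_range]
  | succ N hN ih =>
    rw [prod_range_succ, ih, if_neg (by omega), if_neg (by omega),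
      show N + 1 - (k + 1) = N - (k + 1) + 1 by omega, pow_succ, mul_assoc]

theorem RLim_edge {n : ℕ} {σ : Cfg (n + 1)} (H : IsDW σ) (k : Fin (n + 2)) :
    σ.1 k 0 = true ↔ (k : ℕ) < cnt (n + 1) (htOf σ) 1 := by
  have hc := htOf_cls H
  have e := edge_h H k 0
  rw [Fin.val_zero, hc.2.1, zero_add, zero_add] at e
  rw [lt_cnt_iff hc, e, ← Bool.toNat_eq_one]
  have := Bool.toNat_le (σ.1 k 0)
  omega

theorem RLim_vw {a b c a' b' : ℝ} (ha : a ≠ 0) (hb : b ≠ 0) {W E : Bool} {r X : ℕ}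
    (hW : W = true ↔ r < X) (hE : E = true ↔ r + 1 < X) :
    vw a' b' c W false E =
      vw a b c W false E * if r + 1 < X then b' / b else if r < X then 1 else a' / a := by
  cases W <;> cases E <;> simp only [Bool.false_eq_true, false_iff, true_iff] at hW hE
  · rw [if_neg hE, if_neg hW]
    simp only [vw, if_true]
    field_simp
  · omega
  · rw [if_neg hE, if_pos hW]
    simp [vw]
  · rw [if_pos hE]
    simp only [vw, Bool.true_eq_false, if_false, if_true]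
    field_simp

theorem RLim_weight {a b c a' b' : ℝ} (ha : a ≠ 0) (hb : b ≠ 0) (ha' : a' ≠ 0) {n : ℕ}
    {σ : Cfg (n + 1)} (H : IsDW σ) (A B : Fin (n + 1) → ℝ) (hA0 : A 0 = a') (hB0 : B 0 = b')
    (hA : ∀ s : Fin n, A s.succ = a) (hB : ∀ s : Fin n, B s.succ = b) :
    ∏ r : Fin (n + 1), ∏ s : Fin (n + 1),
      vw (A s) (B s) c (σ.1 r.castSucc s) (σ.2 r s.castSucc) (σ.1 r.succ s) =
      weight a b c σ * ((a' / a) ^ n * (b' / a' / (b / a)) ^ (cnt (n + 1) (htOf σ) 1 - 1)) := by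
  have hc := htOf_cls H
  have h1 : 1 ≤ cnt (n + 1) (htOf σ) 1 := le_cnt hc (by omega)
  have h2 : cnt (n + 1) (htOf σ) 1 ≤ n + 1 := (cnt_isPath hc).le 1
  have he := RLim_edge H
  obtain ⟨k, hk⟩ : ∃ k, cnt (n + 1) (htOf σ) 1 = k + 1 := ⟨_, (Nat.sub_add_cancel h1).symm⟩
  rw [hk] at h2 he ⊢
  have h3 := RLim_prod (a' / a) (b' / b) k (n + 1) h2
  have h4 : (a' / a) ^ n * (b' / a' / (b / a)) ^ (k + 1 - 1) =
      (b' / b) ^ k * (a' / a) ^ (n + 1 - (k + 1)) := by
    obtain ⟨m, rfl⟩ : ∃ m, n = k + m := ⟨n - k, by omega⟩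
    have e : b' / b = a' / a * (b' / a' / (b / a)) := by field_simp
    rw [Nat.add_sub_cancel, show k + m + 1 - (k + 1) = m by omega, e, mul_pow, pow_add]
    ring
  rw [h4, ← h3, prod_range, weight, ← prod_mul_distrib]
  refine prod_congr rfl fun r _ => ?_
  rw [Fin.prod_univ_succ, Fin.prod_univ_succ, hA0, hB0]
  simp only [hA, hB]
  rw [Fin.castSucc_zero, H.2.2.2.1 r,
    RLim_vw (a' := a') (b' := b') (c := c) ha hb (he r.castSucc) (he r.succ), Fin.val_castSucc]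
  ring

theorem Zs_eq_mu {T : Trig} {g u0 ξ : ℝ} (hS : ∀ u, 0 < u → u ≤ g → 0 < T.S u) (hu : 0 < u0)
    (hug : u0 < g) (hξ : 0 < u0 + ξ) (hg : u0 + ξ < g) (n : ℕ) :
    Zs T g u0 n ξ 0 = T.S (g - u0) ^ ((n + 1) * (n + 1)) *
      (T.S (g - (u0 + ξ)) / T.S (g - u0)) ^ n *
        mu (n + 1) (tOf T g u0) (γOf T g u0) (zOf T g u0 ξ) fun _ => 1 := by
  have ha : 0 < T.S (g - u0) := hS _ (by linarith) (by linarith)
  have hb : 0 < T.S u0 := hS _ hu hug.le
  have hc : 0 < T.S g := hS _ (by linarith) le_rfl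
  have ha' : 0 < T.S (g - (u0 + ξ)) := hS _ (by linarith) (by linarith)
  have hsp : ∀ r, sp n 0 r = 0 := fun r => by
    refine Fin.cases ?_ (fun r => ?_) r <;> simp [sp]
  have key := sum_dw ha hb hc (n + 1) fun h =>
    (T.S (g - (u0 + ξ)) / T.S (g - u0)) ^ n * zOf T g u0 ξ ^ (cnt (n + 1) h 1 - 1)
  have e : Zs T g u0 n ξ 0 = ∑ σ : Cfg (n + 1), ind (IsDW σ) *
      (weight (T.S (g - u0)) (T.S u0) (T.S g) σ * ((T.S (g - (u0 + ξ)) / T.S (g - u0)) ^ n *
        zOf T g u0 ξ ^ (cnt (n + 1) (htOf σ) 1 - 1))) := by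
    unfold Zs Zt Zr
    refine sum_congr rfl fun σ _ => ?_
    by_cases H : IsDW σ
    · congr 1
      simp only [hsp, add_zero]
      exact RLim_weight ha.ne' hb.ne' ha'.ne' H (fun s => T.S (g - (u0 + sp n ξ s)))
        (fun s => T.S (u0 + sp n ξ s)) (by simp [sp]) (by simp [sp]) (by simp [sp])
        (by simp [sp])
    · rw [ind_neg H, zero_mul, zero_mul]
  rw [e, key, mul_assoc, mu]
  congr 1
  rw [mul_sum]
  refine sum_congr rfl fun h _ => ?_
  unfold tOf γOf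
  ring

theorem mu_tangent {t γ w z : ℝ} (ht : 0 < t) (hγ : 0 < γ) (hw : 0 < w) (hz : 0 < z) (N : ℕ) :
    N * rM N t γ z * (Real.log w - Real.log z) ≤
      Real.log (mu N t γ w fun _ => 1) - Real.log (mu N t γ z fun _ => 1) := by
  have h := Chern_jensen ht hγ hw hz N
  have h1 := mu_pos ht hγ hz N
  have h2 := Real.log_le_log (mul_pos (Real.exp_pos _) h1) h
  rw [Real.log_mul (Real.exp_pos _).ne' h1.ne', Real.log_exp, Real.log_div hw.ne' hz.ne'] at h2
  linarith only [h2]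

theorem RLim_slope {f : ℝ → ℝ} {f' ξ : ℝ} (h : HasDerivAt f f' ξ) (h0 : 0 < f') :
    (∀ᶠ x in 𝓝[>] ξ, f ξ < f x) ∧ ∀ᶠ x in 𝓝[<] ξ, f x < f ξ := by
  have h1 := (hasDerivAt_iff_tendsto_slope.1 h).eventually (lt_mem_nhds h0)
  constructor
  · filter_upwards [h1.filter_mono (nhdsGT_le_nhdsNE ξ), self_mem_nhdsWithin] with x hx hx'
    have h2 : 0 < x - ξ := sub_pos.2 hx'
    rw [slope_def_field, lt_div_iff₀ h2] at hx
    linarith
  · filter_upwards [h1.filter_mono (nhdsLT_le_nhdsNE ξ), self_mem_nhdsWithin] with x hx hx'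
    have h2 : x - ξ < 0 := sub_neg.2 hx'
    rw [slope_def_field, lt_div_iff_of_neg h2] at hx
    linarith

theorem RLim_abs {r : ℕ → ℝ} {F : ℕ → ℝ → ℝ} {L l : ℝ → ℝ} {ξ L' l' : ℝ}
    (hL : HasDerivAt L L' ξ) (hl : HasDerivAt l l' ξ) (hl' : 0 < l')
    (h : ∀ᶠ x in 𝓝 ξ, (∀ n, r n * (l x - l ξ) ≤ F n x) ∧
      Tendsto (fun n => F n x) atTop (𝓝 (L x - L ξ))) :
    Tendsto r atTop (𝓝 (L' / l')) := by
  obtain ⟨l1, l2⟩ := RLim_slope hl hl'
  refine tendsto_order.2 ⟨fun a ha => ?_, fun a ha => ?_⟩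
  · rw [lt_div_iff₀ hl'] at ha
    obtain ⟨x, hx1, hx2, hx3, hx4⟩ := ((RLim_slope (hL.fun_sub (hl.const_mul a))
      (sub_pos.2 ha)).2.and (l2.and (h.filter_mono nhdsWithin_le_nhds))).exists
    have h5 : L x - L ξ < a * (l x - l ξ) := by linarith
    filter_upwards [hx4.eventually (gt_mem_nhds h5)] with n hn
    exact lt_of_mul_lt_mul_of_nonpos_right ((hx3 n).trans_lt hn) (sub_neg.2 hx2).le
  · rw [gt_iff_lt, div_lt_iff₀ hl'] at ha
    obtain ⟨x, hx1, hx2, hx3, hx4⟩ := ((RLim_slope ((hl.const_mul a).fun_sub hL)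
      (sub_pos.2 ha)).1.and (l1.and (h.filter_mono nhdsWithin_le_nhds))).exists
    have h5 : L x - L ξ < a * (l x - l ξ) := by linarith
    filter_upwards [hx4.eventually (gt_mem_nhds h5)] with n hn
    exact lt_of_mul_lt_mul_right ((hx3 n).trans_lt hn) (sub_pos.2 hx2).le

theorem RLim_log {T : Trig} {g : ℝ} (K : KData T g) {u0 x : ℝ} (hu : 0 < u0) (hx : 0 < x)
    (hg : u0 + x < g) (n : ℕ) :
    Real.log (Zs T g u0 n x 0 / Zh T g u0 n) - n * Real.log (T.S (g - (u0 + x))) =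
      Real.log (mu (n + 1) (tOf T g u0) (γOf T g u0) (zOf T g u0 x) fun _ => 1) +
        (Real.log (T.S (g - u0) ^ ((n + 1) * (n + 1))) - n * Real.log (T.S (g - u0)) -
          Real.log (Zh T g u0 n)) := by
  have hug : u0 < g := by linarith
  have ha : 0 < T.S (g - u0) := K.S_pos _ (by linarith) (by linarith)
  have hb : 0 < T.S u0 := K.S_pos _ hu hug.le
  have hc : 0 < T.S g := K.S_pos _ K.g_pos le_rfl
  have ha' : 0 < T.S (g - (u0 + x)) := K.S_pos _ (by linarith) (by linarith)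
  have hz : 0 < zOf T g u0 x := one_pos.trans (zOf_gt K.S_pos hu hx hg)
  have hm := mu_pos (t := tOf T g u0) (γ := γOf T g u0) (div_pos hb ha) (div_pos hc ha) hz (n + 1)
  have hZ : 0 < Zh T g u0 n :=
    Zt_pos T g _ _ hc (fun _ _ => by simpa using ha) fun _ _ => by simpa using hb
  have h1 := pow_pos ha ((n + 1) * (n + 1))
  have h2 := pow_pos (div_pos ha' ha) n
  rw [Zs_eq_mu K.S_pos hu hug (by linarith) hg, Real.log_div (mul_pos (mul_pos h1 h2) hm).ne' hZ.ne',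
    Real.log_mul (mul_pos h1 h2).ne' hm.ne', Real.log_mul h1.ne' h2.ne', Real.log_pow (_ / _),
    Real.log_div ha'.ne' ha.ne']
  ring

theorem RLim_tend {T : Trig} {g : ℝ} (K : KData T g) {u0 x ξ : ℝ} (hu : 0 < u0) (hx : 0 < x)
    (hgx : u0 + x < g) (hξ : 0 < ξ) (hg : u0 + ξ < g) :
    Tendsto (fun n : ℕ =>
      (Real.log (mu (n + 1) (tOf T g u0) (γOf T g u0) (zOf T g u0 x) fun _ => 1) -
        Real.log (mu (n + 1) (tOf T g u0) (γOf T g u0) (zOf T g u0 ξ) fun _ => 1)) /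
          ((n + 1 : ℕ) : ℝ)) atTop (𝓝 (K.L u0 x - K.L u0 ξ)) := by
  have h1 := at_ratio K hu hx.le le_rfl (by linarith)
  have h2 := at_ratio K hu hξ.le le_rfl (by linarith)
  have h3 : Tendsto (fun n : ℕ => (n : ℝ) / ((n : ℝ) + 1)) atTop (𝓝 1) :=
    tendsto_natCast_div_add_atTop 1
  have h4 := ((h1.sub_const (Real.log (T.S (g - (u0 + x))))).sub
    (h2.sub_const (Real.log (T.S (g - (u0 + ξ)))))).mul h3
  have e : (K.Λ u0 x + K.Λ u0 0 - Real.log (T.S (g - (u0 + x))) -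
      (K.Λ u0 ξ + K.Λ u0 0 - Real.log (T.S (g - (u0 + ξ))))) * 1 = K.L u0 x - K.L u0 ξ := by
    unfold KData.L
    ring
  rw [e] at h4
  refine h4.congr' ?_
  filter_upwards [eventually_gt_atTop 0] with n hn
  have hn' : (n : ℝ) ≠ 0 := by exact_mod_cast hn.ne'
  have e1 := RLim_log K hu hx hgx n
  have e2 := RLim_log K hu hξ hg n
  rw [Nat.cast_succ, ← mul_div_assoc]
  congr 1
  rw [sub_mul, sub_mul, sub_mul, div_mul_cancel₀ _ hn', div_mul_cancel₀ _ hn']
  linarith only [e1, e2]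

theorem r_limit {T : Trig} {g : ℝ} (K : KData T g) {u0 ξ : ℝ} (hu : 0 < u0) (hξ : 0 < ξ)
    (hg : u0 + ξ < g) :
    Tendsto (fun N => rM N (tOf T g u0) (γOf T g u0) (zOf T g u0 ξ)) atTop (𝓝 (K.rr u0 ξ)) := by
  have hug : u0 < g := by linarith
  have ha : 0 < T.S (g - u0) := K.S_pos _ (by linarith) (by linarith)
  have hb : 0 < T.S u0 := K.S_pos _ hu hug.le
  have hc : 0 < T.S g := K.S_pos _ K.g_pos le_rfl
  have ha' : 0 < T.S (g - (u0 + ξ)) := K.S_pos _ (by linarith) (by linarith)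
  have hb' : 0 < T.S (u0 + ξ) := K.S_pos _ (by linarith) hg.le
  have hl := logz_deriv K.S_pos hu hug (by linarith) hg
  have hL := (L_diff K hu hξ hg).1.hasDerivAt
  rw [← tendsto_add_atTop_iff_nat 1, KData.rr, hl.deriv]
  refine RLim_abs (F := fun n x =>
    (Real.log (mu (n + 1) (tOf T g u0) (γOf T g u0) (zOf T g u0 x) fun _ => 1) -
      Real.log (mu (n + 1) (tOf T g u0) (γOf T g u0) (zOf T g u0 ξ) fun _ => 1)) /
        ((n + 1 : ℕ) : ℝ)) hL hl (div_pos hc (mul_pos ha' hb')) ?_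
  have h1 : ξ < g - u0 := by linarith
  filter_upwards [lt_mem_nhds hξ, gt_mem_nhds h1] with x hx hx'
  have hgx : u0 + x < g := by linarith
  refine ⟨fun n => ?_, RLim_tend K hu hx hgx hξ hg⟩
  have h2 := mu_tangent (t := tOf T g u0) (γ := γOf T g u0) (div_pos hb ha) (div_pos hc ha)
    (one_pos.trans (zOf_gt K.S_pos hu hx hgx)) (one_pos.trans (zOf_gt K.S_pos hu hξ hg)) (n + 1)
  rw [le_div_iff₀ (by exact_mod_cast n.succ_pos)]
  linarith

end Pool.Agent.Work.MP_413ea6_mp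
end

-- merged part: Pool.Agent.Work.MP_413ea6_mp.FerroA
section
open Filter Topology Finset

namespace Pool.Agent.Work.MP_413ea6_mp

/-! The stochastic six-vertex model with step boundary data (west thick, south thin, free exit).
`ω r s` is the east edge of the vertex `(r + 1, s + 1)`. -/

/-- Horizontal edge at position `i` in row `s + 1`. -/
def eh {N : ℕ} (ω : Fin N → Fin N → Bool) (i s : ℕ) : Bool :=
  if i = 0 then true else if h : i - 1 < N ∧ s < N then ω ⟨i - 1, h.1⟩ ⟨s, h.2⟩ else false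

def hOf {N : ℕ} (ω : Fin N → Fin N → Bool) : Ht := fun i j =>
  ((range (min j N)).filter (fun s => eh ω i s = true)).card

/-- Probability of the east edge `e` given the west and south edges. -/
def pv (bh bv : ℝ) : Bool → Bool → Bool → ℝ
  | true, true, e => if e then 1 else 0
  | false, false, e => if e then 0 else 1
  | true, false, e => if e then bh else 1 - bh
  | false, true, e => if e then 1 - bv else bv

noncomputable def Qw {N : ℕ} (bh bv : ℝ) (ω : Fin N → Fin N → Bool) : ℝ :=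
  ∏ r : Fin N, ∏ s : Fin N,
    pv bh bv (eh ω r s) (decide (hOf ω r s ≠ hOf ω (r + 1) s)) (ω r s)

theorem ferroA_pv_nonneg {bh bv : ℝ} (h0 : 0 < bh) (h2 : bh < bv) (h1 : bv < 1)
    (w s e : Bool) : 0 ≤ pv bh bv w s e := by
  cases w <;> cases s <;> cases e <;> simp [pv] <;> linarith only [h0, h2, h1]

theorem ferroA_pv_sum (bh bv : ℝ) (w s : Bool) :
    pv bh bv w s true + pv bh bv w s false = 1 := by
  cases w <;> cases s <;> simp [pv]

theorem Qw_nonneg {bh bv : ℝ} (h0 : 0 < bh) (h2 : bh < bv) (h1 : bv < 1) {N : ℕ}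
    (ω : Fin N → Fin N → Bool) : 0 ≤ Qw bh bv ω :=
  prod_nonneg fun _ _ => prod_nonneg fun _ _ => ferroA_pv_nonneg h0 h2 h1 _ _ _

section Tower

variable {N : ℕ}

/-- Rank of a vertex in the sampling order. -/
def ferroA_rk (v : Fin N × Fin N) : ℕ := v.2 * N + v.1

theorem ferroA_rk_inj {u v : Fin N × Fin N} (h : ferroA_rk u = ferroA_rk v) : u = v := by
  obtain ⟨⟨a, ha⟩, ⟨b, hb⟩⟩ := u
  obtain ⟨⟨c, hc⟩, ⟨d, hd⟩⟩ := v
  simp only [ferroA_rk] at h
  have h1 : b = d := by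
    rcases lt_trichotomy b d with h1 | h1 | h1
    · nlinarith
    · exact h1
    · nlinarith
  subst h1
  have h2 : a = c := by omega
  subst h2
  rfl

theorem ferroA_rk_lt (v : Fin N × Fin N) : ferroA_rk v < N * N := by
  obtain ⟨⟨a, ha⟩, ⟨b, hb⟩⟩ := v
  simp only [ferroA_rk]
  nlinarith only [ha, hb]

def ferroA_upd (ω : Fin N → Fin N → Bool) (v : Fin N × Fin N) (e : Bool) :
    Fin N → Fin N → Bool := fun r s => if (r, s) = v then e else ω r s

theorem ferroA_upd_self (ω : Fin N → Fin N → Bool) (v : Fin N × Fin N) (e : Bool) :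
    ferroA_upd ω v e v.1 v.2 = e := if_pos rfl

/-- Agreement below rank `k`. -/
def ferroA_Ag (k : ℕ) (ω ω' : Fin N → Fin N → Bool) : Prop :=
  ∀ u : Fin N × Fin N, ferroA_rk u < k → ω u.1 u.2 = ω' u.1 u.2

/-- Dependence only on the coordinates below rank `k`. -/
def ferroA_D (k : ℕ) (φ : (Fin N → Fin N → Bool) → ℝ) : Prop :=
  ∀ ω ω', ferroA_Ag k ω ω' → φ ω = φ ω'

theorem ferroA_D_mono {k k' : ℕ} (h : k ≤ k') {φ : (Fin N → Fin N → Bool) → ℝ}
    (H : ferroA_D k φ) : ferroA_D k' φ := fun ω ω' hA =>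
  H ω ω' fun u hu => hA u (hu.trans_le h)

theorem ferroA_ag_upd (ω : Fin N → Fin N → Bool) (v : Fin N × Fin N) (e : Bool) :
    ferroA_Ag (ferroA_rk v) (ferroA_upd ω v e) ω := fun u hu =>
  if_neg fun h => by
    rw [show u = v from h] at hu
    exact lt_irrefl _ hu

theorem ferroA_avg (v : Fin N × Fin N) (f : (Fin N → Fin N → Bool) → ℝ) :
    2 * ∑ ω, f ω = ∑ ω, (f (ferroA_upd ω v true) + f (ferroA_upd ω v false)) := by
  have hinv : Function.Involutive fun ω : Fin N → Fin N → Bool =>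
      ferroA_upd ω v (!ω v.1 v.2) := by
    intro ω
    funext r s
    simp only [ferroA_upd]
    split_ifs with h
    · subst h
      simp
    · rfl
  have h1 : ∑ ω, f (ferroA_upd ω v (!ω v.1 v.2)) = ∑ ω, f ω :=
    Equiv.sum_comp hinv.toPerm f
  rw [two_mul]
  nth_rewrite 2 [← h1]
  rw [← sum_add_distrib]
  refine sum_congr rfl fun ω _ => ?_
  have h2 : ferroA_upd ω v (ω v.1 v.2) = ω := by
    funext r s
    simp only [ferroA_upd]
    split_ifs with h
    · subst h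
      rfl
    · rfl
  cases h : ω v.1 v.2
  · rw [h] at h2
    rw [h2, add_comm]
    rfl
  · rw [h] at h2
    rw [h2]
    rfl

theorem ferroA_eh_ag {k : ℕ} {ω ω' : Fin N → Fin N → Bool} (hA : ferroA_Ag k ω ω') {i s : ℕ}
    (h : s * N + i ≤ k) : eh ω i s = eh ω' i s := by
  unfold eh
  split_ifs with h1 h2
  · rfl
  · refine hA (⟨i - 1, h2.1⟩, ⟨s, h2.2⟩) ?_
    simp only [ferroA_rk]
    omega
  · rfl

theorem ferroA_hOf_ag {k : ℕ} {ω ω' : Fin N → Fin N → Bool} (hA : ferroA_Ag k ω ω') {i j : ℕ}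
    (hi : i ≤ N) (h : j * N ≤ k) : hOf ω i j = hOf ω' i j := by
  unfold hOf
  congr 1
  refine filter_congr fun s hs => ?_
  have h1 : s + 1 ≤ j := (mem_range.1 hs).trans_le (min_le_left _ _)
  have h2 : (s + 1) * N ≤ j * N := Nat.mul_le_mul_right _ h1
  rw [ferroA_eh_ag hA (by linarith only [hi, h, h2])]

/-- The transition probability at a vertex. -/
def ferroA_p (bh bv : ℝ) (v : Fin N × Fin N) (ω : Fin N → Fin N → Bool) (e : Bool) : ℝ :=
  pv bh bv (eh ω v.1 v.2) (decide (hOf ω v.1 v.2 ≠ hOf ω (v.1 + 1) v.2)) e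

theorem ferroA_p_ag (bh bv : ℝ) (v : Fin N × Fin N) {ω ω' : Fin N → Fin N → Bool}
    (hA : ferroA_Ag (ferroA_rk v) ω ω') (e : Bool) :
    ferroA_p bh bv v ω e = ferroA_p bh bv v ω' e := by
  unfold ferroA_p
  rw [ferroA_eh_ag hA le_rfl, ferroA_hOf_ag hA v.1.2.le (Nat.le_add_right _ _),
    ferroA_hOf_ag hA (i := v.1 + 1) v.1.2 (Nat.le_add_right _ _)]

/-- The truncated (doubled) weight. -/
noncomputable def ferroA_T (bh bv : ℝ) (k : ℕ) (ω : Fin N → Fin N → Bool) : ℝ :=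
  ∏ u ∈ univ.filter (fun u : Fin N × Fin N => ferroA_rk u < k),
    2 * ferroA_p bh bv u ω (ω u.1 u.2)

theorem ferroA_T_D (bh bv : ℝ) (k : ℕ) : ferroA_D k (ferroA_T (N := N) bh bv k) := by
  intro ω ω' hA
  refine prod_congr rfl fun u hu => ?_
  have h1 := (mem_filter.1 hu).2
  rw [hA u h1, ferroA_p_ag bh bv u fun w hw => hA w (hw.trans h1)]

theorem ferroA_T_succ (bh bv : ℝ) (v : Fin N × Fin N) (ω : Fin N → Fin N → Bool) :
    ferroA_T bh bv (ferroA_rk v + 1) ω =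
      ferroA_T bh bv (ferroA_rk v) ω * (2 * ferroA_p bh bv v ω (ω v.1 v.2)) := by
  unfold ferroA_T
  have h1 : univ.filter (fun u : Fin N × Fin N => ferroA_rk u < ferroA_rk v + 1) =
      insert v (univ.filter fun u : Fin N × Fin N => ferroA_rk u < ferroA_rk v) := by
    ext u
    simp only [mem_filter, mem_univ, true_and, mem_insert]
    constructor
    · intro h
      rcases (Nat.lt_succ_iff.1 h).eq_or_lt with h | h
      · exact Or.inl (ferroA_rk_inj h)
      · exact Or.inr h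
    · rintro (rfl | h) <;> omega
  rw [h1, prod_insert (by simp), mul_comm]

theorem ferroA_one (bh bv : ℝ) (v : Fin N × Fin N) (φ : (Fin N → Fin N → Bool) → ℝ) :
    ∑ ω, ferroA_T bh bv (ferroA_rk v + 1) ω * φ ω =
      ∑ ω, ferroA_T bh bv (ferroA_rk v) ω *
        (ferroA_p bh bv v ω true * φ (ferroA_upd ω v true) +
          ferroA_p bh bv v ω false * φ (ferroA_upd ω v false)) := by
  have h1 := ferroA_avg v fun ω => ferroA_T bh bv (ferroA_rk v + 1) ω * φ ω
  have h2 : ∀ ω e, ferroA_T bh bv (ferroA_rk v + 1) (ferroA_upd ω v e) =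
      ferroA_T bh bv (ferroA_rk v) ω * (2 * ferroA_p bh bv v ω e) := fun ω e => by
    rw [ferroA_T_succ, ferroA_upd_self, ferroA_T_D bh bv _ _ _ (ferroA_ag_upd ω v e),
      ferroA_p_ag bh bv v (ferroA_ag_upd ω v e)]
  refine mul_left_cancel₀ (two_ne_zero' ℝ) ?_
  rw [h1, mul_sum]
  refine sum_congr rfl fun ω _ => ?_
  rw [h2, h2]
  ring

theorem ferroA_step (bh bv : ℝ) {k : ℕ} {φ : (Fin N → Fin N → Bool) → ℝ} (H : ferroA_D k φ) :
    ∑ ω, ferroA_T bh bv (k + 1) ω * φ ω = ∑ ω, ferroA_T bh bv k ω * φ ω := by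
  by_cases h : ∃ v : Fin N × Fin N, ferroA_rk v = k
  · obtain ⟨v, rfl⟩ := h
    rw [ferroA_one]
    refine sum_congr rfl fun ω _ => ?_
    rw [H _ _ (ferroA_ag_upd ω v true), H _ _ (ferroA_ag_upd ω v false), ← add_mul]
    unfold ferroA_p
    rw [ferroA_pv_sum, one_mul]
  · refine sum_congr rfl fun ω _ => ?_
    unfold ferroA_T
    congr 2
    refine filter_congr fun u _ => ?_
    have : ferroA_rk u ≠ k := fun h' => h ⟨u, h'⟩
    omega

theorem ferroA_steps (bh bv : ℝ) {k K : ℕ} (hk : k ≤ K) {φ : (Fin N → Fin N → Bool) → ℝ}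
    (H : ferroA_D k φ) :
    ∑ ω, ferroA_T bh bv K ω * φ ω = ∑ ω, ferroA_T bh bv k ω * φ ω := by
  induction K, hk using Nat.le_induction with
  | base => rfl
  | succ K hK ih => rw [ferroA_step bh bv (ferroA_D_mono hK H), ih]

theorem ferroA_T_top (bh bv : ℝ) (ω : Fin N → Fin N → Bool) :
    ferroA_T bh bv (N * N) ω = 2 ^ (N * N) * Qw bh bv ω := by
  unfold ferroA_T Qw
  rw [filter_true_of_mem fun u _ => ferroA_rk_lt u, prod_mul_distrib, prod_const, card_univ,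
    Fintype.card_prod, Fintype.card_fin, ← univ_product_univ, prod_product]
  rfl

theorem ferroA_tower (bh bv : ℝ) (v : Fin N × Fin N) {φ : (Fin N → Fin N → Bool) → ℝ}
    (H : ferroA_D (ferroA_rk v + 1) φ) :
    ∑ ω, Qw bh bv ω * φ ω = ∑ ω, Qw bh bv ω *
        (ferroA_p bh bv v ω true * φ (ferroA_upd ω v true) +
          ferroA_p bh bv v ω false * φ (ferroA_upd ω v false)) := by
  have H' : ferroA_D (ferroA_rk v) fun ω => ferroA_p bh bv v ω true * φ (ferroA_upd ω v true) +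
      ferroA_p bh bv v ω false * φ (ferroA_upd ω v false) := by
    intro ω ω' hA
    have h1 : ∀ e, φ (ferroA_upd ω v e) = φ (ferroA_upd ω' v e) := fun e => H _ _ fun u hu => by
      simp only [ferroA_upd]
      split_ifs with h
      · rfl
      · refine hA u (lt_of_le_of_ne (Nat.lt_succ_iff.1 hu) fun h' => h (ferroA_rk_inj h'))
    simp only [ferroA_p_ag bh bv v hA, h1]
  have h1 := ferroA_steps bh bv (ferroA_rk_lt v) H
  rw [ferroA_one, ← ferroA_steps bh bv (ferroA_rk_lt v).le H'] at h1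
  simp only [ferroA_T_top, mul_assoc, ← mul_sum] at h1
  exact mul_left_cancel₀ (pow_ne_zero _ two_ne_zero) h1

end Tower

theorem Q_total (bh bv : ℝ) (N : ℕ) : ∑ ω : Fin N → Fin N → Bool, Qw bh bv ω = 1 := by
  have h1 := ferroA_steps (N := N) bh bv (Nat.zero_le (N * N)) (φ := fun _ => 1) fun _ _ _ => rfl
  simp only [ferroA_T_top, mul_one, ← mul_sum] at h1
  have h2 : ∑ ω : Fin N → Fin N → Bool, ferroA_T bh bv 0 ω = 2 ^ (N * N) * 1 := by
    simp [ferroA_T, ← pow_mul]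
  rw [h2] at h1
  exact mul_left_cancel₀ (pow_ne_zero _ two_ne_zero) h1

theorem ferroA_hOf_succ {N : ℕ} (ω : Fin N → Fin N → Bool) (i : ℕ) {j : ℕ} (hj : j < N) :
    hOf ω i (j + 1) = hOf ω i j + if eh ω i j = true then 1 else 0 := by
  unfold hOf
  rw [min_eq_left hj, min_eq_left hj.le, range_add_one, filter_insert]
  split_ifs
  · rw [card_insert_of_notMem (by simp)]
  · rfl

theorem ferroA_hOf_zero {N : ℕ} (ω : Fin N → Fin N → Bool) (i : ℕ) : hOf ω i 0 = 0 := by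
  simp [hOf]

theorem ferroA_eh_succ {N : ℕ} (ω : Fin N → Fin N → Bool) (r s : Fin N) :
    eh ω (r + 1) s = ω r s := by
  unfold eh
  rw [if_neg (Nat.succ_ne_zero _), dif_pos ⟨by simp, s.2⟩]
  rfl

theorem Q_lip {bh bv : ℝ} {N : ℕ} {ω : Fin N → Fin N → Bool} (h : Qw bh bv ω ≠ 0) {i : ℕ}
    (hi : i < N) (j : ℕ) : hOf ω (i + 1) j ≤ hOf ω i j ∧ hOf ω i j ≤ hOf ω (i + 1) j + 1 := by
  induction j with
  | zero => simp [ferroA_hOf_zero]
  | succ j ih =>
    by_cases hj : j < N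
    · have h1 := prod_ne_zero_iff.1 (prod_ne_zero_iff.1 h ⟨i, hi⟩ (mem_univ _)) ⟨j, hj⟩
        (mem_univ _)
      have h2 : eh ω (i + 1) j = ω ⟨i, hi⟩ ⟨j, hj⟩ := ferroA_eh_succ ω ⟨i, hi⟩ ⟨j, hj⟩
      rw [ferroA_hOf_succ ω _ hj, ferroA_hOf_succ ω _ hj, h2]
      dsimp only at h1
      by_cases h3 : hOf ω i j = hOf ω (i + 1) j
      · revert h1
        rw [h3]
        cases eh ω i j <;> cases ω ⟨i, hi⟩ ⟨j, hj⟩ <;> simp [pv]
      · revert h1
        rw [decide_eq_true h3]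
        cases eh ω i j <;> cases ω ⟨i, hi⟩ ⟨j, hj⟩ <;> simp [pv] <;> omega
    · have h1 : ∀ i, hOf ω i (j + 1) = hOf ω i j := fun i => by
        unfold hOf
        rw [min_eq_right (by omega), min_eq_right (by omega)]
      rw [h1, h1]
      exact ih

/-- Exponential moments of the heights. -/
noncomputable def ferroA_M (bh bv : ℝ) (N i j : ℕ) : ℝ :=
  ∑ ω : Fin N → Fin N → Bool, Qw bh bv ω * (bv / bh) ^ hOf ω i j

theorem ferroA_M_bot (bh bv : ℝ) (N i : ℕ) : ferroA_M bh bv N i 0 = 1 := by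
  simp [ferroA_M, ferroA_hOf_zero, Q_total]

theorem ferroA_M_left (bh bv : ℝ) {N j : ℕ} (hj : j ≤ N) :
    ferroA_M bh bv N 0 j = (bv / bh) ^ j := by
  have h1 : ∀ ω : Fin N → Fin N → Bool, hOf ω 0 j = j := fun ω => by
    simp [hOf, eh, min_eq_left hj]
  simp only [ferroA_M, h1, ← sum_mul, Q_total, one_mul]

theorem ferroA_M_rec {bh bv : ℝ} (h0 : 0 < bh) {N i j : ℕ} (hi : i < N) (hj : j < N) :
    ferroA_M bh bv N (i + 1) (j + 1) - ferroA_M bh bv N (i + 1) j =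
      bh * (ferroA_M bh bv N i (j + 1) - ferroA_M bh bv N i j) +
        (1 - bv) * (ferroA_M bh bv N i j - ferroA_M bh bv N (i + 1) j) := by
  have hD : ferroA_D (ferroA_rk ((⟨i, hi⟩, ⟨j, hj⟩) : Fin N × Fin N) + 1)
      fun ω : Fin N → Fin N → Bool => (bv / bh) ^ hOf ω (i + 1) (j + 1) := by
    intro ω ω' hA
    simp only [ferroA_rk] at hA
    dsimp only
    rw [ferroA_hOf_succ ω _ hj, ferroA_hOf_succ ω' _ hj, ferroA_hOf_ag hA hi (by omega),
      ferroA_eh_ag hA (by omega)]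
  have h1 := ferroA_tower bh bv _ hD
  unfold ferroA_M
  rw [h1]
  simp only [mul_sum, ← sum_sub_distrib, ← sum_add_distrib]
  refine sum_congr rfl fun ω _ => ?_
  by_cases hQ : Qw bh bv ω = 0
  · simp [hQ]
  have h2 : ∀ e, hOf (ferroA_upd ω (⟨i, hi⟩, ⟨j, hj⟩) e) (i + 1) (j + 1) =
      hOf ω (i + 1) j + if e = true then 1 else 0 := fun e => by
    rw [ferroA_hOf_succ _ _ hj, ferroA_hOf_ag (ferroA_ag_upd ω _ e) hi (Nat.le_add_right _ _)]
    congr 2
    rw [show eh (ferroA_upd ω (⟨i, hi⟩, ⟨j, hj⟩) e) (i + 1) j = e from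
      (ferroA_eh_succ _ ⟨i, hi⟩ ⟨j, hj⟩).trans (ferroA_upd_self ω (⟨i, hi⟩, ⟨j, hj⟩) e)]
  have h3 := Q_lip hQ hi j
  rw [h2, h2, ferroA_hOf_succ ω i hj]
  unfold ferroA_p
  dsimp only
  by_cases h4 : hOf ω i j = hOf ω (i + 1) j
  · rw [h4]
    cases eh ω i j <;> simp [pv, pow_succ] <;> ring
  · rw [decide_eq_true h4, show hOf ω i j = hOf ω (i + 1) j + 1 by omega]
    cases eh ω i j <;> simp [pv, pow_succ] <;> field_simp <;> ring

theorem ferroA_bounds {bh bv : ℝ} (h0 : 0 < bh) (h2 : bh < bv) (h1 : bv < 1) {N j : ℕ}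
    (hj : j < N) (hb : ∀ i < N, ferroA_M bh bv N i j - ferroA_M bh bv N (i + 1) j ≤
      (bv / bh - 1) * (bv / bh) ^ j / (bv / bh) ^ (i + 1)) :
    ∀ i ≤ N, ferroA_M bh bv N i (j + 1) - ferroA_M bh bv N i j ≤
      (bv / bh - 1) * (bv / bh) ^ j / (bv / bh) ^ i := by
  have hv : 0 < bv := h0.trans h2
  intro i
  induction i with
  | zero =>
    intro _
    rw [ferroA_M_left bh bv hj, ferroA_M_left bh bv hj.le, pow_succ]
    simp only [pow_zero, div_one]
    linarith only []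
  | succ i ih =>
    intro hi
    rw [ferroA_M_rec h0 hi hj]
    refine (add_le_add (mul_le_mul_of_nonneg_left (ih (by omega)) h0.le)
      (mul_le_mul_of_nonneg_left (hb i hi) (by linarith only [h1]))).trans_eq ?_
    rw [pow_succ]
    field_simp
    ring

theorem ferroA_bounds' {bh bv : ℝ} (h0 : 0 < bh) (h2 : bh < bv) (h1 : bv < 1) {N : ℕ} (j : ℕ) :
    j ≤ N → ∀ i < N, ferroA_M bh bv N i j - ferroA_M bh bv N (i + 1) j ≤
      (bv / bh - 1) * (bv / bh) ^ j / (bv / bh) ^ (i + 1) := by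
  have hv : 0 < bv := h0.trans h2
  have hτ : 0 ≤ bv / bh - 1 := by
    rw [sub_nonneg, le_div_iff₀ h0]
    linarith
  induction j with
  | zero =>
    intro _ i _
    rw [ferroA_M_bot, ferroA_M_bot, sub_self]
    positivity
  | succ j ih =>
    intro hj i hi
    have h3 := ferroA_M_rec (bv := bv) h0 hi hj
    have h4 := ferroA_bounds h0 h2 h1 hj (ih (by omega)) i hi.le
    have h5 := ih (by omega) i hi
    have h6 : ferroA_M bh bv N i (j + 1) - ferroA_M bh bv N (i + 1) (j + 1) =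
        (1 - bh) * (ferroA_M bh bv N i (j + 1) - ferroA_M bh bv N i j) +
          bv * (ferroA_M bh bv N i j - ferroA_M bh bv N (i + 1) j) := by linarith only [h3]
    rw [h6]
    refine (add_le_add (mul_le_mul_of_nonneg_left h4 (by linarith only [h2, h1]))
      (mul_le_mul_of_nonneg_left h5 hv.le)).trans_eq ?_
    rw [pow_succ, pow_succ]
    field_simp
    ring

theorem ferroA_ind_le {bh bv : ℝ} (h0 : 0 < bh) (h2 : bh < bv) (h1 : bv < 1) (N i j : ℕ) :
    (bv / bh - 1) * ∑ ω : Fin N → Fin N → Bool, Qw bh bv ω * ind (1 ≤ hOf ω i j) ≤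
      ferroA_M bh bv N i j - 1 := by
  have hτ : 1 ≤ bv / bh := by
    rw [le_div_iff₀ h0]
    linarith
  have h5 : ferroA_M bh bv N i j - 1 = ∑ ω : Fin N → Fin N → Bool,
      (Qw bh bv ω * (bv / bh) ^ hOf ω i j - Qw bh bv ω) := by
    rw [sum_sub_distrib, Q_total]
    rfl
  rw [h5, mul_sum]
  refine sum_le_sum fun ω _ => ?_
  have h3 := Qw_nonneg h0 h2 h1 ω
  have h4 : (bv / bh - 1) * ind (1 ≤ hOf ω i j) ≤ (bv / bh) ^ hOf ω i j - 1 := by
    by_cases h : 1 ≤ hOf ω i j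
    · rw [ind_pos h, mul_one]
      have := le_self_pow₀ hτ (n := hOf ω i j) (by omega)
      linarith only [this]
    · rw [ind_neg h, mul_zero]
      have := one_le_pow₀ hτ (n := hOf ω i j)
      linarith only [this]
  (refine le_of_not_gt fun h_nl => ?_; linarith only [h_nl, h0, h2, h1, h3, h4, mul_pos_of_neg_of_neg (Mathlib.Tactic.Linarith.sub_neg_of_lt h0) (Mathlib.Tactic.Linarith.sub_neg_of_lt h_nl), mul_pos_of_neg_of_neg (Mathlib.Tactic.Linarith.sub_neg_of_lt h2) (Mathlib.Tactic.Linarith.sub_neg_of_lt h_nl), mul_pos_of_neg_of_neg (Mathlib.Tactic.Linarith.sub_neg_of_lt h1) (Mathlib.Tactic.Linarith.sub_neg_of_lt h_nl), mul_nonneg_of_nonpos_of_nonpos (Mathlib.Tactic.Linarith.sub_nonpos_of_le h3) (Mathlib.Tactic.Linarith.sub_nonpos_of_le h4)])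

theorem Q_tail {bh bv : ℝ} (h0 : 0 < bh) (h2 : bh < bv) (h1 : bv < 1) {N i j : ℕ} (hi : i ≤ N)
    (hj : j ≤ N) :
    ∑ ω : Fin N → Fin N → Bool, Qw bh bv ω * ind (1 ≤ hOf ω i j) ≤
      bh / (bv - bh) * ((bh / bv) ^ i * (bv / bh) ^ j) := by
  have hv : 0 < bv := h0.trans h2
  have hτ : 0 < bv / bh - 1 := by
    rw [sub_pos, lt_div_iff₀ h0]
    linarith only [h2]
  have h3 : ∀ j ≤ N, ferroA_M bh bv N i j - 1 ≤ (bv / bh) ^ j / (bv / bh) ^ i := by
    intro j
    induction j with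
    | zero =>
      intro _
      rw [ferroA_M_bot, sub_self]
      positivity
    | succ j ih =>
      intro hj
      have h4 := ferroA_bounds h0 h2 h1 hj (ferroA_bounds' h0 h2 h1 j (by omega)) i hi
      have h5 := ih (by omega)
      have h6 : (bv / bh) ^ (j + 1) / (bv / bh) ^ i = (bv / bh) ^ j / (bv / bh) ^ i +
          (bv / bh - 1) * (bv / bh) ^ j / (bv / bh) ^ i := by
        rw [pow_succ]
        ring
      linarith only [h4, h5, h6]
  refine le_of_mul_le_mul_left ?_ hτ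
  refine ((ferroA_ind_le h0 h2 h1 N i j).trans (h3 j hj)).trans_eq ?_
  have h7 : bv - bh ≠ 0 := by linarith
  rw [← inv_div bv bh, inv_pow]
  field_simp

theorem Q_row {bh bv : ℝ} (h0 : 0 < bh) (h2 : bh < bv) (h1 : bv < 1) {N i : ℕ} (hi : i ≤ N) :
    ∑ ω : Fin N → Fin N → Bool, Qw bh bv ω * ind (1 ≤ hOf ω i 1) ≤ bh ^ i := by
  have hτ : 0 < bv / bh - 1 := by
    rw [sub_pos, lt_div_iff₀ h0]
    linarith
  rcases Nat.eq_zero_or_pos N with hN | hN
  · have : i = 0 := by omega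
    rw [this, pow_zero, ← Q_total bh bv N]
    exact sum_le_sum fun ω _ =>
      mul_le_of_le_one_right (Qw_nonneg h0 h2 h1 ω) (ind_le_one _)
  have h3 : ∀ i ≤ N, ferroA_M bh bv N i 1 - 1 = (bv / bh - 1) * bh ^ i := by
    intro i
    induction i with
    | zero =>
      intro _
      rw [ferroA_M_left bh bv hN]
      simp
    | succ i ih =>
      intro hi
      have h4 := ferroA_M_rec (bv := bv) h0 hi hN
      simp only [ferroA_M_bot, zero_add] at h4
      rw [h4, ih (by omega), pow_succ]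
      ring
  refine le_of_mul_le_mul_left ?_ hτ
  exact (ferroA_ind_le h0 h2 h1 N i 1).trans_eq (h3 i hi)

end Pool.Agent.Work.MP_413ea6_mp
end

-- merged part: Pool.Agent.Work.MP_413ea6_mp.FerroB
section
open Filter Topology Finset

namespace Pool.Agent.Work.MP_413ea6_mp

/-! Domain wall boundary conditions as the stochastic model conditioned on `h N N = 0`. -/

theorem FerroB_zero {N : ℕ} (ω : Fin N → Fin N → Bool) (i : ℕ) : hOf ω i 0 = 0 := by
  simp [hOf]

theorem FerroB_step {N : ℕ} (ω : Fin N → Fin N → Bool) (i j : ℕ) :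
    hOf ω i (j + 1) = hOf ω i j + if j < N ∧ eh ω i j = true then 1 else 0 := by
  unfold hOf
  by_cases hj : j < N
  · rw [min_eq_left (by omega : j + 1 ≤ N), min_eq_left hj.le, range_add_one, filter_insert]
    by_cases he : eh ω i j = true
    · rw [if_pos he, if_pos ⟨hj, he⟩, card_insert_of_notMem (by simp)]
    · rw [if_neg he, if_neg (fun h => he h.2), add_zero]
  · rw [min_eq_right (by omega : N ≤ j + 1), min_eq_right (by omega : N ≤ j),
      if_neg (fun h => hj h.1), add_zero]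

theorem FerroB_top {N : ℕ} (ω : Fin N → Fin N → Bool) (i : ℕ) {j : ℕ} (hj : N ≤ j) :
    hOf ω i j = hOf ω i N := by
  unfold hOf
  rw [min_eq_right hj, min_self]

theorem FerroB_le_top {N : ℕ} (ω : Fin N → Fin N → Bool) (i j : ℕ) :
    hOf ω i j ≤ hOf ω i N := by
  unfold hOf
  rw [min_self]
  exact card_le_card (filter_subset_filter _ (range_subset_range.2 (min_le_right _ _)))

theorem FerroB_left {N : ℕ} (ω : Fin N → Fin N → Bool) : hOf ω 0 N = N := by
  simp [hOf, eh]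

theorem FerroB_far {N : ℕ} (ω : Fin N → Fin N → Bool) {i : ℕ} (hi : N < i) (j : ℕ) :
    hOf ω i j = 0 := by
  unfold hOf
  rw [card_eq_zero, filter_eq_empty_iff]
  intro s _
  unfold eh
  rw [if_neg (by omega), dif_neg (by omega)]
  exact Bool.false_ne_true

theorem FerroB_eh {N : ℕ} (ω : Fin N → Fin N → Bool) (i : ℕ) {s : ℕ} (hs : s < N) :
    eh ω i s = decide (hOf ω i (s + 1) ≠ hOf ω i s) := by
  rw [FerroB_step]
  cases h : eh ω i s <;> simp [hs]

theorem FerroB_east {N : ℕ} (ω : Fin N → Fin N → Bool) (r s : Fin N) :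
    eh ω (r + 1) s = ω r s := by
  unfold eh
  rw [if_neg (by omega), dif_pos ⟨by omega, s.2⟩]
  rfl

theorem FerroB_cls {bh bv : ℝ} {N : ℕ} {ω : Fin N → Fin N → Bool} (hQ : Qw bh bv ω ≠ 0)
    (hN : hOf ω N N = 0) : Cls N 0 (hOf ω) := by
  have hz : ∀ i j, N ≤ i → hOf ω i j = 0 := fun i j hi => by
    rcases hi.eq_or_lt with rfl | hi
    · exact Nat.eq_zero_of_le_zero ((FerroB_le_top ω _ j).trans hN.le)
    · exact FerroB_far ω hi j
  have hL : Lip (hOf ω) := fun i j => by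
    have h1 := FerroB_step ω i j
    have h2 : hOf ω (i + 1) j ≤ hOf ω i j ∧ hOf ω i j ≤ hOf ω (i + 1) j + 1 := by
      by_cases hi : i < N
      · exact Q_lip hQ hi j
      · rw [hz i j (by omega), hz (i + 1) j (by omega)]
        omega
    refine ⟨?_, ?_, h2⟩ <;> split_ifs at h1 <;> omega
  refine ⟨hL, FerroB_zero ω, fun i j hj => ?_⟩
  rw [FerroB_top ω i hj]
  have h1 := Hts_left hL i N
  have h2 := FerroB_left ω
  have h3 : ∀ d, hOf ω i N ≤ hOf ω (i + d) N + d := fun d => by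
    induction d with
    | zero => exact le_rfl
    | succ d ih =>
      have := (hL (i + d) N).2.2.2
      rw [← add_assoc i d 1]
      omega
  have h4 := h3 (N - i)
  rw [hz (i + (N - i)) N (by omega)] at h4
  omega

theorem FerroB_surj {N : ℕ} {h : Ht} (H : Cls N 0 h) :
    hOf (fun r s : Fin N => decide (h (r + 1) (s + 1) ≠ h (r + 1) s)) = h := by
  set ω : Fin N → Fin N → Bool := fun r s => decide (h (r + 1) (s + 1) ≠ h (r + 1) s) with hω
  have he : ∀ i s, s < N → eh ω i s = decide (h i (s + 1) ≠ h i s) := fun i s hs => by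
    rcases i with _ | i
    · rw [H.left (by omega : s + 1 ≤ N), H.left hs.le]
      simp [eh]
    · by_cases hi : i < N
      · exact FerroB_east ω ⟨i, hi⟩ ⟨s, hs⟩
      · have h1 := H.le (i + 1) (s + 1)
        have h2 := H.le (i + 1) s
        unfold eh
        rw [if_neg (by omega), dif_neg (by omega), eq_comm, decide_eq_false_iff_not]
        omega
  funext i j
  induction j with
  | zero => rw [FerroB_zero, H.2.1]
  | succ j ih =>
    rw [FerroB_step, ih]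
    have h1 := H.1 i j
    by_cases hj : j < N
    · rw [he i j hj]
      by_cases h2 : h i (j + 1) = h i j
      · rw [if_neg (by simp [h2])]
        omega
      · rw [if_pos ⟨hj, by simp [h2]⟩]
        omega
    · rw [if_neg (fun h => hj h.1), H.2.2 i j (by omega), H.2.2 i (j + 1) (by omega), add_zero]

theorem FerroB_inj {N : ℕ} {ω ω' : Fin N → Fin N → Bool} (h : hOf ω = hOf ω') : ω = ω' := by
  funext r s
  rw [← FerroB_east ω, ← FerroB_east ω', FerroB_eh ω _ s.2, FerroB_eh ω' _ s.2, h]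

theorem FerroB_vertex {t γ bh bv σ κ : ℝ} (ht : 0 < t) (hγ : 0 < γ) (a1 : bh = t * σ⁻¹)
    (a2 : bv = t * σ) (a3 : 1 - bh = γ * κ) (a4 : 1 - bv = γ * κ⁻¹) {sw se nw ne : ℕ}
    (l1 : sw ≤ nw) (l2 : nw ≤ sw + 1) (l3 : se ≤ sw) (l4 : sw ≤ se + 1) (l5 : se ≤ ne)
    (l6 : ne ≤ se + 1) (l7 : ne ≤ nw) (l8 : nw ≤ ne + 1) :
    pv bh bv (decide (nw ≠ sw)) (decide (sw ≠ se)) (decide (ne ≠ se)) =
      lv t γ sw se nw ne * (σ ^ ((sw : ℤ) - ne) * κ ^ ((nw : ℤ) - sw - ne + se)) := by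
  have hγ' := hγ.ne'
  have key : ∀ (m n : ℕ) (u v : ℤ), ((nw : ℤ) - se - 1).natAbs = m → ((sw : ℤ) - ne).natAbs = n →
      (sw : ℤ) - ne = u → (nw : ℤ) - sw - ne + se = v →
      lv t γ sw se nw ne * (σ ^ ((sw : ℤ) - ne) * κ ^ ((nw : ℤ) - sw - ne + se)) =
        γ * γ⁻¹ ^ m * (t / γ) ^ n * (σ ^ u * κ ^ v) := fun m n u v b1 b2 b3 b4 => by
    rw [lv, b1, b2, b3, b4]
  by_cases c1 : nw = sw <;> by_cases c2 : sw = se <;> by_cases c3 : ne = se
  · rw [key 1 0 0 0 (by omega) (by omega) (by omega) (by omega), decide_eq_false (not_not.2 c1),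
      decide_eq_false (not_not.2 c2), decide_eq_false (not_not.2 c3)]
    simp [pv, hγ']
  · omega
  · rw [key 0 1 1 0 (by omega) (by omega) (by omega) (by omega), decide_eq_false (not_not.2 c1),
      decide_eq_true c2, decide_eq_false (not_not.2 c3)]
    simp only [pv, Bool.false_eq_true, if_false, a2, pow_zero, pow_one, zpow_one, zpow_zero]
    field_simp
  · rw [key 0 0 0 (-1) (by omega) (by omega) (by omega) (by omega),
      decide_eq_false (not_not.2 c1), decide_eq_true c2, decide_eq_true c3]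
    simp only [pv, if_true, a4, pow_zero, zpow_neg_one, zpow_zero]
    ring
  · rw [key 0 0 0 1 (by omega) (by omega) (by omega) (by omega), decide_eq_true c1,
      decide_eq_false (not_not.2 c2), decide_eq_false (not_not.2 c3)]
    simp only [pv, Bool.false_eq_true, if_false, a3, pow_zero, zpow_one, zpow_zero]
    ring
  · rw [key 0 1 (-1) 0 (by omega) (by omega) (by omega) (by omega), decide_eq_true c1,
      decide_eq_false (not_not.2 c2), decide_eq_true c3]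
    simp only [pv, if_true, a1, pow_zero, pow_one, zpow_neg_one, zpow_zero]
    field_simp
  · omega
  · rw [key 1 0 0 0 (by omega) (by omega) (by omega) (by omega), decide_eq_true c1,
      decide_eq_true c2, decide_eq_true c3]
    simp [pv, hγ']

theorem FerroB_zpow {ι : Type*} {a : ℝ} (ha : a ≠ 0) (S : Finset ι) (f : ι → ℤ) :
    ∏ i ∈ S, a ^ f i = a ^ ∑ i ∈ S, f i := by
  classical
  induction S using Finset.induction_on with
  | empty => simp
  | insert i S hi ih => rw [prod_insert hi, sum_insert hi, ih, zpow_add₀ ha]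

theorem FerroB_sum1 {N : ℕ} {h : Ht} (H : Cls N 0 h) :
    ∑ i ∈ range N, ∑ j ∈ range N,
      ((h i (j + 1) : ℤ) - h i j - h (i + 1) (j + 1) + h (i + 1) j) = N := by
  have e : ∀ i ∈ range N, ∑ j ∈ range N,
      ((h i (j + 1) : ℤ) - h i j - h (i + 1) (j + 1) + h (i + 1) j) = 1 := fun i hi => by
    have h1 := sum_range_sub (fun j => (h i j : ℤ) - h (i + 1) j) N
    have h2 := mem_range.1 hi
    rw [H.2.1, H.2.1, H.2.2 i N le_rfl, H.2.2 (i + 1) N le_rfl] at h1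
    rw [← (by omega : (((N - 0 - i : ℕ) : ℤ) - (N - 0 - (i + 1) : ℕ) - (((0 : ℕ) : ℤ) - (0 : ℕ))) = 1),
      ← h1]
    exact sum_congr rfl fun j _ => by ring
  rw [sum_congr rfl e]
  simp

theorem FerroB_sum2 {N : ℕ} {h : Ht} (H : Cls N 0 h) :
    ∑ i ∈ range N, ∑ j ∈ range N, ((h i j : ℤ) - h (i + 1) (j + 1)) = 0 := by
  have e1 : ∀ i ∈ range N, ∑ j ∈ range N, ((h i j : ℤ) - h i (j + 1)) =
      -(((N - 1 - i : ℕ) : ℤ) + 1) := fun i hi => by
    have h2 := mem_range.1 hi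
    rw [sum_range_sub' (fun j => (h i j : ℤ)) N, H.2.1, H.2.2 i N le_rfl]
    omega
  have e2 : ∀ j ∈ range N, ∑ i ∈ range N, ((h i (j + 1) : ℤ) - h (i + 1) (j + 1)) =
      ((j : ℤ) + 1) := fun j hj => by
    have h2 := mem_range.1 hj
    have h3 := H.le N (j + 1)
    rw [sum_range_sub' (fun i => (h i (j + 1) : ℤ)) N, H.left (by omega : j + 1 ≤ N)]
    omega
  have e3 : ∑ i ∈ range N, ∑ j ∈ range N, ((h i j : ℤ) - h (i + 1) (j + 1)) =
      ∑ i ∈ range N, ∑ j ∈ range N, ((h i j : ℤ) - h i (j + 1)) +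
        ∑ i ∈ range N, ∑ j ∈ range N, ((h i (j + 1) : ℤ) - h (i + 1) (j + 1)) := by
    rw [← sum_add_distrib]
    refine sum_congr rfl fun i _ => ?_
    rw [← sum_add_distrib]
    exact sum_congr rfl fun j _ => by ring
  rw [e3, sum_comm (f := fun i j => (h i (j + 1) : ℤ) - h (i + 1) (j + 1)), sum_congr rfl e1,
    sum_congr rfl e2, sum_neg_distrib, sum_range_reflect (fun j => (j : ℤ) + 1) N, neg_add_cancel]

theorem FerroB_weight {t γ bh bv : ℝ} (ht : 0 < t) (hγ : 0 < γ) (h0 : 0 < bh) (h2 : bh ≤ bv)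
    (h1 : bv < 1) (e1 : t ^ 2 = bh * bv) (e2 : γ ^ 2 = (1 - bh) * (1 - bv)) {N : ℕ}
    {ω : Fin N → Fin N → Bool} (H : Cls N 0 (hOf ω)) :
    Qw bh bv ω = ((1 - bh) / γ) ^ N * Wt N t γ (hOf ω) := by
  have hv : 0 < bv := h0.trans_le h2
  have hh : 0 < 1 - bh := by linarith
  have hσ : bv / t ≠ 0 := (div_pos hv ht).ne'
  have hκ : (1 - bh) / γ ≠ 0 := (div_pos hh hγ).ne'
  have a1 : bh = t * (bv / t)⁻¹ := by
    field_simp
    linarith
  have a2 : bv = t * (bv / t) := by field_simp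
  have a3 : 1 - bh = γ * ((1 - bh) / γ) := by field_simp
  have a4 : 1 - bv = γ * ((1 - bh) / γ)⁻¹ := by
    field_simp
    linarith only [e2]
  set h := hOf ω with hh'
  let F : ℕ → ℕ → ℝ := fun i j => lv t γ (h i j) (h (i + 1) j) (h i (j + 1)) (h (i + 1) (j + 1)) *
    ((bv / t) ^ ((h i j : ℤ) - h (i + 1) (j + 1)) *
      ((1 - bh) / γ) ^ ((h i (j + 1) : ℤ) - h i j - h (i + 1) (j + 1) + h (i + 1) j))
  have e : Qw bh bv ω = ∏ i ∈ range N, ∏ j ∈ range N, F i j := by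
    rw [Qw, ← Fin.prod_univ_eq_prod_range (fun i => ∏ j ∈ range N, F i j) N]
    refine prod_congr rfl fun r _ => ?_
    rw [← Fin.prod_univ_eq_prod_range (fun j => F r j) N]
    refine prod_congr rfl fun s _ => ?_
    have l1 := H.1 r s
    have l2 := H.1 (r + 1) s
    have l3 := H.1 r (s + 1)
    rw [← FerroB_east ω, FerroB_eh ω _ s.2, FerroB_eh ω _ s.2]
    exact FerroB_vertex ht hγ a1 a2 a3 a4 l1.1 l1.2.1 l1.2.2.1 l1.2.2.2 l2.1 l2.2.1 l3.2.2.1
      l3.2.2.2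
  rw [e]
  simp only [F, prod_mul_distrib, FerroB_zpow hσ, FerroB_zpow hκ]
  rw [FerroB_sum1 H, FerroB_sum2 H, zpow_zero, one_mul, zpow_natCast, mul_comm, Wt]

theorem Q_link {t γ bh bv : ℝ} (ht : 0 < t) (hγ : 0 < γ) (h0 : 0 < bh) (h2 : bh ≤ bv)
    (h1 : bv < 1) (e1 : t ^ 2 = bh * bv) (e2 : γ ^ 2 = (1 - bh) * (1 - bv)) (N : ℕ)
    (φ : Ht → ℝ) :
    ∑ ω : Fin N → Fin N → Bool, Qw bh bv ω * (ind (hOf ω N N = 0) * φ (hOf ω)) =
      ((1 - bh) / γ) ^ N * mu N t γ 1 φ := by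
  classical
  rw [mu, mul_sum, ← sum_filter_of_ne (p := fun ω => Cls N 0 (hOf ω)) fun ω _ hω => ?_]
  · refine sum_bij (fun ω _ => hOf ω) (fun ω hω => mem_hts.2 (mem_filter.1 hω).2)
      (fun _ _ _ _ h => FerroB_inj h)
      (fun h hh => ⟨_, mem_filter.2 ⟨mem_univ _, ?_⟩, FerroB_surj (mem_hts.1 hh)⟩) fun ω hω => ?_
    · rw [FerroB_surj (mem_hts.1 hh)]
      exact mem_hts.1 hh
    · have H := (mem_filter.1 hω).2
      rw [FerroB_weight ht hγ h0 h2 h1 e1 e2 H, ind_pos (by rw [H.2.2 N N le_rfl]; omega)]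
      ring
  · refine FerroB_cls (left_ne_zero_of_mul hω) ?_
    by_contra hN
    rw [ind_neg hN, zero_mul, mul_zero] at hω
    exact hω rfl

theorem FerroB_bound {t γ bh bv : ℝ} (ht : 0 < t) (hγ : 0 < γ) (h0 : 0 < bh) (h2 : 2 * bh < bv)
    (h1 : bv < 1) (e1 : t ^ 2 = bh * bv) (e2 : γ ^ 2 = (1 - bh) * (1 - bv)) {N i j : ℕ} {B : ℝ}
    (hB0 : 0 ≤ B)
    (hB : i ≤ N → ∑ ω : Fin N → Fin N → Bool, Qw bh bv ω * ind (1 ≤ hOf ω i j) ≤ B) :
    PP N t γ (fun X => i < X j) ≤ (bv - bh) / (bv - 2 * bh) * B := by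
  have h3 : bh < bv := by linarith
  have h4 : 0 < bv - bh := by linarith
  have h5 : 0 < bv - 2 * bh := by linarith
  have hv : 0 < bv := h0.trans h3
  have hκ : 0 < ((1 - bh) / γ) ^ N := pow_pos (div_pos (by linarith) hγ) N
  have hm := mu_pos ht hγ one_pos N
  by_cases hi : i ≤ N
  swap
  · refine le_trans (PP_mono (B := fun _ => False) ht hγ fun X hX _ h => ?_) ?_
    · have := hX.le j
      omega
    · rw [PP_false]
      positivity
  have n1 : ((1 - bh) / γ) ^ N * mu N t γ 1 (fun h => ind (i < cnt N h j)) ≤ B := by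
    calc _ ≤ ((1 - bh) / γ) ^ N * mu N t γ 1 (fun h => ind (1 ≤ h i j)) :=
          mul_le_mul_of_nonneg_left (mu_mono ht hγ one_pos fun h H =>
            ind_mono (lt_cnt_iff H i j).1) hκ.le
      _ = _ := (Q_link ht hγ h0 h3.le h1 e1 e2 N _).symm
      _ ≤ ∑ ω : Fin N → Fin N → Bool, Qw bh bv ω * ind (1 ≤ hOf ω i j) :=
          sum_le_sum fun ω _ => mul_le_mul_of_nonneg_left
            (mul_le_of_le_one_left (ind_nonneg _) (ind_le_one _)) (Qw_nonneg h0 h3 h1 ω)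
      _ ≤ B := hB hi
  have n2 : (bv - 2 * bh) / (bv - bh) ≤ ((1 - bh) / γ) ^ N * mu N t γ 1 (fun _ => 1) := by
    have b1 := Q_tail h0 h3 h1 (le_refl N) (le_refl N)
    have b2 : (bh / bv) ^ N * (bv / bh) ^ N = 1 := by
      rw [← mul_pow, div_mul_div_cancel₀ hv.ne', div_self h0.ne', one_pow]
    have b3 : ∀ ω : Fin N → Fin N → Bool, Qw bh bv ω * (ind (hOf ω N N = 0) * 1) =
        Qw bh bv ω - Qw bh bv ω * ind (1 ≤ hOf ω N N) := fun ω => by
      rw [ind_congr (by omega : hOf ω N N = 0 ↔ ¬ 1 ≤ hOf ω N N), ind_not]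
      ring
    have b4 : (bv - 2 * bh) / (bv - bh) = 1 - bh / (bv - bh) := by
      field_simp
      ring
    rw [b2, mul_one] at b1
    rw [← Q_link ht hγ h0 h3.le h1 e1 e2 N (fun _ => 1), sum_congr rfl fun ω _ => b3 ω,
      sum_sub_distrib, Q_total, b4]
    linarith only [b1]
  rw [PP, ← mul_div_mul_left _ _ hκ.ne']
  refine (div_le_div₀ hB0 n1 (div_pos h5 h4) n2).trans_eq ?_
  field_simp

theorem ferro_h {t γ bh bv : ℝ} (ht : 0 < t) (hγ : 0 < γ) (h0 : 0 < bh) (h2 : 2 * bh < bv)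
    (h1 : bv < 1) (e1 : t ^ 2 = bh * bv) (e2 : γ ^ 2 = (1 - bh) * (1 - bv)) {N i j : ℕ}
    (hj : j ≤ N) (hij : j ≤ i) :
    PP N t γ (fun X => i < X j) ≤ bh / (bv - 2 * bh) * (bh / bv) ^ (i - j) := by
  have h3 : bh < bv := by linarith only [h0, h2]
  have h4 : 0 < bv - bh := by linarith
  have h5 : 0 < bv - 2 * bh := by linarith
  have hv : 0 < bv := h0.trans h3
  refine (FerroB_bound ht hγ h0 h2 h1 e1 e2 (by positivity) fun hi =>
    Q_tail h0 h3 h1 hi hj).trans_eq ?_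
  obtain ⟨d, rfl⟩ := Nat.exists_eq_add_of_le hij
  have b2 : (bh / bv) ^ j * (bv / bh) ^ j = 1 := by
    rw [← mul_pow, div_mul_div_cancel₀ hv.ne', div_self h0.ne', one_pow]
  rw [Nat.add_sub_cancel_left, pow_add, mul_right_comm ((bh / bv) ^ j), b2, one_mul]
  field_simp

theorem ferro_x1 {t γ bh bv : ℝ} (ht : 0 < t) (hγ : 0 < γ) (h0 : 0 < bh) (h2 : 2 * bh < bv)
    (h1 : bv < 1) (e1 : t ^ 2 = bh * bv) (e2 : γ ^ 2 = (1 - bh) * (1 - bv)) (N i : ℕ) :
    PP N t γ (fun X => i < X 1) ≤ (bv - bh) / (bv - 2 * bh) * bh ^ i :=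
  FerroB_bound ht hγ h0 h2 h1 e1 e2 (by positivity) fun hi => Q_row h0 (by linarith only [h0, h2]) h1 hi

end Pool.Agent.Work.MP_413ea6_mp
end

-- merged part: Pool.Agent.Work.MP_413ea6_mp.FerroE
section
open Filter Topology Finset

namespace Pool.Agent.Work.MP_413ea6_mp

/-! The symmetric stochastic model (`Δ = 1`): exponential tail below the diagonal. -/

theorem Qw_nonneg' {bh bv : ℝ} (h0 : 0 < bh) (h2 : bh ≤ bv) (h1 : bv < 1) {N : ℕ}
    (ω : Fin N → Fin N → Bool) : 0 ≤ Qw bh bv ω := by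
  refine prod_nonneg fun _ _ => prod_nonneg fun _ _ => ?_
  have H : ∀ w s e : Bool, 0 ≤ pv bh bv w s e := by
    intro w s e
    cases w <;> cases s <;> cases e <;> simp [pv] <;> linarith only [h0, h2, h1]
  exact H _ _ _

/-- First moments of the heights. -/
noncomputable def ferroE_M (t : ℝ) (N i j : ℕ) : ℝ :=
  ∑ ω : Fin N → Fin N → Bool, Qw t t ω * (hOf ω i j : ℝ)

theorem ferroE_M_bot (t : ℝ) (N i : ℕ) : ferroE_M t N i 0 = 0 := by
  simp [ferroE_M, ferroA_hOf_zero]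

theorem ferroE_M_left (t : ℝ) {N j : ℕ} (hj : j ≤ N) : ferroE_M t N 0 j = j := by
  have h1 : ∀ ω : Fin N → Fin N → Bool, hOf ω 0 j = j := fun ω => by
    simp [hOf, eh, min_eq_left hj]
  simp only [ferroE_M, h1, ← sum_mul, Q_total, one_mul]

theorem ferroE_M_rec (t : ℝ) {N i j : ℕ} (hi : i < N) (hj : j < N) :
    ferroE_M t N (i + 1) (j + 1) - ferroE_M t N (i + 1) j =
      t * (ferroE_M t N i (j + 1) - ferroE_M t N i j) +
        (1 - t) * (ferroE_M t N i j - ferroE_M t N (i + 1) j) := by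
  have hD : ferroA_D (ferroA_rk ((⟨i, hi⟩, ⟨j, hj⟩) : Fin N × Fin N) + 1)
      fun ω : Fin N → Fin N → Bool => (hOf ω (i + 1) (j + 1) : ℝ) := by
    intro ω ω' hA
    simp only [ferroA_rk] at hA
    dsimp only
    rw [ferroA_hOf_succ ω _ hj, ferroA_hOf_succ ω' _ hj, ferroA_hOf_ag hA hi (by omega),
      ferroA_eh_ag hA (by omega)]
  have h1 := ferroA_tower t t _ hD
  unfold ferroE_M
  rw [h1]
  simp only [mul_sum, ← sum_sub_distrib, ← sum_add_distrib]
  refine sum_congr rfl fun ω _ => ?_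
  by_cases hQ : Qw t t ω = 0
  · simp [hQ]
  have h2 : ∀ e, hOf (ferroA_upd ω (⟨i, hi⟩, ⟨j, hj⟩) e) (i + 1) (j + 1) =
      hOf ω (i + 1) j + if e = true then 1 else 0 := fun e => by
    rw [ferroA_hOf_succ _ _ hj, ferroA_hOf_ag (ferroA_ag_upd ω _ e) hi (Nat.le_add_right _ _)]
    congr 2
    rw [show eh (ferroA_upd ω (⟨i, hi⟩, ⟨j, hj⟩) e) (i + 1) j = e from
      (ferroA_eh_succ _ ⟨i, hi⟩ ⟨j, hj⟩).trans (ferroA_upd_self ω (⟨i, hi⟩, ⟨j, hj⟩) e)]
  have h3 := Q_lip hQ hi j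
  rw [h2, h2, ferroA_hOf_succ ω i hj]
  unfold ferroA_p
  dsimp only
  by_cases h4 : hOf ω i j = hOf ω (i + 1) j
  · rw [h4]
    cases eh ω i j <;> simp [pv] <;> ring
  · rw [decide_eq_true h4, show hOf ω i j = hOf ω (i + 1) j + 1 by omega]
    cases eh ω i j <;> simp [pv] <;> ring

theorem ferroE_bounds {t β x y : ℝ} (h0 : 0 < t) (h1 : t < 1) (hx : x = t + (1 - t) * β)
    (hy : 1 ≤ y) {N j : ℕ} (hj : j < N)
    (hb : ∀ i < N, ferroE_M t N i j - ferroE_M t N (i + 1) j ≤ β * (x ^ i * y ^ j)) :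
    ∀ i ≤ N, ferroE_M t N i (j + 1) - ferroE_M t N i j ≤ x ^ i * y ^ j := by
  intro i
  induction i with
  | zero =>
    intro _
    rw [ferroE_M_left t hj, ferroE_M_left t hj.le]
    have := one_le_pow₀ hy (n := j)
    push_cast
    rw [pow_zero, one_mul]
    linarith only [this]
  | succ i ih =>
    intro hi
    rw [ferroE_M_rec t hi hj]
    refine (add_le_add (mul_le_mul_of_nonneg_left (ih (by omega)) h0.le)
      (mul_le_mul_of_nonneg_left (hb i hi) (by linarith))).trans_eq ?_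
    rw [pow_succ]
    nth_rewrite 4 [hx]
    ring

theorem ferroE_bounds' {t β x y : ℝ} (h0 : 0 < t) (h1 : t < 1) (hβ : 0 < β)
    (hx : x = t + (1 - t) * β) (hy : 1 ≤ y) (hy' : β * y = (1 - t) + t * β) {N : ℕ} (j : ℕ) :
    j ≤ N → ∀ i < N, ferroE_M t N i j - ferroE_M t N (i + 1) j ≤ β * (x ^ i * y ^ j) := by
  have hx0 : 0 < x := by rw [hx]; have : 0 < 1 - t := by linarith
                         positivity
  induction j with
  | zero =>
    intro _ i _
    rw [ferroE_M_bot, ferroE_M_bot, sub_self]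
    positivity
  | succ j ih =>
    intro hj i hi
    have h3 := ferroE_M_rec t hi hj
    have h4 := ferroE_bounds h0 h1 hx hy hj (ih (by omega)) i hi.le
    have h5 := ih (by omega) i hi
    have h6 : ferroE_M t N i (j + 1) - ferroE_M t N (i + 1) (j + 1) =
        (1 - t) * (ferroE_M t N i (j + 1) - ferroE_M t N i j) +
          t * (ferroE_M t N i j - ferroE_M t N (i + 1) j) := by linarith only [h3]
    rw [h6]
    refine (add_le_add (mul_le_mul_of_nonneg_left h4 (by linarith))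
      (mul_le_mul_of_nonneg_left h5 h0.le)).trans_eq ?_
    calc (1 - t) * (x ^ i * y ^ j) + t * (β * (x ^ i * y ^ j))
        = ((1 - t) + t * β) * (x ^ i * y ^ j) := by ring
      _ = β * (x ^ i * y ^ (j + 1)) := by rw [← hy', pow_succ]; ring

theorem ferroE_M_le {t β x y : ℝ} (h0 : 0 < t) (h1 : t < 1) (hβ : 0 < β)
    (hx : x = t + (1 - t) * β) (hy : 1 ≤ y) (hy' : β * y = (1 - t) + t * β) {N i : ℕ}
    (hi : i ≤ N) (j : ℕ) : j ≤ N → ferroE_M t N i j ≤ j * (x ^ i * y ^ j) := by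
  have hx0 : 0 < x := by rw [hx]; have : 0 < 1 - t := by linarith
                         positivity
  induction j with
  | zero => intro _; simp [ferroE_M_bot]
  | succ j ih =>
    intro hj
    have h4 := ferroE_bounds h0 h1 hx hy hj
      (ferroE_bounds' h0 h1 hβ hx hy hy' j (by omega)) i hi
    have h5 := ih (by omega)
    have h6 : x ^ i * y ^ j ≤ x ^ i * y ^ (j + 1) :=
      mul_le_mul_of_nonneg_left (pow_le_pow_right₀ hy (Nat.le_succ j)) (pow_pos hx0 i).le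
    have h7 : (0 : ℝ) ≤ j := Nat.cast_nonneg j
    push_cast
    linarith only [h4, h5, h6, mul_nonneg_of_nonpos_of_nonpos (Mathlib.Tactic.Linarith.sub_nonpos_of_le (Mathlib.Tactic.Linarith.natCast_nonneg ℝ j)) (Mathlib.Tactic.Linarith.sub_nonpos_of_le h6)]

theorem Q_tail_one {t δ : ℝ} (h0 : 0 < t) (h1 : t < 1) (hδ : 0 < δ) :
    ∃ θ : ℝ, 0 < θ ∧ θ < 1 ∧ ∀ N i j : ℕ, i ≤ N → j ≤ N → (j : ℝ) + δ * N ≤ i →
      ∑ ω : Fin N → Fin N → Bool, Qw t t ω * ind (1 ≤ hOf ω i j) ≤ N * θ ^ N := by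
  obtain ⟨e, he0, he1, he2⟩ : ∃ e : ℝ, 0 < e ∧ e ≤ 1 / 2 ∧ e ≤ δ / 4 :=
    ⟨min (1 / 2) (δ / 4), lt_min (by norm_num) (by linarith), min_le_left _ _, min_le_right _ _⟩
  have ht : 0 < 1 - t := by linarith
  have hβ : 0 < 1 - e := by linarith
  set x : ℝ := t + (1 - t) * (1 - e) with hx
  set y : ℝ := t + (1 - t) / (1 - e) with hy
  have hx0 : 0 < x := by positivity
  have hy1 : 1 ≤ y := by
    have : 1 - t ≤ (1 - t) / (1 - e) := by
      rw [le_div_iff₀ hβ]; linarith only [h1, he0, mul_pos_of_neg_of_neg (Mathlib.Tactic.Linarith.sub_neg_of_lt h1) (Mathlib.Tactic.Linarith.sub_neg_of_lt he0)]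
    linarith only [this]
  have hy' : (1 - e) * y = (1 - t) + t * (1 - e) := by
    rw [hy]; field_simp; ring
  have hxe : x ≤ Real.exp (-((1 - t) * e)) := by
    have := Real.add_one_le_exp (-((1 - t) * e))
    have h : x = -((1 - t) * e) + 1 := by rw [hx]; ring
    linarith only [this]
  have hxy : x * y ≤ Real.exp (2 * (t * (1 - t) * e ^ 2)) := by
    have h2 := Real.add_one_le_exp (2 * (t * (1 - t) * e ^ 2))
    have h3 : (1 - e) * (x * y) = (1 - e) + t * (1 - t) * e ^ 2 := by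
      rw [mul_left_comm, hy', hx]; ring
    have h4 : 0 ≤ t * (1 - t) * e ^ 2 := by positivity
    have h5 : x * y ≤ 2 * (t * (1 - t) * e ^ 2) + 1 := by
      refine le_of_mul_le_mul_left ?_ hβ
      rw [h3]
      (refine le_of_not_gt fun h_nl => ?_; linarith only [h_nl, h0, h1, he1, h4, mul_pos_of_neg_of_neg (Mathlib.Tactic.Linarith.sub_neg_of_lt h0) (Mathlib.Tactic.Linarith.sub_neg_of_lt h_nl), mul_pos_of_neg_of_neg (Mathlib.Tactic.Linarith.sub_neg_of_lt h1) (Mathlib.Tactic.Linarith.sub_neg_of_lt h_nl), mul_nonneg_of_nonpos_of_nonpos (Mathlib.Tactic.Linarith.sub_nonpos_of_le he1) (Mathlib.Tactic.Linarith.sub_nonpos_of_le h4)])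
    linarith only [h2, h5]
  refine ⟨Real.exp (-((1 - t) * e * δ) + 2 * (t * (1 - t) * e ^ 2)), Real.exp_pos _, ?_, ?_⟩
  · rw [Real.exp_lt_one_iff]
    have h2 : 0 < (1 - t) * e := by positivity
    have h3 : 2 * (t * e) < δ := by linarith only [he0, he2, h2]
    linarith only [hδ, h2, he2, mul_pos_of_neg_of_neg (Mathlib.Tactic.Linarith.sub_neg_of_lt hδ) (Mathlib.Tactic.Linarith.sub_neg_of_lt h2), mul_nonneg_of_nonpos_of_nonpos (Mathlib.Tactic.Linarith.sub_nonpos_of_le he2) (le_of_lt (Mathlib.Tactic.Linarith.sub_neg_of_lt h2)), mul_pos_of_neg_of_neg (Mathlib.Tactic.Linarith.sub_neg_of_lt h2) (Mathlib.Tactic.Linarith.sub_neg_of_lt h2)]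
  intro N i j hi hj hij
  have hN : (0 : ℝ) ≤ N := Nat.cast_nonneg N
  have hji : j ≤ i := by
    have : (j : ℝ) ≤ i := by linarith only [hij, hδ, mul_nonneg_of_nonpos_of_nonpos (Mathlib.Tactic.Linarith.sub_nonpos_of_le (Mathlib.Tactic.Linarith.natCast_nonneg ℝ N)) (le_of_lt (Mathlib.Tactic.Linarith.sub_neg_of_lt hδ))]
    exact_mod_cast this
  obtain ⟨k, rfl⟩ := Nat.exists_eq_add_of_le hji
  have hk : δ * N ≤ k := by push_cast at hij; linarith only [hij]
  have h2 : ∑ ω : Fin N → Fin N → Bool, Qw t t ω * ind (1 ≤ hOf ω (j + k) j) ≤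
      ferroE_M t N (j + k) j := by
    refine sum_le_sum fun ω _ => mul_le_mul_of_nonneg_left ?_ (Qw_nonneg' h0 le_rfl h1 ω)
    by_cases h : 1 ≤ hOf ω (j + k) j
    · rw [ind_pos h]; exact_mod_cast h
    · rw [ind_neg h]; exact Nat.cast_nonneg _
  have h3 := ferroE_M_le h0 h1 hβ hx hy1 hy' hi j hj
  have hj' : (j : ℝ) ≤ N := by exact_mod_cast hj
  have h4 : x ^ (j + k) * y ^ j ≤
      Real.exp (-((1 - t) * e * δ) + 2 * (t * (1 - t) * e ^ 2)) ^ N := by
    have h5 : x ^ k ≤ Real.exp (-((1 - t) * e * δ) * N) := by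
      refine (pow_le_pow_left₀ hx0.le hxe k).trans ?_
      rw [← Real.exp_nat_mul]
      refine Real.exp_le_exp.2 ?_
      have : 0 < (1 - t) * e := by positivity
      (refine le_of_not_gt fun h_nl => ?_; linarith only [h_nl, h0, h1, hk, this, mul_pos_of_neg_of_neg (Mathlib.Tactic.Linarith.sub_neg_of_lt h0) (Mathlib.Tactic.Linarith.sub_neg_of_lt h_nl), mul_pos_of_neg_of_neg (Mathlib.Tactic.Linarith.sub_neg_of_lt h1) (Mathlib.Tactic.Linarith.sub_neg_of_lt h_nl), mul_nonneg_of_nonpos_of_nonpos (Mathlib.Tactic.Linarith.sub_nonpos_of_le hk) (le_of_lt (Mathlib.Tactic.Linarith.sub_neg_of_lt this))])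
    have h6 : (x * y) ^ j ≤ Real.exp (2 * (t * (1 - t) * e ^ 2) * N) := by
      refine (pow_le_pow_left₀ (by positivity) hxy j).trans ?_
      rw [← Real.exp_nat_mul]
      refine Real.exp_le_exp.2 ?_
      have : 0 ≤ t * (1 - t) * e ^ 2 := by positivity
      (refine le_of_not_gt fun h_nl => ?_; linarith only [h_nl, h0, h1, hj', this, mul_pos_of_neg_of_neg (Mathlib.Tactic.Linarith.sub_neg_of_lt h0) (Mathlib.Tactic.Linarith.sub_neg_of_lt h_nl), mul_pos_of_neg_of_neg (Mathlib.Tactic.Linarith.sub_neg_of_lt h1) (Mathlib.Tactic.Linarith.sub_neg_of_lt h_nl), mul_nonneg_of_nonpos_of_nonpos (Mathlib.Tactic.Linarith.sub_nonpos_of_le hj') (Mathlib.Tactic.Linarith.sub_nonpos_of_le this)])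
    calc x ^ (j + k) * y ^ j = x ^ k * (x * y) ^ j := by rw [pow_add, mul_pow]; ring
      _ ≤ Real.exp (-((1 - t) * e * δ) * N) * Real.exp (2 * (t * (1 - t) * e ^ 2) * N) :=
          mul_le_mul h5 h6 (by positivity) (Real.exp_pos _).le
      _ = _ := by rw [← Real.exp_add, ← Real.exp_nat_mul]; congr 1; ring
  exact h2.trans (h3.trans (mul_le_mul hj' h4 (by positivity) hN))

end Pool.Agent.Work.MP_413ea6_mp
end

-- merged part: Pool.Agent.Work.MP_413ea6_mp.FerroF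
section
open Filter Topology Finset

namespace Pool.Agent.Work.MP_413ea6_mp

/-! In the asymmetric stochastic model the domain wall event has probability bounded below. -/

theorem FerroF_M {bh bv : ℝ} (h0 : 0 < bh) (h2 : bh < bv) (h1 : bv < 1) {N i : ℕ} (hi : i ≤ N) :
    ∀ j ≤ N, ferroA_M bh bv N i j - 1 ≤ (bv / bh) ^ j / (bv / bh) ^ i := by
  have hv : 0 < bv := h0.trans h2
  intro j
  induction j with
  | zero =>
    intro _
    rw [ferroA_M_bot, sub_self]
    positivity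
  | succ j ih =>
    intro hj
    have h4 := ferroA_bounds h0 h2 h1 hj (ferroA_bounds' h0 h2 h1 j (by omega)) i hi
    have h5 := ih (by omega)
    have h6 : (bv / bh) ^ (j + 1) / (bv / bh) ^ i = (bv / bh) ^ j / (bv / bh) ^ i +
        (bv / bh - 1) * (bv / bh) ^ j / (bv / bh) ^ i := by
      rw [pow_succ]
      ring
    linarith only [h4, h5, h6]

theorem FerroF_lipd {bh bv : ℝ} {N : ℕ} {ω : Fin N → Fin N → Bool} (hQ : Qw bh bv ω ≠ 0)
    (j i d : ℕ) (h : i + d ≤ N) : hOf ω i j ≤ hOf ω (i + d) j + d := by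
  induction d with
  | zero => exact le_rfl
  | succ d ih =>
    have h1 := (Q_lip hQ (i := i + d) (by omega) j).2
    have h2 := ih (by omega)
    rw [← add_assoc i d 1]
    omega

theorem FerroF_low {bh bv : ℝ} {N : ℕ} {ω : Fin N → Fin N → Bool} (hQ : Qw bh bv ω ≠ 0)
    {i : ℕ} (hi : i ≤ N) : N - i ≤ hOf ω i N := by
  have h1 := FerroF_lipd hQ N 0 i (by omega)
  rw [FerroB_left, zero_add] at h1
  omega

theorem FerroF_mono {N : ℕ} (ω : Fin N → Fin N → Bool) (i : ℕ) : Monotone (hOf ω i) :=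
  monotone_nat_of_le_succ fun j => by
    rw [FerroB_step]
    exact Nat.le_add_right _ _

/-- The truncated height function. -/
def FerroF_h {N : ℕ} (ω : Fin N → Fin N → Bool) : Ht := fun i j => min (hOf ω i j) (N - i)

/-- The configuration with the truncated heights. -/
def FerroF_T {N : ℕ} (ω : Fin N → Fin N → Bool) : Fin N → Fin N → Bool :=
  fun r s => decide (FerroF_h ω (r + 1) (s + 1) ≠ FerroF_h ω (r + 1) s)

theorem FerroF_cls {bh bv : ℝ} {N : ℕ} {ω : Fin N → Fin N → Bool} (hQ : Qw bh bv ω ≠ 0) :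
    Cls N 0 (FerroF_h ω) := by
  refine ⟨fun i j => ?_, fun i => ?_, fun i j hj => ?_⟩
  · have h1 := FerroB_step ω i j
    unfold FerroF_h
    by_cases hi : i < N
    · have h2 := Q_lip hQ hi j
      refine ⟨?_, ?_, ?_, ?_⟩ <;> split_ifs at h1 <;> omega
    · refine ⟨?_, ?_, ?_, ?_⟩ <;> omega
  · unfold FerroF_h
    rw [FerroB_zero]
    omega
  · unfold FerroF_h
    rw [FerroB_top ω i hj]
    by_cases hi : i ≤ N
    · have := FerroF_low hQ hi
      omega
    · omega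

theorem FerroF_hT {bh bv : ℝ} {N : ℕ} {ω : Fin N → Fin N → Bool} (hQ : Qw bh bv ω ≠ 0) :
    hOf (FerroF_T ω) = FerroF_h ω :=
  FerroB_surj (FerroF_cls hQ)

/-- The good event. -/
def FerroF_G {N : ℕ} (m : ℕ) (ω : Fin N → Fin N → Bool) : Prop :=
  hOf ω N (N - m) = 0 ∧ hOf ω (N - m) N ≤ m

theorem FerroF_agree {bh bv : ℝ} {N m : ℕ} (hm : m ≤ N) {ω : Fin N → Fin N → Bool}
    (hQ : Qw bh bv ω ≠ 0) (hG : FerroF_G m ω) {i j : ℕ} (hi : i ≤ N)
    (h : i ≤ N - m ∨ j ≤ N - m) : FerroF_h ω i j = hOf ω i j := by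
  unfold FerroF_h
  refine min_eq_left ?_
  rcases h with h | h
  · have h1 := FerroB_le_top ω i j
    have h2 := FerroF_lipd hQ N i (N - m - i) (by omega)
    rw [show i + (N - m - i) = N - m by omega] at h2
    have h3 := hG.2
    omega
  · have h1 := FerroF_mono ω i h
    have h2 := FerroF_lipd hQ (N - m) i (N - i) (by omega)
    rw [show i + (N - i) = N by omega, hG.1] at h2
    omega

/-- The vertex probability in terms of heights. -/
def FerroF_F (bh bv : ℝ) (h : Ht) (r s : ℕ) : ℝ :=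
  pv bh bv (decide (h r (s + 1) ≠ h r s)) (decide (h r s ≠ h (r + 1) s))
    (decide (h (r + 1) (s + 1) ≠ h (r + 1) s))

theorem FerroF_Qw (bh bv : ℝ) {N : ℕ} (ω : Fin N → Fin N → Bool) :
    Qw bh bv ω = ∏ r : Fin N, ∏ s : Fin N, FerroF_F bh bv (hOf ω) r s := by
  unfold Qw
  refine prod_congr rfl fun r _ => prod_congr rfl fun s _ => ?_
  rw [← FerroB_east ω, FerroB_eh ω _ s.2, FerroB_eh ω _ s.2]
  rfl

theorem FerroF_pv_le {bh bv : ℝ} (h0 : 0 < bh) (h2 : bh < bv) (h1 : bv < 1)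
    (w s e : Bool) : pv bh bv w s e ≤ 1 := by
  cases w <;> cases s <;> cases e <;> simp [pv] <;> linarith only [h1, h0, h2]

theorem FerroF_F_low {bh bv c : ℝ} (h2 : bh < bv) (h1 : bv < 1) (c1 : c ≤ bh) (c2 : c ≤ 1 - bv)
    {h : Ht} (H : Lip h) (r s : ℕ) : c ≤ FerroF_F bh bv h r s := by
  have l1 := H r s
  have l2 := H (r + 1) s
  have l3 := H r (s + 1)
  unfold FerroF_F
  by_cases a1 : h r (s + 1) = h r s <;> by_cases a2 : h r s = h (r + 1) s <;>
    by_cases a3 : h (r + 1) (s + 1) = h (r + 1) s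
  · rw [decide_eq_false (not_not.2 a1), decide_eq_false (not_not.2 a2),
      decide_eq_false (not_not.2 a3)]
    simp only [pv, Bool.false_eq_true, if_false]
    linarith only [h2, h1, c1]
  · omega
  · rw [decide_eq_false (not_not.2 a1), decide_eq_true a2, decide_eq_false (not_not.2 a3)]
    simp only [pv, Bool.false_eq_true, if_false]
    linarith only [h2, c1]
  · rw [decide_eq_false (not_not.2 a1), decide_eq_true a2, decide_eq_true a3]
    simp only [pv, if_true]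
    linarith only [c2]
  · rw [decide_eq_true a1, decide_eq_false (not_not.2 a2), decide_eq_false (not_not.2 a3)]
    simp only [pv, Bool.false_eq_true, if_false]
    linarith only [h2, c2]
  · rw [decide_eq_true a1, decide_eq_false (not_not.2 a2), decide_eq_true a3]
    simp only [pv, if_true]
    linarith only [c1]
  · omega
  · rw [decide_eq_true a1, decide_eq_true a2, decide_eq_true a3]
    simp only [pv, if_true]
    linarith only [h2, h1, c1]

theorem FerroF_block {M : Type*} [CommMonoid M] {N : ℕ} (B : Finset (Fin N)) (x : M) :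
    ∏ r : Fin N, ∏ s : Fin N, (if r ∈ B ∧ s ∈ B then x else 1) = x ^ (B.card * B.card) := by
  have h1 : ∀ r : Fin N, ∏ s : Fin N, (if r ∈ B ∧ s ∈ B then x else 1) =
      if r ∈ B then x ^ B.card else 1 := fun r => by
    by_cases hr : r ∈ B
    · simp only [hr, true_and, if_true]
      rw [prod_ite_mem, univ_inter, prod_const]
    · simp only [hr, false_and, if_false, prod_const_one]
  rw [prod_congr rfl fun r _ => h1 r, prod_ite_mem, univ_inter, prod_const, ← pow_mul]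

/-- The corner block. -/
def FerroF_B (N m : ℕ) : Finset (Fin N) := univ.filter fun r => N - m ≤ (r : ℕ)

theorem FerroF_mem_B {N m : ℕ} {r : Fin N} : r ∈ FerroF_B N m ↔ N - m ≤ (r : ℕ) := by
  simp [FerroF_B]

theorem FerroF_card_B (N m : ℕ) : (FerroF_B N m).card ≤ m := by
  have h1 : (FerroF_B N m).card ≤ (Ico (N - m) N).card :=
    card_le_card_of_injOn (fun r => (r : ℕ))
      (fun r hr => by
        have h := FerroF_mem_B.1 (mem_coe.1 hr)
        exact mem_coe.2 (mem_Ico.2 ⟨h, r.2⟩))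
      (fun a _ b _ h => Fin.ext h)
  rw [Nat.card_Ico] at h1
  omega

theorem FerroF_weight {bh bv c : ℝ} (h0 : 0 < bh) (h2 : bh < bv) (h1 : bv < 1) (c0 : 0 ≤ c)
    (c1 : c ≤ bh) (c2 : c ≤ 1 - bv) {N m : ℕ} (hm : m ≤ N) {ω : Fin N → Fin N → Bool}
    (hQ : Qw bh bv ω ≠ 0) (hG : FerroF_G m ω) :
    c ^ ((FerroF_B N m).card * (FerroF_B N m).card) * Qw bh bv ω ≤ Qw bh bv (FerroF_T ω) := by
  rw [← FerroF_block, FerroF_Qw, FerroF_Qw, FerroF_hT hQ, ← prod_mul_distrib]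
  have hp : ∀ r s : Fin N, 0 ≤ (if r ∈ FerroF_B N m ∧ s ∈ FerroF_B N m then c else 1) *
      FerroF_F bh bv (hOf ω) r s := fun r s =>
    mul_nonneg (by split_ifs <;> positivity) (ferroA_pv_nonneg h0 h2 h1 _ _ _)
  refine prod_le_prod (fun r _ => ?_) fun r _ => ?_
  · rw [← prod_mul_distrib]
    exact prod_nonneg fun s _ => hp r s
  rw [← prod_mul_distrib]
  refine prod_le_prod (fun s _ => hp r s) fun s _ => ?_
  split_ifs with hb
  · exact (mul_le_of_le_one_right c0 (FerroF_pv_le h0 h2 h1 _ _ _)).trans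
      (FerroF_F_low h2 h1 c1 c2 (FerroF_cls hQ).1 _ _)
  · rw [one_mul]
    rw [FerroF_mem_B, FerroF_mem_B] at hb
    have hr := r.2
    unfold FerroF_F
    rw [FerroF_agree hm hQ hG (i := r) (j := s + 1) (by omega) (by omega),
      FerroF_agree hm hQ hG (i := r) (j := s) (by omega) (by omega),
      FerroF_agree hm hQ hG (i := r + 1) (j := s) (by omega) (by omega),
      FerroF_agree hm hQ hG (i := r + 1) (j := s + 1) (by omega) (by omega)]

theorem FerroF_out {bh bv : ℝ} {N m : ℕ} (hm : m ≤ N) {ω : Fin N → Fin N → Bool}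
    (hQ : Qw bh bv ω ≠ 0) (hG : FerroF_G m ω) {r s : Fin N}
    (hb : ¬ (r ∈ FerroF_B N m ∧ s ∈ FerroF_B N m)) : ω r s = FerroF_T ω r s := by
  rw [FerroF_mem_B, FerroF_mem_B] at hb
  have hr := r.2
  unfold FerroF_T
  rw [FerroF_agree hm hQ hG (i := r + 1) (j := s) (by omega) (by omega),
    FerroF_agree hm hQ hG (i := r + 1) (j := s + 1) (by omega) (by omega), ← FerroB_east ω,
    FerroB_eh ω _ s.2]

theorem FerroF_fiber {bh bv : ℝ} {N m : ℕ} (hm : m ≤ N) (S : Finset (Fin N → Fin N → Bool))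
    (hS : ∀ ω ∈ S, Qw bh bv ω ≠ 0 ∧ FerroF_G m ω) (η : Fin N → Fin N → Bool) :
    (S.filter fun ω => FerroF_T ω = η).card ≤
      2 ^ ((FerroF_B N m).card * (FerroF_B N m).card) := by
  have h1 : (S.filter fun ω => FerroF_T ω = η) ⊆ Fintype.piFinset fun r => Fintype.piFinset
      fun s => if r ∈ FerroF_B N m ∧ s ∈ FerroF_B N m then univ else {η r s} := by
    intro ω hω
    obtain ⟨hω', rfl⟩ := mem_filter.1 hω
    refine Fintype.mem_piFinset.2 fun r => Fintype.mem_piFinset.2 fun s => ?_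
    split_ifs with hb
    · exact mem_univ _
    · exact mem_singleton.2 (FerroF_out hm (hS ω hω').1 (hS ω hω').2 hb)
  refine (card_le_card h1).trans_eq ?_
  rw [← FerroF_block, Fintype.card_piFinset]
  refine prod_congr rfl fun r _ => ?_
  rw [Fintype.card_piFinset]
  refine prod_congr rfl fun s _ => ?_
  split_ifs
  · rfl
  · rfl

theorem FerroF_main {bh bv c : ℝ} (h0 : 0 < bh) (h2 : bh < bv) (h1 : bv < 1) (c0 : 0 < c)
    (c1 : c ≤ bh) (c2 : c ≤ 1 - bv) {N m : ℕ} (hm : m ≤ N) :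
    (c / 2) ^ (m * m) * ∑ ω : Fin N → Fin N → Bool, Qw bh bv ω * ind (FerroF_G m ω) ≤
      ∑ ω : Fin N → Fin N → Bool, Qw bh bv ω * ind (hOf ω N N = 0) := by
  classical
  set k := (FerroF_B N m).card * (FerroF_B N m).card with hk
  have hkm : k ≤ m * m := Nat.mul_le_mul (FerroF_card_B N m) (FerroF_card_B N m)
  set S : Finset (Fin N → Fin N → Bool) :=
    univ.filter fun ω => Qw bh bv ω ≠ 0 ∧ FerroF_G m ω with hS
  have hS' : ∀ ω ∈ S, Qw bh bv ω ≠ 0 ∧ FerroF_G m ω := fun ω hω => (mem_filter.1 hω).2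
  have e1 : ∑ ω : Fin N → Fin N → Bool, Qw bh bv ω * ind (FerroF_G m ω) = ∑ ω ∈ S, Qw bh bv ω := by
    rw [hS, sum_filter]
    refine sum_congr rfl fun ω _ => ?_
    by_cases a : Qw bh bv ω = 0
    · simp [a]
    · by_cases b : FerroF_G m ω
      · rw [ind_pos b, if_pos ⟨a, b⟩, mul_one]
      · rw [ind_neg b, if_neg fun h => b h.2, mul_zero]
  set φ : (Fin N → Fin N → Bool) → ℝ := fun η => Qw bh bv η * ind (hOf η N N = 0) with hφ
  have hφ0 : ∀ η, 0 ≤ φ η := fun η => mul_nonneg (Qw_nonneg h0 h2 h1 η) (ind_nonneg _)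
  have e2 : c ^ k * ∑ ω ∈ S, Qw bh bv ω ≤ ∑ ω ∈ S, φ (FerroF_T ω) := by
    rw [mul_sum]
    refine sum_le_sum fun ω hω => ?_
    have a := hS' ω hω
    have b : hOf (FerroF_T ω) N N = 0 := by
      rw [FerroF_hT a.1]
      simp [FerroF_h]
    simp only [hφ]
    rw [ind_pos b, mul_one]
    exact FerroF_weight h0 h2 h1 c0.le c1 c2 hm a.1 a.2
  have e3 : ∑ ω ∈ S, φ (FerroF_T ω) ≤ 2 ^ k * ∑ η, φ η := by
    rw [← sum_fiberwise S FerroF_T, mul_sum]
    refine sum_le_sum fun η _ => ?_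
    rw [sum_congr rfl (g := fun _ => φ η) fun ω hω => by rw [(mem_filter.1 hω).2], sum_const,
      nsmul_eq_mul]
    refine mul_le_mul_of_nonneg_right ?_ (hφ0 η)
    exact_mod_cast FerroF_fiber hm S hS' η
  have e4 : 0 ≤ ∑ ω ∈ S, Qw bh bv ω := sum_nonneg fun ω _ => Qw_nonneg h0 h2 h1 ω
  have e5 : (c / 2) ^ (m * m) ≤ (c / 2) ^ k :=
    pow_le_pow_of_le_one (by positivity) (by linarith only [h0, h2, h1, c1]) hkm
  rw [e1]
  refine (mul_le_mul_of_nonneg_right e5 e4).trans ?_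
  rw [div_pow, div_mul_eq_mul_div, div_le_iff₀ (by positivity), mul_comm _ ((2 : ℝ) ^ k)]
  exact e2.trans e3

theorem FerroF_bad {bh bv : ℝ} (h0 : 0 < bh) (h2 : bh < bv) (h1 : bv < 1) {N m : ℕ}
    (hm : m ≤ N) :
    1 - 2 / ((bv / bh) ^ m * (bv / bh - 1)) ≤
      ∑ ω : Fin N → Fin N → Bool, Qw bh bv ω * ind (FerroF_G m ω) := by
  have hv : 0 < bv := h0.trans h2
  have hτ : 1 < bv / bh := by
    rw [lt_div_iff₀ h0]
    linarith only [h2]
  have hτ0 : 0 < bv / bh := by linarith only [h0, h2, h1, hτ]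
  have hd : 0 < (bv / bh) ^ m * (bv / bh - 1) := mul_pos (pow_pos hτ0 m) (by linarith)
  have hpow : (bv / bh) ^ N = (bv / bh) ^ (N - m) * (bv / bh) ^ m := by
    rw [← pow_add, Nat.sub_add_cancel hm]
  have hne : (bv / bh) ^ (N - m) ≠ 0 := pow_ne_zero _ hτ0.ne'
  have a1 : ∑ ω : Fin N → Fin N → Bool, Qw bh bv ω * ind (1 ≤ hOf ω N (N - m)) ≤
      1 / ((bv / bh) ^ m * (bv / bh - 1)) := by
    rw [le_div_iff₀ hd]
    have b1 := ferroA_ind_le h0 h2 h1 N N (N - m)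
    have b2 := FerroF_M h0 h2 h1 (le_refl N) (N - m) (Nat.sub_le _ _)
    rw [hpow, div_mul_cancel_left₀ hne] at b2
    have b3 := mul_le_mul_of_nonneg_left (b1.trans b2) (pow_pos hτ0 m).le
    rw [mul_inv_cancel₀ (pow_ne_zero _ hτ0.ne')] at b3
    linarith only [b3]
  have a2 : ∑ ω : Fin N → Fin N → Bool, Qw bh bv ω * ind (m < hOf ω (N - m) N) ≤
      1 / ((bv / bh) ^ m * (bv / bh - 1)) := by
    rw [le_div_iff₀ hd]
    have b2 := FerroF_M h0 h2 h1 (Nat.sub_le N m) N le_rfl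
    rw [hpow, mul_div_cancel_left₀ _ hne] at b2
    have b3 : ferroA_M bh bv N (N - m) N - (bv / bh) ^ m = ∑ ω : Fin N → Fin N → Bool,
        Qw bh bv ω * ((bv / bh) ^ hOf ω (N - m) N - (bv / bh) ^ m) := by
      simp only [mul_sub, sum_sub_distrib, ← sum_mul, Q_total, one_mul, ferroA_M]
    rw [sum_mul]
    refine le_trans (sum_le_sum fun ω _ => ?_) (b3.ge.trans (by linarith only [b2]))
    by_cases hQ : Qw bh bv ω = 0
    · simp [hQ]
    rw [mul_assoc]
    refine mul_le_mul_of_nonneg_left ?_ (Qw_nonneg h0 h2 h1 ω)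
    have b4 := FerroF_low hQ (Nat.sub_le N m)
    by_cases b5 : m < hOf ω (N - m) N
    · rw [ind_pos b5, one_mul]
      have b6 := pow_le_pow_right₀ hτ.le (Nat.succ_le_of_lt b5)
      rw [pow_succ] at b6
      linarith only [b6]
    · rw [ind_neg b5, zero_mul]
      have b6 := pow_le_pow_right₀ hτ.le (show m ≤ hOf ω (N - m) N by omega)
      linarith only [b6]
  have a3 : ∀ ω : Fin N → Fin N → Bool, Qw bh bv ω - Qw bh bv ω * ind (1 ≤ hOf ω N (N - m)) -
      Qw bh bv ω * ind (m < hOf ω (N - m) N) ≤ Qw bh bv ω * ind (FerroF_G m ω) := fun ω => by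
    have b1 : ind (¬ FerroF_G m ω) ≤ ind (1 ≤ hOf ω N (N - m)) + ind (m < hOf ω (N - m) N) :=
      (ind_mono fun h => by
        unfold FerroF_G at h
        omega).trans (ind_or_le _ _)
    rw [ind_not] at b1
    have b2 := mul_le_mul_of_nonneg_left b1 (Qw_nonneg h0 h2 h1 ω)
    linarith only [b2]
  have a4 := sum_le_sum fun ω (_ : ω ∈ univ) => a3 ω
  rw [sum_sub_distrib, sum_sub_distrib, Q_total] at a4
  have a5 : 2 / ((bv / bh) ^ m * (bv / bh - 1)) = 1 / ((bv / bh) ^ m * (bv / bh - 1)) +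
      1 / ((bv / bh) ^ m * (bv / bh - 1)) := by ring
  linarith only [a1, a2, a4, a5]

theorem Q_dw_lower {bh bv : ℝ} (h0 : 0 < bh) (h2 : bh < bv) (h1 : bv < 1) :
    ∃ c0 : ℝ, 0 < c0 ∧ ∀ N : ℕ,
      c0 ≤ ∑ ω : Fin N → Fin N → Bool, Qw bh bv ω * ind (hOf ω N N = 0) := by
  have hτ : 1 < bv / bh := by
    rw [lt_div_iff₀ h0]
    linarith
  obtain ⟨m, hm⟩ := pow_unbounded_of_one_lt (4 / (bv / bh - 1)) hτ
  have hm' : 2 / ((bv / bh) ^ m * (bv / bh - 1)) ≤ 1 / 2 := by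
    rw [div_lt_iff₀ (by linarith only [hτ])] at hm
    rw [div_le_div_iff₀ (by linarith only [h0, h2, h1, hm]) two_pos]
    linarith only [hm]
  set c := min bh (1 - bv) with hc
  have c0 : 0 < c := lt_min h0 (by linarith only [h1])
  have c1 : c ≤ bh := min_le_left _ _
  have c2 : c ≤ 1 - bv := min_le_right _ _
  have c3 : 0 < (c / 2) ^ (m * m) := by positivity
  refine ⟨(c / 2) ^ (m * m) * (1 / 2), by positivity, fun N => ?_⟩
  by_cases hN : m ≤ N
  · refine le_trans (mul_le_mul_of_nonneg_left ?_ c3.le) (FerroF_main h0 h2 h1 c0 c1 c2 hN)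
    have := FerroF_bad h0 h2 h1 hN
    linarith only [hm', this]
  · refine le_trans ?_ (FerroF_main h0 h2 h1 c0 c1 c2 (le_refl N))
    have a1 : ∑ ω : Fin N → Fin N → Bool, Qw bh bv ω * ind (FerroF_G N ω) = 1 := by
      rw [← Q_total bh bv N]
      refine sum_congr rfl fun ω _ => ?_
      rw [ind_pos, mul_one]
      unfold FerroF_G
      rw [Nat.sub_self, FerroB_zero, FerroB_left]
      exact ⟨rfl, le_rfl⟩
    have a2 : (c / 2) ^ (m * m) ≤ (c / 2) ^ (N * N) :=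
      pow_le_pow_of_le_one (by positivity) (by linarith only [h0, h2, h1, c1]) (Nat.mul_le_mul (by omega) (by omega))
    rw [a1]
    linarith only [c3, a2]

end Pool.Agent.Work.MP_413ea6_mp
end

-- merged part: Pool.Agent.Work.MP_413ea6_mp.FerroG
section
open Filter Topology Finset

namespace Pool.Agent.Work.MP_413ea6_mp

/-! The whole range `a ≥ b + c`: the region below the diagonal is frozen. -/

theorem FerroG_lv {t γ t' γ' : ℝ} (hγ : 0 < γ') (h1 : t' ≤ t) (h2 : γ' ≤ γ)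
    {sw se nw ne : ℕ} (l1 : sw ≤ nw) (l2 : nw ≤ sw + 1) (l3 : se ≤ sw) (l4 : sw ≤ se + 1)
    (l5 : se ≤ ne) (l6 : ne ≤ se + 1) (l7 : ne ≤ nw) (l8 : nw ≤ ne + 1) :
    lv t' γ' sw se nw ne ≤ lv t γ sw se nw ne := by
  have g1 := hγ.ne'
  have g2 := (hγ.trans_le h2).ne'
  have key : (((nw : ℤ) - se - 1).natAbs = 1 ∧ ((sw : ℤ) - ne).natAbs = 0) ∨
      (((nw : ℤ) - se - 1).natAbs = 0 ∧ ((sw : ℤ) - ne).natAbs = 1) ∨
      (((nw : ℤ) - se - 1).natAbs = 0 ∧ ((sw : ℤ) - ne).natAbs = 0) := by omega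
  unfold lv
  rcases key with ⟨b1, b2⟩ | ⟨b1, b2⟩ | ⟨b1, b2⟩ <;> rw [b1, b2]
  · simp [g1, g2]
  · simp only [pow_zero, pow_one, mul_one]
    rwa [mul_div_cancel₀ _ g1, mul_div_cancel₀ _ g2]
  · simpa using h2

theorem mu_mono_par {t γ t' γ' : ℝ} (ht : 0 < t') (hγ : 0 < γ') (h1 : t' ≤ t) (h2 : γ' ≤ γ)
    (N : ℕ) : mu N t' γ' 1 (fun _ => 1) ≤ mu N t γ 1 (fun _ => 1) := by
  refine sum_le_sum fun h hh => ?_
  have H := (mem_hts.1 hh).1
  simp only [one_pow, mul_one]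
  refine prod_le_prod (fun i _ => prod_nonneg fun j _ => (lv_pos ht hγ _ _ _ _).le) fun i _ =>
    prod_le_prod (fun j _ => (lv_pos ht hγ _ _ _ _).le) fun j _ => ?_
  have l1 := H i j
  have l2 := H (i + 1) j
  have l3 := H i (j + 1)
  exact FerroG_lv hγ h1 h2 l1.1 l1.2.1 l1.2.2.1 l1.2.2.2 l2.1 l2.2.1 l3.2.2.1 l3.2.2.2

theorem FerroG_params {t γ : ℝ} (ht : 0 < t) (hγ : 0 < γ) (h : t + γ < 1) :
    ∃ bh bv : ℝ, 0 < bh ∧ bh < bv ∧ bv < 1 ∧ t ^ 2 = bh * bv ∧ γ ^ 2 = (1 - bh) * (1 - bv) := by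
  set S : ℝ := 1 + t ^ 2 - γ ^ 2 with hS
  have h1 : 2 * t < S := by linarith only [hγ, h, mul_pos_of_neg_of_neg (Mathlib.Tactic.Linarith.sub_neg_of_lt hγ) (Mathlib.Tactic.Linarith.sub_neg_of_lt h), mul_pos_of_neg_of_neg (Mathlib.Tactic.Linarith.sub_neg_of_lt h) (Mathlib.Tactic.Linarith.sub_neg_of_lt h)]
  have h2 : 0 < S ^ 2 - 4 * t ^ 2 := by linarith only [ht, h1, mul_pos_of_neg_of_neg (Mathlib.Tactic.Linarith.sub_neg_of_lt ht) (Mathlib.Tactic.Linarith.sub_neg_of_lt h1), mul_pos_of_neg_of_neg (Mathlib.Tactic.Linarith.sub_neg_of_lt h1) (Mathlib.Tactic.Linarith.sub_neg_of_lt h1)]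
  set r : ℝ := √(S ^ 2 - 4 * t ^ 2) with hr
  have h3 : 0 < r := Real.sqrt_pos.2 h2
  have h4 : r ^ 2 = S ^ 2 - 4 * t ^ 2 := Real.sq_sqrt h2.le
  have h5 : r < S := lt_of_pow_lt_pow_left₀ 2 (by linarith) (by linarith only [h4, ht, mul_pos_of_neg_of_neg (Mathlib.Tactic.Linarith.sub_neg_of_lt ht) (Mathlib.Tactic.Linarith.sub_neg_of_lt ht)])
  have e1 : t ^ 2 = (S - r) / 2 * ((S + r) / 2) := by linarith only [h4]
  have e2 : γ ^ 2 = (1 - (S - r) / 2) * (1 - (S + r) / 2) := by linarith only [h4]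
  have h6 : (S - r) / 2 < 1 := by
    by_contra hc
    have h7 : 1 ≤ (S - r) / 2 := not_lt.1 hc
    have h8 : t ^ 2 < 1 := by linarith only [hγ, h, h3, hc, ht, sq_nonneg γ, mul_pos_of_neg_of_neg (Mathlib.Tactic.Linarith.sub_neg_of_lt ht) (Mathlib.Tactic.Linarith.sub_neg_of_lt hγ), mul_pos_of_neg_of_neg (Mathlib.Tactic.Linarith.sub_neg_of_lt ht) (Mathlib.Tactic.Linarith.sub_neg_of_lt h)]
    linarith only [h3, hc, h8, sq_nonneg γ]
  have h8 : 0 < (1 - (S - r) / 2) * (1 - (S + r) / 2) := e2 ▸ by positivity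
  exact ⟨(S - r) / 2, (S + r) / 2, by linarith only [h5], by linarith only [h3],
    by linarith only [h8, h6, (pos_iff_pos_of_mul_pos h8).1 (sub_pos.2 h6)], e1, e2⟩

theorem FerroG_num {t γ bh bv : ℝ} (ht : 0 < t) (hγ : 0 < γ) (h0 : 0 < bh) (h2 : bh ≤ bv)
    (h1 : bv < 1) (e1 : t ^ 2 = bh * bv) (e2 : γ ^ 2 = (1 - bh) * (1 - bv)) (N i j : ℕ) :
    ((1 - bh) / γ) ^ N * mu N t γ 1 (fun h => ind (i < cnt N h j)) ≤
      ∑ ω : Fin N → Fin N → Bool, Qw bh bv ω * ind (1 ≤ hOf ω i j) := by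
  have hκ : 0 < ((1 - bh) / γ) ^ N := pow_pos (div_pos (by linarith) hγ) N
  calc _ ≤ ((1 - bh) / γ) ^ N * mu N t γ 1 (fun h => ind (1 ≤ h i j)) :=
        mul_le_mul_of_nonneg_left (mu_mono ht hγ one_pos fun h H =>
          ind_mono (lt_cnt_iff H i j).1) hκ.le
    _ = _ := (Q_link ht hγ h0 h2 h1 e1 e2 N _).symm
    _ ≤ _ := sum_le_sum fun ω _ => mul_le_mul_of_nonneg_left
        (mul_le_of_le_one_left (ind_nonneg _) (ind_le_one _)) (Qw_nonneg' h0 h2 h1 ω)

theorem FerroG_den {t γ bh bv : ℝ} (ht : 0 < t) (hγ : 0 < γ) (h0 : 0 < bh) (h2 : bh < bv)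
    (h1 : bv < 1) (e1 : t ^ 2 = bh * bv) (e2 : γ ^ 2 = (1 - bh) * (1 - bv)) :
    ∃ c0 : ℝ, 0 < c0 ∧ ∀ N : ℕ, c0 ≤ ((1 - bh) / γ) ^ N * mu N t γ 1 (fun _ => 1) := by
  obtain ⟨c0, hc, H⟩ := Q_dw_lower h0 h2 h1
  refine ⟨c0, hc, fun N => ?_⟩
  rw [← Q_link ht hγ h0 h2.le h1 e1 e2 N (fun _ => 1)]
  simpa only [mul_one] using H N

theorem FerroG_lt {t γ δ : ℝ} (ht : 0 < t) (hγ : 0 < γ) (h : t + γ < 1) (hδ : 0 < δ) :
    ∃ C θ : ℝ, 0 ≤ C ∧ 0 < θ ∧ θ < 1 ∧ ∀ N i j : ℕ, i ≤ N → j ≤ N → (j : ℝ) + δ * N ≤ i →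
      PP N t γ (fun X => i < X j) ≤ C * ((N : ℝ) + 1) * θ ^ N := by
  obtain ⟨bh, bv, h0, h2, h1, e1, e2⟩ := FerroG_params ht hγ h
  obtain ⟨c0, hc, H⟩ := FerroG_den ht hγ h0 h2 h1 e1 e2
  have hv : 0 < bv := h0.trans h2
  have h4 : 0 < bv - bh := by linarith
  have hq : 0 < bh / bv := div_pos h0 hv
  have hq1 : bh / bv < 1 := (div_lt_one hv).2 h2
  refine ⟨bh / (bv - bh) / c0, (bh / bv) ^ δ, by positivity, Real.rpow_pos_of_pos hq δ,
    Real.rpow_lt_one hq.le hq1 hδ, fun N i j hi hj hij => ?_⟩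
  have hN : (0 : ℝ) ≤ N := N.cast_nonneg
  have hκ : 0 < ((1 - bh) / γ) ^ N := pow_pos (div_pos (by linarith only [h2, h1]) hγ) N
  have hji : j ≤ i := by
    have : (j : ℝ) ≤ i := by linarith only [hij, hδ, mul_nonneg_of_nonpos_of_nonpos (Mathlib.Tactic.Linarith.sub_nonpos_of_le (Mathlib.Tactic.Linarith.natCast_nonneg ℝ N)) (le_of_lt (Mathlib.Tactic.Linarith.sub_neg_of_lt hδ))]
    exact_mod_cast this
  obtain ⟨d, rfl⟩ := Nat.exists_eq_add_of_le hji
  have hd : δ * N ≤ d := by push_cast at hij; linarith only [hij]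
  have b1 := (FerroG_num ht hγ h0 h2.le h1 e1 e2 N (j + d) j).trans (Q_tail h0 h2 h1 hi hj)
  have b2 : (bh / bv) ^ j * (bv / bh) ^ j = 1 := by
    rw [← mul_pow, div_mul_div_cancel₀ hv.ne', div_self h0.ne', one_pow]
  rw [pow_add, mul_right_comm ((bh / bv) ^ j), b2, one_mul] at b1
  have b3 : (bh / bv) ^ d ≤ ((bh / bv) ^ δ) ^ N := by
    rw [← Real.rpow_natCast, ← Real.rpow_natCast, ← Real.rpow_mul hq.le]
    exact Real.rpow_le_rpow_of_exponent_ge hq hq1.le hd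
  have b4 : 0 < ((bh / bv) ^ δ) ^ N := pow_pos (Real.rpow_pos_of_pos hq δ) N
  rw [PP, ← mul_div_mul_left _ _ hκ.ne']
  refine (div_le_div₀ (by positivity) (b1.trans (mul_le_mul_of_nonneg_left b3 (by positivity)))
    hc (H N)).trans ?_
  rw [mul_div_right_comm]
  exact mul_le_mul_of_nonneg_right (le_mul_of_one_le_right (by positivity) (by linarith only [])) b4.le

theorem FerroG_eq {t γ δ : ℝ} (ht : 0 < t) (hγ : 0 < γ) (h : t + γ = 1) (hδ : 0 < δ) :
    ∃ C θ : ℝ, 0 ≤ C ∧ 0 < θ ∧ θ < 1 ∧ ∀ N i j : ℕ, i ≤ N → j ≤ N → (j : ℝ) + δ * N ≤ i →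
      PP N t γ (fun X => i < X j) ≤ C * ((N : ℝ) + 1) * θ ^ N := by
  have ht1 : t < 1 := by linarith
  obtain ⟨θ, hθ, hθ1, hT⟩ := Q_tail_one ht ht1 hδ
  have hθ2 : θ ^ 2 < 1 := by linarith only [hθ1, hθ, mul_pos_of_neg_of_neg (Mathlib.Tactic.Linarith.sub_neg_of_lt hθ) (Mathlib.Tactic.Linarith.sub_neg_of_lt hθ1)]
  obtain ⟨e, he0, he1, he2⟩ : ∃ e : ℝ, 0 < e ∧ e ≤ t / 2 ∧ e ≤ γ * (1 - θ ^ 2) / 4 :=
    ⟨min (t / 2) (γ * (1 - θ ^ 2) / 4), lt_min (by linarith)
      (div_pos (mul_pos hγ (by linarith)) (by norm_num)), min_le_left _ _, min_le_right _ _⟩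
  have he3 : e < γ := by linarith only [he0, he2, hγ, sq_nonneg θ, mul_nonneg_of_nonpos_of_nonpos (Mathlib.Tactic.Linarith.sub_nonpos_of_le (sq_nonneg θ)) (le_of_lt (Mathlib.Tactic.Linarith.sub_neg_of_lt hγ))]
  have p1 : 0 < (t - e) * (t + e) := mul_pos (by linarith only [he0, he1]) (by linarith only [he0, he1])
  have p2 : 0 < (1 - (t - e)) * (1 - (t + e)) := mul_pos (by linarith only [h, he0, he3]) (by linarith only [h, he3])
  set t' : ℝ := √((t - e) * (t + e)) with ht'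
  set γ' : ℝ := √((1 - (t - e)) * (1 - (t + e))) with hγ'
  have q1 : 0 < t' := Real.sqrt_pos.2 p1
  have q2 : 0 < γ' := Real.sqrt_pos.2 p2
  have e1 : t' ^ 2 = (t - e) * (t + e) := Real.sq_sqrt p1.le
  have e2 : γ' ^ 2 = (1 - (t - e)) * (1 - (t + e)) := Real.sq_sqrt p2.le
  have g1 : 1 - (t - e) = γ + e := by linarith only [h]
  have g2 : 1 - (t + e) = γ - e := by linarith only [h]
  have q3 : t' ≤ t := le_of_pow_le_pow_left₀ two_ne_zero ht.le (by (refine le_of_not_gt fun h_nl => ?_; linarith only [h_nl, e1, h, ht, hγ, he0, Mathlib.Tactic.Linarith.mul_zero_eq (Mathlib.Tactic.Linarith.sub_nonpos_of_le (sq_nonneg t)) (sub_eq_zero_of_eq h), Mathlib.Tactic.Linarith.mul_zero_eq (Mathlib.Tactic.Linarith.sub_nonpos_of_le (sq_nonneg t')) (sub_eq_zero_of_eq h), mul_pos_of_neg_of_neg (Mathlib.Tactic.Linarith.sub_neg_of_lt ht) (Mathlib.Tactic.Linarith.sub_neg_of_lt h_nl), mul_pos_of_neg_of_neg (Mathlib.Tactic.Linarith.sub_neg_of_lt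 hγ) (Mathlib.Tactic.Linarith.sub_neg_of_lt h_nl), mul_pos_of_neg_of_neg (Mathlib.Tactic.Linarith.sub_neg_of_lt he0) (Mathlib.Tactic.Linarith.sub_neg_of_lt he0)]))
  have q4 : γ' ≤ γ := le_of_pow_le_pow_left₀ two_ne_zero hγ.le (by
    rw [e2, g1, g2]; (refine le_of_not_gt fun h_nl => ?_; linarith only [h_nl, ht, hγ, h, he0, mul_pos_of_neg_of_neg (Mathlib.Tactic.Linarith.sub_neg_of_lt ht) (Mathlib.Tactic.Linarith.sub_neg_of_lt h_nl), mul_pos_of_neg_of_neg (Mathlib.Tactic.Linarith.sub_neg_of_lt hγ) (Mathlib.Tactic.Linarith.sub_neg_of_lt h_nl), Mathlib.Tactic.Linarith.zero_mul_eq (sub_eq_zero_of_eq h) (Mathlib.Tactic.Linarith.sub_neg_of_lt h_nl), mul_pos_of_neg_of_neg (Mathlib.Tactic.Linarith.sub_neg_of_lt he0) (Mathlib.Tactic.Linarith.sub_neg_of_lt he0)]))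
  obtain ⟨c0, hc, H⟩ := FerroG_den q1 q2 (by linarith only [he0, he1] : 0 < t - e) (by linarith only [he0] : t - e < t + e)
    (by linarith only [h, he3]) e1 e2
  have hκ : 0 < (1 - (t - e)) / γ' := div_pos (by linarith only [h, he0, he3]) q2
  have hκ1 : θ * ((1 - (t - e)) / γ') < 1 := by
    rw [← mul_div_assoc, div_lt_one q2]
    refine lt_of_pow_lt_pow_left₀ 2 q2.le ?_
    rw [e2, g1, g2, mul_pow, pow_two (γ + e), ← mul_assoc, mul_comm (γ + e) (γ - e)]
    refine mul_lt_mul_of_pos_right ?_ (by linarith only [he0, he3])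
    linarith only [he2, ht, he0, hγ, h, hθ2, mul_pos hγ (sub_pos.2 hθ2), mul_pos_of_neg_of_neg (Mathlib.Tactic.Linarith.sub_neg_of_lt ht) (Mathlib.Tactic.Linarith.sub_neg_of_lt he0), mul_pos_of_neg_of_neg (Mathlib.Tactic.Linarith.sub_neg_of_lt hγ) (Mathlib.Tactic.Linarith.sub_neg_of_lt he0), Mathlib.Tactic.Linarith.zero_mul_eq (sub_eq_zero_of_eq h) (Mathlib.Tactic.Linarith.sub_neg_of_lt he0), mul_pos_of_neg_of_neg (Mathlib.Tactic.Linarith.sub_neg_of_lt hθ2) (Mathlib.Tactic.Linarith.sub_neg_of_lt he0)]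
  refine ⟨1 / c0, θ * ((1 - (t - e)) / γ'), by positivity, mul_pos hθ hκ, hκ1,
    fun N i j hi hj hij => ?_⟩
  have hN : (0 : ℝ) ≤ N := N.cast_nonneg
  have b1 := (FerroG_num ht hγ ht le_rfl ht1 (by ring) (by rw [← h]; ring) N i j).trans
    (hT N i j hi hj hij)
  rw [show 1 - t = γ by linarith only [h], div_self hγ.ne', one_pow, one_mul] at b1
  have b2 := (H N).trans (mul_le_mul_of_nonneg_left (mu_mono_par q1 q2 q3 q4 N)
    (pow_pos hκ N).le)
  have b3 : 0 < θ ^ N := pow_pos hθ N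
  have b4 := pow_pos hκ N
  rw [PP, ← mul_div_mul_left _ _ b4.ne']
  refine (div_le_div₀ (by positivity) (mul_le_mul_of_nonneg_left b1 b4.le) hc b2).trans ?_
  rw [mul_pow, div_le_iff₀ hc]
  have b5 : 1 / c0 * ((N : ℝ) + 1) * (θ ^ N * ((1 - (t - e)) / γ') ^ N) * c0 =
      ((1 - (t - e)) / γ') ^ N * (((N : ℝ) + 1) * θ ^ N) := by
    field_simp
  rw [b5]
  exact mul_le_mul_of_nonneg_left (mul_le_mul_of_nonneg_right (by linarith only [h, he0, he1, he3]) b3.le) b4.le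

theorem ferro_rare {t γ x y : ℝ} (ht : 0 < t) (hγ : 0 < γ) (h : t + γ ≤ 1) (hxy : y < x) :
    Rare t γ fun N X => ∃ j ∈ Icc 1 N, (j : ℝ) ≤ y * N ∧ x * N ≤ X j := by
  have hδ : 0 < (x - y) / 2 := by linarith only [hxy]
  obtain ⟨C, θ, hC, hθ, hθ1, H⟩ : ∃ C θ : ℝ, 0 ≤ C ∧ 0 < θ ∧ θ < 1 ∧
      ∀ N i j : ℕ, i ≤ N → j ≤ N → (j : ℝ) + (x - y) / 2 * N ≤ i →
        PP N t γ (fun X => i < X j) ≤ C * ((N : ℝ) + 1) * θ ^ N := by
    rcases h.lt_or_eq with h | h
    · exact FerroG_lt ht hγ h hδ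
    · exact FerroG_eq ht hγ h hδ
  refine squeeze_zero' (Eventually.of_forall fun N => PP_nonneg ht hγ N _) ?_
    (tendsto_pow_atTop_nhds_zero_of_lt_one (r := (θ + 1) / 2) (by linarith only [ht, hγ, h, hθ]) (by linarith only [hθ1]))
  filter_upwards [poly_geom hθ (by linarith only [hθ1] : θ < (θ + 1) / 2) C 2,
    (tendsto_natCast_atTop_atTop.const_mul_atTop hδ).eventually_ge_atTop (1 : ℝ)] with N hN hN1
  have hN0 : (0 : ℝ) ≤ N := N.cast_nonneg
  have hB : 0 ≤ C * ((N : ℝ) + 1) * θ ^ N := by positivity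
  refine (PP_exists_le ht hγ N _ _).trans ((sum_le_card_nsmul _ _
    (C * ((N : ℝ) + 1) * θ ^ N) fun j hj => ?_).trans ?_)
  · obtain ⟨j1, j2⟩ := mem_Icc.1 hj
    have a0 : 0 ≤ (j : ℝ) + (x - y) / 2 * N := by positivity
    have a1 : ∀ X : ℕ → ℕ, (j : ℝ) ≤ y * N ∧ x * N ≤ X j →
        ⌈(j : ℝ) + (x - y) / 2 * N⌉₊ < X j := fun X hX => by
      have a2 := Nat.ceil_lt_add_one a0
      have a3 : (⌈(j : ℝ) + (x - y) / 2 * N⌉₊ : ℝ) < X j := by linarith only [hN1, hX, a2, hX.1, hX.2]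
      exact_mod_cast a3
    by_cases hi : ⌈(j : ℝ) + (x - y) / 2 * N⌉₊ ≤ N
    · exact (PP_mono ht hγ fun X _ _ hX => a1 X hX).trans (H N _ j hi j2 (Nat.le_ceil _))
    · refine le_trans (PP_mono (B := fun _ => False) ht hγ fun X hX _ hX' => ?_) ?_
      · have := hX.le j
        have := a1 X hX'
        omega
      · rw [PP_false]
        exact hB
  · rw [nsmul_eq_mul, Nat.card_Icc, Nat.add_sub_cancel]
    refine le_trans ?_ hN
    calc (N : ℝ) * (C * ((N : ℝ) + 1) * θ ^ N) ≤ ((N : ℝ) + 1) * (C * ((N : ℝ) + 1) * θ ^ N) :=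
          mul_le_mul_of_nonneg_right (by linarith only [ht, hγ, h]) hB
      _ = _ := by ring

end Pool.Agent.Work.MP_413ea6_mp
end

-- merged part: Pool.Agent.Work.MP_413ea6_mp.FerroC
section
open Filter Topology Finset

namespace Pool.Agent.Work.MP_413ea6_mp

/-! The ferroelectric regime `a > b`, `Δ > 3√2/4`: the arc is the diagonal and `r = 0` beyond the
direction of the diagonal. -/

theorem ferro_params {a b c : ℝ} (ha : 0 < a) (hb : 0 < b) (hc : 0 < c) (hba : b < a)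
    (hΔ : 3 * √2 / 4 < Delta a b c) : ∃ bh bv : ℝ, 0 < bh ∧ 2 * bh < bv ∧ bv < 1 ∧
      (b / a) ^ 2 = bh * bv ∧ (c / a) ^ 2 = (1 - bh) * (1 - bv) := by
  set D := Delta a b c with hD
  have h2 : √2 ^ 2 = 2 := Real.sq_sqrt (by norm_num)
  have h3 : 0 < √2 := Real.sqrt_pos.2 (by norm_num)
  have h4 : (√2 / 4) ^ 2 < D ^ 2 - 1 := by
    have := pow_lt_pow_left₀ hΔ (by positivity) two_ne_zero
    linarith only [h2, this]
  have h5 : √2 / 4 < √(D ^ 2 - 1) := Real.lt_sqrt_of_sq_lt h4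
  have h6 : √(D ^ 2 - 1) ^ 2 = D ^ 2 - 1 := Real.sq_sqrt (le_trans (sq_nonneg _) h4.le)
  obtain ⟨s, hs, hs0, hs1⟩ : ∃ s : ℝ, 2 < s ^ 2 ∧ 0 < s ∧ s ^ 2 + 1 = 2 * D * s := by
    refine ⟨D + √(D ^ 2 - 1), ?_, by linarith only [hΔ, h3, h5], by linarith only [h6]⟩
    rw [← h2]
    exact pow_lt_pow_left₀ (by linarith only [hΔ, h5]) h3.le two_ne_zero
  have hs2 : 1 < s := lt_of_pow_lt_pow_left₀ 2 hs0.le (by linarith only [hs])
  have ht : 0 < b / a := by positivity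
  have ht1 : b / a < 1 := (div_lt_one ha).2 hba
  have e1 : (c / a) ^ 2 = 1 + (b / a) ^ 2 - 2 * D * (b / a) := by
    rw [hD, Delta]
    field_simp
    ring
  have e2 : (c / a) ^ 2 = (1 - b / a / s) * (1 - b / a * s) := by
    have : 2 * D = s + 1 / s := by
      field_simp
      linarith only [hs1]
    rw [e1, this]
    field_simp
    ring
  have h7 : b / a / s < 1 := (div_lt_one hs0).2 (ht1.trans hs2)
  refine ⟨b / a / s, b / a * s, by positivity, ?_, ?_, by field_simp, e2⟩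
  · rw [← mul_div_assoc, div_lt_iff₀ hs0]
    linarith only [hs, ht, mul_lt_mul_of_pos_left hs ht]
  · have h8 : 0 < (1 - b / a / s) * (1 - b / a * s) := e2 ▸ by positivity
    linarith only [h8, h7, (pos_iff_pos_of_mul_pos h8).1 (sub_pos.2 h7)]

theorem FerroC_geom {q : ℝ} (h0 : 0 < q) (h1 : q < 1) (C : ℝ) {K : ℕ} (hK : K ≠ 0) :
    Tendsto (fun N : ℕ => K * ((N / K : ℕ) + 1 : ℝ) * (C * q ^ (N / K))) atTop (𝓝 0) := by
  have h2 := ((tendsto_self_mul_const_pow_of_lt_one h0.le h1).add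
    (tendsto_pow_atTop_nhds_zero_of_lt_one h0.le h1)).const_mul (K * C)
  rw [add_zero, mul_zero] at h2
  refine (h2.comp (Nat.tendsto_div_const_atTop hK)).congr fun N => ?_
  simp only [Function.comp]
  ring

theorem FerroC_rare {t γ bh bv : ℝ} (ht : 0 < t) (hγ : 0 < γ) (h0 : 0 < bh) (h2 : 2 * bh < bv)
    (h1 : bv < 1) (e1 : t ^ 2 = bh * bv) (e2 : γ ^ 2 = (1 - bh) * (1 - bv)) {x y : ℝ}
    (h : y < x) : Rare t γ fun N X => ∃ j ∈ Icc 1 N, (j : ℝ) ≤ y * N ∧ x * N ≤ X j := by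
  obtain ⟨K, hK⟩ := exists_nat_one_div_lt (sub_pos.2 h)
  have hv : 0 < bv := by linarith only [h0, h2]
  have hC : 0 ≤ bh / (bv - 2 * bh) := div_nonneg h0.le (by linarith)
  refine squeeze_zero (fun N => PP_nonneg ht hγ N _) (fun N => ?_)
    (FerroC_geom (div_pos h0 hv) ((div_lt_one hv).2 (by linarith)) (bh / (bv - 2 * bh))
      (Nat.succ_ne_zero K))
  refine (PP_exists_le ht hγ N _ _).trans ((sum_le_card_nsmul _ _
    (bh / (bv - 2 * bh) * (bh / bv) ^ (N / (K + 1))) fun j hj => ?_).trans ?_)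
  · obtain ⟨j1, j2⟩ := mem_Icc.1 hj
    have := ferro_h ht hγ h0 h2 h1 e1 e2 (i := j + N / (K + 1)) j2 (Nat.le_add_right _ _)
    rw [Nat.add_sub_cancel_left] at this
    refine le_trans (PP_mono ht hγ fun X _ _ hX => ?_) this
    have a1 : ((N / (K + 1) : ℕ) : ℝ) ≤ N / ((K + 1 : ℕ) : ℝ) := Nat.cast_div_le
    have a2 : (0 : ℝ) < N := by exact_mod_cast j1.trans j2
    have a3 := mul_lt_mul_of_pos_right hK a2
    rw [one_div_mul_eq_div] at a3
    push_cast at a1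
    have a4 : ((j + N / (K + 1) : ℕ) : ℝ) < X j := by
      rw [Nat.cast_add]
      linarith only [hX, a3, a1, hX.1, hX.2]
    exact_mod_cast a4
  · rw [nsmul_eq_mul, Nat.card_Icc, Nat.add_sub_cancel]
    refine mul_le_mul_of_nonneg_right ?_ (by positivity)
    exact_mod_cast (Nat.lt_mul_div_succ N (Nat.succ_pos K)).le

theorem efp_one {a b c : ℝ} (ha : 0 < a) (hb : 0 < b) (hc : 0 < c) (hba : b < a)
    (hΔ : 3 * √2 / 4 < Delta a b c) {p : ℝ × ℝ} (h : p.2 < p.1) :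
    Tendsto (efp a b c p) atTop (𝓝 1) := by
  obtain ⟨bh, bv, h0, h2, h1, e1, e2⟩ := ferro_params ha hb hc hba hΔ
  have ht := div_pos hb ha
  have hγ := div_pos hc ha
  refine tendsto_of_tendsto_of_tendsto_of_le_of_le
    ((FerroC_rare ht hγ h0 h2 h1 e1 e2 h).tendsto_not ht hγ) tendsto_const_nhds (fun N => ?_)
    fun N => prob_le_one ha hb hc _
  refine (prob_eq ha hb hc N _).symm.le.trans (prob_mono ha hb hc fun σ H hσ => ?_)
  exact frozen_of H fun j j1 j2 j3 => not_le.1 fun j4 => hσ ⟨j, mem_Icc.2 ⟨j1, j2⟩, j3, j4⟩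

theorem efp_zero {a b c : ℝ} (ha : 0 < a) (hb : 0 < b) (hc : 0 < c) {p : ℝ × ℝ}
    (h0 : 0 ≤ p.1) (h : p.1 < p.2) (h1 : p.2 ≤ 1) : Tendsto (efp a b c p) atTop (𝓝 0) := by
  refine tendsto_const_nhds.congr' ?_
  filter_upwards [(tendsto_natCast_atTop_atTop.const_mul_atTop (sub_pos.2 h)).eventually_ge_atTop
    (1 : ℝ)] with N hN
  refine le_antisymm (prob_nonneg ha hb hc _) ?_
  rw [← PP_false (t := b / a) (γ := c / a) N, ← prob_eq ha hb hc]
  refine prob_mono ha hb hc fun σ H hσ => ?_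
  have a1 := le_of_frozen H h0 h1 hσ
  have a2 : ⌊p.2 * N⌋₊ ≤ N := Nat.floor_le_of_le (mul_le_of_le_one_left N.cast_nonneg h1)
  have a3 : (⌊p.2 * N⌋₊ : ℝ) ≤ pathOf σ ⌊p.2 * N⌋₊ := by exact_mod_cast le_cnt (htOf_cls H) a2
  linarith only [hN, a1, a3, Nat.lt_floor_add_one (p.2 * N)]

theorem ferro_frontier {a b c : ℝ} (ha : 0 < a) (hb : 0 < b) (hc : 0 < c) (hba : b < a)
    (hΔ : 3 * √2 / 4 < Delta a b c) :
    frontier (frozenRegion a b c) ∩ Set.Ioo 0 1 ×ˢ Set.Ioo 0 1 =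
      {p : ℝ × ℝ | p.1 = p.2} ∩ Set.Ioo 0 1 ×ˢ Set.Ioo 0 1 := by
  have hA : ∀ p : ℝ × ℝ, p.2 < p.1 → p ∈ frozenRegion a b c := fun p h =>
    efp_one ha hb hc hba hΔ h
  have hB : ∀ p : ℝ × ℝ, 0 < p.1 → p.1 < p.2 → p.2 < 1 → p ∉ frozenRegion a b c :=
    fun p h0 h h1 hp => zero_ne_one (tendsto_nhds_unique (efp_zero ha hb hc h0.le h h1.le) hp)
  ext ⟨x, y⟩
  rw [frontier_eq_closure_inter_closure]
  refine and_congr_left fun ⟨hx, hy⟩ => ⟨fun ⟨h1, h2⟩ => ?_, fun h => ?_⟩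
  · rcases lt_trichotomy x y with h | h | h
    · obtain ⟨q, hq, hq'⟩ := mem_closure_iff.1 h1
        {p | 0 < p.1 ∧ p.1 < p.2 ∧ p.2 < 1} ((isOpen_lt continuous_const continuous_fst).inter
          ((isOpen_lt continuous_fst continuous_snd).inter
            (isOpen_lt continuous_snd continuous_const))) ⟨hx.1, h, hy.2⟩
      exact absurd hq' (hB q hq.1 hq.2.1 hq.2.2)
    · exact h
    · obtain ⟨q, hq, hq'⟩ := mem_closure_iff.1 h2 {p | p.2 < p.1}
        (isOpen_lt continuous_snd continuous_fst) h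
      exact absurd (hA q hq) hq'
  · obtain rfl : x = y := h
    have hc' : Tendsto (fun s : ℝ => (s, x)) (𝓝 x) (𝓝 (x, x)) :=
      (Continuous.prodMk_left x).tendsto x
    constructor
    · refine mem_closure_of_tendsto (b := 𝓝[>] x) (hc'.mono_left nhdsWithin_le_nhds) ?_
      filter_upwards [self_mem_nhdsWithin] with s hs using hA _ hs
    · refine mem_closure_of_tendsto (b := 𝓝[<] x) (hc'.mono_left nhdsWithin_le_nhds) ?_
      filter_upwards [Ioo_mem_nhdsLT hx.1] with s hs using hB _ hs.1 hs.2 hx.2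

theorem FerroC_tilt (N : ℕ) (t γ z : ℝ) (φ : Ht → ℝ) :
    mu N t γ z φ = mu N t γ 1 fun h => z ^ (cnt N h 1 - 1) * φ h :=
  sum_congr rfl fun h _ => by rw [one_pow, mul_one, mul_assoc]

theorem FerroC_rM {t γ q C z : ℝ} (ht : 0 < t) (hγ : 0 < γ) (hq : 0 ≤ q) (hC : 0 ≤ C) (hz : 1 ≤ z)
    (hzq : z * q < 1) {N : ℕ} (h : ∀ i, PP N t γ (fun X => i < X 1) ≤ C * q ^ i) :
    rM N t γ z ≤ (C * ∑' k : ℕ, k * (z * q) ^ k) / N := by
  have hz0 : 0 < z := by linarith
  have hm := mu_pos ht hγ one_pos N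
  have hs : Summable fun k : ℕ => (k : ℝ) * (z * q) ^ k := by
    simpa using summable_pow_mul_geometric_of_norm_lt_one 1
      (r := z * q) (by rwa [Real.norm_of_nonneg (by positivity)])
  have h1 : mu N t γ 1 (fun _ => 1) ≤ mu N t γ z fun _ => 1 := by
    rw [FerroC_tilt N t γ z]
    exact mu_mono ht hγ one_pos fun g _ => by rw [mul_one]; exact one_le_pow₀ hz
  have h2 : mu N t γ z (fun h => ((cnt N h 1 - 1 : ℕ) : ℝ)) ≤
      ∑ k ∈ range (N + 1), k * z ^ k * mu N t γ 1 fun g => ind (k < cnt N g 1) := by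
    simp only [← mu_smul]
    rw [FerroC_tilt N t γ z, ← mu_sum]
    refine mu_mono ht hγ one_pos fun g hg => ?_
    have hn : ∀ k ∈ range (N + 1), 0 ≤ (k : ℝ) * z ^ k * ind (k < cnt N g 1) := fun k _ =>
      mul_nonneg (by positivity) (ind_nonneg _)
    rcases Nat.eq_zero_or_pos (cnt N g 1) with h0 | h0
    · simpa [h0] using sum_nonneg hn
    · refine le_trans ?_ (single_le_sum hn (mem_range.2 (show cnt N g 1 - 1 < N + 1 by
        have := (cnt_isPath hg).le 1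
        omega)))
      rw [ind_pos (by omega), mul_one, mul_comm]
  have h3 : ∑ k ∈ range (N + 1), k * z ^ k * mu N t γ 1 (fun g => ind (k < cnt N g 1)) ≤
      (C * ∑' k : ℕ, k * (z * q) ^ k) * mu N t γ 1 fun _ => 1 := by
    refine le_trans ?_ (mul_le_mul_of_nonneg_right (mul_le_mul_of_nonneg_left
      (hs.sum_le_tsum (range (N + 1)) fun k _ => by positivity) hC) hm.le)
    rw [mul_sum, sum_mul]
    refine sum_le_sum fun k _ => ?_
    refine (mul_le_mul_of_nonneg_left ((div_le_iff₀ hm).1 (h k)) (by positivity)).trans_eq ?_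
    rw [mul_pow]
    ring
  have h4 : 0 ≤ C * ∑' k : ℕ, k * (z * q) ^ k :=
    mul_nonneg hC (tsum_nonneg fun k => by positivity)
  rw [rM, mul_comm (N : ℝ), ← div_div]
  refine div_le_div_of_nonneg_right ((div_le_iff₀ (hm.trans_le h1)).2 ?_) N.cast_nonneg
  exact h2.trans (h3.trans (mul_le_mul_of_nonneg_left h1 h4))

theorem ferro_rN {a b c : ℝ} (ha : 0 < a) (hb : 0 < b) (hc : 0 < c) (hba : b < a)
    (hΔ : 3 * √2 / 4 < Delta a b c) : ∃ z0 : ℝ, 1 < z0 ∧ lam a b c z0 < 1 ∧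
      ∀ z ∈ Set.Icc 1 z0, Tendsto (fun N => rN N a b c z) atTop (𝓝 0) := by
  obtain ⟨bh, bv, h0, h2, h1, e1, e2⟩ := ferro_params ha hb hc hba hΔ
  have ht := div_pos hb ha
  have hγ := div_pos hc ha
  have h3 : 0 < 1 - bh := by linarith only [h0, h2, h1]
  have h4 : 1 < 1 / bh := one_lt_one_div h0 (by linarith only [h0, h2, h1])
  have h5 : lamW (b / a) (c / a) (1 / bh) < 1 := by
    have : lamW (b / a) (c / a) (1 / bh) = (1 - bv) / (1 - bh) := by
      rw [lamW, e1, e2, show bh * bv * (1 / bh - 1) + (1 - bh) * (1 - bv) = 1 - bh by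
        field_simp; ring]
      field_simp
    rw [this, div_lt_one h3]
    linarith only [h0, h2]
  obtain ⟨z1, hz1, e3⟩ := lamW_surj ht hγ one_pos
  have h6 : z1 < 1 / bh := ((lamW_anti ht hγ).lt_iff_gt h4 hz1).1 (e3 ▸ h5)
  have h7 : 1 < (z1 + 1 / bh) / 2 := by linarith only [hz1, h6]
  refine ⟨(z1 + 1 / bh) / 2, h7, ?_, fun z hz => ?_⟩
  · rw [lam_eq ha hb]
    exact (lamW_anti ht hγ hz1 h7 (by linarith only [h6])).trans_eq e3
  have hzq : z * bh < 1 := (lt_div_iff₀ h0).1 (by linarith only [h6, hz, hz.2])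
  have hz0 : 0 < z := by linarith only [h0, h2, h1, hz, hz.1]
  refine squeeze_zero' ?_ ?_ (tendsto_const_div_atTop_nhds_zero_nat
    ((bv - bh) / (bv - 2 * bh) * ∑' k : ℕ, k * (z * bh) ^ k))
  · filter_upwards [eventually_ge_atTop 1] with N hN
    rw [rN_eq ha hb hc hN]
    exact div_nonneg (mu_nonneg ht hγ hz0 fun _ => Nat.cast_nonneg _)
      (mul_nonneg N.cast_nonneg (mu_pos ht hγ hz0 N).le)
  · filter_upwards [eventually_ge_atTop 1] with N hN
    rw [rN_eq ha hb hc hN]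
    exact FerroC_rM ht hγ h0.le (div_nonneg (by linarith only [h0, h2]) (by linarith only [h2])) hz.1 hzq
      (ferro_x1 ht hγ h0 h2 h1 e1 e2 N)

end Pool.Agent.Work.MP_413ea6_mp
end

-- merged part: Pool.Agent.Work.MP_413ea6_mp.FerroH
section
open Filter Topology Finset

namespace Pool.Agent.Work.MP_413ea6_mp

/-! Both ferroelectric ranges, boundaries included. -/

theorem FerroH_par {a b c : ℝ} (ha : 0 < a) (h : b + c ≤ a) : b / a + c / a ≤ 1 := by
  rw [← add_div, div_le_one ha]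
  exact h

theorem FerroH_efp_one {a b c : ℝ} (ha : 0 < a) (hb : 0 < b) (hc : 0 < c) (h0 : b + c ≤ a)
    {p : ℝ × ℝ} (h : p.2 < p.1) : Tendsto (efp a b c p) atTop (𝓝 1) := by
  have ht := div_pos hb ha
  have hγ := div_pos hc ha
  refine tendsto_of_tendsto_of_tendsto_of_le_of_le
    ((ferro_rare ht hγ (FerroH_par ha h0) h).tendsto_not ht hγ) tendsto_const_nhds (fun N => ?_)
    fun N => prob_le_one ha hb hc _
  refine (prob_eq ha hb hc N _).symm.le.trans (prob_mono ha hb hc fun σ H hσ => ?_)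
  exact frozen_of H fun j j1 j2 j3 => not_le.1 fun j4 => hσ ⟨j, mem_Icc.2 ⟨j1, j2⟩, j3, j4⟩

theorem ferro_frontier' {a b c : ℝ} (ha : 0 < a) (hb : 0 < b) (hc : 0 < c) (h : b + c ≤ a) :
    frontier (frozenRegion a b c) ∩ Set.Ioo 0 1 ×ˢ Set.Ioo 0 1 =
      {p : ℝ × ℝ | p.1 = p.2} ∩ Set.Ioo 0 1 ×ˢ Set.Ioo 0 1 := by
  have h0 := h
  clear h
  have hA : ∀ p : ℝ × ℝ, p.2 < p.1 → p ∈ frozenRegion a b c := fun p h =>
    FerroH_efp_one ha hb hc h0 h
  have hB : ∀ p : ℝ × ℝ, 0 < p.1 → p.1 < p.2 → p.2 < 1 → p ∉ frozenRegion a b c :=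
    fun p h0 h h1 hp => zero_ne_one (tendsto_nhds_unique (efp_zero ha hb hc h0.le h h1.le) hp)
  ext ⟨x, y⟩
  rw [frontier_eq_closure_inter_closure]
  refine and_congr_left fun ⟨hx, hy⟩ => ⟨fun ⟨h1, h2⟩ => ?_, fun h => ?_⟩
  · rcases lt_trichotomy x y with h | h | h
    · obtain ⟨q, hq, hq'⟩ := mem_closure_iff.1 h1
        {p | 0 < p.1 ∧ p.1 < p.2 ∧ p.2 < 1} ((isOpen_lt continuous_const continuous_fst).inter
          ((isOpen_lt continuous_fst continuous_snd).inter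
            (isOpen_lt continuous_snd continuous_const))) ⟨hx.1, h, hy.2⟩
      exact absurd hq' (hB q hq.1 hq.2.1 hq.2.2)
    · exact h
    · obtain ⟨q, hq, hq'⟩ := mem_closure_iff.1 h2 {p | p.2 < p.1}
        (isOpen_lt continuous_snd continuous_fst) h
      exact absurd (hA q hq) hq'
  · obtain rfl : x = y := h
    have hc' : Tendsto (fun s : ℝ => (s, x)) (𝓝 x) (𝓝 (x, x)) :=
      (Continuous.prodMk_left x).tendsto x
    constructor
    · refine mem_closure_of_tendsto (b := 𝓝[>] x) (hc'.mono_left nhdsWithin_le_nhds) ?_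
      filter_upwards [self_mem_nhdsWithin] with s hs using hA _ hs
    · refine mem_closure_of_tendsto (b := 𝓝[<] x) (hc'.mono_left nhdsWithin_le_nhds) ?_
      filter_upwards [Ioo_mem_nhdsLT hx.1] with s hs using hB _ hs.1 hs.2 hx.2

/-- Left-right reflection, horizontal edges complemented. -/
def reflC {N : ℕ} (σ : Cfg N) : Cfg N :=
  (fun k s => !σ.1 k.rev s, fun r k => σ.2 r.rev k)

theorem FerroH_invol (N : ℕ) : Function.Involutive (reflC : Cfg N → Cfg N) := fun σ => by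
  simp only [reflC, Fin.rev_rev, Bool.not_not]

theorem FerroH_dw {N : ℕ} {σ : Cfg N} (H : IsDW σ) : IsDW (reflC σ) := by
  obtain ⟨h1, h2, h3, h4, h5⟩ := H
  refine ⟨fun r s => ?_, fun s => ?_, fun r => h3 _, fun r => h4 _, fun s => ?_⟩
  · have := h1 r.rev s
    simp only [reflC, Fin.rev_castSucc, Fin.rev_succ]
    revert this
    cases σ.1 r.rev.castSucc s <;> cases σ.1 r.rev.succ s <;> cases σ.2 r.rev s.castSucc <;>
      cases σ.2 r.rev s.succ <;> simp
  · simp only [reflC, Fin.rev_zero, h5, Bool.not_false]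
  · simp only [reflC, Fin.rev_last, h2, Bool.not_true]

theorem FerroH_dw_iff {N : ℕ} {σ : Cfg N} : IsDW (reflC σ) ↔ IsDW σ :=
  ⟨fun H => FerroH_invol N σ ▸ FerroH_dw H, FerroH_dw⟩

theorem FerroH_weight {N : ℕ} (a b c : ℝ) {σ : Cfg N} (H : IsDW σ) :
    weight a b c (reflC σ) = weight b a c σ := by
  unfold weight
  refine Fintype.prod_equiv Fin.revPerm _ _ fun r => prod_congr rfl fun s _ => ?_
  have := H.1 r.rev s
  simp only [reflC, Fin.rev_castSucc, Fin.rev_succ, Fin.revPerm_apply]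
  revert this
  cases σ.1 r.rev.castSucc s <;> cases σ.1 r.rev.succ s <;> cases σ.2 r.rev s.castSucc <;>
    cases σ.2 r.rev s.succ <;> simp [vw]

theorem prob_reflC (N : ℕ) (a b c : ℝ) (A : Cfg N → Prop) :
    prob N a b c A = prob N b a c (fun σ => A (reflC σ)) := by
  unfold prob
  congr 1
  · refine (Fintype.sum_equiv (FerroH_invol N).toPerm _ _ fun σ => ?_).symm
    rw [Function.Involutive.coe_toPerm]
    by_cases H : IsDW σ
    · by_cases h : A (reflC σ)
      · rw [if_pos ⟨H, h⟩, if_pos ⟨FerroH_dw H, h⟩, FerroH_weight a b c H]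
      · rw [if_neg fun k => h k.2, if_neg fun k => h k.2]
    · rw [if_neg fun k => H k.1, if_neg fun k => H (FerroH_dw_iff.1 k.1)]
  · refine (Fintype.sum_equiv (FerroH_invol N).toPerm _ _ fun σ => ?_).symm
    rw [Function.Involutive.coe_toPerm]
    by_cases H : IsDW σ
    · rw [if_pos H, if_pos (FerroH_dw H), FerroH_weight a b c H]
    · rw [if_neg H, if_neg fun k => H (FerroH_dw_iff.1 k)]

theorem FerroH_path {N : ℕ} (hN : 1 ≤ N) {σ : Cfg N} (H : IsDW σ) :
    pathOf (reflC σ) 1 + pathOf σ 1 = N + 1 := by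
  have h1 : 1 ≤ pathOf σ 1 := le_cnt (htOf_cls H) hN
  have h2 : pathOf σ 1 ≤ N := (cnt_isPath (htOf_cls H)).le 1
  obtain ⟨r, hr⟩ : ∃ r : Fin N, pathOf σ 1 = r + 1 :=
    ⟨⟨pathOf σ 1 - 1, by omega⟩, by dsimp only; omega⟩
  have h3 := (Bij_first hN H r).2 hr
  have h4 := (Bij_first hN (FerroH_dw H) r.rev).1 (by simpa only [reflC, Fin.rev_rev] using h3)
  rw [h4, hr, Fin.val_rev]
  omega

theorem x1_large {a b c δ : ℝ} (ha : 0 < a) (hb : 0 < b) (hc : 0 < c) (h : a + c ≤ b)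
    (hδ : 0 < δ) : Rare (b / a) (c / a) fun N X => (X 1 : ℝ) ≤ (1 - δ) * N := by
  have h1 := ferro_rare (div_pos ha hb) (div_pos hc hb) (FerroH_par hb h) (half_lt_self hδ)
  refine squeeze_zero' (Eventually.of_forall fun N => PP_nonneg (div_pos hb ha) (div_pos hc ha) N _)
    ?_ h1
  filter_upwards [(tendsto_natCast_atTop_atTop.const_mul_atTop (half_pos hδ)).eventually_ge_atTop
    (1 : ℝ), eventually_ge_atTop 1] with N hN hN1
  rw [← prob_eq ha hb hc, prob_reflC, ← prob_eq hb ha hc]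
  refine prob_mono hb ha hc fun σ H hσ => ⟨1, mem_Icc.2 ⟨le_rfl, hN1⟩, by simpa using hN, ?_⟩
  have h2 : ((pathOf (reflC σ) 1 : ℕ) : ℝ) + pathOf σ 1 = N + 1 := by
    exact_mod_cast FerroH_path hN1 H
  linarith only [hσ, h2]

theorem FerroH_tilt {t γ z : ℝ} (ht : 0 < t) (hγ : 0 < γ) (hz : 1 ≤ z) (N T : ℕ) :
    mu N t γ z (fun g => ind (cnt N g 1 ≤ T)) ≤
      PP N t γ (fun X => X 1 ≤ T) * mu N t γ z fun _ => 1 := by
  have hz0 : 0 < z := by linarith
  have hm := mu_pos ht hγ one_pos N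
  have e : ∀ w : ℝ, (mu N t γ w fun _ => 1) = mu N t γ w (fun g => ind (cnt N g 1 ≤ T)) +
      mu N t γ w (fun g => ind (¬ cnt N g 1 ≤ T)) := fun w => by
    simp only [ind_not, mu_sub]
    ring
  have h1 : mu N t γ z (fun g => ind (cnt N g 1 ≤ T)) ≤
      z ^ T * mu N t γ 1 (fun g => ind (cnt N g 1 ≤ T)) := by
    rw [FerroC_tilt N t γ z, ← mu_smul]
    refine mu_mono ht hγ one_pos fun g _ => ?_
    by_cases k : cnt N g 1 ≤ T
    · exact mul_le_mul_of_nonneg_right (pow_le_pow_right₀ hz (by omega)) (ind_nonneg _)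
    · rw [ind_neg k, mul_zero, mul_zero]
  have h2 : z ^ T * mu N t γ 1 (fun g => ind (¬ cnt N g 1 ≤ T)) ≤
      mu N t γ z (fun g => ind (¬ cnt N g 1 ≤ T)) := by
    rw [FerroC_tilt N t γ z, ← mu_smul]
    refine mu_mono ht hγ one_pos fun g _ => ?_
    by_cases k : cnt N g 1 ≤ T
    · rw [ind_neg (not_not.2 k), mul_zero, mul_zero]
    · exact mul_le_mul_of_nonneg_right (pow_le_pow_right₀ hz (by omega)) (ind_nonneg _)
  have h3 : 0 ≤ mu N t γ 1 (fun g => ind (cnt N g 1 ≤ T)) :=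
    mu_nonneg ht hγ one_pos fun _ => ind_nonneg _
  have h4 : 0 ≤ mu N t γ 1 (fun g => ind (¬ cnt N g 1 ≤ T)) :=
    mu_nonneg ht hγ one_pos fun _ => ind_nonneg _
  rw [PP, div_mul_eq_mul_div, le_div_iff₀ hm, e 1, e z]
  linarith only [h1, h4, h2, h3, mul_le_mul_of_nonneg_right h1 h4, mul_le_mul_of_nonneg_left h2 h3]

theorem FerroH_rM_ge {t γ z : ℝ} (ht : 0 < t) (hγ : 0 < γ) (hz : 1 ≤ z) {N : ℕ} (hN : 1 ≤ N)
    (T : ℕ) : T / N * (1 - PP N t γ (fun X => X 1 ≤ T)) ≤ rM N t γ z := by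
  have hz0 : 0 < z := by linarith only [hz]
  have hm := mu_pos ht hγ hz0 N
  have hN0 : (0 : ℝ) < N := by exact_mod_cast hN
  have h1 : mu N t γ z (fun g => T * (1 - ind (cnt N g 1 ≤ T))) ≤
      mu N t γ z (fun g => ((cnt N g 1 - 1 : ℕ) : ℝ)) := by
    refine mu_mono ht hγ hz0 fun g _ => ?_
    by_cases k : cnt N g 1 ≤ T
    · rw [ind_pos k, sub_self, mul_zero]
      exact Nat.cast_nonneg _
    · rw [ind_neg k, sub_zero, mul_one]
      exact_mod_cast (by omega : T ≤ cnt N g 1 - 1)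
  rw [mu_smul, mu_sub] at h1
  have h2 := mul_le_mul_of_nonneg_left (FerroH_tilt ht hγ hz N T) (Nat.cast_nonneg T)
  rw [rM, le_div_iff₀ (mul_pos hN0 hm)]
  have h3 : T / N * (1 - PP N t γ (fun X => X 1 ≤ T)) * (N * mu N t γ z fun _ => 1) =
      T * (1 - PP N t γ (fun X => X 1 ≤ T)) * mu N t γ z fun _ => 1 := by
    field_simp
  rw [h3]
  linarith only [h1, h2]

theorem FerroH_rM_le {t γ z : ℝ} (ht : 0 < t) (hγ : 0 < γ) (hz : 1 ≤ z) {N : ℕ} (hN : 1 ≤ N) :
    rM N t γ z ≤ 1 := by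
  have hz0 : 0 < z := by linarith only [hz]
  have hN0 : (0 : ℝ) < N := by exact_mod_cast hN
  rw [rM, div_le_one (mul_pos hN0 (mu_pos ht hγ hz0 N)), ← mu_smul]
  refine mu_mono ht hγ hz0 fun g hg => ?_
  have := (cnt_isPath hg).le 1
  rw [mul_one]
  exact_mod_cast (by omega : cnt N g 1 - 1 ≤ N)

theorem ferro_point_rN {a b c : ℝ} (ha : 0 < a) (hb : 0 < b) (hc : 0 < c) (h : a + c ≤ b)
    {z : ℝ} (hz : 1 ≤ z) : Tendsto (fun N => rN N a b c z) atTop (𝓝 1) := by
  have ht := div_pos hb ha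
  have hγ := div_pos hc ha
  refine tendsto_order.2 ⟨fun u hu => ?_, fun u hu => ?_⟩
  · have hd : 0 < (1 - u) / 2 := by linarith only [hu]
    have h1 := x1_large ha hb hc h hd
    have h2 : Tendsto (fun N : ℕ => (1 - (1 - u) / 2 - 1 / (N : ℝ)) *
        (1 - PP N (b / a) (c / a) fun X => (X 1 : ℝ) ≤ (1 - (1 - u) / 2) * N)) atTop
        (𝓝 ((1 - (1 - u) / 2 - 0) * (1 - 0))) :=
      (tendsto_one_div_atTop_nhds_zero_nat.const_sub _).mul (Tendsto.const_sub 1 h1)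
    filter_upwards [h2.eventually (lt_mem_nhds (by linarith only [hu] : u < (1 - (1 - u) / 2 - 0) * (1 - 0))),
      eventually_ge_atTop 1] with N hN hN1
    have hN0 : (0 : ℝ) < N := by exact_mod_cast hN1
    rw [rN_eq ha hb hc hN1]
    refine hN.trans_le (le_trans ?_ (FerroH_rM_ge ht hγ hz hN1 ⌊(1 - (1 - u) / 2) * N⌋₊))
    refine mul_le_mul ?_ (sub_le_sub_left (PP_mono ht hγ fun X _ hX k => ?_) 1)
      (sub_nonneg.2 (PP_le_one ht hγ N _)) (by positivity)
    · rw [le_div_iff₀ hN0, sub_mul, one_div_mul_cancel hN0.ne']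
      exact (Nat.sub_one_lt_floor _).le
    · by_contra k'
      have h3 := hX 1 hN1
      exact absurd k (not_le.2 ((Nat.floor_lt' (by omega)).2 (not_le.1 k')))
  · filter_upwards [eventually_ge_atTop 1] with N hN1
    rw [rN_eq ha hb hc hN1]
    exact (FerroH_rM_le ht hγ hz hN1).trans_lt hu

theorem ferro_point_efp {a b c : ℝ} (ha : 0 < a) (hb : 0 < b) (hc : 0 < c) (h : a + c ≤ b)
    {p : ℝ × ℝ} (h0 : 0 ≤ p.1) (h1 : p.1 < 1) (h2 : 0 < p.2) (h3 : p.2 ≤ 1) :
    Tendsto (efp a b c p) atTop (𝓝 0) := by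
  refine squeeze_zero' (Eventually.of_forall fun N => prob_nonneg ha hb hc _) ?_
    (x1_large ha hb hc h (sub_pos.2 h1))
  filter_upwards [(tendsto_natCast_atTop_atTop.const_mul_atTop h2).eventually_ge_atTop
    (1 : ℝ)] with N hN
  rw [← prob_eq ha hb hc]
  refine prob_mono ha hb hc fun σ H hσ => ?_
  have a1 := le_of_frozen H h0 h3 hσ
  have a2 : pathOf σ 1 ≤ pathOf σ ⌊p.2 * N⌋₊ :=
    cnt_monotone (htOf_cls H) (Nat.floor_pos.2 hN)
  have a3 : (pathOf σ 1 : ℝ) ≤ pathOf σ ⌊p.2 * N⌋₊ := by exact_mod_cast a2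
  rw [sub_sub_cancel]
  exact a3.trans a1

theorem ferro_point_curve {a b c : ℝ} (ha : 0 < a) (hb : 0 < b) (hc : 0 < c) :
    curve a b c (fun _ => 1) = {(1, 0)} := by
  ext ⟨x, y⟩
  constructor
  · rintro ⟨z, hz, h1, h2⟩
    obtain ⟨d, hd, h3⟩ := lamW_deriv (div_pos hb ha) (div_pos hc ha) hz
    have h4 : HasDerivAt (lineF a b c (fun _ => 1) x y) (-(d * y)) z := by
      have e : lineF a b c (fun _ => 1) x y = fun w => x - lamW (b / a) (c / a) w * y - 1 :=
        funext fun w => by rw [lineF, lam_eq ha hb]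
      rw [e]
      exact ((h3.mul_const y).const_sub x).sub_const 1
    have h5 : y = 0 := (mul_eq_zero.1 (neg_eq_zero.1 (h4.unique h2))).resolve_left hd.ne
    simp only [lineF, h5, mul_zero, sub_zero] at h1
    rw [Set.mem_singleton_iff, h5, sub_eq_zero.1 h1]
  · intro h
    obtain ⟨rfl, rfl⟩ := Prod.mk.inj (Set.mem_singleton_iff.1 h)
    have e : lineF a b c (fun _ => 1) 1 0 = fun _ => 0 := funext fun w => by simp [lineF]
    refine ⟨2, by norm_num, by simp [lineF], ?_⟩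
    dsimp only
    rw [e]
    exact hasDerivAt_const _ _

end Pool.Agent.Work.MP_413ea6_mp
end

-- merged part: Pool.Agent.Work.MP_413ea6_mp.EndA
section
open Filter Topology Finset Matrix

namespace Pool.Agent.Work.MP_413ea6_mp

/-! The value `r(1)`. -/

noncomputable def KData.r1 {T : Trig} {g : ℝ} (K : KData T g) (u0 : ℝ) : ℝ :=
  (T.C u0 / T.S u0 - deriv K.σ u0 / K.σ u0) / (T.S g / (T.S (g - u0) * T.S u0))

theorem EndA_logd {f f' : ℝ → ℝ} (hf : ∀ x, HasDerivAt f (f' x) x) (h0 : f 0 = 0) (h1 : f' 0 = 1)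
    (h2 : HasDerivAt f' 0 0) : Tendsto (fun x => f' x / f x - 1 / x) (𝓝[>] 0) (𝓝 0) := by
  have hA : Tendsto (fun x => (f' x - 1) / x) (𝓝[>] 0) (𝓝 0) := by
    have := h2.tendsto_slope_zero_right
    simp only [zero_add, h1, smul_eq_mul] at this
    exact this.congr fun x => by ring
  have hD : Tendsto (fun x => f x / x) (𝓝[>] 0) (𝓝 1) := by
    have := (hf 0).tendsto_slope_zero_right
    simp only [zero_add, h0, h1, smul_eq_mul] at this
    exact this.congr fun x => by ring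
  have hB : Tendsto (fun x => (f x - x) / x ^ 2) (𝓝[>] 0) (𝓝 0) := by
    refine HasDerivAt.lhopital_zero_nhdsGT (f' := fun x => f' x - 1) (g' := fun x => 2 * x)
      (Eventually.of_forall fun x => (hf x).sub (hasDerivAt_id' x))
      (Eventually.of_forall fun x => by simpa using hasDerivAt_pow 2 x) ?_ ?_ ?_ ?_
    · filter_upwards [self_mem_nhdsWithin] with x hx
      have : (0 : ℝ) < x := hx
      positivity
    · have : ContinuousAt (fun x => f x - x) 0 := (hf 0).continuousAt.sub continuousAt_id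
      have := this.tendsto.mono_left (nhdsWithin_le_nhds (s := Set.Ioi 0))
      simpa [h0] using this
    · have : Continuous fun x : ℝ => x ^ 2 := continuous_pow 2
      have := (this.tendsto 0).mono_left (nhdsWithin_le_nhds (s := Set.Ioi 0))
      simpa using this
    · have := hA.div_const 2
      rw [zero_div] at this
      exact this.congr fun x => by ring
  have := (hA.sub hB).div hD one_ne_zero
  rw [sub_zero, zero_div] at this
  refine this.congr' ?_
  filter_upwards [self_mem_nhdsWithin, hD.eventually_ne one_ne_zero] with x hx hx'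
  have hx0 : x ≠ 0 := ne_of_gt hx
  have hf0 : f x ≠ 0 := fun h => hx' (by rw [h, zero_div])
  simp only [Pi.div_apply]
  field_simp
  ring

theorem EndA_σ_deriv {T : Trig} {g : ℝ} (K : KData T g) (x : ℝ) :
    HasDerivAt K.σ (deriv K.σ x) x :=
  (K.σ_smooth.differentiable (by norm_num) x).hasDerivAt

theorem EndA_σ_c1 {T : Trig} {g : ℝ} (K : KData T g) : ContDiff ℝ 1 (deriv K.σ) := by
  have h : ContDiff ℝ (1 + 1) K.σ := by
    have := K.σ_smooth
    rwa [← one_add_one_eq_two] at this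
  exact h.deriv'

theorem EndA_σ_lim {T : Trig} {g : ℝ} (K : KData T g) :
    Tendsto (fun x => deriv K.σ x / K.σ x - 1 / x) (𝓝[>] 0) (𝓝 0) := by
  have h0 : K.σ 0 = 0 := by
    have := K.σ_neg 0
    rw [neg_zero] at this
    linarith only [this]
  have heven : ∀ x, deriv K.σ (-x) = deriv K.σ x := by
    intro x
    have h1 : HasDerivAt (fun y => K.σ (-y)) (deriv K.σ (-x) * -1) x :=
      (EndA_σ_deriv K (-x)).comp x (hasDerivAt_neg x)
    have h2 : HasDerivAt (fun y => K.σ (-y)) (-deriv K.σ x) x := by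
      simp only [K.σ_neg]
      exact (EndA_σ_deriv K x).neg
    have := h1.unique h2
    linarith
  have hd : HasDerivAt (deriv K.σ) (deriv (deriv K.σ) 0) 0 :=
    ((EndA_σ_c1 K).differentiable one_ne_zero 0).hasDerivAt
  have hd0 : deriv (deriv K.σ) 0 = 0 := by
    have h1 : HasDerivAt (fun y => deriv K.σ (-y)) (deriv (deriv K.σ) 0 * -1) 0 := by
      have h3 : HasDerivAt (deriv K.σ) (deriv (deriv K.σ) 0) (-0) := by rwa [neg_zero]
      exact h3.comp 0 (hasDerivAt_neg 0)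
    simp only [heven] at h1
    have := h1.unique hd
    linarith
  rw [hd0] at hd
  exact EndA_logd (EndA_σ_deriv K) h0 K.σ_deriv.deriv hd

theorem EndA_S_lim (T : Trig) : Tendsto (fun x => T.C x / T.S x - 1 / x) (𝓝[>] 0) (𝓝 0) :=
  EndA_logd T.dS T.S_zero T.C_zero (by simpa [T.S_zero] using T.dC 0)

theorem EndA_L_deriv {T : Trig} {g : ℝ} (K : KData T g) {u0 x : ℝ} (hu : 0 < u0) (hx : 0 < x)
    (hg : u0 + x < g) : deriv (K.L u0) x = T.C (u0 + x) / T.S (u0 + x) -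
      deriv K.σ (u0 + x) / K.σ (u0 + x) + (deriv K.σ x / K.σ x - T.C x / T.S x) := by
  have ev : K.L u0 =ᶠ[𝓝 x] fun y => Real.log (T.S (u0 + y)) - Real.log (K.σ (u0 + y)) +
      (Real.log (K.σ y) - Real.log (T.S y)) := by
    filter_upwards [Ioo_mem_nhds hx (by linarith : x < g - u0)] with y hy
    obtain ⟨h1, h2⟩ := hy
    have a1 := (K.S_pos (g - (u0 + y)) (by linarith) (by linarith)).ne'
    have a2 := (K.S_pos (u0 + y) (by linarith) (by linarith)).ne'
    have a3 := (K.S_pos y h1 (by linarith)).ne'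
    have a4 := (K.σ_pos (u0 + y) (by linarith) (by linarith)).ne'
    have a5 := (K.σ_pos y h1 (by linarith)).ne'
    unfold KData.L KData.Λ
    rw [if_neg h1.ne', Real.log_mul (by positivity) (by positivity),
      Real.log_div (by positivity) a4, Real.log_mul a1 a2, Real.log_div a5 a3]
    ring
  have a2 := (K.S_pos (u0 + x) (by linarith) (by linarith)).ne'
  have a3 := (K.S_pos x hx (by linarith)).ne'
  have a4 := (K.σ_pos (u0 + x) (by linarith) (by linarith)).ne'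
  have a5 := (K.σ_pos x hx (by linarith)).ne'
  have d1 : HasDerivAt (fun y => T.S (u0 + y)) (T.C (u0 + x)) x := (T.dS _).comp_const_add u0 x
  have d2 : HasDerivAt (fun y => K.σ (u0 + y)) (deriv K.σ (u0 + x)) x :=
    (EndA_σ_deriv K _).comp_const_add u0 x
  rw [ev.deriv_eq]
  exact (((d1.log a2).sub (d2.log a4)).add
    (((EndA_σ_deriv K x).log a5).sub ((T.dS x).log a3))).deriv

theorem rr_zero {T : Trig} {g : ℝ} (K : KData T g) {u0 : ℝ} (hu : 0 < u0) (hug : u0 < g) :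
    Tendsto (K.rr u0) (𝓝[>] 0) (𝓝 (K.r1 u0)) := by
  have a1 := (K.S_pos (g - u0) (by linarith) (by linarith)).ne'
  have a2 := (K.S_pos u0 hu hug.le).ne'
  have a3 := (K.S_pos g K.g_pos le_rfl).ne'
  have a4 := (K.σ_pos u0 hu hug).ne'
  have cS := T.contS
  have cC := T.contC
  have cσ := K.σ_smooth.continuous
  have cσ' := (EndA_σ_c1 K).continuous
  have t1 : ContinuousAt (fun x => T.C (u0 + x) / T.S (u0 + x) -
      deriv K.σ (u0 + x) / K.σ (u0 + x)) 0 :=
    (ContinuousAt.div (by fun_prop) (by fun_prop) (by simpa using a2)).sub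
      (ContinuousAt.div (by fun_prop) (by fun_prop) (by simpa using a4))
  have t2 : ContinuousAt (fun x => T.S g / (T.S (g - (u0 + x)) * T.S (u0 + x))) 0 :=
    ContinuousAt.div (by fun_prop) (by fun_prop) (by simpa using ⟨a1, a2⟩)
  have t1' := t1.tendsto.mono_left (nhdsWithin_le_nhds (s := Set.Ioi 0))
  have t2' := t2.tendsto.mono_left (nhdsWithin_le_nhds (s := Set.Ioi 0))
  simp only [add_zero] at t1' t2'
  have t3 := (t1'.add ((EndA_σ_lim K).sub (EndA_S_lim T))).div t2' (by positivity)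
  simp only [sub_zero, add_zero] at t3
  refine t3.congr' ?_
  have ev : ∀ᶠ x in 𝓝[>] (0 : ℝ), x < g - u0 :=
    mem_nhdsWithin_of_mem_nhds (Iio_mem_nhds (by linarith))
  filter_upwards [ev, self_mem_nhdsWithin] with x h1 h2
  have hx : 0 < x := h2
  unfold KData.rr
  rw [EndA_L_deriv K hu hx (by linarith),
    (logz_deriv K.S_pos hu hug (by linarith) (by linarith)).deriv]
  simp only [Pi.div_apply]
  ring

theorem r1_add {T : Trig} {g : ℝ} (K : KData T g) {u0 : ℝ} (hu : 0 < u0) (hug : u0 < g) :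
    K.r1 u0 + K.r1 (g - u0) = 1 := by
  have a1 := (K.S_pos (g - u0) (by linarith) (by linarith)).ne'
  have a2 := (K.S_pos u0 hu hug.le).ne'
  have a3 := (K.S_pos g K.g_pos le_rfl).ne'
  have a4 := (K.σ_pos u0 hu hug).ne'
  have h1 : HasDerivAt (fun y => K.σ (g - y)) (-deriv K.σ (g - u0)) u0 :=
    (EndA_σ_deriv K _).comp_const_sub g u0
  simp only [K.σ_symm] at h1
  have h2 : deriv K.σ (g - u0) = -deriv K.σ u0 := by
    rw [h1.deriv, neg_neg]
  have h3 := T.S_add u0 (g - u0)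
  rw [add_sub_cancel] at h3
  unfold KData.r1
  rw [h2, K.σ_symm, sub_sub_cancel]
  field_simp
  linear_combination (-K.σ u0) * h3

theorem rM_mono {t γ w z : ℝ} (ht : 0 < t) (hγ : 0 < γ) (hz : 0 < z) (hzw : z ≤ w) (N : ℕ) :
    rM N t γ z ≤ rM N t γ w := by
  rcases Nat.eq_zero_or_pos N with rfl | hN
  · simp [rM]
  rcases hzw.eq_or_lt with rfl | hlt
  · exact le_rfl
  have hw : 0 < w := hz.trans hlt
  have h1 := mu_tangent ht hγ hw hz N
  have h2 := mu_tangent ht hγ hz hw N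
  have h3 : 0 < Real.log w - Real.log z := sub_pos.2 (Real.log_lt_log hz hlt)
  have h4 : (0 : ℝ) < N := by exact_mod_cast hN
  refine le_of_mul_le_mul_left ?_ (mul_pos h4 h3)
  linarith only [h1, h2]

theorem EndA_sum {a b c : ℝ} (ha : 0 < a) (hb : 0 < b) (hc : 0 < c) {N : ℕ} (hN : 1 ≤ N) :
    rN N a b c 1 = (∑ σ : Cfg N, ind (IsDW σ) * (weight a b c σ * ((pathOf σ 1 - 1 : ℕ) : ℝ))) /
      (N * ∑ σ : Cfg N, ind (IsDW σ) * (weight a b c σ * 1)) := by
  have h := sum_dw ha hb hc N fun h => ((cnt N h 1 - 1 : ℕ) : ℝ)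
  rw [← Bij_mu_one] at h
  rw [rN_eq ha hb hc hN, Bij_sum_true ha hb hc]
  unfold pathOf
  rw [h, mul_left_comm, mul_div_mul_left _ _ (by positivity)]
  rfl

theorem EndA_refl (a b c : ℝ) {N : ℕ} (φ : Cfg N → ℝ) :
    ∑ σ : Cfg N, ind (IsDW σ) * (weight b a c σ * φ σ) =
      ∑ σ : Cfg N, ind (IsDW σ) * (weight a b c σ * φ (reflC σ)) := by
  refine (Fintype.sum_equiv (FerroH_invol N).toPerm _ _ fun σ => ?_).symm
  rw [Function.Involutive.coe_toPerm]
  by_cases H : IsDW σ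
  · rw [FerroH_weight b a c H, ind_congr (FerroH_dw_iff (σ := σ))]
  · rw [ind_congr (FerroH_dw_iff (σ := σ)), ind_neg H, zero_mul, zero_mul]

theorem rN_refl {a b c : ℝ} (ha : 0 < a) (hb : 0 < b) (hc : 0 < c) {N : ℕ} (hN : 1 ≤ N) :
    rN N a b c 1 + rN N b a c 1 = ((N : ℝ) - 1) / N := by
  have hZ := Bij_den_pos ha hb hc N
  rw [← Bij_sum_true ha hb hc] at hZ
  have hN0 : (0 : ℝ) < N := by exact_mod_cast hN
  rw [EndA_sum ha hb hc hN, EndA_sum hb ha hc hN, EndA_refl a b c, EndA_refl a b c fun _ => 1,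
    ← add_div, ← Finset.sum_add_distrib, div_eq_div_iff (by positivity) hN0.ne']
  have : ∀ σ : Cfg N, ind (IsDW σ) * (weight a b c σ * ((pathOf σ 1 - 1 : ℕ) : ℝ)) +
      ind (IsDW σ) * (weight a b c σ * ((pathOf (reflC σ) 1 - 1 : ℕ) : ℝ)) =
      ((N : ℝ) - 1) * (ind (IsDW σ) * (weight a b c σ * 1)) := by
    intro σ
    by_cases H : IsDW σ
    · have p1 := FerroH_path hN H
      have p2 : 1 ≤ pathOf σ 1 := le_cnt (htOf_cls H) hN
      have p3 : 1 ≤ pathOf (reflC σ) 1 := le_cnt (htOf_cls (FerroH_dw H)) hN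
      have p4 : (pathOf (reflC σ) 1 : ℝ) + pathOf σ 1 = N + 1 := by exact_mod_cast p1
      rw [Nat.cast_sub p2, Nat.cast_sub p3]
      push_cast
      linear_combination (ind (IsDW σ) * weight a b c σ) * p4
    · rw [ind_neg H]
      ring
  simp only [this]
  rw [← Finset.mul_sum]
  ring

theorem EndA_upper {T : Trig} {g : ℝ} (K : KData T g) {u0 a b c ε : ℝ} (hu : 0 < u0)
    (hug : u0 < g) (ha : 0 < a) (hb : 0 < b) (hc : 0 < c) (e1 : b / a = tOf T g u0)
    (e2 : c / a = γOf T g u0) (hε : K.r1 u0 < ε) : ∀ᶠ N : ℕ in atTop, rN N a b c 1 < ε := by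
  have ev : ∀ᶠ x in 𝓝[>] (0 : ℝ), x < g - u0 :=
    mem_nhdsWithin_of_mem_nhds (Iio_mem_nhds (by linarith only [hug]))
  obtain ⟨x, ⟨h1, h2⟩, h3⟩ :=
    ((((rr_zero K hu hug).eventually_lt_const hε).and ev).and self_mem_nhdsWithin).exists
  have hx : 0 < x := h3
  have hz := zOf_gt K.S_pos hu hx (by linarith)
  filter_upwards [(r_limit K hu hx (by linarith)).eventually_lt_const h1,
    eventually_ge_atTop 1] with N hN hN1
  rw [rN_eq ha hb hc hN1]
  refine lt_of_le_of_lt (rM_mono (div_pos hb ha) (div_pos hc ha) one_pos hz.le N) ?_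
  rwa [e1, e2]

theorem r_one {T : Trig} {g : ℝ} (K : KData T g) {u0 a b c : ℝ} (hu : 0 < u0) (hug : u0 < g)
    (ha : 0 < a) (hb : 0 < b) (hc : 0 < c) (e1 : b / a = tOf T g u0) (e2 : c / a = γOf T g u0) :
    Tendsto (fun N => rN N a b c 1) atTop (𝓝 (K.r1 u0)) := by
  have a1 := (K.S_pos (g - u0) (by linarith) (by linarith)).ne'
  have a2 := (K.S_pos u0 hu hug.le).ne'
  have f1 : a / b = tOf T g (g - u0) := by
    rw [← inv_div, e1]
    unfold tOf
    rw [inv_div, sub_sub_cancel]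
  have f2 : c / b = γOf T g (g - u0) := by
    have : c / b = c / a / (b / a) := by field_simp
    rw [this, e1, e2]
    unfold tOf γOf
    rw [sub_sub_cancel]
    field_simp
  have hadd := r1_add K hu hug
  refine tendsto_order.2 ⟨fun ε hε => ?_, fun ε hε => EndA_upper K hu hug ha hb hc e1 e2 hε⟩
  have hδ : 0 < (K.r1 u0 - ε) / 2 := by linarith only [hε]
  have ev := EndA_upper K (u0 := g - u0) (ε := K.r1 (g - u0) + (K.r1 u0 - ε) / 2) (by linarith only [hug])
    (by linarith only [hu]) hb ha hc f1 f2 (by linarith only [hε])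
  filter_upwards [ev, eventually_ge_atTop 1,
    (tendsto_one_div_atTop_nhds_zero_nat (𝕜 := ℝ)).eventually_lt_const hδ] with N h1 h2 h3
  have h4 := rN_refl ha hb hc h2
  have hN0 : (0 : ℝ) < N := by exact_mod_cast h2
  rw [sub_div, div_self hN0.ne'] at h4
  linarith only [hadd, h1, h3, h4]

end Pool.Agent.Work.MP_413ea6_mp
end
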