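import Pool.Agent.Work.MP_413ea6_mp.Defs

-- merged part: Pool.Agent.Work.MP_413ea6_mp.Base
section
/-!
Internal definitions.  Throughout `t = b / a`, `γ = c / a`.

Height functions `h i j` = number of thick vertical edges at level `j` in columns `> i`.
The outer (lowest) path is `X j = cnt N h j`, the column where it crosses level `j`.
-/

open Filter Topology Finset

namespace Pool.Agent.Work.MP_413ea6_mp

open Classical in
/-- Real indicator of a proposition. -/
noncomputable def ind (p : Prop) : ℝ := if p then 1 else 0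

theorem ind_pos {p : Prop} (h : p) : ind p = 1 := by simp [ind, h]

theorem ind_neg {p : Prop} (h : ¬ p) : ind p = 0 := by simp [ind, h]

theorem ind_nonneg (p : Prop) : 0 ≤ ind p := by
  unfold ind; split_ifs <;> norm_num

theorem ind_le_one (p : Prop) : ind p ≤ 1 := by
  unfold ind; split_ifs <;> norm_num

theorem ind_mono {p q : Prop} (h : p → q) : ind p ≤ ind q := by
  by_cases hp : p
  · rw [ind_pos hp, ind_pos (h hp)]
  · rw [ind_neg hp]; exact ind_nonneg q

theorem ind_congr {p q : Prop} (h : p ↔ q) : ind p = ind q := by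
  rw [propext h]

theorem ind_and (p q : Prop) : ind (p ∧ q) = ind p * ind q := by
  by_cases hp : p <;> by_cases hq : q <;> simp [ind, hp, hq]

theorem ind_not (p : Prop) : ind (¬ p) = 1 - ind p := by
  by_cases hp : p <;> simp [ind, hp]

theorem ind_or_le (p q : Prop) : ind (p ∨ q) ≤ ind p + ind q := by
  by_cases hp : p <;> by_cases hq : q <;> simp [ind, hp, hq]

theorem ind_true : ind True = 1 := ind_pos trivial

theorem ind_false : ind False = 0 := ind_neg id

theorem ind_exists_le {ι : Type*} (s : Finset ι) (p : ι → Prop) :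
    ind (∃ i ∈ s, p i) ≤ ∑ i ∈ s, ind (p i) := by
  by_cases h : ∃ i ∈ s, p i
  · rw [ind_pos h]
    obtain ⟨i, hi, hp⟩ := h
    rw [← ind_pos hp]
    exact single_le_sum (f := fun i => ind (p i)) (fun i _ => ind_nonneg _) hi
  · rw [ind_neg h]; exact sum_nonneg fun i _ => ind_nonneg _

/-- A polynomial factor is absorbed by a slightly larger geometric rate. -/
theorem poly_geom {θ θ' : ℝ} (h0 : 0 < θ) (h : θ < θ') (C : ℝ) (k : ℕ) :
    ∀ᶠ N : ℕ in atTop, C * ((N : ℝ) + 1) ^ k * θ ^ N ≤ θ' ^ N := by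
  have h1 : 0 < θ' := h0.trans h
  have hq : |θ / θ'| < 1 := by
    rw [abs_of_pos (div_pos h0 h1), div_lt_one h1]; exact h
  have h2 := (tendsto_pow_const_mul_const_pow_of_abs_lt_one k hq).const_mul (|C| * 2 ^ k)
  rw [mul_zero] at h2
  filter_upwards [h2.eventually (gt_mem_nhds one_pos), eventually_ge_atTop 1] with N hN hN1
  have hN1' : (1 : ℝ) ≤ N := by exact_mod_cast hN1
  have h3 : ((N : ℝ) + 1) ^ k ≤ 2 ^ k * (N : ℝ) ^ k := by
    rw [← mul_pow]; exact pow_le_pow_left₀ (by linarith only [hN1']) (by linarith only [hN1']) k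
  have h4 : θ ^ N = (θ / θ') ^ N * θ' ^ N := by
    rw [← mul_pow, div_mul_cancel₀ _ h1.ne']
  have h5 : 0 ≤ (θ / θ') ^ N := (pow_pos (div_pos h0 h1) N).le
  have h6 : 0 < θ' ^ N := pow_pos h1 N
  have h7 : C * ((N : ℝ) + 1) ^ k ≤ |C| * (2 ^ k * (N : ℝ) ^ k) :=
    (mul_le_mul_of_nonneg_right (le_abs_self C) (by positivity)).trans
      (mul_le_mul_of_nonneg_left h3 (abs_nonneg C))
  calc C * ((N : ℝ) + 1) ^ k * θ ^ N
      ≤ |C| * (2 ^ k * (N : ℝ) ^ k) * θ ^ N :=
        mul_le_mul_of_nonneg_right h7 (pow_pos h0 N).le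
    _ = (|C| * 2 ^ k * ((N : ℝ) ^ k * (θ / θ') ^ N)) * θ' ^ N := by rw [h4]; ring
    _ ≤ 1 * θ' ^ N := mul_le_mul_of_nonneg_right hN.le h6.le
    _ = θ' ^ N := one_mul _

/-! ### Height functions -/

abbrev Ht : Type := ℕ → ℕ → ℕ

def Lip (h : Ht) : Prop :=
  ∀ i j, h i j ≤ h i (j + 1) ∧ h i (j + 1) ≤ h i j + 1 ∧ h (i + 1) j ≤ h i j ∧
    h i j ≤ h (i + 1) j + 1

/-- `k = 0`: heights of domain wall configurations; `k = 1`: the same with the outer path
removed. -/
def Cls (N k : ℕ) (h : Ht) : Prop :=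
  Lip h ∧ (∀ i, h i k = 0) ∧ ∀ i j, N ≤ j → h i j = N - k - i

theorem Lip.mono_right {h : Ht} (H : Lip h) (i : ℕ) : Monotone (h i) :=
  monotone_nat_of_le_succ fun j => (H i j).1

theorem Lip.anti_left {h : Ht} (H : Lip h) (j : ℕ) : Antitone fun i => h i j :=
  antitone_nat_of_succ_le fun i => (H i j).2.2.1

theorem Cls.le {N k : ℕ} {h : Ht} (H : Cls N k h) (i j : ℕ) : h i j ≤ N - k - i := by
  rw [← H.2.2 i (max j N) (le_max_right _ _)]
  exact H.1.mono_right i (le_max_left _ _)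

theorem cls_finite (N k : ℕ) : {h : Ht | Cls N k h}.Finite := by
  classical
  refine (Set.finite_range (fun (f : Fin N → Fin N → Fin (N + 1)) => (fun i j =>
    if H : i < N ∧ j < N then (f ⟨i, H.1⟩ ⟨j, H.2⟩ : ℕ) else
      if N ≤ j then N - k - i else 0 : Ht))).subset ?_
  intro h H
  have H' : Cls N k h := H
  refine ⟨fun i j => ⟨h i j, by have := H'.le i j; omega⟩, ?_⟩
  funext i j
  dsimp only
  split_ifs with h1 h2
  · rfl
  · exact (H'.2.2 i j h2).symm
  · have := H'.le i j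
    omega

noncomputable def hts (N k : ℕ) : Finset Ht := (cls_finite N k).toFinset

theorem mem_hts {N k : ℕ} {h : Ht} : h ∈ hts N k ↔ Cls N k h := by simp [hts]

/-- Vertex weight (divided by `a`) from the heights of the four adjacent faces: `1` for
`w₁, w₂`, `t` for `w₃, w₄`, `γ` for `w₅, w₆`. -/
noncomputable def lv (t γ : ℝ) (sw se nw ne : ℕ) : ℝ :=
  γ * γ⁻¹ ^ ((nw : ℤ) - se - 1).natAbs * (t / γ) ^ ((sw : ℤ) - ne).natAbs

noncomputable def Wt (N : ℕ) (t γ : ℝ) (h : Ht) : ℝ :=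
  ∏ i ∈ range N, ∏ j ∈ range N, lv t γ (h i j) (h (i + 1) j) (h i (j + 1)) (h (i + 1) (j + 1))

/-- Position of the outer path at level `j`. -/
def cnt (N : ℕ) (h : Ht) (j : ℕ) : ℕ := ((range N).filter (fun i => 1 ≤ h i j)).card

/-- Heights with the outer path removed. -/
def low (h : Ht) : Ht := fun i j => h i j - 1

/-- Unnormalised tilted measure. -/
noncomputable def mu (N : ℕ) (t γ z : ℝ) (φ : Ht → ℝ) : ℝ :=
  ∑ h ∈ hts N 0, Wt N t γ h * z ^ (cnt N h 1 - 1) * φ h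

/-- `r_N(z)` as a tilted mean. -/
noncomputable def rM (N : ℕ) (t γ z : ℝ) : ℝ :=
  mu N t γ z (fun h => ((cnt N h 1 - 1 : ℕ) : ℝ)) / (N * mu N t γ z (fun _ => 1))

/-- Probability of an event of the outer path. -/
noncomputable def PP (N : ℕ) (t γ : ℝ) (A : (ℕ → ℕ) → Prop) : ℝ :=
  mu N t γ 1 (fun h => ind (A (cnt N h))) / mu N t γ 1 (fun _ => 1)

/-! ### The outer path -/

def IsPath (N : ℕ) (X : ℕ → ℕ) : Prop := X 0 = 0 ∧ Monotone X ∧ ∀ j, N ≤ j → X j = N

theorem IsPath.le {N : ℕ} {X : ℕ → ℕ} (H : IsPath N X) (j : ℕ) : X j ≤ N := by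
  rw [← H.2.2 (max j N) (le_max_right _ _)]
  exact H.2.1 (le_max_left _ _)

theorem path_finite (N : ℕ) : {X : ℕ → ℕ | IsPath N X}.Finite := by
  classical
  refine (Set.finite_range (fun (f : Fin N → Fin (N + 1)) => (fun j =>
    if H : j < N then (f ⟨j, H⟩ : ℕ) else N : ℕ → ℕ))).subset ?_
  intro X H
  have H' : IsPath N X := H
  refine ⟨fun j => ⟨X j, by have := H'.le j; omega⟩, ?_⟩
  funext j
  dsimp only
  split_ifs with h1
  · rfl
  · exact (H'.2.2 j (by omega)).symm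

noncomputable def paths (N : ℕ) : Finset (ℕ → ℕ) := (path_finite N).toFinset

theorem mem_paths {N : ℕ} {X : ℕ → ℕ} : X ∈ paths N ↔ IsPath N X := by simp [paths]

/-- Free weight of a row in which the path moves `d` steps east. -/
noncomputable def kk (t γ : ℝ) (d : ℕ) : ℝ := if d = 0 then t else γ ^ 2 * t ^ (d - 1)

/-- Weight of the first row (turning north at column `u`), with tilt `w`. -/
noncomputable def k0 (t γ w : ℝ) (u : ℕ) : ℝ := if u = 0 then 0 else γ * (w * t) ^ (u - 1)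

noncomputable def pw (N : ℕ) (t γ w : ℝ) (X : ℕ → ℕ) : ℝ :=
  k0 t γ w (X 1) * ∏ j ∈ Ico 1 N, kk t γ (X (j + 1) - X j)

noncomputable def pS (N : ℕ) (t γ w : ℝ) (φ : (ℕ → ℕ) → ℝ) : ℝ :=
  ∑ X ∈ paths N, pw N t γ w X * φ X

noncomputable def psiW (N : ℕ) (ψ : ℕ → ℕ → ℝ) (X : ℕ → ℕ) : ℝ := ∏ j ∈ Icc 1 N, ψ j (X j)

/-- An increasing potential with values in `[0, 1]`. -/
def Psi (ψ : ℕ → ℕ → ℝ) : Prop := (∀ j u, 0 ≤ ψ j u ∧ ψ j u ≤ 1) ∧ ∀ j, Monotone (ψ j)

/-- The potential created by the second path `Y`. -/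
noncomputable def psi (γ : ℝ) (Y : ℕ → ℕ) (j u : ℕ) : ℝ :=
  if Y j < u then (if Y (j + 1) < u then 1 else if Y (j + 1) = u then γ⁻¹ ^ 2 else 0) else 0

/-- Free weight of `n` rows with total displacement `d`. -/
noncomputable def Wn (t γ : ℝ) : ℕ → ℕ → ℝ
  | 0, d => if d = 0 then 1 else 0
  | n + 1, d => ∑ e ∈ range (d + 1), Wn t γ n e * kk t γ (d - e)

/-- Free weight of reaching `p` at level `j ≥ 1`, with tilt `w`. -/
noncomputable def Vn (t γ w : ℝ) (j p : ℕ) : ℝ :=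
  ∑ u ∈ range (p + 1), k0 t γ w u * Wn t γ (j - 1) (p - u)

noncomputable def rho (t γ z : ℝ) : ℝ := t + γ ^ 2 / (t * (z - 1))

noncomputable def lamW (t γ z : ℝ) : ℝ := z * γ ^ 2 / ((z - 1) * (t ^ 2 * (z - 1) + γ ^ 2))

theorem kk_pos {t γ : ℝ} (ht : 0 < t) (hγ : 0 < γ) (d : ℕ) : 0 < kk t γ d := by
  unfold kk; split_ifs <;> positivity

theorem k0_nonneg {t γ w : ℝ} (ht : 0 < t) (hγ : 0 < γ) (hw : 0 < w) (u : ℕ) :
    0 ≤ k0 t γ w u := by
  unfold k0; split_ifs <;> positivity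

theorem pw_nonneg {t γ w : ℝ} (ht : 0 < t) (hγ : 0 < γ) (hw : 0 < w) (N : ℕ) (X : ℕ → ℕ) :
    0 ≤ pw N t γ w X :=
  mul_nonneg (k0_nonneg ht hγ hw _) (prod_nonneg fun _ _ => (kk_pos ht hγ _).le)

theorem Wn_nonneg {t γ : ℝ} (ht : 0 < t) (hγ : 0 < γ) (n : ℕ) : ∀ d, 0 ≤ Wn t γ n d := by
  induction n with
  | zero => intro d; unfold Wn; split_ifs <;> norm_num
  | succ n ih =>
    intro d; unfold Wn
    exact sum_nonneg fun e _ => mul_nonneg (ih e) (kk_pos ht hγ _).le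

theorem Vn_nonneg {t γ w : ℝ} (ht : 0 < t) (hγ : 0 < γ) (hw : 0 < w) (j p : ℕ) :
    0 ≤ Vn t γ w j p :=
  sum_nonneg fun _ _ => mul_nonneg (k0_nonneg ht hγ hw _) (Wn_nonneg ht hγ _ _)

theorem psiW_nonneg {ψ : ℕ → ℕ → ℝ} (H : Psi ψ) (N : ℕ) (X : ℕ → ℕ) : 0 ≤ psiW N ψ X :=
  prod_nonneg fun _ _ => (H.1 _ _).1

theorem psiW_le_one {ψ : ℕ → ℕ → ℝ} (H : Psi ψ) (N : ℕ) (X : ℕ → ℕ) : psiW N ψ X ≤ 1 :=
  prod_le_one (fun _ _ => (H.1 _ _).1) fun _ _ => (H.1 _ _).2

theorem psiW_mono {ψ : ℕ → ℕ → ℝ} (H : Psi ψ) (N : ℕ) {X X' : ℕ → ℕ} (h : X ≤ X') :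
    psiW N ψ X ≤ psiW N ψ X' :=
  prod_le_prod (fun _ _ => (H.1 _ _).1) fun j _ => H.2 j (h j)

/-- Monotonicity of `pS`; the comparison is only needed on paths with `1 ≤ X 1`. -/
theorem pS_mono {t γ w : ℝ} (ht : 0 < t) (hγ : 0 < γ) (hw : 0 < w) {N : ℕ}
    {φ φ' : (ℕ → ℕ) → ℝ} (h : ∀ X, IsPath N X → 1 ≤ X 1 → φ X ≤ φ' X) :
    pS N t γ w φ ≤ pS N t γ w φ' := by
  refine sum_le_sum fun X hX => ?_
  rcases Nat.eq_zero_or_pos (X 1) with h0 | h0
  · simp [pw, k0, h0]
  · exact mul_le_mul_of_nonneg_left (h X (mem_paths.1 hX) h0) (pw_nonneg ht hγ hw N X)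

theorem pS_nonneg {t γ w : ℝ} (ht : 0 < t) (hγ : 0 < γ) (hw : 0 < w) {N : ℕ}
    {φ : (ℕ → ℕ) → ℝ} (h : ∀ X, 0 ≤ φ X) : 0 ≤ pS N t γ w φ :=
  sum_nonneg fun X _ => mul_nonneg (pw_nonneg ht hγ hw N X) (h X)

theorem pS_zero (N : ℕ) (t γ w : ℝ) : pS N t γ w (fun _ => 0) = 0 := by simp [pS]

theorem pS_add (N : ℕ) (t γ w : ℝ) (φ φ' : (ℕ → ℕ) → ℝ) :
    pS N t γ w (fun X => φ X + φ' X) = pS N t γ w φ + pS N t γ w φ' := by
  simp [pS, mul_add, sum_add_distrib]

theorem pS_smul (N : ℕ) (t γ w c : ℝ) (φ : (ℕ → ℕ) → ℝ) :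
    pS N t γ w (fun X => c * φ X) = c * pS N t γ w φ := by
  simp only [pS, mul_sum]; exact sum_congr rfl fun X _ => by ring

theorem pS_sum {ι : Type*} (s : Finset ι) (N : ℕ) (t γ w : ℝ) (φ : ι → (ℕ → ℕ) → ℝ) :
    pS N t γ w (fun X => ∑ i ∈ s, φ i X) = ∑ i ∈ s, pS N t γ w (φ i) := by
  simp only [pS, mul_sum]; exact sum_comm

theorem lv_pos {t γ : ℝ} (ht : 0 < t) (hγ : 0 < γ) (sw se nw ne : ℕ) :
    0 < lv t γ sw se nw ne := by
  unfold lv; positivity

theorem Wt_pos {t γ : ℝ} (ht : 0 < t) (hγ : 0 < γ) (N : ℕ) (h : Ht) : 0 < Wt N t γ h :=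
  prod_pos fun _ _ => prod_pos fun _ _ => lv_pos ht hγ _ _ _ _

theorem mu_mono {t γ z : ℝ} (ht : 0 < t) (hγ : 0 < γ) (hz : 0 < z) {N : ℕ} {φ φ' : Ht → ℝ}
    (h : ∀ h, Cls N 0 h → φ h ≤ φ' h) : mu N t γ z φ ≤ mu N t γ z φ' :=
  sum_le_sum fun g hg => mul_le_mul_of_nonneg_left (h g (mem_hts.1 hg))
    (mul_pos (Wt_pos ht hγ N g) (pow_pos hz _)).le

theorem mu_nonneg {t γ z : ℝ} (ht : 0 < t) (hγ : 0 < γ) (hz : 0 < z) {N : ℕ} {φ : Ht → ℝ}
    (h : ∀ h, 0 ≤ φ h) : 0 ≤ mu N t γ z φ :=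
  sum_nonneg fun g _ => mul_nonneg (mul_pos (Wt_pos ht hγ N g) (pow_pos hz _)).le (h g)

theorem mu_add (N : ℕ) (t γ z : ℝ) (φ φ' : Ht → ℝ) :
    mu N t γ z (fun h => φ h + φ' h) = mu N t γ z φ + mu N t γ z φ' := by
  simp [mu, mul_add, sum_add_distrib]

theorem mu_sub (N : ℕ) (t γ z : ℝ) (φ φ' : Ht → ℝ) :
    mu N t γ z (fun h => φ h - φ' h) = mu N t γ z φ - mu N t γ z φ' := by
  simp [mu, mul_sub, sum_sub_distrib]

theorem mu_smul (N : ℕ) (t γ z c : ℝ) (φ : Ht → ℝ) :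
    mu N t γ z (fun h => c * φ h) = c * mu N t γ z φ := by
  simp only [mu, mul_sum]; exact sum_congr rfl fun X _ => by ring

theorem mu_sum {ι : Type*} (s : Finset ι) (N : ℕ) (t γ z : ℝ) (φ : ι → Ht → ℝ) :
    mu N t γ z (fun h => ∑ i ∈ s, φ i h) = ∑ i ∈ s, mu N t γ z (φ i) := by
  simp only [mu, mul_sum]; exact sum_comm

theorem cls_min (N : ℕ) : Cls N 0 (fun i j => min j (N - i)) := by
  refine ⟨fun i j => ?_, fun i => by simp, fun i j hj => ?_⟩
  · dsimp only; omega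
  · dsimp only; omega

theorem mu_pos {t γ z : ℝ} (ht : 0 < t) (hγ : 0 < γ) (hz : 0 < z) (N : ℕ) :
    0 < mu N t γ z (fun _ => 1) :=
  sum_pos (fun g _ => by have := Wt_pos ht hγ N g; positivity) ⟨_, mem_hts.2 (cls_min N)⟩

end Pool.Agent.Work.MP_413ea6_mp
end

-- merged part: Pool.Agent.Work.MP_413ea6_mp.GeoC
section
open Filter Topology Finset

namespace Pool.Agent.Work.MP_413ea6_mp

/-! Plane geometry of the envelope: no probability here. -/

theorem GeoC_split {l r : ℝ → ℝ}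
    (lpos : ∀ z, 1 < z → 0 < l z) (lanti : StrictAntiOn l (Set.Ioi 1))
    (lder : ∀ z, 1 < z → ∃ d : ℝ, d < 0 ∧ HasDerivAt l d z)
    (lsurj : ∀ s, 0 < s → ∃ z, 1 < z ∧ l z = s)
    (rdiff : ∀ z, 1 < z → DifferentiableAt ℝ r z) (r0 : ∀ z, 1 < z → 0 ≤ r z)
    (r1 : ∀ z, 1 < z → 1 - l z ≤ r z) {x y : ℝ} (x0 : 0 < x) (x1 : x < 1) (y0 : 0 < y)
    (h : ∀ z, 1 < z → x - l z * y - r z ≤ 0) :
    (∃ δ, 0 < δ ∧ ∀ z, 1 < z → x + δ - l z * (y - δ) - r z ≤ 0) ∨
      ∃ z, 1 < z ∧ x - l z * y - r z = 0 := by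
  obtain ⟨z1, h1, s1⟩ := lsurj (2 * (x + y) / y) (by positivity)
  obtain ⟨z2, h2, s2⟩ := lsurj ((1 - x) / 3) (by linarith only [x1])
  have ha : 1 < min z1 z2 := lt_min h1 h2
  have cont : ContinuousOn (fun z => x - l z * y - r z) (Set.Icc (min z1 z2) (max z1 z2)) :=
    fun z hz => by
      obtain ⟨d, -, hd⟩ := lder z (ha.trans_le hz.1)
      exact ((continuousAt_const.sub (hd.continuousAt.mul continuousAt_const)).sub
        (rdiff z (ha.trans_le hz.1)).continuousAt).continuousWithinAt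
  obtain ⟨z, hz, hm⟩ := isCompact_Icc.exists_isMaxOn (Set.nonempty_Icc.2 min_le_max) cont
  have hz1 := ha.trans_le hz.1
  rcases (h z hz1).eq_or_lt with c | c
  · exact Or.inr ⟨z, hz1, c⟩
  have la := lpos _ ha
  obtain ⟨δ, d0, d1, d2, d3⟩ : ∃ δ, 0 < δ ∧ δ ≤ y / 2 ∧ δ ≤ (1 - x) / 3 ∧
      δ * (1 + l (min z1 z2)) ≤ -(x - l z * y - r z) := by
    refine ⟨min (min (y / 2) ((1 - x) / 3)) (-(x - l z * y - r z) / (1 + l (min z1 z2))),
      lt_min (lt_min (by linarith only [y0]) (by linarith only [x1])) (div_pos (by linarith) (by linarith)),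
      (min_le_left _ _).trans (min_le_left _ _), (min_le_left _ _).trans (min_le_right _ _), ?_⟩
    exact (le_div_iff₀ (by linarith only [x0, x1, la])).1 (min_le_right _ _)
  refine Or.inl ⟨δ, d0, fun w hw => ?_⟩
  have lw := lpos w hw
  by_cases a : w ≤ z1
  · have b : 2 * (x + y) / y ≤ l w := s1 ▸ lanti.antitoneOn hw h1 a
    rw [div_le_iff₀ y0] at b
    linarith only [d0, d1, b, r0, hw, lw, r0 w hw, mul_le_mul_of_nonneg_left d1 lw.le]
  by_cases b : z2 ≤ w
  · have b : l w ≤ (1 - x) / 3 := s2 ▸ lanti.antitoneOn h2 hw b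
    linarith only [d2, b, r1, hw, lw, y0, x0, d0, r1 w hw, mul_pos lw y0, mul_le_mul_of_nonneg_left (d2.trans (by linarith) : δ ≤ 1) lw.le]
  have w1 : min z1 z2 ≤ w := (min_le_left _ _).trans (not_le.1 a).le
  have m : x - l w * y - r w ≤ x - l z * y - r z :=
    hm ⟨w1, (not_le.1 b).le.trans (le_max_right _ _)⟩
  linarith only [d3, m, lanti, ha, hw, w1, d0, mul_le_mul_of_nonneg_left (lanti.antitoneOn ha hw w1) d0.le]

theorem envelope {l r : ℝ → ℝ} {e : ℝ × ℝ → ℕ → ℝ}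
    (lpos : ∀ z, 1 < z → 0 < l z) (lanti : StrictAntiOn l (Set.Ioi 1))
    (lder : ∀ z, 1 < z → ∃ d : ℝ, d < 0 ∧ HasDerivAt l d z)
    (lsurj : ∀ s, 0 < s → ∃ z, 1 < z ∧ l z = s)
    (rdiff : ∀ z, 1 < z → DifferentiableAt ℝ r z) (r0 : ∀ z, 1 < z → 0 ≤ r z)
    (r1 : ∀ z, 1 < z → 1 - l z ≤ r z)
    (pt : ∀ z, 1 < z → ∃ x ∈ Set.Icc (0 : ℝ) 1, ∃ y ∈ Set.Icc (0 : ℝ) 1,
      x - l z * y - r z = 0 ∧ ∀ w, 1 < w → x - l w * y - r w ≤ 0)
    (e1 : ∀ (p : ℝ × ℝ) (z : ℝ), 1 < z → 0 < p.1 - l z * p.2 - r z →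
      Tendsto (e p) atTop (𝓝 1))
    (e0 : ∀ (p : ℝ × ℝ) (δ : ℝ), p.1 ∈ Set.Icc (0 : ℝ) 1 → p.2 ∈ Set.Icc (0 : ℝ) 1 → 0 < δ →
      (∀ z, 1 < z → p.1 + δ - l z * (p.2 - δ) - r z ≤ 0) → Tendsto (e p) atTop (𝓝 0))
    (C : Set (ℝ × ℝ)) (hC : C = {p | ∃ z : ℝ, 1 < z ∧ p.1 - l z * p.2 - r z = 0 ∧
      HasDerivAt (fun w => p.1 - l w * p.2 - r w) 0 z}) :
    frontier {p | Tendsto (e p) atTop (𝓝 1)} ∩ Set.Ioo 0 1 ×ˢ Set.Ioo 0 1 =
        C ∩ Set.Ioo 0 1 ×ˢ Set.Ioo 0 1 ∧
      C ⊆ Set.Icc 0 1 ×ˢ Set.Icc 0 1 ∧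
      ∀ p ∈ (Set.Ioo 0 1 ×ˢ Set.Ioo 0 1 : Set (ℝ × ℝ)) \ C,
        Tendsto (e p) atTop (𝓝 1) ∨ Tendsto (e p) atTop (𝓝 0) := by
  have k1 : ∀ p ∈ C, p ∈ Set.Icc (0 : ℝ) 1 ×ˢ Set.Icc (0 : ℝ) 1 ∧
      ∀ w, 1 < w → p.1 - l w * p.2 - r w ≤ 0 := by
    rintro ⟨x, y⟩ hp
    rw [hC] at hp
    obtain ⟨z, hz, h0, hd⟩ := hp
    obtain ⟨a, ha, b, hb, g0, g⟩ := pt z hz
    obtain ⟨d, d0, ld⟩ := lder z hz
    have rd := (rdiff z hz).hasDerivAt
    have m : IsLocalMax (fun w => a - l w * b - r w) z := by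
      filter_upwards [Ioi_mem_nhds hz] with w hw
      exact g0 ▸ g w hw
    have u1 := m.hasDerivAt_eq_zero (((ld.mul_const b).const_sub a).sub rd)
    have u2 := hd.unique (((ld.mul_const y).const_sub x).sub rd)
    have e2 : y = b := mul_left_cancel₀ d0.ne (by linarith only [u1, u2])
    have e3 : x = a := by
      simp only [e2] at h0
      linarith
    subst e2 e3
    exact ⟨⟨ha, hb⟩, g⟩
  have k2 : ∀ p ∈ (Set.Ioo 0 1 ×ˢ Set.Ioo 0 1 : Set (ℝ × ℝ)), p ∉ C →
      (∃ z, 1 < z ∧ 0 < p.1 - l z * p.2 - r z) ∨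
        ∃ δ, 0 < δ ∧ ∀ z, 1 < z → p.1 + δ - l z * (p.2 - δ) - r z ≤ 0 := fun p hp hn => by
    by_cases a : ∃ z, 1 < z ∧ 0 < p.1 - l z * p.2 - r z
    · exact Or.inl a
    push Not at a
    refine Or.inr ((GeoC_split lpos lanti lder lsurj rdiff r0 r1 hp.1.1 hp.1.2 hp.2.1
      a).resolve_right ?_)
    rintro ⟨z, hz, h0⟩
    obtain ⟨d, -, ld⟩ := lder z hz
    have hd := ((ld.mul_const p.2).const_sub p.1).sub (rdiff z hz).hasDerivAt
    have m : IsLocalMax (fun w => p.1 - l w * p.2 - r w) z := by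
      filter_upwards [Ioi_mem_nhds hz] with w hw
      exact h0 ▸ a w hw
    exact hn (hC ▸ ⟨z, hz, h0, m.hasDerivAt_eq_zero hd ▸ hd⟩)
  have k3 : ∀ (p : ℝ × ℝ) (δ : ℝ), p ∈ (Set.Ioo 0 1 ×ˢ Set.Ioo 0 1 : Set (ℝ × ℝ)) → 0 < δ →
      (∀ z, 1 < z → p.1 + δ - l z * (p.2 - δ) - r z ≤ 0) → ¬ Tendsto (e p) atTop (𝓝 1) :=
    fun p δ hp d0 h c => zero_ne_one (tendsto_nhds_unique
      (e0 p δ (Set.Ioo_subset_Icc_self hp.1) (Set.Ioo_subset_Icc_self hp.2) d0 h) c)
  have oq : IsOpen (Set.Ioo 0 1 ×ˢ Set.Ioo 0 1 : Set (ℝ × ℝ)) := isOpen_Ioo.prod isOpen_Ioo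
  refine ⟨Set.ext fun p => and_congr_left fun hp => ⟨fun hf => by_contra fun hn => ?_,
    fun hc => ?_⟩, fun p hp => (k1 p hp).1, fun p hp => ?_⟩
  · rcases k2 p hp hn with ⟨z, hz, h0⟩ | ⟨δ, d0, h⟩
    · refine hf.2 (mem_interior_iff_mem_nhds.2 ?_)
      have : IsOpen {q : ℝ × ℝ | 0 < q.1 - l z * q.2 - r z} :=
        isOpen_lt continuous_const (by fun_prop)
      filter_upwards [this.mem_nhds h0] with q hq
      exact e1 q z hz hq
    · have o2 : IsOpen {q : ℝ × ℝ | q.1 < p.1 + δ / 2 ∧ p.2 - δ / 2 < q.2} :=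
        (isOpen_lt continuous_fst continuous_const).inter
          (isOpen_lt continuous_const continuous_snd)
      obtain ⟨q, ⟨q1, q2, q3⟩, q4⟩ := mem_closure_iff.1 hf.1 _ (oq.inter o2)
        ⟨hp, by linarith only [d0], by linarith⟩
      refine k3 q (δ / 2) q1 (by linarith) (fun z hz => ?_) q4
      linarith only [q2, h, hz, lpos, q3, h z hz, mul_pos (lpos z hz) (sub_pos.2 q3)]
  · have g := (k1 p hc).2
    rw [hC] at hc
    obtain ⟨z, hz, h0, -⟩ := hc
    have t : ∀ c : ℝ, Tendsto (fun d : ℝ => ((p.1 + c * d, p.2 - c * d) : ℝ × ℝ)) (𝓝[>] 0)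
        (𝓝 p) := fun c => by
      have : Continuous fun d : ℝ => ((p.1 + c * d, p.2 - c * d) : ℝ × ℝ) := by fun_prop
      simpa using (this.tendsto 0).mono_left (nhdsWithin_le_nhds (s := Set.Ioi 0))
    rw [frontier_eq_closure_inter_closure]
    refine ⟨mem_closure_of_tendsto (t 1) ?_, mem_closure_of_tendsto (t (-1)) ?_⟩
    · filter_upwards [self_mem_nhdsWithin] with d hd
      refine e1 _ z hz ?_
      have := mul_pos (lpos z hz) (show 0 < d from hd)
      have : 0 < d := hd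
      dsimp only
      linarith
    · filter_upwards [self_mem_nhdsWithin, (t (-1)).eventually (oq.mem_nhds hp)] with d hd hq
      refine k3 _ d hq hd fun w hw => ?_
      have := g w hw
      dsimp only
      linarith
  · rcases k2 p hp.1 hp.2 with ⟨z, hz, h0⟩ | ⟨δ, d0, h⟩
    · exact Or.inl (e1 p z hz h0)
    · exact Or.inr (e0 p δ (Set.Ioo_subset_Icc_self hp.1.1) (Set.Ioo_subset_Icc_self hp.1.2) d0 h)

end Pool.Agent.Work.MP_413ea6_mp
end

-- merged part: Pool.Agent.Work.MP_413ea6_mp.Hts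
section
open Filter Topology Finset

namespace Pool.Agent.Work.MP_413ea6_mp

/-! Height functions: the outer path, the lattice structure and the first comparison. -/

theorem lt_cnt_iff {N k : ℕ} {h : Ht} (H : Cls N k h) (i j : ℕ) :
    i < cnt N h j ↔ 1 ≤ h i j := by
  constructor
  · intro hi
    by_contra h0
    have h1 : (range N).filter (fun i => 1 ≤ h i j) ⊆ range i := fun a ha => by
      refine mem_range.2 (not_le.1 fun hia => h0 ?_)
      exact (mem_filter.1 ha).2.trans (H.1.anti_left j hia)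
    have h2 := card_le_card h1
    rw [card_range] at h2
    exact absurd hi (not_lt.2 h2)
  · intro hi
    have h1 : range (i + 1) ⊆ (range N).filter (fun i => 1 ≤ h i j) := fun a ha => by
      have h2 : a ≤ i := Nat.lt_succ_iff.1 (mem_range.1 ha)
      have h3 := H.le i j
      exact mem_filter.2 ⟨mem_range.2 (by omega), hi.trans (H.1.anti_left j h2)⟩
    have h2 := card_le_card h1
    rw [card_range] at h2
    exact h2

theorem cnt_mono (N : ℕ) {h h' : Ht} (H : h ≤ h') : cnt N h ≤ cnt N h' := by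
  intro j
  exact card_le_card fun a ha =>
    mem_filter.2 ⟨(mem_filter.1 ha).1, (mem_filter.1 ha).2.trans (H a j)⟩

theorem cnt_monotone {N k : ℕ} {h : Ht} (H : Cls N k h) : Monotone (cnt N h) := by
  intro j j' hj
  exact card_le_card fun a ha =>
    mem_filter.2 ⟨(mem_filter.1 ha).1, (mem_filter.1 ha).2.trans (H.1.mono_right a hj)⟩

theorem cnt_zero {N k : ℕ} {h : Ht} (H : Cls N k h) : cnt N h 0 = 0 := by
  by_contra h0
  have h1 := (lt_cnt_iff H 0 0).1 (Nat.pos_of_ne_zero h0)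
  have h2 := H.1.mono_right 0 (Nat.zero_le k)
  have h3 := H.2.1 0
  omega

theorem cnt_top {N k : ℕ} {h : Ht} (H : Cls N k h) {j : ℕ} (hj : N ≤ j) :
    cnt N h j = N - k := by
  refine eq_of_forall_lt_iff fun i => ?_
  rw [lt_cnt_iff H, H.2.2 i j hj]
  omega

theorem cnt_isPath {N : ℕ} {h : Ht} (H : Cls N 0 h) : IsPath N (cnt N h) := by
  exact ⟨cnt_zero H, cnt_monotone H, fun j hj => cnt_top H hj⟩

theorem Hts_right {h : Ht} (H : Lip h) (i j d : ℕ) : h i (j + d) ≤ h i j + d := by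
  induction d with
  | zero => exact le_rfl
  | succ d ih =>
    have := (H i (j + d)).2.1
    rw [← add_assoc]
    omega

theorem Hts_left {h : Ht} (H : Lip h) (i j : ℕ) : h 0 j ≤ h i j + i := by
  induction i with
  | zero => exact le_rfl
  | succ i ih =>
    have := (H i j).2.2.2
    omega

theorem Cls.left {N : ℕ} {h : Ht} (H : Cls N 0 h) {j : ℕ} (hj : j ≤ N) : h 0 j = j := by
  have h1 := Hts_right H.1 0 0 j
  have h2 := Hts_right H.1 0 j (N - j)
  have h3 := H.2.2 0 N le_rfl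
  have h4 := H.2.1 0
  rw [zero_add] at h1
  rw [Nat.add_sub_cancel' hj] at h2
  omega

theorem le_cnt {N : ℕ} {h : Ht} (H : Cls N 0 h) {j : ℕ} (hj : j ≤ N) : j ≤ cnt N h j := by
  rcases j with _ | j
  · exact Nat.zero_le _
  · refine (lt_cnt_iff H j (j + 1)).2 ?_
    have h1 := Hts_left H.1 j (j + 1)
    have h2 := H.left hj
    omega

theorem low_cls {N : ℕ} {h : Ht} (H : Cls N 0 h) : Cls N 1 (low h) := by
  refine ⟨fun i j => ?_, fun i => ?_, fun i j hj => ?_⟩
  · have := H.1 i j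
    simp only [low]
    omega
  · have h1 := (H.1 i 0).2.1
    have h2 := H.2.1 i
    rw [zero_add] at h1
    simp only [low]
    omega
  · have := H.2.2 i j hj
    simp only [low]
    omega

theorem Lip.inf {h h' : Ht} (H : Lip h) (H' : Lip h') : Lip (h ⊓ h') := by
  intro i j
  have h1 := H i j
  have h2 := H' i j
  simp only [Pi.inf_apply]
  omega

theorem Lip.sup {h h' : Ht} (H : Lip h) (H' : Lip h') : Lip (h ⊔ h') := by
  intro i j
  have h1 := H i j
  have h2 := H' i j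
  simp only [Pi.sup_apply]
  omega

theorem Hts_lv {t γ : ℝ} (ht : 0 < t) (htγ : t ≤ γ) (hγ : 1 ≤ γ) (a b c d a' b' c' d' : ℕ) :
    lv t γ a b c d * lv t γ a' b' c' d' ≤
      lv t γ (min a a') (min b b') (min c c') (min d d') *
        lv t γ (max a a') (max b b') (max c c') (max d d') := by
  have h0 : 0 < γ := ht.trans_le htγ
  have e : ∀ m n m' n' : ℕ, γ * γ⁻¹ ^ m * (t / γ) ^ n * (γ * γ⁻¹ ^ m' * (t / γ) ^ n') =
      γ * γ * (γ⁻¹ ^ (m + m') * (t / γ) ^ (n + n')) := fun m n m' n' => by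
    rw [pow_add, pow_add]
    ring
  unfold lv
  rw [e, e]
  refine mul_le_mul_of_nonneg_left (mul_le_mul ?_ ?_ (by positivity) (by positivity))
    (by positivity)
  · exact pow_le_pow_of_le_one (by positivity) (inv_le_one_of_one_le₀ hγ) (by omega)
  · exact pow_le_pow_of_le_one (by positivity) ((div_le_one h0).2 htγ) (by omega)

theorem Wt_super {t γ : ℝ} (ht : 0 < t) (htγ : t ≤ γ) (hγ : 1 ≤ γ) (N : ℕ) (h h' : Ht) :
    Wt N t γ h * Wt N t γ h' ≤ Wt N t γ (h ⊓ h') * Wt N t γ (h ⊔ h') := by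
  have h0 : 0 < γ := ht.trans_le htγ
  simp only [Wt, ← prod_mul_distrib]
  refine prod_le_prod (fun i _ => prod_nonneg fun j _ =>
    (mul_pos (lv_pos ht h0 _ _ _ _) (lv_pos ht h0 _ _ _ _)).le) fun i _ =>
    prod_le_prod (fun j _ => (mul_pos (lv_pos ht h0 _ _ _ _) (lv_pos ht h0 _ _ _ _)).le)
      fun j _ => Hts_lv ht htγ hγ _ _ _ _ _ _ _ _

theorem Hts_inf {N k : ℕ} {h h' : Ht} (H : Cls N k h) (H' : Cls N k h') : Cls N k (h ⊓ h') := by
  refine ⟨H.1.inf H'.1, fun i => ?_, fun i j hj => ?_⟩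
  · simp only [Pi.inf_apply, H.2.1 i, H'.2.1 i, min_self]
  · simp only [Pi.inf_apply, H.2.2 i j hj, H'.2.2 i j hj, min_self]

theorem Hts_sup {N k : ℕ} {h h' : Ht} (H : Cls N k h) (H' : Cls N k h') : Cls N k (h ⊔ h') := by
  refine ⟨H.1.sup H'.1, fun i => ?_, fun i j hj => ?_⟩
  · simp only [Pi.sup_apply, H.2.1 i, H'.2.1 i, max_self]
  · simp only [Pi.sup_apply, H.2.2 i j hj, H'.2.2 i j hj, max_self]

theorem fkgA {t γ z : ℝ} (ht : 0 < t) (htγ : t ≤ γ) (hγ : 1 ≤ γ) (hz : 1 ≤ z) (N : ℕ)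
    (U : Ht → Prop) (hU : ∀ h h', h ≤ h' → U h → U h') :
    mu N t γ 1 (fun h => ind (U h)) * mu N t γ z (fun _ => 1) ≤
      mu N t γ 1 (fun _ => 1) * mu N t γ z (fun h => ind (U h)) := by
  classical
  have h0 : 0 < γ := ht.trans_le htγ
  have hz0 : 0 < z := one_pos.trans_le hz
  have hW := Wt_pos ht h0 N
  have n1 : ∀ h : Ht, 0 ≤ Wt N t γ h * 1 ^ (cnt N h 1 - 1) * ind (U h) := fun h =>
    mul_nonneg (mul_pos (hW h) (pow_pos one_pos _)).le (ind_nonneg _)
  have n2 : ∀ h : Ht, 0 ≤ Wt N t γ h * z ^ (cnt N h 1 - 1) * 1 := fun h =>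
    mul_nonneg (mul_pos (hW h) (pow_pos hz0 _)).le zero_le_one
  have n3 : ∀ h : Ht, 0 ≤ Wt N t γ h * 1 ^ (cnt N h 1 - 1) * 1 := fun h =>
    mul_nonneg (mul_pos (hW h) (pow_pos one_pos _)).le zero_le_one
  have n4 : ∀ h : Ht, 0 ≤ Wt N t γ h * z ^ (cnt N h 1 - 1) * ind (U h) := fun h =>
    mul_nonneg (mul_pos (hW h) (pow_pos hz0 _)).le (ind_nonneg _)
  have key := four_functions_theorem
    (fun h : Ht => Wt N t γ h * 1 ^ (cnt N h 1 - 1) * ind (U h))
    (fun h : Ht => Wt N t γ h * z ^ (cnt N h 1 - 1) * 1)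
    (fun h : Ht => Wt N t γ h * 1 ^ (cnt N h 1 - 1) * 1)
    (fun h : Ht => Wt N t γ h * z ^ (cnt N h 1 - 1) * ind (U h)) n1 n2 n3 n4
    (fun a b => by
      have e1 := Wt_super ht htγ hγ N a b
      have e2 : z ^ (cnt N b 1 - 1) ≤ z ^ (cnt N (a ⊔ b) 1 - 1) :=
        pow_le_pow_right₀ hz (Nat.sub_le_sub_right (cnt_mono N le_sup_right 1) 1)
      have e3 : ind (U a) ≤ ind (U (a ⊔ b)) := ind_mono (hU a _ le_sup_left)
      have e4 := mul_le_mul e1 (mul_le_mul e2 e3 (ind_nonneg _) (pow_pos hz0 _).le)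
        (mul_nonneg (pow_pos hz0 _).le (ind_nonneg _)) (mul_pos (hW _) (hW _)).le
      simp only [one_pow, mul_one]
      calc _ = Wt N t γ a * Wt N t γ b * (z ^ (cnt N b 1 - 1) * ind (U a)) := by ring
        _ ≤ _ := e4
        _ = _ := by ring) (hts N 0) (hts N 0)
  refine key.trans (mul_le_mul (sum_le_sum_of_subset_of_nonneg ?_ fun h _ _ => n3 h)
    (sum_le_sum_of_subset_of_nonneg ?_ fun h _ _ => n4 h) (sum_nonneg fun h _ => n4 h)
    (sum_nonneg fun h _ => n3 h))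
  · exact infs_subset_iff.2 fun a ha b hb => mem_hts.2 (Hts_inf (mem_hts.1 ha) (mem_hts.1 hb))
  · exact sups_subset_iff.2 fun a ha b hb => mem_hts.2 (Hts_sup (mem_hts.1 ha) (mem_hts.1 hb))

end Pool.Agent.Work.MP_413ea6_mp
end

-- merged part: Pool.Agent.Work.MP_413ea6_mp.Prob
section
open Filter Topology Finset

namespace Pool.Agent.Work.MP_413ea6_mp

/-! Elementary properties of the law `PP` of the outer path. -/

theorem PP_nonneg {t γ : ℝ} (ht : 0 < t) (hγ : 0 < γ) (N : ℕ) (A : (ℕ → ℕ) → Prop) :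
    0 ≤ PP N t γ A :=
  div_nonneg (mu_nonneg ht hγ one_pos fun _ => ind_nonneg _) (mu_pos ht hγ one_pos N).le

theorem PP_le_one {t γ : ℝ} (ht : 0 < t) (hγ : 0 < γ) (N : ℕ) (A : (ℕ → ℕ) → Prop) :
    PP N t γ A ≤ 1 :=
  (div_le_one (mu_pos ht hγ one_pos N)).2 (mu_mono ht hγ one_pos fun _ _ => ind_le_one _)

theorem PP_mono {t γ : ℝ} (ht : 0 < t) (hγ : 0 < γ) {N : ℕ} {A B : (ℕ → ℕ) → Prop}
    (h : ∀ X, IsPath N X → (∀ j ≤ N, j ≤ X j) → A X → B X) : PP N t γ A ≤ PP N t γ B :=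
  div_le_div_of_nonneg_right (mu_mono ht hγ one_pos fun _ H =>
    ind_mono (h _ (cnt_isPath H) fun _ hj => le_cnt H hj)) (mu_pos ht hγ one_pos N).le

theorem PP_not {t γ : ℝ} (ht : 0 < t) (hγ : 0 < γ) (N : ℕ) (A : (ℕ → ℕ) → Prop) :
    PP N t γ (fun X => ¬ A X) = 1 - PP N t γ A := by
  have := (mu_pos ht hγ one_pos N).ne'
  simp only [PP, ind_not, mu_sub]
  field_simp

theorem PP_false {t γ : ℝ} (N : ℕ) : PP N t γ (fun _ => False) = 0 := by
  simp [PP, ind_false, mu]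

theorem PP_or_le {t γ : ℝ} (ht : 0 < t) (hγ : 0 < γ) (N : ℕ) (A B : (ℕ → ℕ) → Prop) :
    PP N t γ (fun X => A X ∨ B X) ≤ PP N t γ A + PP N t γ B := by
  unfold PP
  rw [← add_div, ← mu_add]
  exact div_le_div_of_nonneg_right (mu_mono ht hγ one_pos fun _ _ => ind_or_le _ _)
    (mu_pos ht hγ one_pos N).le

theorem PP_exists_le {t γ : ℝ} (ht : 0 < t) (hγ : 0 < γ) (N : ℕ) {ι : Type*} (s : Finset ι)
    (A : ι → (ℕ → ℕ) → Prop) :
    PP N t γ (fun X => ∃ i ∈ s, A i X) ≤ ∑ i ∈ s, PP N t γ (A i) := by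
  unfold PP
  rw [← sum_div, ← mu_sum]
  exact div_le_div_of_nonneg_right (mu_mono ht hγ one_pos fun _ _ => ind_exists_le _ _)
    (mu_pos ht hγ one_pos N).le

/-- A sequence of events of the outer path whose probability tends to `0`. -/
def Rare (t γ : ℝ) (A : ℕ → (ℕ → ℕ) → Prop) : Prop :=
  Tendsto (fun N => PP N t γ (A N)) atTop (𝓝 0)

theorem Rare.mono {t γ : ℝ} (ht : 0 < t) (hγ : 0 < γ) {A B : ℕ → (ℕ → ℕ) → Prop}
    (hB : Rare t γ B)
    (h : ∀ᶠ N in atTop, ∀ X, IsPath N X → (∀ j ≤ N, j ≤ X j) → A N X → B N X) : Rare t γ A :=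
  squeeze_zero' (Eventually.of_forall fun N => PP_nonneg ht hγ N _)
    (h.mono fun _ hN => PP_mono ht hγ hN) hB

theorem Rare.or {t γ : ℝ} (ht : 0 < t) (hγ : 0 < γ) {A B : ℕ → (ℕ → ℕ) → Prop}
    (hA : Rare t γ A) (hB : Rare t γ B) : Rare t γ (fun N X => A N X ∨ B N X) :=
  squeeze_zero (fun N => PP_nonneg ht hγ N _) (fun N => PP_or_le ht hγ N _ _)
    (by simpa using Tendsto.add hA hB)

theorem Rare.exists {t γ : ℝ} (ht : 0 < t) (hγ : 0 < γ) {ι : Type*} (s : Finset ι)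
    {A : ι → ℕ → (ℕ → ℕ) → Prop} (hA : ∀ i ∈ s, Rare t γ (A i)) :
    Rare t γ (fun N X => ∃ i ∈ s, A i N X) :=
  squeeze_zero (fun N => PP_nonneg ht hγ N _) (fun N => PP_exists_le ht hγ N s fun i => A i N)
    (by simpa using tendsto_finset_sum s hA)

theorem Rare.tendsto_not {t γ : ℝ} (ht : 0 < t) (hγ : 0 < γ) {A : ℕ → (ℕ → ℕ) → Prop}
    (hA : Rare t γ A) : Tendsto (fun N => PP N t γ (fun X => ¬ A N X)) atTop (𝓝 1) := by
  simp only [PP_not ht hγ]
  simpa using Tendsto.const_sub 1 hA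

/-- Outside a rare event there is, for large `N`, an actual path. -/
theorem Rare.exists_not {t γ : ℝ} (ht : 0 < t) (hγ : 0 < γ) {A : ℕ → (ℕ → ℕ) → Prop}
    (hA : Rare t γ A) : ∀ᶠ N in atTop, ∃ X, IsPath N X ∧ ¬ A N X := by
  filter_upwards [(hA.tendsto_not ht hγ).eventually (lt_mem_nhds one_pos)] with N hN
  by_contra hc
  have : PP N t γ (fun X => ¬ A N X) ≤ PP N t γ (fun _ => False) :=
    PP_mono ht hγ fun X hX _ hn => hc ⟨X, hX, hn⟩
  rw [PP_false] at this
  exact absurd hN (not_lt.2 this)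

end Pool.Agent.Work.MP_413ea6_mp
end

-- merged part: Pool.Agent.Work.MP_413ea6_mp.Lam
section
open Filter Topology Finset

namespace Pool.Agent.Work.MP_413ea6_mp

/-! Facts on `λ(z) = γ² · (z/(z-1)) · 1/(t²(z-1)+γ²)`. -/

theorem lam_eq {a b c : ℝ} (ha : 0 < a) (hb : 0 < b) (z : ℝ) :
    lam a b c z = lamW (b / a) (c / a) z := by
  have h : 2 * Delta a b c * (b / a) = (b / a) ^ 2 + 1 - (c / a) ^ 2 := by
    unfold Delta
    field_simp
    ring
  unfold lam lamW
  rw [h]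
  congr 1 <;> ring

theorem lamW_pos {t γ z : ℝ} (ht : 0 < t) (hγ : 0 < γ) (hz : 1 < z) : 0 < lamW t γ z := by
  have h : 0 < z - 1 := sub_pos.2 hz
  have h0 : 0 < z := by linarith
  unfold lamW
  positivity

theorem lamW_anti {t γ : ℝ} (ht : 0 < t) (hγ : 0 < γ) :
    StrictAntiOn (lamW t γ) (Set.Ioi 1) := by
  intro x hx y hy hxy
  have hu : 0 < x - 1 := sub_pos.2 hx
  have hv : 0 < y - 1 := sub_pos.2 hy
  have hd : 0 < y - x := sub_pos.2 hxy
  unfold lamW
  rw [div_lt_div_iff₀ (by positivity) (by positivity), ← sub_pos]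
  have : x * γ ^ 2 * ((y - 1) * (t ^ 2 * (y - 1) + γ ^ 2)) -
      y * γ ^ 2 * ((x - 1) * (t ^ 2 * (x - 1) + γ ^ 2)) =
      γ ^ 2 * (y - x) * (t ^ 2 * ((x - 1) * (y - 1) + (x - 1) + (y - 1)) + γ ^ 2) := by ring
  rw [this]
  positivity

theorem lamW_deriv {t γ z : ℝ} (ht : 0 < t) (hγ : 0 < γ) (hz : 1 < z) :
    ∃ d : ℝ, d < 0 ∧ HasDerivAt (lamW t γ) d z := by
  have h : 0 < z - 1 := sub_pos.2 hz
  have h0 : 0 < z + 1 := by linarith
  have hD : 0 < (z - 1) * (t ^ 2 * (z - 1) + γ ^ 2) := by positivity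
  have h1 : HasDerivAt (fun z : ℝ => z * γ ^ 2) (1 * γ ^ 2) z := (hasDerivAt_id' z).mul_const _
  have h2 : HasDerivAt (fun z : ℝ => z - 1) 1 z := (hasDerivAt_id' z).sub_const 1
  have h3 : HasDerivAt (fun z : ℝ => t ^ 2 * (z - 1) + γ ^ 2) (t ^ 2 * 1) z :=
    (h2.const_mul _).add_const _
  refine ⟨_, ?_, h1.fun_div (h2.fun_mul h3) hD.ne'⟩
  refine div_neg_of_neg_of_pos ?_ (by positivity)
  have : 0 < γ ^ 2 * (t ^ 2 * ((z - 1) * (z + 1)) + γ ^ 2) := by positivity
  linarith only [this]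

theorem lamW_surj {t γ s : ℝ} (ht : 0 < t) (hγ : 0 < γ) (hs : 0 < s) :
    ∃ z : ℝ, 1 < z ∧ lamW t γ z = s := by
  have hA : 0 < s * t ^ 2 := by positivity
  have hC : 0 < γ ^ 2 := by positivity
  obtain ⟨u, hu, e⟩ : ∃ u : ℝ, 0 < u ∧ s * t ^ 2 * u ^ 2 + (s - 1) * γ ^ 2 * u - γ ^ 2 = 0 := by
    generalize s * t ^ 2 = A at hA
    generalize (s - 1) * γ ^ 2 = B
    generalize γ ^ 2 = C at hC
    have h1 : 0 < A * C := mul_pos hA hC
    have h2 : √(B ^ 2 + 4 * (A * C)) ^ 2 = B ^ 2 + 4 * (A * C) := Real.sq_sqrt (by positivity)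
    have h3 : B < √(B ^ 2 + 4 * (A * C)) := Real.lt_sqrt_of_sq_lt (by linarith)
    generalize √(B ^ 2 + 4 * (A * C)) = r at h2 h3
    refine ⟨(r - B) / (2 * A), div_pos (sub_pos.2 h3) (by positivity), ?_⟩
    field_simp
    linarith only [h2]
  refine ⟨u + 1, by linarith, ?_⟩
  unfold lamW
  rw [add_sub_cancel_right, div_eq_iff (by positivity)]
  linarith

end Pool.Agent.Work.MP_413ea6_mp
end

-- merged part: Pool.Agent.Work.MP_413ea6_mp.GeoD
section
open Filter Topology Finset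

namespace Pool.Agent.Work.MP_413ea6_mp

/-! From the two estimates on the outer path to the envelope. -/

/-- The outer path stays below each line and reaches each line. -/
structure UL (t γ : ℝ) (r : ℝ → ℝ) : Prop where
  ht : 0 < t
  hγ : 0 < γ
  diff : ∀ z, 1 < z → DifferentiableAt ℝ r z
  hU : ∀ z δ, 1 < z → 0 < δ →
    Rare t γ fun N X => ∃ j ≤ N, N * r z + δ * N ≤ (X j : ℝ) - lamW t γ z * j
  hL : ∀ z δ, 1 < z → 0 < δ →
    Rare t γ fun N X => ∀ j ≤ N, (X j : ℝ) - lamW t γ z * j + δ * N ≤ N * r z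

/-- The solution of the linear system. -/
noncomputable def solP (l r : ℝ → ℝ) (z : ℝ) : ℝ × ℝ :=
  (r z + l z * (-deriv r z / deriv l z), -deriv r z / deriv l z)

theorem sol_iff {l r : ℝ → ℝ} {z d : ℝ} (hd : d < 0) (hl : HasDerivAt l d z)
    (hr : DifferentiableAt ℝ r z) (p : ℝ × ℝ) :
    (p.1 - l z * p.2 - r z = 0 ∧ HasDerivAt (fun w => p.1 - l w * p.2 - r w) 0 z) ↔
      p = solP l r z := by
  have h1 := ((hl.mul_const p.2).const_sub p.1).sub hr.hasDerivAt
  have h2 : deriv l z = d := hl.deriv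
  constructor
  · rintro ⟨h0, h3⟩
    have h4 := h3.unique h1
    have h5 : p.2 = -deriv r z / deriv l z := by
      rw [h2, eq_div_iff hd.ne]
      linarith
    refine Prod.ext ?_ h5
    simp only [solP]
    rw [← h5]
    linarith only [h0]
  · rintro rfl
    refine ⟨by simp [solP], ?_⟩
    have h4 : -(d * (solP l r z).2) - deriv r z = 0 := by
      simp only [solP, h2]
      field_simp [hd.ne]
      ring
    rw [h4] at h1
    exact h1

variable {t γ : ℝ} {r : ℝ → ℝ}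

theorem UL.r0 (H : UL t γ r) {z : ℝ} (hz : 1 < z) : 0 ≤ r z := by
  refine le_of_forall_pos_le_add fun δ hδ => ?_
  obtain ⟨N, ⟨X, hX, hn⟩, hN⟩ :=
    (((H.hU z δ hz hδ).exists_not H.ht H.hγ).and (eventually_ge_atTop 1)).exists
  have hN' : (0 : ℝ) < N := by exact_mod_cast hN
  have h1 := not_le.1 fun h => hn ⟨0, Nat.zero_le N, h⟩
  rw [hX.1] at h1
  refine le_of_mul_le_mul_left ?_ hN'
  push_cast at h1
  linarith only [h1]

theorem UL.r1 (H : UL t γ r) {z : ℝ} (hz : 1 < z) : 1 - lamW t γ z ≤ r z := by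
  refine le_of_forall_pos_le_add fun δ hδ => ?_
  obtain ⟨N, ⟨X, hX, hn⟩, hN⟩ :=
    (((H.hU z δ hz hδ).exists_not H.ht H.hγ).and (eventually_ge_atTop 1)).exists
  have hN' : (0 : ℝ) < N := by exact_mod_cast hN
  have h1 := not_le.1 fun h => hn ⟨N, le_rfl, h⟩
  rw [hX.2.2 N le_rfl] at h1
  refine le_of_mul_le_mul_left ?_ hN'
  linarith only [h1]

/-- With high probability the rescaled outer path has a point nearly on the line `z` and nearly
below finitely many other lines. -/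
theorem UL.rare_approx (H : UL t γ r) {z : ℝ} (hz : 1 < z) (F : Finset ℝ) (hF : ∀ w ∈ F, 1 < w)
    {η : ℝ} (hη : 0 < η) :
    Rare t γ fun N X => ¬ ∃ j ≤ N, -η ≤ (X j : ℝ) / N - lamW t γ z * (j / N) - r z ∧
      ∀ w ∈ F, (X j : ℝ) / N - lamW t γ w * (j / N) - r w ≤ η := by
  refine ((H.hL z η hz hη).or H.ht H.hγ
    (Rare.exists H.ht H.hγ F fun w hw => H.hU w η (hF w hw) hη)).mono H.ht H.hγ ?_
  filter_upwards [eventually_ge_atTop 1] with N hN X _ _ hn
  have hN' : (0 : ℝ) < N := by exact_mod_cast hN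
  by_contra hc
  rw [not_or] at hc
  obtain ⟨hL, hU⟩ := hc
  push Not at hL hU
  obtain ⟨j, hj, hL⟩ := hL
  have e : ∀ w, (X j : ℝ) / N - lamW t γ w * (j / N) = ((X j : ℝ) - lamW t γ w * j) / N :=
    fun w => by ring
  refine hn ⟨j, hj, ?_, fun w hw => ?_⟩
  · have h3 : r z - η ≤ ((X j : ℝ) - lamW t γ z * j) / N := by
      rw [le_div_iff₀ hN']
      linarith only [hL]
    rw [e]
    linarith only [h3]
  · have h3 : ((X j : ℝ) - lamW t γ w * j) / N ≤ r w + η := by
      rw [div_le_iff₀ hN']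
      linarith [hU w hw j hj]
    rw [e]
    linarith only [h3]

theorem mem_sq {N : ℕ} {X : ℕ → ℕ} (hX : IsPath N X) (hN : 1 ≤ N) {j : ℕ} (hj : j ≤ N) :
    (((X j : ℝ) / N, (j : ℝ) / N) : ℝ × ℝ) ∈ Set.Icc (0 : ℝ) 1 ×ˢ Set.Icc (0 : ℝ) 1 := by
  have hN' : (0 : ℝ) < N := by exact_mod_cast hN
  refine ⟨⟨by positivity, ?_⟩, by positivity, ?_⟩
  · rw [div_le_one hN']
    exact_mod_cast hX.le j
  · rw [div_le_one hN']
    exact_mod_cast hj

/-- Compactness: finitely many approximate conditions force a point into a given open set. -/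
theorem shrink {l : ℝ → ℝ} {z : ℝ} {V : Set (ℝ × ℝ)} (hV : IsOpen V)
    (h : ∀ p ∈ Set.Icc (0 : ℝ) 1 ×ˢ Set.Icc (0 : ℝ) 1, 0 ≤ p.1 - l z * p.2 - r z →
      (∀ w, 1 < w → p.1 - l w * p.2 - r w ≤ 0) → p ∈ V) :
    ∃ (F : Finset ℝ) (η : ℝ), (∀ w ∈ F, 1 < w) ∧ 0 < η ∧
      ∀ p ∈ Set.Icc (0 : ℝ) 1 ×ˢ Set.Icc (0 : ℝ) 1, -η ≤ p.1 - l z * p.2 - r z →
        (∀ w ∈ F, p.1 - l w * p.2 - r w ≤ η) → p ∈ V := by
  classical
  have hK : IsCompact ((Set.Icc (0 : ℝ) 1 ×ˢ Set.Icc (0 : ℝ) 1) \ V) :=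
    (isCompact_Icc.prod isCompact_Icc).diff hV
  obtain ⟨u, hu⟩ := hK.elim_finite_subfamily_closed
    (fun i : {w : ℝ // 1 < w} × {η : ℝ // 0 < η} => {p : ℝ × ℝ |
      -i.2.1 ≤ p.1 - l z * p.2 - r z ∧ p.1 - l i.1.1 * p.2 - r i.1.1 ≤ i.2.1})
    (fun i => by
      rw [Set.ofPred_and]
      exact (isClosed_le continuous_const (by fun_prop)).inter
        (isClosed_le (by fun_prop) continuous_const)) (by
      refine Set.eq_empty_of_forall_notMem fun p ⟨hp, hq⟩ => hp.2 (h p hp.1 ?_ fun w hw => ?_)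
      · refine le_of_forall_pos_le_add fun η hη => ?_
        have := (Set.mem_iInter.1 hq (⟨2, one_lt_two⟩, ⟨η, hη⟩)).1
        dsimp only at this
        linarith
      · refine le_of_forall_pos_le_add fun η hη => ?_
        rw [zero_add]
        exact (Set.mem_iInter.1 hq (⟨w, hw⟩, ⟨η, hη⟩)).2)
  have h0 : ∀ᶠ η : ℝ in 𝓝[>] 0, 0 < η ∧ ∀ i ∈ u, η ≤ i.2.1 :=
    (eventually_mem_nhdsWithin (s := Set.Ioi (0 : ℝ))).and
      ((eventually_all_finset u).2 fun i _ =>
        mem_of_superset (Ioc_mem_nhdsGT i.2.2) fun _ h => h.2)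
  obtain ⟨η, hη, hu'⟩ := h0.exists
  refine ⟨u.image fun i => i.1.1, η, fun w hw => ?_, hη, fun p hp h1 h2 => ?_⟩
  · obtain ⟨i, -, rfl⟩ := mem_image.1 hw
    exact i.1.2
  · by_contra hc
    refine (Set.eq_empty_iff_forall_notMem.1 hu) p ⟨⟨hp, hc⟩, Set.mem_iInter₂.2 fun i hi => ⟨?_, ?_⟩⟩
    · linarith [hu' i hi]
    · linarith [hu' i hi, h2 _ (mem_image_of_mem _ hi)]

theorem UL.pt (H : UL t γ r) {z : ℝ} (hz : 1 < z) :
    ∃ x ∈ Set.Icc (0 : ℝ) 1, ∃ y ∈ Set.Icc (0 : ℝ) 1, x - lamW t γ z * y - r z = 0 ∧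
      ∀ w, 1 < w → x - lamW t γ w * y - r w ≤ 0 := by
  by_contra hc
  obtain ⟨F, η, hF, hη, h⟩ := shrink (l := lamW t γ) (r := r) (z := z) isOpen_empty
    fun p hp h1 h2 => hc ⟨p.1, hp.1, p.2, hp.2, le_antisymm (h2 z hz) h1, h2⟩
  obtain ⟨N, ⟨X, hX, hn⟩, hN⟩ :=
    (((H.rare_approx hz F hF hη).exists_not H.ht H.hγ).and (eventually_ge_atTop 1)).exists
  obtain ⟨j, hj, h1, h2⟩ := not_not.1 hn
  exact h _ (mem_sq hX hN hj) h1 h2

theorem UL.touch (H : UL t γ r) {z : ℝ} (hz : 1 < z) {p : ℝ × ℝ}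
    (h0 : 0 ≤ p.1 - lamW t γ z * p.2 - r z)
    (h : ∀ w, 1 < w → p.1 - lamW t γ w * p.2 - r w ≤ 0) : p = solP (lamW t γ) r z := by
  obtain ⟨d, hd, hl⟩ := lamW_deriv H.ht H.hγ hz
  have h1 := le_antisymm (h z hz) h0
  refine (sol_iff hd hl (H.diff z hz) p).1 ⟨h1, ?_⟩
  have h2 := ((hl.mul_const p.2).const_sub p.1).sub (H.diff z hz).hasDerivAt
  have m : IsLocalMax (fun w => p.1 - lamW t γ w * p.2 - r w) z := by
    filter_upwards [Ioi_mem_nhds hz] with w hw
    exact h1 ▸ h w hw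
  exact m.hasDerivAt_eq_zero h2 ▸ h2

theorem UL.sol_spec (H : UL t γ r) {z : ℝ} (hz : 1 < z) :
    solP (lamW t γ) r z ∈ Set.Icc (0 : ℝ) 1 ×ˢ Set.Icc (0 : ℝ) 1 ∧
      (solP (lamW t γ) r z).1 - lamW t γ z * (solP (lamW t γ) r z).2 - r z = 0 ∧
      ∀ w, 1 < w →
        (solP (lamW t γ) r z).1 - lamW t γ w * (solP (lamW t γ) r z).2 - r w ≤ 0 := by
  obtain ⟨x, hx, y, hy, h1, h2⟩ := H.pt hz
  rw [← H.touch (p := (x, y)) hz h1.ge h2]
  exact ⟨⟨hx, hy⟩, h1, h2⟩

theorem UL.sol_cont (H : UL t γ r) : ContinuousOn (solP (lamW t γ) r) (Set.Ioi 1) := by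
  intro z hz
  refine ContinuousAt.continuousWithinAt (tendsto_nhds.2 fun V hV hzV => ?_)
  obtain ⟨F, η, hF, hη, h⟩ := shrink (l := lamW t γ) (r := r) (z := z) hV
    fun p _ h1 h2 => H.touch hz h1 h2 ▸ hzV
  obtain ⟨d, -, hl⟩ := lamW_deriv H.ht H.hγ hz
  have h1 : ∀ᶠ w in 𝓝 z, |lamW t γ w - lamW t γ z| < η / 2 :=
    (Metric.tendsto_nhds.1 hl.continuousAt) _ (half_pos hη)
  have h2 : ∀ᶠ w in 𝓝 z, |r w - r z| < η / 2 :=
    (Metric.tendsto_nhds.1 (H.diff z hz).continuousAt) _ (half_pos hη)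
  filter_upwards [h1, h2, Ioi_mem_nhds hz] with w h1 h2 hw
  obtain ⟨h3, h4, h5⟩ := H.sol_spec hw
  refine h _ h3 ?_ fun v hv => (h5 v (hF v hv)).trans hη.le
  have h6 := abs_lt.1 h1
  have h7 := abs_lt.1 h2
  linarith only [h4, h7, hη, h3, h6, h3.2.1, h3.2.2, mul_nonneg_of_nonpos_of_nonpos (le_of_lt (Mathlib.Tactic.Linarith.sub_neg_of_lt hη)) (Mathlib.Tactic.Linarith.sub_nonpos_of_le h3.right.right), mul_nonneg_of_nonpos_of_nonpos (le_of_lt (Mathlib.Tactic.Linarith.sub_neg_of_lt h6.left)) (Mathlib.Tactic.Linarith.sub_nonpos_of_le h3.right.left)]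

theorem UL.exists_se (H : UL t γ r) {x y δ : ℝ} (hx : 0 ≤ x) (hy : y ≤ 1) (hδ : 0 < δ)
    (h : ∀ z, 1 < z → x + δ - lamW t γ z * (y - δ) - r z ≤ 0) :
    ∃ z, 1 < z ∧ x < (solP (lamW t γ) r z).1 ∧ (solP (lamW t γ) r z).2 < y - δ / 2 := by
  obtain ⟨z1, h1, e1⟩ := lamW_surj H.ht H.hγ (show 0 < 4 / δ by positivity)
  obtain ⟨z2, h2, e2⟩ := lamW_surj H.ht H.hγ (half_pos hδ)
  obtain ⟨a1, a2, -⟩ := H.sol_spec h1
  obtain ⟨b1, b2, -⟩ := H.sol_spec h2
  by_cases hc : (solP (lamW t γ) r z2).2 < y - δ / 2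
  · refine ⟨z2, h2, ?_, hc⟩
    have := h z2 h2
    rw [e2] at this b2
    linarith only [hδ, b2, this, hy, b1, b1.2.1, mul_nonneg_of_nonpos_of_nonpos (Mathlib.Tactic.Linarith.sub_nonpos_of_le hy) (le_of_lt (Mathlib.Tactic.Linarith.sub_neg_of_lt hδ)), mul_pos_of_neg_of_neg (Mathlib.Tactic.Linarith.sub_neg_of_lt hδ) (Mathlib.Tactic.Linarith.sub_neg_of_lt hδ), mul_nonneg_of_nonpos_of_nonpos (le_of_lt (Mathlib.Tactic.Linarith.sub_neg_of_lt hδ)) (Mathlib.Tactic.Linarith.sub_nonpos_of_le b1.right.left)]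
  have c1 : (solP (lamW t γ) r z1).2 ≤ y - 3 * δ / 4 := by
    have h3 := h z1 h1
    rw [e1] at h3 a2
    have h4 : 4 / δ * ((solP (lamW t γ) r z1).2 - (y - δ)) ≤ 1 := by linarith only [hx, hδ, a2, h3, a1, a1.1.2]
    rw [div_mul_eq_mul_div, div_le_one hδ] at h4
    linarith only [h4]
  have hcont : ContinuousOn (fun z => (solP (lamW t γ) r z).2) (Set.uIcc z1 z2) :=
    (continuous_snd.comp_continuousOn H.sol_cont).mono fun w hw =>
      (lt_min h1 h2).trans_le hw.1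
  obtain ⟨z, hz, e⟩ := intermediate_value_uIcc hcont
    (Set.mem_uIcc.2 (Or.inl ⟨c1, by linarith only [hδ, hc, not_lt.1 hc]⟩) : y - 3 * δ / 4 ∈ _)
  have hz1 : 1 < z := (lt_min h1 h2).trans_le hz.1
  dsimp only at e
  obtain ⟨-, d2, -⟩ := H.sol_spec hz1
  refine ⟨z, hz1, ?_, by linarith only [hδ, e]⟩
  have h3 := h z hz1
  rw [e] at d2
  linarith only [hδ, d2, h3, H, hz1, mul_pos (lamW_pos H.ht H.hγ hz1) hδ]

theorem UL.rare_in (H : UL t γ r) {x y δ : ℝ} (hx : 0 ≤ x) (hy : y ≤ 1) (hδ : 0 < δ)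
    (h : ∀ z, 1 < z → x + δ - lamW t γ z * (y - δ) - r z ≤ 0) :
    Rare t γ fun N X => (X ⌊y * N⌋₊ : ℝ) ≤ x * N := by
  obtain ⟨z, hz, h1, h2⟩ := H.exists_se hx hy hδ h
  obtain ⟨F, η, hF, hη, hV⟩ := shrink (l := lamW t γ) (r := r) (z := z)
    (V := {q | x < q.1 ∧ q.2 < y - δ / 2})
    ((isOpen_lt continuous_const continuous_fst).inter
      (isOpen_lt continuous_snd continuous_const))
    fun p _ h3 h4 => H.touch hz h3 h4 ▸ ⟨h1, h2⟩
  refine (H.rare_approx hz F hF hη).mono H.ht H.hγ ?_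
  filter_upwards [eventually_ge_atTop 1] with N hN X hX _ hA ⟨j, hj, h3, h4⟩
  have hN' : (0 : ℝ) < N := by exact_mod_cast hN
  obtain ⟨h5, h6⟩ := hV _ (mem_sq hX hN hj) h3 h4
  dsimp only at h5 h6
  rw [lt_div_iff₀ hN'] at h5
  rw [div_lt_iff₀ hN'] at h6
  have h7 : j ≤ ⌊y * N⌋₊ := Nat.le_floor (by linarith only [h6, hδ, mul_nonneg_of_nonpos_of_nonpos (Mathlib.Tactic.Linarith.sub_nonpos_of_le (Mathlib.Tactic.Linarith.natCast_nonneg ℝ N)) (le_of_lt (Mathlib.Tactic.Linarith.sub_neg_of_lt hδ))])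
  have h8 : (X j : ℝ) ≤ X ⌊y * N⌋₊ := by exact_mod_cast hX.2.1 h7
  linarith only [hA, h5, h8]

theorem lamW_tendsto_one (ht : 0 < t) (hγ : 0 < γ) :
    Tendsto (lamW t γ) (𝓝[>] 1) atTop := by
  refine tendsto_atTop.2 fun s => ?_
  obtain ⟨z, hz, e⟩ := lamW_surj ht hγ (lt_max_of_lt_right one_pos : 0 < max s 1)
  filter_upwards [Ioo_mem_nhdsGT hz] with w hw
  exact (le_max_left s 1).trans (e ▸ (lamW_anti ht hγ).antitoneOn hw.1 hz hw.2.le)

theorem UL.sol_one (H : UL t γ r) {r1 : ℝ} (h1 : Tendsto r (𝓝[>] 1) (𝓝 r1)) :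
    Tendsto (solP (lamW t γ) r) (𝓝[>] 1) (𝓝 (r1, 0)) := by
  have hy : Tendsto (fun z => (solP (lamW t γ) r z).2) (𝓝[>] 1) (𝓝 0) := by
    refine squeeze_zero' ?_ ?_ (lamW_tendsto_one H.ht H.hγ).inv_tendsto_atTop
    · filter_upwards [self_mem_nhdsWithin] with z hz using (H.sol_spec hz).1.2.1
    · filter_upwards [self_mem_nhdsWithin] with z hz
      obtain ⟨a1, a2, -⟩ := H.sol_spec hz
      have hl := lamW_pos H.ht H.hγ hz
      rw [Pi.inv_apply, inv_eq_one_div, le_div_iff₀ hl]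
      linarith [a1.1.2, H.r0 hz]
  suffices hx : Tendsto (fun z => (solP (lamW t γ) r z).1) (𝓝[>] 1) (𝓝 r1) from
    hx.prodMk_nhds hy
  refine tendsto_order.2 ⟨fun a ha => ?_, fun a ha => ?_⟩
  · filter_upwards [self_mem_nhdsWithin, h1.eventually (lt_mem_nhds ha)] with z hz h2
    obtain ⟨a1, a2, -⟩ := H.sol_spec hz
    linarith only [h2, a2, H, hz, a1, mul_nonneg (lamW_pos H.ht H.hγ hz).le a1.2.1]
  · obtain ⟨w, hw, h2⟩ := ((eventually_mem_nhdsWithin (s := Set.Ioi (1 : ℝ))).and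
      (h1.eventually (gt_mem_nhds ha))).exists
    have h3 := (hy.const_mul (lamW t γ w)).eventually
      (gt_mem_nhds (show lamW t γ w * 0 < a - r w by linarith))
    filter_upwards [self_mem_nhdsWithin, h3] with z hz h4
    linarith [(H.sol_spec hz).2.2 w hw]

theorem UL.sol_top (H : UL t γ r) {r1 : ℝ} (h1 : Tendsto r (𝓝[>] 1) (𝓝 r1))
    (hs : ∀ z w, 1 < z → 1 < w → lamW t γ z * lamW t γ w = 1 →
      r z = 1 - (1 - r w) / lamW t γ w) :
    Tendsto (solP (lamW t γ) r) atTop (𝓝 (1, 1 - r1)) := by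
  have hex : ∀ z, ∃ w, 1 < z → 1 < w ∧ lamW t γ z * lamW t γ w = 1 := fun z => by
    by_cases hz : 1 < z
    · have hl := lamW_pos H.ht H.hγ hz
      obtain ⟨w, hw, e⟩ := lamW_surj H.ht H.hγ (inv_pos.2 hl)
      exact ⟨w, fun _ => ⟨hw, by rw [e, mul_inv_cancel₀ hl.ne']⟩⟩
    · exact ⟨0, fun h => absurd h hz⟩
  choose ι hι using hex
  have key : ∀ (p : ℝ × ℝ) (z : ℝ), 1 < z → 1 - p.2 - lamW t γ z * (1 - p.1) - r z =
      lamW t γ z * (p.1 - lamW t γ (ι z) * p.2 - r (ι z)) := fun p z hz => by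
    obtain ⟨a1, a2⟩ := hι z hz
    have hl := (lamW_pos H.ht H.hγ a1).ne'
    have e : lamW t γ z = (lamW t γ (ι z))⁻¹ := eq_inv_of_mul_eq_one_left a2
    rw [hs z _ hz a1 a2, e]
    field_simp
    ring
  have h2 : ∀ z, 1 < z → solP (lamW t γ) r z =
      (1 - (solP (lamW t γ) r (ι z)).2, 1 - (solP (lamW t γ) r (ι z)).1) := fun z hz => by
    obtain ⟨-, a2, a3⟩ := H.sol_spec (hι z hz).1
    refine (H.touch hz ?_ fun w hw => ?_).symm
    · dsimp only
      rw [key _ z hz, a2, mul_zero]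
    · dsimp only
      rw [key _ w hw]
      exact mul_nonpos_of_nonneg_of_nonpos (lamW_pos H.ht H.hγ hw).le (a3 _ (hι w hw).1)
  have h3 : Tendsto ι atTop (𝓝[>] 1) := by
    refine tendsto_nhdsWithin_iff.2 ⟨tendsto_order.2 ⟨fun a ha => ?_, fun a ha => ?_⟩, ?_⟩
    · filter_upwards [eventually_gt_atTop 1] with z hz using ha.trans (hι z hz).1
    · obtain ⟨a1, a2⟩ := hι a ha
      filter_upwards [eventually_gt_atTop (ι a)] with z hz
      have hz1 := a1.trans hz
      obtain ⟨b1, b2⟩ := hι z hz1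
      by_contra hc
      have c1 := (lamW_anti H.ht H.hγ).antitoneOn ha b1 (not_lt.1 hc)
      have c2 := lamW_anti H.ht H.hγ a1 hz1 hz
      have c3 := lamW_pos H.ht H.hγ hz1
      have c4 := lamW_pos H.ht H.hγ ha
      linarith only [a2, b2, c1, c3, c2, c4, mul_le_mul_of_nonneg_left c1 c3.le, mul_lt_mul_of_pos_left c2 c4]
    · filter_upwards [eventually_gt_atTop 1] with z hz using (hι z hz).1
  have h4 := (H.sol_one h1).comp h3
  have h5 := ((continuous_snd.tendsto _).comp h4).const_sub 1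
  have h6 := ((continuous_fst.tendsto _).comp h4).const_sub 1
  have h7 := h5.prodMk_nhds h6
  rw [sub_zero] at h7
  refine h7.congr' ?_
  filter_upwards [eventually_gt_atTop 1] with z hz using (h2 z hz).symm

end Pool.Agent.Work.MP_413ea6_mp
end

-- merged part: Pool.Agent.Work.MP_413ea6_mp.Trig
section
/-!
The three parametrisations `S = sin, id, sinh` of the weights, the nodes used for the
homogeneous limit, and the data needed for the asymptotics of the Izergin-Korepin determinant.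
-/

open Filter Topology Finset MeasureTheory

namespace Pool.Agent.Work.MP_413ea6_mp

/-- `(S, C, κ) = (sin, cos, -1), (id, 1, 0), (sinh, cosh, 1)`. -/
structure Trig where
  S : ℝ → ℝ
  C : ℝ → ℝ
  κ : ℝ
  S_add : ∀ u v, S (u + v) = S u * C v + C u * S v
  C_add : ∀ u v, C (u + v) = C u * C v + κ * (S u * S v)
  S_neg : ∀ u, S (-u) = -S u
  C_neg : ∀ u, C (-u) = C u
  C_zero : C 0 = 1
  dS : ∀ u, HasDerivAt S (C u) u
  dC : ∀ u, HasDerivAt C (κ * S u) u

theorem Trig.S_zero (T : Trig) : T.S 0 = 0 := by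
  have := T.S_neg 0
  rw [neg_zero] at this
  linarith only [this]

theorem Trig.pyth (T : Trig) (u : ℝ) : T.C u ^ 2 - T.κ * T.S u ^ 2 = 1 := by
  have := T.C_add u (-u)
  rw [add_neg_cancel, T.C_zero, T.S_neg, T.C_neg] at this
  linarith

theorem Trig.S_sub (T : Trig) (u v : ℝ) : T.S (u - v) = T.S u * T.C v - T.C u * T.S v := by
  rw [sub_eq_add_neg, T.S_add, T.S_neg, T.C_neg]; ring

theorem Trig.C_sub (T : Trig) (u v : ℝ) :
    T.C (u - v) = T.C u * T.C v - T.κ * (T.S u * T.S v) := by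
  rw [sub_eq_add_neg, T.C_add, T.S_neg, T.C_neg]; ring

theorem Trig.contS (T : Trig) : Continuous T.S :=
  continuous_iff_continuousAt.2 fun u => (T.dS u).continuousAt

theorem Trig.contC (T : Trig) : Continuous T.C :=
  continuous_iff_continuousAt.2 fun u => (T.dC u).continuousAt

noncomputable def trigSin : Trig where
  S := Real.sin
  C := Real.cos
  κ := -1
  S_add := Real.sin_add
  C_add u v := by rw [Real.cos_add]; ring
  S_neg := Real.sin_neg
  C_neg := Real.cos_neg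
  C_zero := Real.cos_zero
  dS := Real.hasDerivAt_sin
  dC u := by simpa using Real.hasDerivAt_cos u

noncomputable def trigId : Trig where
  S := fun u => u
  C := fun _ => 1
  κ := 0
  S_add u v := by ring
  C_add u v := by ring
  S_neg _ := rfl
  C_neg _ := rfl
  C_zero := rfl
  dS := hasDerivAt_id'
  dC u := by simpa using hasDerivAt_const u (1 : ℝ)

noncomputable def trigSinh : Trig where
  S := Real.sinh
  C := Real.cosh
  κ := 1
  S_add := Real.sinh_add
  C_add u v := by rw [Real.cosh_add]; ring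
  S_neg := Real.sinh_neg
  C_neg := Real.cosh_neg
  C_zero := Real.cosh_zero
  dS := Real.hasDerivAt_sinh
  dC u := by simpa using Real.hasDerivAt_cosh u

/-- Decreasing nodes `n e + ξ, (n-1) e, …, e, 0`. -/
noncomputable def nd (n : ℕ) (e ξ : ℝ) (i : Fin (n + 1)) : ℝ :=
  ((n : ℝ) - i) * e + if i = 0 then ξ else 0

/-- The binomial coefficient `(s + n choose n)`. -/
noncomputable def binr (n : ℕ) (s : ℝ) : ℝ := (∏ m ∈ range n, (s + m + 1)) / n.factorial

/-- The Vandermonde product of the nodes. -/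
noncomputable def vnd (n : ℕ) (e ξ : ℝ) : ℝ := ∏ i, ∏ j ∈ Ioi i, (nd n e ξ i - nd n e ξ j)

/-- The three-term identity behind the Cauchy and Frobenius determinants. -/
def Fay (τ σ : ℝ → ℝ) : Prop :=
  ∀ s u v u' v' : ℝ, τ (s + u + v) * τ (s + u' + v') * (σ (u + v') * σ (u' + v)) -
    τ (s + u + v') * τ (s + u' + v) * (σ (u + v) * σ (u' + v')) =
      τ s * τ (s + u + v + u' + v') * (σ (u' - u) * σ (v' - v))

/-- A Laplace representation of `c / (a b)` and an exactly solvable comparison measure. -/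
structure KData (T : Trig) (g : ℝ) where
  μ : Measure ℝ
  ρ : ℝ → ℝ
  σ : ℝ → ℝ
  τ : ℝ → ℝ
  sf : SigmaFinite μ
  g_pos : 0 < g
  S_pos : ∀ u, 0 < u → u ≤ g → 0 < T.S u
  int : ∀ u, 0 < u → u < g → Integrable (fun x => Real.exp (u * x)) μ
  ρ_meas : Measurable ρ
  ρ_bd : ∃ c1 c2 : ℝ, 0 < c1 ∧ ∀ x, c1 ≤ ρ x ∧ ρ x ≤ c2
  ρ_lim : ∀ ε : ℝ, 0 < ε → ∃ K : ℝ, ∀ x, K ≤ |x| → Real.exp (-ε) ≤ ρ x ∧ ρ x ≤ Real.exp ε
  lap : ∀ u, 0 < u → u < g →
    ∫ x, Real.exp (u * x) * ρ x ∂μ = T.S g / (T.S (g - u) * T.S u)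
  lap0 : ∀ u, 0 < u → u < g → ∫ x, Real.exp (u * x) ∂μ = τ u / (τ 0 * σ u)
  fay : Fay τ σ
  τ_bd : ∃ m M : ℝ, 0 < m ∧ ∀ x, m ≤ τ x ∧ τ x ≤ M
  σ_smooth : ContDiff ℝ 2 σ
  σ_neg : ∀ u, σ (-u) = -σ u
  σ_deriv : HasDerivAt σ 1 0
  σ_pos : ∀ u, 0 < u → u < g → 0 < σ u
  σ_symm : ∀ u, σ (g - u) = σ u

end Pool.Agent.Work.MP_413ea6_mp
end

-- merged part: Pool.Agent.Work.MP_413ea6_mp.Op
section
/-!
Row operators.  A state is the set of thick vertical edges at one level.  Vectors are row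
vectors: `v ᵥ* B` applies one more row on top, and in a product `B₁ * B₂` the row `B₁` is the
lower one.
-/

open Filter Topology Finset Matrix

namespace Pool.Agent.Work.MP_413ea6_mp

abbrev St (n : ℕ) : Type := Fin n → Bool

/-- Vertex weight with the ice rule; the arguments are the west, south, east, north edges. -/
def Lw (a b c : ℝ) : Bool → Bool → Bool → Bool → ℝ
  | false, false, false, false => a
  | true, true, true, true => a
  | true, false, true, false => b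
  | false, true, false, true => b
  | true, false, false, true => c
  | false, true, true, false => c
  | _, _, _, _ => 0

def Mx (a b c : ℝ) (s n : Bool) : Matrix Bool Bool ℝ := Matrix.of fun w e => Lw a b c w s e n

/-- One row with column weights `A r, B r, c`, from the state `α` below to the state `β` above,
as a matrix in the west and east boundary edges. -/
noncomputable def Tr {n : ℕ} (A B : Fin n → ℝ) (c : ℝ) (α β : St n) : Matrix Bool Bool ℝ :=
  (List.ofFn fun r => Mx (A r) (B r) c (α r) (β r)).prod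

/-- Thick edge in, thin edge out. -/
noncomputable def Bop {n : ℕ} (A B : Fin n → ℝ) (c : ℝ) : Matrix (St n) (St n) ℝ :=
  Matrix.of fun α β => Tr A B c α β true false

/-- Thick edge in, thick edge out. -/
noncomputable def Dop {n : ℕ} (A B : Fin n → ℝ) (c : ℝ) : Matrix (St n) (St n) ℝ :=
  Matrix.of fun α β => Tr A B c α β true true

/-- Position (counted from 1) of the last thick edge, `0` for the empty state. -/
def mx {n : ℕ} (α : St n) : ℕ := univ.sup fun r : Fin n => if α r = true then (r : ℕ) + 1 else 0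

/-- Evolution from the empty state, row `k` being `Bk k`, with a factor `f k` at level `k ≥ 1`. -/
noncomputable def ev {n : ℕ} (Bk : ℕ → Matrix (St n) (St n) ℝ) (f : ℕ → St n → ℝ) :
    ℕ → St n → ℝ
  | 0 => Pi.single (fun _ => false) 1
  | k + 1 => fun β => f (k + 1) β * (ev Bk f k ᵥ* Bk k) β

/-- Inhomogeneous partition function; `A r s, B r s` are the weights in column `r`, row `s`. -/
noncomputable def Zr (N : ℕ) (A B : Fin N → Fin N → ℝ) (c : ℝ) : ℝ :=
  ∑ σ : Cfg N, ind (IsDW σ) * ∏ r : Fin N, ∏ s : Fin N,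
    vw (A r s) (B r s) c (σ.1 r.castSucc s) (σ.2 r s.castSucc) (σ.1 r.succ s)

/-- Weights `a = S (g - u - v)`, `b = S (u + v)`, `c = S g`; row parameters `u`, column
parameters `v`. -/
noncomputable def Zt (T : Trig) (g : ℝ) {N : ℕ} (u v : Fin N → ℝ) : ℝ :=
  Zr N (fun r s => T.S (g - (u s + v r))) (fun r s => T.S (u s + v r)) (T.S g)

/-- The row operators with row parameter `u` and column parameters `v`. -/
noncomputable def Bt (T : Trig) (g u : ℝ) {n : ℕ} (v : Fin n → ℝ) : Matrix (St n) (St n) ℝ :=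
  Bop (fun r => T.S (g - (u + v r))) (fun r => T.S (u + v r)) (T.S g)

noncomputable def Dt (T : Trig) (g u : ℝ) {n : ℕ} (v : Fin n → ℝ) : Matrix (St n) (St n) ℝ :=
  Dop (fun r => T.S (g - (u + v r))) (fun r => T.S (u + v r)) (T.S g)

/-- First entry `ξ`, all others `0`. -/
def sp (n : ℕ) (ξ : ℝ) : Fin (n + 1) → ℝ := Fin.cons ξ fun _ => 0

/-- Homogeneous partition function of size `n`. -/
noncomputable def Zh (T : Trig) (g u0 : ℝ) (n : ℕ) : ℝ :=
  Zt T g (fun _ : Fin n => u0) fun _ => 0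

/-- Size `n + 1`, bottom row shifted by `ξ`, west column shifted by `ν`. -/
noncomputable def Zs (T : Trig) (g u0 : ℝ) (n : ℕ) (ξ ν : ℝ) : ℝ :=
  Zt T g (fun s => u0 + sp n ξ s) (sp n ν)

theorem Tr_zero (A B : Fin 0 → ℝ) (c : ℝ) (α β : St 0) : Tr A B c α β = 1 := by simp [Tr]

theorem Tr_succ {n : ℕ} (A B : Fin (n + 1) → ℝ) (c : ℝ) (α β : St (n + 1)) :
    Tr A B c α β = Mx (A 0) (B 0) c (α 0) (β 0) *
      Tr (Fin.tail A) (Fin.tail B) c (Fin.tail α) (Fin.tail β) := by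
  simp only [Tr, List.ofFn_succ, List.prod_cons]
  rfl

theorem Tr_succ' {n : ℕ} (A B : Fin (n + 1) → ℝ) (c : ℝ) (α β : St (n + 1)) :
    Tr A B c α β = Tr (Fin.init A) (Fin.init B) c (Fin.init α) (Fin.init β) *
      Mx (A (Fin.last n)) (B (Fin.last n)) c (α (Fin.last n)) (β (Fin.last n)) := by
  simp only [Tr, List.ofFn_succ', List.concat_eq_append, List.prod_append, List.prod_cons,
    List.prod_nil, mul_one]
  rfl

theorem Lw_nonneg {a b c : ℝ} (ha : 0 ≤ a) (hb : 0 ≤ b) (hc : 0 ≤ c) (w s e n : Bool) :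
    0 ≤ Lw a b c w s e n := by
  cases w <;> cases s <;> cases e <;> cases n <;> simp [Lw, ha, hb, hc]

theorem Tr_nonneg {n : ℕ} {A B : Fin n → ℝ} {c : ℝ} (hA : ∀ r, 0 ≤ A r) (hB : ∀ r, 0 ≤ B r)
    (hc : 0 ≤ c) (α β : St n) (w e : Bool) : 0 ≤ Tr A B c α β w e := by
  induction n generalizing w with
  | zero => rw [Tr_zero]; by_cases h : w = e <;> simp [Matrix.one_apply, h]
  | succ n ih =>
    rw [Tr_succ, Matrix.mul_apply]
    exact sum_nonneg fun m _ => mul_nonneg (Lw_nonneg (hA 0) (hB 0) hc _ _ _ _)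
      (ih (fun r => hA _) (fun r => hB _) _ _ m)

end Pool.Agent.Work.MP_413ea6_mp
end

-- merged part: Pool.Agent.Work.MP_413ea6_mp.YBE
section
open Filter Topology Finset Matrix

namespace Pool.Agent.Work.MP_413ea6_mp

/-! Yang-Baxter: the exchange relations. -/

/-- Two rows. -/
noncomputable def YBE_two {n : ℕ} (A B A' B' : Fin n → ℝ) (c : ℝ) (α β : St n) :
    Matrix (Bool × Bool) (Bool × Bool) ℝ :=
  Matrix.of fun m e => ∑ γ : St n, Tr A B c α γ m.1 e.1 * Tr A' B' c γ β m.2 e.2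

/-- One column of two rows. -/
noncomputable def YBE_loc (a b a' b' c : ℝ) (s t : Bool) : Matrix (Bool × Bool) (Bool × Bool) ℝ :=
  Matrix.of fun m e => ∑ x : Bool, Lw a b c m.1 s e.1 x * Lw a' b' c m.2 x e.2 t

/-- The crossing. -/
def YBE_R (a b c : ℝ) : Matrix (Bool × Bool) (Bool × Bool) ℝ :=
  Matrix.of fun w m => Lw a b c w.2 w.1 m.1 m.2

theorem YBE_two_zero (A B A' B' : Fin 0 → ℝ) (c : ℝ) (α β : St 0) :
    YBE_two A B A' B' c α β = 1 := by
  ext ⟨m1, m2⟩ ⟨e1, e2⟩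
  simp only [YBE_two, Tr_zero, Matrix.of_apply, Finset.univ_unique, sum_singleton,
    Matrix.one_apply, Prod.mk.injEq]
  by_cases h1 : m1 = e1 <;> by_cases h2 : m2 = e2 <;> simp [h1, h2]

theorem YBE_two_succ {n : ℕ} (A B A' B' : Fin (n + 1) → ℝ) (c : ℝ) (α β : St (n + 1)) :
    YBE_two A B A' B' c α β = YBE_loc (A 0) (B 0) (A' 0) (B' 0) c (α 0) (β 0) *
      YBE_two (Fin.tail A) (Fin.tail B) (Fin.tail A') (Fin.tail B') c (Fin.tail α)
        (Fin.tail β) := by
  ext ⟨m1, m2⟩ ⟨e1, e2⟩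
  have e : ∀ (x : Bool) (γ : St n),
      Fin.tail (Fin.consEquiv (fun _ : Fin (n + 1) => Bool) (x, γ)) = γ := fun _ _ => rfl
  rw [YBE_two, Matrix.of_apply, ← (Fin.consEquiv fun _ : Fin (n + 1) => Bool).sum_comp,
    Fintype.sum_prod_type, Matrix.mul_apply, Fintype.sum_prod_type]
  simp only [Tr_succ, Fin.consEquiv_apply, Fin.cons_zero, e, Matrix.mul_apply, Mx,
    YBE_two, YBE_loc, Matrix.of_apply, Fintype.sum_bool, Finset.mul_sum, ← Finset.sum_add_distrib]
  exact Finset.sum_congr rfl fun γ _ => by ring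

theorem YBE_local {Ra Rb pa pb qa qb c : ℝ} (h1 : Ra * qa = Rb * qb + c * pa)
    (h2 : Ra * pb = Rb * pa + c * qb) (h3 : pb * qa = pa * qb + Rb * c) (s t : Bool) :
    YBE_R Ra Rb c * YBE_loc pa pb qa qb c s t = YBE_loc qa qb pa pb c s t * YBE_R Ra Rb c := by
  ext ⟨w1, w2⟩ ⟨e1, e2⟩
  simp only [Matrix.mul_apply, Fintype.sum_prod_type, Fintype.sum_bool, YBE_R, YBE_loc,
    Matrix.of_apply]
  cases s <;> cases t <;> cases w1 <;> cases w2 <;> cases e1 <;> cases e2 <;>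
    simp only [Lw, mul_zero, zero_mul, add_zero, zero_add] <;>
    first
      | ring1
      | linear_combination c * h1
      | linear_combination (-c) * h1
      | linear_combination c * h2
      | linear_combination (-c) * h2
      | linear_combination c * h3
      | linear_combination (-c) * h3

theorem YBE_rows {Ra Rb c : ℝ} {n : ℕ} {pa pb qa qb : Fin n → ℝ}
    (h1 : ∀ r, Ra * qa r = Rb * qb r + c * pa r) (h2 : ∀ r, Ra * pb r = Rb * pa r + c * qb r)
    (h3 : ∀ r, pb r * qa r = pa r * qb r + Rb * c) (α β : St n) :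
    YBE_R Ra Rb c * YBE_two pa pb qa qb c α β = YBE_two qa qb pa pb c α β * YBE_R Ra Rb c := by
  induction n with
  | zero => rw [YBE_two_zero, YBE_two_zero, mul_one, one_mul]
  | succ n ih =>
    rw [YBE_two_succ, YBE_two_succ, ← mul_assoc, YBE_local (h1 0) (h2 0) (h3 0), mul_assoc,
      ih (pa := Fin.tail pa) (pb := Fin.tail pb) (qa := Fin.tail qa) (qb := Fin.tail qb)
        (fun r => h1 r.succ) (fun r => h2 r.succ) (fun r => h3 r.succ), mul_assoc]

theorem YBE_id1 (T : Trig) (g w ξ : ℝ) :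
    T.S (g - ξ) * T.S (g - w) = T.S ξ * T.S w + T.S g * T.S (g - (w + ξ)) := by
  simp only [T.S_sub, T.S_add, T.C_add]
  linear_combination (T.S ξ * T.S w) * T.pyth g

theorem YBE_id2 (T : Trig) (g w ξ : ℝ) :
    T.S (g - ξ) * T.S (w + ξ) = T.S ξ * T.S (g - (w + ξ)) + T.S g * T.S w := by
  simp only [T.S_sub, T.S_add, T.C_add]
  linear_combination (T.S g * T.S w) * T.pyth ξ

theorem YBE_id3 (T : Trig) (g w ξ : ℝ) :
    T.S (w + ξ) * T.S (g - w) = T.S (g - (w + ξ)) * T.S w + T.S ξ * T.S g := by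
  simp only [T.S_sub, T.S_add, T.C_add]
  linear_combination (T.S ξ * T.S g) * T.pyth w

theorem YBE_cont {n : ℕ} {A B : ℝ → Fin n → ℝ} (hA : ∀ r, Continuous fun x => A x r)
    (hB : ∀ r, Continuous fun x => B x r) (c : ℝ) (α β : St n) (w e : Bool) :
    Continuous fun x => Tr (A x) (B x) c α β w e := by
  induction n generalizing w with
  | zero => simp only [Tr_zero]; exact continuous_const
  | succ n ih =>
    simp only [Tr_succ, Matrix.mul_apply]
    refine continuous_finsetSum _ fun m _ => Continuous.mul ?_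
      (ih (A := fun x => Fin.tail (A x)) (B := fun x => Fin.tail (B x)) (fun r => hA r.succ)
        (fun r => hB r.succ) _ _ m)
    simp only [Mx, Matrix.of_apply]
    generalize α 0 = s, β 0 = t
    cases w <;> cases s <;> cases m <;> cases t <;> simp only [Lw] <;>
      first | exact hA 0 | exact hB 0 | exact continuous_const

theorem YBE_cancel (T : Trig) (g : ℝ) {f : ℝ → ℝ} (hf : Continuous f)
    (h : ∀ x, T.S (g - x) * f x = 0) (x : ℝ) : f x = 0 := by
  by_cases h0 : T.S (g - x) = 0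
  · have hC : -T.C (g - x) ≠ 0 := by
      have := T.pyth (g - x)
      rw [h0] at this
      intro h1
      rw [neg_eq_zero.1 h1] at this
      norm_num at this
    have hd : HasDerivAt (fun y => T.S (g - y)) (-T.C (g - x)) x := by
      simpa using (T.dS (g - x)).comp_const_sub g x
    have he : ∀ᶠ y in 𝓝[≠] x, f y = 0 :=
      (hd.eventually_ne (c := 0) hC).mono fun y hy => (mul_eq_zero.1 (h y)).resolve_left hy
    exact tendsto_nhds_unique (hf.continuousAt.tendsto.mono_left nhdsWithin_le_nhds)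
      (tendsto_const_nhds.congr' (he.mono fun y hy => hy.symm))
  · exact (mul_eq_zero.1 (h x)).resolve_left h0

theorem rtt (T : Trig) (g u ξ : ℝ) {n : ℕ} (v : Fin n → ℝ) (α β : St n) (w1 w2 e1 e2 : Bool) :
    ∑ m1 : Bool, ∑ m2 : Bool, Lw (T.S (g - ξ)) (T.S ξ) (T.S g) w2 w1 m1 m2 *
        ∑ γ : St n, Tr (fun r => T.S (g - (u + ξ + v r))) (fun r => T.S (u + ξ + v r)) (T.S g)
          α γ m1 e1 * Tr (fun r => T.S (g - (u + v r))) (fun r => T.S (u + v r)) (T.S g) γ β m2 e2 =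
      ∑ m1 : Bool, ∑ m2 : Bool, (∑ γ : St n,
        Tr (fun r => T.S (g - (u + v r))) (fun r => T.S (u + v r)) (T.S g) α γ w1 m1 *
          Tr (fun r => T.S (g - (u + ξ + v r))) (fun r => T.S (u + ξ + v r)) (T.S g) γ β w2 m2) *
        Lw (T.S (g - ξ)) (T.S ξ) (T.S g) m2 m1 e1 e2 := by
  have e : ∀ r, u + ξ + v r = u + v r + ξ := fun r => by ring
  have h := YBE_rows (Ra := T.S (g - ξ)) (Rb := T.S ξ) (c := T.S g)
    (pa := fun r => T.S (g - (u + ξ + v r))) (pb := fun r => T.S (u + ξ + v r))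
    (qa := fun r => T.S (g - (u + v r))) (qb := fun r => T.S (u + v r))
    (fun r => by rw [e]; exact YBE_id1 T g _ ξ) (fun r => by rw [e]; exact YBE_id2 T g _ ξ)
    (fun r => by rw [e]; exact YBE_id3 T g _ ξ) α β
  have h' := congrFun (congrFun h (w1, w2)) (e1, e2)
  simpa only [Matrix.mul_apply, Fintype.sum_prod_type, YBE_R, YBE_two, Matrix.of_apply] using h'

theorem Bt_comm (T : Trig) (g u u' : ℝ) {n : ℕ} (v : Fin n → ℝ) :
    Bt T g u v * Bt T g u' v = Bt T g u' v * Bt T g u v := by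
  obtain ⟨ξ, rfl⟩ : ∃ ξ, u' = u + ξ := ⟨u' - u, by ring⟩
  ext α β
  have c1 : ∀ (α β : St n), Continuous fun x => Bt T g (u + x) v α β := fun α β =>
    YBE_cont (A := fun x r => T.S (g - (u + x + v r))) (B := fun x r => T.S (u + x + v r))
      (fun r => T.contS.comp (by fun_prop)) (fun r => T.contS.comp (by fun_prop)) _ _ _ _ _
  rw [← sub_eq_zero]
  refine YBE_cancel T g (f := fun x => (Bt T g u v * Bt T g (u + x) v) α β -
    (Bt T g (u + x) v * Bt T g u v) α β) ?_ (fun x => ?_) ξ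
  · simp only [Matrix.mul_apply]
    exact (continuous_finsetSum _ fun γ _ => continuous_const.mul (c1 _ _)).sub
      (continuous_finsetSum _ fun γ _ => (c1 _ _).mul continuous_const)
  · have h := rtt T g u x v α β true true false false
    simp only [Fintype.sum_bool, Lw, zero_mul, mul_zero, add_zero, zero_add] at h
    simp only [Matrix.mul_apply, Bt, Bop, Matrix.of_apply]
    linear_combination -h

theorem Dt_exch (T : Trig) (g u ξ : ℝ) {n : ℕ} (v : Fin n → ℝ) :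
    T.S ξ • (Bt T g u v * Dt T g (u + ξ) v) + T.S g • (Dt T g u v * Bt T g (u + ξ) v) =
      T.S (g - ξ) • (Dt T g (u + ξ) v * Bt T g u v) := by
  ext α β
  have h := rtt T g u ξ v α β true true true false
  simp only [Fintype.sum_bool, Lw, zero_mul, mul_zero, add_zero, zero_add] at h
  simp only [Matrix.add_apply, Matrix.smul_apply, smul_eq_mul, Matrix.mul_apply, Bt, Bop, Dt, Dop,
    Matrix.of_apply]
  linear_combination -h

end Pool.Agent.Work.MP_413ea6_mp
end

-- merged part: Pool.Agent.Work.MP_413ea6_mp.BijA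
section
open Filter Topology Finset

namespace Pool.Agent.Work.MP_413ea6_mp

/-! From configurations to height functions. -/

/-- Number of thick vertical edges at level `j` (level `N` if `j > N`) in columns `> i`. -/
def htOf {N : ℕ} (σ : Cfg N) : Ht := fun i j =>
  (univ.filter (fun r : Fin N => i ≤ r ∧
    σ.2 r ⟨min j N, Nat.lt_succ_of_le (min_le_right _ _)⟩ = true)).card

/-- The outer path of a configuration. -/
def pathOf {N : ℕ} (σ : Cfg N) : ℕ → ℕ := cnt N (htOf σ)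

theorem BijA_big {N : ℕ} (σ : Cfg N) {i : ℕ} (hi : N ≤ i) (j : ℕ) : htOf σ i j = 0 := by
  unfold htOf
  rw [card_eq_zero, filter_eq_empty_iff]
  intro r _ h
  have := r.2
  omega

theorem BijA_min {N : ℕ} (σ : Cfg N) (i j : ℕ) : htOf σ i j = htOf σ i (min j N) := by
  unfold htOf
  simp only [min_assoc, min_self]

theorem edge_v {N : ℕ} (σ : Cfg N) (r : Fin N) (k : Fin (N + 1)) :
    htOf σ r k = htOf σ (r + 1) k + (σ.2 r k).toNat := by
  have e : (⟨min (k : ℕ) N, Nat.lt_succ_of_le (min_le_right _ _)⟩ : Fin (N + 1)) = k :=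
    Fin.ext (min_eq_left (Nat.lt_succ_iff.1 k.2))
  unfold htOf
  simp only [e, card_filter]
  have h1 : (σ.2 r k).toNat = ∑ r' : Fin N, if r' = r then (σ.2 r' k).toNat else 0 := by simp
  rw [h1, ← sum_add_distrib]
  refine sum_congr rfl fun r' _ => ?_
  by_cases h : r' = r
  · subst h
    cases σ.2 r' k <;> simp
  · have h2 : (r' : ℕ) ≠ r := fun h' => h (Fin.ext h')
    have h3 : (r : ℕ) ≤ r' ↔ (r : ℕ) + 1 ≤ r' := by omega
    simp only [h3, h, if_false, add_zero]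

theorem edge_h {N : ℕ} {σ : Cfg N} (H : IsDW σ) (k : Fin (N + 1)) (s : Fin N) :
    htOf σ k (s + 1) = htOf σ k s + (σ.1 k s).toNat := by
  induction k using Fin.reverseInduction with
  | last =>
    rw [H.2.2.2.2 s, BijA_big σ (by simp), BijA_big σ (by simp)]
    rfl
  | cast r ih =>
    have h1 := edge_v σ r s.succ
    have h2 := edge_v σ r s.castSucc
    have h3 := H.1 r s
    simp only [Fin.val_succ, Fin.val_castSucc] at h1 h2 ih ⊢
    omega

theorem htOf_cls {N : ℕ} {σ : Cfg N} (H : IsDW σ) : Cls N 0 (htOf σ) := by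
  refine ⟨fun i j => ?_, fun i => ?_, fun i j hj => ?_⟩
  · have hA : htOf σ i j ≤ htOf σ i (j + 1) ∧ htOf σ i (j + 1) ≤ htOf σ i j + 1 := by
      by_cases hj : j < N
      · by_cases hi : i ≤ N
        · have h1 := edge_h H ⟨i, Nat.lt_succ_of_le hi⟩ ⟨j, hj⟩
          have h2 := Bool.toNat_le (σ.1 ⟨i, Nat.lt_succ_of_le hi⟩ ⟨j, hj⟩)
          dsimp only at h1
          omega
        · rw [BijA_big σ (by omega), BijA_big σ (by omega)]
          omega
      · rw [BijA_min σ i j, BijA_min σ i (j + 1), min_eq_right (by omega : N ≤ j),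
          min_eq_right (by omega : N ≤ j + 1)]
        omega
    have hB : htOf σ (i + 1) j ≤ htOf σ i j ∧ htOf σ i j ≤ htOf σ (i + 1) j + 1 := by
      by_cases hi : i < N
      · have h1 := edge_v σ ⟨i, hi⟩ ⟨min j N, Nat.lt_succ_of_le (min_le_right _ _)⟩
        have h2 := Bool.toNat_le (σ.2 ⟨i, hi⟩ ⟨min j N, Nat.lt_succ_of_le (min_le_right _ _)⟩)
        rw [BijA_min σ i j, BijA_min σ (i + 1) j]
        dsimp only at h1
        omega
      · rw [BijA_big σ (by omega), BijA_big σ (by omega)]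
        omega
    exact ⟨hA.1, hA.2, hB.1, hB.2⟩
  · unfold htOf
    rw [card_eq_zero, filter_eq_empty_iff]
    intro r _ h
    have e : (⟨min 0 N, Nat.lt_succ_of_le (min_le_right _ _)⟩ : Fin (N + 1)) = 0 :=
      Fin.ext (by simp)
    rw [e, H.2.2.2.1 r] at h
    exact Bool.false_ne_true h.2
  · rw [BijA_min σ i j, min_eq_right hj]
    have key : ∀ d i : ℕ, i + d = N → htOf σ i N = d := by
      intro d
      induction d with
      | zero => exact fun i hi => BijA_big σ (by omega) _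
      | succ d ih =>
        intro i hi
        have h1 := edge_v σ ⟨i, by omega⟩ (Fin.last N)
        rw [H.2.2.1] at h1
        have h2 := ih (i + 1) (by omega)
        simp only [Fin.val_last, Bool.toNat_true] at h1
        omega
    by_cases hi : i ≤ N
    · exact key _ i (by omega)
    · rw [BijA_big σ (by omega)]
      omega

theorem BijA_lv {a b c : ℝ} (ha : 0 < a) (hc : 0 < c) (W S E Nn : Bool)
    (h : W.toNat + S.toNat = E.toNat + Nn.toNat) (k : ℕ) :
    vw a b c W S E =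
      a * lv (b / a) (c / a) (k + S.toNat) k (k + S.toNat + W.toNat) (k + E.toNat) := by
  have ha' := ha.ne'
  have hc' := hc.ne'
  have e1 : ((k + S.toNat + W.toNat : ℕ) : ℤ) - k - 1 = S.toNat + W.toNat - 1 := by
    push_cast
    ring
  have e2 : ((k + S.toNat : ℕ) : ℤ) - (k + E.toNat : ℕ) = S.toNat - E.toNat := by
    push_cast
    ring
  unfold lv
  rw [e1, e2]
  cases W <;> cases S <;> cases E <;> cases Nn <;> simp at h <;> simp [vw] <;> field_simp

theorem BijA_weight {a b c : ℝ} (ha : 0 < a) (hc : 0 < c) {N : ℕ} {σ : Cfg N} (H : IsDW σ) :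
    weight a b c σ = a ^ (N * N) * Wt N (b / a) (c / a) (htOf σ) := by
  unfold weight Wt
  rw [prod_range]
  simp only [prod_range]
  have h1 : ∀ r s : Fin N, vw a b c (σ.1 r.castSucc s) (σ.2 r s.castSucc) (σ.1 r.succ s) =
      a * lv (b / a) (c / a) (htOf σ r s) (htOf σ (r + 1) s) (htOf σ r (s + 1))
        (htOf σ (r + 1) (s + 1)) := by
    intro r s
    have e1 := edge_v σ r s.castSucc
    have e2 := edge_h H r.castSucc s
    have e3 := edge_h H r.succ s
    simp only [Fin.val_succ, Fin.val_castSucc] at e1 e2 e3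
    rw [e2, e3, e1]
    exact BijA_lv ha hc _ _ _ _ (H.1 r s) _
  simp only [h1, prod_mul_distrib, prod_const, card_univ, Fintype.card_fin, ← pow_mul]

theorem BijA_inj {N : ℕ} {σ σ' : Cfg N} (H : IsDW σ) (H' : IsDW σ') (e : htOf σ = htOf σ') :
    σ = σ' := by
  have hb : ∀ x y : Bool, x.toNat = y.toNat → x = y := by decide
  refine Prod.ext ?_ ?_
  · funext k s
    have h1 := edge_h H k s
    have h2 := edge_h H' k s
    rw [e] at h1
    exact hb _ _ (by omega)
  · funext r k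
    have h1 := edge_v σ r k
    have h2 := edge_v σ' r k
    rw [e] at h1
    exact hb _ _ (by omega)

theorem BijA_dec {x y : ℕ} (h1 : y ≤ x) (h2 : x ≤ y + 1) : x = y + (decide (x ≠ y)).toNat := by
  by_cases h : x = y
  · simp [h]
  · simp only [ne_eq, h, not_false_eq_true, decide_true, Bool.toNat_true]
    omega

theorem BijA_surj {N : ℕ} {h : Ht} (H : Cls N 0 h) : ∃ σ : Cfg N, IsDW σ ∧ htOf σ = h := by
  let σ : Cfg N := (fun k s => decide (h k (s + 1) ≠ h k s), fun r k => decide (h r k ≠ h (r + 1) k))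
  have eh : ∀ (k : Fin (N + 1)) (s : Fin N), h k (s + 1) = h k s + (σ.1 k s).toNat :=
    fun k s => BijA_dec (H.1 k s).1 (H.1 k s).2.1
  have ev : ∀ (r : Fin N) (k : Fin (N + 1)), h r k = h (r + 1) k + (σ.2 r k).toNat :=
    fun r k => BijA_dec (H.1 r k).2.2.1 (H.1 r k).2.2.2
  have hb1 : ∀ x : Bool, x.toNat = 1 → x = true := by decide
  have hb0 : ∀ x : Bool, x.toNat = 0 → x = false := by decide
  refine ⟨σ, ⟨fun r s => ?_, fun s => ?_, fun r => ?_, fun r => ?_, fun s => ?_⟩, ?_⟩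
  · have h1 := eh r.castSucc s
    have h2 := eh r.succ s
    have h3 := ev r s.castSucc
    have h4 := ev r s.succ
    simp only [Fin.val_succ, Fin.val_castSucc] at h1 h2 h3 h4
    omega
  · have h1 := eh 0 s
    have h2 := s.2
    have h3 := H.left (j := s) (by omega)
    have h4 := H.left (j := s + 1) (by omega)
    simp only [Fin.val_zero] at h1
    exact hb1 _ (by omega)
  · have h1 := ev r (Fin.last N)
    have h2 := r.2
    have h3 := H.2.2 r N le_rfl
    have h4 := H.2.2 (r + 1) N le_rfl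
    simp only [Fin.val_last] at h1
    exact hb1 _ (by omega)
  · have h1 := ev r 0
    have h3 := H.2.1 r
    simp only [Fin.val_zero] at h1
    exact hb0 _ (by omega)
  · have h1 := eh (Fin.last N) s
    have h3 := H.le N (s + 1)
    simp only [Fin.val_last] at h1
    exact hb0 _ (by omega)
  · have key : ∀ (k : Fin (N + 1)) (d i : ℕ), i + d = N → htOf σ i k = h i k := by
      intro k d
      induction d with
      | zero =>
        intro i hi
        have := H.le i k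
        rw [BijA_big σ (by omega)]
        omega
      | succ d ih =>
        intro i hi
        have h1 := edge_v σ ⟨i, by omega⟩ k
        have h2 := ev ⟨i, by omega⟩ k
        have h3 := ih (i + 1) (by omega)
        dsimp only at h1 h2
        omega
    funext i j
    by_cases hi : i ≤ N
    · have h1 := key ⟨min j N, Nat.lt_succ_of_le (min_le_right _ _)⟩ (N - i) i (by omega)
      dsimp only at h1
      rw [BijA_min, h1]
      by_cases hj : j ≤ N
      · rw [min_eq_left hj]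
      · rw [min_eq_right (by omega), H.2.2 i N le_rfl, H.2.2 i j (by omega)]
    · have := H.le i j
      rw [BijA_big σ (by omega)]
      omega

theorem sum_dw {a b c : ℝ} (ha : 0 < a) (hb : 0 < b) (hc : 0 < c) (N : ℕ) (φ : Ht → ℝ) :
    ∑ σ : Cfg N, ind (IsDW σ) * (weight a b c σ * φ (htOf σ)) =
      a ^ (N * N) * ∑ h ∈ hts N 0, Wt N (b / a) (c / a) h * φ h := by
  classical
  have _ := hb
  have h1 : ∀ σ : Cfg N, ind (IsDW σ) * (weight a b c σ * φ (htOf σ)) =
      if IsDW σ then weight a b c σ * φ (htOf σ) else 0 := by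
    intro σ
    by_cases h : IsDW σ
    · rw [ind_pos h, if_pos h, one_mul]
    · rw [ind_neg h, if_neg h, zero_mul]
  simp only [h1]
  rw [← sum_filter, mul_sum]
  refine sum_nbij htOf (fun σ hσ => mem_hts.2 (htOf_cls (mem_filter.1 hσ).2))
    (fun σ hσ σ' hσ' e => BijA_inj (mem_filter.1 hσ).2 (mem_filter.1 hσ').2 e)
    (fun h hh => ?_) (fun σ hσ => ?_)
  · obtain ⟨σ, h1, h2⟩ := BijA_surj (mem_hts.1 hh)
    exact ⟨σ, mem_filter.2 ⟨mem_univ _, h1⟩, h2⟩
  · rw [BijA_weight ha hc (mem_filter.1 hσ).2, mul_assoc]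

end Pool.Agent.Work.MP_413ea6_mp
end

-- merged part: Pool.Agent.Work.MP_413ea6_mp.OpLink
section
open Filter Topology Finset Matrix

namespace Pool.Agent.Work.MP_413ea6_mp

/-! Configuration sums as products of row operators. -/

theorem OpLink_path {X : Type*} [Fintype X] [DecidableEq X] (n : ℕ) (M : Fin n → Matrix X X ℝ)
    (a b : X) :
    (List.ofFn M).prod a b = ∑ η : Fin (n + 1) → X,
      if η 0 = a ∧ η (Fin.last n) = b then ∏ i, M i (η i.castSucc) (η i.succ) else 0 := by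
  induction n generalizing a with
  | zero =>
    rw [← (Equiv.funUnique (Fin 1) X).symm.sum_comp]
    by_cases h : a = b
    · subst h
      simp
    · have h' : ∀ x : X, ¬ (x = a ∧ x = b) := fun x hx => h (hx.1.symm.trans hx.2)
      simp [Matrix.one_apply, h, h']
  | succ n ih =>
    rw [List.ofFn_succ, List.prod_cons, Matrix.mul_apply,
      ← (Fin.consEquiv fun _ : Fin (n + 2) => X).sum_comp, Fintype.sum_prod_type]
    have e1 : ∀ (x : X) (η : Fin (n + 1) → X),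
        (if (Fin.consEquiv fun _ : Fin (n + 2) => X) (x, η) 0 = a ∧
            (Fin.consEquiv fun _ : Fin (n + 2) => X) (x, η) (Fin.last (n + 1)) = b then
          ∏ i : Fin (n + 1), M i ((Fin.consEquiv fun _ : Fin (n + 2) => X) (x, η) i.castSucc)
            ((Fin.consEquiv fun _ : Fin (n + 2) => X) (x, η) i.succ) else 0) =
        if x = a then (if η (Fin.last n) = b then
          M 0 a (η 0) * ∏ i : Fin n, M i.succ (η i.castSucc) (η i.succ) else 0) else 0 := by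
      intro x η
      have h0 : (Fin.consEquiv fun _ : Fin (n + 2) => X) (x, η) 0 = x := rfl
      have hs : ∀ i : Fin (n + 1), (Fin.consEquiv fun _ : Fin (n + 2) => X) (x, η) i.succ = η i :=
        fun i => rfl
      have hl : (Fin.consEquiv fun _ : Fin (n + 2) => X) (x, η) (Fin.last (n + 1)) =
          η (Fin.last n) := hs (Fin.last n)
      rw [h0, hl, Fin.prod_univ_succ]
      simp only [Fin.castSucc_zero, h0, ← Fin.succ_castSucc, hs]
      by_cases hx : x = a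
      · subst hx
        simp
      · simp [hx]
    simp only [e1]
    rw [sum_comm]
    simp only [sum_ite_eq', mem_univ, if_true, ih, mul_sum]
    rw [sum_comm]
    refine sum_congr rfl fun η _ => ?_
    rw [sum_eq_single (η 0)]
    · by_cases hb : η (Fin.last n) = b <;> simp [hb]
    · intro m _ hm
      rw [if_neg fun h => hm h.1.symm, mul_zero]
    · simp

theorem OpLink_ev {n : ℕ} (Bk : ℕ → Matrix (St n) (St n) ℝ) (f : ℕ → St n → ℝ) (k : ℕ)
    (β : St n) :
    ev Bk f k β =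
      (List.ofFn fun s : Fin k => Bk s * diagonal (f (s + 1))).prod (fun _ => false) β := by
  induction k generalizing β with
  | zero =>
    simp only [ev, List.ofFn_zero, List.prod_nil, Matrix.one_apply, Pi.single_apply, eq_comm]
  | succ k ih =>
    rw [List.ofFn_succ', List.concat_eq_append, List.prod_append, List.prod_cons, List.prod_nil,
      mul_one, ← Matrix.mul_assoc, Matrix.mul_diagonal, Matrix.mul_apply]
    simp only [ev, Fin.val_last, Fin.val_castSucc, vecMul, dotProduct, ih]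
    rw [mul_comm]

theorem OpLink_Lw {a b c : ℝ} {w s e n : Bool} (h : w.toNat + s.toNat = e.toNat + n.toNat) :
    Lw a b c w s e n = vw a b c w s e := by
  cases w <;> cases s <;> cases e <;> cases n <;> simp_all [Lw, vw]

theorem OpLink_ice {a b c : ℝ} {w s e n : Bool} (h : Lw a b c w s e n ≠ 0) :
    w.toNat + s.toNat = e.toNat + n.toNat := by
  cases w <;> cases s <;> cases e <;> cases n <;> simp_all [Lw]

theorem sum_ev (N : ℕ) (A B : ℕ → Fin N → ℝ) (c : ℝ) (f : ℕ → St N → ℝ) :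
    ∑ σ : Cfg N, ind (IsDW σ) * ((∏ r : Fin N, ∏ s : Fin N,
        vw (A s r) (B s r) c (σ.1 r.castSucc s) (σ.2 r s.castSucc) (σ.1 r.succ s)) *
          ∏ s : Fin N, f (s + 1) fun r => σ.2 r s.succ) =
      ev (fun k => Bop (A k) (B k) c) f N fun _ => true := by
  rw [OpLink_ev, OpLink_path, Fintype.sum_prod_type_right,
    ← (Equiv.piComm fun (_ : Fin (N + 1)) (_ : Fin N) => Bool).sum_comp]
  refine sum_congr rfl fun v _ => ?_
  rw [← (Equiv.piComm fun (_ : Fin N) (_ : Fin (N + 1)) => Bool).sum_comp]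
  have e1 : ∀ s : Fin N,
      (Bop (A s) (B s) c * diagonal (f (s + 1))) (v s.castSucc) (v s.succ) =
        (∑ η : Fin (N + 1) → Bool, if η 0 = true ∧ η (Fin.last N) = false then
          ∏ r, Lw (A s r) (B s r) c (η r.castSucc) (v s.castSucc r) (η r.succ) (v s.succ r)
          else 0) * f (s + 1) (v s.succ) := by
    intro s
    rw [Matrix.mul_diagonal]
    simp only [Bop, Tr, Matrix.of_apply, OpLink_path, Mx]
  simp only [e1]
  rw [prod_mul_distrib, prod_univ_sum, Fintype.piFinset_univ, sum_mul]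
  have e2 : ∀ (p : Prop) [Decidable p] (g : (Fin N → Fin (N + 1) → Bool) → ℝ),
      (if p then ∑ H, g H else 0) = ∑ H, if p then g H else 0 := by
    intro p _ g
    split_ifs <;> simp
  rw [e2]
  refine sum_congr rfl fun H _ => ?_
  by_cases hD : IsDW (N := N) ((Equiv.piComm fun (_ : Fin N) (_ : Fin (N + 1)) => Bool) H,
      (Equiv.piComm fun (_ : Fin (N + 1)) (_ : Fin N) => Bool) v)
  · have h1 : ∀ r s : Fin N, (H s r.castSucc).toNat + (v s.castSucc r).toNat =
        (H s r.succ).toNat + (v s.succ r).toNat := hD.1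
    have h2 : ∀ s, H s 0 = true := hD.2.1
    have h3 : ∀ r, v (Fin.last N) r = true := hD.2.2.1
    have h4 : ∀ r, v 0 r = false := hD.2.2.2.1
    have h5 : ∀ s, H s (Fin.last N) = false := hD.2.2.2.2
    rw [ind_pos hD, one_mul, if_pos ⟨funext h4, funext h3⟩, Finset.prod_comm]
    congr 1
    refine prod_congr rfl fun s _ => ?_
    rw [if_pos ⟨h2 s, h5 s⟩]
    exact prod_congr rfl fun r _ => (OpLink_Lw (h1 r s)).symm
  · rw [ind_neg hD, zero_mul]
    symm
    by_contra hne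
    apply hD
    have hv : v 0 = (fun _ => false) ∧ v (Fin.last N) = fun _ => true := by
      by_contra h
      exact hne (if_neg h)
    rw [if_pos hv] at hne
    have hP := prod_ne_zero_iff.1 (left_ne_zero_of_mul hne)
    have hH : ∀ s, H s 0 = true ∧ H s (Fin.last N) = false := by
      intro s
      by_contra h
      exact hP s (mem_univ _) (if_neg h)
    refine ⟨fun r s => ?_, fun s => (hH s).1, fun r => congrFun hv.2 r, fun r => congrFun hv.1 r,
      fun s => (hH s).2⟩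
    have h := hP s (mem_univ _)
    rw [if_pos (hH s)] at h
    exact OpLink_ice (prod_ne_zero_iff.1 h r (mem_univ _))

theorem pathOf_eq_mx {N : ℕ} (σ : Cfg N) (k : Fin (N + 1)) :
    pathOf σ k = mx fun r => σ.2 r k := by
  have e : (⟨min (k : ℕ) N, Nat.lt_succ_of_le (min_le_right _ _)⟩ : Fin (N + 1)) = k :=
    Fin.ext (min_eq_left (Nat.lt_succ_iff.1 k.2))
  have h1 : ∀ i : ℕ, 1 ≤ htOf σ i k ↔ i < mx fun r => σ.2 r k := by
    intro i
    unfold htOf mx
    rw [e, Nat.one_le_iff_ne_zero, card_ne_zero, Finset.lt_sup_iff]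
    constructor
    · rintro ⟨r, hr⟩
      rw [mem_filter] at hr
      exact ⟨r, mem_univ _, by rw [if_pos hr.2.2]; have := hr.2.1; omega⟩
    · rintro ⟨r, -, hr⟩
      by_cases h : σ.2 r k = true
      · rw [if_pos h] at hr
        exact ⟨r, mem_filter.2 ⟨mem_univ _, by omega, h⟩⟩
      · rw [if_neg h] at hr
        omega
  have h2 : (mx fun r => σ.2 r k) ≤ N := by
    unfold mx
    refine Finset.sup_le fun r _ => ?_
    have := r.2
    split_ifs <;> omega
  unfold pathOf cnt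
  simp only [h1]
  have h3 : (range N).filter (fun i => i < mx fun r => σ.2 r k) = range (mx fun r => σ.2 r k) := by
    ext i
    simp only [mem_filter, mem_range]
    omega
  rw [h3, card_range]

theorem Zt_eq_prod (T : Trig) (g : ℝ) {N : ℕ} (u v : Fin N → ℝ) :
    Zt T g u v = (List.ofFn fun s => Bt T g (u s) v).prod (fun _ => false) fun _ => true := by
  have h := sum_ev N (fun k r => if hk : k < N then T.S (g - (u ⟨k, hk⟩ + v r)) else 0)
    (fun k r => if hk : k < N then T.S (u ⟨k, hk⟩ + v r) else 0) (T.S g) (fun _ _ => 1)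
  rw [OpLink_ev] at h
  simp only [Fin.is_lt, dif_pos, Fin.eta, prod_const_one, mul_one, diagonal_one] at h
  exact h

theorem Zt_pos (T : Trig) (g : ℝ) {N : ℕ} (u v : Fin N → ℝ) (hg : 0 < T.S g)
    (ha : ∀ s r, 0 < T.S (g - (u s + v r))) (hb : ∀ s r, 0 < T.S (u s + v r)) :
    0 < Zt T g u v := by
  have hw : ∀ σ : Cfg N, 0 < ∏ r : Fin N, ∏ s : Fin N,
      vw (T.S (g - (u s + v r))) (T.S (u s + v r)) (T.S g)
        (σ.1 r.castSucc s) (σ.2 r s.castSucc) (σ.1 r.succ s) := by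
    intro σ
    refine prod_pos fun r _ => prod_pos fun s _ => ?_
    unfold vw
    split_ifs
    exacts [ha s r, hb s r, hg]
  obtain ⟨σ, hσ, -⟩ := BijA_surj (cls_min N)
  unfold Zt Zr
  refine sum_pos' (fun σ _ => mul_nonneg (ind_nonneg _) (hw σ).le) ⟨σ, mem_univ _, ?_⟩
  rw [ind_pos hσ, one_mul]
  exact hw σ

theorem Zt_cont (T : Trig) (g : ℝ) {N : ℕ} :
    Continuous fun p : (Fin N → ℝ) × (Fin N → ℝ) => Zt T g p.1 p.2 := by
  unfold Zt Zr
  refine continuous_finsetSum _ fun σ _ => continuous_const.mul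
    (continuous_finsetProd _ fun r _ => continuous_finsetProd _ fun s _ => ?_)
  unfold vw
  split_ifs
  · exact T.contS.comp (by fun_prop)
  · exact T.contS.comp (by fun_prop)
  · exact continuous_const

end Pool.Agent.Work.MP_413ea6_mp
end

-- merged part: Pool.Agent.Work.MP_413ea6_mp.IKA
section
open Filter Topology Finset Matrix

namespace Pool.Agent.Work.MP_413ea6_mp

/-! Binary forms in `(C v, S v)`, and Korepin's properties of the partition function. -/

/-- Functions of `v` given by a homogeneous polynomial of degree `d` in `(C v, S v)`. -/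
inductive Form (T : Trig) : ℕ → (ℝ → ℝ) → Prop
  | const (x : ℝ) : Form T 0 fun _ => x
  | zero (d : ℕ) : Form T d fun _ => 0
  | add {d : ℕ} {f h : ℝ → ℝ} : Form T d f → Form T d h → Form T d fun v => f v + h v
  | lin {d : ℕ} {f : ℝ → ℝ} (p q : ℝ) :
      Form T d f → Form T (d + 1) fun v => (p * T.C v + q * T.S v) * f v

theorem IKA_congr {T : Trig} {d : ℕ} {f h : ℝ → ℝ} (hf : Form T d f) (e : ∀ v, h v = f v) :
    Form T d h := by
  rw [funext e]
  exact hf

theorem Form.smul {T : Trig} {d : ℕ} {f : ℝ → ℝ} (h : Form T d f) (x : ℝ) :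
    Form T d fun v => x * f v := by
  induction h with
  | const c => exact Form.const _
  | zero d => exact IKA_congr (Form.zero d) fun _ => mul_zero x
  | add _ _ ih ih' => exact IKA_congr (ih.add ih') fun _ => mul_add _ _ _
  | lin p q _ ih => exact IKA_congr (ih.lin p q) fun _ => by ring

theorem Form.mul {T : Trig} {d d' : ℕ} {f h : ℝ → ℝ} (hf : Form T d f) (hh : Form T d' h) :
    Form T (d + d') fun v => f v * h v := by
  induction hh with
  | const c => exact IKA_congr (hf.smul c) fun _ => mul_comm _ _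
  | zero d => exact IKA_congr (Form.zero _) fun _ => mul_zero _
  | add _ _ ih ih' => exact IKA_congr (ih.add ih') fun _ => mul_add _ _ _
  | lin p q _ ih => exact IKA_congr (ih.lin p q) fun _ => by ring

theorem Form.sum {T : Trig} {d : ℕ} {ι : Type*} (s : Finset ι) {f : ι → ℝ → ℝ}
    (h : ∀ i ∈ s, Form T d (f i)) : Form T d fun v => ∑ i ∈ s, f i v := by
  classical
  induction s using Finset.induction_on with
  | empty => exact Form.zero d
  | insert a s ha ih =>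
    exact IKA_congr ((h a (mem_insert_self a s)).add (ih fun i hi => h i (mem_insert_of_mem hi)))
      fun _ => sum_insert ha

theorem Form.prod {T : Trig} {d : ℕ} {ι : Type*} (s : Finset ι) {f : ι → ℝ → ℝ}
    (h : ∀ i ∈ s, Form T d (f i)) : Form T (s.card * d) fun v => ∏ i ∈ s, f i v := by
  classical
  induction s using Finset.induction_on with
  | empty =>
    rw [card_empty, zero_mul]
    exact Form.const 1
  | insert a s ha ih =>
    rw [card_insert_of_notMem ha, add_mul, one_mul]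
    exact IKA_congr ((ih fun i hi => h i (mem_insert_of_mem hi)).mul (h a (mem_insert_self a s)))
      fun _ => by rw [prod_insert ha, mul_comm]

theorem Form.S_add (T : Trig) (x : ℝ) : Form T 1 fun v => T.S (x + v) := by
  exact IKA_congr ((Form.const 1).lin (T.S x) (T.C x)) fun v => by rw [T.S_add, mul_one]

theorem Form.S_sub (T : Trig) (x : ℝ) : Form T 1 fun v => T.S (x - v) := by
  exact IKA_congr ((Form.const 1).lin (T.S x) (-T.C x)) fun v => by rw [T.S_sub]; ring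

theorem IKA_pow (T : Trig) (x : ℝ) (d : ℕ) : Form T d fun v => T.C (v - x) ^ d := by
  induction d with
  | zero => exact IKA_congr (Form.const 1) fun v => pow_zero _
  | succ d ih =>
    refine IKA_congr (ih.lin (T.C x) (-(T.κ * T.S x))) fun v => ?_
    rw [pow_succ, T.C_sub]
    ring

theorem IKA_dec {T : Trig} {d : ℕ} {f : ℝ → ℝ} (hf : Form T d f) (x : ℝ) :
    ∃ (l : ℝ) (h : ℝ → ℝ), Form T (d - 1) h ∧ (d = 0 → ∀ v, h v = 0) ∧
      ∀ v, f v = l * T.C (v - x) ^ d + T.S (v - x) * h v := by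
  induction hf with
  | const c => exact ⟨c, fun _ => 0, Form.zero _, fun _ _ => rfl, fun v => by ring⟩
  | zero d => exact ⟨0, fun _ => 0, Form.zero _, fun _ _ => rfl, fun v => by ring⟩
  | add _ _ ih ih' =>
    obtain ⟨l, h, h1, h2, h3⟩ := ih
    obtain ⟨l', h', h1', h2', h3'⟩ := ih'
    refine ⟨l + l', fun v => h v + h' v, h1.add h1', fun e v => ?_, fun v => ?_⟩
    · beta_reduce
      rw [h2 e, h2' e, add_zero]
    · beta_reduce
      rw [h3, h3']
      ring
  | @lin d f p q _ ih =>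
    obtain ⟨l, h, h1, h2, h3⟩ := ih
    have h4 : Form T d fun v => (p * T.C v + q * T.S v) * h v := by
      rcases d with _ | d
      · exact IKA_congr (Form.zero 0) fun v => by rw [h2 rfl, mul_zero]
      · exact h1.lin p q
    refine ⟨(p * T.C x + q * T.S x) * l, _,
      ((IKA_pow T x d).smul ((p * (T.κ * T.S x) + q * T.C x) * l)).add h4,
      fun e => absurd e (Nat.succ_ne_zero d), fun v => ?_⟩
    have e1 := T.C_add (v - x) x
    have e2 := T.S_add (v - x) x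
    rw [sub_add_cancel] at e1 e2
    beta_reduce
    rw [h3, e1, e2]
    ring

theorem Form.eq_zero {T : Trig} {d : ℕ} {f : ℝ → ℝ} (h : Form T d f) {ι : Type*} [Fintype ι]
    (hc : d < Fintype.card ι) (x : ι → ℝ) (hx : ∀ i j, i ≠ j → T.S (x i - x j) ≠ 0)
    (h0 : ∀ i, f (x i) = 0) (v : ℝ) : f v = 0 := by
  classical
  induction d generalizing f ι with
  | zero =>
    obtain ⟨i⟩ := Fintype.card_pos_iff.1 hc
    obtain ⟨l, k, -, h2, h3⟩ := IKA_dec h 0
    have h4 := h0 i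
    rw [h3, h2 rfl, pow_zero] at h4 ⊢
    linarith only [h4]
  | succ d ih =>
    obtain ⟨i⟩ := Fintype.card_pos_iff.1 (Nat.zero_lt_of_lt hc)
    obtain ⟨l, k, h1, -, h3⟩ := IKA_dec h (x i)
    have h4 := h0 i
    rw [h3, sub_self, T.C_zero, T.S_zero, one_pow, mul_one, zero_mul, add_zero] at h4
    have h5 := ih h1 (ι := {j // j ≠ i}) (by
        rw [Fintype.card_subtype_compl, Fintype.card_subtype_eq]
        omega) (fun j => x j.1) (fun j j' e => hx _ _ fun e' => e (Subtype.ext e')) fun j => by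
      have h6 := h0 j.1
      rw [h3, h4, zero_mul, zero_add] at h6
      exact (mul_eq_zero.1 h6).resolve_left (hx _ _ j.2)
    rw [h3, h4, h5, zero_mul, mul_zero, add_zero]

/-- The product of the row operators of a list of rows. -/
noncomputable def IKA_P (T : Trig) (g : ℝ) (xs : List ℝ) {n : ℕ} (v : Fin n → ℝ) :
    Matrix (St n) (St n) ℝ := (xs.map fun x => Bt T g x v).prod

/-- Thin edge in, thin edge out. -/
noncomputable def IKA_A (T : Trig) (g x : ℝ) {n : ℕ} (v : Fin n → ℝ) (α β : St n) : ℝ :=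
  Tr (fun r => T.S (g - (x + v r))) (fun r => T.S (x + v r)) (T.S g) α β false false

theorem IKA_Zt (T : Trig) (g : ℝ) {n : ℕ} (u v : Fin n → ℝ) :
    Zt T g u v = IKA_P T g (List.ofFn u) v (fun _ => false) fun _ => true := by
  rw [Zt_eq_prod, IKA_P, List.map_ofFn]
  rfl

theorem IKA_sum {n : ℕ} (f : St (n + 1) → ℝ) :
    ∑ γ, f γ = ∑ γ : St n, f (Fin.cons true γ) + ∑ γ : St n, f (Fin.cons false γ) := by
  rw [← (Fin.consEquiv fun _ : Fin (n + 1) => Bool).sum_comp, Fintype.sum_prod_type,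
    Fintype.sum_bool]
  rfl

theorem IKA_const {n : ℕ} (b : Bool) :
    (fun _ => b : St (n + 1)) = Fin.cons b fun _ => b := by
  funext i
  refine Fin.cases rfl (fun _ => rfl) i

theorem IKA_B (T : Trig) (g x y : ℝ) {n : ℕ} (v : Fin n → ℝ) (s t : Bool) (α β : St n) :
    Bt T g x (Fin.cons y v) (Fin.cons s α) (Fin.cons t β) =
      Lw (T.S (g - (x + y))) (T.S (x + y)) (T.S g) true s true t * Bt T g x v α β +
      Lw (T.S (g - (x + y))) (T.S (x + y)) (T.S g) true s false t * IKA_A T g x v α β := by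
  rw [Bt, Bop, Matrix.of_apply, Tr_succ, Matrix.mul_apply, Fintype.sum_bool]
  rfl

theorem IKA_tt (T : Trig) (g y : ℝ) {n : ℕ} (v : Fin n → ℝ) (xs : List ℝ) (α β : St n) :
    IKA_P T g xs (Fin.cons y v) (Fin.cons true α) (Fin.cons true β) =
      (xs.map fun x => T.S (g - (x + y))).prod * IKA_P T g xs v α β := by
  induction xs generalizing α with
  | nil => simp [IKA_P, Matrix.one_apply]
  | cons x xs ih =>
    simp only [IKA_P, List.map_cons, List.prod_cons, Matrix.mul_apply] at ih ⊢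
    rw [IKA_sum]
    simp only [IKA_B, Lw, ih, zero_mul, add_zero, sum_const_zero, mul_sum]
    exact sum_congr rfl fun γ _ => by ring

theorem IKA_ft (T : Trig) (g y x : ℝ) {n : ℕ} (v : Fin n → ℝ) (xs : List ℝ) (α β : St n) :
    IKA_P T g (x :: xs) (Fin.cons y v) (Fin.cons false α) (Fin.cons true β) =
      (T.S g * ∑ γ, IKA_A T g x v α γ * IKA_P T g xs v γ β) *
        (xs.map fun x => T.S (g - (x + y))).prod +
      T.S (x + y) * ∑ γ, Bt T g x v α γ *
        IKA_P T g xs (Fin.cons y v) (Fin.cons false γ) (Fin.cons true β) := by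
  have e : IKA_P T g (x :: xs) (Fin.cons y v) = Bt T g x (Fin.cons y v) *
    IKA_P T g xs (Fin.cons y v) := by rw [IKA_P, List.map_cons, List.prod_cons, IKA_P]
  rw [e, Matrix.mul_apply, IKA_sum]
  simp only [IKA_B, Lw, IKA_tt, zero_mul, add_zero, zero_add, mul_sum, sum_mul]
  exact congrArg₂ _ (sum_congr rfl fun γ _ => by ring) (sum_congr rfl fun γ _ => by ring)

theorem IKA_lst (T : Trig) (g : ℝ) (xs : List ℝ) :
    Form T xs.length fun y => (xs.map fun x => T.S (g - (x + y))).prod := by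
  induction xs with
  | nil => exact Form.const 1
  | cons x xs ih =>
    refine IKA_congr (ih.mul (Form.S_sub T (g - x))) fun y => ?_
    rw [List.map_cons, List.prod_cons, mul_comm, sub_sub]

theorem IKA_form (T : Trig) (g : ℝ) {n : ℕ} (v : Fin n → ℝ) (xs : List ℝ) (x : ℝ) (α β : St n) :
    Form T xs.length fun y =>
      IKA_P T g (x :: xs) (Fin.cons y v) (Fin.cons false α) (Fin.cons true β) := by
  induction xs generalizing x α with
  | nil =>
    refine IKA_congr ((IKA_lst T g []).smul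
      (T.S g * ∑ γ, IKA_A T g x v α γ * IKA_P T g [] v γ β))
      fun y => (IKA_ft T g y x v [] α β).trans ?_
    simp [IKA_P, Matrix.one_apply]
  | cons x' xs ih =>
    refine IKA_congr (((IKA_lst T g (x' :: xs)).smul
      (T.S g * ∑ γ, IKA_A T g x v α γ * IKA_P T g (x' :: xs) v γ β)).add
      ((Form.sum univ fun γ _ => (ih x' γ).smul (Bt T g x v α γ)).mul (Form.S_add T x)))
      fun y => (IKA_ft T g y x v _ α β).trans ?_
    rw [mul_comm (T.S (x + y))]

theorem IKA_empty {n : ℕ} (A B : Fin n → ℝ) (c : ℝ) (β : St n) :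
    Tr A B c (fun _ => false) β false false = if β = fun _ => false then ∏ r, A r else 0 := by
  induction n with
  | zero => rw [Tr_zero, if_pos (Subsingleton.elim _ _)]; simp
  | succ n ih =>
    have e : Fin.tail (fun _ => false : St (n + 1)) = fun _ => false := rfl
    rw [Tr_succ, Matrix.mul_apply, Fintype.sum_bool, e, ih, Fin.prod_univ_succ,
      ← Fin.cons_self_tail β, IKA_const]
    simp only [Fin.cons_inj, Fin.cons_zero, Fin.tail_cons]
    cases β 0 <;> simp [Mx, Lw, Fin.tail]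

theorem Zt_form (T : Trig) (g : ℝ) {n : ℕ} (u : Fin (n + 1) → ℝ) (v : Fin n → ℝ) :
    Form T n fun y => Zt T g u (Fin.cons y v) := by
  have h := IKA_form T g v (List.ofFn fun i => u i.succ) (u 0) (fun _ => false) fun _ => true
  rw [List.length_ofFn] at h
  refine IKA_congr h fun y => ?_
  rw [IKA_Zt, List.ofFn_succ, IKA_const, IKA_const]

theorem Zt_rec (T : Trig) (g : ℝ) {n : ℕ} (x : ℝ) (u v : Fin n → ℝ) :
    Zt T g (Fin.cons x u) (Fin.cons (-x) v) =
      T.S g * (∏ s, T.S (g - (u s + -x))) * (∏ r, T.S (g - (x + v r))) * Zt T g u v := by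
  rw [IKA_Zt, IKA_Zt, List.ofFn_succ, IKA_const, IKA_const]
  simp only [Fin.cons_zero, Fin.cons_succ]
  rw [IKA_ft, add_neg_cancel, T.S_zero, zero_mul, add_zero, List.map_ofFn, List.prod_ofFn]
  simp only [IKA_A, IKA_empty, ite_mul, zero_mul, sum_ite_eq', mem_univ, if_true,
    Function.comp_apply]
  ring

theorem Zt_perm (T : Trig) (g : ℝ) {n : ℕ} (u v : Fin n → ℝ) (π : Equiv.Perm (Fin n)) :
    Zt T g (u ∘ π) v = Zt T g u v := by
  rw [Zt_eq_prod, Zt_eq_prod]
  have h := (Equiv.Perm.ofFn_comp_perm π fun s => Bt T g (u s) v).prod_eq' (by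
    rw [List.pairwise_ofFn]
    exact fun i j _ => Bt_comm T g _ _ v)
  exact congrFun (congrFun h _) _

end Pool.Agent.Work.MP_413ea6_mp
end

-- merged part: Pool.Agent.Work.MP_413ea6_mp.IK
section
open Filter Topology Finset Matrix

namespace Pool.Agent.Work.MP_413ea6_mp

/-! The Izergin-Korepin determinant. -/

/-- The matrix of the polynomial form. -/
noncomputable def IK_M (T : Trig) (g : ℝ) {N : ℕ} (u v : Fin N → ℝ) : Matrix (Fin N) (Fin N) ℝ :=
  Matrix.of fun s r => ∏ s' ∈ univ.erase s, (T.S (g - (u s' + v r)) * T.S (u s' + v r))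

/-- The trigonometric Vandermonde product. -/
noncomputable def IK_D (T : Trig) {N : ℕ} (u : Fin N → ℝ) : ℝ :=
  ∏ i, ∏ j ∈ Ioi i, T.S (u j - u i)

/-- The identity. -/
def IK_P (T : Trig) (g : ℝ) {N : ℕ} (u v : Fin N → ℝ) : Prop :=
  Zt T g u v * (IK_D T u * IK_D T v) = T.S g ^ N * (IK_M T g u v).det

theorem IK_D_cons (T : Trig) {n : ℕ} (y : ℝ) (v : Fin n → ℝ) :
    IK_D T (Fin.cons y v : Fin (n + 1) → ℝ) = (∏ j, T.S (v j - y)) * IK_D T v := by
  simp only [IK_D, Fin.prod_univ_succ, Fin.prod_Ioi_zero, Fin.prod_Ioi_succ, Fin.cons_zero,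
    Fin.cons_succ]

theorem IK_perm (T : Trig) (g : ℝ) {N : ℕ} (u v : Fin N → ℝ) (π : Equiv.Perm (Fin N))
    (h : IK_P T g (u ∘ π) v) : IK_P T g u v := by
  have h1 : IK_D T (u ∘ π) = (Equiv.Perm.sign π : ℤ) * IK_D T u :=
    π.prod_Ioi_comp_eq_sign_mul_prod (f := fun i j => T.S (u j - u i)) fun i j => by
      rw [← T.S_neg, neg_sub]
  have h2 : IK_M T g (u ∘ π) v = (IK_M T g u v).submatrix π id := by
    ext s r
    simp only [IK_M, submatrix_apply, of_apply]
    exact Finset.prod_equiv π (by simp) fun _ _ => rfl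
  have h3 : ((Equiv.Perm.sign π : ℤ) : ℝ) ≠ 0 := by
    exact_mod_cast (Equiv.Perm.sign π).ne_zero
  rw [IK_P, h1, h2, det_permute, Zt_perm] at h
  refine mul_left_cancel₀ h3 ?_
  linear_combination h

theorem IK_erase {n : ℕ} (f : Fin n → ℝ) (s : Fin n) :
    ∏ s' ∈ univ.erase s, f s' = ∏ s', if s' = s then 1 else f s' := by
  rw [← filter_ne', prod_filter]
  exact prod_congr rfl fun _ _ => ite_not _ _ _

theorem IK_erase_zero {n : ℕ} (f : Fin (n + 1) → ℝ) :
    ∏ s' ∈ univ.erase 0, f s' = ∏ s : Fin n, f s.succ := by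
  simp [IK_erase, Fin.prod_univ_succ]

theorem IK_erase_succ {n : ℕ} (f : Fin (n + 1) → ℝ) (s : Fin n) :
    ∏ s' ∈ univ.erase s.succ, f s' = f 0 * ∏ s' ∈ univ.erase s, f s'.succ := by
  rw [IK_erase, IK_erase, Fin.prod_univ_succ, if_neg (Fin.succ_ne_zero s).symm]
  simp only [Fin.succ_inj]

theorem IK_base (T : Trig) (g : ℝ) {n : ℕ} (x : ℝ) (u v : Fin n → ℝ) (h : IK_P T g u v) :
    IK_P T g (Fin.cons x u : Fin (n + 1) → ℝ) (Fin.cons (-x) v) := by
  have h1 : (IK_M T g (Fin.cons x u : Fin (n + 1) → ℝ) (Fin.cons (-x) v)).submatrix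
      (Fin.succAbove 0) Fin.succ =
      Matrix.of fun s r => (T.S (g - (x + v r)) * T.S (x + v r)) * IK_M T g u v s r := by
    ext s r
    simp only [IK_M, submatrix_apply, of_apply, Fin.succAbove_zero, IK_erase_succ, Fin.cons_zero,
      Fin.cons_succ]
  have h2 : ∀ s : Fin n,
      IK_M T g (Fin.cons x u : Fin (n + 1) → ℝ) (Fin.cons (-x) v) s.succ 0 = 0 := by
    intro s
    simp only [IK_M, of_apply, IK_erase_succ, Fin.cons_zero, add_neg_cancel, T.S_zero, mul_zero,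
      zero_mul]
  have h3 : IK_M T g (Fin.cons x u : Fin (n + 1) → ℝ) (Fin.cons (-x) v) 0 0 =
      (∏ s, T.S (g - (u s + -x))) * ∏ s, T.S (u s - x) := by
    simp only [IK_M, of_apply, IK_erase_zero, Fin.cons_zero, Fin.cons_succ, prod_mul_distrib,
      sub_eq_add_neg]
  have h4 : ∏ r, T.S (v r - -x) = ∏ r, T.S (x + v r) :=
    prod_congr rfl fun r _ => by rw [sub_neg_eq_add, add_comm]
  rw [IK_P] at h ⊢
  rw [det_succ_column_zero, Fin.sum_univ_succ, h1, det_mul_row, h3, Zt_rec, IK_D_cons, IK_D_cons,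
    h4, prod_mul_distrib]
  simp only [h2, mul_zero, zero_mul, sum_const_zero, add_zero, Fin.val_zero, pow_zero, one_mul]
  linear_combination (T.S g * (∏ s, T.S (g - (u s + -x))) * (∏ r, T.S (g - (x + v r))) *
    (∏ s, T.S (u s - x)) * ∏ r, T.S (x + v r)) * h

theorem IK_congr {T : Trig} {d d' : ℕ} {f f' : ℝ → ℝ} (h : Form T d f) (hd : d = d')
    (e : ∀ v, f v = f' v) : Form T d' f' :=
  hd ▸ funext e ▸ h

theorem IK_form (T : Trig) (g : ℝ) {n : ℕ} (u : Fin (n + 1) → ℝ) (v : Fin n → ℝ) :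
    Form T (n + n) fun y =>
      Zt T g u (Fin.cons y v) * (IK_D T u * IK_D T (Fin.cons y v : Fin (n + 1) → ℝ)) -
        T.S g ^ (n + 1) * (IK_M T g u (Fin.cons y v)).det := by
  have h1 := ((Zt_form T g u v).mul
    (Form.prod univ fun j _ => Form.S_sub T (v j))).smul (IK_D T u * IK_D T v)
  have h2 : ∀ i : Fin (n + 1), Form T (n + n) fun y => IK_M T g u (Fin.cons y v) i 0 := by
    intro i
    refine IK_congr (Form.prod (univ.erase i) fun s _ =>
      (Form.S_sub T (g - u s)).mul (Form.S_add T (u s))) ?_ fun y => ?_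
    · rw [card_erase_of_mem (mem_univ i), card_univ, Fintype.card_fin]
      omega
    · simp only [IK_M, of_apply, Fin.cons_zero, sub_sub]
  have h3 := (Form.sum univ fun (i : Fin (n + 1)) _ => (h2 i).smul ((-1) ^ (i : ℕ) *
    ((IK_M T g u (Fin.cons 0 v)).submatrix i.succAbove Fin.succ).det)).smul (-T.S g ^ (n + 1))
  refine IK_congr ((IK_congr h1 (by simp) fun _ => rfl).add h3) rfl fun y => ?_
  rw [IK_D_cons, det_succ_column_zero]
  have e : ∀ i : Fin (n + 1), (IK_M T g u (Fin.cons y v)).submatrix i.succAbove Fin.succ =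
      (IK_M T g u (Fin.cons 0 v)).submatrix i.succAbove Fin.succ := fun _ => rfl
  simp only [e, mul_right_comm _ (IK_M T g u (Fin.cons y v) _ 0)]
  ring

theorem IK_main (T : Trig) (g : ℝ) {N : ℕ} (u v : Fin N → ℝ)
    (hu : ∀ i j, i ≠ j → T.S (u i - u j) ≠ 0) (hv : ∀ i j, i ≠ j → T.S (v i - v j) ≠ 0)
    (huv : ∀ i j, T.S (u i + v j) ≠ 0) : IK_P T g u v := by
  induction N with
  | zero => simp [IK_P, IK_D, Zt_eq_prod, Subsingleton.elim _ fun _ => true]
  | succ n ih =>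
    have hv' : ∀ i j, i ≠ j → T.S (Fin.tail v i - Fin.tail v j) ≠ 0 := fun i j h =>
      hv _ _ fun e => h (Fin.succ_injective _ e)
    have key := (IK_form T g u (Fin.tail v)).eq_zero (ι := Fin n ⊕ Fin (n + 1)) (by simp)
      (Sum.elim (Fin.tail v) fun j => -u j) ?_ ?_ (v 0)
    · rw [Fin.cons_self_tail] at key
      exact sub_eq_zero.1 key
    · rintro (i | i) (j | j) h <;> simp only [Sum.elim_inl, Sum.elim_inr]
      · exact hv' i j fun e => h (congrArg _ e)
      · rw [sub_neg_eq_add, add_comm]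
        exact huv _ _
      · rw [← neg_add', T.S_neg, neg_ne_zero]
        exact huv _ _
      · rw [neg_sub_neg]
        exact hu j i fun e => h (congrArg _ e.symm)
    · rintro (k | j) <;> simp only [Sum.elim_inl, Sum.elim_inr]
      · rw [IK_D_cons, prod_eq_zero (mem_univ k) (by rw [sub_self, T.S_zero]),
          det_zero_of_column_eq (Fin.succ_ne_zero k) fun _ => rfl]
        simp
      · refine sub_eq_zero.2 (IK_perm T g u _ (Equiv.swap 0 j) ?_)
        have h := IK_base T g (u j) (Fin.tail (u ∘ Equiv.swap 0 j)) (Fin.tail v)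
          (ih _ _ (fun a b h => hu _ _ fun e =>
            h (Fin.succ_injective _ ((Equiv.swap 0 j).injective e))) hv' fun a b => huv _ _)
        have e : u j = (u ∘ Equiv.swap 0 j) 0 := by simp
        rwa [e, Fin.cons_self_tail, ← e] at h

theorem ik_poly (T : Trig) (g : ℝ) {N : ℕ} (u v : Fin N → ℝ)
    (hu : ∀ i j, i ≠ j → T.S (u i - u j) ≠ 0) (hv : ∀ i j, i ≠ j → T.S (v i - v j) ≠ 0)
    (huv : ∀ i j, T.S (u i + v j) ≠ 0) :
    Zt T g u v * ∏ i, ∏ j ∈ Ioi i, (T.S (u j - u i) * T.S (v j - v i)) =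
      T.S g ^ N * (Matrix.of fun s r => ∏ s' ∈ univ.erase s,
        (T.S (g - (u s' + v r)) * T.S (u s' + v r))).det := by
  simp only [prod_mul_distrib (f := fun j => T.S (u j - _)), prod_mul_distrib]
  have h := IK_main T g u v hu hv huv
  simp only [IK_P, IK_D, IK_M, prod_mul_distrib] at h
  exact h

theorem ik_det (T : Trig) (g : ℝ) {N : ℕ} (u v : Fin N → ℝ)
    (hu : ∀ i j, i ≠ j → T.S (u i - u j) ≠ 0) (hv : ∀ i j, i ≠ j → T.S (v i - v j) ≠ 0)
    (huv : ∀ i j, T.S (u i + v j) ≠ 0) (ha : ∀ i j, T.S (g - (u i + v j)) ≠ 0) :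
    Zt T g u v * ∏ i, ∏ j ∈ Ioi i, (T.S (u j - u i) * T.S (v j - v i)) =
      (∏ i, ∏ j, (T.S (g - (u i + v j)) * T.S (u i + v j))) *
        (Matrix.of fun i j => T.S g / (T.S (g - (u i + v j)) * T.S (u i + v j))).det := by
  have e : T.S g ^ N = T.S g ^ Fintype.card (Fin N) := by rw [Fintype.card_fin]
  rw [ik_poly T g u v hu hv huv, Finset.prod_comm, ← det_mul_row, e, ← det_smul]
  congr 1
  ext s r
  have h := mul_ne_zero (ha s r) (huv s r)
  simp only [Matrix.smul_apply, of_apply, smul_eq_mul]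
  rw [← mul_prod_erase univ _ (mem_univ s), mul_right_comm, mul_div_cancel₀ _ h]

end Pool.Agent.Work.MP_413ea6_mp
end

-- merged part: Pool.Agent.Work.MP_413ea6_mp.Frob
section
open Filter Topology Finset MeasureTheory

namespace Pool.Agent.Work.MP_413ea6_mp

/-! The Cauchy-Frobenius determinant, and the Desnanot-Jacobi identity. -/

theorem Frob_col {R : Type*} [CommRing R] {n : ℕ} (A : Matrix (Fin (n + 1)) (Fin (n + 1)) R)
    (h : ∀ i : Fin n, A i.succ 0 = 0) :
    A.det = A 0 0 * (A.submatrix Fin.succ Fin.succ).det := by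
  rw [Matrix.det_succ_column_zero, Fin.sum_univ_succ]
  simp [h]

theorem Frob_row {R : Type*} [CommRing R] {n : ℕ} (A : Matrix (Fin (n + 1)) (Fin (n + 1)) R)
    (h : ∀ i : Fin n, A 0 i.succ = 0) :
    A.det = A 0 0 * (A.submatrix Fin.succ Fin.succ).det := by
  rw [Matrix.det_succ_row_zero, Fin.sum_univ_succ]
  simp [h]

theorem Frob_pivot {n : ℕ} (M : Matrix (Fin (n + 1)) (Fin (n + 1)) ℝ) (h : M 0 0 ≠ 0) :
    M.det = M 0 0 * (Matrix.of fun i j : Fin n =>
      M i.succ j.succ - M i.succ 0 * M 0 j.succ / M 0 0).det := by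
  let c : Fin (n + 1) → ℝ := Fin.cons 0 fun i => -(M i.succ 0 / M 0 0)
  let A : Matrix (Fin (n + 1)) (Fin (n + 1)) ℝ := Matrix.of fun i j => M i j + c i * M 0 j
  have h1 : A.det = M.det :=
    Matrix.det_eq_of_forall_row_eq_smul_add_const c 0 (by simp [c]) fun i j => rfl
  rw [← h1, Frob_col A]
  · congr 1
    · simp [A, c]
    · congr 1
      ext i j
      simp only [A, c, Matrix.submatrix_apply, Matrix.of_apply, Fin.cons_succ]
      ring
  · intro i
    simp only [A, c, Matrix.of_apply, Fin.cons_succ]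
    field_simp
    ring

theorem frobenius {τ σ : ℝ → ℝ} (H : Fay τ σ) (hτ : ∀ x, τ x ≠ 0) {n : ℕ} (s : ℝ)
    (u v : Fin n → ℝ) (h : ∀ i j, σ (u i + v j) ≠ 0) :
    τ s * (Matrix.of fun i j => τ (s + u i + v j) / σ (u i + v j)).det *
        ∏ i, ∏ j, σ (u i + v j) =
      τ s ^ n * τ (s + ∑ i, u i + ∑ j, v j) *
        ∏ i, ∏ j ∈ Ioi i, (σ (u j - u i) * σ (v j - v i)) := by
  induction n generalizing s with
  | zero => simp
  | succ n ih =>
    have IH := ih (s + u 0 + v 0) (fun i => u i.succ) (fun j => v j.succ)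
      (fun i j => h i.succ j.succ)
    have hp : (Matrix.of fun i j => τ (s + u i + v j) / σ (u i + v j) :
        Matrix (Fin (n + 1)) (Fin (n + 1)) ℝ) 0 0 ≠ 0 := by
      simp only [Matrix.of_apply]
      exact div_ne_zero (hτ _) (h 0 0)
    rw [Frob_pivot _ hp]
    simp only [Matrix.of_apply]
    have hE : (Matrix.of fun i j : Fin n =>
        τ (s + u i.succ + v j.succ) / σ (u i.succ + v j.succ) -
          τ (s + u i.succ + v 0) / σ (u i.succ + v 0) *
            (τ (s + u 0 + v j.succ) / σ (u 0 + v j.succ)) /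
              (τ (s + u 0 + v 0) / σ (u 0 + v 0))) =
        Matrix.of fun i j : Fin n =>
          (τ s / τ (s + u 0 + v 0) * (σ (u i.succ - u 0) / σ (u i.succ + v 0))) *
            (Matrix.of fun i j : Fin n => (σ (v j.succ - v 0) / σ (u 0 + v j.succ)) *
              (Matrix.of fun i j : Fin n => τ (s + u 0 + v 0 + u i.succ + v j.succ) /
                σ (u i.succ + v j.succ)) i j) i j := by
      ext i j
      simp only [Matrix.of_apply]
      have F := H s (u 0) (v 0) (u i.succ) (v j.succ)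
      have a1 := h i.succ j.succ
      have a2 := h i.succ 0
      have a3 := h 0 j.succ
      have a4 := h 0 0
      have a5 := hτ (s + u 0 + v 0)
      field_simp
      linear_combination F
    rw [hE, Matrix.det_mul_column, Matrix.det_mul_row]
    simp only [Fin.prod_univ_succ, Fin.sum_univ_succ, Fin.prod_Ioi_zero, Fin.prod_Ioi_succ,
      Finset.prod_mul_distrib, Finset.prod_const, Finset.card_univ, Fintype.card_fin,
      Finset.prod_div_distrib] at IH ⊢
    have e : s + (u 0 + ∑ i : Fin n, u i.succ) + (v 0 + ∑ i : Fin n, v i.succ) =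
        s + u 0 + v 0 + ∑ i : Fin n, u i.succ + ∑ i : Fin n, v i.succ := by ring
    rw [e]
    have b1 : ∏ i : Fin n, σ (u i.succ + v 0) ≠ 0 :=
      Finset.prod_ne_zero_iff.2 fun i _ => h i.succ 0
    have b2 : ∏ j : Fin n, σ (u 0 + v j.succ) ≠ 0 :=
      Finset.prod_ne_zero_iff.2 fun j _ => h 0 j.succ
    have a4 := h 0 0
    have a5 := hτ (s + u 0 + v 0)
    have a6 : τ (s + u 0 + v 0) ^ n ≠ 0 := pow_ne_zero _ a5
    generalize (Matrix.of fun i j : Fin n => τ (s + u 0 + v 0 + u i.succ + v j.succ) /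
                σ (u i.succ + v j.succ)).det = D at IH ⊢
    rw [div_pow]
    field_simp
    linear_combination (τ s ^ (n + 1) * (∏ i : Fin n, σ (u i.succ - u 0)) *
      ∏ i : Fin n, σ (v i.succ - v 0)) * IH

theorem Frob_dj {R : Type*} [CommRing R] {n : ℕ} (M : Matrix (Fin (n + 2)) (Fin (n + 2)) R) :
    M.det * (M.det *
      (M.submatrix (fun i : Fin n => i.succ.succ) (fun i : Fin n => i.succ.succ)).det) =
      M.det * ((M.submatrix Fin.succ Fin.succ).det *
          (M.submatrix (Fin.succAbove 1) (Fin.succAbove 1)).det -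
        (M.submatrix Fin.succ (Fin.succAbove 1)).det *
          (M.submatrix (Fin.succAbove 1) Fin.succ).det) := by
  let N : Matrix (Fin (n + 2)) (Fin (n + 2)) R := Matrix.of fun i j =>
    if j = 0 ∨ j = 1 then M.adjugate i j else (1 : Matrix (Fin (n + 2)) (Fin (n + 2)) R) i j
  have hN0 : ∀ i, N i 0 = M.adjugate i 0 := fun i => by simp [N]
  have hN1 : ∀ i, N i 1 = M.adjugate i 1 := fun i => by simp [N]
  have hN2 : ∀ i (j : Fin n), N i j.succ.succ =
      (1 : Matrix (Fin (n + 2)) (Fin (n + 2)) R) i j.succ.succ := fun i j => by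
    have h0 : j.succ.succ ≠ 0 := Fin.succ_ne_zero _
    have h1 : j.succ.succ ≠ 1 := Fin.succ_succ_ne_one _
    simp [N, h0, h1]
  have hP0 : ∀ i, (M * N) i 0 = (M.det • (1 : Matrix (Fin (n + 2)) (Fin (n + 2)) R)) i 0 :=
    fun i => by
      rw [← Matrix.mul_adjugate]
      simp only [Matrix.mul_apply, hN0]
  have hP1 : ∀ i, (M * N) i 1 = (M.det • (1 : Matrix (Fin (n + 2)) (Fin (n + 2)) R)) i 1 :=
    fun i => by
      rw [← Matrix.mul_adjugate]
      simp only [Matrix.mul_apply, hN1]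
  have hP2 : ∀ i (j : Fin n), (M * N) i j.succ.succ = M i j.succ.succ := fun i j => by
    conv_rhs => rw [← Matrix.mul_one M]
    simp only [Matrix.mul_apply, hN2]
  have h1 : (M * N).det = M.det * (M.det *
      (M.submatrix (fun i : Fin n => i.succ.succ) (fun i : Fin n => i.succ.succ)).det) := by
    rw [Frob_col (M * N)]
    · rw [hP0, Frob_col ((M * N).submatrix Fin.succ Fin.succ)]
      · congr 1
        · simp
        · congr 1
          · simp only [Matrix.submatrix_apply, Fin.succ_zero_eq_one, hP1]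
            simp
          · congr 1
            ext i j
            simp only [Matrix.submatrix_apply, hP2]
      · intro i
        have h1 : i.succ.succ ≠ 1 := Fin.succ_succ_ne_one _
        simp only [Matrix.submatrix_apply, Fin.succ_zero_eq_one, hP1]
        simp [h1]
    · intro i
      rw [hP0]
      simp [Fin.succ_ne_zero]
  have hI : (N.submatrix (fun i : Fin n => i.succ.succ) (fun i : Fin n => i.succ.succ)) = 1 := by
    ext i j
    simp only [Matrix.submatrix_apply, hN2, Matrix.one_apply, Fin.succ_inj]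
  have h2 : N.det = M.adjugate 0 0 * M.adjugate 1 1 - M.adjugate 0 1 * M.adjugate 1 0 := by
    rw [Matrix.det_succ_row_zero, Fin.sum_univ_succ, Fin.sum_univ_succ]
    have z : ∀ j : Fin n, N 0 j.succ.succ = 0 := fun j => by
      rw [hN2, Matrix.one_apply_ne (Fin.succ_ne_zero _).symm]
    have z1 : ∀ j : Fin n, N 1 j.succ.succ = 0 := fun j => by
      rw [hN2, Matrix.one_apply_ne (Fin.succ_succ_ne_one _).symm]
    have d0 : (N.submatrix Fin.succ (Fin.succAbove 0)).det = M.adjugate 1 1 := by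
      rw [Frob_row]
      · have : (N.submatrix Fin.succ (Fin.succAbove 0)).submatrix Fin.succ Fin.succ = 1 := by
          rw [← hI]; ext i j; simp
        rw [this]
        simp [hN1]
      · intro i
        simp [z1]
    have d1 : (N.submatrix Fin.succ (Fin.succAbove 1)).det = M.adjugate 1 0 := by
      rw [Frob_row]
      · have : (N.submatrix Fin.succ (Fin.succAbove 1)).submatrix Fin.succ Fin.succ = 1 := by
          rw [← hI]; ext i j; simp
        rw [this]
        simp [hN0]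
      · intro i
        simp [z1]
    simp only [z, Fin.succ_zero_eq_one, d0, d1, hN0, hN1]
    simp
    ring
  rw [← h1, Matrix.det_mul, h2]
  simp only [Matrix.adjugate_fin_succ_eq_det_submatrix]
  simp
  ring

theorem desnanot {n : ℕ} (M : Matrix (Fin (n + 2)) (Fin (n + 2)) ℝ) :
    M.det * (M.submatrix (fun i : Fin n => i.succ.succ) (fun i : Fin n => i.succ.succ)).det =
      (M.submatrix Fin.succ Fin.succ).det *
          (M.submatrix (Fin.succAbove 1) (Fin.succAbove 1)).det -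
        (M.submatrix Fin.succ (Fin.succAbove 1)).det *
          (M.submatrix (Fin.succAbove 1) Fin.succ).det := by
  have h := mul_left_cancel₀ (Matrix.det_mvPolynomialX_ne_zero (Fin (n + 2)) ℝ)
    (Frob_dj (Matrix.mvPolynomialX (Fin (n + 2)) (Fin (n + 2)) ℝ))
  have h2 := congrArg (MvPolynomial.eval fun p : Fin (n + 2) × Fin (n + 2) => M p.1 p.2) h
  simp only [map_mul, map_sub, RingHom.map_det] at h2
  have e : ∀ {k : ℕ} (f g : Fin k → Fin (n + 2)),
      (MvPolynomial.eval fun p : Fin (n + 2) × Fin (n + 2) => M p.1 p.2).mapMatrix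
        ((Matrix.mvPolynomialX (Fin (n + 2)) (Fin (n + 2)) ℝ).submatrix f g) =
        M.submatrix f g := by
    intro k f g
    ext i j
    simp
  rw [Matrix.mvPolynomialX_mapMatrix_eval, e, e, e, e, e] at h2
  exact h2

end Pool.Agent.Work.MP_413ea6_mp
end

-- merged part: Pool.Agent.Work.MP_413ea6_mp.DJ
section
open Filter Topology Finset Matrix

namespace Pool.Agent.Work.MP_413ea6_mp

/-! The bilinear identity for the partition functions with one special row and column. -/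

theorem DJ_sp_zero (n : ℕ) (ξ : ℝ) : sp n ξ 0 = ξ := rfl

theorem DJ_sp_succ (n : ℕ) (ξ : ℝ) (i : Fin n) : sp n ξ i.succ = 0 := rfl

theorem DJ_sp0 (n : ℕ) (i : Fin (n + 1)) : sp n 0 i = 0 := by
  induction i using Fin.cases <;> rfl

theorem DJ_sp_above (n : ℕ) (ξ : ℝ) (i : Fin (n + 1)) :
    sp (n + 1) ξ (Fin.succAbove 1 i) = sp n ξ i := by
  induction i using Fin.cases with
  | zero => rfl
  | succ i => rw [Fin.one_succAbove_succ, DJ_sp_succ, DJ_sp_succ]

theorem Zs_zero (T : Trig) (g u0 : ℝ) (n : ℕ) : Zs T g u0 n 0 0 = Zh T g u0 (n + 1) := by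
  simp only [Zs, Zh, DJ_sp0, add_zero, funext (DJ_sp0 n)]

/-- The product of the differences. -/
noncomputable def DJ_W (T : Trig) {N : ℕ} (u : Fin N → ℝ) : ℝ :=
  ∏ i, ∏ j ∈ Ioi i, T.S (u j - u i)

/-- The product of the weights `a` and `b`. -/
noncomputable def DJ_ab (T : Trig) (g w : ℝ) : ℝ := T.S (g - w) * T.S w

/-- The product of all `a b`. -/
noncomputable def DJ_P (T : Trig) (g : ℝ) {N : ℕ} (u v : Fin N → ℝ) : ℝ :=
  ∏ i, ∏ j, DJ_ab T g (u i + v j)

/-- The matrix of the determinant formula. -/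
noncomputable def DJ_M (T : Trig) (g : ℝ) {N : ℕ} (u v : Fin N → ℝ) : Matrix (Fin N) (Fin N) ℝ :=
  Matrix.of fun i j => T.S g / DJ_ab T g (u i + v j)

/-- Generic nodes. -/
structure DJ_ok (T : Trig) (g : ℝ) {N : ℕ} (u v : Fin N → ℝ) : Prop where
  hu : ∀ i j, i ≠ j → T.S (u i - u j) ≠ 0
  hv : ∀ i j, i ≠ j → T.S (v i - v j) ≠ 0
  hb : ∀ i j, T.S (u i + v j) ≠ 0
  ha : ∀ i j, T.S (g - (u i + v j)) ≠ 0

theorem DJ_ik {T : Trig} {g : ℝ} {N m : ℕ} {u v : Fin N → ℝ} (h : DJ_ok T g u v)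
    {f f' : Fin m → Fin N} (hf : Function.Injective f) (hf' : Function.Injective f') :
    Zt T g (u ∘ f) (v ∘ f') * (DJ_W T (u ∘ f) * DJ_W T (v ∘ f')) =
      DJ_P T g (u ∘ f) (v ∘ f') * ((DJ_M T g u v).submatrix f f').det := by
  have := ik_det T g (u ∘ f) (v ∘ f') (fun i j hij => h.hu _ _ (hf.ne hij))
    (fun i j hij => h.hv _ _ (hf'.ne hij)) (fun i j => h.hb _ _) fun i j => h.ha _ _
  simp only [prod_mul_distrib (s := Ioi _)] at this
  rw [prod_mul_distrib] at this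
  exact this

theorem DJ_W_ne {T : Trig} {N m : ℕ} {u : Fin N → ℝ} (h : ∀ i j, i ≠ j → T.S (u i - u j) ≠ 0)
    {f : Fin m → Fin N} (hf : Function.Injective f) : DJ_W T (u ∘ f) ≠ 0 :=
  prod_ne_zero_iff.2 fun _ _ => prod_ne_zero_iff.2 fun _ hj => h _ _ (hf.ne (mem_Ioi.1 hj).ne')

theorem DJ_W_succ (T : Trig) {n : ℕ} (u : Fin (n + 1) → ℝ) :
    DJ_W T u = (∏ j : Fin n, T.S (u j.succ - u 0)) * DJ_W T (u ∘ Fin.succ) := by
  simp only [DJ_W, Fin.prod_univ_succ, Fin.prod_Ioi_zero, Fin.prod_Ioi_succ, Function.comp]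

theorem DJ_P_succ (T : Trig) (g : ℝ) {n : ℕ} (u v : Fin (n + 1) → ℝ) :
    DJ_P T g u v = DJ_ab T g (u 0 + v 0) * (∏ j : Fin n, DJ_ab T g (u 0 + v j.succ)) *
      ((∏ i : Fin n, DJ_ab T g (u i.succ + v 0)) * DJ_P T g (u ∘ Fin.succ) (v ∘ Fin.succ)) := by
  simp only [DJ_P, Fin.prod_univ_succ, prod_mul_distrib, Function.comp]
  ring

theorem DJ_gen {T : Trig} {g : ℝ} {n : ℕ} {U V : Fin (n + 2) → ℝ} (h : DJ_ok T g U V) :
    Zt T g U V * Zt T g (U ∘ fun i : Fin n => i.succ.succ) (V ∘ fun i : Fin n => i.succ.succ) *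
        (T.S (U 1 - U 0) * T.S (V 1 - V 0)) =
      Zt T g (U ∘ Fin.succ) (V ∘ Fin.succ) * Zt T g (U ∘ Fin.succAbove 1) (V ∘ Fin.succAbove 1) *
          DJ_ab T g (U 0 + V 1) * DJ_ab T g (U 1 + V 0) -
        Zt T g (U ∘ Fin.succAbove 1) (V ∘ Fin.succ) * Zt T g (U ∘ Fin.succ) (V ∘ Fin.succAbove 1) *
          DJ_ab T g (U 1 + V 1) * DJ_ab T g (U 0 + V 0) := by
  have i0 : Function.Injective fun i : Fin n => i.succ.succ :=
    (Fin.succ_injective _).comp (Fin.succ_injective _)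
  have i1 : Function.Injective (Fin.succ : Fin (n + 1) → Fin (n + 2)) := Fin.succ_injective _
  have i2 : Function.Injective (Fin.succAbove (1 : Fin (n + 2))) := Fin.succAbove_right_injective
  have c1 : ∀ X : Fin (n + 2) → ℝ, (X ∘ Fin.succ) ∘ Fin.succ = X ∘ fun i : Fin n => i.succ.succ :=
    fun _ => rfl
  have c2 : ∀ X : Fin (n + 2) → ℝ,
      (X ∘ Fin.succAbove 1) ∘ Fin.succ = X ∘ fun i : Fin n => i.succ.succ := fun X =>
    funext fun i => by simp
  have e2 := DJ_ik h Function.injective_id Function.injective_id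
  have e0 := DJ_ik h i0 i0
  have e11 := DJ_ik h i1 i1
  have e22 := DJ_ik h i2 i2
  have e12 := DJ_ik h i1 i2
  have e21 := DJ_ik h i2 i1
  have d := desnanot (DJ_M T g U V)
  have n1 := DJ_W_ne h.hu i1
  have n2 := DJ_W_ne h.hu i2
  have n3 := DJ_W_ne h.hv i1
  have n4 := DJ_W_ne h.hv i2
  refine mul_right_cancel₀ (mul_ne_zero (mul_ne_zero n1 n2) (mul_ne_zero n3 n4)) ?_
  rw [Function.comp_id, Function.comp_id, submatrix_id_id, DJ_W_succ T U, DJ_W_succ T V,
    DJ_P_succ T g U V, Fin.prod_univ_succ, Fin.prod_univ_succ, Fin.prod_univ_succ,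
    Fin.prod_univ_succ] at e2
  rw [DJ_W_succ T (U ∘ _), DJ_W_succ T (V ∘ _), DJ_P_succ T g (U ∘ _) (V ∘ _)]
    at e2 e11 e22 e12 e21
  rw [DJ_W_succ T (U ∘ Fin.succ), DJ_W_succ T (V ∘ Fin.succ), DJ_W_succ T (U ∘ Fin.succAbove 1),
    DJ_W_succ T (V ∘ Fin.succAbove 1)]
  simp only [c1, c2, Function.comp_apply, Fin.one_succAbove_succ, Fin.one_succAbove_zero,
    Fin.succ_zero_eq_one] at e2 e11 e22 e12 e21 ⊢
  generalize (DJ_M T g U V).det = D2 at *
  generalize ((DJ_M T g U V).submatrix (fun i : Fin n => i.succ.succ)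
    fun i : Fin n => i.succ.succ).det = D0 at *
  generalize ((DJ_M T g U V).submatrix Fin.succ Fin.succ).det = D11 at *
  generalize ((DJ_M T g U V).submatrix (Fin.succAbove 1) (Fin.succAbove 1)).det = D22 at *
  generalize ((DJ_M T g U V).submatrix Fin.succ (Fin.succAbove 1)).det = D12 at *
  generalize ((DJ_M T g U V).submatrix (Fin.succAbove 1) Fin.succ).det = D21 at *
  generalize DJ_W T (U ∘ fun i : Fin n => i.succ.succ) = Wu at *
  generalize DJ_W T (V ∘ fun i : Fin n => i.succ.succ) = Wv at *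
  generalize DJ_P T g (U ∘ fun i : Fin n => i.succ.succ) (V ∘ fun i : Fin n => i.succ.succ) = P0
    at *
  generalize ∏ j : Fin n, T.S (U j.succ.succ - U 0) = a0 at *
  generalize ∏ j : Fin n, T.S (U j.succ.succ - U 1) = a1 at *
  generalize ∏ j : Fin n, T.S (V j.succ.succ - V 0) = b0 at *
  generalize ∏ j : Fin n, T.S (V j.succ.succ - V 1) = b1 at *
  generalize ∏ j : Fin n, DJ_ab T g (U 0 + V j.succ.succ) = p0 at *
  generalize ∏ j : Fin n, DJ_ab T g (U 1 + V j.succ.succ) = p1 at *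
  generalize ∏ j : Fin n, DJ_ab T g (U j.succ.succ + V 0) = q0 at *
  generalize ∏ j : Fin n, DJ_ab T g (U j.succ.succ + V 1) = q1 at *
  have k1 := congrArg₂ (· * ·) e2 e0
  have k2 := congrArg₂ (· * ·) e11 e22
  have k3 := congrArg₂ (· * ·) e12 e21
  linear_combination k1 - DJ_ab T g (U 0 + V 1) * DJ_ab T g (U 1 + V 0) * k2 +
    DJ_ab T g (U 1 + V 1) * DJ_ab T g (U 0 + V 0) * k3 +
    DJ_ab T g (U 0 + V 0) * DJ_ab T g (U 0 + V 1) * DJ_ab T g (U 1 + V 0) *
      DJ_ab T g (U 1 + V 1) * p0 * p1 * q0 * q1 * P0 ^ 2 * d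

theorem DJ_cont (T : Trig) (g : ℝ) {N m : ℕ} {U V : ℝ → Fin N → ℝ} (hU : Continuous U)
    (hV : Continuous V) (f f' : Fin m → Fin N) :
    Continuous fun e => Zt T g (U e ∘ f) (V e ∘ f') := by
  have h1 : Continuous fun e => U e ∘ f := continuous_pi fun i => (continuous_apply (f i)).comp hU
  have h2 : Continuous fun e => V e ∘ f' := continuous_pi fun i => (continuous_apply (f' i)).comp hV
  simpa only [Function.comp_def] using (Zt_cont T g).comp (h1.prodMk h2)

theorem DJ_diff {T : Trig} {g ξ e : ℝ} (hS : ∀ u, 0 < u → u ≤ g → 0 < T.S u) {n : ℕ}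
    (he : 0 < e) (hξ : (n + 1) * e < ξ) (hg : ξ ≤ g) (c : ℝ) (i j : Fin (n + 1)) (hij : i ≠ j) :
    T.S (c + sp n ξ i + (i : ℕ) * e - (c + sp n ξ j + (j : ℕ) * e)) ≠ 0 := by
  wlog hlt : i < j generalizing i j
  · rw [← neg_sub, T.S_neg, neg_ne_zero]
    exact this j i hij.symm (lt_of_le_of_ne (not_lt.1 hlt) hij.symm)
  have h1 : ((i : ℕ) : ℝ) < (j : ℕ) := Nat.cast_lt.2 hlt
  have h2 : ((j : ℕ) : ℝ) < n + 1 := by exact_mod_cast j.2
  have h3 : (0 : ℝ) ≤ (i : ℕ) := Nat.cast_nonneg _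
  have h4 := mul_lt_mul_of_pos_right h1 he
  have h5 := mul_lt_mul_of_pos_right h2 he
  have h6 := mul_nonneg h3 he.le
  obtain ⟨j, rfl⟩ := Fin.exists_succ_eq.2 (ne_zero_of_lt hlt)
  rw [DJ_sp_succ]
  induction i using Fin.cases with
  | zero =>
    rw [DJ_sp_zero]
    simp only [Fin.val_zero, Nat.cast_zero, zero_mul] at h4 ⊢
    exact (hS _ (by linarith) (by linarith)).ne'
  | succ i =>
    rw [DJ_sp_succ, ← neg_sub, T.S_neg, neg_ne_zero]
    exact (hS _ (by linarith) (by linarith)).ne'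

theorem DJ_sum {g u0 ξ ν e : ℝ} {n : ℕ} (hu : 0 < u0) (hξ : 0 < ξ) (hν : 0 < ν) (he : 0 < e)
    (hξ' : u0 + ξ + 2 * ((n + 1) * e) < g) (hν' : u0 + ν + 2 * ((n + 1) * e) < g)
    (i j : Fin (n + 1)) :
    u0 + sp n ξ i + (i : ℕ) * e + (0 + sp n ν j + (j : ℕ) * e) = u0 + ξ + ν ∨
      (0 < u0 + sp n ξ i + (i : ℕ) * e + (0 + sp n ν j + (j : ℕ) * e) ∧
        u0 + sp n ξ i + (i : ℕ) * e + (0 + sp n ν j + (j : ℕ) * e) < g) := by
  have h1 : ((i : ℕ) : ℝ) < n + 1 := by exact_mod_cast i.2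
  have h2 : ((j : ℕ) : ℝ) < n + 1 := by exact_mod_cast j.2
  have h3 := mul_lt_mul_of_pos_right h1 he
  have h4 := mul_lt_mul_of_pos_right h2 he
  have h5 := mul_nonneg (Nat.cast_nonneg (α := ℝ) i) he.le
  have h6 := mul_nonneg (Nat.cast_nonneg (α := ℝ) j) he.le
  induction i using Fin.cases <;> induction j using Fin.cases <;>
    simp only [DJ_sp_zero, DJ_sp_succ]
  · left
    simp
  all_goals
    right
    constructor <;> linarith only [hu, hξ, h5, h6, hξ', h3, h4, hν, hν']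

theorem dj (T : Trig) {g u0 ξ ν : ℝ} (hS : ∀ u, 0 < u → u ≤ g → 0 < T.S u) (hu : 0 < u0)
    (hξ : 0 < ξ) (hν : 0 < ν) (hξ' : u0 + ξ < g) (hν' : u0 + ν < g)
    (ha : T.S (g - (u0 + ξ + ν)) ≠ 0) (hb : T.S (u0 + ξ + ν) ≠ 0) (n : ℕ) :
    Zs T g u0 (n + 1) ξ ν * Zh T g u0 n * (T.S ξ * T.S ν) =
      Zh T g u0 (n + 1) * Zs T g u0 n ξ ν * (T.S (g - (u0 + ξ)) * T.S (u0 + ξ)) *
          (T.S (g - (u0 + ν)) * T.S (u0 + ν)) -
        Zs T g u0 n ξ 0 * Zs T g u0 n 0 ν * (T.S (g - u0) * T.S u0) *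
          (T.S (g - (u0 + ξ + ν)) * T.S (u0 + ξ + ν)) := by
  obtain ⟨U, hU⟩ : ∃ U : ℝ → Fin (n + 2) → ℝ,
    U = fun e i => u0 + sp (n + 1) ξ i + (i : ℕ) * e := ⟨_, rfl⟩
  obtain ⟨V, hV⟩ : ∃ V : ℝ → Fin (n + 2) → ℝ,
    V = fun e i => 0 + sp (n + 1) ν i + (i : ℕ) * e := ⟨_, rfl⟩
  have cU : Continuous U := by
    rw [hU]
    fun_prop
  have cV : Continuous V := by
    rw [hV]
    fun_prop
  have hc : Tendsto (fun e : ℝ => (((n + 1 : ℕ) : ℝ) + 1) * e) (𝓝 0) (𝓝 0) :=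
    Continuous.tendsto' (by fun_prop) _ _ (mul_zero _)
  have ok : ∀ᶠ e in 𝓝[>] (0 : ℝ), DJ_ok T g (U e) (V e) := by
    filter_upwards [self_mem_nhdsWithin, nhdsWithin_le_nhds (hc (gt_mem_nhds hξ)),
      nhdsWithin_le_nhds (hc (gt_mem_nhds hν)),
      nhdsWithin_le_nhds (hc (gt_mem_nhds (half_pos (sub_pos.2 hξ')))),
      nhdsWithin_le_nhds (hc (gt_mem_nhds (half_pos (sub_pos.2 hν'))))] with e he h1 h2 h3 h4
    simp only [Set.mem_preimage, Set.mem_ofPred_eq, Set.mem_Ioi] at he h1 h2 h3 h4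
    have k := DJ_sum (g := g) (n := n + 1) hu hξ hν he (by linarith only [h3]) (by linarith only [h4])
    rw [hU, hV]
    refine ⟨DJ_diff hS he h1 (by linarith only [hu, hξ']) u0, DJ_diff hS he h2 (by linarith only [hu, hν']) 0, fun i j => ?_,
      fun i j => ?_⟩
    · rcases k i j with k | k
      · exact k ▸ hb
      · exact (hS _ k.1 k.2.le).ne'
    · rcases k i j with k | k
      · exact k ▸ ha
      · exact (hS _ (by linarith only [k, k.2]) (by linarith only [k, k.1])).ne'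
  have cS := T.contS
  have cab : Continuous (DJ_ab T g) := by
    unfold DJ_ab
    fun_prop
  have c0 := DJ_cont T g cU cV id id
  have key := tendsto_nhds_unique_of_eventuallyEq
    (((c0.mul (DJ_cont T g cU cV _ _)).mul (by fun_prop : Continuous fun e =>
      T.S (U e 1 - U e 0) * T.S (V e 1 - V e 0))).tendsto 0 |>.mono_left nhdsWithin_le_nhds)
    ((((((DJ_cont T g cU cV _ _).mul (DJ_cont T g cU cV _ _)).mul
      (by fun_prop : Continuous fun e => DJ_ab T g (U e 0 + V e 1))).mul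
      (by fun_prop : Continuous fun e => DJ_ab T g (U e 1 + V e 0))).sub
      ((((DJ_cont T g cU cV _ _).mul (DJ_cont T g cU cV _ _)).mul
      (by fun_prop : Continuous fun e => DJ_ab T g (U e 1 + V e 1))).mul
      (by fun_prop : Continuous fun e => DJ_ab T g (U e 0 + V e 0)))).tendsto 0
        |>.mono_left nhdsWithin_le_nhds)
    (ok.mono fun e he => DJ_gen he)
  have s1 : ∀ x, sp (n + 1) x 1 = 0 := fun _ => rfl
  simp only [hU, hV, Pi.mul_apply, Pi.sub_apply, Function.comp_def, id, mul_zero, add_zero,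
    zero_add, DJ_sp_zero, DJ_sp_succ, DJ_sp_above, s1, DJ_ab, zero_sub, sub_add_cancel_left,
    T.S_neg, neg_mul_neg] at key
  simp only [Zs, Zh, DJ_sp0, add_zero, funext (DJ_sp0 n)]
  exact key

end Pool.Agent.Work.MP_413ea6_mp
end

-- merged part: Pool.Agent.Work.MP_413ea6_mp.Bij
section
open Filter Topology Finset

namespace Pool.Agent.Work.MP_413ea6_mp

/-! Probabilities, frozen rectangles and `r_N` in terms of the outer path. -/

theorem Bij_weight_pos {a b c : ℝ} (ha : 0 < a) (hb : 0 < b) (hc : 0 < c) {N : ℕ} (σ : Cfg N) :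
    0 < weight a b c σ := by
  refine prod_pos fun r _ => prod_pos fun s _ => ?_
  unfold vw
  split_ifs <;> assumption

theorem Bij_mu_one (N : ℕ) (t γ : ℝ) (φ : Ht → ℝ) :
    mu N t γ 1 φ = ∑ h ∈ hts N 0, Wt N t γ h * φ h := by
  simp [mu]

theorem Bij_sum_true {a b c : ℝ} (ha : 0 < a) (hb : 0 < b) (hc : 0 < c) (N : ℕ) :
    ∑ σ : Cfg N, ind (IsDW σ) * (weight a b c σ * 1) =
      a ^ (N * N) * mu N (b / a) (c / a) 1 (fun _ => 1) := by
  rw [Bij_mu_one]
  exact sum_dw ha hb hc N fun _ => 1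

theorem Bij_prob {a b c : ℝ} (ha : 0 < a) (hb : 0 < b) (hc : 0 < c) {N : ℕ} (A : Cfg N → Prop) :
    prob N a b c A = (∑ σ : Cfg N, ind (IsDW σ) * (weight a b c σ * ind (A σ))) /
      (a ^ (N * N) * mu N (b / a) (c / a) 1 (fun _ => 1)) := by
  rw [← Bij_sum_true ha hb hc N]
  unfold prob
  congr 1
  · refine sum_congr rfl fun σ _ => ?_
    by_cases h1 : IsDW σ <;> by_cases h2 : A σ <;> simp [ind, h1, h2]
  · refine sum_congr rfl fun σ _ => ?_
    by_cases h1 : IsDW σ <;> simp [ind, h1]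

theorem Bij_den_pos {a b c : ℝ} (ha : 0 < a) (hb : 0 < b) (hc : 0 < c) (N : ℕ) :
    0 < a ^ (N * N) * mu N (b / a) (c / a) 1 (fun _ => 1) :=
  mul_pos (pow_pos ha _) (mu_pos (div_pos hb ha) (div_pos hc ha) one_pos N)

theorem prob_mono {a b c : ℝ} (ha : 0 < a) (hb : 0 < b) (hc : 0 < c) {N : ℕ}
    {A B : Cfg N → Prop} (h : ∀ σ, IsDW σ → A σ → B σ) : prob N a b c A ≤ prob N a b c B := by
  rw [Bij_prob ha hb hc, Bij_prob ha hb hc]
  refine div_le_div_of_nonneg_right (sum_le_sum fun σ _ => ?_) (Bij_den_pos ha hb hc N).le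
  by_cases h1 : IsDW σ
  · exact mul_le_mul_of_nonneg_left (mul_le_mul_of_nonneg_left (ind_mono (h σ h1))
      (Bij_weight_pos ha hb hc σ).le) (ind_nonneg _)
  · rw [ind_neg h1, zero_mul, zero_mul]

theorem prob_nonneg {a b c : ℝ} (ha : 0 < a) (hb : 0 < b) (hc : 0 < c) {N : ℕ}
    (A : Cfg N → Prop) : 0 ≤ prob N a b c A := by
  rw [Bij_prob ha hb hc]
  exact div_nonneg (sum_nonneg fun σ _ => mul_nonneg (ind_nonneg _)
    (mul_nonneg (Bij_weight_pos ha hb hc σ).le (ind_nonneg _))) (Bij_den_pos ha hb hc N).le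

theorem prob_le_one {a b c : ℝ} (ha : 0 < a) (hb : 0 < b) (hc : 0 < c) {N : ℕ}
    (A : Cfg N → Prop) : prob N a b c A ≤ 1 := by
  rw [Bij_prob ha hb hc, div_le_one (Bij_den_pos ha hb hc N), ← Bij_sum_true ha hb hc N]
  exact sum_le_sum fun σ _ => mul_le_mul_of_nonneg_left (mul_le_mul_of_nonneg_left (ind_le_one _)
    (Bij_weight_pos ha hb hc σ).le) (ind_nonneg _)

theorem prob_eq {a b c : ℝ} (ha : 0 < a) (hb : 0 < b) (hc : 0 < c) (N : ℕ)
    (A : (ℕ → ℕ) → Prop) :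
    prob N a b c (fun σ => A (pathOf σ)) = PP N (b / a) (c / a) A := by
  have h1 := sum_dw ha hb hc N fun h => ind (A (cnt N h))
  rw [← Bij_mu_one] at h1
  rw [Bij_prob ha hb hc]
  unfold pathOf PP
  rw [h1, mul_div_mul_left _ _ (pow_pos ha _).ne']

theorem frozen_of {N : ℕ} {σ : Cfg N} (H : IsDW σ) {x y : ℝ}
    (h : ∀ j : ℕ, 1 ≤ j → j ≤ N → (j : ℝ) ≤ y * N → (pathOf σ j : ℝ) < x * N) :
    frozen σ x y := by
  intro r s hx hy
  have hN : (0 : ℝ) < N := by exact_mod_cast r.pos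
  have hc := htOf_cls H
  rw [le_div_iff₀ hN] at hx
  rw [div_le_iff₀ hN] at hy
  have h1 := h (s + 1) (by omega) s.2 (by exact_mod_cast hy)
  have h2 : pathOf σ (s + 1) < r + 1 := by exact_mod_cast h1.trans_le hx
  have h3 : htOf σ r (s + 1) = 0 := by
    have := (lt_cnt_iff hc r (s + 1)).2
    unfold pathOf at h2
    omega
  have h4 := hc.1 r (s + 1)
  have e1 := edge_h H r.castSucc s
  have e2 := edge_v σ r s.castSucc
  have e3 := edge_h H r.succ s
  have e4 := edge_v σ r s.succ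
  have h5 := hc.1 r s
  simp only [Fin.val_castSucc, Fin.val_succ] at e1 e2 e3 e4
  refine ⟨?_, ?_, ?_, ?_⟩ <;> rw [← Bool.toNat_eq_zero] <;> omega

theorem le_of_frozen {N : ℕ} {σ : Cfg N} (H : IsDW σ) {x y : ℝ} (hx : 0 ≤ x) (hy : y ≤ 1)
    (h : frozen σ x y) : (pathOf σ ⌊y * N⌋₊ : ℝ) ≤ x * N := by
  have hc := htOf_cls H
  have hxN : 0 ≤ x * N := mul_nonneg hx (Nat.cast_nonneg N)
  have hjN : ⌊y * N⌋₊ ≤ N :=
    Nat.floor_le_of_le (mul_le_of_le_one_left (Nat.cast_nonneg N) hy)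
  rcases Nat.eq_zero_or_pos ⌊y * N⌋₊ with h0 | h0
  · rw [h0, pathOf, cnt_zero hc, Nat.cast_zero]
    exact hxN
  have hj : ((⌊y * N⌋₊ : ℕ) : ℝ) ≤ y * N :=
    Nat.floor_le (zero_le_one.trans (Nat.floor_pos.1 h0))
  obtain ⟨s, hs⟩ : ∃ s, ⌊y * N⌋₊ = s + 1 := ⟨⌊y * N⌋₊ - 1, by omega⟩
  rw [hs] at hj hjN ⊢
  by_contra hlt
  rw [not_le] at hlt
  have h1 : 0 < pathOf σ (s + 1) := by exact_mod_cast hxN.trans_lt hlt
  have h2 : pathOf σ (s + 1) ≤ N := (cnt_isPath hc).le _
  obtain ⟨i, hi⟩ : ∃ i, pathOf σ (s + 1) = i + 1 := ⟨pathOf σ (s + 1) - 1, by omega⟩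
  have hN : (0 : ℝ) < N := by exact_mod_cast (by omega : 0 < N)
  rw [hi] at hlt
  have h3 := (h ⟨i, by omega⟩ ⟨s, by omega⟩
    (by rw [le_div_iff₀ hN]; exact_mod_cast hlt.le)
    (by rw [div_le_iff₀ hN]; exact_mod_cast hj)).2.2.2
  have e4 := edge_v σ ⟨i, by omega⟩ (Fin.succ ⟨s, by omega⟩)
  rw [h3] at e4
  simp only [Fin.val_succ, Bool.toNat_false] at e4
  have h4 := (lt_cnt_iff hc i (s + 1)).1
  have h5 := (lt_cnt_iff hc (i + 1) (s + 1)).2
  unfold pathOf at hi
  omega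

theorem Bij_first {N : ℕ} (hN : 1 ≤ N) {σ : Cfg N} (H : IsDW σ) (r : Fin N) :
    σ.2 r 1 = true ↔ pathOf σ 1 = r + 1 := by
  have hc := htOf_cls H
  have e := edge_v σ r 1
  have h1 : ((1 : Fin (N + 1)) : ℕ) = 1 := by
    rw [Fin.val_one', Nat.mod_eq_of_lt (by omega)]
  rw [h1] at e
  have h2 := (hc.1 r 0).2.1
  rw [hc.2.1, zero_add] at h2
  have h4 := lt_cnt_iff hc r 1
  have h5 := lt_cnt_iff hc (r + 1) 1
  unfold pathOf
  rw [← Bool.toNat_eq_one]
  have h6 := Bool.toNat_le (σ.2 r 1)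
  omega

theorem Bij_hgen {a b c : ℝ} (ha : 0 < a) (hb : 0 < b) (hc : 0 < c) {N : ℕ} (hN : 1 ≤ N) (z : ℝ) :
    hgen N a b c z =
      mu N (b / a) (c / a) z (fun _ => 1) / mu N (b / a) (c / a) 1 (fun _ => 1) := by
  have h1 : ∀ r : Fin N, prob N a b c (fun σ => σ.2 r 1 = true) =
      PP N (b / a) (c / a) (fun X => X 1 = r + 1) := fun r => by
    rw [← prob_eq ha hb hc]
    exact le_antisymm (prob_mono ha hb hc fun σ H => (Bij_first hN H r).1)
      (prob_mono ha hb hc fun σ H => (Bij_first hN H r).2)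
  unfold hgen
  simp only [h1, PP, div_mul_eq_mul_div]
  rw [← sum_div]
  congr 1
  simp only [Bij_mu_one, sum_mul]
  rw [sum_comm]
  refine sum_congr rfl fun h hh => ?_
  have hc := mem_hts.1 hh
  have h2 := le_cnt hc hN
  have h3 := (cnt_isPath hc).le 1
  rw [sum_eq_single (⟨cnt N h 1 - 1, by omega⟩ : Fin N)]
  · rw [ind_pos (by dsimp only; omega), mul_one, mul_one]
  · intro r _ hr
    rw [ind_neg (fun h4 => hr (Fin.ext (by dsimp only; omega))), mul_zero, zero_mul]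
  · intro h4
    exact absurd (mem_univ _) h4

theorem Bij_deriv (N : ℕ) (t γ z : ℝ) :
    z * deriv (fun w => mu N t γ w (fun _ => 1)) z =
      mu N t γ z (fun h => ((cnt N h 1 - 1 : ℕ) : ℝ)) := by
  have h1 : HasDerivAt (fun w => mu N t γ w (fun _ => 1))
      (∑ h ∈ hts N 0, Wt N t γ h * (((cnt N h 1 - 1 : ℕ) : ℝ) * z ^ (cnt N h 1 - 1 - 1)) * 1) z :=
    HasDerivAt.fun_sum fun h _ => ((hasDerivAt_pow _ z).const_mul _).mul_const _
  rw [h1.deriv, mul_sum]
  refine sum_congr rfl fun h _ => ?_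
  beta_reduce
  generalize cnt N h 1 - 1 = K
  cases K with
  | zero => simp
  | succ K => rw [Nat.add_sub_cancel, pow_succ]; ring

theorem rN_eq {a b c : ℝ} (ha : 0 < a) (hb : 0 < b) (hc : 0 < c) {N : ℕ} (hN : 1 ≤ N) (z : ℝ) :
    rN N a b c z = rM N (b / a) (c / a) z := by
  have h1 : hgen N a b c = fun w =>
      mu N (b / a) (c / a) w (fun _ => 1) / mu N (b / a) (c / a) 1 (fun _ => 1) :=
    funext fun w => Bij_hgen ha hb hc hN w
  have h2 := (mu_pos (div_pos hb ha) (div_pos hc ha) one_pos N).ne'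
  unfold rN rM
  rw [h1, deriv_div_const, ← Bij_deriv, ← mul_div_assoc, ← mul_div_assoc,
    div_div_div_cancel_right₀ h2]

end Pool.Agent.Work.MP_413ea6_mp
end

-- merged part: Pool.Agent.Work.MP_413ea6_mp.FerroD
section
open Filter Topology Finset

namespace Pool.Agent.Work.MP_413ea6_mp

/-! Whatever the function `r`, the curve meets the diagonal in a null set (Sard). -/

theorem ferroD_sard (g : ℝ → ℝ) : MeasureTheory.volume (g '' {z | HasDerivAt g 0 z}) = 0 :=
  MeasureTheory.addHaar_image_eq_zero_of_det_fderivWithin_eq_zero MeasureTheory.volume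
    (f' := fun _ => 0) (fun z hz => by
      have h : HasDerivAt g 0 z := hz
      simpa using h.hasFDerivAt.hasFDerivWithinAt) (fun _ _ => by simp [ContinuousLinearMap.det])

theorem ferroD_ne {l r : ℝ → ℝ} {s z d : ℝ} (hl : HasDerivAt l d z) (h1 : l z ≠ 1)
    (h0 : s - l z * s - r z = 0) (hF : HasDerivAt (fun w => s - l w * s - r w) 0 z) :
    r z / (1 - l z) = s ∧ HasDerivAt (fun w => r w / (1 - l w)) 0 z := by
  have h2 : 1 - l z ≠ 0 := sub_ne_zero.2 h1.symm
  refine ⟨by rw [div_eq_iff h2]; linarith, ?_⟩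
  have h3 := (hF.div (hl.const_sub 1) h2).const_sub s
  rw [h0, zero_mul, zero_mul, sub_zero, zero_div, neg_zero] at h3
  refine h3.congr_of_eventuallyEq ?_
  filter_upwards [(hl.const_sub 1).continuousAt.eventually_ne h2] with w hw
  rw [Pi.div_apply]
  field_simp
  ring

theorem ferroD_eq {l r : ℝ → ℝ} {s s' z d : ℝ} (hl : HasDerivAt l d z) (hd : d ≠ 0)
    (hF : HasDerivAt (fun w => s - l w * s - r w) 0 z)
    (hF' : HasDerivAt (fun w => s' - l w * s' - r w) 0 z) : s = s' := by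
  have h1 := hF.sub hF'
  have h2 : HasDerivAt (fun w => (s - s') - l w * (s - s')) (-(d * (s - s'))) z :=
    (hl.mul_const (s - s')).const_sub (s - s')
  have h3 : (fun w => (s - s') - l w * (s - s')) =
      (fun w => s - l w * s - r w) - fun w => s' - l w * s' - r w := by
    funext w
    rw [Pi.sub_apply]
    ring
  rw [h3] at h2
  have h4 := h1.unique h2
  rw [sub_zero, zero_eq_neg, mul_eq_zero, sub_eq_zero] at h4
  exact h4.resolve_left hd

theorem curve_null {a b c : ℝ} (ha : 0 < a) (hb : 0 < b) (hc : 0 < c) (r : ℝ → ℝ) :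
    MeasureTheory.volume {s : ℝ | (s, s) ∈ curve a b c r} = 0 := by
  have ht := div_pos hb ha
  have hγ := div_pos hc ha
  have hl : lam a b c = lamW (b / a) (c / a) := funext (lam_eq ha hb)
  set l := lamW (b / a) (c / a) with hl'
  have hsub : Set.Subsingleton {s : ℝ | ∃ z, 1 < z ∧ l z = 1 ∧
      HasDerivAt (fun w => s - l w * s - r w) 0 z} := by
    rintro s ⟨z, hz, h1, hF⟩ s' ⟨z', hz', h1', hF'⟩
    have e : z = z' := (lamW_anti ht hγ).injOn hz hz' (h1.trans h1'.symm)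
    subst e
    obtain ⟨d, hd, hD⟩ := lamW_deriv ht hγ hz
    exact ferroD_eq hD hd.ne hF hF'
  refine MeasureTheory.measure_mono_null (fun s hs => ?_) (MeasureTheory.measure_union_null
    (ferroD_sard fun w => r w / (1 - l w)) (hsub.measure_zero _))
  obtain ⟨z, hz, h0, hF⟩ := hs
  have e : lineF a b c r s s = fun w => s - l w * s - r w := by
    funext w
    rw [lineF, hl]
  dsimp only at h0 hF
  rw [e] at h0 hF
  by_cases h1 : l z = 1
  · exact Or.inr ⟨z, hz, h1, hF⟩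
  · obtain ⟨d, -, hD⟩ := lamW_deriv ht hγ hz
    obtain ⟨h2, h3⟩ := ferroD_ne hD h1 h0 hF
    exact Or.inl ⟨z, h3, h2⟩

end Pool.Agent.Work.MP_413ea6_mp
end
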