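import Pool.Agent.Work.MP_413ea6_mp.Main

open Filter Topology Finset

namespace Pool.Agent.Work.MP_413ea6_mp

/-! Properties of the limit `r`. -/

theorem lim_nonneg {t γ : ℝ} (ht : 0 < t) (hγ : 0 < γ) {r : ℝ → ℝ}
    (hr : ∀ z, 1 < z → Tendsto (fun N => rM N t γ z) atTop (𝓝 (r z))) {z : ℝ} (hz : 1 < z) :
    0 ≤ r z :=
  ge_of_tendsto' (hr z hz) fun N => rM_nonneg ht hγ (one_pos.trans hz) N

theorem lim_ge {t γ : ℝ} (ht : 0 < t) (htγ : t ≤ γ) (hγ : 1 ≤ γ) {r : ℝ → ℝ}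
    (hr : ∀ z, 1 < z → Tendsto (fun N => rM N t γ z) atTop (𝓝 (r z))) {z : ℝ} (hz : 1 < z) :
    1 - lamW t γ z ≤ r z := by
  refine le_of_forall_pos_le_add fun δ hδ => ?_
  refine ge_of_tendsto ((hr z hz).add_const δ) ?_
  filter_upwards [(main_U ht htγ hγ hz hδ).exists_not ht (one_pos.trans_le hγ),
    eventually_ge_atTop 1] with N ⟨X, hX, hn⟩ hN
  have hN' : (0 : ℝ) < N := by exact_mod_cast hN
  have h1 := not_le.1 fun h => hn ⟨N, le_rfl, h⟩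
  rw [hX.2.2 N le_rfl] at h1
  refine le_of_mul_le_mul_left ?_ hN'
  linarith

theorem GeoB_approx {t γ : ℝ} (ht : 0 < t) (htγ : t ≤ γ) (hγ : 1 ≤ γ) {r : ℝ → ℝ}
    (hr : ∀ z, 1 < z → Tendsto (fun N => rM N t γ z) atTop (𝓝 (r z))) {z : ℝ} (hz : 1 < z)
    (F : Finset ℝ) (hF : ∀ w ∈ F, 1 < w) {η : ℝ} (hη : 0 < η) :
    ∃ x ∈ Set.Icc (0 : ℝ) 1, ∃ y ∈ Set.Icc (0 : ℝ) 1, -η ≤ x - lamW t γ z * y - r z ∧
      ∀ w ∈ F, x - lamW t γ w * y - r w ≤ η := by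
  have hγ0 : 0 < γ := one_pos.trans_le hγ
  have hη2 : 0 < η / 2 := half_pos hη
  have hR := (main_L ht htγ hγ hz hη2).or ht hγ0
    (Rare.exists ht hγ0 F fun w hw => main_U ht htγ hγ (hF w hw) hη2)
  have h1 : ∀ᶠ N : ℕ in atTop, r z - η / 2 < rM N t γ z :=
    (hr z hz).eventually (lt_mem_nhds (by linarith))
  have h2 : ∀ᶠ N : ℕ in atTop, ∀ w ∈ F, rM N t γ w < r w + η / 2 :=
    (eventually_all_finset F).2 fun w hw =>
      (hr w (hF w hw)).eventually (gt_mem_nhds (by linarith))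
  obtain ⟨N, ⟨X, hX, hn⟩, hN1, hN2, hN⟩ :=
    ((hR.exists_not ht hγ0).and (h1.and (h2.and (eventually_ge_atTop 1)))).exists
  have hN' : (0 : ℝ) < N := by exact_mod_cast hN
  rw [not_or] at hn
  obtain ⟨hL, hU⟩ := hn
  push Not at hL hU
  obtain ⟨j, hj, hL⟩ := hL
  have e : ∀ w, (X j : ℝ) / N - lamW t γ w * (j / N) = ((X j : ℝ) - lamW t γ w * j) / N :=
    fun w => by ring
  refine ⟨X j / N, ⟨by positivity, ?_⟩, j / N, ⟨by positivity, ?_⟩, ?_, fun w hw => ?_⟩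
  · rw [div_le_one hN']
    exact_mod_cast hX.le j
  · rw [div_le_one hN']
    exact_mod_cast hj
  · have h3 : rM N t γ z - η / 2 ≤ ((X j : ℝ) - lamW t γ z * j) / N := by
      rw [le_div_iff₀ hN']
      linarith
    rw [e]
    linarith
  · have h3 : ((X j : ℝ) - lamW t γ w * j) / N ≤ rM N t γ w + η / 2 := by
      rw [div_le_iff₀ hN']
      linarith [hU w hw j hj]
    rw [e]
    linarith [hN2 w hw]

theorem exists_point {t γ : ℝ} (ht : 0 < t) (htγ : t ≤ γ) (hγ : 1 ≤ γ) {r : ℝ → ℝ}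
    (hr : ∀ z, 1 < z → Tendsto (fun N => rM N t γ z) atTop (𝓝 (r z))) {z : ℝ} (hz : 1 < z) :
    ∃ x ∈ Set.Icc (0 : ℝ) 1, ∃ y ∈ Set.Icc (0 : ℝ) 1, x - lamW t γ z * y - r z = 0 ∧
      ∀ w, 1 < w → x - lamW t γ w * y - r w ≤ 0 := by
  classical
  have hK : IsCompact (Set.Icc (0 : ℝ) 1 ×ˢ Set.Icc (0 : ℝ) 1) :=
    isCompact_Icc.prod isCompact_Icc
  obtain ⟨p, ⟨hx, hy⟩, hp⟩ := hK.inter_iInter_nonempty
    (fun i : {w : ℝ // 1 < w} × {η : ℝ // 0 < η} => {p : ℝ × ℝ |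
      -i.2.1 ≤ p.1 - lamW t γ z * p.2 - r z ∧ p.1 - lamW t γ i.1.1 * p.2 - r i.1.1 ≤ i.2.1})
    (fun i => by
      rw [Set.ofPred_and]
      exact (isClosed_le continuous_const (by fun_prop)).inter
        (isClosed_le (by fun_prop) continuous_const))
    (fun u => by
      have h0 : ∀ᶠ η : ℝ in 𝓝[>] 0, 0 < η ∧ ∀ i ∈ u, η ≤ i.2.1 :=
        (eventually_mem_nhdsWithin (s := Set.Ioi (0 : ℝ))).and
          ((eventually_all_finset u).2 fun i _ =>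
            mem_of_superset (Ioc_mem_nhdsGT i.2.2) fun _ h => h.2)
      obtain ⟨η, hη, hu⟩ := h0.exists
      obtain ⟨x, hx, y, hy, h1, h2⟩ := GeoB_approx ht htγ hγ hr hz (u.image fun i => i.1.1)
        (fun w hw => by
          obtain ⟨i, -, rfl⟩ := mem_image.1 hw
          exact i.1.2) hη
      refine ⟨(x, y), ⟨hx, hy⟩, Set.mem_iInter₂.2 fun i hi => ⟨?_, ?_⟩⟩
      · linarith [hu i hi]
      · linarith [hu i hi, h2 _ (mem_image_of_mem _ hi)])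
  rw [Set.mem_iInter] at hp
  have h2 : ∀ w, 1 < w → p.1 - lamW t γ w * p.2 - r w ≤ 0 := fun w hw =>
    le_of_forall_pos_le_add fun η hη => by
      rw [zero_add]
      exact (hp (⟨w, hw⟩, ⟨η, hη⟩)).2
  refine ⟨p.1, hx, p.2, hy, le_antisymm (h2 z hz) ?_, h2⟩
  refine le_of_forall_pos_le_add fun η hη => ?_
  have := (hp (⟨z, hz⟩, ⟨η, hη⟩)).1
  dsimp only at this
  linarith

end Pool.Agent.Work.MP_413ea6_mp
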