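import Pool.Agent.Work.MP_413ea6_mp.GeoA
import Pool.Agent.Work.MP_413ea6_mp.GeoB
import Pool.Agent.Work.MP_413ea6_mp.GeoC
import Pool.Agent.Work.MP_413ea6_mp.Bij

open Filter Topology Finset

namespace Pool.Agent.Work.MP_413ea6_mp

theorem tendsto_one_of_rare {a b c : ℝ} (ha : 0 < a) (hb : 0 < b) (hc : 0 < c)
    {A : ℕ → (ℕ → ℕ) → Prop} (hA : Rare (b / a) (c / a) A) {B : ∀ N, Cfg N → Prop}
    (h : ∀ᶠ N in atTop, ∀ σ : Cfg N, IsDW σ → ¬ A N (pathOf σ) → B N σ) :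
    Tendsto (fun N => prob N a b c (B N)) atTop (𝓝 1) := by
  refine tendsto_of_tendsto_of_tendsto_of_le_of_le'
    (hA.tendsto_not (div_pos hb ha) (div_pos hc ha)) tendsto_const_nhds ?_
    (Eventually.of_forall fun N => prob_le_one ha hb hc _)
  filter_upwards [h] with N hN
  rw [← prob_eq ha hb hc N (fun X => ¬ A N X)]
  exact prob_mono ha hb hc hN

theorem tendsto_zero_of_rare {a b c : ℝ} (ha : 0 < a) (hb : 0 < b) (hc : 0 < c)
    {A : ℕ → (ℕ → ℕ) → Prop} (hA : Rare (b / a) (c / a) A) {B : ∀ N, Cfg N → Prop}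
    (h : ∀ᶠ N in atTop, ∀ σ : Cfg N, IsDW σ → B N σ → A N (pathOf σ)) :
    Tendsto (fun N => prob N a b c (B N)) atTop (𝓝 0) := by
  refine squeeze_zero' (Eventually.of_forall fun N => prob_nonneg ha hb hc _) ?_ hA
  filter_upwards [h] with N hN
  rw [← prob_eq ha hb hc N (A N)]
  exact prob_mono ha hb hc hN

theorem part_one {a b c : ℝ} (ha : 0 < a) (hb : 0 < b) (hac : a ≤ c) (hbc : b ≤ c) {z δ : ℝ}
    (hz : 1 < z) (hδ : 0 < δ) :
    Tendsto (fun N => prob N a b c (fun σ => ∀ x y : ℝ,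
      δ ≤ lineF a b c (rN N a b c) x y z → frozen σ x y)) atTop (𝓝 1) := by
  have hc : 0 < c := ha.trans_le hac
  have ht := div_pos hb ha
  have htγ : b / a ≤ c / a := div_le_div_of_nonneg_right hbc ha.le
  have hγ : 1 ≤ c / a := (one_le_div ha).2 hac
  refine tendsto_one_of_rare ha hb hc (main_U ht htγ hγ hz hδ) ?_
  filter_upwards [eventually_ge_atTop 1] with N hN σ hσ hn x y hxy
  refine frozen_of hσ fun j _ hj hy => ?_
  have h1 : (pathOf σ j : ℝ) - lamW (b / a) (c / a) z * j <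
      N * rM N (b / a) (c / a) z + δ * N := by
    by_contra hcon
    exact hn ⟨j, hj, not_lt.1 hcon⟩
  rw [lineF, lam_eq ha hb, rN_eq ha hb hc hN] at hxy
  have hl := lamW_pos ht (one_pos.trans_le hγ) hz
  have hN0 : (0 : ℝ) ≤ N := Nat.cast_nonneg N
  have h2 := mul_le_mul_of_nonneg_right hxy hN0
  have h3 := mul_le_mul_of_nonneg_left hy hl.le
  nlinarith

theorem part_two' {a b c : ℝ} (ha : 0 < a) (hb : 0 < b) (hac : a ≤ c) (hbc : b ≤ c) {δ : ℝ}
    (hδ : 0 < δ) : ∃ Z : Finset ℝ, (∀ z ∈ Z, 1 < z) ∧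
    Tendsto (fun N => prob N a b c (fun σ => ∃ x ∈ Set.Icc (0 : ℝ) 1, ∃ y ∈ Set.Icc (0 : ℝ) 1,
      (∀ z ∈ Z, lineF a b c (rN N a b c) (x + δ) (y - δ) z ≤ 0) ∧ frozen σ x y))
      atTop (𝓝 0) ∧
    Tendsto (fun N => prob N a b c (fun σ => ∀ x ∈ Set.Icc (0 : ℝ) 1, ∀ y ∈ Set.Icc (0 : ℝ) 1,
      (∀ z, 1 < z → lineF a b c (rN N a b c) (x + δ) (y - δ) z ≤ 0) → ¬ frozen σ x y))
      atTop (𝓝 1) := by
  have hc : 0 < c := ha.trans_le hac
  have ht := div_pos hb ha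
  have htγ : b / a ≤ c / a := div_le_div_of_nonneg_right hbc ha.le
  have hγ : 1 ≤ c / a := (one_le_div ha).2 hac
  obtain ⟨Z, hZ, hR⟩ := geo_net ht htγ hγ hδ
  refine ⟨Z, hZ, tendsto_zero_of_rare ha hb hc hR ?_, tendsto_one_of_rare ha hb hc hR ?_⟩
  · filter_upwards [eventually_ge_atTop 1] with N hN σ hσ ⟨x, hx, y, hy, h1, h2⟩
    refine ⟨x, hx, y, hy, fun z hz => ?_, le_of_frozen hσ hx.1 hy.2 h2⟩
    have := h1 z hz
    rwa [lineF, lam_eq ha hb, rN_eq ha hb hc hN] at this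
  · filter_upwards [eventually_ge_atTop 1] with N hN σ hσ hn x hx y hy h1 h2
    refine hn ⟨x, hx, y, hy, fun z hz => ?_, le_of_frozen hσ hx.1 hy.2 h2⟩
    have := h1 z (hZ z hz)
    rwa [lineF, lam_eq ha hb, rN_eq ha hb hc hN] at this

theorem part_three {a b c : ℝ} (ha : 0 < a) (hb : 0 < b) (hac : a ≤ c) (hbc : b ≤ c)
    (r : ℝ → ℝ) (hr : ∀ z, 1 < z → Tendsto (fun N => rN N a b c z) atTop (𝓝 (r z)))
    (hd : ∀ z, 1 < z → DifferentiableAt ℝ r z) :
    frontier (frozenRegion a b c) ∩ Set.Ioo 0 1 ×ˢ Set.Ioo 0 1 =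
        curve a b c r ∩ Set.Ioo 0 1 ×ˢ Set.Ioo 0 1 ∧
      curve a b c r ⊆ Set.Icc 0 1 ×ˢ Set.Icc 0 1 ∧
      ∀ p ∈ (Set.Ioo 0 1 ×ˢ Set.Ioo 0 1 : Set (ℝ × ℝ)) \ curve a b c r,
        Tendsto (efp a b c p) atTop (𝓝 1) ∨ Tendsto (efp a b c p) atTop (𝓝 0) := by
  have hc : 0 < c := ha.trans_le hac
  have ht := div_pos hb ha
  have htγ : b / a ≤ c / a := div_le_div_of_nonneg_right hbc ha.le
  have hγ : 1 ≤ c / a := (one_le_div ha).2 hac
  have hγ0 : 0 < c / a := one_pos.trans_le hγ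
  have hr' : ∀ z, 1 < z → Tendsto (fun N => rM N (b / a) (c / a) z) atTop (𝓝 (r z)) :=
    fun z hz => (hr z hz).congr' (by
      filter_upwards [eventually_ge_atTop 1] with N hN using rN_eq ha hb hc hN z)
  have hl : lam a b c = lamW (b / a) (c / a) := funext (lam_eq ha hb)
  refine envelope (l := lamW (b / a) (c / a)) (r := r) (e := efp a b c)
    (fun z hz => lamW_pos ht hγ0 hz) (lamW_anti ht hγ0) (fun z hz => lamW_deriv ht hγ0 hz)
    (fun s hs => lamW_surj ht hγ0 hs) hd (fun z hz => lim_nonneg ht hγ0 hr' hz)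
    (fun z hz => lim_ge ht htγ hγ hr' hz) (fun z hz => exists_point ht htγ hγ hr' hz)
    (fun p z hz hp => ?_) (fun p δ hx hy hδ hp => ?_) _ ?_
  · have h1 := part_one ha hb hac hbc hz (half_pos hp)
    refine tendsto_of_tendsto_of_tendsto_of_le_of_le' h1 tendsto_const_nhds ?_
      (Eventually.of_forall fun N => prob_le_one ha hb hc _)
    have h2 : r z < r z + (p.1 - lamW (b / a) (c / a) z * p.2 - r z) / 2 := by linarith
    filter_upwards [(hr z hz).eventually (gt_mem_nhds h2)] with N hN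
    refine prob_mono ha hb hc fun σ _ h => h _ _ ?_
    rw [lineF, lam_eq ha hb]
    linarith
  · obtain ⟨Z, hZ, h1, -⟩ := part_two' ha hb hac hbc (half_pos hδ)
    refine squeeze_zero' (Eventually.of_forall fun N => prob_nonneg ha hb hc _) ?_ h1
    have h2 : ∀ᶠ N : ℕ in atTop, ∀ z ∈ Z, r z - δ / 2 < rN N a b c z :=
      (eventually_all_finset Z).2 fun z hz =>
        (hr z (hZ z hz)).eventually (lt_mem_nhds (by linarith))
    filter_upwards [h2] with N hN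
    refine prob_mono ha hb hc fun σ _ h => ⟨p.1, hx, p.2, hy, fun z hz => ?_, h⟩
    rw [lineF, lam_eq ha hb]
    have h3 := hp z (hZ z hz)
    have h4 := hN z hz
    have h5 := mul_pos (lamW_pos ht hγ0 (hZ z hz)) hδ
    nlinarith
  · rw [← hl]
    rfl

end Pool.Agent.Work.MP_413ea6_mp
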