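import Pool.Agent.Work.MP_413ea6_mp.OpB
import Pool.Agent.Work.MP_413ea6_mp.EndA
import Pool.Agent.Work.MP_413ea6_mp.FerroD

-- merged part: Pool.Agent.Work.MP_413ea6_mp.YLink
section
/-! The system with a special row and the conjugate special column is a `YLay`. -/

open Filter Topology Finset Matrix Function

namespace Pool.Agent.Work.MP_413ea6_mp

theorem sp_pos {n : ℕ} (ν : ℝ) {r : Fin (n + 1)} (h : 0 < (r : ℕ)) : sp n ν r = 0 := by
  obtain ⟨s, rfl⟩ := Fin.exists_succ_eq.2 (Fin.pos_iff_ne_zero.1 h)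
  simp [sp]

theorem sp_zero (n : ℕ) (ν : ℝ) : sp n ν 0 = ν := by simp [sp]

theorem sp_succ {n : ℕ} (ν : ℝ) (r : Fin n) : sp n ν r.succ = 0 := by simp [sp]

theorem Y_S_nn {T : Trig} {g : ℝ} (hS : ∀ u, 0 < u → u ≤ g → 0 < T.S u) {u : ℝ} (h0 : 0 ≤ u)
    (h1 : u ≤ g) : 0 ≤ T.S u := by
  rcases h0.eq_or_lt with h | h
  · rw [← h, T.S_zero]
  · exact (hS u h h1).le

theorem Y_Tr_nn {T : Trig} {g : ℝ} (hS : ∀ u, 0 < u → u ≤ g → 0 < T.S u) {u ν : ℝ} (h0 : 0 ≤ u)
    (hν : 0 ≤ ν) (h1 : u + ν ≤ g) (n : ℕ) :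
    (∀ r, 0 ≤ T.S (g - (u + sp n ν r))) ∧ (∀ r, 0 ≤ T.S (u + sp n ν r)) ∧ 0 ≤ T.S g := by
  have h : ∀ r, 0 ≤ sp n ν r ∧ sp n ν r ≤ ν := fun r => by
    rcases Nat.eq_zero_or_pos r with h | h
    · rw [Fin.ext h (b := 0), sp_zero]; exact ⟨hν, le_rfl⟩
    · rw [sp_pos ν h]; exact ⟨le_rfl, hν⟩
  exact ⟨fun r => Y_S_nn hS (by linarith [(h r).2]) (by linarith [(h r).1]),
    fun r => Y_S_nn hS (by linarith [(h r).1]) (by linarith [(h r).2]),
    Y_S_nn hS (by linarith) le_rfl⟩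

theorem Y_il_le {n : ℕ} {A B : Fin n → ℝ} {c : ℝ} {κ μ : St n} (h : Bop A B c κ μ ≠ 0) :
    mx κ ≤ mx μ := by
  obtain ⟨p, ν, h1, rfl, -, h2⟩ := Bop_interlace h
  rwa [mx_update h1]

theorem Y_empty {n : ℕ} (A B : Fin (n + 1) → ℝ) (c a b : ℝ) (X : Fin (n + 1)) (hX : 0 < (X : ℕ))
    (hA : ∀ r : Fin (n + 1), 0 < (r : ℕ) → A r = a) (hB : ∀ r : Fin (n + 1), 0 < (r : ℕ) → B r = b) :
    Bop A B c (yE _) (update (yE _) X true) = B 0 * b ^ (X - 1 : ℕ) * c * a ^ (n - X : ℕ) := by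
  have e : ∀ p : Fin (n + 1), (Pi.single p true : St (n + 1)) = update (yE _) p true :=
    fun p => rfl
  have h0 : ∀ p : Fin (n + 1), mx (yE (n + 1)) ≤ p := fun p => (mx_yE _).le.trans (Nat.zero_le _)
  rw [show Bop A B c (yE _) = Bop A B c (fun _ => false) from rfl, Bop_empty, sum_eq_single X (fun p _ hp => if_neg fun h => hp ((update_inj (h0 X) (h0 p)
    (h.trans (e p))).1.symm)) (by simp), if_pos (e X).symm]
  have h1 : ∏ r ∈ Ioi X, A r = a ^ (n - X : ℕ) := by
    rw [prod_congr rfl fun r hr => hA r (hX.trans (Fin.lt_def.1 (mem_Ioi.1 hr))), prod_const,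
      Fin.card_Ioi]
    congr 1
  have h2 : ∏ r ∈ Iio X, B r = B 0 * b ^ (X - 1 : ℕ) := by
    have h3 : (0 : Fin (n + 1)) ∈ Iio X := mem_Iio.2 (Fin.lt_def.2 hX)
    rw [← mul_prod_erase _ _ h3, prod_congr rfl fun r hr => hB r
      (Fin.pos_iff_ne_zero.2 (mem_erase.1 hr).1), prod_const, card_erase_of_mem h3, Fin.card_Iio]
  rw [h1, h2]

/-- The row operators of the system with `ν = g - u0 - ξ`. -/
noncomputable def yLay {T : Trig} {g u0 ξ : ℝ} (hS : ∀ u, 0 < u → u ≤ g → 0 < T.S u)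
    (hu : 0 < u0) (hξ : 0 < ξ) (hg : u0 + ξ < g) (N : ℕ) :
    YLay N (tOf T g u0) (γOf T g u0) (zOf T g u0 ξ * tOf T g u0)
      (rho (tOf T g u0) (γOf T g u0) (zOf T g u0 ξ))
      (max (T.S g / T.S (u0 + ξ)) (T.S (u0 + ξ) / T.S g) * (T.S (u0 + ξ) / T.S g)) where
  Bs := Bt T g u0 (sp N (g - u0 - ξ))
  Bx := (T.S (u0 + ξ) / (T.S g * T.S g * T.S (g - (u0 + ξ)) ^ N)) •
    Bt T g (u0 + ξ) (sp N (g - u0 - ξ))
  Dx := (T.S g * T.S (u0 + ξ) ^ N)⁻¹ • Dt T g (u0 + ξ) (sp N (g - u0 - ξ))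
  Bs_nn κ μ := by
    obtain ⟨h1, h2, h3⟩ := Y_Tr_nn hS (u := u0) (ν := g - u0 - ξ) hu.le (by linarith)
      (by linarith) N
    exact Tr_nonneg h1 h2 h3 _ _ _ _
  Bx_nn κ μ := by
    obtain ⟨h1, h2, h3⟩ := Y_Tr_nn hS (u := u0 + ξ) (ν := g - u0 - ξ) (by linarith) (by linarith)
      (by linarith) N
    have hb := hS (u0 + ξ) (by linarith) hg.le
    have ha := hS (g - (u0 + ξ)) (by linarith) (by linarith)
    exact mul_nonneg (by positivity) (Tr_nonneg h1 h2 h3 _ _ _ _)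
  Dx_nn κ μ := by
    obtain ⟨h1, h2, h3⟩ := Y_Tr_nn hS (u := u0 + ξ) (ν := g - u0 - ξ) (by linarith) (by linarith)
      (by linarith) N
    have hb := hS (u0 + ξ) (by linarith) hg.le
    exact mul_nonneg (by positivity) (Tr_nonneg h1 h2 h3 _ _ _ _)
  BB := by rw [Matrix.smul_mul, Matrix.mul_smul, Bt_comm]
  DB κ μ := by
    obtain ⟨h1, h2, h3⟩ := Y_Tr_nn hS (u := u0 + ξ) (ν := g - u0 - ξ) (by linarith) (by linarith)
      (by linarith) N
    obtain ⟨h4, h5, -⟩ := Y_Tr_nn hS (u := u0) (ν := g - u0 - ξ) hu.le (by linarith)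
      (by linarith) N
    have hb := hS (u0 + ξ) (by linarith) hg.le
    have hx := hS ξ hξ (by linarith)
    have h6 := congrFun (congrFun (Dt_exch T g u0 ξ (sp N (g - u0 - ξ))) κ) μ
    have h7 : 0 ≤ (Dt T g u0 (sp N (g - u0 - ξ)) * Bt T g (u0 + ξ) (sp N (g - u0 - ξ))) κ μ := by
      rw [mul_apply]
      exact sum_nonneg fun ν _ => mul_nonneg (Tr_nonneg h4 h5 h3 _ _ _ _)
        (Tr_nonneg h1 h2 h3 _ _ _ _)
    simp only [Matrix.add_apply, Matrix.smul_apply, smul_eq_mul] at h6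
    rw [Matrix.smul_mul, Matrix.mul_smul, Matrix.smul_apply, Matrix.smul_apply, smul_eq_mul,
      smul_eq_mul, rho_zOf hS hu hξ hg, mul_left_comm]
    refine mul_le_mul_of_nonneg_left ?_ (by positivity)
    rw [div_mul_eq_mul_div, le_div_iff₀ hx]
    nlinarith [mul_nonneg h3 h7]
  Bs_le κ μ h := Y_il_le h
  Bx_le κ μ h := Y_il_le (right_ne_zero_of_mul h)
  Bx_ne κ := by
    refine mul_eq_zero_of_right _ (by_contra fun h => ?_)
    obtain ⟨p, ν, -, h1, -⟩ := Bop_interlace h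
    have := congrFun h1 p
    simp [yE] at this
  Bx_two κ μ X hμ h := by
    obtain ⟨p, ν, h1, h2, h3, -⟩ := Bop_interlace (right_ne_zero_of_mul h)
    rwa [(update_inj hμ h1 h2).2]
  Dx_le κ μ h := Dop_mx (right_ne_zero_of_mul h)
  fact κ μ x X hx hxX hκ hμ :=
    Bop_free (a := T.S (g - u0)) (b := T.S u0) (hS _ (by linarith) (by linarith)) hxX
      (fun r hr => by rw [sp_pos _ (hx.trans_le hr), add_zero])
      (fun r hr => by rw [sp_pos _ (hx.trans_le hr), add_zero]) κ μ hκ hμ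
  BD ν μ X hX hμ := by
    obtain ⟨h1, h2, -⟩ := Y_Tr_nn hS (u := u0 + ξ) (ν := g - u0 - ξ) (by linarith) (by linarith)
      (by linarith) N
    have hb := hS (u0 + ξ) (by linarith) hg.le
    have ha := hS (g - (u0 + ξ)) (by linarith) (by linarith)
    have hc := hS g (by linarith) le_rfl
    have hb0 := hS u0 hu (by linarith)
    have ha0 := hS (g - u0) (by linarith) (by linarith)
    have h3 := Bop_le_Dop ha hb hc h1 h2 (p := X)
      (fun r hr => by rw [sp_pos _ (hX.trans_le hr), add_zero])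
      (fun r hr => by rw [sp_pos _ (hX.trans_le hr), add_zero]) ν μ hμ
    have h4 : zOf T g u0 ξ * tOf T g u0 = T.S (u0 + ξ) / T.S (g - (u0 + ξ)) := by
      unfold zOf tOf; field_simp
    rw [Matrix.smul_apply, Matrix.smul_apply, smul_eq_mul, smul_eq_mul, h4]
    refine (mul_le_mul_of_nonneg_left h3 (by positivity)).trans (le_of_eq ?_)
    obtain ⟨d, hd⟩ : ∃ d, N = X + d := ⟨N - X, by have := X.2; omega⟩
    have h5 : N + 1 - 1 - X = d := by omega
    have h6 : T.S (g - (u0 + ξ)) ^ N = T.S (g - (u0 + ξ)) ^ (X : ℕ) * T.S (g - (u0 + ξ)) ^ d := by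
      rw [← pow_add, ← hd]
    have h7 : T.S (u0 + ξ) ^ N = T.S (u0 + ξ) ^ (X : ℕ) * T.S (u0 + ξ) ^ d := by
      rw [← pow_add, ← hd]
    rw [h5, h6, h7, Dt, div_pow, div_pow]
    field_simp
  D0 := by
    have hb := hS (u0 + ξ) (by linarith) hg.le
    have hc := hS g (by linarith) le_rfl
    rw [Matrix.smul_apply, smul_eq_mul, Dt, show yE (N + 1) = fun _ => false from rfl, Dop_empty,
      if_pos rfl, Fin.prod_univ_succ]
    simp only [sp_zero, sp_succ, add_zero, prod_const, card_univ, Fintype.card_fin]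
    rw [show u0 + ξ + (g - u0 - ξ) = g by ring, inv_mul_cancel₀ (by positivity)]
  B0 X hX := by
    have hb := hS (u0 + ξ) (by linarith) hg.le
    have ha := hS (g - (u0 + ξ)) (by linarith) (by linarith)
    have hc := hS g (by linarith) le_rfl
    have hb0 := hS u0 hu (by linarith)
    have ha0 := hS (g - u0) (by linarith) (by linarith)
    have h4 : zOf T g u0 ξ * tOf T g u0 = T.S (u0 + ξ) / T.S (g - (u0 + ξ)) := by
      unfold zOf tOf; field_simp
    rw [Matrix.smul_apply, smul_eq_mul, Bt, Y_empty _ _ _ (T.S (g - (u0 + ξ))) (T.S (u0 + ξ)) X hX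
      (fun r hr => by rw [sp_pos _ hr, add_zero]) (fun r hr => by rw [sp_pos _ hr, add_zero]), h4,
      sp_zero, show u0 + ξ + (g - u0 - ξ) = g by ring]
    obtain ⟨d, hd⟩ : ∃ d, N = X + d := ⟨N - X, by have := X.2; omega⟩
    obtain ⟨e, he⟩ : ∃ e, (X : ℕ) = e + 1 := ⟨X - 1, by omega⟩
    have h6 : T.S (g - (u0 + ξ)) ^ N = T.S (g - (u0 + ξ)) ^ (e + 1) * T.S (g - (u0 + ξ)) ^ d := by
      rw [← pow_add, ← he, ← hd]
    rw [show N - X = d by omega, h6, he, Nat.add_sub_cancel, div_pow, pow_succ (T.S (u0 + ξ))]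
    field_simp

theorem Y_cons {n : ℕ} (A B : Fin (n + 1) → ℝ) (c : ℝ) (wl : ℕ → ℝ) (k : ℕ) : ∀ β : St n,
    YRV (Bop A B c) wl k (Fin.cons false β) = B 0 ^ k * ev (fun _ => Bop (Fin.tail A) (Fin.tail B) c)
      (fun j β => ind (YWall wl j (Fin.cons false β : St (n + 1)))) k β := by
  induction k with
  | zero =>
    intro β
    rw [YRV_zero, ev, pow_zero, one_mul]
    by_cases h : β = fun _ => false
    · subst h
      rw [Pi.single_eq_same, ind_pos]
      funext r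
      refine Fin.cases rfl (fun _ => rfl) r
    · rw [Pi.single_eq_of_ne h, ind_neg fun e => h ?_]
      funext r
      exact congrFun e r.succ
  | succ k ih =>
    intro β
    rw [YRV_succ, ev]
    dsimp only
    rw [Y_vm, Y_vm, ← (Fin.consEquiv fun _ : Fin (n + 1) => Bool).sum_comp, Fintype.sum_prod_type,
      Fintype.sum_bool]
    have e : ∀ (x : Bool) (α : St n), (Fin.consEquiv fun _ : Fin (n + 1) => Bool) (x, α) =
        Fin.cons x α := fun _ _ => rfl
    simp only [e, Bop_cons_false, Fin.cons_zero, Fin.tail_cons, ih]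
    simp only [Bool.true_eq_false, if_false, if_true, mul_zero, sum_const_zero, zero_add, mul_sum]
    exact sum_congr rfl fun α _ => by ring

theorem Y_link {T : Trig} {g u0 ξ : ℝ} (hS : ∀ u, 0 < u → u ≤ g → 0 < T.S u)
    (hu : 0 < u0) (hξ : 0 < ξ) (hg : u0 + ξ < g) (N : ℕ) {wl : ℕ → ℝ} (h0 : ∀ j, 0 ≤ wl j) :
    (YRV (Bt T g u0 (sp N (g - u0 - ξ))) wl N ᵥ* Bt T g (u0 + ξ) (sp N (g - u0 - ξ)))
        (fun _ => true) =
      PP N (tOf T g u0) (γOf T g u0) (fun X => ∀ j ≤ N, (X j : ℝ) ≤ wl j) *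
        Zs T g u0 N ξ (g - u0 - ξ) := by
  have hc := hS g (by linarith) le_rfl
  have hb0 := hS u0 hu (by linarith)
  have ha0 := hS (g - u0) (by linarith) (by linarith)
  have hZ : Zh T g u0 N = ∑ σ : Cfg N, ind (IsDW σ) *
      (weight (T.S (g - u0)) (T.S u0) (T.S g) σ * 1) := by
    simp only [Zh, Zt, Zr, weight, add_zero, mul_one]
  have hZ0 : 0 < Zh T g u0 N := by
    rw [hZ, Bij_sum_true ha0 hb0 hc]; exact Bij_den_pos ha0 hb0 hc N
  rw [Zs_frozen, tOf, γOf, ← prob_eq ha0 hb0 hc, Bij_prob ha0 hb0 hc, ← Bij_sum_true ha0 hb0 hc,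
    ← hZ, Y_vm]
  have h1 : ∀ α, Bt T g (u0 + ξ) (sp N (g - u0 - ξ)) α (fun _ => true) =
      if α = Fin.cons false (fun _ => true) then T.S g * T.S (u0 + ξ) ^ N else 0 := fun α => by
    rw [Bt, Bop_top _ _ _ (by
      rw [sp_zero, show g - (u0 + ξ + (g - u0 - ξ)) = 0 by ring, T.S_zero])]
    simp only [sp_succ, add_zero, prod_const, card_univ, Fintype.card_fin]
  simp only [h1, mul_ite, mul_zero, sum_ite_eq', mem_univ, if_true]
  rw [Bt, Y_cons, sp_zero, show u0 + (g - u0 - ξ) = g - ξ by ring, ← sum_ev]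
  have h2 : ∀ σ : Cfg N, ind (IsDW σ) * ((∏ r : Fin N, ∏ s : Fin N,
      vw (Fin.tail (fun r => T.S (g - (u0 + sp N (g - u0 - ξ) r))) r)
        (Fin.tail (fun r => T.S (u0 + sp N (g - u0 - ξ) r)) r) (T.S g) (σ.1 r.castSucc s)
        (σ.2 r s.castSucc) (σ.1 r.succ s)) *
      ∏ s : Fin N, ind (YWall wl (s + 1) (Fin.cons false (fun r => σ.2 r s.succ) : St (N + 1)))) =
      ind (IsDW σ) * (weight (T.S (g - u0)) (T.S u0) (T.S g) σ *
        ind (∀ j ≤ N, (pathOf σ j : ℝ) ≤ wl j)) := fun σ => by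
    by_cases hσ : IsDW σ
    swap
    · rw [ind_neg hσ, zero_mul, zero_mul]
    have h3 : ∀ s : Fin N, YWall wl (s + 1) (Fin.cons false (fun r => σ.2 r s.succ) : St (N + 1)) ↔
        (pathOf σ (s + 1) : ℝ) ≤ wl (s + 1) := fun s => by
      have h4 := pathOf_eq_mx σ s.succ
      rw [Fin.val_succ] at h4
      rw [h4, YWall]
      by_cases h5 : (fun r => σ.2 r s.succ) = fun _ => false
      · have h6 : (Fin.cons false (fun _ => false) : St (N + 1)) = yE _ := by
          funext r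
          refine Fin.cases rfl (fun _ => rfl) r
        have h7 := h0 (s + 1)
        rw [h5, h6, mx_yE, show (fun _ : Fin N => false) = yE N from rfl, mx_yE]
        push_cast
        exact ⟨fun _ => h7, fun _ => by linarith only [h7]⟩
      · rw [mx_cons_false h5]
        push_cast
        exact add_le_add_iff_right 1
    congr 2
    · simp only [weight, Fin.tail, sp_succ, add_zero]
    by_cases h4 : ∀ j ≤ N, (pathOf σ j : ℝ) ≤ wl j
    · rw [ind_pos h4]
      exact prod_eq_one fun s _ => ind_pos ((h3 s).2 (h4 _ s.2))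
    · rw [ind_neg h4]
      by_contra h5
      refine h4 fun j hj => ?_
      rcases j with _ | j
      · have h6 : pathOf σ 0 = 0 := (cnt_isPath (htOf_cls hσ)).1
        rw [h6]
        exact_mod_cast h0 0
      · obtain ⟨s, rfl⟩ : ∃ s : Fin N, j = s := ⟨⟨j, hj⟩, rfl⟩
        by_contra h6
        have h7 := ind_neg fun h7 => h6 ((h3 s).1 h7)
        exact h5 (prod_eq_zero (mem_univ s) h7)
  rw [sum_congr rfl fun σ _ => h2 σ, mul_pow]
  field_simp

end Pool.Agent.Work.MP_413ea6_mp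
end

-- merged part: Pool.Agent.Work.MP_413ea6_mp.Full
section
-- merged part: Pool.Agent.Work.MP_413ea6_mp.Goal
section
open Filter Topology Finset Matrix

namespace Pool.Agent.Work.MP_413ea6_mp

/-! The two estimates on the outer path. -/

theorem Goal_par {T : Trig} {g u0 : ℝ} (hS : ∀ u, 0 < u → u ≤ g → 0 < T.S u) (hu : 0 < u0)
    (hg : u0 < g) : 0 < tOf T g u0 ∧ 0 < γOf T g u0 :=
  ⟨div_pos (hS _ hu hg.le) (hS _ (by linarith) (by linarith)),
    div_pos (hS _ (by linarith) le_rfl) (hS _ (by linarith) (by linarith))⟩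

theorem Goal_Zs_pos {T : Trig} {g u0 ξ : ℝ} (hS : ∀ u, 0 < u → u ≤ g → 0 < T.S u) (hu : 0 < u0)
    (hξ : 0 < ξ) (hg : u0 + ξ < g) (N : ℕ) : 0 < Zs T g u0 N ξ (g - u0 - ξ) := by
  have hc := hS g (by linarith) le_rfl
  have hb := hS (u0 + ξ) (by linarith) hg.le
  have hb' := hS (g - ξ) (by linarith) (by linarith)
  have hZ : 0 < Zh T g u0 N := Zt_pos T g _ _ hc
    (fun _ _ => hS _ (by linarith) (by linarith)) fun _ _ => hS _ (by linarith) (by linarith)
  rw [Zs_frozen]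
  positivity

theorem Goal_choose {t γ z ε c : ℝ} (ht : 0 < t) (hγ : 0 < γ) (hz : 1 < z) (hε : 0 < ε)
    (hc : 0 < c) : ∃ z2, z < z2 ∧ |ysl t γ z z2 - lamW t γ z| < ε ∧
      (1 + ysl t γ z z2) * Real.log (z2 / z) < c := by
  have hz0 : 0 < z := by linarith
  have h1 := ysl_tendsto ht hγ hz
  have h2 : Tendsto (fun w => Real.log (w / z)) (𝓝[>] z) (𝓝 0) := by
    have h4 : ContinuousAt (fun w => Real.log (w / z)) z :=
      (continuousAt_id.div_const z).log (by simp [hz0.ne'])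
    have h5 := h4.tendsto
    rw [div_self hz0.ne', Real.log_one] at h5
    exact h5.mono_left nhdsWithin_le_nhds
  have h3 := (h1.const_add 1).mul h2
  rw [mul_zero] at h3
  have h4 := (Metric.tendsto_nhds.1 h1 ε hε).and (h3.eventually (gt_mem_nhds hc))
  obtain ⟨z2, h5, h6⟩ := (h4.and self_mem_nhdsWithin).exists
  exact ⟨z2, h6, h5.1, h5.2⟩

theorem Goal_geom {q : ℝ} (h0 : 0 < q) (h1 : q < 1) (C : ℝ) :
    Tendsto (fun N : ℕ => C * ((N : ℝ) + 1) * q ^ N) atTop (𝓝 0) := by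
  have h2 := (tendsto_self_mul_const_pow_of_lt_one h0.le h1).add
    (tendsto_pow_atTop_nhds_zero_of_lt_one h0.le h1)
  have h3 := h2.const_mul C
  rw [add_zero, mul_zero] at h3
  exact h3.congr fun N => by ring

theorem Goal_smul {n : ℕ} (c : ℝ) (p : St n → ℝ) (B M : Matrix (St n) (St n) ℝ) (α μ : St n) :
    ((fun β => p β * (c • B) α β) ᵥ* M) μ = c * ((fun β => p β * B α β) ᵥ* M) μ := by
  rw [← Y_vm_smul]
  congr 2
  funext β
  rw [Matrix.smul_apply, smul_eq_mul]
  ring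

theorem Goal_smul' {n : ℕ} (c : ℝ) (B M : Matrix (St n) (St n) ℝ) (α μ : St n) :
    ((c • B) α ᵥ* M) μ = c * (B α ᵥ* M) μ :=
  Y_vm_smul c (B α) M μ

theorem Goal_smul'' {n : ℕ} (c : ℝ) (f : St n → ℝ) (B : Matrix (St n) (St n) ℝ) (μ : St n) :
    (f ᵥ* (c • B)) μ = c * (f ᵥ* B) μ := by
  rw [vecMul_smul]; rfl

theorem goal_U {T : Trig} {g : ℝ} (K : KData T g) {u0 ξ δ : ℝ} (hu : 0 < u0) (hξ : 0 < ξ)
    (hg : u0 + ξ < g) (hδ : 0 < δ) (hr : 0 ≤ K.rr u0 ξ) :
    Rare (tOf T g u0) (γOf T g u0) fun N X => ∃ j ≤ N, N * K.rr u0 ξ + δ * N ≤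
      (X j : ℝ) - lamW (tOf T g u0) (γOf T g u0) (zOf T g u0 ξ) * j := by
  have hS := K.S_pos
  obtain ⟨ht, hγ⟩ := Goal_par hS hu (by linarith)
  have hz := zOf_gt hS hu hξ hg
  obtain ⟨θ, θ0, θ1, hθ⟩ := tail_up K hu hξ hg (half_pos hδ)
  obtain ⟨z2, hz2, hl, hq⟩ := Goal_choose ht hγ hz (ε := δ / 4) (c := -Real.log θ) (by linarith only [hδ])
    (neg_pos.2 (Real.log_neg θ0 θ1))
  obtain ⟨L, hL, hΦ⟩ := YPhi_lower ht hγ hz hz2
  have hl0 := ysl_pos ht hγ hz hz2
  have hW := rho_pos ht hγ hz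
  have hc := hS g (by linarith only [hu, hξ, hg]) le_rfl
  have hb := hS (u0 + ξ) (by linarith only [hu, hξ]) hg.le
  have ha := hS (g - (u0 + ξ)) (by linarith only [hg]) (by linarith only [hu, hξ])
  set l := ysl (tOf T g u0) (γOf T g u0) (zOf T g u0 ξ) z2 with hl_def
  set η := Real.log (z2 / zOf T g u0 ξ) with hη_def
  set κ := max (T.S g / T.S (u0 + ξ)) (T.S (u0 + ξ) / T.S g) * (T.S (u0 + ξ) / T.S g) with hκ
  have hκ0 : 0 ≤ κ := by positivity
  have q1 : Real.exp ((1 + l) * η) * θ < 1 := by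
    rw [← Real.exp_log θ0, ← Real.exp_add]
    exact Real.exp_lt_one_iff.2 (by linarith only [hq])
  refine Rare.mono ht hγ (B := fun N X => ¬ ∀ j ≤ N,
    (X j : ℝ) ≤ (K.rr u0 ξ + δ / 2) * N + l * j) ?_ ?_
  swap
  · filter_upwards [eventually_ge_atTop 1] with N hN X _ _ ⟨j, hj, h1⟩ h2
    have h3 := h2 j hj
    have h4 : (1 : ℝ) ≤ N := by exact_mod_cast hN
    have h5 : (j : ℝ) ≤ N := by exact_mod_cast hj
    have h6 : (0 : ℝ) ≤ j := Nat.cast_nonneg j
    have h7 := (abs_lt.1 hl).2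
    linarith only [h1, h3, h7, h6, hδ, θ0, θ1, h4, h5, mul_le_mul_of_nonneg_right h7.le h6, mul_pos_of_neg_of_neg (Mathlib.Tactic.Linarith.sub_neg_of_lt hδ) (Mathlib.Tactic.Linarith.sub_neg_of_lt θ0), mul_pos_of_neg_of_neg (Mathlib.Tactic.Linarith.sub_neg_of_lt hδ) (Mathlib.Tactic.Linarith.sub_neg_of_lt θ1), mul_nonneg_of_nonpos_of_nonpos (le_of_lt (Mathlib.Tactic.Linarith.sub_neg_of_lt hδ)) (Mathlib.Tactic.Linarith.sub_nonpos_of_le h4), mul_nonneg_of_nonpos_of_nonpos (le_of_lt (Mathlib.Tactic.Linarith.sub_neg_of_lt hδ)) (Mathlib.Tactic.Linarith.sub_nonpos_of_le h5)]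
  refine squeeze_zero' (Eventually.of_forall fun N => PP_nonneg ht hγ N _) ?_
    (Goal_geom (by positivity) q1
      (κ * rho (tOf T g u0) (γOf T g u0) (zOf T g u0 ξ) / (tOf T g u0 * L)))
  filter_upwards [hθ] with N hN
  have hm : 0 ≤ (K.rr u0 ξ + δ / 2) * N := by positivity
  have hw : Monotone fun j : ℕ => (K.rr u0 ξ + δ / 2) * N + l * j := fun i j hij =>
    add_le_add_right (mul_le_mul_of_nonneg_left (Nat.cast_le.2 hij) hl0.le) _
  have hE := Real.exp_pos (-((1 + l) * η * N))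
  have h1 := (yLay hS hu hξ hg N).goal_one ht hγ (by positivity) hW.le hκ0 hw (by simpa using hm)
    (mul_pos hL hE) N (fun j hj X hX h => hΦ _ N j X hm hj hX h) fun _ => true
  have hA : 0 < T.S (u0 + ξ) / (T.S g * T.S g * T.S (g - (u0 + ξ)) ^ N) := by positivity
  have hZ := Goal_Zs_pos hS hu hξ hg N
  have h2 : (yLay hS hu hξ hg N).Yv ((K.rr u0 ξ + δ / 2) * N + l * (0 : ℕ)) N (fun _ => true) ≤
      T.S (u0 + ξ) / (T.S g * T.S g * T.S (g - (u0 + ξ)) ^ N) *
        (θ ^ N * Zs T g u0 N ξ (g - u0 - ξ)) := by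
    refine le_trans (le_of_eq (Goal_smul _ _ _ _ _ _)) (mul_le_mul_of_nonneg_left
      (le_trans (Y_vm_mono (Y_pow_nn (yLay hS hu hξ hg N).Bs_nn N) (fun β => ?_) _) hN) hA.le)
    refine mul_le_mul_of_nonneg_right (ind_mono fun h => by push_cast at h; linarith only [θ0, θ1, h]) ?_
    exact le_of_mul_le_mul_left (by rw [mul_zero]; exact (yLay hS hu hξ hg N).Bx_nn _ β) hA
  have h3 : ((yLay hS hu hξ hg N).Bx (yE _) ᵥ* (yLay hS hu hξ hg N).Bs ^ N) (fun _ => true) =
      T.S (u0 + ξ) / (T.S g * T.S g * T.S (g - (u0 + ξ)) ^ N) * Zs T g u0 N ξ (g - u0 - ξ) := by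
    rw [Zs_eq_vec]; exact Goal_smul' _ _ _ _ _
  have h4 := (Goal_smul'' (T.S (u0 + ξ) / (T.S g * T.S g * T.S (g - (u0 + ξ)) ^ N)) _ _ _).trans
    (congrArg _ (Y_link hS hu hξ hg N (wl := fun j : ℕ => (K.rr u0 ξ + δ / 2) * N + l * j)
      fun j => by positivity))
  have h5 : (YRV (yLay hS hu hξ hg N).Bs (fun j : ℕ => (K.rr u0 ξ + δ / 2) * N + l * j) N ᵥ*
      (yLay hS hu hξ hg N).Bx) (fun _ => true) = _ := h4
  rw [h3, h5] at h1
  rw [PP_not ht hγ]
  have h6 : 0 ≤ N * (κ * rho (tOf T g u0) (γOf T g u0) (zOf T g u0 ξ) /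
      (tOf T g u0 * (L * Real.exp (-((1 + l) * η * N))))) := by positivity
  have h7 := h1.trans (add_le_add_right (mul_le_mul_of_nonneg_left h2 h6) _)
  have h8 : N * (κ * rho (tOf T g u0) (γOf T g u0) (zOf T g u0 ξ) /
      (tOf T g u0 * (L * Real.exp (-((1 + l) * η * N))))) * θ ^ N ≤
      κ * rho (tOf T g u0) (γOf T g u0) (zOf T g u0 ξ) / (tOf T g u0 * L) * ((N : ℝ) + 1) *
        (Real.exp ((1 + l) * η) * θ) ^ N := by
    rw [mul_pow, ← Real.exp_nat_mul, Real.exp_neg, mul_comm (N : ℝ) ((1 + l) * η)]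
    have h9 := Real.exp_pos ((1 + l) * η * N)
    have h10 : 0 ≤ κ * rho (tOf T g u0) (γOf T g u0) (zOf T g u0 ξ) / (tOf T g u0 * L) *
        (Real.exp ((1 + l) * η * N) * θ ^ N) := by positivity
    refine le_trans (le_of_eq ?_) ((mul_le_mul_of_nonneg_left
      (le_add_of_nonneg_right zero_le_one : (N : ℝ) ≤ N + 1) h10).trans (le_of_eq (by ring)))
    field_simp
  refine le_trans ?_ h8
  refine le_of_mul_le_mul_right ?_ (mul_pos hA hZ)
  linarith only [h7]

theorem goal_L {T : Trig} {g : ℝ} (K : KData T g) {u0 ξ δ : ℝ} (hu : 0 < u0) (hξ : 0 < ξ)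
    (hg : u0 + ξ < g) (hδ : 0 < δ) :
    Rare (tOf T g u0) (γOf T g u0) fun N X => ∀ j ≤ N,
      (X j : ℝ) - lamW (tOf T g u0) (γOf T g u0) (zOf T g u0 ξ) * j + δ * N ≤
        N * K.rr u0 ξ := by
  have hS := K.S_pos
  obtain ⟨ht, hγ⟩ := Goal_par hS hu (by linarith)
  have hz := zOf_gt hS hu hξ hg
  by_cases hr : K.rr u0 ξ < δ
  · refine Rare.mono ht hγ (B := fun _ _ => False) (by simp [Rare, PP_false]) ?_
    filter_upwards [eventually_ge_atTop 1] with N hN X _ _ h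
    have h1 := h 0 (Nat.zero_le N)
    have h2 : (0 : ℝ) ≤ X 0 := Nat.cast_nonneg _
    have h4 : (1 : ℝ) ≤ N := by exact_mod_cast hN
    push_cast at h1
    linarith only [hr, h1, h4, mul_nonneg_of_nonpos_of_nonpos (le_of_lt (Mathlib.Tactic.Linarith.sub_neg_of_lt hr)) (Mathlib.Tactic.Linarith.sub_nonpos_of_le h4)]
  obtain ⟨θ, θ0, θ1, hθ⟩ := tail_down K hu hξ hg (ε := δ / 4) (by linarith only [hδ])
  obtain ⟨z3, hz3, hl3, -⟩ := Goal_choose ht hγ hz (ε := δ / 16) (c := 1) (by linarith) one_pos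
  have hη3 : 0 < Real.log (z3 / zOf T g u0 ξ) :=
    Real.log_pos ((one_lt_div (by linarith only [hz, θ0, θ1])).2 hz3)
  obtain ⟨z2, hz2, hl, hq⟩ := Goal_choose ht hγ hz (ε := δ / 16)
    (c := Real.log (z3 / zOf T g u0 ξ) * (δ / 8)) (by linarith only [hδ]) (by positivity)
  obtain ⟨L, hL, hΦ⟩ := YPhi_lower ht hγ hz hz2
  have hΥ := YUps_upper ht hγ hz hz3
  have hl0 := ysl_pos ht hγ hz hz2
  have hW := rho_pos ht hγ hz
  have hc := hS g (by linarith only [hu, hξ, hg]) le_rfl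
  have hb := hS (u0 + ξ) (by linarith only [hu, hξ]) hg.le
  have ha := hS (g - (u0 + ξ)) (by linarith only [hg]) (by linarith only [hu, hξ])
  set l := ysl (tOf T g u0) (γOf T g u0) (zOf T g u0 ξ) z2 with hl_def
  set l3 := ysl (tOf T g u0) (γOf T g u0) (zOf T g u0 ξ) z3 with hl3_def
  set η := Real.log (z2 / zOf T g u0 ξ) with hη_def
  set η3 := Real.log (z3 / zOf T g u0 ξ) with hη3_def
  have q1 : Real.exp ((1 + l) * η - η3 * (δ / 8)) < 1 := Real.exp_lt_one_iff.2 (by linarith only [hq])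
  refine Rare.mono ht hγ (B := fun N X => ∀ j ≤ N,
    (X j : ℝ) ≤ (K.rr u0 ξ - 3 * δ / 4) * N + l * j) ?_ ?_
  swap
  · refine Eventually.of_forall fun N X _ _ h1 j hj => ?_
    have h3 := h1 j hj
    have h5 : (j : ℝ) ≤ N := by exact_mod_cast hj
    have h6 : (0 : ℝ) ≤ j := Nat.cast_nonneg j
    have h7 := (abs_lt.1 hl).1
    linarith only [h3, h7, h6, hδ, h5, mul_le_mul_of_nonneg_right h7.le h6, mul_nonneg_of_nonpos_of_nonpos (Mathlib.Tactic.Linarith.sub_nonpos_of_le (Mathlib.Tactic.Linarith.natCast_nonneg ℝ N)) (le_of_lt (Mathlib.Tactic.Linarith.sub_neg_of_lt hδ)), mul_nonneg_of_nonpos_of_nonpos (le_of_lt (Mathlib.Tactic.Linarith.sub_neg_of_lt hδ)) (Mathlib.Tactic.Linarith.sub_nonpos_of_le h5)]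
  have hlim := (tendsto_pow_atTop_nhds_zero_of_lt_one θ0.le θ1).add
    (Goal_geom (Real.exp_pos _) q1 (Real.exp (η3 * (l + 1)) / L))
  rw [add_zero] at hlim
  refine squeeze_zero' (Eventually.of_forall fun N => PP_nonneg ht hγ N _) ?_ hlim
  filter_upwards [hθ, (tendsto_natCast_atTop_atTop (R := ℝ)).eventually_ge_atTop (4 / δ)]
    with N hN hN1
  have hN2 : 4 ≤ δ * N := by rwa [div_le_iff₀' hδ] at hN1
  have hN0 : (0 : ℝ) ≤ N := Nat.cast_nonneg N
  have hm : 0 ≤ (K.rr u0 ξ - 3 * δ / 4) * N := mul_nonneg (by linarith only [hδ, hr]) hN0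
  have hw : Monotone fun j : ℕ => (K.rr u0 ξ - 3 * δ / 4) * N + l * j := fun i j hij =>
    add_le_add_right (mul_le_mul_of_nonneg_left (Nat.cast_le.2 hij) hl0.le) _
  have hE := Real.exp_pos (-((1 + l) * η * N))
  have h1 := (yLay hS hu hξ hg N).goal_two ht hγ (by positivity) hw (by simpa using hm)
    (m := (K.rr u0 ξ - δ / 2) * N) (U := Real.exp (η3 * (l + 1 - δ / 8 * N)))
    (by push_cast; linarith only [θ0, θ1, hN2]) (mul_pos hL hE) (Real.exp_pos _).le
    (fun j hj X hX h => hΦ _ N j X hm hj hX h) fun j hj X hX => (hΥ _ j X).trans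
      (mul_le_mul_of_nonneg_right (Real.exp_le_exp.2 (mul_le_mul_of_nonneg_left (by
        have h5 : (j : ℝ) ≤ N := by exact_mod_cast hj
        have h6 : (0 : ℝ) ≤ j := Nat.cast_nonneg j
        have h7 : l - l3 ≤ δ / 8 := by linarith only [hl, hl3, (abs_lt.1 hl).2, (abs_lt.1 hl3).1]
        push_cast at hX
        linarith only [hX, h7, h6, hδ, h5, mul_le_mul_of_nonneg_right h7 h6, mul_nonneg_of_nonpos_of_nonpos (le_of_lt (Mathlib.Tactic.Linarith.sub_neg_of_lt hδ)) (Mathlib.Tactic.Linarith.sub_nonpos_of_le h5)]) hη3.le)) (by positivity))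
  have hA : 0 < T.S (u0 + ξ) / (T.S g * T.S g * T.S (g - (u0 + ξ)) ^ N) := by positivity
  have hZ := Goal_Zs_pos hS hu hξ hg N
  have h2 : (yLay hS hu hξ hg N).Lo ((K.rr u0 ξ - δ / 2) * N) N (fun _ => true) ≤
      T.S (u0 + ξ) / (T.S g * T.S g * T.S (g - (u0 + ξ)) ^ N) *
        (θ ^ N * Zs T g u0 N ξ (g - u0 - ξ)) := by
    refine le_trans (le_of_eq (Goal_smul _ _ _ _ _ _)) (mul_le_mul_of_nonneg_left
      (le_trans (Y_vm_mono (Y_pow_nn (yLay hS hu hξ hg N).Bs_nn N) (fun β => ?_) _) hN) hA.le)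
    refine mul_le_mul_of_nonneg_right (ind_mono fun h => by linarith only [hN2, h]) ?_
    exact le_of_mul_le_mul_left (by rw [mul_zero]; exact (yLay hS hu hξ hg N).Bx_nn _ β) hA
  have h3 : ((yLay hS hu hξ hg N).Bx (yE _) ᵥ* (yLay hS hu hξ hg N).Bs ^ N) (fun _ => true) =
      T.S (u0 + ξ) / (T.S g * T.S g * T.S (g - (u0 + ξ)) ^ N) * Zs T g u0 N ξ (g - u0 - ξ) := by
    rw [Zs_eq_vec]; exact Goal_smul' _ _ _ _ _
  have h4 := (Goal_smul'' (T.S (u0 + ξ) / (T.S g * T.S g * T.S (g - (u0 + ξ)) ^ N)) _ _ _).trans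
    (congrArg _ (Y_link hS hu hξ hg N (wl := fun j : ℕ => (K.rr u0 ξ - 3 * δ / 4) * N + l * j)
      fun j => by positivity))
  have h5 : (YRV (yLay hS hu hξ hg N).Bs (fun j : ℕ => (K.rr u0 ξ - 3 * δ / 4) * N + l * j) N ᵥ*
      (yLay hS hu hξ hg N).Bx) (fun _ => true) = _ := h4
  rw [h3, h5] at h1
  have h8 : Real.exp (η3 * (l + 1 - δ / 8 * N)) / (L * Real.exp (-((1 + l) * η * N))) =
      Real.exp (η3 * (l + 1)) / L * Real.exp ((1 + l) * η - η3 * (δ / 8)) ^ N := by
    rw [← Real.exp_nat_mul, div_mul_eq_div_div_swap, ← Real.exp_sub,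
      div_mul_eq_mul_div (Real.exp _), ← Real.exp_add]
    congr 2
    ring
  rw [h8] at h1
  refine le_of_mul_le_mul_right ?_ (mul_pos hA hZ)
  linarith only [hS, hu, hξ, hg, h1, h2]

end Pool.Agent.Work.MP_413ea6_mp
end

-- merged part: Pool.Agent.Work.MP_413ea6_mp.EndB
section
open Filter Topology Finset Matrix

namespace Pool.Agent.Work.MP_413ea6_mp

/-! The reflection symmetry of the family of lines, and continuity of `r` at `1`. -/

theorem EndB_id (T : Trig) (p x h : ℝ) :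
    T.S (p + x) * T.S (x + h) - T.S h * T.S p = T.S x * T.S (p + x + h) := by
  rw [T.S_add (p + x) h, T.C_add p x, T.S_add p x, T.S_add x h]
  linear_combination T.S p * T.S h * T.pyth x

theorem lamW_zOf {T : Trig} {g u0 ξ : ℝ} (hS : ∀ u, 0 < u → u ≤ g → 0 < T.S u) (hu : 0 < u0)
    (hξ : 0 < ξ) (hg : u0 + ξ < g) :
    lamW (tOf T g u0) (γOf T g u0) (zOf T g u0 ξ) =
      T.S (g - (u0 + ξ)) * T.S (u0 + ξ) / (T.S (g - ξ) * T.S ξ) := by
  have i1 := EndB_id T u0 ξ (g - (u0 + ξ))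
  have i2 := EndB_id T u0 (g - (u0 + ξ)) ξ
  rw [show ξ + (g - (u0 + ξ)) = g - u0 by ring, show u0 + ξ + (g - (u0 + ξ)) = g by ring] at i1
  rw [show u0 + (g - (u0 + ξ)) = g - ξ by ring, show g - (u0 + ξ) + ξ = g - u0 by ring,
    show g - ξ + ξ = g by ring] at i2
  have ha := hS (g - u0) (by linarith) (by linarith)
  have hb := hS u0 hu (by linarith)
  have hc := hS g (by linarith) le_rfl
  have ha' := hS (g - (u0 + ξ)) (by linarith) (by linarith)
  have hb' := hS (u0 + ξ) (by linarith) (by linarith)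
  have hx := hS ξ hξ (by linarith)
  have hy := hS (g - ξ) (by linarith) (by linarith)
  unfold lamW zOf tOf γOf
  generalize T.S (g - u0) = a at *
  generalize T.S u0 = b at *
  generalize T.S g = c at *
  generalize T.S (g - (u0 + ξ)) = a' at *
  generalize T.S (u0 + ξ) = b' at *
  generalize T.S ξ = x at *
  generalize T.S (g - ξ) = y at *
  have e1 : b' / a' / (b / a) - 1 = x * c / (a' * b) := by
    field_simp
    linarith only [i1]
  have e2 : (b / a) ^ 2 * (x * c / (a' * b)) + (c / a) ^ 2 = c * y / (a * a') := by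
    field_simp
    linear_combination -i2
  rw [e1, e2]
  field_simp

theorem EndB_L {T : Trig} {g : ℝ} (K : KData T g) {u0 x : ℝ} (hu : 0 < u0) (hx : 0 < x)
    (hg : u0 + x < g) :
    deriv (K.L u0) x - deriv (K.L u0) (g - u0 - x) =
      T.S g / (T.S (g - (u0 + x)) * T.S (u0 + x)) - T.S g / (T.S (g - x) * T.S x) := by
  have hS := K.S_pos
  have ha' := hS (g - (u0 + x)) (by linarith) (by linarith)
  have hb' := hS (u0 + x) (by linarith) (by linarith)
  have hx' := hS x hx (by linarith)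
  have hy := hS (g - x) (by linarith) (by linarith)
  have d1 : HasDerivAt (K.L u0) (deriv (K.L u0) x) x := (L_diff K hu hx hg).1.hasDerivAt
  have d2 : HasDerivAt (K.L u0) (deriv (K.L u0) (g - u0 - x)) (g - u0 - x) :=
    (L_diff K hu (by linarith) (by linarith)).1.hasDerivAt
  have l1 : HasDerivAt (fun y : ℝ => g - u0 - y) (-1) x := by
    simpa using (hasDerivAt_id' x).const_sub (g - u0)
  have l2 : HasDerivAt (fun y : ℝ => u0 + y) 1 x := (hasDerivAt_id' x).const_add u0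
  have l3 : HasDerivAt (fun y : ℝ => g - y) (-1) x := by
    simpa using (hasDerivAt_id' x).const_sub g
  have l4 : HasDerivAt (fun y : ℝ => g - (u0 + y)) (-1) x := by
    simpa using l2.const_sub g
  have d3 : HasDerivAt (fun y => K.L u0 y + K.L u0 (g - u0 - y))
      (deriv (K.L u0) x + deriv (K.L u0) (g - u0 - x) * (-1)) x :=
    d1.add (HasDerivAt.comp (h := fun y : ℝ => g - u0 - y) x d2 l1)
  have s2 : HasDerivAt (fun y => T.S (u0 + y)) (T.C (u0 + x) * 1) x :=
    HasDerivAt.comp (h := fun y : ℝ => u0 + y) x (T.dS _) l2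
  have s3 : HasDerivAt (fun y => T.S (g - y)) (T.C (g - x) * (-1)) x :=
    HasDerivAt.comp (h := fun y : ℝ => g - y) x (T.dS _) l3
  have s4 : HasDerivAt (fun y => T.S (g - (u0 + y))) (T.C (g - (u0 + x)) * (-1)) x :=
    HasDerivAt.comp (h := fun y : ℝ => g - (u0 + y)) x (T.dS _) l4
  have d4 : HasDerivAt (fun y => Real.log (T.S (u0 + y)) + Real.log (T.S (g - y)) -
      Real.log (T.S (g - (u0 + y))) - Real.log (T.S y))
      (T.C (u0 + x) * 1 / T.S (u0 + x) + T.C (g - x) * (-1) / T.S (g - x) -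
        T.C (g - (u0 + x)) * (-1) / T.S (g - (u0 + x)) - T.C x / T.S x) x :=
    (((s2.log hb'.ne').add (s3.log hy.ne')).sub (s4.log ha'.ne')).sub ((T.dS x).log hx'.ne')
  have ev : (fun y => K.L u0 y + K.L u0 (g - u0 - y)) =ᶠ[𝓝 x]
      fun y => Real.log (T.S (u0 + y)) + Real.log (T.S (g - y)) -
        Real.log (T.S (g - (u0 + y))) - Real.log (T.S y) := by
    filter_upwards [Ioo_mem_nhds hx (show x < g - u0 by linarith)] with y hy
    have := Λ_symm K hu hy.1 (by linarith [hy.2])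
    unfold KData.L
    rw [show g - (u0 + (g - u0 - y)) = y by ring]
    linarith only [this]
  have key := d3.unique (d4.congr_of_eventuallyEq ev)
  have g1 : T.S g = T.S (g - (u0 + x)) * T.C (u0 + x) + T.C (g - (u0 + x)) * T.S (u0 + x) := by
    rw [← T.S_add]; congr 1; ring
  have g2 : T.S g = T.S (g - x) * T.C x + T.C (g - x) * T.S x := by
    rw [← T.S_add]; congr 1; ring
  have f1 : T.S g / (T.S (g - (u0 + x)) * T.S (u0 + x)) =
      T.C (u0 + x) / T.S (u0 + x) + T.C (g - (u0 + x)) / T.S (g - (u0 + x)) := by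
    rw [g1]; field_simp
  have f2 : T.S g / (T.S (g - x) * T.S x) = T.C x / T.S x + T.C (g - x) / T.S (g - x) := by
    rw [g2]; field_simp
  rw [f1, f2]
  have : T.C (u0 + x) * 1 / T.S (u0 + x) + T.C (g - x) * (-1) / T.S (g - x) -
        T.C (g - (u0 + x)) * (-1) / T.S (g - (u0 + x)) - T.C x / T.S x =
      T.C (u0 + x) / T.S (u0 + x) + T.C (g - (u0 + x)) / T.S (g - (u0 + x)) -
        (T.C x / T.S x + T.C (g - x) / T.S (g - x)) := by ring
  linarith only [key, this]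

theorem r_symm {T : Trig} {g : ℝ} (K : KData T g) {u0 : ℝ} (hu : 0 < u0) (hug : u0 < g)
    {r : ℝ → ℝ} (hr : ∀ ξ, 0 < ξ → u0 + ξ < g → r (zOf T g u0 ξ) = K.rr u0 ξ) {z w : ℝ}
    (hz : 1 < z) (hw : 1 < w)
    (h : lamW (tOf T g u0) (γOf T g u0) z * lamW (tOf T g u0) (γOf T g u0) w = 1) :
    r z = 1 - (1 - r w) / lamW (tOf T g u0) (γOf T g u0) w := by
  have hS := K.S_pos
  obtain ⟨x, hx, hg, rfl⟩ := zOf_surj hS hu hug hz
  have hx2 : 0 < g - u0 - x := by linarith
  have hg2 : u0 + (g - u0 - x) < g := by linarith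
  have ha' := hS (g - (u0 + x)) (by linarith) (by linarith)
  have hb' := hS (u0 + x) (by linarith) (by linarith)
  have hx' := hS x hx (by linarith)
  have hy := hS (g - x) (by linarith) (by linarith)
  have hc := hS g (by linarith) le_rfl
  have ht : 0 < tOf T g u0 := div_pos (hS u0 hu hug.le) (hS _ (by linarith) (by linarith))
  have hγ : 0 < γOf T g u0 := div_pos hc (hS _ (by linarith) (by linarith))
  have m1 := lamW_zOf hS hu hx hg
  have m2 := lamW_zOf hS hu hx2 hg2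
  rw [show g - (u0 + (g - u0 - x)) = x by ring, show u0 + (g - u0 - x) = g - x by ring,
    show g - (g - u0 - x) = u0 + x by ring, show g - u0 - x = g - (u0 + x) by ring] at m2
  have m3 : lamW (tOf T g u0) (γOf T g u0) w =
      T.S x * T.S (g - x) / (T.S (u0 + x) * T.S (g - (u0 + x))) := by
    rw [m1] at h
    field_simp at h ⊢
    linarith only [h]
  have hw' : w = zOf T g u0 (g - u0 - x) := by
    refine (lamW_anti ht hγ).injOn hw (zOf_gt hS hu hx2 hg2) ?_
    rw [m3, show g - u0 - x = g - (u0 + x) by ring, m2]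
  have k := EndB_L K hu hx hg
  rw [m3, hr x hx hg, hw', hr _ hx2 hg2]
  unfold KData.rr
  rw [(logz_deriv hS hu hug (by linarith only [hu, hx]) hg).deriv, (logz_deriv hS hu hug (by linarith only [hu, hg]) hg2).deriv,
    show g - (u0 + (g - u0 - x)) = x by ring, show u0 + (g - u0 - x) = g - x by ring]
  rw [sub_eq_iff_eq_add] at k
  rw [k]
  field_simp
  ring

theorem r_at_one {T : Trig} {g : ℝ} (K : KData T g) {u0 : ℝ} (hu : 0 < u0) (hug : u0 < g)
    {r : ℝ → ℝ} (hr : ∀ ξ, 0 < ξ → u0 + ξ < g → r (zOf T g u0 ξ) = K.rr u0 ξ) :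
    Tendsto r (𝓝[>] 1) (𝓝 (K.r1 u0)) := by
  have hS := K.S_pos
  intro s hs
  have h1 := rr_zero K hu hug hs
  rw [Filter.mem_map] at h1 ⊢
  obtain ⟨δ, hδ, hsub⟩ := mem_nhdsGT_iff_exists_Ioo_subset.1 h1
  have hδ' : 0 < δ := hδ
  have hm : 0 < min δ (g - u0) := lt_min hδ' (by linarith)
  have hm1 := min_le_left δ (g - u0)
  have hm2 := min_le_right δ (g - u0)
  set x0 := min δ (g - u0) / 2 with hx0
  have p0 : 0 < x0 := by linarith only [hm, hx0]
  have p1 : u0 + x0 < g := by linarith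
  refine mem_nhdsGT_iff_exists_Ioo_subset.2 ⟨zOf T g u0 x0, zOf_gt hS hu p0 p1, ?_⟩
  intro z hz
  obtain ⟨x, hx, hg, rfl⟩ := zOf_surj hS hu hug hz.1
  have hlt : x ≤ x0 := by
    by_contra hc
    push Not at hc
    have q := zOf_gt (u0 := u0 + x0) (ξ := x - x0) hS (by linarith) (by linarith) (by linarith)
    have t0 : 0 < tOf T g u0 := div_pos (hS u0 hu hug.le) (hS _ (by linarith only [p0, hg, hc]) (by linarith))
    have t1 : 0 < tOf T g (u0 + x0) :=
      div_pos (hS _ (by linarith) p1.le) (hS _ (by linarith only [hg, hc]) (by linarith only [hu, p0]))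
    have h2 := hz.2
    unfold zOf at q h2
    rw [show u0 + x0 + (x - x0) = u0 + x by ring, one_lt_div t1] at q
    rw [div_lt_div_iff_of_pos_right t0] at h2
    linarith
  show r (zOf T g u0 x) ∈ s
  rw [hr x hx hg]
  exact hsub ⟨hx, by linarith only [hm1, hx0, p0, hlt]⟩

end Pool.Agent.Work.MP_413ea6_mp
end

-- merged part: Pool.Agent.Work.MP_413ea6_mp.Lap
section
open Filter Topology Finset MeasureTheory

namespace Pool.Agent.Work.MP_413ea6_mp

/-! A Laplace transform. -/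

/-- The integrand on a half line. -/
noncomputable def LapF (a b x : ℝ) : ℝ :=
  (Real.exp (-a * x) - Real.exp (-b * x)) / (1 - Real.exp (-Real.pi * x))

theorem Lap_q {x : ℝ} (hx : 0 < x) : Real.exp (-Real.pi * x) < 1 :=
  Real.exp_lt_one_iff.2 (mul_neg_of_neg_of_pos (neg_neg_of_pos Real.pi_pos) hx)

theorem Lap_bd {a b x : ℝ} (hab : a ≤ b) (hb : b ≤ a + Real.pi) (hx : 0 < x) :
    0 ≤ LapF a b x ∧ LapF a b x ≤ Real.exp (-a * x) := by
  have h := sub_pos.2 (Lap_q hx)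
  refine ⟨div_nonneg (sub_nonneg.2 (Real.exp_le_exp.2 (by linarith only [hab, hx, mul_nonneg_of_nonpos_of_nonpos (Mathlib.Tactic.Linarith.sub_nonpos_of_le hab) (le_of_lt (Mathlib.Tactic.Linarith.sub_neg_of_lt hx))]))) h.le, ?_⟩
  rw [LapF, div_le_iff₀ h, mul_sub, mul_one, ← Real.exp_add]
  exact sub_le_sub_left (Real.exp_le_exp.2 (by linarith only [hb, hx, mul_nonneg_of_nonpos_of_nonpos (Mathlib.Tactic.Linarith.sub_nonpos_of_le hb) (le_of_lt (Mathlib.Tactic.Linarith.sub_neg_of_lt hx))])) _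

theorem Lap_sum (a b : ℝ) {x : ℝ} (hx : 0 < x) (N : ℕ) :
    ∑ n ∈ range N, (Real.exp (-(a + n * Real.pi) * x) - Real.exp (-(b + n * Real.pi) * x)) =
      LapF a b x * (1 - Real.exp (-Real.pi * x) ^ N) := by
  have h := (sub_pos.2 (Lap_q hx)).ne'
  have e : ∀ (c : ℝ) (n : ℕ), Real.exp (-(c + n * Real.pi) * x) =
      Real.exp (-c * x) * Real.exp (-Real.pi * x) ^ n := fun c n => by
    rw [← Real.exp_nat_mul, ← Real.exp_add]
    congr 1
    ring
  induction N with
  | zero => simp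
  | succ N ih =>
    rw [sum_range_succ, ih, e, e, LapF]
    generalize Real.exp (-Real.pi * x) = q at h ⊢
    field_simp
    ring

theorem Lap_meas (a b : ℝ) : Measurable (LapF a b) := by
  unfold LapF
  fun_prop

theorem Lap_int {a b : ℝ} (ha : 0 < a) (hab : a ≤ b) (hb : b ≤ a + Real.pi) :
    IntegrableOn (LapF a b) (Set.Ioi 0) :=
  (integrableOn_exp_mul_Ioi (neg_neg_of_pos ha) 0).mono' (Lap_meas a b).aestronglyMeasurable
    ((ae_restrict_mem measurableSet_Ioi).mono fun _ hx => by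
      rw [Real.norm_of_nonneg (Lap_bd hab hb hx).1]
      exact (Lap_bd hab hb hx).2)

theorem Lap_half {a b : ℝ} (ha : 0 < a) (hab : a ≤ b) (hb : b ≤ a + Real.pi) :
    Tendsto (fun N : ℕ => ∑ n ∈ range N, (1 / (a + n * Real.pi) - 1 / (b + n * Real.pi))) atTop
      (𝓝 (∫ x in Set.Ioi 0, LapF a b x)) := by
  have key := tendsto_integral_of_dominated_convergence (μ := volume.restrict (Set.Ioi (0 : ℝ)))
    (F := fun (N : ℕ) x => LapF a b x * (1 - Real.exp (-Real.pi * x) ^ N)) (f := LapF a b)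
    (LapF a b) (fun N => ((Lap_meas a b).mul (by fun_prop)).aestronglyMeasurable)
    (Lap_int ha hab hb)
    (fun N => (ae_restrict_mem measurableSet_Ioi).mono fun x hx => by
      have h1 := (Lap_bd hab hb hx).1
      have h2 := pow_le_one₀ (n := N) (Real.exp_pos _).le (Lap_q hx).le
      rw [Real.norm_of_nonneg (mul_nonneg h1 (sub_nonneg.2 h2))]
      exact mul_le_of_le_one_right h1 (sub_le_self _ (by positivity)))
    ((ae_restrict_mem measurableSet_Ioi).mono fun x hx => by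
      simpa using (tendsto_const_nhds.sub (tendsto_pow_atTop_nhds_zero_of_lt_one
        (Real.exp_pos _).le (Lap_q hx))).const_mul (LapF a b x) (a := 1 - 0))
  refine key.congr fun N => ?_
  have hn : ∀ {c : ℝ}, 0 < c → ∀ n : ℕ, -(c + n * Real.pi) < 0 := fun hc n =>
    neg_neg_of_pos (by positivity)
  have hb0 := ha.trans_le hab
  rw [← setIntegral_congr_fun measurableSet_Ioi fun x hx => Lap_sum a b hx N,
    integral_finsetSum]
  swap
  · exact fun n _ =>
      (integrableOn_exp_mul_Ioi (hn ha n) 0).sub (integrableOn_exp_mul_Ioi (hn hb0 n) 0)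
  refine sum_congr rfl fun n _ => ?_
  rw [integral_sub (integrableOn_exp_mul_Ioi (hn ha n) 0) (integrableOn_exp_mul_Ioi (hn hb0 n) 0),
    integral_exp_mul_Ioi (hn ha n), integral_exp_mul_Ioi (hn hb0 n), mul_zero, mul_zero,
    Real.exp_zero, neg_div_neg_eq, neg_div_neg_eq]

theorem Lap_cot0 {x : ℝ} (h0 : 0 < x) (h1 : x < 1) :
    Tendsto (fun N : ℕ => ∑ j ∈ range N, (1 / (x - (j + 1)) + 1 / (x + (j + 1)))) atTop
      (𝓝 (Real.pi * Real.cot (Real.pi * x) - 1 / x)) := by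
  have hx : (x : ℂ) ∈ Complex.integerComplement := by
    rintro ⟨n, hn⟩
    obtain rfl : (n : ℝ) = x := by exact_mod_cast hn
    have a : 0 < n := by exact_mod_cast h0
    have b : n < 1 := by exact_mod_cast h1
    omega
  rw [← tendsto_ofReal_iff]
  push_cast
  exact tendsto_logDeriv_euler_cot_sub hx

theorem Lap_cot {w : ℝ} (h0 : 0 < w) (h1 : w < Real.pi) :
    Tendsto (fun N : ℕ => ∑ n ∈ range N, (1 / (w + n * Real.pi) - 1 / (Real.pi - w + n * Real.pi)))
      atTop (𝓝 (Real.cos w / Real.sin w)) := by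
  have hp := Real.pi_pos
  have h2 : Tendsto (fun N : ℕ => 1 / (w + N * Real.pi)) atTop (𝓝 0) :=
    tendsto_const_nhds.div_atTop (tendsto_atTop_add_const_left _ _
      (tendsto_natCast_atTop_atTop.atTop_mul_const hp))
  have h3 := (((Lap_cot0 (div_pos h0 hp) ((div_lt_one hp).2 h1)).div_const Real.pi).const_add
    (1 / w)).sub h2
  convert h3 using 2 with N
  · induction N with
    | zero => simp
    | succ N ih =>
      have a : 0 < Real.pi - w + N * Real.pi := by have := sub_pos.2 h1; positivity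
      have e1 : 1 / (w / Real.pi - (N + 1)) / Real.pi = -(1 / (Real.pi - w + N * Real.pi)) := by
        rw [div_div, ← div_neg]
        congr 1
        field_simp
        ring
      have e2 : 1 / (w / Real.pi + (N + 1)) / Real.pi = 1 / (w + (N + 1 : ℕ) * Real.pi) := by
        rw [div_div]
        congr 1
        push_cast
        field_simp
      rw [sum_range_succ, ih, sum_range_succ, add_div, add_div, e1, e2]
      ring
  · rw [mul_div_cancel₀ _ hp.ne', Real.cot_eq_cos_div_sin]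
    field_simp
    ring

theorem Lap_pos (g u x : ℝ) :
    Real.exp (u * x) * ((Real.exp ((Real.pi - g) * x) - 1) / (Real.exp (Real.pi * x) - 1)) =
      LapF (g - u) (Real.pi - u) x := by
  rw [LapF, ← mul_div_mul_right _ _ (Real.exp_pos (-Real.pi * x)).ne', ← mul_div_assoc]
  congr 1
  · rw [sub_mul, one_mul, mul_sub, ← Real.exp_add, ← Real.exp_add, ← Real.exp_add]
    congr 2 <;> ring
  · rw [sub_mul, one_mul, ← Real.exp_add]
    simp

theorem Lap_neg (g u x : ℝ) :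
    Real.exp (u * -x) * ((Real.exp ((Real.pi - g) * -x) - 1) / (Real.exp (Real.pi * -x) - 1)) =
      LapF u (u + Real.pi - g) x := by
  rw [LapF, ← neg_div_neg_eq, neg_sub, neg_sub, ← mul_div_assoc, mul_sub, mul_one, ← Real.exp_add]
  congr 3 <;> ring

theorem Lap_parts {g u : ℝ} (hu : 0 < u) (hug : u < g) (hg : g < Real.pi) :
    IntegrableOn (fun x : ℝ => Real.exp (u * x) *
      ((Real.exp ((Real.pi - g) * x) - 1) / (Real.exp (Real.pi * x) - 1))) (Set.Iic 0) ∧
    IntegrableOn (fun x : ℝ => Real.exp (u * x) *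
      ((Real.exp ((Real.pi - g) * x) - 1) / (Real.exp (Real.pi * x) - 1))) (Set.Ioi 0) := by
  constructor
  · have h := Lap_int (a := u) (b := u + Real.pi - g) hu (by linarith) (by linarith)
    rw [← neg_zero] at h
    rw [integrableOn_Iic_iff_integrableOn_Iio]
    exact h.comp_neg_Iio.congr_fun (fun x _ => by simp only [← Lap_neg, neg_neg]) measurableSet_Iio
  · simp only [Lap_pos]
    exact Lap_int (sub_pos.2 hug) (by linarith) (by linarith)

theorem lap_int {g u : ℝ} (hu : 0 < u) (hug : u < g) (hg : g < Real.pi) :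
    Integrable fun x : ℝ => Real.exp (u * x) *
      ((Real.exp ((Real.pi - g) * x) - 1) / (Real.exp (Real.pi * x) - 1)) := by
  rw [← integrableOn_univ, ← Set.Iic_union_Ioi (a := (0 : ℝ))]
  exact (Lap_parts hu hug hg).1.union (Lap_parts hu hug hg).2

theorem lap_sin {g u : ℝ} (hu : 0 < u) (hug : u < g) (hg : g < Real.pi) :
    ∫ x : ℝ, Real.exp (u * x) *
      ((Real.exp ((Real.pi - g) * x) - 1) / (Real.exp (Real.pi * x) - 1)) =
        Real.sin g / (Real.sin (g - u) * Real.sin u) := by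
  rw [← intervalIntegral.integral_Iic_add_Ioi (Lap_parts hu hug hg).1 (Lap_parts hu hug hg).2,
    setIntegral_congr_fun measurableSet_Ioi fun x _ => Lap_pos g u x]
  conv_lhs => rw [← neg_zero, ← integral_comp_neg_Ioi, neg_zero]
  simp only [Lap_neg]
  have h1 := (Lap_half (a := u) (b := u + Real.pi - g) hu (by linarith) (by linarith)).add
    (Lap_half (a := g - u) (b := Real.pi - u) (sub_pos.2 hug) (by linarith) (by linarith))
  have h2 := (Lap_cot hu (hug.trans hg)).add (Lap_cot (sub_pos.2 hug) (by linarith))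
  have s1 := (Real.sin_pos_of_pos_of_lt_pi hu (hug.trans hg)).ne'
  have s2 := (Real.sin_pos_of_pos_of_lt_pi (sub_pos.2 hug) (by linarith)).ne'
  rw [tendsto_nhds_unique h1 (h2.congr fun N => ?_)]
  · have := Real.sin_add (g - u) u
    rw [sub_add_cancel] at this
    rw [this]
    field_simp
  · rw [← sum_add_distrib, ← sum_add_distrib]
    refine sum_congr rfl fun n _ => ?_
    rw [show Real.pi - (g - u) = u + Real.pi - g by ring]
    ring

theorem Lap_ae (v : ℝ) : (fun x : ℝ => Real.exp (v * x) *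
    ((Real.exp ((Real.pi - Real.pi / 2) * x) - 1) / (Real.exp (Real.pi * x) - 1))) =ᵐ[volume]
      fun x => Real.exp (v * x) / (1 + Real.exp (Real.pi / 2 * x)) := by
  filter_upwards [compl_mem_ae_iff.2 (measure_singleton (0 : ℝ))] with x hx
  have e : Real.exp (Real.pi * x) = Real.exp (Real.pi / 2 * x) ^ 2 := by
    rw [← Real.exp_nat_mul]
    congr 1
    push_cast
    ring
  have h : Real.exp (Real.pi / 2 * x) - 1 ≠ 0 := by
    rw [sub_ne_zero, Ne, Real.exp_eq_one_iff]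
    exact mul_ne_zero (by positivity) hx
  have h' : 0 < 1 + Real.exp (Real.pi / 2 * x) := by positivity
  rw [sub_half, e, show Real.exp (Real.pi / 2 * x) ^ 2 - 1 =
    (Real.exp (Real.pi / 2 * x) - 1) * (1 + Real.exp (Real.pi / 2 * x)) by ring]
  generalize Real.exp (Real.pi / 2 * x) = q at h h' ⊢
  field_simp

theorem Lap_scale {g : ℝ} (hg : 0 < g) (u : ℝ) :
    (fun x : ℝ => Real.exp (u * (Real.pi / (2 * g) * x)) /
      (1 + Real.exp (g * (Real.pi / (2 * g) * x)))) =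
    fun x => Real.exp (Real.pi * u / g / 2 * x) / (1 + Real.exp (Real.pi / 2 * x)) := by
  funext x
  congr 2
  · field_simp
  · congr 1
    field_simp

theorem Lap_range {g u : ℝ} (hu : 0 < u) (hug : u < g) :
    0 < Real.pi * u / g / 2 ∧ Real.pi * u / g / 2 < Real.pi / 2 := by
  have hg := hu.trans hug
  have hp := Real.pi_pos
  refine ⟨by positivity, div_lt_div_of_pos_right ?_ two_pos⟩
  rw [div_lt_iff₀ hg]
  exact mul_lt_mul_of_pos_left hug hp

theorem lap_fermi_int {g u : ℝ} (hu : 0 < u) (hug : u < g) :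
    Integrable fun x : ℝ => Real.exp (u * x) / (1 + Real.exp (g * x)) := by
  have hg := hu.trans hug
  have hp := Real.pi_pos
  obtain ⟨a, b⟩ := Lap_range hu hug
  rw [← integrable_comp_mul_left_iff _ (R := Real.pi / (2 * g)) (by positivity), Lap_scale hg]
  exact (lap_int a b (half_lt_self hp)).congr (Lap_ae _)

theorem lap_fermi {g u : ℝ} (hu : 0 < u) (hug : u < g) :
    ∫ x : ℝ, Real.exp (u * x) / (1 + Real.exp (g * x)) =
      1 / (g / Real.pi * Real.sin (Real.pi * u / g)) := by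
  have hg := hu.trans hug
  have hp := Real.pi_pos
  obtain ⟨a, b⟩ := Lap_range hu hug
  have h := Measure.integral_comp_mul_left
    (fun x : ℝ => Real.exp (u * x) / (1 + Real.exp (g * x))) (Real.pi / (2 * g))
  rw [Lap_scale hg, ← integral_congr_ae (Lap_ae _), lap_sin a b (half_lt_self hp),
    Real.sin_pi_div_two, Real.sin_pi_div_two_sub, abs_of_pos (by positivity), smul_eq_mul,
    inv_div] at h
  have e := Real.sin_two_mul (Real.pi * u / g / 2)
  rw [mul_div_cancel₀ _ two_ne_zero] at e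
  have s1 := (Real.sin_pos_of_pos_of_lt_pi a (by linarith only [a, b])).ne'
  have s2 := (Real.cos_pos_of_mem_Ioo ⟨by linarith only [a, b], b⟩).ne'
  rw [e, (eq_inv_mul_iff_mul_eq₀ (by positivity)).2 h.symm]
  field_simp

end Pool.Agent.Work.MP_413ea6_mp
end

-- merged part: Pool.Agent.Work.MP_413ea6_mp.KSin
section
open Filter Topology Finset MeasureTheory

namespace Pool.Agent.Work.MP_413ea6_mp

/-! The disordered regime and the line `Δ = -1`. -/

theorem KSin_fay (a b a' b' : ℝ) :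
    Real.sin (a + b') * Real.sin (a' + b) - Real.sin (a + b) * Real.sin (a' + b') =
      Real.sin (a' - a) * Real.sin (b' - b) := by
  simp only [Real.sin_add, Real.sin_sub]
  ring

theorem KSin_mk (T : Trig) {g c c1 : ℝ} (hg : 0 < g) (hS : ∀ u, 0 < u → u ≤ g → 0 < T.S u)
    {ρ : ℝ → ℝ} (hm : Measurable ρ) (hc : 0 < c) (hc1 : 0 < c1) (h1 : ∀ x, c1 ≤ ρ x)
    (h2 : ∀ x, |ρ x - 1| ≤ Real.exp (-(c * |x|)))
    (hl : ∀ u, 0 < u → u < g → ∫ x, Real.exp (u * x) * (ρ x / (1 + Real.exp (g * x))) =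
      T.S g / (T.S (g - u) * T.S u)) : Nonempty (KData T g) := by
  let w : ℝ → NNReal := fun x => ⟨1 / (1 + Real.exp (g * x)), by positivity⟩
  have hw : Measurable w := Measurable.subtype_mk (by fun_prop)
  have hws : ∀ x y : ℝ, w x • y = y / (1 + Real.exp (g * x)) := fun x y => by
    change 1 / (1 + Real.exp (g * x)) * y = _
    ring
  have hπ := Real.pi_pos
  refine ⟨{ μ := volume.withDensity fun x => w x
            ρ := ρ
            σ := fun u => g / Real.pi * Real.sin (Real.pi * u / g)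
            τ := fun _ => 1
            sf := inferInstance
            g_pos := hg
            S_pos := hS
            int := fun u hu hug => ?_
            ρ_meas := hm
            ρ_bd := ⟨c1, 2, hc1, fun x => ⟨h1 x, ?_⟩⟩
            ρ_lim := fun ε hε => ?_
            lap := fun u hu hug => ?_
            lap0 := fun u hu hug => ?_
            fay := fun s u v u' v' => ?_
            τ_bd := ⟨1, 1, one_pos, fun _ => ⟨le_rfl, le_rfl⟩⟩
            σ_smooth := by fun_prop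
            σ_neg := fun u => ?_
            σ_deriv := ?_
            σ_pos := fun u hu hug => ?_
            σ_symm := fun u => ?_ }⟩
  · rw [integrable_withDensity_iff_integrable_smul hw]
    simp only [hws]
    exact lap_fermi_int hu hug
  · have h3 : Real.exp (-(c * |x|)) ≤ 1 := Real.exp_le_one_iff.2 (neg_nonpos.2 (by positivity))
    linarith [(abs_le.1 (h2 x)).2]
  · have hδ : 0 < 1 - Real.exp (-ε) := sub_pos.2 (Real.exp_lt_one_iff.2 (neg_neg_of_pos hε))
    refine ⟨-Real.log (1 - Real.exp (-ε)) / c, fun x hx => ?_⟩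
    have h3 : Real.exp (-(c * |x|)) ≤ 1 - Real.exp (-ε) := by
      rw [← Real.le_log_iff_exp_le hδ]
      rw [div_le_iff₀ hc] at hx
      linarith
    have h4 := abs_le.1 ((h2 x).trans h3)
    have h5 := Real.add_one_le_exp ε
    have h6 := Real.add_one_le_exp (-ε)
    constructor <;> linarith only [h4, h5, h6, h4.1, h4.2]
  · rw [integral_withDensity_eq_integral_smul hw, ← hl u hu hug]
    simp only [hws, mul_div_assoc]
  · rw [integral_withDensity_eq_integral_smul hw]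
    simp only [hws, one_mul]
    exact lap_fermi hu hug
  · have h := KSin_fay (Real.pi * u / g) (Real.pi * v / g) (Real.pi * u' / g) (Real.pi * v' / g)
    simp only [mul_add, mul_sub, add_div, sub_div]
    linear_combination (g / Real.pi) ^ 2 * h
  · simp only [mul_neg, neg_div, Real.sin_neg]
  · have h : HasDerivAt (fun u : ℝ => Real.pi * u / g) (Real.pi * 1 / g) 0 :=
      ((hasDerivAt_id' (0 : ℝ)).const_mul Real.pi).div_const g
    refine ((h.sin).const_mul (g / Real.pi)).congr_deriv ?_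
    rw [mul_zero, zero_div, Real.cos_zero]
    field_simp
  · refine mul_pos (by positivity) (Real.sin_pos_of_pos_of_lt_pi (by positivity) ?_)
    rw [div_lt_iff₀ hg]
    exact mul_lt_mul_of_pos_left hug hπ
  · have e : Real.pi * (g - u) / g = Real.pi - Real.pi * u / g := by field_simp
    simp only [e, Real.sin_pi_sub]

theorem KSin_conv {q y : ℝ} (hq : 0 ≤ q) (hq1 : q ≤ 1) (hy : 0 ≤ y) :
    Real.sinh (q * y) ≤ q * Real.sinh y := by
  have h : ConvexOn ℝ (Set.Ici 0) Real.sinh := by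
    refine MonotoneOn.convexOn_of_deriv (convex_Ici 0) Real.continuous_sinh.continuousOn
      Real.differentiable_sinh.differentiableOn ?_
    rw [Real.deriv_sinh]
    exact Real.cosh_strictMonoOn.monotoneOn.mono interior_subset
  have := h.2 hy (Set.mem_Ici.2 (le_refl (0 : ℝ))) hq (sub_nonneg.2 hq1) (add_sub_cancel _ _)
  simpa using this

theorem KSin_ratio {a b : ℝ} (ha : 0 < a) (hb : |b| ≤ a) (x : ℝ) :
    |Real.sinh (b * x) / Real.sinh (a * x)| ≤ |b| / a ∧
      |Real.sinh (b * x) / Real.sinh (a * x)| ≤ Real.exp (-((a - |b|) * |x|)) := by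
  rcases eq_or_ne x 0 with rfl | hx
  · simp only [mul_zero, Real.sinh_zero, div_zero, abs_zero, neg_zero, Real.exp_zero]
    exact ⟨by positivity, zero_le_one⟩
  have ht : 0 < |x| := abs_pos.2 hx
  rw [abs_div, Real.abs_sinh, Real.abs_sinh, abs_mul, abs_mul, abs_of_pos ha]
  have hβ := abs_nonneg b
  generalize |x| = t at ht
  generalize |b| = β at hb hβ
  have hs : 0 < Real.sinh (a * t) := Real.sinh_pos_iff.2 (by positivity)
  rw [div_le_iff₀ hs, div_le_iff₀ hs]
  constructor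
  · have := KSin_conv (q := β / a) (y := a * t) (by positivity) ((div_le_one ha).2 hb)
      (by positivity)
    rwa [← mul_assoc, div_mul_cancel₀ _ ha.ne'] at this
  · rw [Real.sinh_eq, Real.sinh_eq, mul_div_assoc', mul_sub, ← Real.exp_add, ← Real.exp_add]
    have e : -((a - β) * t) + a * t = β * t := by ring
    have h : Real.exp (-((a - β) * t) + -(a * t)) ≤ Real.exp (-(β * t)) :=
      Real.exp_le_exp.2 (by linarith only [ht, hb, mul_nonneg_of_nonpos_of_nonpos (le_of_lt (Mathlib.Tactic.Linarith.sub_neg_of_lt ht)) (Mathlib.Tactic.Linarith.sub_nonpos_of_le hb)])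
    rw [e]
    linarith only [h]

theorem kdata_sin {g : ℝ} (hg : 0 < g) (hπ : g < Real.pi) : Nonempty (KData trigSin g) := by
  have ha : 0 < Real.pi / 2 := by positivity
  have hb : |Real.pi / 2 - g| < Real.pi / 2 := abs_lt.2 ⟨by linarith only [hπ], by linarith⟩
  refine KSin_mk trigSin (c := Real.pi / 2 - |Real.pi / 2 - g|)
    (c1 := 1 - |Real.pi / 2 - g| / (Real.pi / 2))
    (ρ := fun x => 1 + Real.sinh ((Real.pi / 2 - g) * x) / Real.sinh (Real.pi / 2 * x)) hg
    (fun u hu hug => Real.sin_pos_of_pos_of_lt_pi hu (hug.trans_lt hπ)) (by fun_prop)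
    (sub_pos.2 hb) (sub_pos.2 ((div_lt_one ha).2 hb)) (fun x => ?_) (fun x => ?_)
    fun u hu hug => ?_
  · linarith only [ha, hb, (abs_le.1 (KSin_ratio ha hb.le x).1).1]
  · rw [add_sub_cancel_left]
    exact (KSin_ratio ha hb.le x).2
  · refine Eq.trans (integral_congr_ae ?_) (lap_sin hu hug hπ)
    filter_upwards [Measure.ae_ne volume 0] with x hx
    congr 1
    have hx' : Real.pi / 2 * x ≠ 0 := mul_ne_zero ha.ne' hx
    have h1 : Real.sinh (Real.pi / 2 * x) ≠ 0 := Real.sinh_ne_zero.2 hx'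
    have e1 : Real.exp (Real.pi * x) = Real.exp (Real.pi / 2 * x) ^ 2 := by
      rw [sq, ← Real.exp_add]
      congr 1
      ring
    have e2 : Real.exp ((Real.pi - g) * x) =
        Real.exp (Real.pi / 2 * x) ^ 2 / Real.exp (g * x) := by
      rw [← e1, ← Real.exp_sub]
      congr 1
      ring
    have e3 : Real.exp ((Real.pi / 2 - g) * x) = Real.exp (Real.pi / 2 * x) / Real.exp (g * x) := by
      rw [← Real.exp_sub]
      congr 1
      ring
    have h2 : Real.exp (Real.pi / 2 * x) ^ 2 - 1 ≠ 0 := by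
      rw [← e1, sub_ne_zero, Ne, Real.exp_eq_one_iff]
      exact mul_ne_zero Real.pi_pos.ne' hx
    rw [Real.sinh_eq, Real.sinh_eq, Real.exp_neg, Real.exp_neg, e1, e2, e3]
    have hA := Real.exp_pos (Real.pi / 2 * x)
    have hB := Real.exp_pos (g * x)
    generalize Real.exp (Real.pi / 2 * x) = A at *
    generalize Real.exp (g * x) = B at *
    field_simp
    ring

theorem kdata_id {g : ℝ} (hg : 0 < g) : Nonempty (KData trigId g) := by
  refine KSin_mk trigId (c := g) (c1 := 1) (ρ := fun x => 1 + Real.exp (-(g * |x|))) hg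
    (fun u hu _ => hu) (by fun_prop) hg one_pos (fun x => ?_) (fun x => ?_) fun u hu hug => ?_
  · linarith [Real.exp_pos (-(g * |x|))]
  · rw [add_sub_cancel_left, abs_of_pos (Real.exp_pos _)]
  · have hug' : u - g < 0 := sub_neg.2 hug
    have e1 : ∀ x ∈ Set.Iic (0 : ℝ), Real.exp (u * x) *
        ((1 + Real.exp (-(g * |x|))) / (1 + Real.exp (g * x))) = Real.exp (u * x) := fun x hx => by
      rw [abs_of_nonpos hx, mul_neg, neg_neg, div_self (by positivity), mul_one]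
    have e2 : ∀ x ∈ Set.Ioi (0 : ℝ), Real.exp (u * x) *
        ((1 + Real.exp (-(g * |x|))) / (1 + Real.exp (g * x))) = Real.exp ((u - g) * x) :=
      fun x hx => by
        rw [abs_of_pos hx, sub_mul, Real.exp_sub, Real.exp_neg]
        have hB := Real.exp_pos (g * x)
        field_simp
        ring
    rw [← intervalIntegral.integral_Iic_add_Ioi (b := 0)
      ((integrableOn_congr_fun e1 measurableSet_Iic).2 (integrableOn_exp_mul_Iic hu 0))
      ((integrableOn_congr_fun e2 measurableSet_Ioi).2 (integrableOn_exp_mul_Ioi hug' 0)),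
      setIntegral_congr_fun measurableSet_Iic e1, setIntegral_congr_fun measurableSet_Ioi e2,
      integral_exp_mul_Iic hu, integral_exp_mul_Ioi hug']
    have h1 : g - u ≠ 0 := (sub_pos.2 hug).ne'
    have h2 : u - g ≠ 0 := hug'.ne
    change _ = g / ((g - u) * u)
    simp only [mul_zero, Real.exp_zero]
    field_simp
    ring

end Pool.Agent.Work.MP_413ea6_mp
end

-- merged part: Pool.Agent.Work.MP_413ea6_mp.ThetaA
section
open Filter Topology Finset MeasureTheory

namespace Pool.Agent.Work.MP_413ea6_mp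

/-! Gaussian theta sums. -/

noncomputable def thS (g x : ℝ) : ℝ :=
  ∑' n : ℤ, (-1 : ℝ) ^ n * Real.exp (-(x - (n + 1 / 2) * g) ^ 2 / g)

noncomputable def thT (g x : ℝ) : ℝ := ∑' n : ℤ, Real.exp (-(x - (n + 1 / 2) * g) ^ 2 / g)

/-- The complex terms. -/
noncomputable def ThetaA_t (e g : ℝ) (n : ℤ) (w : ℂ) : ℂ :=
  (e : ℂ) ^ n * Complex.exp (-(w - (n + 1 / 2) * g) ^ 2 / g)

theorem ThetaA_norm {e : ℝ} (he : |e| = 1) (g : ℝ) (n : ℤ) (w : ℂ) :
    ‖ThetaA_t e g n w‖ = Real.exp ((-(w.re - (n + 1 / 2) * g) ^ 2 + w.im ^ 2) / g) := by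
  rw [ThetaA_t, norm_mul, norm_zpow, Complex.norm_real, Real.norm_eq_abs, he, one_zpow, one_mul,
    Complex.norm_exp, Complex.div_ofReal_re]
  congr 2
  simp [sq]
  ring

theorem ThetaA_sum {g : ℝ} (hg : 0 < g) : Summable fun n : ℤ => Real.exp (-(|(n : ℝ)| * g)) := by
  have h : Summable fun n : ℕ => Real.exp (n * -g) :=
    Real.summable_exp_nat_mul_iff.2 (neg_neg_of_pos hg)
  refine Summable.of_nat_of_neg (h.congr fun n => ?_) (h.congr fun n => ?_) <;> simp

theorem ThetaA_bd {e g : ℝ} (he : |e| = 1) (hg : 0 < g) (n : ℤ) {w : ℂ} {R : ℝ} (hw : ‖w‖ ≤ R) :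
    ‖ThetaA_t e g n w‖ ≤ Real.exp (R ^ 2 / g + R + g) * Real.exp (-(|(n : ℝ)| * g)) := by
  rw [ThetaA_norm he, ← Real.exp_add, Real.exp_le_exp, div_le_iff₀ hg]
  have h1 : w.im ^ 2 ≤ R ^ 2 := sq_le_sq' (by linarith [(abs_le.1 (w.abs_im_le_norm.trans hw)).1])
    (abs_le.1 (w.abs_im_le_norm.trans hw)).2
  have h2 := abs_le.1 (w.abs_re_le_norm.trans hw)
  have h3 : (R ^ 2 / g + R + g + -(|(n : ℝ)| * g)) * g =
      R ^ 2 + (R + g - |(n : ℝ)| * g) * g := by
    field_simp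
    ring
  rw [h3]
  obtain ⟨y, hy⟩ : ∃ y, y = w.re - (n + 1 / 2) * g := ⟨_, rfl⟩
  have h4 : |(n : ℝ)| * g ≤ |y| + R + g / 2 := by
    have := abs_le.1 (le_refl |y|)
    rcases abs_cases (n : ℝ) with h | h <;> rw [h.1] <;> linarith only [hg, h2, hy, this]
  rw [← hy, ← sq_abs y]
  linarith only [h1, h4, hg, sq_nonneg (|y| - g / 2), mul_le_mul_of_nonneg_right h4 hg.le, sq_nonneg ((2 : ℝ) * |y| - (1 : ℝ) * g), mul_pos_of_neg_of_neg (Mathlib.Tactic.Linarith.sub_neg_of_lt hg) (Mathlib.Tactic.Linarith.sub_neg_of_lt hg)]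

theorem ThetaA_summable {e g : ℝ} (he : |e| = 1) (hg : 0 < g) (w : ℂ) :
    Summable fun n => ‖ThetaA_t e g n w‖ :=
  .of_nonneg_of_le (fun _ => norm_nonneg _) (fun n => ThetaA_bd he hg n le_rfl)
    ((ThetaA_sum hg).mul_left _)

theorem ThetaA_diff {e g : ℝ} (he : |e| = 1) (hg : 0 < g) :
    Differentiable ℂ fun w => ∑' n, ThetaA_t e g n w := fun w => by
  refine (Complex.differentiableOn_tsum_of_summable_norm (U := Metric.ball 0 (‖w‖ + 1))
    ((ThetaA_sum hg).mul_left _) (fun n => ?_) Metric.isOpen_ball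
    fun n z hz => ThetaA_bd he hg n (mem_ball_zero_iff.1 hz).le).differentiableAt
    (Metric.isOpen_ball.mem_nhds (by simp))
  unfold ThetaA_t
  fun_prop

theorem ThetaA_real (e g x : ℝ) : ∑' n, ThetaA_t e g n x =
    (∑' n : ℤ, e ^ n * Real.exp (-(x - (n + 1 / 2) * g) ^ 2 / g) : ℝ) := by
  rw [Complex.ofReal_tsum]
  refine tsum_congr fun n => ?_
  rw [ThetaA_t]
  push_cast
  rfl

theorem ThetaA_smooth {e g : ℝ} (he : |e| = 1) (hg : 0 < g) : ContDiff ℝ 2 fun x : ℝ =>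
    ∑' n : ℤ, e ^ n * Real.exp (-(x - (n + 1 / 2) * g) ^ 2 / g) := by
  have := (ThetaA_diff he hg).contDiff (n := 2).real_of_complex
  simpa only [ThetaA_real, Complex.ofReal_re] using this

theorem thT_summable {g : ℝ} (hg : 0 < g) (x : ℝ) :
    Summable fun n : ℤ => Real.exp (-(x - (n + 1 / 2) * g) ^ 2 / g) := by
  refine (ThetaA_summable abs_one hg x).congr fun n => ?_
  rw [ThetaA_norm abs_one]
  simp

theorem thS_neg {g : ℝ} (hg : 0 < g) (x : ℝ) : thS g (-x) = -thS g x := by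
  rw [thS, thS, ← (Equiv.subLeft (-1 : ℤ)).tsum_eq, ← tsum_neg]
  refine tsum_congr fun n => ?_
  rw [Equiv.subLeft_apply, zpow_sub₀ (by norm_num), div_eq_mul_inv ((-1 : ℝ) ^ _), ← inv_zpow,
    inv_neg, inv_one, zpow_neg, zpow_one, inv_neg, inv_one, neg_one_mul, neg_mul]
  congr 4
  push_cast
  ring

theorem thS_symm {g : ℝ} (hg : 0 < g) (x : ℝ) : thS g (g - x) = thS g x := by
  rw [thS, thS, ← (Equiv.neg ℤ).tsum_eq]
  refine tsum_congr fun n => ?_
  rw [Equiv.neg_apply, zpow_neg, ← inv_zpow, inv_neg, inv_one]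
  congr 3
  push_cast
  ring

theorem thT_neg {g : ℝ} (hg : 0 < g) (x : ℝ) : thT g (-x) = thT g x := by
  rw [thT, thT, ← (Equiv.subLeft (-1 : ℤ)).tsum_eq]
  refine tsum_congr fun n => ?_
  rw [Equiv.subLeft_apply]
  congr 2
  push_cast
  ring

theorem ThetaA_per (g : ℝ) : Function.Periodic (thT g) g := fun x => by
  rw [thT, thT, ← (Equiv.addRight (1 : ℤ)).tsum_eq]
  refine tsum_congr fun n => ?_
  rw [Equiv.coe_addRight]
  congr 2
  push_cast
  ring

theorem thT_cont {g : ℝ} (hg : 0 < g) : Continuous (thT g) := by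
  have := (ThetaA_smooth abs_one hg).continuous
  simp only [one_zpow, one_mul] at this
  exact this

theorem thT_bd {g : ℝ} (hg : 0 < g) : ∃ m M : ℝ, 0 < m ∧ ∀ x, m ≤ thT g x ∧ thT g x ≤ M := by
  have hK : IsCompact (Set.range (thT g)) :=
    (ThetaA_per g).compact_of_continuous hg.ne' (thT_cont hg)
  obtain ⟨_, ⟨a, rfl⟩, ha⟩ := hK.exists_isLeast (Set.range_nonempty _)
  obtain ⟨M, hM⟩ := hK.bddAbove
  exact ⟨thT g a, M, (thT_summable hg a).tsum_pos (fun _ => (Real.exp_pos _).le) 0 (Real.exp_pos _),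
    fun x => ⟨ha ⟨x, rfl⟩, hM ⟨x, rfl⟩⟩⟩

theorem thS_smooth {g : ℝ} (hg : 0 < g) : ContDiff ℝ 2 (thS g) :=
  ThetaA_smooth (by simp) hg

theorem ThetaA_I {g : ℝ} (hg : 0 < g) (n : ℤ) : ThetaA_t (-1) g n (Real.pi / 2 * Complex.I) =
    Complex.I * (‖ThetaA_t (-1) g n (Real.pi / 2 * Complex.I)‖ : ℝ) := by
  have hg' : (g : ℂ) ≠ 0 := by exact_mod_cast hg.ne'
  have h1 : -(Real.pi / 2 * Complex.I - (n + 1 / 2) * g : ℂ) ^ 2 / g =
      ((-(0 - (n + 1 / 2) * g) ^ 2 + (Real.pi / 2) ^ 2) / g : ℝ) + n * (Real.pi * Complex.I) +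
        Real.pi / 2 * Complex.I := by
    push_cast
    field_simp
    linear_combination (-(Real.pi : ℂ) ^ 2) * Complex.I_sq
  have h2 : ((-1 : ℂ)) ^ n * (-1) ^ n = 1 := by rw [← mul_zpow]; simp
  rw [ThetaA_norm (by simp), ThetaA_t, h1, Complex.exp_add, Complex.exp_add, Complex.exp_int_mul,
    Complex.exp_pi_mul_I, Complex.exp_pi_div_two_mul_I, ← Complex.ofReal_exp]
  have h3 : (Real.pi / 2 * Complex.I : ℂ).re = 0 := by simp
  have h4 : (Real.pi / 2 * Complex.I : ℂ).im = Real.pi / 2 := by simp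
  rw [h3, h4, Complex.ofReal_neg, Complex.ofReal_one]
  linear_combination (Complex.I * (Real.exp
    ((-(0 - (n + 1 / 2) * g) ^ 2 + (Real.pi / 2) ^ 2) / g) : ℝ)) * h2

theorem thS_ne_zero {g : ℝ} (hg : 0 < g) : ∃ x, 0 < x ∧ x < g ∧ thS g x ≠ 0 := by
  by_contra hne
  push Not at hne
  have he : |(-1 : ℝ)| = 1 := by simp
  have han : AnalyticOnNhd ℂ (fun w => ∑' n, ThetaA_t (-1) g n w) Set.univ :=
    (ThetaA_diff he hg).differentiableOn.analyticOnNhd isOpen_univ
  have hfr : ∃ᶠ z in 𝓝[≠] (0 : ℂ), ∑' n, ThetaA_t (-1) g n z = 0 := by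
    have ht : Tendsto (fun x : ℝ => (x : ℂ)) (𝓝[>] 0) (𝓝[≠] 0) := by
      refine tendsto_nhdsWithin_iff.2 ⟨?_, ?_⟩
      · exact (Complex.continuous_ofReal.tendsto' 0 0 (by simp)).mono_left nhdsWithin_le_nhds
      · filter_upwards [self_mem_nhdsWithin] with x hx
        exact Complex.ofReal_ne_zero.2 (ne_of_gt hx)
    refine ht.frequently (Eventually.frequently ?_)
    filter_upwards [Ioo_mem_nhdsGT hg] with x hx
    rw [ThetaA_real]
    exact Complex.ofReal_eq_zero.2 (hne x hx.1 hx.2)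
  have h0 : ∑' n, ThetaA_t (-1) g n (Real.pi / 2 * Complex.I) = 0 :=
    han.eqOn_zero_of_preconnected_of_frequently_eq_zero isPreconnected_univ (Set.mem_univ 0) hfr
      (Set.mem_univ _)
  rw [tsum_congr (ThetaA_I hg), tsum_mul_left, ← Complex.ofReal_tsum, mul_eq_zero,
    Complex.ofReal_eq_zero] at h0
  refine h0.elim Complex.I_ne_zero (ne_of_gt ?_)
  refine (ThetaA_summable he hg _).tsum_pos (fun _ => norm_nonneg _) 0 ?_
  rw [ThetaA_norm he]
  exact Real.exp_pos _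

end Pool.Agent.Work.MP_413ea6_mp
end

-- merged part: Pool.Agent.Work.MP_413ea6_mp.ThetaB
section
open Filter Topology Finset MeasureTheory

namespace Pool.Agent.Work.MP_413ea6_mp

/-! The three-term identity for the theta sums. -/

theorem ThetaB_mul {a b : ℤ → ℝ} (ha : Summable a) (hb : Summable b) :
    HasSum (fun p : ℤ × ℤ => a p.1 * b p.2) ((∑' n, a n) * ∑' n, b n) :=
  ha.hasSum.mul hb.hasSum (summable_mul_of_summable_norm ha.norm hb.norm)

theorem ThetaB_congr {F G : ℤ × ℤ → ℝ} {A : ℝ} (h : HasSum F A) (e : ∀ p, G p = F p) :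
    HasSum G A := (funext e : G = F) ▸ h

theorem ThetaB_split {F : ℤ × ℤ → ℝ} {A B C : ℝ} (h : HasSum F C)
    (h1 : HasSum (fun p : ℤ × ℤ => F (p.1 + p.2, p.1 - p.2)) A)
    (h2 : HasSum (fun p : ℤ × ℤ => F (p.1 + p.2, p.1 - p.2 - 1)) B) : C = A + B := by
  have hb : Function.Bijective (Sum.elim (fun p : ℤ × ℤ => (p.1 + p.2, p.1 - p.2))
      (fun p : ℤ × ℤ => (p.1 + p.2, p.1 - p.2 - 1))) := by
    constructor
    · rintro (⟨a, b⟩ | ⟨a, b⟩) (⟨c, d⟩ | ⟨c, d⟩) e <;>
        simp only [Sum.elim_inl, Sum.elim_inr, Prod.mk.injEq, Sum.inl.injEq, Sum.inr.injEq,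
          reduceCtorEq] at e ⊢ <;> omega
    · rintro ⟨m, n⟩
      rcases Int.emod_two_eq_zero_or_one (m + n) with e | e
      · exact ⟨Sum.inl ((m + n) / 2, (m - n) / 2), Prod.ext (by simp; omega) (by simp; omega)⟩
      · exact ⟨Sum.inr ((m + n + 1) / 2, (m - n - 1) / 2),
          Prod.ext (by simp; omega) (by simp; omega)⟩
  exact ((Equiv.ofBijective _ hb).hasSum_iff.2 h).unique (HasSum.sum h1 h2)

theorem ThetaB_even {g : ℝ} (hg : 0 < g) (x y : ℝ) (i j : ℤ) :
    Real.exp (-(x + y - ((i + j : ℤ) + 1 / 2) * g) ^ 2 / g) *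
      Real.exp (-(x - y - ((i - j : ℤ) + 1 / 2) * g) ^ 2 / g) =
    Real.exp (-(2 * x - (i + 1 / 2) * (2 * g)) ^ 2 / (2 * g)) *
      Real.exp (-(2 * y + g - (j + 1 / 2) * (2 * g)) ^ 2 / (2 * g)) := by
  rw [← Real.exp_add, ← Real.exp_add]
  congr 1
  push_cast
  field_simp
  ring

theorem ThetaB_odd {g : ℝ} (hg : 0 < g) (x y : ℝ) (i j : ℤ) :
    Real.exp (-(x + y - ((i + j : ℤ) + 1 / 2) * g) ^ 2 / g) *
      Real.exp (-(x - y - ((i - j - 1 : ℤ) + 1 / 2) * g) ^ 2 / g) =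
    Real.exp (-(2 * x + g - (i + 1 / 2) * (2 * g)) ^ 2 / (2 * g)) *
      Real.exp (-(2 * y - (j + 1 / 2) * (2 * g)) ^ 2 / (2 * g)) := by
  rw [← Real.exp_add, ← Real.exp_add]
  congr 1
  push_cast
  field_simp
  ring

theorem ThetaB_T {g : ℝ} (hg : 0 < g) (x y : ℝ) : thT g (x + y) * thT g (x - y) =
    thT (2 * g) (2 * x) * thT (2 * g) (2 * y + g) +
      thT (2 * g) (2 * x + g) * thT (2 * g) (2 * y) := by
  have h2 : 0 < 2 * g := by positivity
  refine ThetaB_split (ThetaB_mul (thT_summable hg _) (thT_summable hg _)) ?_ ?_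
  · simpa only [ThetaB_even hg, thT] using
      ThetaB_mul (thT_summable h2 (2 * x)) (thT_summable h2 (2 * y + g))
  · simpa only [ThetaB_odd hg, thT] using
      ThetaB_mul (thT_summable h2 (2 * x + g)) (thT_summable h2 (2 * y))

theorem ThetaB_S {g : ℝ} (hg : 0 < g) (x y : ℝ) : thS g (x + y) * thS g (x - y) =
    thT (2 * g) (2 * x) * thT (2 * g) (2 * y + g) -
      thT (2 * g) (2 * x + g) * thT (2 * g) (2 * y) := by
  have h2 : 0 < 2 * g := by positivity
  have hs : ∀ z : ℝ, Summable fun n : ℤ =>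
      (-1 : ℝ) ^ n * Real.exp (-(z - (n + 1 / 2) * g) ^ 2 / g) := fun z =>
    Summable.of_norm ((thT_summable hg z).congr fun n => by
      rw [norm_mul, norm_zpow, norm_neg, norm_one, one_zpow, one_mul,
        Real.norm_of_nonneg (Real.exp_pos _).le])
  have e1 : ∀ i j : ℤ, (-1 : ℝ) ^ (i + j) * (-1) ^ (i - j) = 1 := fun i j => by
    rw [← zpow_add₀ (by norm_num)]
    exact Even.neg_one_zpow ⟨i, by ring⟩
  have e2 : ∀ i j : ℤ, (-1 : ℝ) ^ (i + j) * (-1) ^ (i - j - 1) = -1 := fun i j => by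
    rw [← zpow_add₀ (by norm_num)]
    exact Odd.neg_one_zpow ⟨i - 1, by ring⟩
  rw [sub_eq_add_neg (_ * _)]
  refine ThetaB_split (ThetaB_mul (hs _) (hs _)) ?_ ?_
  · refine ThetaB_congr (ThetaB_mul (thT_summable h2 (2 * x)) (thT_summable h2 (2 * y + g)))
      fun p => ?_
    rw [mul_mul_mul_comm, e1, one_mul, ThetaB_even hg]
  · refine ThetaB_congr (ThetaB_mul (thT_summable h2 (2 * x + g)) (thT_summable h2 (2 * y))).neg
      fun p => ?_
    rw [mul_mul_mul_comm, e2, neg_one_mul, ThetaB_odd hg]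

theorem th_fay {g : ℝ} (hg : 0 < g) : Fay (thT g) (thS g) := by
  intro s u v u' v'
  have t1 := ThetaB_T hg ((u + v - u' - v') / 2) (s + (u + v + u' + v') / 2)
  have t2 := ThetaB_T hg ((u + v' - u' - v) / 2) (s + (u + v + u' + v') / 2)
  have t3 := ThetaB_T hg ((u + v + u' + v') / 2) (s + (u + v + u' + v') / 2)
  have s12 := ThetaB_S hg ((u + v - u' - v') / 2) ((u + v' - u' - v) / 2)
  have s13 := ThetaB_S hg ((u + v - u' - v') / 2) ((u + v + u' + v') / 2)
  have s23 := ThetaB_S hg ((u + v' - u' - v) / 2) ((u + v + u' + v') / 2)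
  rw [show (u + v - u' - v') / 2 + (s + (u + v + u' + v') / 2) = s + u + v by ring,
    show (u + v - u' - v') / 2 - (s + (u + v + u' + v') / 2) = -(s + u' + v') by ring,
    thT_neg hg] at t1
  rw [show (u + v' - u' - v) / 2 + (s + (u + v + u' + v') / 2) = s + u + v' by ring,
    show (u + v' - u' - v) / 2 - (s + (u + v + u' + v') / 2) = -(s + u' + v) by ring,
    thT_neg hg] at t2
  rw [show (u + v + u' + v') / 2 + (s + (u + v + u' + v') / 2) = s + u + v + u' + v' by ring,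
    show (u + v + u' + v') / 2 - (s + (u + v + u' + v') / 2) = -s by ring,
    thT_neg hg, mul_comm] at t3
  rw [show (u + v - u' - v') / 2 + (u + v' - u' - v) / 2 = -(u' - u) by ring,
    show (u + v - u' - v') / 2 - (u + v' - u' - v) / 2 = -(v' - v) by ring,
    thS_neg hg, thS_neg hg, neg_mul_neg] at s12
  rw [show (u + v - u' - v') / 2 + (u + v + u' + v') / 2 = u + v by ring,
    show (u + v - u' - v') / 2 - (u + v + u' + v') / 2 = -(u' + v') by ring,
    thS_neg hg, mul_neg, neg_eq_iff_eq_neg] at s13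
  rw [show (u + v' - u' - v) / 2 + (u + v + u' + v') / 2 = u + v' by ring,
    show (u + v' - u' - v) / 2 - (u + v + u' + v') / 2 = -(u' + v) by ring,
    thS_neg hg, mul_neg, neg_eq_iff_eq_neg] at s23
  rw [t1, t2, t3, s12, s13, s23]
  ring

end Pool.Agent.Work.MP_413ea6_mp
end

-- merged part: Pool.Agent.Work.MP_413ea6_mp.ThetaC
section
open Filter Topology Finset MeasureTheory

namespace Pool.Agent.Work.MP_413ea6_mp

/-! Kronecker's identity. -/

theorem thetaC_pow (a : ℝ) (n : ℕ) : Real.exp a ^ n = Real.exp (a * n) := by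
  rw [← Real.exp_nat_mul, mul_comm]

theorem thetaC_le (a b : ℝ) : 2 * Real.exp a / (1 + Real.exp b) ≤ 2 * Real.exp (a - b) := by
  rw [Real.exp_sub, ← mul_div_assoc]
  exact div_le_div_of_nonneg_left (by positivity) (Real.exp_pos _) (by linarith)

theorem thetaC_le' (a b : ℝ) : 2 * Real.exp a / (1 + Real.exp b) ≤ 2 * Real.exp a :=
  div_le_self (by positivity) (by linarith [Real.exp_pos b])

theorem thetaC_geo {a : ℝ} (h : a < 0) :
    HasSum (fun n : ℕ => 2 * Real.exp (a * n)) (2 * (1 - Real.exp a)⁻¹) := by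
  simpa only [thetaC_pow] using (hasSum_geometric_of_lt_one (Real.exp_pos a).le
    (Real.exp_lt_one_iff.2 h)).mul_left 2

theorem kron_summable {g u : ℝ} (hu : 0 < u) (hug : u < g) :
    Summable fun l : ℤ => 2 * Real.exp (2 * u * l) / (1 + Real.exp (2 * g * l)) := by
  refine Summable.of_nat_of_neg ?_ ?_
  · refine Summable.of_nonneg_of_le (fun n => by positivity) (fun n => ?_)
      (thetaC_geo (show 2 * (u - g) < 0 by linarith)).summable
    refine (thetaC_le _ _).trans (le_of_eq ?_)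
    congr 2
    push_cast
    ring
  · refine Summable.of_nonneg_of_le (fun n => by positivity) (fun n => ?_)
      (thetaC_geo (show -2 * u < 0 by linarith)).summable
    refine (thetaC_le' _ _).trans (le_of_eq ?_)
    congr 2
    push_cast
    ring

theorem thetaC_sign (a k : ℤ) : (-1 : ℝ) ^ (a + 2 * k + 1) = -(-1) ^ a := by
  rw [zpow_add₀ (by norm_num), zpow_add₀ (by norm_num), zpow_mul]
  norm_num

/-- the coefficients after the change of indices -/
noncomputable def thetaC_c (g : ℝ) (m l : ℤ) : ℝ :=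
  (-1 : ℝ) ^ (m - l) * (2 * Real.exp (g * (2 * l * m + l - l ^ 2)) / (1 + Real.exp (2 * g * l)))

/-- the change of indices -/
def thetaC_e : ℤ × ℤ ≃ ℤ × ℤ where
  toFun p := (p.2, p.1 - p.2)
  invFun p := (p.1 + p.2, p.1)
  left_inv p := by simp
  right_inv p := by simp

theorem thetaC_sum {g u : ℝ} (hu : 0 < u) (hug : u < g) :
    HasSum (fun p : ℤ × ℤ => Real.exp (-(u - (p.1 + 1 / 2) * g) ^ 2 / g) * thetaC_c g p.1 p.2)
      ((∑' l : ℤ, 2 * Real.exp (2 * u * l) / (1 + Real.exp (2 * g * l))) * thS g u) := by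
  have hg : 0 < g := hu.trans hug
  have h1 := (kron_summable hu hug).norm
  have h2 : Summable fun n : ℤ =>
      ‖(-1 : ℝ) ^ n * Real.exp (-(u - (n + 1 / 2) * g) ^ 2 / g)‖ := by
    simpa using thT_summable hg u
  have h3 := (summable_mul_of_summable_norm h1 h2).hasSum
  rw [← tsum_mul_tsum_of_summable_norm h1 h2, ← thetaC_e.hasSum_iff] at h3
  refine Eq.mp (congrArg (HasSum · _) (funext fun p => ?_)) h3
  symm
  obtain ⟨m, l⟩ := p
  have e : Real.exp (-(u - (m + 1 / 2) * g) ^ 2 / g) * Real.exp (g * (2 * l * m + l - l ^ 2)) =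
      Real.exp (2 * u * l) * Real.exp (-(u - (((m - l : ℤ) : ℝ) + 1 / 2) * g) ^ 2 / g) := by
    rw [← Real.exp_add, ← Real.exp_add]
    congr 1
    push_cast
    field_simp
    ring
  simp only [thetaC_c, thetaC_e, Function.comp_apply, Equiv.coe_fn_mk]
  linear_combination (-1 : ℝ) ^ (m - l) * 2 / (1 + Real.exp (2 * g * l)) * e

theorem thetaC_step {g : ℝ} (hg : 0 < g) (m : ℤ) :
    ∑' l, thetaC_c g (m + 1) l = ∑' l, thetaC_c g m l := by
  have h1 : ∀ m, Summable (thetaC_c g m) := fun m =>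
    (summable_mul_left_iff (Real.exp_pos (-(g / 2 - (m + 1 / 2) * g) ^ 2 / g)).ne').1
      ((thetaC_sum (half_pos hg) (half_lt_self hg)).summable.prod_factor m)
  obtain ⟨G, hG⟩ : ∃ G : ℤ → ℝ, ∀ l, G l =
    (-1 : ℝ) ^ (m - l) * (2 * Real.exp (g * (2 * l * m + l - l ^ 2))) := ⟨_, fun _ => rfl⟩
  have h2 : ∀ l, thetaC_c g m l - thetaC_c g (m + 1) l = G l := fun l => by
    have e : Real.exp (g * (2 * l * ((m + 1 : ℤ) : ℝ) + l - l ^ 2)) =
        Real.exp (g * (2 * l * m + l - l ^ 2)) * Real.exp (2 * g * l) := by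
      rw [← Real.exp_add]
      congr 1
      push_cast
      ring
    have := Real.exp_pos (2 * g * l)
    rw [hG, thetaC_c, thetaC_c, e, show m + 1 - l = m - l + 2 * 0 + 1 by ring, thetaC_sign]
    field_simp
    ring
  have h3 : ∀ l, G (Equiv.subLeft (2 * m + 1) l) = -G l := fun l => by
    rw [Equiv.subLeft_apply, hG, hG,
      show m - (2 * m + 1 - l) = m - l + 2 * (l - m - 1) + 1 by ring, thetaC_sign, neg_mul]
    congr 4
    push_cast
    ring
  have h4 := (Equiv.subLeft (2 * m + 1)).tsum_eq G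
  simp only [h3, tsum_neg] at h4
  have h5 := (h1 m).tsum_sub (h1 (m + 1))
  simp only [h2] at h5
  linarith only [h4, h5]

theorem kronecker {g : ℝ} (hg : 0 < g) : ∃ c0 : ℝ, ∀ u, 0 < u → u < g →
    (∑' l : ℤ, 2 * Real.exp (2 * u * l) / (1 + Real.exp (2 * g * l))) * thS g u =
      c0 * thT g u := by
  have h1 : ∀ m : ℤ, ∑' l, thetaC_c g m l = ∑' l, thetaC_c g 0 l := fun m => by
    induction m using Int.induction_on with
    | zero => rfl
    | succ i ih => rw [thetaC_step hg, ih]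
    | pred i ih => rw [← thetaC_step hg, sub_add_cancel, ih]
  refine ⟨∑' l, thetaC_c g 0 l, fun u hu hug => ?_⟩
  have h2 := thetaC_sum hu hug
  rw [← h2.tsum_eq, h2.summable.tsum_prod, thT, ← tsum_mul_left]
  refine tsum_congr fun m => ?_
  simp only [tsum_mul_left, h1 m]
  ring

theorem thetaC_near {g u : ℝ} (hu : 0 < u) (hug : u ≤ g / 2) :
    |(∑' l : ℤ, 2 * Real.exp (2 * u * l) / (1 + Real.exp (2 * g * l))) -
      2 * (1 - Real.exp (-2 * u))⁻¹| ≤ 2 * (1 - Real.exp (-g))⁻¹ + 1 := by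
  have h1 := (kron_summable hu (show u < g by linarith only [hu, hug])).hasSum.nat_add_neg
  have h2 := h1.sub (thetaC_geo (show -2 * u < 0 by linarith))
  have h3 := thetaC_geo (show -g < 0 by linarith)
  have h4 := h2.norm_le_of_bounded h3 fun n => by
    have n0 : (0 : ℝ) ≤ n := n.cast_nonneg
    have a1 := thetaC_le (2 * u * (n : ℤ)) (2 * g * (n : ℤ))
    have a2 : Real.exp (2 * u * (n : ℤ) - 2 * g * (n : ℤ)) ≤ Real.exp (-g * n) :=
      Real.exp_le_exp.2 (by push_cast; linarith only [hug, mul_nonneg_of_nonpos_of_nonpos (Mathlib.Tactic.Linarith.sub_nonpos_of_le (Mathlib.Tactic.Linarith.natCast_nonneg ℝ n)) (Mathlib.Tactic.Linarith.sub_nonpos_of_le hug)])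
    have a3 : 0 ≤ 2 * Real.exp (2 * u * (n : ℤ)) / (1 + Real.exp (2 * g * (n : ℤ))) := by
      positivity
    have e : 2 * u * ((-(n : ℤ) : ℤ) : ℝ) = -2 * u * n := by push_cast; ring
    have a4 := thetaC_le' (-2 * u * n) (2 * g * ((-(n : ℤ) : ℤ) : ℝ))
    have a5 : 2 * Real.exp (-2 * u * n) - 2 * Real.exp (-g * n) ≤
        2 * Real.exp (-2 * u * n) / (1 + Real.exp (2 * g * ((-(n : ℤ) : ℤ) : ℝ))) := by
      have b1 : Real.exp (-2 * u * n) ≤ 1 := Real.exp_le_one_iff.2 (by linarith only [hu, mul_nonneg_of_nonpos_of_nonpos (Mathlib.Tactic.Linarith.sub_nonpos_of_le (Mathlib.Tactic.Linarith.natCast_nonneg ℝ n)) (le_of_lt (Mathlib.Tactic.Linarith.sub_neg_of_lt hu))])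
      have b2 : Real.exp (2 * g * ((-(n : ℤ) : ℤ) : ℝ)) ≤ Real.exp (-g * n) :=
        Real.exp_le_exp.2 (by push_cast; linarith only [hu, hug, mul_nonneg_of_nonpos_of_nonpos (Mathlib.Tactic.Linarith.sub_nonpos_of_le (Mathlib.Tactic.Linarith.natCast_nonneg ℝ n)) (le_of_lt (Mathlib.Tactic.Linarith.sub_neg_of_lt hu)), mul_nonneg_of_nonpos_of_nonpos (Mathlib.Tactic.Linarith.sub_nonpos_of_le (Mathlib.Tactic.Linarith.natCast_nonneg ℝ n)) (Mathlib.Tactic.Linarith.sub_nonpos_of_le hug)])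
      have b3 := Real.exp_pos (2 * g * ((-(n : ℤ) : ℤ) : ℝ))
      have b4 := Real.exp_pos (-2 * u * n)
      rw [le_div_iff₀ (by positivity)]
      linarith only [b2, a1, b3, a2, a3, b1, mul_nonneg_of_nonpos_of_nonpos (Mathlib.Tactic.Linarith.sub_nonpos_of_le a1) (le_of_lt (Mathlib.Tactic.Linarith.sub_neg_of_lt b3)), mul_nonneg_of_nonpos_of_nonpos (Mathlib.Tactic.Linarith.sub_nonpos_of_le a2) (le_of_lt (Mathlib.Tactic.Linarith.sub_neg_of_lt b3)), mul_nonneg_of_nonpos_of_nonpos (Mathlib.Tactic.Linarith.sub_nonpos_of_le a3) (le_of_lt (Mathlib.Tactic.Linarith.sub_neg_of_lt b3)), mul_nonneg_of_nonpos_of_nonpos (Mathlib.Tactic.Linarith.sub_nonpos_of_le b1) (le_of_lt (Mathlib.Tactic.Linarith.sub_neg_of_lt b3))]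
    rw [e, Real.norm_eq_abs, abs_le]
    constructor <;> linarith only [a3, a5, a1, a2, a4]
  rw [Real.norm_eq_abs, abs_le] at h4
  norm_num at h4 ⊢
  rw [abs_le]
  constructor <;> linarith only [h4, h4.1, h4.2]

theorem kron_pole {g : ℝ} (hg : 0 < g) :
    Tendsto (fun u : ℝ => u * ∑' l : ℤ, 2 * Real.exp (2 * u * l) / (1 + Real.exp (2 * g * l)))
      (𝓝[>] 0) (𝓝 1) := by
  have h1 : HasDerivAt (fun u : ℝ => Real.exp (-2 * u)) (-2) 0 := by
    simpa using ((hasDerivAt_id (0 : ℝ)).const_mul (-2)).exp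
  have h2 := (h1.tendsto_slope_zero_right.inv₀ (by norm_num)).const_mul (-2)
  have h3 : Tendsto (fun u : ℝ => u * (2 * (1 - Real.exp (-2 * u))⁻¹)) (𝓝[>] 0) (𝓝 1) := by
    convert h2 using 2 with u
    · simp only [zero_add, mul_zero, Real.exp_zero, smul_eq_mul, mul_inv, inv_inv]
      rw [← neg_sub (Real.exp _), inv_neg]
      ring
    · norm_num
  have h4 : Tendsto (fun u : ℝ => u * (2 * (1 - Real.exp (-g))⁻¹ + 1)) (𝓝[>] 0) (𝓝 0) := by
    simpa using ((tendsto_id (x := 𝓝 (0 : ℝ))).mul_const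
      (2 * (1 - Real.exp (-g))⁻¹ + 1)).mono_left nhdsWithin_le_nhds
  have h5 := (squeeze_zero_norm' (f := fun u : ℝ =>
    u * (∑' l : ℤ, 2 * Real.exp (2 * u * l) / (1 + Real.exp (2 * g * l))) -
      u * (2 * (1 - Real.exp (-2 * u))⁻¹)) ?_ h4).add h3
  · simpa only [sub_add_cancel, zero_add] using h5
  filter_upwards [self_mem_nhdsWithin, mem_nhdsWithin_of_mem_nhds (Iic_mem_nhds (half_pos hg))]
    with u hu hu'
  have hu0 : 0 < u := hu
  rw [← mul_sub, Real.norm_eq_abs, abs_mul, abs_of_pos hu0]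
  exact mul_le_mul_of_nonneg_left (thetaC_near hu0 hu') hu0.le

end Pool.Agent.Work.MP_413ea6_mp
end

-- merged part: Pool.Agent.Work.MP_413ea6_mp.KSinh
section
open Filter Topology Finset MeasureTheory

namespace Pool.Agent.Work.MP_413ea6_mp

/-! The antiferroelectric regime. -/

/-- The discrete comparison measure. -/
noncomputable def KSinh_mu (g : ℝ) : Measure ℝ :=
  Measure.sum fun l : ℤ =>
    ENNReal.ofReal (2 / (1 + Real.exp (2 * g * l))) • Measure.dirac (2 * l : ℝ)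

theorem KSinh_integral (g : ℝ) (f : ℝ → ℝ) :
    ∫ x, f x ∂KSinh_mu g = ∑' l : ℤ, 2 / (1 + Real.exp (2 * g * l)) * f (2 * l) := by
  unfold KSinh_mu
  rw [integral_sum_dirac fun _ => ENNReal.ofReal_ne_top]
  refine tsum_congr fun l => ?_
  rw [ENNReal.toReal_ofReal (by positivity), smul_eq_mul]

theorem KSinh_term (g u : ℝ) (l : ℤ) :
    2 / (1 + Real.exp (2 * g * l)) * Real.exp (u * (2 * l)) =
      2 * Real.exp (2 * u * l) / (1 + Real.exp (2 * g * l)) := by
  rw [show u * (2 * (l : ℝ)) = 2 * u * l by ring]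
  ring

theorem KSinh_int {g u : ℝ} (hu : 0 < u) (hug : u < g) :
    Integrable (fun x => Real.exp (u * x)) (KSinh_mu g) := by
  unfold KSinh_mu
  refine integrable_sum_dirac (fun _ => ENNReal.ofReal_ne_top) ?_
  refine (kron_summable hu hug).congr fun l => ?_
  rw [ENNReal.toReal_ofReal (by positivity), Real.norm_of_nonneg (Real.exp_pos _).le, KSinh_term]

theorem KSinh_sf {g : ℝ} (hg : 0 < g) : SigmaFinite (KSinh_mu g) := by
  have hi := KSinh_int (half_pos hg) (half_lt_self hg)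
  refine Measure.sigmaFinite_of_countable
    (S := Set.range fun n : ℕ => {x : ℝ | 1 / ((n : ℝ) + 1) ≤ Real.exp (g / 2 * x)})
    (Set.countable_range _) ?_ ?_
  · rintro _ ⟨n, rfl⟩
    exact hi.measure_ge_lt_top (by positivity)
  · refine Set.eq_univ_of_forall fun x => ?_
    obtain ⟨n, hn⟩ := exists_nat_one_div_lt (Real.exp_pos (g / 2 * x))
    exact ⟨_, ⟨n, rfl⟩, hn.le⟩

theorem KSinh_congr {f f' : ℕ → ℝ} {a : ℝ} (h : HasSum f a) (e : ∀ n, f' n = f n) :
    HasSum f' a := by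
  rwa [funext e]

theorem KSinh_lap {g u : ℝ} (hu : 0 < u) (hug : u < g) :
    ∫ x, Real.exp (u * x) * (1 + Real.exp (-g * |x|)) ∂KSinh_mu g =
      Real.sinh g / (Real.sinh (g - u) * Real.sinh u) := by
  rw [KSinh_integral]
  have hq0 := Real.exp_pos (2 * (u - g))
  have hq1 : Real.exp (2 * (u - g)) < 1 := Real.exp_lt_one_iff.2 (by linarith)
  have hp0 := Real.exp_pos (-(2 * u))
  have hp1 : Real.exp (-(2 * u)) < 1 := Real.exp_lt_one_iff.2 (by linarith)
  have h1 := (hasSum_geometric_of_lt_one hq0.le hq1).mul_left 2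
  have h2 := (hasSum_geometric_of_lt_one hp0.le hp1).mul_left (2 * Real.exp (-(2 * u)))
  have key : HasSum (fun l : ℤ => 2 / (1 + Real.exp (2 * g * l)) *
      (Real.exp (u * (2 * l)) * (1 + Real.exp (-g * |2 * (l : ℝ)|))))
      (2 * (1 - Real.exp (2 * (u - g)))⁻¹ +
        2 * Real.exp (-(2 * u)) * (1 - Real.exp (-(2 * u)))⁻¹) := by
    refine HasSum.of_nat_of_neg_add_one ?_ ?_
    · refine KSinh_congr h1 fun n => ?_
      rw [Int.cast_natCast, abs_of_nonneg (by positivity), ← Real.exp_nat_mul,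
        show (n : ℝ) * (2 * (u - g)) = u * (2 * n) - 2 * g * n by ring,
        show -g * (2 * (n : ℝ)) = -(2 * g * n) by ring, Real.exp_sub, Real.exp_neg]
      have := Real.exp_pos (2 * g * n)
      field_simp
      ring
    · refine KSinh_congr h2 fun n => ?_
      have hn : (0 : ℝ) ≤ n := Nat.cast_nonneg n
      push_cast
      rw [abs_of_nonpos (by linarith only [hq0, hq1]), ← Real.exp_nat_mul, mul_assoc 2 (Real.exp _), ← Real.exp_add,
        show -(2 * u) + (n : ℝ) * -(2 * u) = u * (2 * -((n : ℝ) + 1)) by ring,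
        show -g * -(2 * -((n : ℝ) + 1)) = 2 * g * -((n : ℝ) + 1) by ring]
      have := Real.exp_pos (2 * g * -((n : ℝ) + 1))
      field_simp
  rw [key.tsum_eq]
  have s1 : 0 < Real.sinh (g - u) := Real.sinh_pos_iff.2 (by linarith)
  have s2 : 0 < Real.sinh u := Real.sinh_pos_iff.2 hu
  have e1 : 2 * (1 - Real.exp (2 * (u - g)))⁻¹ = Real.cosh (g - u) / Real.sinh (g - u) + 1 := by
    have e : Real.exp (2 * (u - g)) = (Real.exp (g - u))⁻¹ ^ 2 := by
      rw [← Real.exp_neg, ← Real.exp_nat_mul]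
      congr 1
      push_cast
      ring
    have t1 : 1 - Real.exp (2 * (u - g)) ≠ 0 := by linarith
    have t2 := s1.ne'
    have t3 := (Real.exp_pos (g - u)).ne'
    rw [div_add_one t2, eq_div_iff t2, mul_assoc, inv_mul_eq_div, ← mul_div_assoc, div_eq_iff t1,
      e, Real.cosh_eq, Real.sinh_eq, Real.exp_neg]
    field_simp
    ring
  have e2 : 2 * Real.exp (-(2 * u)) * (1 - Real.exp (-(2 * u)))⁻¹ =
      Real.cosh u / Real.sinh u - 1 := by
    have e : Real.exp (-(2 * u)) = (Real.exp u)⁻¹ ^ 2 := by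
      rw [← Real.exp_neg, ← Real.exp_nat_mul]
      congr 1
      push_cast
      ring
    have t1 : 1 - Real.exp (-(2 * u)) ≠ 0 := by linarith only [hp1]
    have t2 := s2.ne'
    have t3 := (Real.exp_pos u).ne'
    rw [div_sub_one t2, eq_div_iff t2, mul_assoc, inv_mul_eq_div, ← mul_div_assoc, div_eq_iff t1,
      e, Real.cosh_eq, Real.sinh_eq, Real.exp_neg]
    field_simp
    ring
  have e3 : Real.sinh g = Real.sinh (g - u) * Real.cosh u + Real.cosh (g - u) * Real.sinh u := by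
    rw [← Real.sinh_add, sub_add_cancel]
  rw [e1, e2, e3]
  field_simp
  ring

theorem KSinh_pos {g u : ℝ} (hu : 0 < u) (hug : u < g) :
    0 < ∑' l : ℤ, 2 * Real.exp (2 * u * l) / (1 + Real.exp (2 * g * l)) :=
  (kron_summable hu hug).tsum_pos (fun l => by positivity) 0 (by positivity)

theorem kdata_sinh {g : ℝ} (hg : 0 < g) : Nonempty (KData trigSinh g) := by
  obtain ⟨c0, hc⟩ := kronecker hg
  obtain ⟨m, M, hm, hT⟩ := thT_bd hg
  have hTp : ∀ x, 0 < thT g x := fun x => hm.trans_le (hT x).1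
  have hc0 : c0 ≠ 0 := by
    obtain ⟨x, hx, hxg, hS⟩ := thS_ne_zero hg
    intro h
    have := hc x hx hxg
    rw [h, zero_mul] at this
    exact mul_ne_zero (KSinh_pos hx hxg).ne' hS this
  have hT0 := (hTp 0).ne'
  have hσ : ∀ u, 0 < u → u < g → thS g u / (c0 * thT g 0) = thT g u / (thT g 0 *
      ∑' l : ℤ, 2 * Real.exp (2 * u * l) / (1 + Real.exp (2 * g * l))) := by
    intro u hu hug
    have h1 := hc u hu hug
    have h2 := (KSinh_pos hu hug).ne'
    rw [div_eq_div_iff (mul_ne_zero hc0 hT0) (mul_ne_zero hT0 h2)]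
    linear_combination thT g 0 * h1
  have hsm : ContDiff ℝ 2 fun u => thS g u / (c0 * thT g 0) := (thS_smooth hg).div_const _
  refine ⟨{
    μ := KSinh_mu g
    ρ := fun x => 1 + Real.exp (-g * |x|)
    σ := fun u => thS g u / (c0 * thT g 0)
    τ := thT g
    sf := KSinh_sf hg
    g_pos := hg
    S_pos := fun u hu _ => Real.sinh_pos_iff.2 hu
    int := fun u hu hug => KSinh_int hu hug
    ρ_meas := by fun_prop
    ρ_bd := ⟨1, 2, one_pos, fun x => ⟨?_, ?_⟩⟩
    ρ_lim := fun ε hε => ⟨-Real.log ε / g, fun x hx => ⟨?_, ?_⟩⟩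
    lap := fun u hu hug => KSinh_lap hu hug
    lap0 := fun u hu hug => ?_
    fay := fun s u v u' v' => ?_
    τ_bd := ⟨m, M, hm, hT⟩
    σ_smooth := hsm
    σ_neg := fun u => by simp only [thS_neg hg, neg_div]
    σ_deriv := ?_
    σ_pos := fun u hu hug => ?_
    σ_symm := fun u => by simp only [thS_symm hg] }⟩
  · linarith [Real.exp_pos (-g * |x|)]
  · have : Real.exp (-g * |x|) ≤ 1 :=
      Real.exp_le_one_iff.2 (by linarith only [hg, abs_nonneg x, mul_nonneg_of_nonpos_of_nonpos (le_of_lt (Mathlib.Tactic.Linarith.sub_neg_of_lt hg)) (Mathlib.Tactic.Linarith.sub_nonpos_of_le (abs_nonneg x))])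
    linarith
  · have : Real.exp (-ε) ≤ 1 := Real.exp_le_one_iff.2 (by linarith)
    linarith [Real.exp_pos (-g * |x|)]
  · rw [div_le_iff₀ hg] at hx
    have h1 : Real.exp (-g * |x|) ≤ ε := by
      rw [← Real.exp_log hε]
      exact Real.exp_le_exp.2 (by linarith)
    linarith [Real.add_one_le_exp ε]
  · rw [KSinh_integral, tsum_congr (KSinh_term g u), hσ u hu hug]
    have h2 := (KSinh_pos hu hug).ne'
    have h3 := (hTp u).ne'
    generalize (∑' l : ℤ, 2 * Real.exp (2 * u * l) / (1 + Real.exp (2 * g * l))) = A at h2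
    field_simp
  · have h := th_fay hg s u v u' v'
    linear_combination ((c0 * thT g 0)⁻¹) ^ 2 * h
  · have hd : HasDerivAt (fun u => thS g u / (c0 * thT g 0))
        (deriv (fun u => thS g u / (c0 * thT g 0)) 0) 0 :=
      (hsm.differentiable (by norm_num) 0).hasDerivAt
    have hS0 : thS g 0 = 0 := by
      have := thS_neg hg 0
      rw [neg_zero] at this
      linarith only [this]
    have h1 := hd.tendsto_slope_zero_right
    have h2 : Tendsto (fun u : ℝ => thT g u / (thT g 0 *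
        (u * ∑' l : ℤ, 2 * Real.exp (2 * u * l) / (1 + Real.exp (2 * g * l))))) (𝓝[>] 0)
        (𝓝 (thT g 0 / (thT g 0 * 1))) :=
      (((thT_cont hg).tendsto 0).mono_left nhdsWithin_le_nhds).div
        ((kron_pole hg).const_mul _) (by rw [mul_one]; exact hT0)
    rw [mul_one, div_self hT0] at h2
    have h3 : deriv (fun u => thS g u / (c0 * thT g 0)) 0 = 1 := by
      refine tendsto_nhds_unique h1 (h2.congr' ?_)
      filter_upwards [Ioo_mem_nhdsGT hg] with u hu
      have h4 := (KSinh_pos hu.1 hu.2).ne'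
      have h5 := hu.1.ne'
      simp only [zero_add, hS0, zero_div, sub_zero, smul_eq_mul]
      rw [hσ u hu.1 hu.2]
      generalize (∑' l : ℤ, 2 * Real.exp (2 * u * l) / (1 + Real.exp (2 * g * l))) = A at h4
      field_simp
    rwa [h3] at hd
  · rw [hσ u hu hug]
    exact div_pos (hTp u) (mul_pos (hTp 0) (KSinh_pos hu hug))

end Pool.Agent.Work.MP_413ea6_mp
end

-- merged part: Pool.Agent.Work.MP_413ea6_mp.Full
section
open Filter Topology Finset

namespace Pool.Agent.Work.MP_413ea6_mp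

theorem prob_one_of_rare {a b c : ℝ} (ha : 0 < a) (hb : 0 < b) (hc : 0 < c)
    {A : ℕ → (ℕ → ℕ) → Prop} (hA : Rare (b / a) (c / a) A) {B : ∀ N, Cfg N → Prop}
    (h : ∀ᶠ N in atTop, ∀ σ : Cfg N, IsDW σ → ¬ A N (pathOf σ) → B N σ) :
    Tendsto (fun N => prob N a b c (B N)) atTop (𝓝 1) := by
  refine tendsto_of_tendsto_of_tendsto_of_le_of_le'
    (hA.tendsto_not (div_pos hb ha) (div_pos hc ha)) tendsto_const_nhds ?_
    (Eventually.of_forall fun N => prob_le_one ha hb hc _)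
  filter_upwards [h] with N hN
  rw [← prob_eq ha hb hc N (fun X => ¬ A N X)]
  exact prob_mono ha hb hc hN

theorem prob_zero_of_rare {a b c : ℝ} (ha : 0 < a) (hb : 0 < b) (hc : 0 < c)
    {A : ℕ → (ℕ → ℕ) → Prop} (hA : Rare (b / a) (c / a) A) {B : ∀ N, Cfg N → Prop}
    (h : ∀ᶠ N in atTop, ∀ σ : Cfg N, IsDW σ → B N σ → A N (pathOf σ)) :
    Tendsto (fun N => prob N a b c (B N)) atTop (𝓝 0) := by
  refine squeeze_zero' (Eventually.of_forall fun N => prob_nonneg ha hb hc _) ?_ hA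
  filter_upwards [h] with N hN
  rw [← prob_eq ha hb hc N (A N)]
  exact prob_mono ha hb hc hN

/-- The statement of the conjecture for given weights. -/
def ArcLaw (a b c : ℝ) : Prop :=
  ∃ (r : ℝ → ℝ) (P : ℝ → ℝ × ℝ),
    (∀ z, 1 ≤ z → Tendsto (fun N => rN N a b c z) atTop (𝓝 (r z))) ∧
    (∀ z, 1 < z → DifferentiableAt ℝ r z ∧ ∀ p : ℝ × ℝ,
      (lineF a b c r p.1 p.2 z = 0 ∧ HasDerivAt (lineF a b c r p.1 p.2) 0 z ↔ p = P z)) ∧
    ContinuousOn P (Set.Ioi 1) ∧ Tendsto P (𝓝[>] 1) (𝓝 (r 1, 0)) ∧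
    Tendsto P atTop (𝓝 (1, 1 - r 1)) ∧
    P '' Set.Ioi 1 ⊆ Set.Icc 0 1 ×ˢ Set.Icc 0 1 ∧
    frontier (frozenRegion a b c) ∩ Set.Ioo 0 1 ×ˢ Set.Ioo 0 1 =
      P '' Set.Ioi 1 ∩ Set.Ioo 0 1 ×ˢ Set.Ioo 0 1 ∧
    ∀ p ∈ (Set.Ioo 0 1 ×ˢ Set.Ioo 0 1 : Set (ℝ × ℝ)) \ P '' Set.Ioi 1,
      Tendsto (efp a b c p) atTop (𝓝 1) ∨ Tendsto (efp a b c p) atTop (𝓝 0)

theorem arcLaw_of_UL {a b c : ℝ} (ha : 0 < a) (hb : 0 < b) (hc : 0 < c) {r : ℝ → ℝ}
    (H : UL (b / a) (c / a) r)
    (hr : ∀ z, 1 ≤ z → Tendsto (fun N => rN N a b c z) atTop (𝓝 (r z)))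
    (h1 : Tendsto r (𝓝[>] 1) (𝓝 (r 1)))
    (hs : ∀ z w, 1 < z → 1 < w → lamW (b / a) (c / a) z * lamW (b / a) (c / a) w = 1 →
      r z = 1 - (1 - r w) / lamW (b / a) (c / a) w) : ArcLaw a b c := by
  have ht := H.ht
  have hγ := H.hγ
  have hl : lam a b c = lamW (b / a) (c / a) := funext (lam_eq ha hb)
  have hiff : ∀ z, 1 < z → ∀ p : ℝ × ℝ,
      (p.1 - lamW (b / a) (c / a) z * p.2 - r z = 0 ∧
        HasDerivAt (fun w => p.1 - lamW (b / a) (c / a) w * p.2 - r w) 0 z ↔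
          p = solP (lamW (b / a) (c / a)) r z) := fun z hz p => by
    obtain ⟨d, hd, hld⟩ := lamW_deriv ht hγ hz
    exact sol_iff hd hld (H.diff z hz) p
  obtain ⟨e1, e2, e3⟩ := envelope (l := lamW (b / a) (c / a)) (r := r) (e := efp a b c)
    (fun z hz => lamW_pos ht hγ hz) (lamW_anti ht hγ) (fun z hz => lamW_deriv ht hγ hz)
    (fun s hs => lamW_surj ht hγ hs) H.diff (fun z hz => H.r0 hz) (fun z hz => H.r1 hz)
    (fun z hz => H.pt hz) (fun p z hz hp => by
      refine prob_one_of_rare ha hb hc (H.hU z _ hz hp) ?_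
      refine Eventually.of_forall fun N σ hσ hn => frozen_of hσ fun j _ hj hy => ?_
      have h2 := not_le.1 fun h => hn ⟨j, hj, h⟩
      have h3 := mul_le_mul_of_nonneg_left hy (lamW_pos ht hγ hz).le
      linarith only [h2, h3])
    (fun p δ hx hy hδ hp => prob_zero_of_rare ha hb hc (H.rare_in hx.1 hy.2 hδ hp)
      (Eventually.of_forall fun N σ hσ h => le_of_frozen hσ hx.1 hy.2 h))
    (solP (lamW (b / a) (c / a)) r '' Set.Ioi 1) (by
      ext p
      exact ⟨fun ⟨z, hz, e⟩ => ⟨z, hz, (hiff z hz p).2 e.symm⟩,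
        fun ⟨z, hz, e⟩ => ⟨z, hz, ((hiff z hz p).1 e).symm⟩⟩)
  refine ⟨r, solP (lamW (b / a) (c / a)) r, hr, fun z hz => ⟨H.diff z hz, fun p => ?_⟩,
    H.sol_cont, H.sol_one h1, H.sol_top h1 hs, e2, e1, e3⟩
  rw [← hiff z hz p, ← hl]
  rfl

theorem arcLaw_disordered {a b c : ℝ} (ha : 0 < a) (hb : 0 < b) (hc : 0 < c) (h1 : a < b + c)
    (h2 : b < a + c) : ArcLaw a b c := by
  classical
  obtain ⟨T, g, u0, hu, hug, hT, e1, e2⟩ := exists_param ha hb hc h1 h2
  have hg : 0 < g := hu.trans hug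
  obtain ⟨K⟩ : Nonempty (KData T g) := by
    rcases hT with ⟨rfl, h⟩ | rfl | rfl
    exacts [kdata_sin hg h, kdata_id hg, kdata_sinh hg]
  obtain ⟨r, hr, hd⟩ := exists_r K hu hug
  have ht := div_pos hb ha
  have hγ := div_pos hc ha
  have hr' : ∀ ξ, 0 < ξ → u0 + ξ < g →
      Function.update r 1 (K.r1 u0) (zOf T g u0 ξ) = K.rr u0 ξ := fun ξ h3 h4 => by
    rw [Function.update_of_ne (zOf_gt K.S_pos hu h3 h4).ne', hr ξ h3 h4]
  refine arcLaw_of_UL ha hb hc (r := Function.update r 1 (K.r1 u0))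
    ⟨ht, hγ, fun z hz => ?_, fun z δ hz hδ => ?_, fun z δ hz hδ => ?_⟩ (fun z hz => ?_) ?_
    fun z w hz hw h => ?_
  · refine (hd z hz).congr_of_eventuallyEq ?_
    filter_upwards [Ioi_mem_nhds hz] with w hw using Function.update_of_ne (ne_of_gt hw) _ _
  · obtain ⟨ξ, h3, h4, rfl⟩ := zOf_surj K.S_pos hu hug hz
    rw [hr' ξ h3 h4, e1, e2]
    refine goal_U K hu h3 h4 hδ (ge_of_tendsto' (r_limit K hu h3 h4) fun N => ?_)
    exact rM_nonneg (e1 ▸ ht) (e2 ▸ hγ) (one_pos.trans hz) N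
  · obtain ⟨ξ, h3, h4, rfl⟩ := zOf_surj K.S_pos hu hug hz
    rw [hr' ξ h3 h4, e1, e2]
    exact goal_L K hu h3 h4 hδ
  · rcases hz.eq_or_lt with rfl | hz
    · rw [Function.update_self]
      exact r_one K hu hug ha hb hc e1 e2
    · obtain ⟨ξ, h3, h4, rfl⟩ := zOf_surj K.S_pos hu hug hz
      rw [hr' ξ h3 h4]
      refine (r_limit K hu h3 h4).congr' ?_
      filter_upwards [eventually_ge_atTop 1] with N hN
      rw [rN_eq ha hb hc hN, e1, e2]
  · rw [Function.update_self]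
    exact r_at_one K hu hug hr'
  · rw [e1, e2] at h ⊢
    exact r_symm K hu hug hr' hz hw h

theorem arcLaw_point {a b c : ℝ} (ha : 0 < a) (hb : 0 < b) (hc : 0 < c) (h : a + c ≤ b) :
    ArcLaw a b c := by
  have hl : lam a b c = lamW (b / a) (c / a) := funext (lam_eq ha hb)
  have h0 : ∀ p ∈ (Set.Ioo 0 1 ×ˢ Set.Ioo 0 1 : Set (ℝ × ℝ)),
      Tendsto (efp a b c p) atTop (𝓝 0) := fun p hp =>
    ferro_point_efp ha hb hc h hp.1.1.le hp.1.2 hp.2.1 hp.2.2.le
  refine ⟨fun _ => 1, fun _ => (1, 0), fun z hz => ferro_point_rN ha hb hc h hz,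
    fun z hz => ⟨differentiableAt_const _, fun p => ?_⟩, continuousOn_const, tendsto_const_nhds,
    by simp, ?_, ?_, fun p hp => Or.inr (h0 p hp.1)⟩
  · obtain ⟨d, hd, hld⟩ := lamW_deriv (div_pos hb ha) (div_pos hc ha) hz
    have := sol_iff (r := fun _ => 1) hd hld (differentiableAt_const _) p
    rw [← hl, show solP (lam a b c) (fun _ => 1) z = (1, 0) by simp [solP]] at this
    exact this
  · rintro _ ⟨z, -, rfl⟩
    simp
  · have e1 : (fun _ : ℝ => ((1, 0) : ℝ × ℝ)) '' Set.Ioi 1 ∩ Set.Ioo 0 1 ×ˢ Set.Ioo 0 1 = ∅ :=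
      Set.eq_empty_of_forall_notMem fun p ⟨⟨z, _, e⟩, hp⟩ => by
        rw [← e] at hp
        exact lt_irrefl _ hp.1.2
    rw [e1]
    refine Set.eq_empty_of_forall_notMem fun p ⟨hf, hp⟩ => ?_
    obtain ⟨q, q1, q2⟩ := mem_closure_iff.1 hf.1 _ (isOpen_Ioo.prod isOpen_Ioo) hp
    exact zero_ne_one (tendsto_nhds_unique (h0 q q1) q2)

theorem not_subset_curve {a b c : ℝ} (ha : 0 < a) (hb : 0 < b) (hc : 0 < c) (h : b + c ≤ a)
    (r : ℝ → ℝ) : ¬ (frontier (frozenRegion a b c) ∩ Set.Ioo 0 1 ×ˢ Set.Ioo 0 1 ⊆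
      curve a b c r) := fun h1 => by
  rw [ferro_frontier' ha hb hc h] at h1
  have h2 : Set.Ioo (0 : ℝ) 1 ⊆ {s : ℝ | (s, s) ∈ curve a b c r} :=
    fun s hs => h1 ⟨rfl, hs, hs⟩
  have h3 := MeasureTheory.measure_mono_null h2 (curve_null ha hb hc r)
  simp at h3

end Pool.Agent.Work.MP_413ea6_mp
end
end
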