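import Pool.Agent.Work.MP_413ea6_mp.Main

open Filter Topology Finset

namespace Pool.Agent.Work.MP_413ea6_mp

/-! A finite net of directions. -/

theorem GeoA_ivt {P : ℕ → Prop} {L : ℕ} (hL : 1 ≤ L) (h1 : P 1) (h2 : ¬ P L) :
    ∃ l, 1 ≤ l ∧ l < L ∧ P l ∧ ¬ P (l + 1) := by
  induction L, hL using Nat.le_induction with
  | base => exact absurd h1 h2
  | succ n hn ih =>
    by_cases h : P n
    · exact ⟨n, hn, Nat.lt_succ_self n, h, h2⟩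
    · obtain ⟨l, a, b, c⟩ := ih h
      exact ⟨l, a, by omega, c⟩

theorem GeoA_det {η x y : ℝ} (hη : 0 < η) {L N : ℕ} (hL : 1 ≤ L) (hLη : 1 ≤ L * η * (4 * η))
    (hLN : L ≤ N) {X : ℕ → ℕ} (hP : IsPath N X) (hx : x ∈ Set.Icc (0 : ℝ) 1)
    (hy : y ∈ Set.Icc (0 : ℝ) 1) {r : ℕ → ℝ}
    (hZ : ∀ l ∈ Icc 1 L, x + 4 * η - l * η * (y - 4 * η) - r l ≤ 0)
    (hX : (X ⌊y * N⌋₊ : ℝ) ≤ x * N)
    (h1 : ∀ l ∈ Icc 1 L, ∃ j ≤ N, N * r l < (X j : ℝ) - l * η * j + η * N) :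
    ∃ l ∈ Icc 1 L, ∃ j1 j j2 : ℕ, j1 ≤ j ∧ j ≤ j2 ∧ j2 ≤ N ∧
      (X j : ℝ) - l * η * j + η * N ≤ X j1 - l * η * j1 ∧
      (X j : ℝ) - l * η * j + η * N ≤ X j2 - l * η * j2 := by
  choose! J hJ hJ' using h1
  have hN : (0 : ℝ) < N := by exact_mod_cast lt_of_lt_of_le one_pos (hL.trans hLN)
  have hηN : 0 < η * N := mul_pos hη hN
  have f1 : y * N < (⌊y * N⌋₊ : ℝ) + 1 := Nat.lt_floor_add_one _
  generalize ⌊y * N⌋₊ = k at hX f1
  have key : ∀ l ∈ Icc 1 L, x * N + 4 * (η * N) - l * η * (y * N) + l * η * (4 * η) * N <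
      (X (J l) : ℝ) - l * η * J l + η * N := fun l hl => by
    have := mul_le_mul_of_nonneg_left (hZ l hl) hN.le
    linarith [hJ' l hl]
  have hyN : η * (y * N) ≤ η * N := by
    have : y * N ≤ 1 * N := mul_le_mul_of_nonneg_right hy.2 hN.le
    nlinarith
  have a1 : k < J 1 := by
    by_contra h
    have h2 : (X (J 1) : ℝ) ≤ X k := by exact_mod_cast hP.2.1 (not_lt.1 h)
    have h3 := key 1 (mem_Icc.2 ⟨le_rfl, hL⟩)
    have h4 : 0 ≤ η * J 1 := by positivity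
    have h5 : 0 ≤ η * (4 * η) * N := by positivity
    push_cast at h3
    linarith
  have a2 : ¬ k < J L := by
    intro h
    have h2 : (X (J L) : ℝ) ≤ N := by exact_mod_cast hP.le _
    have h3 := key L (mem_Icc.2 ⟨hL, le_rfl⟩)
    have h4 : (k : ℝ) + 1 ≤ J L := by exact_mod_cast h
    have h5 : L * η * (y * N) ≤ L * η * J L :=
      mul_le_mul_of_nonneg_left (by linarith) (by positivity)
    have h6 := mul_le_mul_of_nonneg_right hLη hN.le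
    have h7 := mul_nonneg hx.1 hN.le
    linarith
  obtain ⟨l, b1, b2, b3, b4⟩ := GeoA_ivt (P := fun l => k < J l) hL a1 a2
  have m1 : l ∈ Icc 1 L := mem_Icc.2 ⟨b1, b2.le⟩
  have m2 : l + 1 ∈ Icc 1 L := mem_Icc.2 ⟨by omega, b2⟩
  have c1 : l * η * (y * N) ≤ l * η * (k + 1) := mul_le_mul_of_nonneg_left f1.le (by positivity)
  have c2 : l * η ≤ η * N := by
    have : (l : ℝ) ≤ N := by exact_mod_cast b2.le.trans hLN
    nlinarith
  refine ⟨l, m1, J (l + 1), k, J l, not_lt.1 b4, b3.le, hJ l m1, ?_, ?_⟩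
  · have h3 := key (l + 1) m2
    have h4 : 0 ≤ η * J (l + 1) := by positivity
    have h5 : 0 ≤ ((l : ℝ) + 1) * η * (4 * η) * N := by positivity
    push_cast at h3
    linarith
  · have h3 := key l m1
    have h5 : 0 ≤ (l : ℝ) * η * (4 * η) * N := by positivity
    linarith

theorem geo_net {t γ δ : ℝ} (ht : 0 < t) (htγ : t ≤ γ) (hγ : 1 ≤ γ) (hδ : 0 < δ) :
    ∃ Z : Finset ℝ, (∀ z ∈ Z, 1 < z) ∧
      Rare t γ (fun N X => ∃ x ∈ Set.Icc (0 : ℝ) 1, ∃ y ∈ Set.Icc (0 : ℝ) 1,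
        (∀ z ∈ Z, x + δ - lamW t γ z * (y - δ) - rM N t γ z ≤ 0) ∧
          (X ⌊y * N⌋₊ : ℝ) ≤ x * N) := by
  classical
  have hγ0 : 0 < γ := lt_of_lt_of_le one_pos hγ
  obtain ⟨η, rfl⟩ : ∃ η : ℝ, δ = 4 * η := ⟨δ / 4, by ring⟩
  have hη : 0 < η := by linarith
  obtain ⟨L, hL, hLη⟩ : ∃ L : ℕ, 1 ≤ L ∧ 1 ≤ L * η * (4 * η) := by
    obtain ⟨L, h⟩ := exists_nat_ge (1 / (η * (4 * η)))
    rw [div_le_iff₀ (by positivity)] at h
    refine ⟨L + 1, by omega, ?_⟩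
    push_cast
    nlinarith [mul_pos hη hη]
  have hz : ∀ l ∈ Icc 1 L, ∃ z : ℝ, 1 < z ∧ lamW t γ z = l * η := fun l hl =>
    lamW_surj ht hγ0 (mul_pos (by exact_mod_cast (mem_Icc.1 hl).1) hη)
  choose! z hz1 hz2 using hz
  refine ⟨(Icc 1 L).image z, fun w hw => ?_, ?_⟩
  · obtain ⟨l, hl, rfl⟩ := mem_image.1 hw
    exact hz1 l hl
  refine Rare.mono ht hγ0 (Rare.or ht hγ0
    (Rare.exists ht hγ0 (Icc 1 L) fun l hl => main_L ht htγ hγ (hz1 l hl) hη)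
    (Rare.exists ht hγ0 (Icc 1 L) fun l hl => main_C ht htγ hγ (hz1 l hl) hη)) ?_
  filter_upwards [eventually_ge_atTop L] with N hN X hP _ ⟨x, hx, y, hy, hZ, hX⟩
  rw [or_iff_not_imp_left]
  intro h
  push Not at h
  obtain ⟨l, hl, h2⟩ := GeoA_det hη hL hLη hN hP hx hy (r := fun l => rM N t γ (z l))
    (fun l hl => hz2 l hl ▸ hZ _ (mem_image_of_mem z hl)) hX fun l hl => hz2 l hl ▸ h l hl
  exact ⟨l, hl, hz2 l hl ▸ h2⟩

end Pool.Agent.Work.MP_413ea6_mp
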