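import Pool.Agent.Work.MP_413ea6_mp.Pin

open Filter Topology Finset

namespace Pool.Agent.Work.MP_413ea6_mp

/-! The walk in an increasing potential, I. -/

theorem WalkA_split {N J : ℕ} {X : ℕ → ℕ} (hX : IsPath N X) (q : Prop) :
    ind q = ∑ p ∈ range (N + 1), ind (q ∧ X J = p) := by
  rw [sum_eq_single (X J) (fun p _ hp => ind_neg fun h => hp h.2.symm)
    (fun h => absurd (mem_range.2 (Nat.lt_succ_of_le (hX.le J))) h)]
  exact ind_congr (by simp)

theorem WalkA_congr {t γ w : ℝ} {N : ℕ} {φ φ' : (ℕ → ℕ) → ℝ} (h : ∀ X, IsPath N X → φ X = φ' X) :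
    pS N t γ w φ = pS N t γ w φ' :=
  sum_congr rfl fun X hX => by rw [h X (mem_paths.1 hX)]

theorem walk_up {t γ z δ : ℝ} (ht : 0 < t) (htγ : t ≤ γ) (hz : 1 < z) (hδ : 0 < δ) :
    ∃ θ : ℝ, 0 < θ ∧ θ < 1 ∧ ∀ᶠ N : ℕ in atTop, ∀ (m : ℝ) (ψ : ℕ → ℕ → ℝ), Psi ψ → 0 ≤ m →
      (N : ℝ) - lamW t γ z * N ≤ m + 1 →
      (∀ j u : ℕ, m + lamW t γ z * ((j : ℝ) + 1) < u → ψ j u = 1) →
      pS N t γ z (fun X => psiW N ψ X *
          ind (∃ j ≤ N, m + δ * N ≤ (X j : ℝ) - lamW t γ z * j)) ≤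
        θ ^ N * pS N t γ z (psiW N ψ) := by
  have hγ : 0 < γ := ht.trans_le htγ
  have hz0 : 0 < z := one_pos.trans hz
  have hl := lamW_pos ht hγ hz
  set l := lamW t γ z with hldef
  obtain ⟨θ, h0, h1, H⟩ := free_pin ht hγ hz (δ := δ / 4) (by positivity)
  refine ⟨(1 + θ) / 2, by positivity, by linarith, ?_⟩
  have hN := (tendsto_natCast_atTop_atTop (R := ℝ)).const_mul_atTop hδ
  filter_upwards [H, poly_geom h0 (show θ < (1 + θ) / 2 by linarith) 2 0,
    hN.eventually_ge_atTop 2, hN.eventually_ge_atTop (8 * l)] with N H h2 h3 h4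
  intro m ψ hψ hm hmN hψ1
  rw [pow_zero, mul_one] at h2
  have hθ1 : ((1 + θ) / 2) ^ N ≤ 1 := pow_le_one₀ (by positivity) (by linarith)
  have hZ : 0 ≤ pS N t γ z (psiW N ψ) := pS_nonneg ht hγ hz0 (psiW_nonneg hψ N)
  have hex : ∃ j : ℕ, (N : ℝ) ≤ m + δ * N / 2 + l * j := ⟨N, by linarith⟩
  classical
  have hJ := Nat.find_spec hex
  have hJN : Nat.find hex ≤ N := Nat.find_min' hex (by linarith)
  have hJ' : ∀ j < Nat.find hex, ¬ (N : ℝ) ≤ m + δ * N / 2 + l * j := fun j => Nat.find_min hex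
  generalize Nat.find hex = J at hJ hJN hJ'
  have hev : ∀ X, IsPath N X → ∀ j : ℕ, m + δ * N ≤ (X j : ℝ) - l * j → 1 ≤ j ∧ j < J := by
    intro X hX j hj
    refine ⟨Nat.pos_of_ne_zero ?_, lt_of_not_ge fun h => ?_⟩
    · rintro rfl
      rw [hX.1] at hj
      simp only [Nat.cast_zero, mul_zero, sub_zero] at hj
      linarith
    · have h5 : (X j : ℝ) ≤ N := Nat.cast_le.2 (hX.le j)
      have h6 : l * J ≤ l * j := mul_le_mul_of_nonneg_left (Nat.cast_le.2 h) hl.le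
      linarith
  rcases Nat.eq_zero_or_pos J with rfl | hJ1
  · refine le_trans (pS_mono ht hγ hz0 (φ' := fun _ => 0) fun X hX _ => ?_) ?_
    · rw [ind_neg, mul_zero]
      rintro ⟨j, -, hj⟩
      exact absurd (hev X hX j hj).2 (Nat.not_lt_zero j)
    · rw [pS_zero]
      positivity
  have hJ2 : m + δ * N / 2 + l * ((J : ℝ) - 1) < N := by
    have := hJ' (J - 1) (by omega)
    rw [Nat.cast_sub hJ1, Nat.cast_one] at this
    exact not_le.1 this
  have hP := pin_pos1 ht hγ hz0 hJ1 hJN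
  have hB := H J N hJ1 hJN le_rfl (by linarith)
  set Bad : (ℕ → ℕ) → Prop := fun X => ∃ j ∈ Icc 1 J,
    δ / 4 * N ≤ |(X j : ℝ) - N + l * ((J : ℝ) - j)| with hBad
  have hF := pS_fkg ht htγ hz0 (N := N)
    (fun X => psiW N ψ X * ind (∃ j ≤ N, m + δ * N ≤ (X j : ℝ) - l * j))
    (fun X => ind (X J = N ∧ ¬ Bad X)) (psiW N ψ) (fun X => ind (X J = N ∧ Bad X))
    (fun X => mul_nonneg (psiW_nonneg hψ N X) (ind_nonneg _)) (fun X => ind_nonneg _)
    (psiW_nonneg hψ N) (fun X => ind_nonneg _) (by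
      intro X X' hX hX' _ _
      by_cases hE : ∃ j ≤ N, m + δ * N ≤ (X j : ℝ) - l * j
      swap
      · rw [ind_neg hE, mul_zero, zero_mul]
        exact mul_nonneg (psiW_nonneg hψ N _) (ind_nonneg _)
      by_cases hG : X' J = N ∧ ¬ Bad X'
      swap
      · rw [ind_neg hG, mul_zero]
        exact mul_nonneg (psiW_nonneg hψ N _) (ind_nonneg _)
      have h5 : (X ⊔ X') J = N ∧ Bad (X ⊔ X') := by
        obtain ⟨j, -, hj⟩ := hE
        obtain ⟨h6, h7⟩ := hev X hX j hj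
        refine ⟨?_, j, mem_Icc.2 ⟨h6, h7.le⟩, le_trans ?_ (le_abs_self _)⟩
        · rw [Pi.sup_apply, hG.1]
          exact sup_eq_right.2 (hX.le J)
        · have h8 : (X j : ℝ) ≤ ((X ⊔ X') j : ℕ) := Nat.cast_le.2 (le_sup_left (a := X) j)
          linarith
      rw [ind_pos hE, ind_pos hG, ind_pos h5, mul_one, mul_one, mul_one]
      refine prod_le_prod (fun j _ => (hψ.1 _ _).1) fun j hj => ?_
      rw [Pi.inf_apply]
      rcases le_or_gt (X j) (X' j) with h | h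
      · rw [inf_eq_left.2 h]
      · rw [inf_eq_right.2 h.le, hψ1 j (X' j)]
        · exact (hψ.1 _ _).2
        have h6 : j ≤ J := by
          by_contra h6
          have h7 := hX'.2.1 (not_le.1 h6).le
          have h8 := hX.le j
          have h9 := hG.1
          omega
        have h7 : ¬ δ / 4 * N ≤ |(X' j : ℝ) - N + l * ((J : ℝ) - j)| := fun h7 =>
          hG.2 ⟨j, mem_Icc.2 ⟨(mem_Icc.1 hj).1, h6⟩, h7⟩
        have h8 := (abs_lt.1 (not_le.1 h7)).1
        linarith)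
  have hsum : pS N t γ z (fun X => ind (X J = N ∧ ¬ Bad X)) +
      pS N t γ z (fun X => ind (X J = N ∧ Bad X)) = pS N t γ z (fun X => ind (X J = N)) := by
    rw [← pS_add]
    refine WalkA_congr fun X _ => ?_
    rw [ind_and, ind_and, ind_not]
    ring
  have hA := pS_nonneg ht hγ hz0 (N := N)
    (φ := fun X => psiW N ψ X * ind (∃ j ≤ N, m + δ * N ≤ (X j : ℝ) - l * j))
    fun X => mul_nonneg (psiW_nonneg hψ N X) (ind_nonneg _)
  change pS N t γ z (fun X => ind (X J = N ∧ Bad X)) ≤ _ at hB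
  generalize pS N t γ z (fun X => psiW N ψ X * ind (∃ j ≤ N, m + δ * N ≤ (X j : ℝ) - l * j)) = A
    at hF hA ⊢
  generalize pS N t γ z (fun X => ind (X J = N ∧ ¬ Bad X)) = B at hF hsum
  generalize pS N t γ z (fun X => ind (X J = N ∧ Bad X)) = D at hF hsum hB
  generalize pS N t γ z (fun X => ind (X J = N)) = P at hsum hB hP
  generalize pS N t γ z (psiW N ψ) = Z at hF hZ ⊢
  have h5 : θ ^ N * P ≤ 1 / 2 * P := mul_le_mul_of_nonneg_right (by linarith) hP.le
  have h6 : A * (P / 2) ≤ A * B := mul_le_mul_of_nonneg_left (by linarith) hA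
  have h7 : Z * D ≤ Z * (θ ^ N * P) := mul_le_mul_of_nonneg_left hB hZ
  have h8 : A ≤ 2 * θ ^ N * Z := le_of_mul_le_mul_right (by linarith) hP
  exact h8.trans (mul_le_mul_of_nonneg_right h2 hZ)

theorem walk_start {t γ z δ : ℝ} (ht : 0 < t) (htγ : t ≤ γ) (hz : 1 < z) (hδ : 0 < δ) :
    ∃ θ : ℝ, 0 < θ ∧ θ < 1 ∧ ∀ᶠ N : ℕ in atTop, ∀ (m : ℝ) (ψ : ℕ → ℕ → ℝ) (J : ℕ), Psi ψ →
      1 ≤ J → J ≤ N → (∀ u : ℕ, (u : ℝ) < m + lamW t γ z * J → ψ J u = 0) →
      pS N t γ z (fun X => psiW N ψ X * ind ((X 1 : ℝ) + δ * N ≤ m)) ≤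
        θ ^ N * pS N t γ z (psiW N ψ) := by
  have hγ : 0 < γ := ht.trans_le htγ
  have hz0 : 0 < z := one_pos.trans hz
  have hl := lamW_pos ht hγ hz
  set l := lamW t γ z with hldef
  obtain ⟨θ, h0, h1, H⟩ := free_pin ht hγ hz hδ
  refine ⟨θ, h0, h1, ?_⟩
  filter_upwards [H] with N H
  intro m ψ J hψ hJ1 hJN hψ0
  have hδN : 0 ≤ δ * N := by positivity
  have hnn : ∀ (q : (ℕ → ℕ) → Prop) X, 0 ≤ psiW N ψ X * ind (q X) := fun q X =>
    mul_nonneg (psiW_nonneg hψ N X) (ind_nonneg _)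
  rcases lt_or_ge m 1 with hm | hm
  · refine le_trans (pS_mono ht hγ hz0 (φ' := fun _ => 0) fun X _ hX => ?_) ?_
    · rw [ind_neg, mul_zero]
      have : (1 : ℝ) ≤ X 1 := by exact_mod_cast hX
      linarith
    · rw [pS_zero]
      exact mul_nonneg (pow_pos h0 N).le (pS_nonneg ht hγ hz0 (psiW_nonneg hψ N))
  have e1 : pS N t γ z (fun X => psiW N ψ X * ind ((X 1 : ℝ) + δ * N ≤ m)) =
      ∑ p ∈ range (N + 1),
        pS N t γ z (fun X => psiW N ψ X * ind ((X 1 : ℝ) + δ * N ≤ m ∧ X J = p)) := by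
    rw [← pS_sum]
    exact WalkA_congr fun X hX => by rw [WalkA_split (J := J) hX, mul_sum]
  have e2 : pS N t γ z (psiW N ψ) =
      ∑ p ∈ range (N + 1), pS N t γ z (fun X => psiW N ψ X * ind (X J = p)) := by
    rw [← pS_sum]
    refine WalkA_congr fun X hX => ?_
    have h := WalkA_split (J := J) hX True
    simp only [true_and, ind_true] at h
    rw [← mul_sum, ← h, mul_one]
  rw [e1, e2, mul_sum]
  refine sum_le_sum fun p hp => ?_
  have hZ := pS_nonneg ht hγ hz0 (N := N) (hnn fun X => X J = p)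
  rcases lt_or_ge (p : ℝ) (m + l * J) with hp' | hp'
  · refine le_trans (pS_mono ht hγ hz0 (φ' := fun _ => 0) fun X _ _ => ?_) ?_
    · by_cases h : X J = p
      · have : psiW N ψ X = 0 := prod_eq_zero (mem_Icc.2 ⟨hJ1, hJN⟩) (by rw [h, hψ0 p hp'])
        rw [this, zero_mul]
      · rw [ind_neg fun h' => h h'.2, mul_zero]
    · rw [pS_zero]
      exact mul_nonneg (pow_pos h0 N).le hZ
  have hB := H J p hJ1 hJN (Nat.lt_succ_iff.1 (mem_range.1 hp)) (by linarith)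
  have hF := pS_fkg ht htγ hz0 (N := N)
    (fun X => psiW N ψ X * ind ((X 1 : ℝ) + δ * N ≤ m ∧ X J = p)) (fun X => ind (X J = p))
    (fun X => ind (X J = p ∧ ∃ j ∈ Icc 1 J, δ * N ≤ |(X j : ℝ) - p + l * ((J : ℝ) - j)|))
    (fun X => psiW N ψ X * ind (X J = p)) (hnn _) (fun X => ind_nonneg _) (fun X => ind_nonneg _)
    (hnn _) (by
      intro X X' hX hX' _ _
      by_cases hE : (X 1 : ℝ) + δ * N ≤ m ∧ X J = p
      swap
      · rw [ind_neg hE, mul_zero, zero_mul]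
        exact mul_nonneg (ind_nonneg _) (hnn (fun X => X J = p) _)
      by_cases hG : X' J = p
      swap
      · rw [ind_neg hG, mul_zero]
        exact mul_nonneg (ind_nonneg _) (hnn (fun X => X J = p) _)
      have h5 : (X ⊓ X') J = p ∧ ∃ j ∈ Icc 1 J,
          δ * N ≤ |(((X ⊓ X') j : ℕ) : ℝ) - p + l * ((J : ℝ) - j)| := by
        refine ⟨?_, 1, mem_Icc.2 ⟨le_rfl, hJ1⟩, le_trans ?_ (neg_le_abs _)⟩
        · rw [Pi.inf_apply, hG, hE.2, inf_idem]
        · have h8 : (((X ⊓ X') 1 : ℕ) : ℝ) ≤ X 1 := Nat.cast_le.2 (inf_le_left (a := X) 1)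
          have h9 := hE.1
          rw [Nat.cast_one]
          linarith
      have h6 : (X ⊔ X') J = p := by rw [Pi.sup_apply, hG, hE.2, sup_idem]
      rw [ind_pos hE, ind_pos hG, ind_pos h5, ind_pos h6, mul_one, mul_one, one_mul, mul_one]
      exact psiW_mono hψ N le_sup_left)
  have hle : pS N t γ z (fun X => psiW N ψ X * ind ((X 1 : ℝ) + δ * N ≤ m ∧ X J = p)) ≤
      pS N t γ z (fun X => ind (X J = p)) := pS_mono ht hγ hz0 fun X _ _ =>
    (mul_le_of_le_one_left (ind_nonneg _) (psiW_le_one hψ N X)).trans (ind_mono fun h => h.2)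
  rcases (pS_nonneg ht hγ hz0 (N := N) (φ := fun X => ind (X J = p))
    fun X => ind_nonneg _).eq_or_lt with hP | hP
  · rw [← hP] at hle
    exact hle.trans (mul_nonneg (pow_pos h0 N).le hZ)
  · refine le_of_mul_le_mul_right (hF.trans ?_) hP
    refine (mul_le_mul_of_nonneg_right hB hZ).trans (le_of_eq ?_)
    ring

end Pool.Agent.Work.MP_413ea6_mp
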