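import Pool.Agent.Work.MP_413ea6_mp.Pin

open Filter Topology Finset

namespace Pool.Agent.Work.MP_413ea6_mp

/-! The walk in an increasing potential, II: it does not dip below its chords. -/

theorem WalkB_lam_pos {t γ z : ℝ} (ht : 0 < t) (hγ : 0 < γ) (hz : 1 < z) : 0 < lamW t γ z := by
  unfold lamW
  have h1 : 0 < z - 1 := by linarith
  have h2 : 0 < z := by linarith
  positivity

/-- The four functions step: a path above two pins and low at `j` is compared with a bridge. -/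
theorem WalkB_fkg {t γ w : ℝ} (ht : 0 < t) (htγ : t ≤ γ) (hw : 0 < w) {N : ℕ}
    {ψ : ℕ → ℕ → ℝ} (hψ : Psi ψ) (E : (ℕ → ℕ) → Prop) {i j k q1 q2 : ℕ} {c θN : ℝ}
    (h1 : 1 ≤ i) (hik : i < k) (hk : k < N) (hq1 : 1 ≤ q1) (hq12 : q1 ≤ q2) (hq2 : q2 ≤ N)
    (hE : ∀ X, IsPath N X → 1 ≤ X 1 → E X → q1 ≤ X i ∧ q2 ≤ X k ∧ (X j : ℝ) ≤ c)
    (B : (ℕ → ℕ) → Prop) (hB : ∀ Y : ℕ → ℕ, (Y j : ℝ) ≤ c → B Y)
    (hbr : pS N t γ w (fun X => ind ((X i = q1 ∧ X k = q2) ∧ B X)) ≤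
      θN * pS N t γ w (fun X => ind (X i = q1 ∧ X k = q2))) :
    pS N t γ w (fun X => psiW N ψ X * ind (E X)) ≤ θN * pS N t γ w (psiW N ψ) := by
  have hγ : 0 < γ := lt_of_lt_of_le ht htγ
  have hpos := pin_pos2 (w := w) ht hγ hw h1 hik hk hq1 hq12 hq2
  have hψ0 : 0 ≤ pS N t γ w (psiW N ψ) := pS_nonneg ht hγ hw (psiW_nonneg hψ N)
  have hf := pS_fkg ht htγ hw (N := N) (fun X => psiW N ψ X * ind (E X))
    (fun X => ind (X i = q1 ∧ X k = q2))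
    (fun X => ind ((X i = q1 ∧ X k = q2) ∧ B X)) (psiW N ψ)
    (fun X => mul_nonneg (psiW_nonneg hψ N X) (ind_nonneg _)) (fun X => ind_nonneg _)
    (fun X => ind_nonneg _) (psiW_nonneg hψ N) (by
      intro X X' hX _ hX1 _
      by_cases hEX : E X
      · by_cases hP : X' i = q1 ∧ X' k = q2
        · obtain ⟨ha, hb, hc⟩ := hE X hX hX1 hEX
          have e1 : (X ⊓ X') i = q1 := by
            rw [Pi.inf_apply, hP.1]; exact inf_eq_right.2 ha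
          have e2 : (X ⊓ X') k = q2 := by
            rw [Pi.inf_apply, hP.2]; exact inf_eq_right.2 hb
          have e3 : (((X ⊓ X') j : ℕ) : ℝ) ≤ c := by
            have : (X ⊓ X') j ≤ X j := by rw [Pi.inf_apply]; exact inf_le_left
            exact (Nat.cast_le.2 this).trans hc
          rw [ind_pos hEX, ind_pos hP, ind_pos ⟨⟨e1, e2⟩, hB _ e3⟩, mul_one, mul_one, one_mul]
          exact psiW_mono hψ N le_sup_left
        · rw [ind_neg hP, mul_zero]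
          exact mul_nonneg (ind_nonneg _) (psiW_nonneg hψ N _)
      · rw [ind_neg hEX, mul_zero, zero_mul]
        exact mul_nonneg (ind_nonneg _) (psiW_nonneg hψ N _))
  have h2 := hf.trans (mul_le_mul_of_nonneg_right hbr hψ0)
  have h3 : pS N t γ w (fun X => psiW N ψ X * ind (E X)) *
      pS N t γ w (fun X => ind (X i = q1 ∧ X k = q2)) ≤
      (θN * pS N t γ w (psiW N ψ)) * pS N t γ w (fun X => ind (X i = q1 ∧ X k = q2)) := by
    refine h2.trans (le_of_eq ?_)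
    ring
  exact le_of_mul_le_mul_right h3 hpos

/-- One event of the union bound. -/
theorem WalkB_one {t γ w s δ θ : ℝ} (ht : 0 < t) (htγ : t ≤ γ) (hw : 0 < w) (hs : 0 < s)
    (hθ : 0 < θ) {N : ℕ} (hN : 1 + s ≤ δ / 2 * N)
    (hbr : ∀ i j k p r : ℕ, 1 ≤ i → i ≤ j → j ≤ k → i < k →
      k ≤ N → p ≤ r → r ≤ N → |(r : ℝ) - p - s * ((k : ℝ) - i)| ≤ 1 + s →
      pS N t γ w (fun X => ind ((X i = p ∧ X k = r) ∧
          (X j : ℝ) + δ / 2 * N ≤ p + s * ((j : ℝ) - i))) ≤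
        θ ^ N * pS N t γ w (fun X => ind (X i = p ∧ X k = r)))
    {ψ : ℕ → ℕ → ℝ} (hψ : Psi ψ) (j1 j j2 p : ℕ) :
    pS N t γ w (fun X => psiW N ψ X * ind (j1 ≤ j ∧ j ≤ j2 ∧ j2 < N ∧ X j = p ∧
        (p : ℝ) - s * j + δ * N ≤ X j1 - s * j1 ∧ (p : ℝ) - s * j + δ * N ≤ X j2 - s * j2)) ≤
      θ ^ N * pS N t γ w (psiW N ψ) := by
  classical
  have hγ : 0 < γ := lt_of_lt_of_le ht htγ
  have hψ0 : 0 ≤ pS N t γ w (psiW N ψ) := pS_nonneg ht hγ hw (psiW_nonneg hψ N)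
  set m : ℝ := (p : ℝ) - s * j + δ * N with hm
  by_cases hex : ∃ X0 : ℕ → ℕ, IsPath N X0 ∧ (j1 ≤ j ∧ j ≤ j2 ∧ j2 < N ∧ X0 j = p ∧
      m ≤ X0 j1 - s * j1 ∧ m ≤ X0 j2 - s * j2)
  swap
  · refine le_trans (pS_mono ht hγ hw (φ' := fun _ => 0) ?_) ?_
    · intro X hX _
      rw [ind_neg (fun h => hex ⟨X, hX, h⟩), mul_zero]
    · rw [pS_zero]; exact mul_nonneg (pow_pos hθ N).le hψ0
  obtain ⟨X0, hX0, hj1, hj2, hj2N, hX0j, hX0a, hX0b⟩ := hex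
  have hp0 : (0 : ℝ) ≤ p := Nat.cast_nonneg p
  have hjj2 : j < j2 := by
    rcases lt_or_eq_of_le hj2 with h | h
    · exact h
    · exfalso
      subst h
      rw [hX0j] at hX0b
      linarith
  have hexi : ∃ i : ℕ, j1 ≤ i ∧ 1 ≤ m + s * i := ⟨j, hj1, by rw [hm]; linarith⟩
  obtain ⟨i, ⟨hi1, hi2⟩, hmin⟩ : ∃ i : ℕ, (j1 ≤ i ∧ 1 ≤ m + s * i) ∧
      ∀ i' : ℕ, i' < i → ¬ (j1 ≤ i' ∧ 1 ≤ m + s * i') :=
    ⟨Nat.find hexi, Nat.find_spec hexi, fun i' h => Nat.find_min hexi h⟩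
  have hij : i ≤ j := by
    by_contra h
    exact hmin j (not_le.1 h) ⟨hj1, by rw [hm]; linarith⟩
  have hi0 : 1 ≤ i := by
    by_contra h
    have h0 : i = 0 := by omega
    have h1 : j1 = 0 := by omega
    rw [h1, hX0.1] at hX0a
    rw [h0] at hi2
    simp only [Nat.cast_zero, mul_zero, sub_zero, add_zero] at hX0a hi2
    linarith
  have hij2 : i < j2 := lt_of_le_of_lt hij hjj2
  have hij2' : (i : ℝ) ≤ j2 := Nat.cast_le.2 hij2.le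
  have hmono : m + s * i ≤ m + s * j2 := by
    have := mul_le_mul_of_nonneg_left hij2' hs.le
    linarith
  obtain ⟨q1, hq1a, hq1b, hq1c, hq1d, hq1e⟩ : ∃ q1 : ℕ, 1 ≤ q1 ∧ q1 ≤ ⌈m + s * j2⌉₊ ∧
      m + s * i - s ≤ q1 ∧ (q1 : ℝ) ≤ m + s * i + 1 ∧
      ∀ X : ℕ → ℕ, IsPath N X → 1 ≤ X 1 → m ≤ X j1 - s * j1 → q1 ≤ X i := by
    rcases eq_or_lt_of_le hi1 with h | h
    · refine ⟨⌈m + s * i⌉₊, ?_, Nat.ceil_mono hmono, ?_, ?_, ?_⟩
      · exact Nat.one_le_ceil_iff.2 (by linarith)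
      · have := Nat.le_ceil (m + s * i)
        linarith
      · exact (Nat.ceil_lt_add_one (by linarith)).le
      · intro X _ _ hX
        rw [h] at hX
        exact Nat.ceil_le.2 (by linarith)
    · refine ⟨1, le_rfl, Nat.one_le_ceil_iff.2 (by linarith), ?_, ?_, ?_⟩
      · have h2 := hmin (i - 1) (by omega)
        have h3 : ((i - 1 : ℕ) : ℝ) = i - 1 := by
          rw [Nat.cast_sub hi0, Nat.cast_one]
        have h4 : m + s * ((i - 1 : ℕ) : ℝ) < 1 := by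
          by_contra h5
          exact h2 ⟨by omega, not_lt.1 h5⟩
        rw [h3] at h4
        rw [Nat.cast_one]
        linarith
      · rw [Nat.cast_one]; linarith
      · intro X hX hX1 _
        exact hX1.trans (hX.2.1 hi0)
  set q2 : ℕ := ⌈m + s * j2⌉₊ with hq2
  have hq2a : m + s * j2 ≤ q2 := Nat.le_ceil _
  have hq2b : (q2 : ℝ) ≤ m + s * j2 + 1 := (Nat.ceil_lt_add_one (by linarith)).le
  have hq2c : ∀ X : ℕ → ℕ, m ≤ X j2 - s * j2 → q2 ≤ X j2 := fun X hX =>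
    Nat.ceil_le.2 (by linarith)
  have hq2N : q2 ≤ N := (hq2c X0 hX0b).trans (hX0.le j2)
  have habs : |(q2 : ℝ) - q1 - s * ((j2 : ℝ) - i)| ≤ 1 + s := by
    rw [abs_le]
    constructor <;> linarith
  have hb := hbr i j j2 q1 q2 hi0 hij hj2 hij2 hj2N.le hq1b hq2N habs
  refine WalkB_fkg ht htγ hw hψ _ (j := j) (c := (p : ℝ)) hi0 hij2 hj2N hq1a hq1b hq2N ?_
    (fun X => (X j : ℝ) + δ / 2 * N ≤ q1 + s * ((j : ℝ) - i)) ?_ hb
  · rintro X hX hX1 ⟨_, _, _, hXj, hXa, hXb⟩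
    exact ⟨hq1e X hX hX1 hXa, hq2c X hXb, by rw [hXj]⟩
  · intro Y hY
    linarith

theorem walk_conv {t γ w z δ : ℝ} (ht : 0 < t) (htγ : t ≤ γ) (hw : 0 < w) (hz : 1 < z)
    (hδ : 0 < δ) :
    ∃ θ : ℝ, 0 < θ ∧ θ < 1 ∧ ∀ᶠ N : ℕ in atTop, ∀ ψ : ℕ → ℕ → ℝ, Psi ψ →
      pS N t γ w (fun X => psiW N ψ X * ind (∃ j1 j j2 : ℕ, j1 ≤ j ∧ j ≤ j2 ∧ j2 < N ∧
          (X j : ℝ) - lamW t γ z * j + δ * N ≤ X j1 - lamW t γ z * j1 ∧
          (X j : ℝ) - lamW t γ z * j + δ * N ≤ X j2 - lamW t γ z * j2)) ≤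
        θ ^ N * pS N t γ w (psiW N ψ) := by
  have hγ : 0 < γ := lt_of_lt_of_le ht htγ
  have hs : 0 < lamW t γ z := WalkB_lam_pos ht hγ hz
  set s : ℝ := lamW t γ z with hsdef
  obtain ⟨θ, hθ0, hθ1, hbr⟩ := free_bridge (w := w) ht hγ hw hz (half_pos hδ) (1 + s)
  refine ⟨(1 + θ) / 2, by linarith, by linarith, ?_⟩
  have hbig : ∀ᶠ N : ℕ in atTop, 1 + s ≤ δ / 2 * N :=
    (tendsto_natCast_atTop_atTop.const_mul_atTop (half_pos hδ)).eventually_ge_atTop (1 + s)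
  filter_upwards [hbr, hbig, poly_geom hθ0 (show θ < (1 + θ) / 2 by linarith) 1 4]
    with N hb hN hpoly
  intro ψ hψ
  have hψ0 : 0 ≤ pS N t γ w (psiW N ψ) := pS_nonneg ht hγ hw (psiW_nonneg hψ N)
  set T : Finset (ℕ × ℕ × ℕ × ℕ) :=
    range (N + 1) ×ˢ range (N + 1) ×ˢ range (N + 1) ×ˢ range (N + 1) with hT
  have hcard : (T.card : ℝ) = ((N : ℝ) + 1) ^ 4 := by
    rw [hT]
    simp only [card_product, card_range]
    push_cast
    ring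
  let E : ℕ × ℕ × ℕ × ℕ → (ℕ → ℕ) → Prop := fun u X =>
    u.1 ≤ u.2.1 ∧ u.2.1 ≤ u.2.2.1 ∧ u.2.2.1 < N ∧ X u.2.1 = u.2.2.2 ∧
      (u.2.2.2 : ℝ) - s * u.2.1 + δ * N ≤ X u.1 - s * u.1 ∧
      (u.2.2.2 : ℝ) - s * u.2.1 + δ * N ≤ X u.2.2.1 - s * u.2.2.1
  calc pS N t γ w (fun X => psiW N ψ X * ind (∃ j1 j j2 : ℕ, j1 ≤ j ∧ j ≤ j2 ∧ j2 < N ∧
          (X j : ℝ) - s * j + δ * N ≤ X j1 - s * j1 ∧
          (X j : ℝ) - s * j + δ * N ≤ X j2 - s * j2))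
      ≤ pS N t γ w (fun X => ∑ u ∈ T, psiW N ψ X * ind (E u X)) := by
        refine pS_mono ht hγ hw fun X hX _ => ?_
        rw [← mul_sum]
        refine mul_le_mul_of_nonneg_left ?_ (psiW_nonneg hψ N X)
        refine le_trans (ind_mono ?_) (ind_exists_le T fun u => E u X)
        rintro ⟨j1, j, j2, h1, h2, h3, h4, h5⟩
        refine ⟨(j1, j, j2, X j), ?_, h1, h2, h3, rfl, h4, h5⟩
        have := hX.le j
        simp only [hT, mem_product, mem_range]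
        omega
    _ = ∑ u ∈ T, pS N t γ w (fun X => psiW N ψ X * ind (E u X)) :=
        pS_sum T N t γ w fun u X => psiW N ψ X * ind (E u X)
    _ ≤ ∑ _u ∈ T, θ ^ N * pS N t γ w (psiW N ψ) :=
        sum_le_sum fun u _ => WalkB_one ht htγ hw hs hθ0 hN hb hψ u.1 u.2.1 u.2.2.1 u.2.2.2
    _ = (1 * ((N : ℝ) + 1) ^ 4 * θ ^ N) * pS N t γ w (psiW N ψ) := by
        rw [sum_const, nsmul_eq_mul, hcard]; ring
    _ ≤ ((1 + θ) / 2) ^ N * pS N t γ w (psiW N ψ) := mul_le_mul_of_nonneg_right hpoly hψ0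

end Pool.Agent.Work.MP_413ea6_mp
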