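import Pool.Agent.Work.MP_413ea6_mp.Prob
import Pool.Agent.Work.MP_413ea6_mp.Lam
import Pool.Agent.Work.MP_413ea6_mp.WalkA
import Pool.Agent.Work.MP_413ea6_mp.WalkB
import Pool.Agent.Work.MP_413ea6_mp.Dec
import Pool.Agent.Work.MP_413ea6_mp.Chern

open Filter Topology Finset

namespace Pool.Agent.Work.MP_413ea6_mp

/-! The three probabilistic estimates on the outer path. -/

/-- Rare events under the tilted measure. -/
def RareT (t γ w : ℝ) (A : ℕ → Ht → Prop) : Prop :=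
  Tendsto (fun N => mu N t γ w (fun h => ind (A N h)) / mu N t γ w (fun _ => 1)) atTop (𝓝 0)

theorem RareT.of_geom {t γ w θ : ℝ} (ht : 0 < t) (hγ : 0 < γ) (hw : 0 < w) (h0 : 0 < θ)
    (h1 : θ < 1) {A : ℕ → Ht → Prop} (h : ∀ᶠ N : ℕ in atTop,
      mu N t γ w (fun h => ind (A N h)) ≤ θ ^ N * mu N t γ w (fun _ => 1)) : RareT t γ w A := by
  refine squeeze_zero' (Eventually.of_forall fun N => div_nonneg
    (mu_nonneg ht hγ hw fun _ => ind_nonneg _) (mu_pos ht hγ hw N).le) ?_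
    (tendsto_pow_atTop_nhds_zero_of_lt_one h0.le h1)
  filter_upwards [h] with N hN
  exact (div_le_iff₀ (mu_pos ht hγ hw N)).2 hN

theorem RareT.mono {t γ w : ℝ} (ht : 0 < t) (hγ : 0 < γ) (hw : 0 < w) {A B : ℕ → Ht → Prop}
    (hB : RareT t γ w B) (h : ∀ᶠ N in atTop, ∀ g, Cls N 0 g → A N g → B N g) :
    RareT t γ w A := by
  refine squeeze_zero' (Eventually.of_forall fun N => div_nonneg
    (mu_nonneg ht hγ hw fun _ => ind_nonneg _) (mu_pos ht hγ hw N).le) ?_ hB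
  filter_upwards [h] with N hN
  exact div_le_div_of_nonneg_right (mu_mono ht hγ hw fun g H => ind_mono (hN g H))
    (mu_pos ht hγ hw N).le

theorem RareT.or {t γ w : ℝ} (ht : 0 < t) (hγ : 0 < γ) (hw : 0 < w) {A B : ℕ → Ht → Prop}
    (hA : RareT t γ w A) (hB : RareT t γ w B) : RareT t γ w (fun N g => A N g ∨ B N g) := by
  refine squeeze_zero (fun N => div_nonneg
    (mu_nonneg ht hγ hw fun _ => ind_nonneg _) (mu_pos ht hγ hw N).le) (fun N => ?_)
    (by simpa using Tendsto.add hA hB)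
  rw [← add_div, ← mu_add]
  exact div_le_div_of_nonneg_right (mu_mono ht hγ hw fun _ _ => ind_or_le _ _)
    (mu_pos ht hγ hw N).le

theorem mu_le_of_walk {t γ w θ : ℝ} (ht : 0 < t) (hγ : 1 ≤ γ) (hw : 0 < w) (hθ : 0 ≤ θ) {N : ℕ}
    (hN : 1 ≤ N) (B : Ht → Prop) (E : (ℕ → ℕ) → Prop)
    (h : ∀ g, Cls N 1 g → B g →
      pS N t γ w (fun X => psiW N (psi γ (cnt N g)) X * ind (E X)) ≤
        θ * pS N t γ w (psiW N (psi γ (cnt N g)))) :
    mu N t γ w (fun h => ind (B (low h) ∧ E (cnt N h))) ≤ θ * mu N t γ w (fun _ => 1) := by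
  have hγ0 : 0 < γ := one_pos.trans_le hγ
  rw [mu_dec ht hγ0 w hN (fun g X => ind (B g ∧ E X)), mu_dec ht hγ0 w hN (fun _ _ => 1),
    mul_sum]
  refine sum_le_sum fun g hg => ?_
  rw [mul_left_comm]
  refine mul_le_mul_of_nonneg_left ?_ (Wt_pos ht hγ0 N g).le
  simp only [mul_one]
  by_cases hB : B g
  · simp only [ind_and, ind_pos hB, one_mul]
    exact h g (mem_hts.1 hg) hB
  · simp only [ind_and, ind_neg hB, zero_mul, mul_zero, pS_zero]
    exact mul_nonneg hθ (pS_nonneg ht hγ0 hw fun X => psiW_nonneg (psi_Psi hγ _) N X)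

/-- If the second path stays below a line, so does the outer path. -/
theorem line_up {t γ w η : ℝ} (ht : 0 < t) (htγ : t ≤ γ) (hγ : 1 ≤ γ) (hw : 1 < w)
    (hη : 0 < η) (m : ℕ → ℝ) :
    RareT t γ w (fun N h => (∀ j ≤ N, (cnt N (low h) j : ℝ) ≤ m N + lamW t γ w * j) ∧
      ∃ j ≤ N, m N + η * N ≤ (cnt N h j : ℝ) - lamW t γ w * j) := by
  have hγ0 : 0 < γ := one_pos.trans_le hγ
  have hl := lamW_pos ht hγ0 hw
  obtain ⟨θ, h0, h1, H⟩ := walk_up ht htγ hw hη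
  refine RareT.of_geom ht hγ0 (one_pos.trans hw) h0 h1 ?_
  filter_upwards [H, eventually_ge_atTop 1] with N hN hN1
  refine mu_le_of_walk ht hγ (one_pos.trans hw) (pow_pos h0 N).le hN1
    (fun g => ∀ j ≤ N, (cnt N g j : ℝ) ≤ m N + lamW t γ w * j)
    (fun X => ∃ j ≤ N, m N + η * N ≤ (X j : ℝ) - lamW t γ w * j) fun g hg hB => ?_
  have hall : ∀ j, (cnt N g j : ℝ) ≤ m N + lamW t γ w * j := by
    intro j
    rcases le_total j N with hj | hj
    · exact hB j hj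
    · have h2 := hB N le_rfl
      rw [cnt_top hg le_rfl] at h2
      rw [cnt_top hg hj]
      have : (N : ℝ) ≤ j := by exact_mod_cast hj
      nlinarith
  refine hN (m N) _ (psi_Psi hγ _) ?_ ?_ fun j u hu => ?_
  · have := hB 0 (Nat.zero_le N)
    rw [cnt_zero hg] at this
    simpa using this
  · have h2 := hB N le_rfl
    rw [cnt_top hg le_rfl, Nat.cast_sub hN1] at h2
    push_cast at h2
    linarith
  · have h2 := hall (j + 1)
    push_cast at h2
    have h3 : cnt N g (j + 1) < u := by exact_mod_cast h2.trans_lt hu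
    have h4 : cnt N g j < u := (cnt_monotone hg (Nat.le_succ j)).trans_lt h3
    simp [psi, h3, h4]

/-- If the second path reaches beyond a line, the tilted outer path starts beyond it. -/
theorem line_start {t γ w η : ℝ} (ht : 0 < t) (htγ : t ≤ γ) (hγ : 1 ≤ γ) (hw : 1 < w)
    (hη : 0 < η) (m : ℕ → ℝ) :
    RareT t γ w (fun N h => (∃ j, 1 ≤ j ∧ j ≤ N ∧
      m N + lamW t γ w * j ≤ (cnt N (low h) j : ℝ)) ∧ (cnt N h 1 : ℝ) + η * N ≤ m N) := by
  have hγ0 : 0 < γ := one_pos.trans_le hγ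
  obtain ⟨θ, h0, h1, H⟩ := walk_start ht htγ hw hη
  refine RareT.of_geom ht hγ0 (one_pos.trans hw) h0 h1 ?_
  filter_upwards [H, eventually_ge_atTop 1] with N hN hN1
  refine mu_le_of_walk ht hγ (one_pos.trans hw) (pow_pos h0 N).le hN1
    (fun g => ∃ j, 1 ≤ j ∧ j ≤ N ∧ m N + lamW t γ w * j ≤ (cnt N g j : ℝ))
    (fun X => (X 1 : ℝ) + η * N ≤ m N) fun g hg ⟨j, hj1, hjN, hB⟩ => ?_
  refine hN (m N) _ j (psi_Psi hγ _) hj1 hjN fun u hu => ?_
  have h3 : ¬ cnt N g j < u := by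
    rw [not_lt]
    exact_mod_cast (hu.trans_le hB).le
  simp [psi, h3]

theorem exists_near {t γ z η : ℝ} (ht : 0 < t) (hγ : 0 < γ) (hz : 1 < z) (hη : 0 < η) :
    (∃ w, 1 < w ∧ w < z ∧ lamW t γ w ≤ lamW t γ z + η) ∧
      ∃ w, z < w ∧ lamW t γ z ≤ lamW t γ w + η := by
  have hl := lamW_pos ht hγ hz
  constructor
  · obtain ⟨w, hw, e⟩ := lamW_surj ht hγ (add_pos hl hη)
    refine ⟨w, hw, ?_, e.le⟩
    by_contra hc
    have := (lamW_anti ht hγ).antitoneOn hz hw (not_lt.1 hc)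
    linarith
  · have h2 : 0 < max (lamW t γ z - η) (lamW t γ z / 2) :=
      lt_max_of_lt_right (half_pos hl)
    obtain ⟨w, hw, e⟩ := lamW_surj ht hγ h2
    have h3 : lamW t γ w < lamW t γ z := by
      rw [e]; exact max_lt (by linarith) (by linarith)
    refine ⟨w, ?_, ?_⟩
    · by_contra hc
      have := (lamW_anti ht hγ).antitoneOn hw hz (not_lt.1 hc)
      linarith
    · have := le_max_left (lamW t γ z - η) (lamW t γ z / 2)
      linarith

theorem eventually_le_mul {η : ℝ} (hη : 0 < η) (C : ℝ) : ∀ᶠ N : ℕ in atTop, C ≤ η * N :=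
  (tendsto_natCast_atTop_atTop.const_mul_atTop hη).eventually_ge_atTop C

theorem main_U {t γ z δ : ℝ} (ht : 0 < t) (htγ : t ≤ γ) (hγ : 1 ≤ γ) (hz : 1 < z) (hδ : 0 < δ) :
    Rare t γ (fun N X => ∃ j ≤ N, N * rM N t γ z + δ * N ≤ (X j : ℝ) - lamW t γ z * j) := by
  have hγ0 : 0 < γ := one_pos.trans_le hγ
  have hη : 0 < δ / 5 := by linarith
  obtain ⟨w, hw, hwz, hl⟩ := (exists_near ht hγ0 hz hη).1
  have hw0 : 0 < w := one_pos.trans hw
  have hlw := lamW_pos ht hγ0 hw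
  obtain ⟨θ, h0, h1, H⟩ := chern_up ht hγ0 hw0 hwz hη
  have R1 : RareT t γ w (fun N h => N * rM N t γ z + δ / 5 * N ≤ (cnt N h 1 : ℝ) - 1) :=
    RareT.of_geom ht hγ0 hw0 h0 h1 (Eventually.of_forall H)
  have R2 := line_start ht htγ hγ hw hη (fun N => N * rM N t γ z + 3 * (δ / 5) * N)
  have R3 := line_up ht htγ hγ hw hη (fun N => N * rM N t γ z + 3 * (δ / 5) * N)
  have R : RareT t γ w (fun N h => ∃ j ≤ N,
      N * rM N t γ z + δ * N ≤ (cnt N h j : ℝ) - lamW t γ z * j) := by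
    refine ((R1.or ht hγ0 hw0 R2).or ht hγ0 hw0 R3).mono ht hγ0 hw0 ?_
    filter_upwards [eventually_le_mul hη 1] with N hN g hg ⟨j, hj, hU⟩
    have hN0 : (0 : ℝ) ≤ N := Nat.cast_nonneg N
    by_cases hB : ∃ j, 1 ≤ j ∧ j ≤ N ∧ N * rM N t γ z + 3 * (δ / 5) * N + lamW t γ w * j ≤
        (cnt N (low g) j : ℝ)
    · by_cases hX : (cnt N g 1 : ℝ) + δ / 5 * N ≤ N * rM N t γ z + 3 * (δ / 5) * N
      · exact Or.inl (Or.inr ⟨hB, hX⟩)
      · exact Or.inl (Or.inl (by linarith [not_le.1 hX]))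
    · refine Or.inr ⟨fun i hi => ?_, j, hj, ?_⟩
      · rcases Nat.eq_zero_or_pos i with rfl | hi0
        · rw [cnt_zero (low_cls hg)]
          have := mul_nonneg hN0 (rM_nonneg ht hγ0 (one_pos.trans hz) N)
          push_cast
          linarith
        · by_contra hc
          exact hB ⟨i, hi0, hi, (not_le.1 hc).le⟩
      · have hj' : (j : ℝ) ≤ N := by exact_mod_cast hj
        have h2 := mul_le_mul_of_nonneg_right hl (Nat.cast_nonneg (α := ℝ) j)
        have h3 := mul_le_mul_of_nonneg_left hj' hη.le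
        linarith
  refine squeeze_zero (fun N => PP_nonneg ht hγ0 N _) (fun N => ?_) R
  have := fkgA ht htγ hγ hw.le N (fun h => ∃ j ≤ N,
      N * rM N t γ z + δ * N ≤ (cnt N h j : ℝ) - lamW t γ z * j)
    (fun h h' hh ⟨j, hj, hU⟩ => ⟨j, hj, hU.trans (by
      have : (cnt N h j : ℝ) ≤ cnt N h' j := by exact_mod_cast cnt_mono N hh j
      linarith)⟩)
  unfold PP
  rw [div_le_div_iff₀ (mu_pos ht hγ0 one_pos N) (mu_pos ht hγ0 hw0 N)]
  linarith

theorem main_L {t γ z δ : ℝ} (ht : 0 < t) (htγ : t ≤ γ) (hγ : 1 ≤ γ) (hz : 1 < z) (hδ : 0 < δ) :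
    Rare t γ (fun N X => ∀ j ≤ N, (X j : ℝ) - lamW t γ z * j + δ * N ≤ N * rM N t γ z) := by
  have hγ0 : 0 < γ := one_pos.trans_le hγ
  have hη : 0 < δ / 4 := by linarith
  obtain ⟨w, hzw, hl⟩ := (exists_near ht hγ0 hz hη).2
  have hw : 1 < w := hz.trans hzw
  have hw0 : 0 < w := one_pos.trans hw
  obtain ⟨θ, h0, h1, H⟩ := chern_down ht hγ0 (one_pos.trans hz) hzw hη
  have R1 : RareT t γ w (fun N h => (cnt N h 1 : ℝ) + δ / 4 * N ≤ N * rM N t γ z) :=
    RareT.of_geom ht hγ0 hw0 h0 h1 (Eventually.of_forall H)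
  have R3 := line_up ht htγ hγ hw hη (fun N => N * rM N t γ z - 3 * (δ / 4) * N)
  have R : RareT t γ w (fun N h => ∀ j ≤ N,
      (cnt N (low h) j : ℝ) - lamW t γ z * j + δ * N ≤ N * rM N t γ z) := by
    refine (R1.or ht hγ0 hw0 R3).mono ht hγ0 hw0 ?_
    filter_upwards [eventually_le_mul hη (lamW t γ w), eventually_ge_atTop 1] with N hN hN1 g hg hD
    by_cases hX : (cnt N g 1 : ℝ) + δ / 4 * N ≤ N * rM N t γ z
    · exact Or.inl hX
    · refine Or.inr ⟨fun j hj => ?_, 1, hN1, ?_⟩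
      · have hj' : (j : ℝ) ≤ N := by exact_mod_cast hj
        have h2 := mul_le_mul_of_nonneg_right hl (Nat.cast_nonneg (α := ℝ) j)
        have h3 := mul_le_mul_of_nonneg_left hj' hη.le
        have h4 := hD j hj
        linarith
      · push_cast
        linarith [not_le.1 hX]
  refine squeeze_zero' (Eventually.of_forall fun N => PP_nonneg ht hγ0 N _) ?_ R
  filter_upwards [eventually_ge_atTop 1] with N hN1
  have := fkgB ht htγ hγ hw0 hN1 (fun h => ¬ ∀ j ≤ N,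
      (cnt N h j : ℝ) - lamW t γ z * j + δ * N ≤ N * rM N t γ z)
    (fun h h' hh hn hc => hn fun j hj => (hc j hj).trans' (by
      have : (cnt N h j : ℝ) ≤ cnt N h' j := by exact_mod_cast cnt_mono N hh j
      linarith))
  simp only [ind_not, mu_sub] at this
  unfold PP
  rw [div_le_div_iff₀ (mu_pos ht hγ0 one_pos N) (mu_pos ht hγ0 hw0 N)]
  nlinarith

theorem main_C {t γ z δ : ℝ} (ht : 0 < t) (htγ : t ≤ γ) (hγ : 1 ≤ γ) (hz : 1 < z) (hδ : 0 < δ) :
    Rare t γ (fun N X => ∃ j1 j j2 : ℕ, j1 ≤ j ∧ j ≤ j2 ∧ j2 ≤ N ∧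
      (X j : ℝ) - lamW t γ z * j + δ * N ≤ X j1 - lamW t γ z * j1 ∧
      (X j : ℝ) - lamW t γ z * j + δ * N ≤ X j2 - lamW t γ z * j2) := by
  have hγ0 : 0 < γ := one_pos.trans_le hγ
  have hη : 0 < δ / 2 := half_pos hδ
  have hl := lamW_pos ht hγ0 hz
  obtain ⟨θ, h0, h1, H⟩ := walk_conv ht htγ one_pos hz hη
  have R : Rare t γ (fun N X => ∃ j1 j j2 : ℕ, j1 ≤ j ∧ j ≤ j2 ∧ j2 < N ∧
      (X j : ℝ) - lamW t γ z * j + δ / 2 * N ≤ X j1 - lamW t γ z * j1 ∧
      (X j : ℝ) - lamW t γ z * j + δ / 2 * N ≤ X j2 - lamW t γ z * j2) := by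
    refine RareT.of_geom (w := 1) ht hγ0 one_pos h0 h1 ?_
    filter_upwards [H, eventually_ge_atTop 1] with N hN hN1
    have := mu_le_of_walk ht hγ one_pos (pow_pos h0 N).le hN1 (fun _ => True) _
      fun g _ _ => hN _ (psi_Psi hγ (cnt N g))
    simpa only [true_and] using this
  refine R.mono ht hγ0 ?_
  filter_upwards [eventually_le_mul hη 1] with N hN X hX hd ⟨j1, j, j2, h1, h2, h3, h4, h5⟩
  rcases h3.lt_or_eq with h3 | rfl
  · exact ⟨j1, j, j2, h1, h2, h3, by linarith, by linarith⟩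
  · have h6 : j < j2 := by
      rcases h2.lt_or_eq with h2 | rfl
      · exact h2
      · linarith
    refine ⟨j1, j, j2 - 1, h1, by omega, by omega, by linarith, ?_⟩
    have h7 : ((j2 - 1 : ℕ) : ℝ) ≤ X (j2 - 1) := by exact_mod_cast hd _ (Nat.sub_le _ _)
    have h8 : ((j2 - 1 : ℕ) : ℝ) = j2 - 1 := by
      rw [Nat.cast_sub (by omega)]; simp
    rw [hX.2.2 j2 le_rfl] at h5
    rw [h8] at h7 ⊢
    nlinarith

end Pool.Agent.Work.MP_413ea6_mp
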