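import Pool.Agent.Work.MP_413ea6_mp.Base

open Filter Topology Finset

namespace Pool.Agent.Work.MP_413ea6_mp

/-! Path space: four functions inequality and the Markov property of the free weights. -/

theorem Path_k0_minmax (t γ w : ℝ) (u u' : ℕ) :
    k0 t γ w u * k0 t γ w u' = k0 t γ w (min u u') * k0 t γ w (max u u') := by
  rcases le_total u u' with h | h
  · rw [min_eq_left h, max_eq_right h]
  · rw [min_eq_right h, max_eq_left h, mul_comm]

theorem Path_kk_key {t γ : ℝ} (ht : 0 < t) (htγ : t ≤ γ) {a b c d : ℕ} (hs : a + b = c + d)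
    (hbc : b ≤ c) (hbd : b ≤ d) :
    kk t γ a * kk t γ b ≤ kk t γ c * kk t γ d := by
  have hγ : 0 < γ := ht.trans_le htγ
  by_cases hc : c = b
  · have : d = a := by omega
    rw [hc, this, mul_comm]
  by_cases hd : d = b
  · have : c = a := by omega
    rw [hd, this]
  obtain ⟨c', rfl⟩ : ∃ c', c = c' + 1 := ⟨c - 1, by omega⟩
  obtain ⟨d', rfl⟩ : ∃ d', d = d' + 1 := ⟨d - 1, by omega⟩
  rcases Nat.eq_zero_or_pos b with hb | hb
  · subst hb
    have ha : a = c' + d' + 2 := by omega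
    subst ha
    simp only [kk, if_true, Nat.add_eq_zero_iff, one_ne_zero, and_false, if_false,
      Nat.add_sub_cancel, OfNat.ofNat_ne_zero]
    have h1 : c' + d' + 2 - 1 = c' + d' + 1 := by omega
    rw [h1]
    have h2 : t ^ 2 ≤ γ ^ 2 := pow_le_pow_left₀ ht.le htγ 2
    have h3 : 0 < γ ^ 2 * t ^ (c' + d') := by positivity
    calc γ ^ 2 * t ^ (c' + d' + 1) * t = (γ ^ 2 * t ^ (c' + d')) * t ^ 2 := by ring
      _ ≤ (γ ^ 2 * t ^ (c' + d')) * γ ^ 2 := mul_le_mul_of_nonneg_left h2 h3.le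
      _ = γ ^ 2 * t ^ c' * (γ ^ 2 * t ^ d') := by ring
  · obtain ⟨b', rfl⟩ : ∃ b', b = b' + 1 := ⟨b - 1, by omega⟩
    obtain ⟨a', rfl⟩ : ∃ a', a = a' + 1 := ⟨a - 1, by omega⟩
    simp only [kk, Nat.add_eq_zero_iff, one_ne_zero, and_false, if_false, Nat.add_sub_cancel]
    have h1 : a' + b' = c' + d' := by omega
    apply le_of_eq
    calc γ ^ 2 * t ^ a' * (γ ^ 2 * t ^ b') = γ ^ 4 * t ^ (a' + b') := by ring
      _ = γ ^ 4 * t ^ (c' + d') := by rw [h1]
      _ = γ ^ 2 * t ^ c' * (γ ^ 2 * t ^ d') := by ring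

theorem Path_kk_minmax {t γ : ℝ} (ht : 0 < t) (htγ : t ≤ γ) {p p' u u' : ℕ} (h : p ≤ u)
    (h' : p' ≤ u') :
    kk t γ (u - p) * kk t γ (u' - p') ≤
      kk t γ (min u u' - min p p') * kk t γ (max u u' - max p p') := by
  rcases le_total p p' with hp | hp <;> rcases le_total u u' with hu | hu
  · rw [min_eq_left hp, min_eq_left hu, max_eq_right hp, max_eq_right hu]
  · rw [min_eq_left hp, min_eq_right hu, max_eq_right hp, max_eq_left hu]
    exact Path_kk_key ht htγ (by omega) (by omega) (by omega)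
  · rw [min_eq_right hp, min_eq_left hu, max_eq_left hp, max_eq_right hu, mul_comm]
    exact Path_kk_key ht htγ (by omega) (by omega) (by omega)
  · rw [min_eq_right hp, min_eq_right hu, max_eq_left hp, max_eq_left hu, mul_comm]

theorem Path_pw_minmax {t γ w : ℝ} (ht : 0 < t) (htγ : t ≤ γ) (hw : 0 < w) {N : ℕ}
    {X X' : ℕ → ℕ} (hX : IsPath N X) (hX' : IsPath N X') :
    pw N t γ w X * pw N t γ w X' ≤ pw N t γ w (X ⊓ X') * pw N t γ w (X ⊔ X') := by
  have hγ : 0 < γ := ht.trans_le htγ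
  unfold pw
  rw [mul_mul_mul_comm, mul_mul_mul_comm (k0 t γ w ((X ⊓ X') 1)), ← prod_mul_distrib,
    ← prod_mul_distrib, Path_k0_minmax]
  refine mul_le_mul_of_nonneg_left ?_
    (mul_nonneg (k0_nonneg ht hγ hw _) (k0_nonneg ht hγ hw _))
  refine prod_le_prod (fun j _ => mul_nonneg (kk_pos ht hγ _).le (kk_pos ht hγ _).le)
    fun j _ => ?_
  exact Path_kk_minmax ht htγ (hX.2.1 (Nat.le_succ j)) (hX'.2.1 (Nat.le_succ j))

theorem Path_inf {N : ℕ} {X X' : ℕ → ℕ} (hX : IsPath N X) (hX' : IsPath N X') :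
    IsPath N (X ⊓ X') := by
  refine ⟨?_, hX.2.1.inf hX'.2.1, fun j hj => ?_⟩
  · simp [hX.1, hX'.1]
  · simp [hX.2.2 j hj, hX'.2.2 j hj]

theorem Path_sup {N : ℕ} {X X' : ℕ → ℕ} (hX : IsPath N X) (hX' : IsPath N X') :
    IsPath N (X ⊔ X') := by
  refine ⟨?_, hX.2.1.sup hX'.2.1, fun j hj => ?_⟩
  · simp [hX.1, hX'.1]
  · simp [hX.2.2 j hj, hX'.2.2 j hj]

/-- Monotone paths from `0` that sit at `u` from level `n` on. -/
def Path_To (n u : ℕ) (X : ℕ → ℕ) : Prop := X 0 = 0 ∧ Monotone X ∧ ∀ j, n ≤ j → X j = u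

theorem Path_To.le {n u : ℕ} {X : ℕ → ℕ} (H : Path_To n u X) (j : ℕ) : X j ≤ u := by
  rw [← H.2.2 (max j n) (le_max_right _ _)]
  exact H.2.1 (le_max_left _ _)

theorem Path_finite (n u : ℕ) : {X : ℕ → ℕ | Path_To n u X}.Finite := by
  classical
  refine (Set.finite_range (fun (f : Fin n → Fin (u + 1)) => (fun j =>
    if H : j < n then (f ⟨j, H⟩ : ℕ) else u : ℕ → ℕ))).subset ?_
  intro X H
  have H' : Path_To n u X := H
  refine ⟨fun j => ⟨X j, by have := H'.le j; omega⟩, ?_⟩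
  funext j
  dsimp only
  split_ifs with h1
  · rfl
  · exact (H'.2.2 j (by omega)).symm

noncomputable def Path_pto (n u : ℕ) : Finset (ℕ → ℕ) := (Path_finite n u).toFinset

theorem Path_mem {n u : ℕ} {X : ℕ → ℕ} : X ∈ Path_pto n u ↔ Path_To n u X := by
  simp [Path_pto]

/-- Transition weight from `p` at level `a` to `u` at level `a + m`. -/
noncomputable def Path_tr (K : ℕ → ℕ → ℕ → ℝ) (a p : ℕ) : ℕ → ℕ → ℝ
  | 0, u => if u = p then 1 else 0
  | m + 1, u => ∑ x ∈ range (u + 1), Path_tr K a p m x * K (a + m) x u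

theorem Path_markov (K : ℕ → ℕ → ℕ → ℝ) (n : ℕ) : ∀ u,
    ∑ X ∈ Path_pto n u, ∏ j ∈ range n, K j (X j) (X (j + 1)) = Path_tr K 0 0 n u := by
  classical
  induction n with
  | zero =>
    intro u
    simp only [range_zero, prod_empty, sum_const, nsmul_eq_mul, mul_one, Path_tr]
    split_ifs with h
    · subst h
      have : Path_pto 0 0 = {fun _ => 0} := by
        ext X
        simp only [Path_mem, mem_singleton]
        constructor
        · intro H; funext j; exact H.2.2 j (Nat.zero_le _)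
        · rintro rfl; exact ⟨rfl, monotone_const, fun _ _ => rfl⟩
      simp [this]
    · have : Path_pto 0 u = ∅ := by
        ext X
        simp only [Path_mem, notMem_empty, iff_false]
        intro H
        exact h ((H.2.2 0 le_rfl).symm.trans H.1)
      simp [this]
  | succ n ih =>
    intro u
    rw [← sum_fiberwise_of_maps_to (s := Path_pto (n + 1) u) (t := range (u + 1))
      (g := fun X => X n) (fun X hX => mem_range.2 (Nat.lt_succ_of_le ((Path_mem.1 hX).le n)))]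
    simp only [Path_tr, zero_add]
    refine sum_congr rfl fun p hp => ?_
    have hpu : p ≤ u := Nat.lt_succ_iff.1 (mem_range.1 hp)
    rw [← ih p, sum_mul]
    refine sum_nbij' (fun X j => X (min j n)) (fun Y j => if j ≤ n then Y j else u)
      ?_ ?_ ?_ ?_ ?_
    · intro X hX
      simp only [mem_filter, Path_mem] at hX ⊢
      obtain ⟨H, hn⟩ := hX
      refine ⟨by simpa using H.1, fun a b hab => H.2.1 (min_le_min_right _ hab), fun j hj => ?_⟩
      simp only [min_eq_right hj, hn]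
    · intro Y hY
      simp only [mem_filter, Path_mem] at hY ⊢
      refine ⟨⟨by simpa using hY.1, fun a b hab => ?_, fun j hj => ?_⟩, ?_⟩
      · dsimp only
        split_ifs with h1 h2 h2
        · exact hY.2.1 hab
        · exact (hY.le a).trans hpu
        · omega
        · exact le_rfl
      · dsimp only
        rw [if_neg (by omega)]
      · simp only [le_refl, if_true]
        exact hY.2.2 n le_rfl
    · intro X hX
      simp only [mem_filter, Path_mem] at hX
      funext j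
      dsimp only
      split_ifs with h1
      · rw [min_eq_left h1]
      · exact (hX.1.2.2 j (by omega)).symm
    · intro Y hY
      simp only [Path_mem] at hY
      funext j
      dsimp only
      rw [if_pos (min_le_right _ _)]
      rcases le_total j n with h | h
      · rw [min_eq_left h]
      · rw [min_eq_right h, hY.2.2 n le_rfl, hY.2.2 j h]
    · intro X hX
      simp only [mem_filter, Path_mem] at hX
      rw [prod_range_succ, hX.2, hX.1.2.2 (n + 1) le_rfl]
      congr 1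
      refine prod_congr rfl fun j hj => ?_
      have hj' : j < n := mem_range.1 hj
      simp only [min_eq_left hj'.le, min_eq_left (Nat.succ_le_of_lt hj')]

theorem Path_tr_congr {K K' : ℕ → ℕ → ℕ → ℝ} (a p m : ℕ)
    (h : ∀ l, a ≤ l → l < a + m → K l = K' l) : Path_tr K a p m = Path_tr K' a p m := by
  induction m with
  | zero => funext u; simp [Path_tr]
  | succ m ih =>
    funext u
    simp only [Path_tr]
    rw [ih fun l h1 h2 => h l h1 (by omega), h (a + m) (by omega) (by omega)]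

theorem Path_ck (K : ℕ → ℕ → ℕ → ℝ) (a B m : ℕ) : ∀ u, u ≤ B →
    Path_tr K 0 0 (a + m) u = ∑ x ∈ range (B + 1), Path_tr K 0 0 a x * Path_tr K a x m u := by
  induction m with
  | zero =>
    intro u hu
    simp only [add_zero, Path_tr, mul_ite, mul_one, mul_zero]
    rw [sum_ite_eq, if_pos (mem_range.2 (Nat.lt_succ_of_le hu))]
  | succ m ih =>
    intro u hu
    rw [← add_assoc]
    simp only [Path_tr, zero_add, mul_sum]
    rw [sum_comm]
    refine sum_congr rfl fun y hy => ?_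
    rw [ih y ((Nat.lt_succ_iff.1 (mem_range.1 hy)).trans hu), sum_mul]
    exact sum_congr rfl fun x _ => by ring

/-- The kernel with the path pinned at `p` at level `i`. -/
noncomputable def Path_pin (K : ℕ → ℕ → ℕ → ℝ) (i p : ℕ) : ℕ → ℕ → ℕ → ℝ :=
  fun l x u => K l x u * (if l + 1 = i then ind (u = p) else 1)

theorem Path_pin_ne (K : ℕ → ℕ → ℕ → ℝ) {i : ℕ} (p : ℕ) {l : ℕ} (h : l + 1 ≠ i) :
    Path_pin K i p l = K l := by
  funext x u
  simp [Path_pin, h]

theorem Path_tr_pin (K : ℕ → ℕ → ℕ → ℝ) {i : ℕ} (hi : 1 ≤ i) (p m : ℕ) : ∀ u,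
    Path_tr (Path_pin K i p) 0 0 (i + m) u = Path_tr K 0 0 i p * Path_tr K i p m u := by
  induction m with
  | zero =>
    intro u
    obtain ⟨n, rfl⟩ : ∃ n, i = n + 1 := ⟨i - 1, by omega⟩
    simp only [Path_tr, zero_add]
    rw [Path_tr_congr (K := Path_pin K (n + 1) p) (K' := K) 0 0 n
      fun l _ h2 => Path_pin_ne K p (by omega)]
    simp only [Path_pin, if_true]
    split_ifs with h
    · subst h
      simp [ind_pos]
    · simp [ind_neg h]
  | succ m ih =>
    intro u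
    rw [← add_assoc]
    simp only [Path_tr, zero_add, mul_sum]
    rw [Path_pin_ne K p (by omega)]
    exact sum_congr rfl fun x _ => by rw [ih x]; ring

/-- The free kernel. -/
noncomputable def Path_K0 (t γ w : ℝ) : ℕ → ℕ → ℕ → ℝ :=
  fun l x u => if l = 0 then k0 t γ w u else kk t γ (u - x)

theorem Path_tr_free (t γ w : ℝ) {a : ℕ} (ha : 1 ≤ a) (p m : ℕ) : ∀ u,
    Path_tr (Path_K0 t γ w) a p m u = if p ≤ u then Wn t γ m (u - p) else 0 := by
  induction m with
  | zero =>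
    intro u
    simp only [Path_tr, Wn]
    split_ifs <;> first | rfl | omega
  | succ m ih =>
    intro u
    have h0 : a + m ≠ 0 := by omega
    simp only [Path_tr, Path_K0, ih, if_neg h0]
    split_ifs with h
    · obtain ⟨d, rfl⟩ := Nat.exists_eq_add_of_le h
      rw [add_assoc, sum_range_add, sum_eq_zero, zero_add, Nat.add_sub_cancel_left]
      · simp only [Wn]
        refine sum_congr rfl fun e _ => ?_
        rw [if_pos (Nat.le_add_right _ _), Nat.add_sub_cancel_left, Nat.add_sub_add_left]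
      · intro x hx
        rw [if_neg (by have := mem_range.1 hx; omega), zero_mul]
    · refine sum_eq_zero fun x hx => ?_
      rw [if_neg (by have := mem_range.1 hx; omega), zero_mul]

theorem Path_tr_one (t γ w : ℝ) (u : ℕ) : Path_tr (Path_K0 t γ w) 0 0 1 u = k0 t γ w u := by
  simp [Path_tr, Path_K0]

theorem Path_tr_V (t γ w : ℝ) {i : ℕ} (hi : 1 ≤ i) (p : ℕ) :
    Path_tr (Path_K0 t γ w) 0 0 i p = Vn t γ w i p := by
  obtain ⟨m, rfl⟩ := Nat.exists_eq_add_of_le hi
  rw [Path_ck _ 1 p m p le_rfl, Vn, Nat.add_sub_cancel_left]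
  refine sum_congr rfl fun x hx => ?_
  rw [Path_tr_one, Path_tr_free t γ w le_rfl, if_pos (Nat.lt_succ_iff.1 (mem_range.1 hx))]

theorem Path_prod_pin (K : ℕ → ℕ → ℕ → ℝ) {N i : ℕ} (h1 : 1 ≤ i) (hi : i ≤ N) (p : ℕ)
    (X : ℕ → ℕ) :
    ∏ l ∈ range N, Path_pin K i p l (X l) (X (l + 1)) =
      (∏ l ∈ range N, K l (X l) (X (l + 1))) * ind (X i = p) := by
  obtain ⟨n, rfl⟩ : ∃ n, i = n + 1 := ⟨i - 1, by omega⟩
  simp only [Path_pin, prod_mul_distrib, Nat.add_right_cancel_iff]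
  congr 1
  rw [prod_ite_eq' (range N) n (fun l => ind (X (l + 1) = p)), if_pos (mem_range.2 (by omega))]

theorem Path_prod_K0 (t γ w : ℝ) {N : ℕ} (hN : 1 ≤ N) (X : ℕ → ℕ) :
    ∏ l ∈ range N, Path_K0 t γ w l (X l) (X (l + 1)) = pw N t γ w X := by
  rw [pw, range_eq_Ico, prod_eq_prod_Ico_succ_bot (by omega : 0 < N)]
  congr 1
  refine prod_congr rfl fun l hl => ?_
  have : l ≠ 0 := by have := (mem_Ico.1 hl).1; omega
  simp [Path_K0, this]

theorem pS_fkg {t γ w : ℝ} (ht : 0 < t) (htγ : t ≤ γ) (hw : 0 < w) {N : ℕ}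
    (φ1 φ2 φ3 φ4 : (ℕ → ℕ) → ℝ) (h1 : ∀ X, 0 ≤ φ1 X) (h2 : ∀ X, 0 ≤ φ2 X)
    (h3 : ∀ X, 0 ≤ φ3 X) (h4 : ∀ X, 0 ≤ φ4 X)
    (h : ∀ X X', IsPath N X → IsPath N X' → 1 ≤ X 1 → 1 ≤ X' 1 →
      φ1 X * φ2 X' ≤ φ3 (X ⊓ X') * φ4 (X ⊔ X')) :
    pS N t γ w φ1 * pS N t γ w φ2 ≤ pS N t γ w φ3 * pS N t γ w φ4 := by
  classical
  have hγ : 0 < γ := ht.trans_le htγ
  let F : ((ℕ → ℕ) → ℝ) → (ℕ → ℕ) → ℝ := fun φ X =>
    if IsPath N X then pw N t γ w X * φ X else 0
  have hF : ∀ φ : (ℕ → ℕ) → ℝ, (∀ X, 0 ≤ φ X) → 0 ≤ F φ := by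
    intro φ hφ X
    simp only [F, Pi.zero_apply]
    split_ifs
    · exact mul_nonneg (pw_nonneg ht hγ hw N X) (hφ X)
    · exact le_rfl
  have hS : ∀ φ : (ℕ → ℕ) → ℝ, ∑ X ∈ paths N, F φ X = pS N t γ w φ := by
    intro φ
    refine sum_congr rfl fun X hX => ?_
    simp only [F, if_pos (mem_paths.1 hX)]
  have key := four_functions_theorem (F φ1) (F φ2) (F φ3) (F φ4) (hF _ h1) (hF _ h2) (hF _ h3)
    (hF _ h4) ?_ (paths N) (paths N)
  · rw [hS, hS] at key
    refine key.trans ?_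
    rw [← hS, ← hS]
    refine mul_le_mul ?_ ?_ (sum_nonneg fun X _ => hF _ h4 X) (sum_nonneg fun X _ => hF _ h3 X)
    · refine sum_le_sum_of_subset_of_nonneg ?_ fun X _ _ => hF _ h3 X
      intro X hX
      obtain ⟨a, ha, b, hb, rfl⟩ := mem_infs.1 hX
      exact mem_paths.2 (Path_inf (mem_paths.1 ha) (mem_paths.1 hb))
    · refine sum_le_sum_of_subset_of_nonneg ?_ fun X _ _ => hF _ h4 X
      intro X hX
      obtain ⟨a, ha, b, hb, rfl⟩ := mem_sups.1 hX
      exact mem_paths.2 (Path_sup (mem_paths.1 ha) (mem_paths.1 hb))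
  · intro X X'
    have h0 : 0 ≤ F φ3 (X ⊓ X') * F φ4 (X ⊔ X') := mul_nonneg (hF _ h3 _) (hF _ h4 _)
    by_cases hX : IsPath N X
    swap
    · simpa only [F, if_neg hX, zero_mul] using h0
    by_cases hX' : IsPath N X'
    swap
    · simpa only [F, if_neg hX', mul_zero] using h0
    rcases Nat.eq_zero_or_pos (X 1) with e | e
    · have : F φ1 X = 0 := by simp [F, pw, k0, e]
      rw [this, zero_mul]; exact h0
    rcases Nat.eq_zero_or_pos (X' 1) with e' | e'
    · have : F φ2 X' = 0 := by simp [F, pw, k0, e']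
      rw [this, mul_zero]; exact h0
    simp only [F, if_pos hX, if_pos hX', if_pos (Path_inf hX hX'), if_pos (Path_sup hX hX')]
    rw [mul_mul_mul_comm, mul_mul_mul_comm (pw N t γ w (X ⊓ X'))]
    exact mul_le_mul (Path_pw_minmax ht htγ hw hX hX') (h X X' hX hX' e e')
      (mul_nonneg (h1 _) (h2 _))
      (mul_nonneg (pw_nonneg ht hγ hw N _) (pw_nonneg ht hγ hw N _))

theorem pin3 (t γ w : ℝ) {N i j k p q r : ℕ} (h1 : 1 ≤ i) (hij : i ≤ j) (hjk : j ≤ k)
    (hk : k ≤ N) (hpq : p ≤ q) (hqr : q ≤ r) (hr : r ≤ N) :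
    pS N t γ w (fun X => ind (X i = p ∧ X j = q ∧ X k = r)) =
      Vn t γ w i p * Wn t γ (j - i) (q - p) * Wn t γ (k - j) (r - q) *
        Wn t γ (N - k) (N - r) := by
  have hP : paths N = Path_pto N N := by
    ext X; rw [mem_paths, Path_mem]; rfl
  have e1 : pS N t γ w (fun X => ind (X i = p ∧ X j = q ∧ X k = r)) =
      Path_tr (Path_pin (Path_pin (Path_pin (Path_K0 t γ w) i p) j q) k r) 0 0 N N := by
    rw [← Path_markov, pS, hP]
    refine sum_congr rfl fun X _ => ?_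
    rw [Path_prod_pin _ (by omega) hk, Path_prod_pin _ (by omega) (by omega),
      Path_prod_pin _ h1 (by omega), Path_prod_K0 t γ w (by omega), ind_and, ind_and]
    ring
  have e2 : ∀ (K : ℕ → ℕ → ℕ → ℝ) (a b x y : ℕ), 1 ≤ a → a ≤ b →
      Path_tr (Path_pin K a x) 0 0 b y = Path_tr K 0 0 a x * Path_tr K a x (b - a) y := by
    intro K a b x y ha hab
    rw [← Path_tr_pin K ha x (b - a) y, Nat.add_sub_cancel' hab]
  have e3 : ∀ (K : ℕ → ℕ → ℕ → ℝ) (a x b y m : ℕ), a ≤ b →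
      Path_tr (Path_pin K a x) b y m = Path_tr K b y m := by
    intro K a x b y m hab
    exact Path_tr_congr b y m fun l hl _ => Path_pin_ne K x (by omega)
  rw [e1, e2 _ k N r N (by omega) hk, e2 _ j k q r (by omega) hjk, e2 _ i j p q h1 hij,
    e3 _ j q k r _ hjk, e3 _ i p k r _ (hij.trans hjk), e3 _ i p j q _ hij,
    Path_tr_V t γ w h1, Path_tr_free t γ w h1, Path_tr_free t γ w (h1.trans hij),
    Path_tr_free t γ w ((h1.trans hij).trans hjk), if_pos hpq, if_pos hqr, if_pos hr]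

theorem pin2 (t γ w : ℝ) {N j k q r : ℕ} (h1 : 1 ≤ j) (hjk : j ≤ k)
    (hk : k ≤ N) (hqr : q ≤ r) (hr : r ≤ N) :
    pS N t γ w (fun X => ind (X j = q ∧ X k = r)) =
      Vn t γ w j q * Wn t γ (k - j) (r - q) * Wn t γ (N - k) (N - r) := by
  have := pin3 t γ w h1 le_rfl hjk hk le_rfl hqr hr
  simp only [Nat.sub_self, Wn, if_true, mul_one] at this
  rw [← this]
  exact congrArg _ (funext fun X => ind_congr (by tauto))

theorem pin1 (t γ w : ℝ) {N k r : ℕ} (h1 : 1 ≤ k) (hk : k ≤ N) (hr : r ≤ N) :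
    pS N t γ w (fun X => ind (X k = r)) = Vn t γ w k r * Wn t γ (N - k) (N - r) := by
  have := pin2 t γ w h1 le_rfl hk le_rfl hr
  simp only [Nat.sub_self, Wn, if_true, mul_one] at this
  rw [← this]
  exact congrArg _ (funext fun X => ind_congr (by tauto))

end Pool.Agent.Work.MP_413ea6_mp
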