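import Pool.Agent.Work.MP_413ea6_mp.Free
import Pool.Agent.Work.MP_413ea6_mp.Path

open Filter Topology Finset

namespace Pool.Agent.Work.MP_413ea6_mp

/-! Pinned free walks follow straight lines. -/

theorem Pin_term_le {t γ w : ℝ} (ht : 0 < t) (hγ : 0 < γ) (hw : 0 < w) (j : ℕ) {p u : ℕ}
    (hu : u ≤ p) : k0 t γ w u * Wn t γ (j - 1) (p - u) ≤ Vn t γ w j p :=
  single_le_sum (f := fun u => k0 t γ w u * Wn t γ (j - 1) (p - u))
    (fun _ _ => mul_nonneg (k0_nonneg ht hγ hw _) (Wn_nonneg ht hγ _ _))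
    (mem_range.2 (Nat.lt_succ_of_le hu))

theorem Pin_Vn_pos {t γ w : ℝ} (ht : 0 < t) (hγ : 0 < γ) (hw : 0 < w) (j : ℕ) {p : ℕ}
    (hp : 1 ≤ p) : 0 < Vn t γ w j p := by
  refine lt_of_lt_of_le ?_ (Pin_term_le ht hγ hw j (le_refl p))
  rw [Nat.sub_self, Wn_zero_right, k0, if_neg (by omega)]
  positivity

theorem pin_pos1 {t γ w : ℝ} (ht : 0 < t) (hγ : 0 < γ) (hw : 0 < w) {N J : ℕ} (h1 : 1 ≤ J)
    (hJ : J ≤ N) : 0 < pS N t γ w (fun X => ind (X J = N)) := by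
  rw [pin1 t γ w h1 hJ le_rfl, Nat.sub_self, Wn_zero_right]
  exact mul_pos (Pin_Vn_pos ht hγ hw J (h1.trans hJ)) (pow_pos ht _)

theorem pin_pos2 {t γ w : ℝ} (ht : 0 < t) (hγ : 0 < γ) (hw : 0 < w) {N i k p r : ℕ}
    (h1 : 1 ≤ i) (hik : i < k) (hk : k < N) (hp : 1 ≤ p) (hpr : p ≤ r) (hr : r ≤ N) :
    0 < pS N t γ w (fun X => ind (X i = p ∧ X k = r)) := by
  rw [pin2 t γ w h1 hik.le hk.le hpr hr]
  exact mul_pos (mul_pos (Pin_Vn_pos ht hγ hw i hp) (Wn_pos ht hγ (by omega) _))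
    (Wn_pos ht hγ (by omega) _)

theorem Pin_k0 {t γ z : ℝ} (ht : 0 < t) (hz : 1 < z) {u : ℕ} (hu : 1 ≤ u) :
    k0 t γ z u * (z * t)⁻¹ ^ u = γ * (z * t)⁻¹ := by
  have h : z * t ≠ 0 := (mul_pos (one_pos.trans hz) ht).ne'
  obtain ⟨v, rfl⟩ := Nat.exists_eq_add_of_le' hu
  rw [k0, if_neg (by omega), Nat.add_sub_cancel, pow_succ, mul_assoc, ← mul_assoc ((z * t) ^ v),
    ← mul_pow, mul_inv_cancel₀ h, one_pow, one_mul]

theorem Pin_k0_le {t γ z : ℝ} (ht : 0 < t) (hγ : 0 < γ) (hz : 1 < z) (u : ℕ) :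
    k0 t γ z u * (z * t)⁻¹ ^ u ≤ γ * (z * t)⁻¹ := by
  have hz0 : 0 < z := one_pos.trans hz
  rcases Nat.eq_zero_or_pos u with rfl | hu
  · rw [k0, if_pos rfl, zero_mul]
    positivity
  · exact (Pin_k0 ht hz hu).le

theorem Pin_Vn_le {t γ z : ℝ} (ht : 0 < t) (hγ : 0 < γ) (hz : 1 < z) (j : ℕ) {p N : ℕ}
    (hp : p ≤ N) : Vn t γ z j p * (z * t)⁻¹ ^ p ≤
      ((N : ℝ) + 1) * (γ * (z * t)⁻¹ * rho t γ z ^ (j - 1)) := by
  have hz0 : 0 < z := one_pos.trans hz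
  have hρ := rho_pos ht hγ hz
  rw [Vn, sum_mul]
  refine (sum_le_card_nsmul _ _ (γ * (z * t)⁻¹ * rho t γ z ^ (j - 1)) fun u hu => ?_).trans ?_
  · have hu' : u ≤ p := Nat.lt_succ_iff.1 (mem_range.1 hu)
    have h1 : (z * t)⁻¹ ^ p = (z * t)⁻¹ ^ u * (z * t)⁻¹ ^ (p - u) := by
      rw [← pow_add, Nat.add_sub_cancel' hu']
    rw [h1, mul_mul_mul_comm]
    exact mul_le_mul (Pin_k0_le ht hγ hz u) (free_le ht hγ hz _ _)
      (mul_nonneg (Wn_nonneg ht hγ _ _) (by positivity)) (by positivity)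
  · rw [card_range, nsmul_eq_mul]
    refine mul_le_mul_of_nonneg_right ?_ (by positivity)
    exact_mod_cast Nat.succ_le_succ hp

theorem Pin_Vn_ge {t γ z θ : ℝ} (ht : 0 < t) (hγ : 0 < γ) (hz : 1 < z) (h0 : 0 < θ)
    (h1 : θ < 1) : ∀ᶠ N : ℕ in atTop, ∀ J r : ℕ, 1 ≤ J → J ≤ N →
      lamW t γ z * ((J : ℝ) - 1) + 1 ≤ r →
      θ ^ N * (γ * (z * t)⁻¹ * rho t γ z ^ (J - 1)) ≤ Vn t γ z J r * (z * t)⁻¹ ^ r := by
  have hz0 : 0 < z := one_pos.trans hz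
  have hl := lamW_pos ht hγ hz
  filter_upwards [free_low ht hγ hz h0 h1 1] with N hN J r hJ1 hJN hr
  obtain ⟨n, rfl⟩ := Nat.exists_eq_add_of_le' hJ1
  rw [Nat.add_sub_cancel]
  push_cast at hr
  rw [add_sub_cancel_right] at hr
  have hx : 0 ≤ lamW t γ z * n := by positivity
  set d := ⌊lamW t γ z * n⌋₊ with hd
  have hd1 : (d : ℝ) ≤ lamW t γ z * n := Nat.floor_le hx
  have hd2 : lamW t γ z * n < d + 1 := Nat.lt_floor_add_one _
  have hdr : d + 1 ≤ r := by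
    have : ((d + 1 : ℕ) : ℝ) ≤ r := by push_cast; linarith
    exact_mod_cast this
  have key : θ ^ N * rho t γ z ^ n ≤ Wn t γ n d * (z * t)⁻¹ ^ d := by
    rcases Nat.eq_zero_or_pos n with rfl | hn
    · have h2 : d = 0 := by simp [hd]
      rw [h2, Wn_zero_right]
      simpa using pow_le_one₀ h0.le h1.le
    · refine hN n d hn (by omega) (abs_le.2 ⟨?_, ?_⟩) <;> linarith
  have h3 := Pin_term_le ht hγ hz0 (n + 1) (Nat.sub_le r d)
  rw [Nat.add_sub_cancel, Nat.sub_sub_self (by omega)] at h3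
  refine le_trans ?_ (mul_le_mul_of_nonneg_right h3 (by positivity))
  have h4 : (z * t)⁻¹ ^ r = (z * t)⁻¹ ^ (r - d) * (z * t)⁻¹ ^ d := by
    rw [← pow_add, Nat.sub_add_cancel (by omega)]
  rw [h4, mul_mul_mul_comm, Pin_k0 ht hz (by omega), mul_left_comm]
  exact mul_le_mul_of_nonneg_left key (by positivity)

theorem Pin_split {θ0 : ℝ} (h0 : 0 < θ0) (h1 : θ0 < 1) (k : ℕ) :
    ∃ θ θ1 : ℝ, 0 < θ ∧ θ < 1 ∧ 0 < θ1 ∧ θ1 < 1 ∧
      ∀ᶠ N : ℕ in atTop, ((N : ℝ) + 1) ^ k * θ0 ^ N ≤ θ ^ N * θ1 ^ N := by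
  obtain ⟨θ, h2, h3⟩ := exists_between h1
  have h4 : 0 < θ := h0.trans h2
  obtain ⟨θ1, h5, h6⟩ := exists_between ((div_lt_one h4).2 h2)
  refine ⟨θ, θ1, h4, h3, (div_pos h0 h4).trans h5, h6, ?_⟩
  rw [div_lt_iff₀' h4] at h5
  filter_upwards [poly_geom h0 h5 1 k] with N hN
  rwa [one_mul, mul_pow] at hN

theorem Pin_union {t γ w : ℝ} (ht : 0 < t) (hγ : 0 < γ) (hw : 0 < w) {N : ℕ} {ι : Type*}
    (s : Finset ι) {A : (ℕ → ℕ) → Prop} (E : ι → (ℕ → ℕ) → Prop)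
    (h : ∀ X, IsPath N X → A X → ∃ i ∈ s, E i X) {B M : ℝ} (hB0 : 0 ≤ B)
    (hB : ∀ i ∈ s, pS N t γ w (fun X => ind (E i X)) ≤ B) (hM : (s.card : ℝ) ≤ M) :
    pS N t γ w (fun X => ind (A X)) ≤ M * B := by
  refine (pS_mono ht hγ hw (φ' := fun X => ∑ i ∈ s, ind (E i X)) fun X hX _ =>
    (ind_mono (h X hX)).trans (ind_exists_le s fun i => E i X)).trans ?_
  rw [pS_sum]
  refine (sum_le_card_nsmul _ _ B hB).trans ?_
  rw [nsmul_eq_mul]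
  exact mul_le_mul_of_nonneg_right hM hB0

theorem free_pin {t γ z δ : ℝ} (ht : 0 < t) (hγ : 0 < γ) (hz : 1 < z) (hδ : 0 < δ) :
    ∃ θ : ℝ, 0 < θ ∧ θ < 1 ∧ ∀ᶠ N : ℕ in atTop, ∀ J r : ℕ, 1 ≤ J → J ≤ N → r ≤ N →
      lamW t γ z * ((J : ℝ) - 1) + 1 ≤ r →
      pS N t γ z (fun X => ind (X J = r ∧ ∃ j ∈ Icc 1 J,
          δ * N ≤ |(X j : ℝ) - r + lamW t γ z * ((J : ℝ) - j)|)) ≤
        θ ^ N * pS N t γ z (fun X => ind (X J = r)) := by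
  classical
  have hz0 : 0 < z := one_pos.trans hz
  have hρ := rho_pos ht hγ hz
  obtain ⟨θ0, ha, hb, hgain⟩ := free_gain ht hγ hz hδ
  obtain ⟨θ, θ1, h1, h2, h3, h4, hpoly⟩ := Pin_split ha hb 3
  refine ⟨θ, h1, h2, ?_⟩
  filter_upwards [hpoly, Pin_Vn_ge ht hγ hz h3 h4] with N hN hV J r hJ1 hJN hr hlam
  have hE := Wn_nonneg ht hγ (N - J) (N - r)
  have hal : 0 < (z * t)⁻¹ ^ r := by positivity
  refine (Pin_union ht hγ hz0
    ((Icc 1 J ×ˢ range (r + 1)).filter fun a : ℕ × ℕ =>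
      δ * N ≤ |(a.2 : ℝ) - r + lamW t γ z * ((J : ℝ) - a.1)|)
    (fun a X => X a.1 = a.2 ∧ X J = r) ?_
    (B := ((N : ℝ) + 1) * θ0 ^ N * (γ * (z * t)⁻¹ * rho t γ z ^ (J - 1)) / (z * t)⁻¹ ^ r *
      Wn t γ (N - J) (N - r)) (M := ((N : ℝ) + 1) ^ 2) (by positivity) ?_ ?_).trans ?_
  · rintro X hX ⟨h5, j, hj, h6⟩
    refine ⟨(j, X j), mem_filter.2 ⟨mem_product.2 ⟨hj, mem_range.2 (Nat.lt_succ_of_le ?_)⟩, h6⟩,
      rfl, h5⟩
    rw [← h5]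
    exact hX.2.1 (mem_Icc.1 hj).2
  · rintro ⟨j, p⟩ hjp
    obtain ⟨h5, h6⟩ := mem_filter.1 hjp
    obtain ⟨h7, h8⟩ := mem_product.1 h5
    obtain ⟨hj1, hjJ⟩ := mem_Icc.1 h7
    have hpr : p ≤ r := Nat.lt_succ_iff.1 (mem_range.1 h8)
    dsimp only at h6 hj1 hjJ ⊢
    rw [pin2 t γ z hj1 hjJ hJN hpr hr]
    refine mul_le_mul_of_nonneg_right ?_ hE
    rw [le_div_iff₀ hal]
    have h9 : (z * t)⁻¹ ^ r = (z * t)⁻¹ ^ p * (z * t)⁻¹ ^ (r - p) := by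
      rw [← pow_add, Nat.add_sub_cancel' hpr]
    have h10 : rho t γ z ^ (J - 1) = rho t γ z ^ (j - 1) * rho t γ z ^ (J - j) := by
      rw [← pow_add]
      congr 1
      omega
    have h11 := hgain N (J - j) (r - p) (by omega) (by
      rw [Nat.cast_sub hpr, Nat.cast_sub hjJ, ← abs_neg]
      convert h6 using 2
      ring)
    rw [h9, mul_mul_mul_comm, h10]
    refine (mul_le_mul (Pin_Vn_le ht hγ hz j (hpr.trans hr)) h11
      (mul_nonneg (Wn_nonneg ht hγ _ _) (by positivity)) (by positivity)).trans (le_of_eq ?_)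
    ring
  · have h5 := card_filter_le (Icc 1 J ×ˢ range (r + 1)) fun a : ℕ × ℕ =>
      δ * N ≤ |(a.2 : ℝ) - r + lamW t γ z * ((J : ℝ) - a.1)|
    rw [card_product, Nat.card_Icc, card_range] at h5
    have h6 : (J + 1 - 1) * (r + 1) ≤ (N + 1) ^ 2 := by
      rw [sq]
      exact Nat.mul_le_mul (by omega) (by omega)
    exact_mod_cast h5.trans h6
  · rw [pin1 t γ z hJ1 hJN hr, ← mul_assoc (_ ^ 2), ← mul_assoc (θ ^ N)]
    refine mul_le_mul_of_nonneg_right ?_ hE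
    rw [← mul_div_assoc, div_le_iff₀ hal, mul_assoc (θ ^ N)]
    refine le_trans ?_ (mul_le_mul_of_nonneg_left (hV J r hJ1 hJN hlam) (by positivity))
    rw [← mul_assoc (θ ^ N)]
    refine le_trans (le_of_eq ?_) (mul_le_mul_of_nonneg_right hN (by positivity))
    ring

theorem free_bridge {t γ w z δ : ℝ} (ht : 0 < t) (hγ : 0 < γ) (hw : 0 < w) (hz : 1 < z)
    (hδ : 0 < δ) (C : ℝ) :
    ∃ θ : ℝ, 0 < θ ∧ θ < 1 ∧ ∀ᶠ N : ℕ in atTop, ∀ i j k p r : ℕ, 1 ≤ i → i ≤ j → j ≤ k → i < k →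
      k ≤ N → p ≤ r → r ≤ N → |(r : ℝ) - p - lamW t γ z * ((k : ℝ) - i)| ≤ C →
      pS N t γ w (fun X => ind ((X i = p ∧ X k = r) ∧
          (X j : ℝ) + δ * N ≤ p + lamW t γ z * ((j : ℝ) - i))) ≤
        θ ^ N * pS N t γ w (fun X => ind (X i = p ∧ X k = r)) := by
  classical
  have hz0 : 0 < z := one_pos.trans hz
  have hρ := rho_pos ht hγ hz
  obtain ⟨θ0, ha, hb, hgain⟩ := free_gain ht hγ hz hδ
  obtain ⟨θ, θ1, h1, h2, h3, h4, hpoly⟩ := Pin_split ha hb 1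
  refine ⟨θ, h1, h2, ?_⟩
  filter_upwards [hpoly, free_low ht hγ hz h3 h4 C] with N hN hlow i j k p r hi hij hjk hik hk
    hpr hr hC
  have hE := Wn_nonneg ht hγ (N - k) (N - r)
  have hV := Vn_nonneg ht hγ hw i p
  have hal : 0 < (z * t)⁻¹ ^ (r - p) := by positivity
  refine (Pin_union ht hγ hw
    ((Icc p r).filter fun q : ℕ => (q : ℝ) + δ * N ≤ p + lamW t γ z * ((j : ℝ) - i))
    (fun q X => X i = p ∧ X j = q ∧ X k = r) ?_
    (B := Vn t γ w i p * (θ0 ^ N * rho t γ z ^ (k - i) / (z * t)⁻¹ ^ (r - p)) *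
      Wn t γ (N - k) (N - r)) (M := ((N : ℝ) + 1) ^ 1) (by positivity) ?_ ?_).trans ?_
  · rintro X hX ⟨⟨h5, h6⟩, h7⟩
    refine ⟨X j, mem_filter.2 ⟨mem_Icc.2 ⟨?_, ?_⟩, h7⟩, h5, rfl, h6⟩
    · rw [← h5]
      exact hX.2.1 hij
    · rw [← h6]
      exact hX.2.1 hjk
  · intro q hq
    obtain ⟨h5, h6⟩ := mem_filter.1 hq
    obtain ⟨hpq, hqr⟩ := mem_Icc.1 h5
    rw [pin3 t γ w hi hij hjk hk hpq hqr hr, mul_assoc (Vn t γ w i p)]
    refine mul_le_mul_of_nonneg_right (mul_le_mul_of_nonneg_left ?_ hV) hE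
    rw [le_div_iff₀ hal]
    have h9 : (z * t)⁻¹ ^ (r - p) = (z * t)⁻¹ ^ (q - p) * (z * t)⁻¹ ^ (r - q) := by
      rw [← pow_add]
      congr 1
      omega
    have h10 : rho t γ z ^ (k - i) = rho t γ z ^ (j - i) * rho t γ z ^ (k - j) := by
      rw [← pow_add]
      congr 1
      omega
    have h11 := hgain N (j - i) (q - p) (by omega) (by
      rw [Nat.cast_sub hpq, Nat.cast_sub hij, ← abs_neg]
      refine le_trans ?_ (le_abs_self _)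
      linarith)
    rw [h9, mul_mul_mul_comm, h10, ← mul_assoc (θ0 ^ N)]
    exact mul_le_mul h11 (free_le ht hγ hz _ _)
      (mul_nonneg (Wn_nonneg ht hγ _ _) (by positivity)) (by positivity)
  · have h5 := card_filter_le (Icc p r)
      fun q : ℕ => (q : ℝ) + δ * N ≤ p + lamW t γ z * ((j : ℝ) - i)
    rw [Nat.card_Icc] at h5
    have h6 : r + 1 - p ≤ (N + 1) ^ 1 := by
      rw [pow_one]
      omega
    exact_mod_cast h5.trans h6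
  · have h5 := hlow (k - i) (r - p) (by omega) (by omega) (by
      rw [Nat.cast_sub hpr, Nat.cast_sub hik.le]
      exact hC)
    have h6 : ((N : ℝ) + 1) ^ 1 * (θ0 ^ N * rho t γ z ^ (k - i) / (z * t)⁻¹ ^ (r - p)) ≤
        θ ^ N * Wn t γ (k - i) (r - p) := by
      rw [← mul_div_assoc, div_le_iff₀ hal, mul_assoc (θ ^ N), ← mul_assoc]
      refine (mul_le_mul_of_nonneg_right hN (by positivity)).trans ?_
      rw [mul_assoc]
      exact mul_le_mul_of_nonneg_left h5 (by positivity)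
    rw [pin2 t γ w hi hik.le hk hpr hr]
    refine le_trans (le_of_eq ?_) ((mul_le_mul_of_nonneg_right
      (mul_le_mul_of_nonneg_left h6 hV) hE).trans (le_of_eq ?_)) <;> ring

end Pool.Agent.Work.MP_413ea6_mp
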